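import Pool.Agent.FR.Pole

/-!
FR-N8: uniqueness of the model with a given ample divisor; sections of an ample divisor generate
the function field.
-/

set_option autoImplicit false

namespace Pool.Agent.FR

open scoped Classical

variable {K : Type} [Field K] [Algebra ℂ K]

private theorem au_pow {D : DVal K} {x : K} (hx : x ≠ 0) (n : ℕ) (z : ℤ) (h : z ≤ D.v x) :
    n * z ≤ D.v (x ^ n) := by
  rw [D.pow hx]
  exact mul_le_mul_of_nonneg_left h (by positivity)

private theorem au_half (X Y : Model (⊤ : IntermediateField ℂ K)) (c c' : DVal K → ℤ)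
    (hX : IsAmple X c) (hY : IsAmple Y c') (p q : ℕ) (hp : 0 < p)
    (hc : ∀ D, IsPrimeDiv X D → (p : ℤ) * c D = q * c' D)
    (h : ∀ D, IsPrimeDiv X D ↔ IsPrimeDiv Y D) (V : ValuationSubring K) (hV : IsPlace V) :
    locRing X.g V ⊆ locRing Y.g V := by
  obtain ⟨m, N, s, hm, hs0, hsge, hsV⟩ := hX
  obtain ⟨m', N', s', hm', hs0', hsge', hsV'⟩ := hY
  obtain ⟨i, hi1, hi2, hi3⟩ := hsV V hV
  obtain ⟨i', -, hi2', -⟩ := hsV' V hV
  -- the exponents
  obtain ⟨e, he⟩ : ∃ e, e + 1 = m' * p := ⟨m' * p - 1, by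
    have : 0 < m' * p := Nat.mul_pos hm' hp
    omega⟩
  obtain ⟨e', he'⟩ : ∃ e', e' = m * q := ⟨_, rfl⟩
  have hce : ∀ D, IsPrimeDiv X D → ((e + 1 : ℕ) : ℤ) * (m * c D) = (e' : ℤ) * (m' * c' D) := by
    intro D hD
    rw [he, he']
    push_cast
    linear_combination ((m : ℤ) * m') * hc D hD
  have hP0 : s i ^ (e + 1) ≠ 0 := pow_ne_zero _ (hs0 i)
  have hP0' : s' i' ^ e' ≠ 0 := pow_ne_zero _ (hs0' i')
  -- products of sections of `X` over the local section of `Y`
  have h1 : ∀ j, s j * s i ^ e / s' i' ^ e' ∈ locRing Y.g V := by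
    intro j
    by_contra hcon
    obtain ⟨D, hD, hneg⟩ := exists_pole Y V hV _ hcon
    have hDX : IsPrimeDiv X D := (h D).2 hD.1
    rw [D.div' (mul_ne_zero (hs0 j) (pow_ne_zero _ (hs0 i))) hP0',
      D.mul _ _ (hs0 j) (pow_ne_zero _ (hs0 i)), D.pow (hs0' i'), hi2' D hD] at hneg
    have a1 := hsge j D hDX
    have a2 := au_pow (hs0 i) e _ (hsge i D hDX)
    have a3 := hce D hDX
    push_cast at a3
    nlinarith
  have h2 : s' i' ^ e' / s i ^ (e + 1) ∈ locRing X.g V := by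
    by_contra hcon
    obtain ⟨D, hD, hneg⟩ := exists_pole X V hV _ hcon
    have hDY : IsPrimeDiv Y D := (h D).1 hD.1
    rw [D.div' hP0' hP0, D.pow (hs0 i), hi2 D hD] at hneg
    have a2 := au_pow (hs0' i') e' _ (hsge' i' D hDY)
    have a3 := hce D hD.1
    push_cast at a3 hneg
    nlinarith
  have h3 : s' i' ^ e' / s i ^ (e + 1) ∈ locRing Y.g V := by
    have h4 : s i ^ (e + 1) / s' i' ^ e' ∈ locRing Y.g V := by
      have := h1 i
      rwa [← pow_succ'] at this
    have h5 := locRing_inv Y.g Y.ne V hV _ h4 (div_ne_zero hP0 hP0') (by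
      rw [inv_div]
      exact locRing_le X.g V hV _ h2)
    rwa [inv_div] at h5
  have h4 : ∀ j, s j / s i ∈ locAlg Y.g Y.ne V hV := by
    intro j
    have h5 : s j / s i = (s j * s i ^ e / s' i' ^ e') * (s' i' ^ e' / s i ^ (e + 1)) := by
      have := hs0 i
      field_simp
      ring
    rw [h5]
    exact (locAlg Y.g Y.ne V hV).mul_mem (h1 j) h3
  have h5 : Algebra.adjoin ℂ (Set.range fun j => s j / s i) ≤ locAlg Y.g Y.ne V hV := by
    apply Algebra.adjoin_le
    rintro _ ⟨j, rfl⟩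
    exact h4 j
  intro x hx
  rw [hi3] at hx
  obtain ⟨a, ha, b, hb, hb0, hbV, rfl⟩ := hx
  have h6 : b⁻¹ ∈ locAlg Y.g Y.ne V hV := locRing_inv Y.g Y.ne V hV b (h5 hb) hb0 hbV
  rw [div_eq_mul_inv]
  exact (locAlg Y.g Y.ne V hV).mul_mem (h5 ha) h6

/-- Two models with the same prime divisors and proportional ample divisors are equal. -/
theorem ample_unique (X Y : Model (⊤ : IntermediateField ℂ K)) (c c' : DVal K → ℤ)
    (hX : IsAmple X c) (hY : IsAmple Y c') (p q : ℕ) (hp : 0 < p) (hq : 0 < q)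
    (hc : ∀ D, IsPrimeDiv X D → (p : ℤ) * c D = q * c' D)
    (h : ∀ D, IsPrimeDiv X D ↔ IsPrimeDiv Y D) (V : ValuationSubring K) (hV : IsPlace V) :
    locRing X.g V = locRing Y.g V :=
  Set.Subset.antisymm (au_half X Y c c' hX hY p q hp hc h V hV)
    (au_half Y X c' c hY hX q p hq (fun D hD => (hc D ((h D).2 hD)).symm)
      (fun D => (h D).symm) V hV)

/-- The sections of a multiple of an ample divisor generate `K`. -/
theorem ample_frac (Y : Model (⊤ : IntermediateField ℂ K)) (c : DVal K → ℤ) {m N : ℕ}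
    (s : Fin (N + 1) → K)
    (h : ∀ V : ValuationSubring K, IsPlace V → ∃ i, (∀ j, s j / s i ∈ V) ∧
      (∀ D, Through Y V D → D.v (s i) = -(m * c D)) ∧
      locRing Y.g V = {x | ∃ a ∈ Algebra.adjoin ℂ (Set.range fun j => s j / s i),
        ∃ b ∈ Algebra.adjoin ℂ (Set.range fun j => s j / s i), b ≠ 0 ∧ b⁻¹ ∈ V ∧ x = a / b})
    (L : IntermediateField ℂ K) (hL : ∀ i j, s j / s i ∈ L) : L = ⊤ := by
  have hV : IsPlace (⊤ : ValuationSubring K) := fun _ => ValuationSubring.mem_top _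
  obtain ⟨i, -, -, hi⟩ := h ⊤ hV
  have h1 : Algebra.adjoin ℂ (Set.range fun j => s j / s i) ≤ L.toSubalgebra := by
    apply Algebra.adjoin_le
    rintro _ ⟨j, rfl⟩
    exact hL i j
  have h2 : ∀ x ∈ locRing Y.g ⊤, x ∈ L := by
    intro x hx
    rw [hi] at hx
    obtain ⟨a, ha, b, hb, -, -, rfl⟩ := hx
    exact L.div_mem (h1 ha) (h1 hb)
  rw [eq_top_iff]
  intro x _
  obtain ⟨a, ha, b, hb, -, rfl⟩ := locRing_frac Y ⊤ hV x
  exact L.div_mem (h2 a ha) (h2 b hb)

end Pool.Agent.FR
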