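import Pool.Agent.FR.Check

/-!
Project FR (MP_c0959a_ag), row K6: the integer arithmetic behind the key inequality.
-/

set_option autoImplicit false

namespace Pool.Agent.FR

open Chk

/-- `check_main` for `q ≠ 6` -/
private theorem k6_main {q : ℕ} (hq : 0 < q) (h6 : q ≠ 6) {W : Fin 10 → ℕ}
    (hW : ∀ j, W j % kk j = q % kk j)
    {i₁ i₂ : Fin 10} (h12 : i₁ ≠ i₂) (h1 : W i₁ = 0) (h2 : W i₂ = 0) :
    ∃ j₀, W j₀ = 0 ∧ ∀ l, l ≠ j₀ → 11 * kk j₀ * W l + 60060 ≤ q + ∑ j, aa j * W j := by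
  have hW0 : ∀ {i}, W i = 0 → q % kk i = 0 := fun {i} h => by
    rw [← hW i, h, Nat.zero_mod]
  have hr1 := hW0 h1
  have hr2 := hW0 h2
  have hdec : ∀ l, W l = kk l * (W l / kk l) + q % kk l := fun l => by
    rw [← hW l, Nat.div_add_mod]
  have hsum1 : ∀ l, W l / kk l ≤ ∑ j, W j / kk j := fun l =>
    Finset.single_le_sum (f := fun j => W j / kk j) (fun _ _ => Nat.zero_le _) (Finset.mem_univ l)
  have hsum2 : ∀ l m, l ≠ m → W l / kk l + W m / kk m ≤ ∑ j, W j / kk j := fun l m hlm => by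
    have h3 : (∑ j ∈ ({l, m} : Finset (Fin 10)), W j / kk j) ≤ ∑ j, W j / kk j :=
      Finset.sum_le_sum_of_subset (Finset.subset_univ _)
    rwa [Finset.sum_pair hlm] at h3
  rcases lt_or_ge q 60060 with hq' | hq'
  swap
  · -- large q
    refine ⟨i₁, h1, fun l hl => ?_⟩
    have h3 : aa l * W l ≤ ∑ j, aa j * W j :=
      Finset.single_le_sum (f := fun j => aa j * W j) (fun _ _ => Nat.zero_le _) (Finset.mem_univ l)
    have h4 := Nat.mul_le_mul_right (W l) (k_le i₁ l hl.symm)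
    omega
  rw [sum_W hW]
  have hS := S_ge hq hq' h6 h12 hr1 hr2
  obtain ⟨jm, hjm, hjq⟩ := km_spec hr1
  have key : ∀ j₀ l, 11 * kk j₀ * W l = 11 * kk j₀ * kk l * (W l / kk l) +
      11 * kk j₀ * (q % kk l) := fun j₀ l => by
    conv_lhs => rw [hdec l]
    ring
  by_cases hm : W jm = 0
  · refine ⟨jm, hm, fun l hl => ?_⟩
    have h3 := chk_spec hq hq' h6 h12 hr1 hr2 l
    rw [← hjm] at h3
    have h4 := Nat.mul_le_mul_right (W l / kk l) (kk_le jm l hl.symm)
    have h5 := Nat.mul_le_mul_left 60060 (hsum1 l)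
    rw [key]
    omega
  · refine ⟨i₁, h1, fun l hl => ?_⟩
    have h4 := Nat.mul_le_mul_right (W l / kk l) (kk_le i₁ l hl.symm)
    have ht : 1 ≤ W jm / kk jm := by
      rcases Nat.eq_zero_or_pos (W jm / kk jm) with h | h
      · exfalso
        apply hm
        rw [hdec jm, h, hjq, Nat.mul_zero]
      · exact h
    rw [key]
    by_cases hlm : l = jm
    · subst hlm
      rw [hjq]
      have h5 := Nat.mul_le_mul_left 60060 (hsum1 l)
      omega
    · have h5 := Nat.mul_le_mul_left 60060 (hsum2 l jm hlm)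
      have h7 : 11 * kk i₁ * (q % kk l) ≤ 60060 :=
        le_trans (Nat.mul_le_mul_left _ (Nat.mod_lt _ (k_pos l)).le) (kk_le i₁ l hl.symm)
      omega

private theorem k6_sum (f : Fin 10 → ℤ) : ∑ j, f j =
    f 0 + f 1 + ∑ j : Fin 8, f j.succ.succ := by
  rw [Fin.sum_univ_succ, Fin.sum_univ_succ, ← add_assoc]
  rfl

/-- The arithmetic of the case of a centre at infinity. -/
theorem arith (V : Fin 10 → ℤ) (q : ℕ) (hq : 0 < q) (hV : ∀ j, -(q : ℤ) ≤ kk j * V j)
    (i j : Fin 10) (hij : i ≠ j) (hi : (kk i : ℤ) * V i = -q) (hj : (kk j : ℤ) * V j = -q) :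
    ∃ j₀, (kk j₀ : ℤ) * V j₀ = -q ∧ ∀ e : ℤ, 0 ≤ e →
      ((∀ l, l ≠ j₀ → 11 * (kk j₀ * (kk l * (V l + e) + q) - q) ≤
        60060 * (e - 1 + q + ∑ j, V j)) ∨
      (e = 0 ∧ q = 6 ∧ V 0 = -3 ∧ V 1 = -2 ∧ ∀ l, 2 ≤ l → V l = 0)) := by
  by_cases h6 : q = 6
  · subst h6
    have hdiv : ∀ i : Fin 10, (kk i : ℤ) * V i = -((6 : ℕ) : ℤ) → i = 0 ∨ i = 1 := by
      intro i hi
      have h1 : (kk i : ℤ) ∣ 6 := ⟨-V i, by push_cast at hi; linarith⟩
      have h2 : kk i ∣ 6 := by exact_mod_cast h1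
      have h3 : ∀ i : Fin 10, kk i ∣ 6 → i = 0 ∨ i = 1 := by decide
      exact h3 i h2
    have hV0 : V 0 = -3 := by
      have h : (kk 0 : ℤ) * V 0 = -((6 : ℕ) : ℤ) := by
        rcases hdiv i hi with h | h
        · rw [← h]; exact hi
        · rcases hdiv j hj with h' | h'
          · rw [← h']; exact hj
          · exact absurd (h.trans h'.symm) hij
      have hk : (kk 0 : ℤ) = 2 := rfl
      rw [hk] at h
      push_cast at h
      omega
    have hV1 : V 1 = -2 := by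
      have h : (kk 1 : ℤ) * V 1 = -((6 : ℕ) : ℤ) := by
        rcases hdiv i hi with h | h
        · rcases hdiv j hj with h' | h'
          · exact absurd (h.trans h'.symm) hij
          · rw [← h']; exact hj
        · rw [← h]; exact hi
      have hk : (kk 1 : ℤ) = 3 := rfl
      rw [hk] at h
      push_cast at h
      omega
    have hge : ∀ l : Fin 8, 0 ≤ V l.succ.succ := by
      intro l
      have h := hV l.succ.succ
      have hk : ∀ l : Fin 8, 28 ≤ kk l.succ.succ := by decide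
      have hk' : (28 : ℤ) ≤ (kk l.succ.succ : ℤ) := by exact_mod_cast hk l
      by_contra hneg
      push Not at hneg
      have h3 : (kk l.succ.succ : ℤ) * V l.succ.succ ≤ 28 * V l.succ.succ := by nlinarith
      push_cast at h
      omega
    have hsum := k6_sum V
    have ht0 : 0 ≤ ∑ l : Fin 8, V l.succ.succ := Finset.sum_nonneg fun l _ => hge l
    refine ⟨0, ?_, ?_⟩
    · rw [hV0]; rfl
    intro e he
    by_cases ht : e + ∑ l : Fin 8, V l.succ.succ = 0
    · right
      have ht' : ∑ l : Fin 8, V l.succ.succ = 0 := by omega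
      refine ⟨by omega, rfl, hV0, hV1, ?_⟩
      intro l hl
      have h := (Finset.sum_eq_zero_iff_of_nonneg (fun l _ => hge l)).1 ht'
      obtain ⟨m, rfl⟩ : ∃ m : Fin 8, l = m.succ.succ := by
        refine ⟨⟨l.val - 2, by omega⟩, ?_⟩
        ext
        have : (2 : ℕ) ≤ l.val := hl
        simp
        omega
      exact h m (Finset.mem_univ m)
    · left
      intro l hl
      rw [hsum, hV0, hV1]
      set t := ∑ l : Fin 8, V l.succ.succ with htdef
      have hk0 : (kk 0 : ℤ) = 2 := rfl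
      rw [hk0]
      push_cast
      have hcases : l = 1 ∨ ∃ m : Fin 8, l = m.succ.succ := by
        revert l
        decide
      rcases hcases with rfl | ⟨m, rfl⟩
      · have hk1 : (kk 1 : ℤ) = 3 := rfl
        rw [hk1, hV1]
        omega
      · have hk : ∀ l : Fin 8, kk l.succ.succ ≤ 77 := by decide
        have hk' : (kk m.succ.succ : ℤ) ≤ 77 := by exact_mod_cast hk m
        have hle : V m.succ.succ ≤ t :=
          Finset.single_le_sum (f := fun l : Fin 8 => V l.succ.succ) (fun l _ => hge l)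
            (Finset.mem_univ m)
        have h1 := hge m
        have h2 : (kk m.succ.succ : ℤ) * (V m.succ.succ + e) ≤ 77 * (t + e) := by
          calc (kk m.succ.succ : ℤ) * (V m.succ.succ + e) ≤ 77 * (V m.succ.succ + e) := by
                apply mul_le_mul_of_nonneg_right hk'
                omega
            _ ≤ 77 * (t + e) := by omega
        omega
  · have hW0 : ∀ j, 0 ≤ (kk j : ℤ) * V j + q := fun j => by
      have := hV j
      omega
    have hWc : ∀ j, (((kk j : ℤ) * V j + q).toNat : ℤ) = (kk j : ℤ) * V j + q := fun j =>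
      Int.toNat_of_nonneg (hW0 j)
    obtain ⟨j₀, h1, h2⟩ := k6_main (W := fun j => ((kk j : ℤ) * V j + q).toNat) hq h6 (fun j => by
      have h3 : ((((kk j : ℤ) * V j + q).toNat % kk j : ℕ) : ℤ) = ((q % kk j : ℕ) : ℤ) := by
        rw [Int.natCast_mod, hWc j, Int.natCast_mod, Int.mul_add_emod_self_left]
      exact_mod_cast h3) hij (by rw [hi]; simp) (by rw [hj]; simp)
    have h1' : (kk j₀ : ℤ) * V j₀ = -q := by
      have h3 := hWc j₀
      rw [h1] at h3
      push_cast at h3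
      omega
    refine ⟨j₀, h1', fun e he => Or.inl fun l hl => ?_⟩
    have h3 := h2 l hl
    have h4 : ((11 * kk j₀ * ((kk l : ℤ) * V l + q).toNat + 60060 : ℕ) : ℤ) ≤
        ((q + ∑ j, aa j * ((kk j : ℤ) * V j + q).toNat : ℕ) : ℤ) := by exact_mod_cast h3
    push_cast [hWc] at h4
    have h5 : ∑ j, (aa j : ℤ) * ((kk j : ℤ) * V j + q) = 60060 * ∑ j, V j + 60070 * q := by
      have h6 : ∀ j, (aa j : ℤ) * ((kk j : ℤ) * V j + q) = 60060 * V j + (aa j : ℤ) * q := by
        intro j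
        have h7 : (aa j : ℤ) * (kk j : ℤ) = 60060 := by exact_mod_cast a_mul_k j
        calc (aa j : ℤ) * ((kk j : ℤ) * V j + q)
            = ((aa j : ℤ) * (kk j : ℤ)) * V j + (aa j : ℤ) * q := by ring
          _ = _ := by rw [h7]
      rw [Finset.sum_congr rfl fun j _ => h6 j, Finset.sum_add_distrib, ← Finset.mul_sum,
        ← Finset.sum_mul]
      have h8 : ∑ j, (aa j : ℤ) = 60070 := by decide
      rw [h8]
    rw [h5] at h4
    have h7 : (11 * kk j₀ * kk l : ℤ) ≤ 60060 := by exact_mod_cast kk_le j₀ l hl.symm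
    have h8 : (11 * kk j₀ * kk l : ℤ) * e ≤ 60060 * e := mul_le_mul_of_nonneg_right h7 he
    have h9 : 11 * ((kk j₀ : ℤ) * (kk l * (V l + e) + q) - q)
        = 11 * kk j₀ * ((kk l : ℤ) * V l + q) + 11 * kk j₀ * kk l * e - 11 * q := by ring
    rw [h9]
    linarith

/-- The arithmetic of the case of an affine centre. -/
theorem arith0 (V : Fin 10 → ℤ) (hV : ∀ j, 0 ≤ V j) (hz : ∃ j, V j = 0) :
    ∃ j₀, V j₀ = 0 ∧ ∀ e : ℤ, 0 ≤ e → 2 ≤ e + ∑ j, V j →
      ∀ l, l ≠ j₀ → 11 * ((kk j₀ : ℤ) * (kk l * (V l + e))) ≤ 60060 * (e - 1 + ∑ j, V j) := by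
  have hsum : ∀ l m, l ≠ m → V l + V m ≤ ∑ j, V j := fun l m hlm => by
    have h3 : (∑ j ∈ ({l, m} : Finset (Fin 10)), V j) ≤ ∑ j, V j :=
      Finset.sum_le_sum_of_subset_of_nonneg (Finset.subset_univ _) fun j _ _ => hV j
    rwa [Finset.sum_pair hlm] at h3
  by_cases h2 : ∃ l m, l ≠ m ∧ V l ≠ 0 ∧ V m ≠ 0
  · obtain ⟨l₁, l₂, h12, h1, h2⟩ := h2
    obtain ⟨j₀, hj₀⟩ := hz
    refine ⟨j₀, hj₀, fun e he _ l hl => ?_⟩
    have h3 : V l + e ≤ e - 1 + ∑ j, V j := by
      have hp1 := hV l₁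
      have hp2 := hV l₂
      by_cases hl1 : l = l₁
      · have := hsum l l₂ (by rw [hl1]; exact h12)
        omega
      · have := hsum l l₁ hl1
        omega
    have h7 : (11 * kk j₀ * kk l : ℤ) ≤ 60060 := by exact_mod_cast kk_le j₀ l hl.symm
    have h4 : 0 ≤ V l + e := by have := hV l; omega
    calc 11 * ((kk j₀ : ℤ) * (kk l * (V l + e))) = (11 * kk j₀ * kk l) * (V l + e) := by ring
      _ ≤ 60060 * (V l + e) := mul_le_mul_of_nonneg_right h7 h4
      _ ≤ _ := by linarith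
  · have h01 : ∃ j₀ : Fin 10, V j₀ = 0 ∧ (kk j₀ : ℤ) ≤ 3 := by
      by_cases h0 : V 0 = 0
      · exact ⟨0, h0, by norm_num [kk]⟩
      · refine ⟨1, ?_, by norm_num [kk]⟩
        by_contra h1
        exact h2 ⟨0, 1, by decide, h0, h1⟩
    obtain ⟨j₀, hj₀, hk⟩ := h01
    refine ⟨j₀, hj₀, fun e he hA l hl => ?_⟩
    have hk77 : ∀ l : Fin 10, kk l ≤ 77 := by decide
    have hkl : (kk l : ℤ) ≤ 77 := by exact_mod_cast hk77 l
    have h4 : 0 ≤ V l + e := by have := hV l; omega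
    have h5 : V l ≤ ∑ j, V j := Finset.single_le_sum (fun j _ => hV j) (Finset.mem_univ l)
    have h6 : (kk l : ℤ) * (V l + e) ≤ 77 * (V l + e) := mul_le_mul_of_nonneg_right hkl h4
    have h7 : 0 ≤ (kk l : ℤ) * (V l + e) := by positivity
    have h8 : (kk j₀ : ℤ) * (kk l * (V l + e)) ≤ 3 * (kk l * (V l + e)) :=
      mul_le_mul_of_nonneg_right hk h7
    omega

end Pool.Agent.FR
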