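import Pool.Agent.FR.Kord

/-!
# Independence of the basis of the derivations

If `B` is replaced by another basis `B'` of the derivations of `K`, the function `kord` changes by
the divisor of a function, and the notions defined by `kord` do not change.
-/

set_option autoImplicit false

namespace Pool.Agent.FR

open scoped Classical

variable {K : Type} [Field K] [Algebra ℂ K]

section

variable {n : ℕ} (B B' : Module.Basis (Fin n) K (Derivation ℂ K K))

theorem jac_change : ∃ f : K, f ≠ 0 ∧ ∀ u : Fin n → K, jac B' u = f * jac B u := by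
  refine ⟨(B.toMatrix B').det, ?_, fun u => ?_⟩
  · have h := B.isUnit_det B'
    rw [Module.Basis.det_apply] at h
    exact h.ne_zero
  · rw [jac, jac, ← Matrix.det_transpose (B.toMatrix B'), ← Matrix.det_mul]
    congr 1
    ext i j
    rw [Matrix.mul_apply, Matrix.of_apply]
    have h1 : B' i = ∑ l, B.repr (B' i) l • B l := (B.sum_repr (B' i)).symm
    have h2 : B' i (u j) = ∑ l, B.repr (B' i) l * B l (u j) := by
      conv_lhs => rw [h1]
      have h3 : ∀ (s : Finset (Fin n)) (G : Fin n → Derivation ℂ K K),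
          (∑ l ∈ s, G l) (u j) = ∑ l ∈ s, G l (u j) := by
        intro s G
        induction s using Finset.induction_on with
        | empty => simp
        | insert a s ha ih => rw [Finset.sum_insert ha, Finset.sum_insert ha, Derivation.add_apply, ih]
      rw [h3]
      rfl
    rw [h2]
    rfl

/-- The change of `kord`. -/
theorem kord_change : ∃ f : K, f ≠ 0 ∧ ∀ D : DVal K, kord B' D = kord B D + D.v f := by
  obtain ⟨f, hf, h⟩ := jac_change B B'
  refine ⟨f⁻¹, inv_ne_zero hf, fun D => ?_⟩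
  obtain ⟨u, hu, hj, he⟩ := kord_eq B D
  obtain ⟨u', hu', hj', he'⟩ := kord_eq B' D
  have h1 : jac B' u ≠ 0 := by
    rw [h]; exact mul_ne_zero hf hj
  have h1' : jac B u' ≠ 0 := by
    intro h0
    rw [h, h0, mul_zero] at hj'
    exact hj' rfl
  have h2 := kord_le B' D u hu h1
  have h2' := kord_le B D u' hu' h1'
  rw [h, D.mul _ _ hf hj, he] at h2
  rw [h, D.mul _ _ hf h1'] at he'
  rw [D.inv hf]
  omega

end

/-! ### Twisting by the divisor of a function -/

theorem isLocEq_twist (X : Model (⊤ : IntermediateField ℂ K)) {c c' : DVal K → ℤ} {f : K}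
    (hf : f ≠ 0) (hc : ∀ D, c' D = c D + D.v f) (V : ValuationSubring K) (N : ℕ) (g : K)
    (h : IsLocEq X c V N g) : IsLocEq X c' V N (g * f ^ N) := by
  obtain ⟨hN, hg, h⟩ := h
  refine ⟨hN, mul_ne_zero hg (pow_ne_zero _ hf), fun D hD => ?_⟩
  rw [D.mul _ _ hg (pow_ne_zero _ hf), D.pow hf, h D hD, hc]
  ring

theorem qcartier_twist (X : Model (⊤ : IntermediateField ℂ K)) {c c' : DVal K → ℤ} {f : K}
    (hf : f ≠ 0) (hc : ∀ D, c' D = c D + D.v f) (h : QCartier X c) : QCartier X c' := by
  intro V hV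
  obtain ⟨N, g, hg⟩ := h V hV
  exact ⟨N, _, isLocEq_twist X hf hc V N g hg⟩

theorem isAmple_twist (X : Model (⊤ : IntermediateField ℂ K)) {c c' : DVal K → ℤ} {f : K}
    (hf : f ≠ 0) (hc : ∀ D, c' D = c D + D.v f) (h : IsAmple X c) : IsAmple X c' := by
  obtain ⟨m, N, s, hm, hs, h1, h2⟩ := h
  have hfm : (f ^ m)⁻¹ ≠ 0 := inv_ne_zero (pow_ne_zero _ hf)
  have hratio : ∀ i j, s j * (f ^ m)⁻¹ / (s i * (f ^ m)⁻¹) = s j / s i := fun i j =>
    mul_div_mul_right _ _ hfm
  refine ⟨m, N, fun i => s i * (f ^ m)⁻¹, hm, fun i => mul_ne_zero (hs i) hfm, ?_, ?_⟩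
  · intro i D hD
    rw [D.mul _ _ (hs i) hfm, D.inv (pow_ne_zero _ hf), D.pow hf, hc]
    have := h1 i D hD
    linarith
  · intro V hV
    obtain ⟨i, hi, h3, h4⟩ := h2 V hV
    refine ⟨i, ?_, ?_, ?_⟩
    · intro j
      simp only [hratio]
      exact hi j
    · intro D hD
      rw [D.mul _ _ (hs i) hfm, D.inv (pow_ne_zero _ hf), D.pow hf, hc, h3 D hD]
      ring
    · simp only [hratio]
      exact h4

section

variable {n : ℕ} (B B' : Module.Basis (Fin n) K (Derivation ℂ K K))

theorem isLogDisc_basis (X : Model (⊤ : IntermediateField ℂ K)) (D : DVal K) (a : ℝ)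
    (h : IsLogDisc B X D a) : IsLogDisc B' X D a := by
  obtain ⟨f, hf, hk⟩ := kord_change B B'
  obtain ⟨N, g, hg, ha⟩ := h
  refine ⟨N, _, isLocEq_twist X hf hk D.ring N g hg, ?_⟩
  have hN : (N : ℝ) ≠ 0 := by exact_mod_cast hg.1.ne'
  rw [ha, hk D, D.mul _ _ hg.2.1 (pow_ne_zero _ hf), D.pow hf]
  push_cast
  field_simp
  ring

theorem isLogDisc_basis_iff (X : Model (⊤ : IntermediateField ℂ K)) (D : DVal K) (a : ℝ) :
    IsLogDisc B X D a ↔ IsLogDisc B' X D a :=
  ⟨isLogDisc_basis B B' X D a, isLogDisc_basis B' B X D a⟩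

theorem isTerminal_basis (X : Model (⊤ : IntermediateField ℂ K)) (h : IsTerminal B X) :
    IsTerminal B' X := by
  obtain ⟨f, hf, hk⟩ := kord_change B B'
  exact ⟨qcartier_twist X hf hk h.1, fun D a h1 h2 => h.2 D a h1 (isLogDisc_basis B' B X D a h2)⟩

theorem isAmple_basis (X : Model (⊤ : IntermediateField ℂ K)) (a : ℕ) (e : DVal K → ℤ)
    (h : IsAmple X (fun D => -(a * kord B D) + e D)) :
    IsAmple X (fun D => -(a * kord B' D) + e D) := by
  obtain ⟨f, hf, hk⟩ := kord_change B' B
  refine isAmple_twist X (pow_ne_zero a hf) (fun D => ?_) h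
  rw [hk, D.pow hf]
  ring

theorem isFano_basis (X : Model (⊤ : IntermediateField ℂ K)) (h : IsFano B X) :
    IsFano B' X := by
  refine ⟨h.1, isTerminal_basis B B' X h.2.1, ?_⟩
  have h1 := h.2.2
  have h2 := isAmple_basis B B' X 1 (fun _ => 0) (by simpa using h1)
  simpa using h2

theorem picardOne_basis (X : Model (⊤ : IntermediateField ℂ K)) (h : PicardOne B X) :
    PicardOne B' X := by
  obtain ⟨f, hf, hk⟩ := kord_change B B'
  intro D₀ hD₀
  obtain ⟨N, c, g, hN, hg, h1⟩ := h D₀ hD₀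
  refine ⟨N, c, g * f ^ c, hN, mul_ne_zero hg (zpow_ne_zero _ hf), fun D hD => ?_⟩
  rw [D.mul _ _ hg (zpow_ne_zero _ hf), D.zpow hf, ← h1 D hD, hk]
  ring

theorem isMoriFibreSpace_basis (Y : Model (⊤ : IntermediateField ℂ K))
    (L : IntermediateField ℂ K) (S : Model L) (h : IsMoriFibreSpace B Y L S) :
    IsMoriFibreSpace B' Y L S where
  terminal := isTerminal_basis B B' Y h.terminal
  connected := h.connected
  dim := h.dim
  morphism := h.morphism
  ample := by
    obtain ⟨a, b, ha, h1⟩ := h.ample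
    exact ⟨a, b, ha, isAmple_basis B B' Y a _ h1⟩

theorem isBirRigid_basis (X : Model (⊤ : IntermediateField ℂ K)) (h : IsBirRigid B X) :
    IsBirRigid B' X :=
  ⟨isFano_basis B B' X h.1, picardOne_basis B B' X h.2.1, fun Y L S hY =>
    h.2.2 Y L S (isMoriFibreSpace_basis B' B Y L S hY)⟩

theorem isBirRigid_basis_iff (X : Model (⊤ : IntermediateField ℂ K)) :
    IsBirRigid B X ↔ IsBirRigid B' X :=
  ⟨isBirRigid_basis B B' X, isBirRigid_basis B' B X⟩

theorem sections_basis_le {f : K} (hf : f ≠ 0) (hk : ∀ D : DVal K, kord B' D = kord B D + D.v f)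
    (X : Model (⊤ : IntermediateField ℂ K)) (D : DVal K) (a : ℝ) (m : ℕ) (t : ℝ) :
    (sections B X D a m t).map (LinearMap.mulLeft ℂ (f ^ m)) ≤ sections B' X D a m t := by
  rw [sections, sections, Submodule.map_span_le]
  rintro h ⟨h0, h1, h2⟩
  have hfm : f ^ m ≠ 0 := pow_ne_zero _ hf
  apply Submodule.subset_span
  rw [LinearMap.mulLeft_apply]
  refine ⟨mul_ne_zero hfm h0, fun D' hD' => ?_, ?_⟩
  · rw [D'.mul _ _ hfm h0, D'.pow hf, hk]
    have := h1 D' hD'
    linarith
  · rw [D.mul _ _ hfm h0, D.pow hf, hk]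
    push_cast
    linarith

theorem finrank_sections_basis (X : Model (⊤ : IntermediateField ℂ K)) (D : DVal K) (a : ℝ)
    (m : ℕ) (t : ℝ) :
    Module.finrank ℂ (sections B X D a m t) = Module.finrank ℂ (sections B' X D a m t) := by
  obtain ⟨f, hf, hk⟩ := kord_change B B'
  have hk' : ∀ D : DVal K, kord B D = kord B' D + D.v f⁻¹ := by
    intro D
    rw [hk, D.inv hf]
    ring
  have hfm : f ^ m ≠ 0 := pow_ne_zero _ hf
  have h1 := sections_basis_le B B' hf hk X D a m t
  have h2 := sections_basis_le B' B (inv_ne_zero hf) hk' X D a m t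
  have h3 : (sections B X D a m t).map (LinearMap.mulLeft ℂ (f ^ m)) = sections B' X D a m t := by
    refine le_antisymm h1 fun x hx => ?_
    refine ⟨(f⁻¹) ^ m * x, h2 ⟨x, hx, rfl⟩, ?_⟩
    rw [LinearMap.mulLeft_apply, inv_pow, mul_inv_cancel_left₀ hfm]
  rw [← h3]
  have hinj : Function.Injective (LinearMap.mulLeft ℂ (f ^ m) : K →ₗ[ℂ] K) := by
    intro x y hxy
    exact mul_left_cancel₀ hfm hxy
  exact (Submodule.equivMapOfInjective _ hinj _).finrank_eq

theorem vol_basis (X : Model (⊤ : IntermediateField ℂ K)) (D : DVal K) (a t : ℝ) :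
    vol B X D a t = vol B' X D a t := by
  unfold vol
  simp only [finrank_sections_basis B B' X D a]

theorem beta_basis (X : Model (⊤ : IntermediateField ℂ K)) (D : DVal K) (a : ℝ) :
    beta B X D a = beta B' X D a := by
  unfold beta
  simp only [vol_basis B B' X D a]

theorem isKStable_basis (X : Model (⊤ : IntermediateField ℂ K)) (h : IsKStable B X) :
    IsKStable B' X := by
  intro D a ha
  rw [← beta_basis B B' X D a]
  exact h D a (isLogDisc_basis B' B X D a ha)

theorem isKStable_basis_iff (X : Model (⊤ : IntermediateField ℂ K)) :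
    IsKStable B X ↔ IsKStable B' X :=
  ⟨isKStable_basis B B' X, isKStable_basis B' B X⟩

end

/-- The number of elements of a basis is determined by `K`. -/
theorem basis_card {n n' : ℕ} (B : Module.Basis (Fin n) K (Derivation ℂ K K))
    (B' : Module.Basis (Fin n') K (Derivation ℂ K K)) : n = n' := by
  have h1 := Module.finrank_eq_card_basis B
  have h2 := Module.finrank_eq_card_basis B'
  rw [Fintype.card_fin] at h1 h2
  omega

end Pool.Agent.FR
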