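import Pool.Agent.FR.Vol

/-!
# The invariant `β` of the divisor at infinity
-/

set_option autoImplicit false

namespace Pool.Agent.FR

open MvPolynomial MeasureTheory
open scoped Classical

variable {K : Type} [Field K] [Algebra ℂ K]

/-- `∫_0^11 (11 - t)^9 dt = 11^10 / 10`. -/
theorem beta_integral :
    ∫ t in (0 : ℝ)..11, (11 - t) ^ 9 = 11 ^ 10 / 10 := by
  have h := intervalIntegral.integral_comp_sub_left (fun x : ℝ => x ^ 9) (a := 0) (b := 11) 11
  rw [h, integral_pow]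
  norm_num

/-- The integral over the half line of a function which is `v (11 - t)^9` up to `11` and then
zero. -/
theorem beta_integral_Ioi (f : ℝ → ℝ) (v : ℝ)
    (h1 : ∀ t : ℝ, 0 ≤ t → t ≤ 11 → f t = v * (11 - t) ^ 9) (h2 : ∀ t : ℝ, 11 < t → f t = 0) :
    ∫ t in Set.Ioi (0 : ℝ), f t = v * (11 ^ 10 / 10) := by
  have e1 : ∫ t in Set.Ioi (0 : ℝ), f t = ∫ t in Set.Ioc (0 : ℝ) 11, f t := by
    apply setIntegral_eq_of_subset_of_forall_sdiff_eq_zero measurableSet_Ioi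
    · exact Set.Ioc_subset_Ioi_self
    · rintro t ⟨ht, hn⟩
      apply h2
      by_contra hc
      exact hn ⟨ht, not_lt.1 hc⟩
  rw [e1]
  have e2 : ∫ t in Set.Ioc (0 : ℝ) 11, f t = ∫ t in Set.Ioc (0 : ℝ) 11, v * (11 - t) ^ 9 := by
    apply setIntegral_congr_fun measurableSet_Ioc
    intro t ht
    exact h1 t ht.1.le ht.2
  rw [e2, ← intervalIntegral.integral_of_le (by norm_num : (0 : ℝ) ≤ 11),
    intervalIntegral.integral_const_mul, beta_integral]

/-- The value of `β` from the volume function. -/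
theorem beta_of_vol (B : Module.Basis (Fin 9) K (Derivation ℂ K K)) (E : DVal K)
    (X : Model (⊤ : IntermediateField ℂ K)) (v : ℝ) (hv : 0 < v)
    (h1 : ∀ t : ℝ, 0 ≤ t → t ≤ 11 → vol B X E 1 t = v * (11 - t) ^ 9)
    (h2 : ∀ t : ℝ, 11 < t → vol B X E 1 t = 0) : beta B X E 1 = -1 / 10 := by
  have h0 : vol B X E 1 0 = v * 11 ^ 9 := by
    rw [h1 0 le_rfl (by norm_num)]; norm_num
  have hI : ∫ t in Set.Ioi (0 : ℝ), vol B X E 1 t = v * (11 ^ 10 / 10) :=
    beta_integral_Ioi _ v h1 h2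
  rw [beta, hI, h0]
  have hv' : v ≠ 0 := hv.ne'
  field_simp
  norm_num

section Vol
variable (F : FD 7 kk K) (B : Module.Basis (Fin 9) K (Derivation ℂ K K)) (E : DVal K)
  (hE : IsDeg F aa E) (X : Model (⊤ : IntermediateField ℂ K)) (hX : IsSuper B X E 11)
  (hr : ∀ h : K, h ≠ 0 → ((∀ D, IsPrimeDiv X D → D ≠ E → 0 ≤ D.v h) ↔ h ∈ F.A))
  (hd : ∀ j : ℕ, Module.finrank ℂ
    (Submodule.span ℂ {h : K | h ∈ F.A ∧ h ≠ 0 ∧ -(j : ℤ) ≤ E.v h}) = hA aa j)
include hE hX hr hd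

theorem beta_eq : beta B X E 1 = -1 / 10 := by
  obtain ⟨v, hv, h1, h2⟩ := vol_eq F B E hE X hX hr hd
  exact beta_of_vol B E X v hv h1 h2

end Vol

end Pool.Agent.FR
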