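import Pool.Agent.FR.Defs

/-!
# The Fermat type hypersurface `1 + ∑ X j ^ k j = 0` and its function field
-/

set_option autoImplicit false

namespace Pool.Agent.FR

open MvPolynomial

/-- The exponents: `y, x, z 1, ..., z 8`. -/
def kk : Fin 10 → ℕ := ![2, 3, 28, 39, 39, 52, 55, 66, 70, 77]

/-- The weights `60060 / kk j`. -/
def aa : Fin 10 → ℕ := ![30030, 20020, 2145, 1540, 1540, 1155, 1092, 910, 858, 780]

/-- The polynomial `1 + ∑ X j ^ k j`. -/
noncomputable def gp {n : ℕ} (k : Fin n → ℕ) : MvPolynomial (Fin n) ℂ := 1 + ∑ j, X j ^ k j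

/-- Exponents `k`, weights `a`, degree `d`: `k 0 = 2` (the variable `y`), `k 1 = 3` (the variable
`x`), and the other variables are `z 1, ..., z (s + 1)`. -/
structure Wt (s : ℕ) (k a : Fin (s + 3) → ℕ) (d : ℕ) : Prop where
  ka : ∀ j, k j * a j = d
  hk : ∀ j, 2 ≤ k j
  k0 : k 0 = 2
  k1 : k 1 = 3
  hd : 0 < d
  gcd : Finset.univ.gcd a = 1

/-- `K` is the function field of the hypersurface `gp k = 0`. -/
structure FD (s : ℕ) (k : Fin (s + 3) → ℕ) (K : Type) [Field K] [Algebra ℂ K] where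
  X : Fin (s + 3) → K
  ker : ∀ P : MvPolynomial (Fin (s + 3)) ℂ, aeval X P = 0 ↔ gp k ∣ P
  frac : ∀ x : K, ∃ P Q : MvPolynomial (Fin (s + 3)) ℂ, aeval X Q ≠ 0 ∧ x = aeval X P / aeval X Q

variable {s : ℕ} {k a : Fin (s + 3) → ℕ} {K : Type} [Field K] [Algebra ℂ K]

/-- The coordinate ring of the affine hypersurface, as a subalgebra of `K`. -/
noncomputable def FD.A (F : FD s k K) : Subalgebra ℂ K := (aeval F.X : MvPolynomial (Fin (s + 3)) ℂ →ₐ[ℂ] K).range

/-- The basis `B` of the derivations is dual to the nowhere vanishing form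
`ω = dX_1 ∧ ... / (∂g / ∂X_0)`: for every `j`, the form `∧_{i ≠ j} dX_i` is `± (∂g/∂X_j) ω`. -/
def IsOmega (F : FD s k K) (B : Module.Basis (Fin (s + 2)) K (Derivation ℂ K K)) : Prop :=
  ∀ j : Fin (s + 3), ∃ c : ℂ, c ≠ 0 ∧
    jac B (fun i => F.X (j.succAbove i)) = algebraMap ℂ K c * F.X j ^ (k j - 1)

/-- `E` is minus the weighted degree on the coordinate ring (the divisor at infinity). -/
structure IsDeg (F : FD s k K) (a : Fin (s + 3) → ℕ) (E : DVal K) : Prop where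
  le : ∀ P : MvPolynomial (Fin (s + 3)) ℂ, aeval F.X P ≠ 0 →
    -((weightedTotalDegree a P : ℕ) : ℤ) ≤ E.v (aeval F.X P)
  red : ∀ (j : Fin (s + 3)) (P : MvPolynomial (Fin (s + 3)) ℂ), P ≠ 0 → degreeOf j P < k j →
    E.v (aeval F.X P) = -((weightedTotalDegree a P : ℕ) : ℤ)

theorem kk_aa : ∀ j, kk j * aa j = 60060 := by decide

theorem wt : Wt 7 kk aa 60060 where
  ka := kk_aa
  hk := by decide
  k0 := rfl
  k1 := rfl
  hd := by norm_num
  gcd := by decide

end Pool.Agent.FR
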