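import Pool.Agent.FR.Data

/-!
# The derivations of the function field of the hypersurface, and the form `ω`
-/

set_option autoImplicit false

namespace Pool.Agent.FR

open MvPolynomial

variable {s : ℕ} {k a : Fin (s + 3) → ℕ} {d : ℕ} {K : Type} [Field K] [Algebra ℂ K]

/-! ### the relation -/

theorem FD.rel (F : FD s k K) : 1 + ∑ j, F.X j ^ k j = 0 := by
  have h := (F.ker (gp k)).mpr dvd_rfl
  unfold gp at h
  rw [map_add, map_one, map_sum] at h
  simpa only [map_pow, aeval_X] using h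

theorem FD.X_ne (hw : Wt s k a d) (F : FD s k K) (j : Fin (s + 3)) : F.X j ≠ 0 := by
  intro h
  have h1 : aeval F.X (MvPolynomial.X j : MvPolynomial (Fin (s + 3)) ℂ) = 0 := by rw [aeval_X, h]
  obtain ⟨Q, hQ⟩ := (F.ker _).mp h1
  obtain ⟨t, ht⟩ := IsAlgClosed.exists_pow_nat_eq (-1 : ℂ)
    (show 0 < k j by have := hw.hk j; omega)
  have hev := congrArg (aeval (fun i : Fin (s + 3) => if i = j then t else 0)) hQ
  rw [aeval_X, map_mul] at hev
  have hg : aeval (fun i : Fin (s + 3) => if i = j then t else 0) (gp k) = 0 := by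
    unfold gp
    rw [map_add, map_one, map_sum, Finset.sum_eq_single j]
    · rw [map_pow, aeval_X, if_pos rfl, ht]
      ring
    · intro i _ hi
      rw [map_pow, aeval_X, if_neg hi]
      exact zero_pow (by have := hw.hk i; omega)
    · intro h
      exact absurd (Finset.mem_univ j) h
  rw [hg, zero_mul, if_pos rfl] at hev
  rw [hev, zero_pow (by have := hw.hk j; omega)] at ht
  norm_num at ht

theorem FD.kX_ne (hw : Wt s k a d) (F : FD s k K) (j : Fin (s + 3)) :
    (k j : K) * F.X j ^ (k j - 1) ≠ 0 := by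
  have hc : (k j : K) ≠ 0 := by
    have h1 : algebraMap ℂ K (k j : ℂ) ≠ 0 := by
      rw [Ne, map_eq_zero]
      have := hw.hk j
      exact_mod_cast (show k j ≠ 0 by omega)
    rwa [map_natCast] at h1
  exact mul_ne_zero hc (pow_ne_zero _ (F.X_ne hw j))

/-! ### derivations -/

theorem FD.der_rel (F : FD s k K) (D : Derivation ℂ K K) :
    ∑ j, (k j : K) * F.X j ^ (k j - 1) * D (F.X j) = 0 := by
  have h := congrArg D F.rel
  rw [map_add, D.map_one_eq_zero, map_sum, map_zero, zero_add] at h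
  rw [← h]
  refine Finset.sum_congr rfl fun j _ => ?_
  rw [Derivation.leibniz_pow, nsmul_eq_mul, smul_eq_mul]
  ring

theorem FD.der_ext (F : FD s k K) {D D' : Derivation ℂ K K} (h : ∀ j, D (F.X j) = D' (F.X j)) :
    D = D' := by
  have h1 : ∀ P : MvPolynomial (Fin (s + 3)) ℂ, D (aeval F.X P) = D' (aeval F.X P) := by
    intro P
    induction P using MvPolynomial.induction_on with
    | C c => rw [← algebraMap_eq, AlgHom.commutes, D.map_algebraMap, D'.map_algebraMap]
    | add p q hp hq => rw [map_add, map_add, map_add, hp, hq]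
    | mul_X p j hp => rw [map_mul, aeval_X, D.leibniz, D'.leibniz, hp, h j]
  ext x
  obtain ⟨P, Q, hQ, rfl⟩ := F.frac x
  have h2 : aeval F.X P = aeval F.X P / aeval F.X Q * aeval F.X Q := by
    rw [div_mul_cancel₀ _ hQ]
  have h3 := congrArg D h2
  have h4 := congrArg D' h2
  rw [D.leibniz] at h3
  rw [D'.leibniz] at h4
  rw [h1 P, h1 Q] at h3
  rw [h4] at h3
  simp only [smul_eq_mul] at h3
  have h5 : aeval F.X Q * D' (aeval F.X P / aeval F.X Q) =
      aeval F.X Q * D (aeval F.X P / aeval F.X Q) := by linear_combination h3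
  exact (mul_left_cancel₀ hQ h5).symm

/-- Derivations of `K` with prescribed values. -/
theorem FD.exists_der (F : FD s k K) (v : Fin (s + 3) → K)
    (hv : ∑ j, (k j : K) * F.X j ^ (k j - 1) * v j = 0) :
    ∃ D : Derivation ℂ K K, ∀ j, D (F.X j) = v j := by
  obtain ⟨φ, hφ⟩ : ∃ φ : MvPolynomial (Fin (s + 3)) ℂ →ₐ[ℂ] TrivSqZeroExt K K,
      φ = aeval (fun j => TrivSqZeroExt.inl (F.X j) + TrivSqZeroExt.inr (v j)) := ⟨_, rfl⟩
  have hX : ∀ j, φ (MvPolynomial.X j) = TrivSqZeroExt.inl (F.X j) + TrivSqZeroExt.inr (v j) := by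
    intro j
    rw [hφ, aeval_X]
  have hfst : ∀ P, (φ P).fst = aeval F.X P := by
    intro P
    have h1 : (TrivSqZeroExt.fstHom ℂ K K).comp φ = aeval F.X := by
      apply MvPolynomial.algHom_ext
      intro j
      rw [AlgHom.comp_apply, hX, aeval_X]
      simp
    exact DFunLike.congr_fun h1 P
  have hgp : φ (gp k) = 0 := by
    apply TrivSqZeroExt.ext
    · rw [hfst, (F.ker _).mpr dvd_rfl]
      rfl
    · unfold gp
      rw [map_add, map_one, map_sum]
      simp only [map_pow, hX, TrivSqZeroExt.snd_add, TrivSqZeroExt.snd_one, TrivSqZeroExt.snd_sum,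
        TrivSqZeroExt.snd_pow, TrivSqZeroExt.fst_add, TrivSqZeroExt.fst_inl,
        TrivSqZeroExt.fst_inr, TrivSqZeroExt.snd_inl, TrivSqZeroExt.snd_inr, add_zero, zero_add,
        TrivSqZeroExt.snd_zero, smul_eq_mul, nsmul_eq_mul]
      rw [← hv]
      refine Finset.sum_congr rfl fun j _ => ?_
      rw [Nat.pred_eq_sub_one]
      ring
  have hker : ∀ P, aeval F.X P = 0 → φ P = 0 := by
    intro P hP
    obtain ⟨Q, rfl⟩ := (F.ker P).mp hP
    rw [map_mul, hgp, zero_mul]
  -- the coordinate ring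
  obtain ⟨f, hf⟩ : ∃ f : MvPolynomial (Fin (s + 3)) ℂ →+* F.A,
      ∀ P, ((f P : F.A) : K) = aeval F.X P :=
    ⟨(aeval F.X : MvPolynomial (Fin (s + 3)) ℂ →ₐ[ℂ] K).rangeRestrict.toRingHom, fun P => rfl⟩
  have hfs : Function.Surjective f := by
    rintro ⟨x, hx⟩
    obtain ⟨P, hP⟩ := hx
    refine ⟨P, Subtype.ext ?_⟩
    rw [hf]
    exact hP
  have hle : RingHom.ker f ≤ RingHom.ker φ.toRingHom := by
    intro P hP
    rw [RingHom.mem_ker] at hP ⊢
    apply hker
    rw [← hf, hP]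
    rfl
  obtain ⟨g, hg⟩ : ∃ g : F.A →+* TrivSqZeroExt K K, ∀ P, g (f P) = φ P :=
    ⟨RingHom.liftOfSurjective f hfs ⟨φ.toRingHom, hle⟩, fun P =>
      RingHom.liftOfSurjective_comp_apply f hfs ⟨φ.toRingHom, hle⟩ P⟩
  have hgfst : ∀ y : F.A, (g y).fst = (y : K) := by
    intro y
    obtain ⟨P, rfl⟩ := hfs y
    rw [hg, hfst, hf]
  have hfr : IsFractionRing F.A K := by
    apply IsFractionRing.of_field
    intro z
    obtain ⟨P, Q, hQ, hz⟩ := F.frac z
    exact ⟨f P, f Q, by rw [hz]; exact congrArg₂ (· / ·) (hf P).symm (hf Q).symm⟩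
  have hunit : ∀ y : nonZeroDivisors F.A, IsUnit (g y) := by
    intro y
    rw [TrivSqZeroExt.isUnit_iff_isUnit_fst, hgfst]
    apply IsUnit.mk0
    intro h0
    exact nonZeroDivisors.coe_ne_zero y (Subtype.ext h0)
  obtain ⟨ψ, hψ⟩ : ∃ ψ : K →+* TrivSqZeroExt K K, ∀ y : F.A, ψ (algebraMap F.A K y) = g y :=
    ⟨IsLocalization.lift hunit, fun y => IsLocalization.lift_eq hunit y⟩
  have hψfst : ∀ x, (ψ x).fst = x := by
    intro x
    have h1 : ((TrivSqZeroExt.fstHom ℂ K K : TrivSqZeroExt K K →+* K).comp ψ) = RingHom.id K := by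
      apply IsLocalization.ringHom_ext (nonZeroDivisors F.A)
      ext y
      change (ψ (algebraMap F.A K y)).fst = algebraMap F.A K y
      rw [hψ, hgfst]
      rfl
    exact DFunLike.congr_fun h1 x
  have hψφ : ∀ P, ψ (aeval F.X P) = φ P := by
    intro P
    rw [← hg, ← hψ]
    congr 1
    exact (hf P).symm
  have hψc : ∀ c : ℂ, ψ (algebraMap ℂ K c) = algebraMap ℂ (TrivSqZeroExt K K) c := by
    intro c
    have h1 := hψφ (MvPolynomial.C c)
    rw [← algebraMap_eq, AlgHom.commutes, AlgHom.commutes] at h1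
    exact h1
  refine ⟨Derivation.mk'
    { toFun := fun x => (ψ x).snd
      map_add' := fun x y => by rw [map_add, TrivSqZeroExt.snd_add]
      map_smul' := fun c x => by
        rw [Algebra.smul_def, map_mul, hψc, TrivSqZeroExt.snd_mul, RingHom.id_apply]
        simp [TrivSqZeroExt.algebraMap_eq_inl', Algebra.smul_def] } ?_, ?_⟩
  · intro x y
    change (ψ (x * y)).snd = x • (ψ y).snd + y • (ψ x).snd
    rw [map_mul, TrivSqZeroExt.snd_mul, hψfst, hψfst, op_smul_eq_smul]
  · intro j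
    change (ψ (F.X j)).snd = v j
    have h1 := hψφ (MvPolynomial.X j)
    rw [aeval_X] at h1
    rw [h1, hX]
    simp

/-- The derivations of `K` are given by the values at the variables other than `X 0`. -/
noncomputable def FD.derEquiv (hw : Wt s k a d) (F : FD s k K) :
    Derivation ℂ K K ≃ₗ[K] (Fin (s + 2) → K) :=
  LinearEquiv.ofBijective
    { toFun := fun D i => D (F.X i.succ)
      map_add' := fun _ _ => rfl
      map_smul' := fun _ _ => rfl } (by
    constructor
    · rw [injective_iff_map_eq_zero]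
      intro D hD
      apply F.der_ext
      intro j
      have h1 : ∀ i : Fin (s + 2), D (F.X i.succ) = 0 := fun i => congrFun hD i
      refine Fin.cases ?_ h1 j
      have h2 := F.der_rel D
      rw [Fin.sum_univ_succ] at h2
      simp only [h1, mul_zero, Finset.sum_const_zero, add_zero] at h2
      exact (mul_eq_zero.mp h2).resolve_left (F.kX_ne hw 0)
    · intro v
      obtain ⟨D, hD⟩ := F.exists_der (Fin.cons (-(∑ i : Fin (s + 2), (k i.succ : K) *
        F.X i.succ ^ (k i.succ - 1) * v i) / ((k 0 : K) * F.X 0 ^ (k 0 - 1))) v) (by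
          rw [Fin.sum_univ_succ]
          simp only [Fin.cons_zero, Fin.cons_succ]
          rw [mul_div_cancel₀ _ (F.kX_ne hw 0)]
          ring)
      refine ⟨D, funext fun i => ?_⟩
      change D (F.X i.succ) = v i
      rw [hD, Fin.cons_succ])

theorem FD.derEquiv_apply (hw : Wt s k a d) (F : FD s k K) (D : Derivation ℂ K K)
    (i : Fin (s + 2)) : F.derEquiv hw D i = D (F.X i.succ) := rfl

/-- The basis of the derivations dual to `dX_1, ..., dX_(s+2)`. -/
noncomputable def FD.basis0 (hw : Wt s k a d) (F : FD s k K) :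
    Module.Basis (Fin (s + 2)) K (Derivation ℂ K K) := Module.Basis.ofEquivFun (F.derEquiv hw)

theorem FD.basis0_apply (hw : Wt s k a d) (F : FD s k K) (i j : Fin (s + 2)) :
    F.basis0 hw i (F.X j.succ) = if i = j then 1 else 0 := by
  unfold FD.basis0
  rw [Module.Basis.coe_ofEquivFun, ← F.derEquiv_apply hw, LinearEquiv.apply_symm_apply,
    Pi.single_apply]
  simp only [eq_comm]

/-- The minors of the matrix of the values of derivations at the variables. -/
theorem FD.minors (hw : Wt s k a d) (F : FD s k K) (D : Fin (s + 2) → Derivation ℂ K K)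
    (j : Fin (s + 3)) : ∃ e : ℤˣ,
    (Matrix.of fun i m => D i (F.X (j.succAbove m))).det * ((k 0 : K) * F.X 0 ^ (k 0 - 1)) =
      (e : ℤ) • ((Matrix.of fun i (m : Fin (s + 2)) => D i (F.X m.succ)).det *
        ((k j : K) * F.X j ^ (k j - 1))) := by
  obtain ⟨w, hw'⟩ : ∃ w : Fin (s + 3) → K, w = fun m => (k m : K) * F.X m ^ (k m - 1) := ⟨_, rfl⟩
  have hwne : ∀ m, w m ≠ 0 := fun m => by rw [hw']; exact F.kX_ne hw m
  have h1 := Matrix.submatrix_succAbove_det_eq_negOnePow_submatrix_succAbove_det'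
    (Matrix.of fun (i : Fin (s + 2)) (m : Fin (s + 3)) => w m * D i (F.X m)) (fun i => by
      simp only [Matrix.of_apply, hw']
      exact F.der_rel (D i)) j 0
  have h2 : ∀ l : Fin (s + 3), ((Matrix.of fun (i : Fin (s + 2)) (m : Fin (s + 3)) =>
      w m * D i (F.X m)).submatrix id l.succAbove).det =
      (∏ m, w (l.succAbove m)) * (Matrix.of fun i m => D i (F.X (l.succAbove m))).det := by
    intro l
    rw [← Matrix.det_mul_row]
    rfl
  rw [h2, h2] at h1
  refine ⟨Int.negOnePow (j - (0 : Fin (s + 3)) : ℤ), ?_⟩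
  have h3 : ∀ l : Fin (s + 3), w l * ∏ m, w (l.succAbove m) = ∏ m, w m := fun l =>
    (Fin.prod_univ_succAbove w l).symm
  have h4 : (∏ m, w m) ≠ 0 := Finset.prod_ne_zero_iff.mpr fun m _ => hwne m
  have h5 : ∀ l : Fin (s + 3), (∏ m, w m) / w l = ∏ m, w (l.succAbove m) := by
    intro l
    rw [← h3 l, mul_div_cancel_left₀ _ (hwne l)]
  rw [← h5, ← h5] at h1
  have e0 : (k 0 : K) * F.X 0 ^ (k 0 - 1) = w 0 := by rw [hw']
  have ej : (k j : K) * F.X j ^ (k j - 1) = w j := by rw [hw']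
  rw [e0, ej]
  have hs : (fun (i : Fin (s + 2)) (m : Fin (s + 2)) => D i (F.X ((0 : Fin (s + 3)).succAbove m))) =
      fun (i : Fin (s + 2)) (m : Fin (s + 2)) => D i (F.X m.succ) := by
    funext i m
    rw [Fin.succAbove_zero]
  rw [hs] at h1
  obtain ⟨Δ, hΔ⟩ : ∃ Δ : K, Δ = (Matrix.of fun i m => D i (F.X (j.succAbove m))).det := ⟨_, rfl⟩
  obtain ⟨Δ0, hΔ0⟩ : ∃ Δ : K, Δ = (Matrix.of fun i (m : Fin (s + 2)) => D i (F.X m.succ)).det :=
    ⟨_, rfl⟩
  rw [← hΔ, ← hΔ0] at h1 ⊢
  have hw0 := hwne 0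
  have hwj := hwne j
  rw [Units.smul_def, zsmul_eq_mul] at h1
  rw [zsmul_eq_mul]
  have h6 : (∏ m, w m) * (Δ * w 0) = (∏ m, w m) * ((((Int.negOnePow
      (j - (0 : Fin (s + 3)) : ℤ) : ℤˣ) : ℤ) : K) * (Δ0 * w j)) := by
    have h7 : (∏ m, w m) / w j * Δ * (w j * w 0) = (((Int.negOnePow
      (j - (0 : Fin (s + 3)) : ℤ) : ℤˣ) : ℤ) : K) * ((∏ m, w m) / w 0 * Δ0) * (w j * w 0) := by
      rw [h1]
    calc (∏ m, w m) * (Δ * w 0) = (∏ m, w m) / w j * Δ * (w j * w 0) := by field_simp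
      _ = (((Int.negOnePow (j - (0 : Fin (s + 3)) : ℤ) : ℤˣ) : ℤ) : K) *
        ((∏ m, w m) / w 0 * Δ0) * (w j * w 0) := h7
      _ = _ := by field_simp
  exact mul_left_cancel₀ h4 h6

/-- Existence of the basis of derivations. -/
theorem exists_omega (hw : Wt s k a d) (F : FD s k K) :
    ∃ B : Module.Basis (Fin (s + 2)) K (Derivation ℂ K K), IsOmega F B := by
  obtain ⟨w, hw'⟩ : ∃ w : Fin (s + 2) → K, w = fun i => if i = 0 then F.X 0 ^ (k 0 - 1) else 1 :=
    ⟨_, rfl⟩
  have hwu : ∀ i, IsUnit (w i) := by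
    intro i
    apply IsUnit.mk0
    simp only [hw']
    split_ifs
    · exact pow_ne_zero _ (F.X_ne hw 0)
    · exact one_ne_zero
  refine ⟨(F.basis0 hw).isUnitSMul hwu, ?_⟩
  have hdet0 : (Matrix.of fun i (m : Fin (s + 2)) =>
      (F.basis0 hw).isUnitSMul hwu i (F.X m.succ)).det = F.X 0 ^ (k 0 - 1) := by
    have h1 : (Matrix.of fun i (m : Fin (s + 2)) =>
        (F.basis0 hw).isUnitSMul hwu i (F.X m.succ)) = Matrix.diagonal w := by
      ext i m
      rw [Matrix.of_apply, Module.Basis.isUnitSMul_apply, Derivation.smul_apply,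
        F.basis0_apply hw, Matrix.diagonal_apply, smul_eq_mul]
      split_ifs <;> simp
    rw [h1, Matrix.det_diagonal, hw', Fin.prod_univ_succ]
    simp [Fin.succ_ne_zero]
  intro j
  obtain ⟨e, he⟩ := F.minors hw (fun i => (F.basis0 hw).isUnitSMul hwu i) j
  rw [hdet0] at he
  have hk0 : (k 0 : ℂ) ≠ 0 := by
    have := hw.hk 0
    exact_mod_cast (show k 0 ≠ 0 by omega)
  have hkj : (k j : ℂ) ≠ 0 := by
    have := hw.hk j
    exact_mod_cast (show k j ≠ 0 by omega)
  refine ⟨((e : ℤ) : ℂ) * (k j : ℂ) / (k 0 : ℂ), ?_, ?_⟩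
  · apply div_ne_zero (mul_ne_zero _ hkj) hk0
    exact_mod_cast e.ne_zero
  · have hK0 : (k 0 : K) ≠ 0 := by
      have := (map_ne_zero (algebraMap ℂ K)).mpr hk0
      rwa [map_natCast] at this
    have hX0 : F.X 0 ^ (k 0 - 1) ≠ 0 := pow_ne_zero _ (F.X_ne hw 0)
    rw [map_div₀, map_mul, map_intCast, map_natCast, map_natCast]
    change (Matrix.of fun i m => (F.basis0 hw).isUnitSMul hwu i (F.X (j.succAbove m))).det = _
    rw [zsmul_eq_mul] at he
    apply mul_right_cancel₀ (mul_ne_zero hK0 hX0)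
    rw [he]
    field_simp

end Pool.Agent.FR
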