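import Pool.Agent.FR.Defs

/-! # Basic facts about divisorial valuations -/

set_option autoImplicit false

namespace Pool.Agent.FR

variable {K : Type} [Field K] [Algebra ℂ K]

namespace DVal

variable (D : DVal K)

theorem mem_ring {x : K} : x ∈ D.ring ↔ x = 0 ∨ 0 ≤ D.v x := Iff.rfl

theorem mem_ring' {x : K} : x ∈ D.ring ↔ 0 ≤ D.v x := by
  rw [mem_ring]
  constructor
  · rintro (h | h)
    · rw [h, D.zero]
    · exact h
  · exact Or.inr

theorem isPlace : IsPlace D.ring := by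
  intro c
  by_cases hc : c = 0
  · left; simp [hc]
  · right; rw [D.const c hc]

theorem ne_zero_of_v {x : K} (h : D.v x ≠ 0) : x ≠ 0 := by
  rintro rfl
  exact h D.zero

theorem div' {x y : K} (hx : x ≠ 0) (hy : y ≠ 0) : D.v (x / y) = D.v x - D.v y := by
  rw [div_eq_mul_inv, D.mul _ _ hx (inv_ne_zero hy), D.inv hy]
  ring

theorem pow {x : K} (hx : x ≠ 0) (n : ℕ) : D.v (x ^ n) = n * D.v x := by
  induction n with
  | zero => simp [D.one]
  | succ n ih =>
    rw [pow_succ, D.mul _ _ (pow_ne_zero n hx) hx, ih]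
    push_cast
    ring

theorem zpow {x : K} (hx : x ≠ 0) (n : ℤ) : D.v (x ^ n) = n * D.v x := by
  obtain ⟨m, rfl | rfl⟩ := n.eq_nat_or_neg
  · rw [zpow_natCast, D.pow hx]
  · rw [zpow_neg, zpow_natCast, D.inv (pow_ne_zero _ hx), D.pow hx]
    ring

theorem neg (x : K) : D.v (-x) = D.v x := by
  by_cases hx : x = 0
  · simp [hx]
  rw [← neg_one_mul x, D.mul _ _ (by norm_num) hx, D.negOne, zero_add]

theorem const_mul {c : ℂ} (hc : c ≠ 0) (x : K) : D.v (algebraMap ℂ K c * x) = D.v x := by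
  by_cases hx : x = 0
  · simp [hx]
  have h1 : algebraMap ℂ K c ≠ 0 := by
    rwa [Ne, map_eq_zero]
  rw [D.mul _ _ h1 hx, D.const c hc, zero_add]

theorem smul {c : ℂ} (hc : c ≠ 0) (x : K) : D.v (c • x) = D.v x := by
  rw [Algebra.smul_def, D.const_mul hc]

theorem natCast {m : ℕ} (hm : m ≠ 0) : D.v (m : K) = 0 := by
  have h := D.const (m : ℂ) (by exact_mod_cast hm)
  rwa [map_natCast] at h

theorem intCast {m : ℤ} (hm : m ≠ 0) : D.v (m : K) = 0 := by
  have h := D.const (m : ℂ) (by exact_mod_cast hm)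
  rwa [map_intCast] at h

theorem prod {ι : Type*} (s : Finset ι) (f : ι → K) (hf : ∀ i ∈ s, f i ≠ 0) :
    D.v (∏ i ∈ s, f i) = ∑ i ∈ s, D.v (f i) := by
  classical
  induction s using Finset.induction_on with
  | empty => simp [D.one]
  | insert i s hi ih =>
    rw [Finset.prod_insert hi, Finset.sum_insert hi, D.mul _ _ (hf i (Finset.mem_insert_self i s))
      (Finset.prod_ne_zero_iff.2 fun j hj => hf j (Finset.mem_insert_of_mem hj)),
      ih fun j hj => hf j (Finset.mem_insert_of_mem hj)]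

theorem sub {x y : K} (hx : x ≠ 0) (hy : y ≠ 0) (h : x - y ≠ 0) :
    min (D.v x) (D.v y) ≤ D.v (x - y) := by
  rw [sub_eq_add_neg] at h ⊢
  rw [← D.neg y]
  exact D.add x (-y) hx (neg_ne_zero.2 hy) h

/-- Lower bounds are kept by addition (with the convention that `0` satisfies every bound). -/
theorem add_ge {x y : K} {c : ℤ} (hx : x = 0 ∨ c ≤ D.v x) (hy : y = 0 ∨ c ≤ D.v y) :
    x + y = 0 ∨ c ≤ D.v (x + y) := by
  by_cases h1 : x = 0
  · subst h1; simpa using hy
  by_cases h2 : y = 0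
  · subst h2; simpa using hx
  by_cases h3 : x + y = 0
  · exact Or.inl h3
  · exact Or.inr (le_trans (le_min (hx.resolve_left h1) (hy.resolve_left h2)) (D.add x y h1 h2 h3))

theorem mul_ge {x y : K} {c c' : ℤ} (hx : x = 0 ∨ c ≤ D.v x) (hy : y = 0 ∨ c' ≤ D.v y) :
    x * y = 0 ∨ c + c' ≤ D.v (x * y) := by
  by_cases h1 : x = 0
  · left; simp [h1]
  by_cases h2 : y = 0
  · left; simp [h2]
  right
  rw [D.mul x y h1 h2]
  exact add_le_add (hx.resolve_left h1) (hy.resolve_left h2)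

theorem neg_ge {x : K} {c : ℤ} (hx : x = 0 ∨ c ≤ D.v x) : -x = 0 ∨ c ≤ D.v (-x) := by
  rw [D.neg x, neg_eq_zero]
  exact hx

theorem sum_ge {ι : Type*} (s : Finset ι) (f : ι → K) (c : ℤ)
    (hf : ∀ i ∈ s, f i = 0 ∨ c ≤ D.v (f i)) : ∑ i ∈ s, f i = 0 ∨ c ≤ D.v (∑ i ∈ s, f i) := by
  classical
  induction s using Finset.induction_on with
  | empty => left; simp
  | insert i s hi ih =>
    rw [Finset.sum_insert hi]
    exact D.add_ge (hf i (Finset.mem_insert_self i s)) (ih fun j hj => hf j (Finset.mem_insert_of_mem hj))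

/-- The valuation of a sum of two elements of different valuation. -/
theorem add_of_lt {x y : K} (hx : x ≠ 0) (h : y = 0 ∨ D.v x < D.v y) :
    x + y ≠ 0 ∧ D.v (x + y) = D.v x := by
  by_cases hy : y = 0
  · subst hy; simp [hx]
  have hlt := h.resolve_left hy
  have hne : x + y ≠ 0 := by
    intro h0
    have h1 : x = -y := eq_neg_of_add_eq_zero_left h0
    rw [h1, D.neg] at hlt
    exact lt_irrefl _ hlt
  refine ⟨hne, le_antisymm ?_ ?_⟩
  · by_contra hcon
    push Not at hcon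
    have h2 := D.add (x + y) (-y) hne (neg_ne_zero.2 hy) (by simpa using hx)
    rw [add_neg_cancel_right, D.neg] at h2
    exact absurd h2 (not_le.2 (lt_min hcon hlt))
  · have := D.add x y hx hy hne
    rwa [min_eq_left hlt.le] at this

/-- A vanishing sum of nonzero elements attains its minimal valuation at least twice. -/
theorem exists_two {ι : Type*} (s : Finset ι) (f : ι → K) (hs : s.Nonempty)
    (hf : ∀ i ∈ s, f i ≠ 0) (h0 : ∑ i ∈ s, f i = 0) : ∃ i ∈ s, ∃ j ∈ s, i ≠ j ∧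
    D.v (f i) = D.v (f j) ∧ ∀ l ∈ s, D.v (f i) ≤ D.v (f l) := by
  classical
  obtain ⟨i, hi, hmin⟩ := s.exists_min_image (fun i => D.v (f i)) hs
  by_contra hcon
  push Not at hcon
  have h1 : ∀ j ∈ s.erase i, f j = 0 ∨ D.v (f i) + 1 ≤ D.v (f j) := by
    intro j hj
    right
    have hj' := Finset.mem_erase.1 hj
    have h2 := hmin j hj'.2
    rcases h2.lt_or_eq with h3 | h3
    · exact h3
    · obtain ⟨l, hl, hl'⟩ := hcon i hi j hj'.2 (Ne.symm hj'.1) h3
      exact absurd (hmin l hl) (not_le.2 hl')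
  have h2 := D.sum_ge (s.erase i) f _ h1
  have h3 := D.add_of_lt (hf i hi) (y := ∑ j ∈ s.erase i, f j) (h2.imp id fun h => by omega)
  rw [Finset.add_sum_erase s f hi] at h3
  exact h3.1 h0

/-- Two divisorial valuations with comparable rings are equal. -/
theorem eq_of_le {D D' : DVal K} (h : ∀ x : K, x ≠ 0 → 0 ≤ D.v x → 0 ≤ D'.v x) : D = D' := by
  -- units of `D` are units of `D'`
  have h0 : ∀ x : K, x ≠ 0 → D.v x = 0 → D'.v x = 0 := by
    intro x hx hv
    have h1 := h x hx (by omega)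
    have h2 := h x⁻¹ (inv_ne_zero hx) (by rw [D.inv hx]; omega)
    rw [D'.inv hx] at h2
    omega
  obtain ⟨π, hπ, hπ1⟩ := D.unif
  obtain ⟨ρ, hρ, hρ1⟩ := D'.unif
  have h2 : ∀ x : K, x ≠ 0 → D'.v x = D.v x * D'.v π := by
    intro x hx
    have h3 : D.v (x / π ^ (D.v x)) = 0 := by
      rw [D.div' hx (zpow_ne_zero _ hπ), D.zpow hπ, hπ1]; ring
    have h4 := h0 _ (div_ne_zero hx (zpow_ne_zero _ hπ)) h3
    rw [D'.div' hx (zpow_ne_zero _ hπ), D'.zpow hπ] at h4
    linarith
  have h3 : D'.v π = 1 := by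
    have h5 := h2 ρ hρ
    rw [hρ1] at h5
    have h6 := h π hπ (by omega)
    rcases Int.eq_one_or_neg_one_of_mul_eq_one' h5.symm with h7 | h7
    · exact h7.2
    · omega
  apply DVal.ext
  funext x
  by_cases hx : x = 0
  · rw [hx, D.zero, D'.zero]
  · rw [h2 x hx, h3, mul_one]

theorem eq_of_ring_le {D D' : DVal K} (h : (D.ring : Set K) ⊆ D'.ring) : D = D' :=
  eq_of_le fun x _ hv => D'.mem_ring'.1 (h (D.mem_ring'.2 hv))

end DVal

end Pool.Agent.FR
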