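import Pool.Agent.FR.Count
import Pool.Agent.FR.Data
import Pool.Agent.FR.Val
import Pool.Agent.FR.Omega

/-!
# Dimension of the spaces of functions of bounded degree on the affine hypersurface
-/

set_option autoImplicit false

namespace Pool.Agent.FR

open MvPolynomial
open scoped Classical

/-- The number of monomials `X ^ γ` with `γ 0 < 2` of weight at most `j`. -/
noncomputable def hA {s : ℕ} (a : Fin (s + 3) → ℕ) (j : ℕ) : ℕ :=
  Set.ncard {γ : Fin (s + 3) → ℕ | γ 0 < 2 ∧ ∑ i, γ i * a i ≤ j}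

private theorem da_pos {s : ℕ} {k a : Fin (s + 3) → ℕ} {d : ℕ} (hw : Wt s k a d)
    (i : Fin (s + 3)) : 0 < a i := by
  rcases Nat.eq_zero_or_pos (a i) with h | h
  · have h1 := hw.ka i
    rw [h, mul_zero] at h1
    exact absurd hw.hd (by omega)
  · exact h

private theorem da_finite {s : ℕ} {k a : Fin (s + 3) → ℕ} {d : ℕ} (hw : Wt s k a d) (j : ℕ) :
    {γ : Fin (s + 3) → ℕ | γ 0 < 2 ∧ ∑ i, γ i * a i ≤ j}.Finite :=
  (cnt_finite a (da_pos hw) j).subset fun _ h => h.2

private theorem da_one {s : ℕ} (a : Fin (s + 3) → ℕ) (j : ℕ) :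
    Set.ncard {γ : Fin (s + 3) → ℕ | γ 0 = 1 ∧ ∑ i, γ i * a i ≤ j + a 0} =
      cnt (fun i => a i.succ) j := by
  unfold cnt
  have h : {γ : Fin (s + 3) → ℕ | γ 0 = 1 ∧ ∑ i, γ i * a i ≤ j + a 0} =
      (fun γ' : Fin (s + 2) → ℕ => (Fin.cons 1 γ' : Fin (s + 3) → ℕ)) ''
        {γ : Fin (s + 2) → ℕ | ∑ i, γ i * a i.succ ≤ j} := by
    ext γ
    constructor
    · rintro ⟨h0, h1⟩
      refine ⟨fun i => γ i.succ, ?_, ?_⟩
      · rw [Fin.sum_univ_succ, h0, one_mul, add_comm] at h1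
        exact Nat.le_of_add_le_add_right h1
      · change (Fin.cons 1 (fun i : Fin (s + 2) => γ i.succ) : Fin (s + 3) → ℕ) = γ
        have h3 : (Fin.cons (γ 0) (fun i : Fin (s + 2) => γ i.succ) : Fin (s + 3) → ℕ) = γ :=
          Fin.cons_self_tail γ
        rwa [h0] at h3
    · rintro ⟨γ', h1, rfl⟩
      refine ⟨rfl, ?_⟩
      rw [Fin.sum_univ_succ]
      simp only [Fin.cons_zero, Fin.cons_succ, one_mul]
      have h2 : ∑ i, γ' i * a i.succ ≤ j := h1
      omega
  rw [h, Set.ncard_image_of_injective _ (Fin.cons_right_injective (α := fun _ => ℕ) 1)]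

private theorem da_split {s : ℕ} {k a : Fin (s + 3) → ℕ} {d : ℕ} (hw : Wt s k a d) (j : ℕ) :
    hA a (j + a 0) = cnt (fun i => a i.succ) (j + a 0) + cnt (fun i => a i.succ) j := by
  rw [← cnt_head a (j + a 0), ← da_one a j]
  unfold hA
  have h : {γ : Fin (s + 3) → ℕ | γ 0 < 2 ∧ ∑ i, γ i * a i ≤ j + a 0} =
      {γ : Fin (s + 3) → ℕ | γ 0 = 0 ∧ ∑ i, γ i * a i ≤ j + a 0} ∪
      {γ : Fin (s + 3) → ℕ | γ 0 = 1 ∧ ∑ i, γ i * a i ≤ j + a 0} := by
    ext γ
    simp only [Set.mem_ofPred_eq, Set.mem_union]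
    constructor
    · rintro ⟨h1, h2⟩
      rcases (by omega : γ 0 = 0 ∨ γ 0 = 1) with h3 | h3
      · exact Or.inl ⟨h3, h2⟩
      · exact Or.inr ⟨h3, h2⟩
    · rintro (⟨h1, h2⟩ | ⟨h1, h2⟩)
      · exact ⟨by omega, h2⟩
      · exact ⟨by omega, h2⟩
  rw [h]
  apply Set.ncard_union_eq
  · rw [Set.disjoint_left]
    rintro γ ⟨h1, -⟩ ⟨h2, -⟩
    omega
  · exact (da_finite hw (j + a 0)).subset fun γ h => ⟨by have := h.1; omega, h.2⟩
  · exact (da_finite hw (j + a 0)).subset fun γ h => ⟨by have := h.1; omega, h.2⟩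

theorem tendsto_hA {s : ℕ} {k a : Fin (s + 3) → ℕ} {d : ℕ} (hw : Wt s k a d) :
    ∃ c : ℝ, 0 < c ∧ Filter.Tendsto (fun j : ℕ => (hA a j : ℝ) / (j : ℝ) ^ (s + 2)) Filter.atTop
      (nhds c) := by
  have ha' : ∀ i : Fin (s + 2), 0 < a i.succ := fun i => da_pos hw i.succ
  obtain ⟨c, hc⟩ : ∃ c : ℝ, c = 1 / ((s + 2).factorial * ∏ i : Fin (s + 2), (a i.succ : ℝ)) :=
    ⟨_, rfl⟩
  have hc0 : 0 < c := by
    rw [hc]
    apply div_pos one_pos
    apply mul_pos
    · exact_mod_cast Nat.factorial_pos _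
    · exact Finset.prod_pos fun i _ => by exact_mod_cast ha' i
  have h1 : Filter.Tendsto (fun j : ℕ => (cnt (fun i : Fin (s + 2) => a i.succ) j : ℝ) /
      (j : ℝ) ^ (s + 2)) Filter.atTop (nhds c) := by
    rw [hc]
    exact tendsto_cnt (fun i : Fin (s + 2) => a i.succ) ha'
  have h2 : Filter.Tendsto (fun j : ℕ => (j : ℝ) / ((j + a 0 : ℕ) : ℝ)) Filter.atTop
      (nhds 1) := by
    have h3 : Filter.Tendsto (fun j : ℕ => 1 - (a 0 : ℝ) / ((j + a 0 : ℕ) : ℝ)) Filter.atTop
        (nhds (1 - 0)) := by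
      refine tendsto_const_nhds.sub ?_
      exact (tendsto_const_div_atTop_nhds_zero_nat (a 0 : ℝ)).comp
        (Filter.tendsto_add_atTop_nat (a 0))
    rw [sub_zero] at h3
    refine h3.congr fun j => ?_
    have h4 : ((j + a 0 : ℕ) : ℝ) ≠ 0 := by
      have := da_pos hw 0
      exact_mod_cast (show j + a 0 ≠ 0 by omega)
    field_simp
    push_cast
    ring
  refine ⟨c + c, by linarith, ?_⟩
  rw [← Filter.tendsto_add_atTop_iff_nat (a 0)]
  have h5 : Filter.Tendsto (fun j : ℕ => (cnt (fun i : Fin (s + 2) => a i.succ) (j + a 0) : ℝ) /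
      ((j + a 0 : ℕ) : ℝ) ^ (s + 2) + (cnt (fun i : Fin (s + 2) => a i.succ) j : ℝ) /
      (j : ℝ) ^ (s + 2) * ((j : ℝ) / ((j + a 0 : ℕ) : ℝ)) ^ (s + 2)) Filter.atTop
      (nhds (c + c * 1 ^ (s + 2))) := by
    refine Filter.Tendsto.add ?_ (h1.mul (h2.pow _))
    exact h1.comp (Filter.tendsto_add_atTop_nat (a 0))
  rw [one_pow, mul_one] at h5
  refine h5.congr' ?_
  filter_upwards [Filter.eventually_gt_atTop 0] with j hj
  rw [da_split hw j]
  have h6 : (j : ℝ) ≠ 0 := by exact_mod_cast hj.ne'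
  push_cast
  rw [div_pow, add_div]
  congr 1
  field_simp

private theorem da_aeval {s : ℕ} {k : Fin (s + 3) → ℕ} {K : Type} [Field K] [Algebra ℂ K]
    (F : FD s k K) (e : Fin (s + 3) →₀ ℕ) (c : ℂ) :
    aeval F.X (monomial e c) = c • ∏ i, F.X i ^ e i := by
  rw [aeval_monomial, Algebra.smul_def, Finsupp.prod_fintype]
  intro i
  rw [pow_zero]

/-- A nonzero reduced polynomial does not vanish on the hypersurface. -/
private theorem da_ne {s : ℕ} {k a : Fin (s + 3) → ℕ} {d : ℕ} {K : Type} [Field K] [Algebra ℂ K]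
    (hw : Wt s k a d) (F : FD s k K) (E : DVal K) (hE : IsDeg F a E)
    (P : MvPolynomial (Fin (s + 3)) ℂ) (hP : P ≠ 0) (hd : degreeOf 0 P < k 0) :
    aeval F.X P ≠ 0 := by
  intro h0
  have h1 := hE.red 0 P hP hd
  rw [h0, E.zero] at h1
  have h3 : weightedTotalDegree a P = 0 := by omega
  have h4 : ∀ e ∈ P.support, e = 0 := by
    intro e he
    have h5 := le_weightedTotalDegree a he
    rw [h3, nonpos_iff_eq_zero] at h5
    have h5' : Finsupp.weight a e = 0 := h5
    rw [Finsupp.weight_apply, Finsupp.sum] at h5'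
    rw [Finset.sum_eq_zero_iff] at h5'
    ext i
    by_contra hi
    have h6 := h5' i (Finsupp.mem_support_iff.2 hi)
    rw [smul_eq_mul, mul_eq_zero] at h6
    rcases h6 with h6 | h6
    · exact hi h6
    · exact absurd (da_pos hw i) (by omega)
  have h5 : P = C (P.coeff 0) := by
    ext e
    rw [coeff_C]
    split_ifs with h6
    · rw [h6]
    · by_contra h7
      exact h6 (h4 e (mem_support_iff.2 h7)).symm
  rw [h5, ← algebraMap_eq, AlgHom.commutes, map_eq_zero] at h0
  rw [h0, C_0] at h5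
  exact hP h5

/-- The functions on the affine hypersurface of degree at most `j` form a space of dimension
`hA a j`. -/
theorem finrank_le_deg {s : ℕ} {k a : Fin (s + 3) → ℕ} {d : ℕ} {K : Type} [Field K]
    [Algebra ℂ K] (hw : Wt s k a d) (F : FD s k K)
    (E : DVal K) (hE : IsDeg F a E)
    (hred : ∀ (P : MvPolynomial (Fin (s + 3)) ℂ), ∃ P' : MvPolynomial (Fin (s + 3)) ℂ,
      aeval F.X P' = aeval F.X P ∧ degreeOf 0 P' < k 0) (j : ℕ) :
    Module.finrank ℂ (Submodule.span ℂ {h : K | h ∈ F.A ∧ h ≠ 0 ∧ -(j : ℤ) ≤ E.v h}) = hA a j := by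
  have hk0 : k 0 = 2 := hw.k0
  let I : Set (Fin (s + 3) → ℕ) := {γ | γ 0 < 2 ∧ ∑ i, γ i * a i ≤ j}
  have hfin : I.Finite := da_finite hw j
  have : Fintype I := hfin.fintype
  let b : I → K := fun γ => ∏ i, F.X i ^ (γ.1 i)
  let m : I → (Fin (s + 3) →₀ ℕ) := fun γ => Finsupp.equivFunOnFinite.symm γ.1
  have hm : Function.Injective m := fun γ γ' h =>
    Subtype.ext (Finsupp.equivFunOnFinite.symm.injective h)
  have hmi : ∀ γ i, m γ i = γ.1 i := fun γ i => rfl
  have hb : ∀ γ, b γ = aeval F.X (monomial (m γ) (1 : ℂ)) := by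
    intro γ
    rw [da_aeval, one_smul]
    rfl
  have hli : LinearIndependent ℂ b := by
    rw [Fintype.linearIndependent_iff]
    intro g hg γ
    obtain ⟨P, hP⟩ : ∃ P : MvPolynomial (Fin (s + 3)) ℂ, P = ∑ γ, monomial (m γ) (g γ) :=
      ⟨_, rfl⟩
    have h1 : aeval F.X P = 0 := by
      rw [hP, map_sum, ← hg]
      refine Finset.sum_congr rfl fun γ _ => ?_
      rw [da_aeval]
      rfl
    have hcoeff : ∀ γ, P.coeff (m γ) = g γ := by
      intro γ
      rw [hP, coeff_sum, Finset.sum_eq_single γ]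
      · rw [coeff_monomial, if_pos rfl]
      · intro γ' _ hne
        rw [coeff_monomial, if_neg fun h => hne (hm h)]
      · intro h
        exact absurd (Finset.mem_univ γ) h
    have h2 : P = 0 := by
      by_contra h0
      refine da_ne hw F E hE P h0 ?_ h1
      rw [hk0, degreeOf_lt_iff (by norm_num)]
      intro e he
      rw [hP] at he
      have h3 := support_sum he
      obtain ⟨γ, -, h4⟩ := Finset.mem_biUnion.1 h3
      have h5 := support_monomial_subset h4
      rw [Finset.mem_singleton] at h5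
      rw [h5, hmi]
      exact γ.2.1
    rw [← hcoeff γ, h2, coeff_zero]
  have hEb : ∀ γ, E.v (b γ) = -(((∑ i, γ.1 i * a i : ℕ)) : ℤ) := by
    intro γ
    have h1 : degreeOf 0 (monomial (m γ) (1 : ℂ)) < k 0 := by
      rw [hk0, degreeOf_lt_iff (by norm_num)]
      intro e he
      have h5 := support_monomial_subset he
      rw [Finset.mem_singleton] at h5
      rw [h5, hmi]
      exact γ.2.1
    have h2 : (monomial (m γ) (1 : ℂ)) ≠ 0 := by
      rw [Ne, monomial_eq_zero]
      exact one_ne_zero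
    have h3 := hE.red 0 _ h2 h1
    rw [hb, h3]
    congr 2
    unfold weightedTotalDegree
    rw [support_monomial, if_neg one_ne_zero, Finset.sup_singleton, Finsupp.weight_apply,
      Finsupp.sum_fintype]
    · rfl
    · intro i
      exact zero_smul ℕ _
  have hspan : Submodule.span ℂ {h : K | h ∈ F.A ∧ h ≠ 0 ∧ -(j : ℤ) ≤ E.v h} =
      Submodule.span ℂ (Set.range b) := by
    apply le_antisymm
    · rw [Submodule.span_le]
      rintro h ⟨⟨P, hP⟩, h0, hv⟩
      obtain ⟨P', h1, h2⟩ := hred P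
      have h3 : aeval F.X P' = h := by
        rw [h1]
        exact hP
      have h4 : P' ≠ 0 := by
        rintro rfl
        rw [map_zero] at h3
        exact h0 h3.symm
      have h5 := hE.red 0 P' h4 h2
      rw [h3] at h5
      have h6 : weightedTotalDegree a P' ≤ j := by omega
      rw [← h3]
      show aeval F.X P' ∈ Submodule.span ℂ (Set.range b)
      rw [P'.as_sum, map_sum]
      refine Submodule.sum_mem _ fun e he => ?_
      rw [da_aeval]
      refine Submodule.smul_mem _ _ (Submodule.subset_span ?_)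
      have h7 : e 0 < 2 := by
        rw [hk0, degreeOf_lt_iff (by norm_num)] at h2
        exact h2 e he
      have h8 : ∑ i, e i * a i ≤ j := by
        have h9 := (le_weightedTotalDegree a he).trans h6
        rw [Finsupp.weight_apply, Finsupp.sum_fintype] at h9
        · exact h9
        · intro i
          exact zero_smul ℕ _
      exact ⟨⟨fun i => e i, h7, h8⟩, rfl⟩
    · rw [Submodule.span_le]
      rintro _ ⟨γ, rfl⟩
      refine Submodule.subset_span ⟨?_, ?_, ?_⟩
      · rw [hb]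
        exact ⟨_, rfl⟩
      · exact Finset.prod_ne_zero_iff.2 fun i _ => pow_ne_zero _ (F.X_ne hw i)
      · rw [hEb]
        have := γ.2.2
        have h1 : ((∑ i, γ.1 i * a i : ℕ) : ℤ) ≤ (j : ℤ) := by exact_mod_cast this
        omega
  rw [hspan, finrank_span_eq_card hli, ← Nat.card_eq_fintype_card, Nat.card_coe_set_eq]
  rfl

end Pool.Agent.FR
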