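import Pool.Agent.FR.Pole

/-!
# Uniqueness of log discrepancies (project FR, N7)
-/

set_option autoImplicit false

namespace Pool.Agent.FR

variable {K : Type} [Field K] [Algebra ℂ K]

/-- A function without zeros and poles along the prime divisors through the centre of `V` is a
unit of the local ring. -/
theorem unit_of_zero (Y : Model (⊤ : IntermediateField ℂ K)) (V : ValuationSubring K)
    (hV : IsPlace V) (f : K) (hf : f ≠ 0) (h : ∀ D, Through Y V D → D.v f = 0) :
    f ∈ locRing Y.g V ∧ f⁻¹ ∈ locRing Y.g V := by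
  constructor
  · by_contra hcon
    obtain ⟨D, hD, hv⟩ := exists_pole Y V hV f hcon
    have := h D hD
    omega
  · by_contra hcon
    obtain ⟨D, hD, hv⟩ := exists_pole Y V hV f⁻¹ hcon
    have := h D hD
    rw [D.inv hf] at hv
    omega

/-- A prime divisor passes through its own generic point. -/
theorem through_self (X : Model (⊤ : IntermediateField ℂ K)) (D : DVal K) (hD : IsPrimeDiv X D) :
    Through X D.ring D := ⟨hD, hD.symm.subset⟩

/-- The only prime divisor which passes through the generic point of a prime divisor is this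
divisor. -/
theorem eq_of_through (X : Model (⊤ : IntermediateField ℂ K)) (D D' : DVal K)
    (hD : IsPrimeDiv X D) (h : Through X D.ring D') : D' = D :=
  (DVal.eq_of_ring_le (hD.subset.trans h.2)).symm

theorem isLogDisc_unique {n : ℕ} (B : Module.Basis (Fin n) K (Derivation ℂ K K))
    (X : Model (⊤ : IntermediateField ℂ K)) (D : DVal K) (a a' : ℝ) (h : IsLogDisc B X D a)
    (h' : IsLogDisc B X D a') : a = a' := by
  obtain ⟨N, f, ⟨hN, hf, hT⟩, rfl⟩ := h
  obtain ⟨N', f', ⟨hN', hf', hT'⟩, rfl⟩ := h'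
  have hfp : f ^ N' ≠ 0 := pow_ne_zero _ hf
  have hfp' : f' ^ N ≠ 0 := pow_ne_zero _ hf'
  have hv : ∀ D₁ : DVal K, D₁.v (f ^ N' / f' ^ N) = N' * D₁.v f - N * D₁.v f' := fun D₁ => by
    rw [D₁.div' hfp hfp', D₁.pow hf, D₁.pow hf']
  have h1 := unit_of_zero X D.ring D.isPlace (f ^ N' / f' ^ N) (div_ne_zero hfp hfp') (by
    intro D₁ hD₁
    rw [hv, hT D₁ hD₁, hT' D₁ hD₁]
    ring)
  have h2 : 0 ≤ D.v (f ^ N' / f' ^ N) :=
    D.mem_ring'.1 (locRing_le X.g D.ring D.isPlace _ h1.1)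
  have h3 : 0 ≤ D.v (f ^ N' / f' ^ N)⁻¹ :=
    D.mem_ring'.1 (locRing_le X.g D.ring D.isPlace _ h1.2)
  rw [D.inv (div_ne_zero hfp hfp')] at h3
  rw [hv] at h2 h3
  have h4 : (N' : ℤ) * D.v f = N * D.v f' := by omega
  have h5 : (N' : ℝ) * (D.v f : ℝ) = N * (D.v f' : ℝ) := by exact_mod_cast h4
  have hN0 : (N : ℝ) ≠ 0 := by exact_mod_cast hN.ne'
  have hN0' : (N' : ℝ) ≠ 0 := by exact_mod_cast hN'.ne'
  have h6 : (D.v f : ℝ) / N = (D.v f' : ℝ) / N' := by
    rw [div_eq_div_iff hN0 hN0']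
    linarith
  rw [h6]

/-- A prime divisor has log discrepancy one (no assumption on `B`). -/
theorem isLogDisc_of_prime {n : ℕ} (B : Module.Basis (Fin n) K (Derivation ℂ K K))
    (X : Model (⊤ : IntermediateField ℂ K)) (D : DVal K) (hD : IsPrimeDiv X D) :
    IsLogDisc B X D 1 := by
  obtain ⟨π, hπ, hπ1⟩ := D.unif
  refine ⟨1, π ^ (kord B D), ⟨one_pos, zpow_ne_zero _ hπ, ?_⟩, ?_⟩
  · intro D' hD'
    rw [eq_of_through X D D' hD hD', D.zpow hπ, hπ1]
    push_cast
    ring
  · rw [D.zpow hπ, hπ1]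
    push_cast
    ring

end Pool.Agent.FR
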