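import Pool.Agent.FR.XDefs

/-!
FR-X2: reduced representatives.
-/

set_option autoImplicit false

namespace Pool.Agent.FR

open MvPolynomial
open scoped Classical

variable {s : ℕ} {k a : Fin (s + 3) → ℕ} {d : ℕ} {K : Type} [Field K] [Algebra ℂ K]

/-- `P` has a representative which is reduced for the variable `j` and has weights at most `W`. -/
private def XrGood (F : FD s k K) (a : Fin (s + 3) → ℕ) (j : Fin (s + 3)) (W : ℕ)
    (P : MvPolynomial (Fin (s + 3)) ℂ) : Prop :=
  ∃ P' : MvPolynomial (Fin (s + 3)) ℂ, aeval F.X P' = aeval F.X P ∧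
    ∀ e ∈ P'.support, e j < k j ∧ Finsupp.weight a e ≤ W

private theorem xr_zero (F : FD s k K) (j : Fin (s + 3)) (W : ℕ) : XrGood F a j W 0 :=
  ⟨0, rfl, fun e he => by simp at he⟩

private theorem xr_add (F : FD s k K) (j : Fin (s + 3)) (W : ℕ)
    (P Q : MvPolynomial (Fin (s + 3)) ℂ) (hP : XrGood F a j W P) (hQ : XrGood F a j W Q) :
    XrGood F a j W (P + Q) := by
  obtain ⟨P', h1, h2⟩ := hP
  obtain ⟨Q', h3, h4⟩ := hQ
  refine ⟨P' + Q', by rw [map_add, map_add, h1, h3], fun e he => ?_⟩
  rcases Finset.mem_union.1 (support_add he) with h | h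
  · exact h2 e h
  · exact h4 e h

private theorem xr_sum (F : FD s k K) (j : Fin (s + 3)) (W : ℕ) {ι : Type} (S : Finset ι)
    (f : ι → MvPolynomial (Fin (s + 3)) ℂ) (h : ∀ i ∈ S, XrGood F a j W (f i)) :
    XrGood F a j W (∑ i ∈ S, f i) :=
  Finset.sum_induction f _ (xr_add F j W) (xr_zero F j W) h

private theorem xr_mono (F : FD s k K) (j : Fin (s + 3)) {W W' : ℕ} (hW : W ≤ W')
    (P : MvPolynomial (Fin (s + 3)) ℂ) (hP : XrGood F a j W P) : XrGood F a j W' P := by
  obtain ⟨P', h1, h2⟩ := hP
  exact ⟨P', h1, fun e he => ⟨(h2 e he).1, (h2 e he).2.trans hW⟩⟩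

private theorem xr_congr (F : FD s k K) (j : Fin (s + 3)) (W : ℕ)
    (P Q : MvPolynomial (Fin (s + 3)) ℂ) (h : aeval F.X P = aeval F.X Q)
    (hP : XrGood F a j W P) : XrGood F a j W Q := by
  obtain ⟨P', h1, h2⟩ := hP
  exact ⟨P', h1.trans h, h2⟩

private theorem xr_monomial (hw : Wt s k a d) (F : FD s k K) (j : Fin (s + 3)) (n : ℕ) :
    ∀ (e : Fin (s + 3) →₀ ℕ) (c : ℂ), e j ≤ n → XrGood F a j (Finsupp.weight a e)
      (monomial e c) := by
  induction n using Nat.strong_induction_on with
  | _ n ih =>
    intro e c hen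
    by_cases hej : e j < k j
    · refine ⟨monomial e c, rfl, fun e' he' => ?_⟩
      have := support_monomial_subset he'
      rw [Finset.mem_singleton] at this
      subst this
      exact ⟨hej, le_rfl⟩
    · push Not at hej
      have hkj : 2 ≤ k j := hw.hk j
      -- `e = e' + k j` at `j`
      set e' : Fin (s + 3) →₀ ℕ := e - Finsupp.single j (k j) with he'
      have hee : e = e' + Finsupp.single j (k j) := by
        rw [he']
        refine (tsub_add_cancel_of_le ?_).symm
        rw [Finsupp.single_le_iff]
        exact hej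
      have he'j : e' j + k j = e j := by
        rw [hee]; simp
      have hwt : ∀ i, Finsupp.weight a (e' + Finsupp.single i (k i)) = Finsupp.weight a e := by
        intro i
        conv_rhs => rw [hee]
        rw [map_add, map_add, Finsupp.weight_single, Finsupp.weight_single, smul_eq_mul,
          smul_eq_mul, hw.ka, hw.ka]
      have hwt' : Finsupp.weight a e' ≤ Finsupp.weight a e := by
        rw [← hwt j, map_add]
        exact Nat.le_add_right _ _
      have hrel := F.rel
      rw [← Finset.add_sum_erase _ _ (Finset.mem_univ j)] at hrel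
      have hX : F.X j ^ k j = -1 - ∑ i ∈ Finset.univ.erase j, F.X i ^ k i := by
        linear_combination hrel
      apply xr_congr F j _ (monomial e' (-c) +
        ∑ i ∈ Finset.univ.erase j, monomial (e' + Finsupp.single i (k i)) (-c))
      · have hmon : ∀ (u : Fin (s + 3) →₀ ℕ) (i : Fin (s + 3)) (b : ℂ),
            aeval F.X (monomial (u + Finsupp.single i (k i)) b) =
              aeval F.X (monomial u b) * F.X i ^ k i := by
          intro u i b
          have h1 : (monomial (u + Finsupp.single i (k i)) b : MvPolynomial (Fin (s + 3)) ℂ) =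
              monomial u b * MvPolynomial.X i ^ k i := by
            rw [X_pow_eq_monomial, monomial_mul, mul_one]
          rw [h1, map_mul, map_pow, aeval_X]
        have hneg : aeval F.X (monomial e' (-c)) = - aeval F.X (monomial e' c) := by
          rw [← map_neg, ← map_neg]
        conv_rhs => rw [hee]
        rw [hmon, hX, map_add, map_sum, Finset.sum_congr rfl (fun i _ => hmon e' i (-c)), hneg,
          ← Finset.mul_sum]
        ring
      · apply xr_add
        · exact xr_mono F j hwt' _ (ih (e' j) (by omega) e' (-c) le_rfl)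
        · apply xr_sum
          intro i hi
          have hij : i ≠ j := (Finset.mem_erase.1 hi).1
          have h1 := ih (e' j) (by omega) (e' + Finsupp.single i (k i)) (-c) (by
            rw [Finsupp.add_apply, Finsupp.single_eq_of_ne (Ne.symm hij), add_zero])
          rwa [hwt i] at h1

/-- Reduced representatives. -/
theorem exists_red (hw : Wt s k a d) (F : FD s k K) (j : Fin (s + 3))
    (P : MvPolynomial (Fin (s + 3)) ℂ) : ∃ P' : MvPolynomial (Fin (s + 3)) ℂ,
    aeval F.X P' = aeval F.X P ∧ degreeOf j P' < k j ∧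
      weightedTotalDegree a P' ≤ weightedTotalDegree a P := by
  have h : XrGood F a j (weightedTotalDegree a P) P := by
    conv_rhs => rw [P.as_sum]
    apply xr_sum
    intro e he
    refine xr_mono F j ?_ _ (xr_monomial hw F j (e j) e _ le_rfl)
    exact Finset.le_sup (f := fun s => Finsupp.weight a s) he
  obtain ⟨P', h1, h2⟩ := h
  have hkj : 2 ≤ k j := hw.hk j
  refine ⟨P', h1, ?_, ?_⟩
  · rw [degreeOf_lt_iff (by omega)]
    exact fun e he => (h2 e he).1
  · exact Finset.sup_le fun e he => (h2 e he).2

end Pool.Agent.FR
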