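import Pool.Agent.FR.Vol
import Pool.Agent.FR.DimA
import Pool.Agent.FR.XRed
import Pool.Agent.FR.Beta
import Pool.Agent.FR.Unique

/-! # The divisor at infinity has `β = -1/10` -/

set_option autoImplicit false

namespace Pool.Agent.FR

open scoped Classical

variable {K : Type} [Field K] [Algebra ℂ K]

theorem not_kstable (F : FD 7 kk K) (B : Module.Basis (Fin 9) K (Derivation ℂ K K))
    (E : DVal K) (hE : IsDeg F aa E) (X : Model (⊤ : IntermediateField ℂ K))
    (hX : IsSuper B X E 11)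
    (hr : ∀ h : K, h ≠ 0 → ((∀ D, IsPrimeDiv X D → D ≠ E → 0 ≤ D.v h) ↔ h ∈ F.A)) :
    IsLogDisc B X E 1 ∧ beta B X E 1 = -1 / 10 := by
  refine ⟨isLogDisc_of_prime B X E hX.primeE, ?_⟩
  have hd := finrank_le_deg wt F E hE fun P => by
    obtain ⟨P', h1, h2, -⟩ := exists_red wt F 0 P
    exact ⟨P', h1, h2⟩
  obtain ⟨v, hv, h1, h2⟩ := vol_eq F B E hE X hX hr hd
  exact beta_of_vol B E X v hv h1 h2

end Pool.Agent.FR
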