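import Mathlib

/-!
Project FR (MP_c0959a_ag), block U: the ring `R[x, y] / (y ^ 2 + x ^ 3 + b)`.
-/

set_option autoImplicit false

namespace Pool.Agent.FR.U

open Polynomial

/-- `y ^ 2 + (x ^ 3 + b)` as a polynomial in `y` over `R[x]` -/
noncomputable def wf {R : Type*} [CommRing R] (b : R) : R[X][X] := X ^ 2 + C (X ^ 3 + C b)

/-- the coordinate ring `R[x][y] / (y ^ 2 + x ^ 3 + b)` -/
abbrev CR {R : Type*} [CommRing R] (b : R) : Type _ := AdjoinRoot (wf b)

/-- `u + v y` -/
noncomputable def elt {R : Type*} [CommRing R] (b : R) (u v : R[X]) : CR b :=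
  AdjoinRoot.of (wf b) u + AdjoinRoot.of (wf b) v * AdjoinRoot.root (wf b)

section basic

variable {R : Type*} [CommRing R] (b : R)

theorem wf_monic : (wf b).Monic := monic_X_pow_add_C _ (by norm_num)

theorem root_sq : AdjoinRoot.root (wf b) ^ 2 = - AdjoinRoot.of (wf b) (X ^ 3 + C b) := by
  have h := AdjoinRoot.eval₂_root (wf b)
  rw [wf, eval₂_add, eval₂_pow, eval₂_X, eval₂_C] at h
  exact eq_neg_of_add_eq_zero_left h

theorem elt_surj (z : CR b) : ∃ u v, z = elt b u v := by
  obtain ⟨f, rfl⟩ := AdjoinRoot.mk_surjective z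
  induction f using Polynomial.induction_on with
  | C a =>
    refine ⟨a, 0, ?_⟩
    rw [elt, map_zero, zero_mul, add_zero, AdjoinRoot.mk_C]
  | add p q hp hq =>
    obtain ⟨u, v, h⟩ := hp
    obtain ⟨u', v', h'⟩ := hq
    refine ⟨u + u', v + v', ?_⟩
    rw [map_add, h, h']
    simp only [elt, map_add]
    ring
  | monomial n a h =>
    obtain ⟨u, v, h⟩ := h
    refine ⟨- (v * (X ^ 3 + C b)), u, ?_⟩
    have h1 : AdjoinRoot.mk (wf b) (C a * X ^ (n + 1)) =
        AdjoinRoot.mk (wf b) (C a * X ^ n) * AdjoinRoot.root (wf b) := by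
      rw [pow_succ, ← mul_assoc, map_mul _ (C a * X ^ n), AdjoinRoot.mk_X]
    rw [h1, h]
    have h2 := root_sq b
    simp only [elt, map_neg, map_mul] at h2 ⊢
    linear_combination (AdjoinRoot.of (wf b) v) * h2

theorem elt_add (u v u' v' : R[X]) : elt b u v + elt b u' v' = elt b (u + u') (v + v') := by
  simp only [elt, map_add]
  ring

theorem elt_sub (u v u' v' : R[X]) : elt b u v - elt b u' v' = elt b (u - u') (v - v') := by
  simp only [elt, map_sub]
  ring

theorem elt_neg (u v : R[X]) : - elt b u v = elt b (-u) (-v) := by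
  simp only [elt, map_neg]
  ring

theorem elt_mul (u v u' v' : R[X]) : elt b u v * elt b u' v' =
    elt b (u * u' - v * v' * (X ^ 3 + C b)) (u * v' + v * u') := by
  have h2 := root_sq b
  simp only [elt, map_mul, map_add, map_sub] at h2 ⊢
  linear_combination (AdjoinRoot.of (wf b) v * AdjoinRoot.of (wf b) v') * h2

/-- the conjugate times the element is the norm -/
theorem elt_conj (u v : R[X]) : elt b u (-v) * elt b u v = elt b (u ^ 2 + v ^ 2 * (X ^ 3 + C b)) 0 := by
  rw [elt_mul]
  congr 1 <;> ring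

theorem elt_of (u : R[X]) : elt b u 0 = AdjoinRoot.of (wf b) u := by
  rw [elt, map_zero, zero_mul, add_zero]

theorem elt_eq_zero {u v : R[X]} (h : elt b u v = 0) : u = 0 ∧ v = 0 := by
  nontriviality R
  have h1 : AdjoinRoot.mk (wf b) (C u + C v * X) = 0 := by
    rw [map_add, map_mul, AdjoinRoot.mk_C, AdjoinRoot.mk_C, AdjoinRoot.mk_X]
    exact h
  rw [AdjoinRoot.mk_eq_zero] at h1
  have hd : (wf b).natDegree = 2 := natDegree_X_pow_add_C
  have h2 : C u + C v * X = 0 := by
    by_contra hne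
    have h3 : (C u + C v * X : R[X][X]).natDegree < (wf b).natDegree := by
      rw [hd]
      have h4 : (C u + C v * X : R[X][X]).natDegree ≤ 1 := by compute_degree
      omega
    exact (wf_monic b).not_dvd_of_natDegree_lt hne h3 h1
  have h5 := congrArg (fun f => coeff f 0) h2
  have h6 := congrArg (fun f => coeff f 1) h2
  simp at h5 h6
  exact ⟨h5, h6⟩

theorem elt_inj {u v u' v' : R[X]} (h : elt b u v = elt b u' v') : u = u' ∧ v = v' := by
  rw [← sub_eq_zero, elt_sub] at h
  obtain ⟨h1, h2⟩ := elt_eq_zero b h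
  exact ⟨sub_eq_zero.1 h1, sub_eq_zero.1 h2⟩

end basic

/-- the degree parity argument -/
theorem parity {T : Type*} [CommRing T] [IsDomain T] (c : T) {u v : T[X]}
    (h : u ^ 2 + v ^ 2 * (X ^ 3 + C c) = 0) : u = 0 ∧ v = 0 := by
  by_cases hv : v = 0
  · subst hv
    refine ⟨?_, rfl⟩
    rw [zero_pow two_ne_zero, zero_mul, add_zero] at h
    exact pow_eq_zero_iff two_ne_zero |>.1 h
  exfalso
  have h1 : u ^ 2 = - (v ^ 2 * (X ^ 3 + C c)) := eq_neg_of_add_eq_zero_left h
  have h2 := congrArg natDegree h1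
  have h3 : (X ^ 3 + C c : T[X]).natDegree = 3 := natDegree_X_pow_add_C
  have h4 : (X ^ 3 + C c : T[X]) ≠ 0 := by
    intro h0
    rw [h0] at h3
    simp at h3
  rw [natDegree_neg, natDegree_pow, natDegree_mul (pow_ne_zero 2 hv) h4, natDegree_pow, h3] at h2
  omega

instance isDomain_CR {T : Type*} [CommRing T] [IsDomain T] (c : T) : IsDomain (CR c) := by
  have hnt : Nontrivial (CR c) := by
    refine ⟨⟨elt c 1 0, 0, fun h => ?_⟩⟩
    exact one_ne_zero (elt_eq_zero c h).1
  refine @NoZeroDivisors.to_isDomain _ _ hnt ⟨fun {α β} h => ?_⟩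
  obtain ⟨u, v, rfl⟩ := elt_surj c α
  obtain ⟨u', v', rfl⟩ := elt_surj c β
  have h1 : elt c u (-v) * elt c u v * elt c u' v' = 0 := by
    rw [mul_assoc, h, mul_zero]
  rw [elt_conj, elt_mul] at h1
  obtain ⟨h2, h3⟩ := elt_eq_zero c h1
  simp only [zero_mul, sub_zero, add_zero] at h2 h3
  by_cases hN : u ^ 2 + v ^ 2 * (X ^ 3 + C c) = 0
  · left
    obtain ⟨h4, h5⟩ := parity c hN
    rw [h4, h5, elt_of, map_zero]
  · right
    have h4 := (mul_eq_zero.1 h2).resolve_left hN
    have h5 := (mul_eq_zero.1 h3).resolve_left hN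
    rw [h4, h5, elt_of, map_zero]

/-- a prime element of `R` stays prime in `R[x, y] / (y ^ 2 + x ^ 3 + b)` -/
theorem prime_CR {R : Type*} [CommRing R] [IsDomain R] (b : R) {p : R} (hp : Prime p) :
    Prime (AdjoinRoot.of (wf b) (C p)) := by
  have hpC : Prime (C p : R[X]) := prime_C_iff.2 hp
  have hdvd : ∀ u v : R[X], AdjoinRoot.of (wf b) (C p) ∣ elt b u v ↔ C p ∣ u ∧ C p ∣ v := by
    intro u v
    constructor
    · rintro ⟨z, hz⟩
      obtain ⟨s, t, rfl⟩ := elt_surj b z
      rw [← elt_of, elt_mul] at hz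
      obtain ⟨h1, h2⟩ := elt_inj b hz
      simp only [zero_mul, sub_zero, add_zero] at h1 h2
      exact ⟨⟨s, h1⟩, ⟨t, h2⟩⟩
    · rintro ⟨⟨s, rfl⟩, ⟨t, rfl⟩⟩
      refine ⟨elt b s t, ?_⟩
      rw [← elt_of, elt_mul]
      congr 1 <;> ring
  refine ⟨?_, ?_, ?_⟩
  · intro h
    rw [← elt_of] at h
    exact hpC.ne_zero (elt_eq_zero b h).1
  · intro h
    have h1 : AdjoinRoot.of (wf b) (C p) ∣ elt b 1 0 := by
      rw [elt_of, map_one]
      exact h.dvd
    exact hpC.not_isUnit (isUnit_of_dvd_one ((hdvd 1 0).1 h1).1)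
  · intro α β h
    obtain ⟨u, v, rfl⟩ := elt_surj b α
    obtain ⟨u', v', rfl⟩ := elt_surj b β
    have h1 : AdjoinRoot.of (wf b) (C p) ∣ elt b u (-v) * elt b u v * elt b u' v' := by
      rw [mul_assoc]
      exact h.mul_left _
    rw [elt_conj, elt_mul] at h1
    obtain ⟨h2, h3⟩ := (hdvd _ _).1 h1
    simp only [zero_mul, sub_zero, add_zero] at h2 h3
    by_cases hN : C p ∣ u ^ 2 + v ^ 2 * (X ^ 3 + C b)
    · left
      rw [hdvd]
      have hmax : (Ideal.span {p}).IsPrime := by
        rw [Ideal.span_singleton_prime hp.ne_zero]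
        exact hp
      have : IsDomain (R ⧸ Ideal.span {p}) := (Ideal.Quotient.isDomain_iff_prime _).mpr hmax
      have key : ∀ w : R[X], C p ∣ w ↔ w.map (Ideal.Quotient.mk (Ideal.span {p})) = 0 := by
        intro w
        rw [C_dvd_iff_dvd_coeff]
        constructor
        · intro hw
          ext i
          rw [coeff_map, coeff_zero, Ideal.Quotient.eq_zero_iff_mem, Ideal.mem_span_singleton]
          exact hw i
        · intro hw i
          have := congrArg (fun f => coeff f i) hw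
          rwa [coeff_map, coeff_zero, Ideal.Quotient.eq_zero_iff_mem,
            Ideal.mem_span_singleton] at this
      rw [key, Polynomial.map_add, Polynomial.map_mul, Polynomial.map_pow, Polynomial.map_pow,
        Polynomial.map_add, Polynomial.map_pow, map_X, map_C] at hN
      obtain ⟨h4, h5⟩ := parity _ hN
      exact ⟨(key u).2 h4, (key v).2 h5⟩
    · right
      rw [hdvd]
      exact ⟨(hpC.dvd_or_dvd h2).resolve_left hN, (hpC.dvd_or_dvd h3).resolve_left hN⟩

end Pool.Agent.FR.U
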