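import Pool.Agent.FR.Check0

/-!
Project FR (MP_c0959a_ag): the numerical inequality behind the key inequality, from the finite
check of Check0.
-/

set_option autoImplicit false

namespace Pool.Agent.FR.Chk

theorem beq_f {m : ℕ} (h : ¬ m = 0) : Nat.beq m 0 = false := by
  rw [Bool.eq_false_iff]
  intro hb
  exact h (Nat.eq_of_beq_eq_true hb)

theorem beq_t {m : ℕ} (h : m = 0) : Nat.beq m 0 = true := by
  subst h; rfl

theorem cond_beq (m a b : ℕ) : (bif Nat.beq m 0 then a else b) = if m = 0 then a else b := by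
  by_cases h : m = 0
  · rw [beq_t h, if_pos h, cond_true]
  · rw [beq_f h, if_neg h, cond_false]

theorem S_eq (q : ℕ) : S q = Sx q := by
  simp only [S, Sx, Fin.sum_univ_succ, Fin.sum_univ_zero]
  simp only [aa, kk, Matrix.cons_val_zero, Matrix.cons_val_succ]
  ring

/-- the check, in usable form -/
theorem chk_spec {q : ℕ} (hq : 0 < q) (hq' : q < 60060) (h6 : q ≠ 6) {i₁ i₂ : Fin 10}
    (h12 : i₁ ≠ i₂) (h1 : q % kk i₁ = 0) (h2 : q % kk i₂ = 0) (l : Fin 10) :
    60060 + 11 * km q * (q % kk l) ≤ S q := by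
  have h := allB_spec chk 16 1 all1 q hq (by norm_num; omega)
  rw [S_eq]
  have hc : Nat.ble (cnt q) 1 = false := by
    rw [Bool.eq_false_iff]
    intro hb
    have hb' := Nat.le_of_ble_eq_true hb
    have e : cnt q = ∑ j, (if q % kk j = 0 then 1 else 0) := by
      simp only [cnt, Fin.sum_univ_succ, Fin.sum_univ_zero]
      simp only [kk, Matrix.cons_val_zero, Matrix.cons_val_succ]
      simp only [cond_beq]
      rfl
    have h3 : (∑ j ∈ ({i₁, i₂} : Finset (Fin 10)), (if q % kk j = 0 then 1 else 0)) ≤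
        ∑ j, (if q % kk j = 0 then 1 else 0) :=
      Finset.sum_le_sum_of_subset (Finset.subset_univ _)
    rw [Finset.sum_pair h12, if_pos h1, if_pos h2, ← e] at h3
    omega
  have h6' : Nat.beq q 6 = false := by
    rw [Bool.eq_false_iff]
    intro hb
    exact h6 (Nat.eq_of_beq_eq_true hb)
  rw [chk, hc, h6'] at h
  simp only [cond_false, Bool.and_eq_true] at h
  obtain ⟨⟨⟨⟨⟨⟨⟨⟨g2, g3⟩, g28⟩, g39⟩, g52⟩, g55⟩, g66⟩, g70⟩, g77⟩ := h
  have g3 := Nat.le_of_ble_eq_true g3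
  have g2 := Nat.le_of_ble_eq_true g2
  have g28 := Nat.le_of_ble_eq_true g28
  have g39 := Nat.le_of_ble_eq_true g39
  have g52 := Nat.le_of_ble_eq_true g52
  have g55 := Nat.le_of_ble_eq_true g55
  have g66 := Nat.le_of_ble_eq_true g66
  have g70 := Nat.le_of_ble_eq_true g70
  have g77 := Nat.le_of_ble_eq_true g77
  fin_cases l <;> assumption

theorem S_ge {q : ℕ} (hq : 0 < q) (hq' : q < 60060) (h6 : q ≠ 6) {i₁ i₂ : Fin 10}
    (h12 : i₁ ≠ i₂) (h1 : q % kk i₁ = 0) (h2 : q % kk i₂ = 0) : 60060 ≤ S q :=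
  le_trans (Nat.le_add_right _ _) (chk_spec hq hq' h6 h12 h1 h2 0)

/-- `km q` is one of the exponents dividing `q` -/
theorem km_spec {q : ℕ} {i : Fin 10} (h : q % kk i = 0) :
    ∃ j, kk j = km q ∧ q % kk j = 0 := by
  unfold km
  by_cases h2 : q % 2 = 0
  · exact ⟨0, by simp only [cond_beq, h2]; rfl, h2⟩
  by_cases h3 : q % 3 = 0
  · exact ⟨1, by simp only [cond_beq, h2, h3]; rfl, h3⟩
  by_cases h28 : q % 28 = 0
  · omega
  by_cases h39 : q % 39 = 0
  · omega
  by_cases h52 : q % 52 = 0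
  · omega
  by_cases h55 : q % 55 = 0
  · exact ⟨6, by simp only [cond_beq, h2, h3, h28, h39, h52, h55]; rfl, h55⟩
  by_cases h66 : q % 66 = 0
  · omega
  by_cases h70 : q % 70 = 0
  · omega
  by_cases h77 : q % 77 = 0
  · exact ⟨9, by simp only [cond_beq, h2, h3, h28, h39, h52, h55, h66, h70, h77]; rfl, h77⟩
  exfalso
  revert h
  fin_cases i <;> simp only [kk] <;> simp <;> omega

theorem sum_W {q : ℕ} {W : Fin 10 → ℕ} (hW : ∀ j, W j % kk j = q % kk j) :
    q + ∑ j, aa j * W j = S q + 60060 * ∑ j, W j / kk j := by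
  rw [S, add_assoc, Finset.mul_sum, ← Finset.sum_add_distrib]
  congr 1
  refine Finset.sum_congr rfl fun j _ => ?_
  have h1 := Nat.div_add_mod (W j) (kk j)
  have h2 := a_mul_k j
  rw [← hW j]
  calc aa j * W j = aa j * (kk j * (W j / kk j) + W j % kk j) := by rw [h1]
    _ = aa j * (W j % kk j) + (aa j * kk j) * (W j / kk j) := by ring
    _ = _ := by rw [h2]

/-- THE CHECK: `W j = kk j * D (X j) + q`. -/
theorem check_main {q : ℕ} (hq : 0 < q) {W : Fin 10 → ℕ} (hW : ∀ j, W j % kk j = q % kk j)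
    {i₁ i₂ : Fin 10} (h12 : i₁ ≠ i₂) (h1 : W i₁ = 0) (h2 : W i₂ = 0) :
    (∃ j₀, W j₀ = 0 ∧ ∀ l, l ≠ j₀ → 11 * kk j₀ * W l + 60060 ≤ q + ∑ j, aa j * W j) ∨
    ((∀ j, W j = 0 ↔ j = 0 ∨ j = 1) ∧ ∀ l, 11 * W l + 60060 ≤ q + ∑ j, aa j * W j) := by
  have hW0 : ∀ {i}, W i = 0 → q % kk i = 0 := fun {i} h => by
    rw [← hW i, h, Nat.zero_mod]
  have hr1 := hW0 h1
  have hr2 := hW0 h2
  have hdec : ∀ l, W l = kk l * (W l / kk l) + q % kk l := fun l => by
    rw [← hW l, Nat.div_add_mod]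
  have hsum1 : ∀ l, W l / kk l ≤ ∑ j, W j / kk j := fun l =>
    Finset.single_le_sum (f := fun j => W j / kk j) (fun _ _ => Nat.zero_le _) (Finset.mem_univ l)
  have hsum2 : ∀ l m, l ≠ m → W l / kk l + W m / kk m ≤ ∑ j, W j / kk j := fun l m hlm => by
    have h3 : (∑ j ∈ ({l, m} : Finset (Fin 10)), W j / kk j) ≤ ∑ j, W j / kk j :=
      Finset.sum_le_sum_of_subset (Finset.subset_univ _)
    rwa [Finset.sum_pair hlm] at h3
  rcases lt_or_ge q 60060 with hq' | hq'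
  swap
  · -- large q
    left
    refine ⟨i₁, h1, fun l hl => ?_⟩
    have h3 : aa l * W l ≤ ∑ j, aa j * W j :=
      Finset.single_le_sum (f := fun j => aa j * W j) (fun _ _ => Nat.zero_le _) (Finset.mem_univ l)
    have h4 := Nat.mul_le_mul_right (W l) (k_le i₁ l hl.symm)
    omega
  by_cases h6 : q = 6
  · right
    subst h6
    have hk : ∀ j, 6 % kk j = 0 → j = 0 ∨ j = 1 := by decide
    have h3 : ∀ j, W j = 0 → j = 0 ∨ j = 1 := fun j hj => hk j (hW0 hj)
    have h01 : W 0 = 0 ∧ W 1 = 0 := by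
      rcases h3 i₁ h1 with h | h <;> rcases h3 i₂ h2 with h' | h'
      · exact absurd (h.trans h'.symm) h12
      · exact ⟨h ▸ h1, h' ▸ h2⟩
      · exact ⟨h' ▸ h2, h ▸ h1⟩
      · exact absurd (h.trans h'.symm) h12
    refine ⟨fun j => ⟨h3 j, ?_⟩, fun l => ?_⟩
    · rintro (h | h)
      · rw [h]; exact h01.1
      · rw [h]; exact h01.2
    · rw [sum_W hW]
      have hS : S 6 = 60126 := by decide
      rw [hS]
      have h4 : 11 * kk l ≤ 60060 := by revert l; decide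
      have h5 : 6 % kk l ≤ 6 := Nat.mod_le _ _
      have h7 := hdec l
      have h8 := hsum1 l
      have h9 := Nat.mul_le_mul_right (W l / kk l) h4
      have h10 := Nat.mul_le_mul_left 60060 h8
      have h11 : 11 * W l = 11 * kk l * (W l / kk l) + 11 * (6 % kk l) := by
        conv_lhs => rw [h7]
        ring
      omega
  · left
    rw [sum_W hW]
    have hS := S_ge hq hq' h6 h12 hr1 hr2
    obtain ⟨jm, hjm, hjq⟩ := km_spec hr1
    have key : ∀ j₀ l, 11 * kk j₀ * W l = 11 * kk j₀ * kk l * (W l / kk l) +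
        11 * kk j₀ * (q % kk l) := fun j₀ l => by
      conv_lhs => rw [hdec l]
      ring
    by_cases hm : W jm = 0
    · refine ⟨jm, hm, fun l hl => ?_⟩
      have h3 := chk_spec hq hq' h6 h12 hr1 hr2 l
      rw [← hjm] at h3
      have h4 := Nat.mul_le_mul_right (W l / kk l) (kk_le jm l hl.symm)
      have h5 := Nat.mul_le_mul_left 60060 (hsum1 l)
      rw [key]
      omega
    · refine ⟨i₁, h1, fun l hl => ?_⟩
      have h4 := Nat.mul_le_mul_right (W l / kk l) (kk_le i₁ l hl.symm)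
      have ht : 1 ≤ W jm / kk jm := by
        rcases Nat.eq_zero_or_pos (W jm / kk jm) with h | h
        · exfalso
          apply hm
          rw [hdec jm, h, hjq, Nat.mul_zero]
        · exact h
      rw [key]
      by_cases hlm : l = jm
      · subst hlm
        rw [hjq]
        have h5 := Nat.mul_le_mul_left 60060 (hsum1 l)
        omega
      · have h5 := Nat.mul_le_mul_left 60060 (hsum2 l jm hlm)
        have h7 : 11 * kk i₁ * (q % kk l) ≤ 60060 :=
          le_trans (Nat.mul_le_mul_left _ (Nat.mod_lt _ (k_pos l)).le) (kk_le i₁ l hl.symm)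
        omega

end Pool.Agent.FR.Chk

namespace Pool.Agent.FR

open Chk

/-- `S₀ q = q - d + ∑ a j (q mod k j)`. -/
def S0 (q : ℕ) : ℤ := (q : ℤ) - 60060 + ∑ j : Fin 10, (aa j : ℤ) * ((q % kk j : ℕ) : ℤ)

theorem S0_eq (q : ℕ) : S0 q = (Chk.S q : ℤ) - 60060 := by
  unfold S0 Chk.S
  push_cast
  ring

/-- If at least two exponents divide `q`: either `q = 6`, or the strong bound. -/
theorem check6 (q : ℕ) (hq : 0 < q) (hq' : q < 60060) (i j : Fin 10) (hij : i ≠ j)
    (hi : kk i ∣ q) (hj : kk j ∣ q) :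
    0 ≤ S0 q ∧ (q = 6 ∨
      ∀ j₀, kk j₀ ∣ q → (∀ j, kk j ∣ q → kk j₀ ≤ kk j) →
        ∀ l, 11 * (kk j₀ : ℤ) * ((q % kk l : ℕ) : ℤ) ≤ S0 q) := by
  rw [S0_eq]
  by_cases h6 : q = 6
  · subst h6
    have hS : Chk.S 6 = 60126 := by decide
    rw [hS]
    exact ⟨by norm_num, Or.inl rfl⟩
  have h1 := Nat.mod_eq_zero_of_dvd hi
  have h2 := Nat.mod_eq_zero_of_dvd hj
  have h3 := S_ge hq hq' h6 hij h1 h2
  refine ⟨by omega, Or.inr fun j₀ hj₀ hmin l => ?_⟩
  obtain ⟨jm, hjm, hjq⟩ := km_spec h1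
  have h4 := chk_spec hq hq' h6 hij h1 h2 l
  have h5 := hmin jm (Nat.dvd_of_mod_eq_zero hjq)
  rw [hjm] at h5
  have h6 := Nat.mul_le_mul_right (q % kk l) (Nat.mul_le_mul_left 11 h5)
  have h7 : 11 * kk j₀ * (q % kk l) + 60060 ≤ Chk.S q := by omega
  have h8 : ((11 * kk j₀ * (q % kk l) + 60060 : ℕ) : ℤ) ≤ (Chk.S q : ℤ) := by exact_mod_cast h7
  push_cast at h8 ⊢
  linarith

/-- If at least two exponents divide `q`: either exactly `2` and `3` do, or the strong bound. -/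
theorem check (q : ℕ) (hq : 0 < q) (hq' : q < 60060) (i j : Fin 10) (hij : i ≠ j)
    (hi : kk i ∣ q) (hj : kk j ∣ q) :
    0 ≤ S0 q ∧ ((∀ l, kk l ∣ q → l = 0 ∨ l = 1) ∧ (∀ l, 11 * ((q % kk l : ℕ) : ℤ) ≤ S0 q) ∨
      ∀ j₀, kk j₀ ∣ q → (∀ j, kk j ∣ q → kk j₀ ≤ kk j) →
        ∀ l, 11 * (kk j₀ : ℤ) * ((q % kk l : ℕ) : ℤ) ≤ S0 q) := by
  obtain ⟨h1, h2⟩ := check6 q hq hq' i j hij hi hj
  refine ⟨h1, ?_⟩
  rcases h2 with h2 | h2
  · subst h2
    have hS : Chk.S 6 = 60126 := by decide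
    rw [S0_eq, hS]
    exact Or.inl ⟨by decide, by decide⟩
  · exact Or.inr h2

end Pool.Agent.FR
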