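import Pool.Agent.FR.Data

/-!
Project FR (MP_c0959a_ag): the finite numerical check behind the key inequality for the
Fermat hypersurface of degree `60060`, part 1: the computation.
-/

set_option autoImplicit false

namespace Pool.Agent.FR.Chk

open Pool.Agent.FR

theorem a_mul_k (j : Fin 10) : aa j * kk j = 60060 := by
  rw [mul_comm]; exact kk_aa j

theorem k_pos (j : Fin 10) : 0 < kk j := by
  revert j; decide

theorem kk_le (i j : Fin 10) (h : i ≠ j) : 11 * kk i * kk j ≤ 60060 := by
  revert i j; decide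

theorem k_le (i j : Fin 10) (h : i ≠ j) : 11 * kk i ≤ aa j := by
  revert i j; decide

/-- the numerical function of the check -/
def S (q : ℕ) : ℕ := q + ∑ j, aa j * (q % kk j)

/-- the smallest exponent that divides `q` (or 78 when there is none) -/
def km (q : ℕ) : ℕ :=
  bif Nat.beq (q % 2) 0 then 2 else bif Nat.beq (q % 3) 0 then 3 else
  bif Nat.beq (q % 28) 0 then 28 else bif Nat.beq (q % 39) 0 then 39 else
  bif Nat.beq (q % 52) 0 then 52 else bif Nat.beq (q % 55) 0 then 55 else
  bif Nat.beq (q % 66) 0 then 66 else bif Nat.beq (q % 70) 0 then 70 else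
  bif Nat.beq (q % 77) 0 then 77 else 78

/-- the number of exponents dividing `q` -/
def cnt (q : ℕ) : ℕ :=
  Nat.add (bif Nat.beq (q % 2) 0 then 1 else 0) (Nat.add (bif Nat.beq (q % 3) 0 then 1 else 0)
  (Nat.add (bif Nat.beq (q % 28) 0 then 1 else 0) (Nat.add (bif Nat.beq (q % 39) 0 then 1 else 0)
  (Nat.add (bif Nat.beq (q % 39) 0 then 1 else 0) (Nat.add (bif Nat.beq (q % 52) 0 then 1 else 0)
  (Nat.add (bif Nat.beq (q % 55) 0 then 1 else 0) (Nat.add (bif Nat.beq (q % 66) 0 then 1 else 0)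
  (Nat.add (bif Nat.beq (q % 70) 0 then 1 else 0) (bif Nat.beq (q % 77) 0 then 1 else 0)))))))))

/-- the value of `S` in explicit form -/
def Sx (q : ℕ) : ℕ :=
  q + (30030 * (q % 2) + (20020 * (q % 3) + (2145 * (q % 28) + (3080 * (q % 39) +
    (1155 * (q % 52) + (1092 * (q % 55) + (910 * (q % 66) + (858 * (q % 70) +
    780 * (q % 77)))))))))

/-- the check for one `q` -/
def chk (q : ℕ) : Bool :=
  bif Nat.ble (cnt q) 1 then true else
  bif Nat.beq q 6 then true else
  Nat.ble (60060 + 11 * km q * (q % 2)) (Sx q) &&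
  Nat.ble (60060 + 11 * km q * (q % 3)) (Sx q) &&
  Nat.ble (60060 + 11 * km q * (q % 28)) (Sx q) &&
  Nat.ble (60060 + 11 * km q * (q % 39)) (Sx q) &&
  Nat.ble (60060 + 11 * km q * (q % 52)) (Sx q) &&
  Nat.ble (60060 + 11 * km q * (q % 55)) (Sx q) &&
  Nat.ble (60060 + 11 * km q * (q % 66)) (Sx q) &&
  Nat.ble (60060 + 11 * km q * (q % 70)) (Sx q) &&
  Nat.ble (60060 + 11 * km q * (q % 77)) (Sx q)

/-- check of `f` on the interval `[lo, lo + 2 ^ n)` -/
def allB (f : ℕ → Bool) (n : ℕ) : ℕ → Bool :=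
  Nat.rec (fun lo => f lo) (fun m ih lo => ih lo && ih (Nat.add lo (Nat.pow 2 m))) n

theorem allB_spec (f : ℕ → Bool) (n : ℕ) : ∀ lo, allB f n lo = true →
    ∀ m, lo ≤ m → m < lo + 2 ^ n → f m = true := by
  induction n with
  | zero =>
    intro lo h m h1 h2
    have : m = lo := by simp at h2; omega
    subst this
    exact h
  | succ n ih =>
    intro lo h m h1 h2
    have h' : (allB f n lo && allB f n (Nat.add lo (Nat.pow 2 n))) = true := h
    rw [Bool.and_eq_true] at h'
    rcases lt_or_ge m (lo + 2 ^ n) with h3 | h3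
    · exact ih lo h'.1 m h1 h3
    · refine ih (lo + 2 ^ n) h'.2 m h3 ?_
      rw [pow_succ] at h2
      omega

theorem all1 : allB chk 16 1 = true := by decide +kernel

end Pool.Agent.FR.Chk
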