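import Mathlib

/-!
BLOCK U of project FR (MP_c0959a_ag), row FR-U2: a solution of `η ^ 2 + ξ ^ 3 + b = 0` in the
fraction field of a factorial ring gives a coprime solution of `Y ^ 2 + X ^ 3 + b * Z ^ 6 = 0`.
-/

set_option autoImplicit false

namespace Pool.Agent.FR.U

/-- a solution in the fraction field gives a coprime solution in the ring -/
theorem exists_coprime {R : Type*} [CommRing R] [IsDomain R] [UniqueFactorizationMonoid R]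
    {L : Type*} [Field L] [Algebra R L] [IsFractionRing R L] (b : R) (ξ η : L)
    (h : η ^ 2 + ξ ^ 3 + algebraMap R L b = 0) :
    ∃ X Y Z : R, Z ≠ 0 ∧ IsRelPrime Y Z ∧ Y ^ 2 + X ^ 3 + b * Z ^ 6 = 0 := by
  -- a first solution
  have h0 : ∃ Z : R, Z ≠ 0 ∧ ∃ X Y : R, Y ^ 2 + X ^ 3 + b * Z ^ 6 = 0 := by
    obtain ⟨p, r, q, hp, hr⟩ := IsLocalization.surj₂ (nonZeroDivisors R) L ξ η
    have hq : (q : R) ≠ 0 := nonZeroDivisors.ne_zero q.2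
    refine ⟨q, hq, p * q, r * q ^ 2, ?_⟩
    apply IsFractionRing.injective R L
    rw [map_zero]
    simp only [map_add, map_mul, map_pow]
    rw [← hp, ← hr]
    linear_combination (algebraMap R L q) ^ 6 * h
  obtain ⟨Z, ⟨hZ, X, Y, h1⟩, hmin⟩ := (wellFounded_dvdNotUnit (α := R)).has_min
    {Z : R | Z ≠ 0 ∧ ∃ X Y : R, Y ^ 2 + X ^ 3 + b * Z ^ 6 = 0} h0
  refine ⟨X, Y, Z, hZ, ?_, h1⟩
  refine WfDvdMonoid.isRelPrime_of_no_irreducible_factors (fun h => hZ h.2) fun p hp hY hZp => ?_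
  have hpr : Prime p := UniqueFactorizationMonoid.irreducible_iff_prime.1 hp
  have hp0 : p ≠ 0 := hpr.ne_zero
  obtain ⟨Y1, rfl⟩ := hY
  obtain ⟨Z1, rfl⟩ := hZp
  have hX : p ∣ X := by
    refine hpr.dvd_of_dvd_pow (n := 3) ⟨-(p * Y1 ^ 2 + b * p ^ 5 * Z1 ^ 6), ?_⟩
    linear_combination h1
  obtain ⟨X1, rfl⟩ := hX
  have h2 : Y1 ^ 2 + p * X1 ^ 3 + b * p ^ 4 * Z1 ^ 6 = 0 := by
    apply mul_left_cancel₀ (pow_ne_zero 2 hp0)
    linear_combination h1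
  have hY1 : p ∣ Y1 := by
    refine hpr.dvd_of_dvd_pow (n := 2) ⟨-(X1 ^ 3 + b * p ^ 3 * Z1 ^ 6), ?_⟩
    linear_combination h2
  obtain ⟨Y2, rfl⟩ := hY1
  have h3 : p * Y2 ^ 2 + X1 ^ 3 + b * p ^ 3 * Z1 ^ 6 = 0 := by
    apply mul_left_cancel₀ hp0
    linear_combination h2
  have hX1 : p ∣ X1 := by
    refine hpr.dvd_of_dvd_pow (n := 3) ⟨-(Y2 ^ 2 + b * p ^ 2 * Z1 ^ 6), ?_⟩
    linear_combination h3
  obtain ⟨X2, rfl⟩ := hX1
  have h4 : Y2 ^ 2 + p ^ 2 * X2 ^ 3 + b * p ^ 2 * Z1 ^ 6 = 0 := by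
    apply mul_left_cancel₀ hp0
    linear_combination h3
  have hY2 : p ∣ Y2 := by
    refine hpr.dvd_of_dvd_pow (n := 2) ⟨-(p * X2 ^ 3 + b * p * Z1 ^ 6), ?_⟩
    linear_combination h4
  obtain ⟨Y3, rfl⟩ := hY2
  have h5 : Y3 ^ 2 + X2 ^ 3 + b * Z1 ^ 6 = 0 := by
    apply mul_left_cancel₀ (pow_ne_zero 2 hp0)
    linear_combination h4
  have hZ1 : Z1 ≠ 0 := fun h => hZ (by rw [h, mul_zero])
  exact hmin Z1 ⟨hZ1, X2, Y3, h5⟩ ⟨hZ1, p, hpr.not_isUnit, mul_comm p Z1⟩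

end Pool.Agent.FR.U
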