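import Mathlib

/-!
Project FR (MP_c0959a_ag), V1: the number of monomials of weighted degree at most `j`.
-/

set_option autoImplicit false

namespace Pool.Agent.FR

open Filter Topology

/-- The number of monomials of weighted degree at most `j`. -/
noncomputable def cnt {r : ℕ} (w : Fin r → ℕ) (j : ℕ) : ℕ :=
  Set.ncard {γ : Fin r → ℕ | ∑ i, γ i * w i ≤ j}

theorem cnt_finite {r : ℕ} (w : Fin r → ℕ) (hw : ∀ i, 0 < w i) (j : ℕ) :
    {γ : Fin r → ℕ | ∑ i, γ i * w i ≤ j}.Finite := by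
  refine (Set.finite_Icc (0 : Fin r → ℕ) (fun _ => j)).subset ?_
  intro γ hγ
  refine ⟨fun i => Nat.zero_le _, fun i => ?_⟩
  have h1 : γ i * w i ≤ ∑ i, γ i * w i :=
    Finset.single_le_sum (f := fun i => γ i * w i) (fun _ _ => Nat.zero_le _) (Finset.mem_univ i)
  have h2 : γ i ≤ γ i * w i := Nat.le_mul_of_pos_right _ (hw i)
  exact h2.trans (h1.trans hγ)

theorem cnt_zero (w : Fin 0 → ℕ) (j : ℕ) : cnt w j = 1 := by
  unfold cnt
  have h : {γ : Fin 0 → ℕ | ∑ i, γ i * w i ≤ j} = {0} := by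
    ext γ
    constructor
    · intro _
      exact Subsingleton.elim _ _
    · intro _
      change ∑ i, γ i * w i ≤ j
      simp
  rw [h, Set.ncard_singleton]

/-- the monomials without the variable `X 0` -/
theorem cnt_head {r : ℕ} (w : Fin (r + 1) → ℕ) (j : ℕ) :
    Set.ncard {γ : Fin (r + 1) → ℕ | γ 0 = 0 ∧ ∑ i, γ i * w i ≤ j} =
      cnt (fun i => w i.succ) j := by
  unfold cnt
  have h : {γ : Fin (r + 1) → ℕ | γ 0 = 0 ∧ ∑ i, γ i * w i ≤ j} =
      (fun γ' : Fin r → ℕ => (Fin.cons 0 γ' : Fin (r + 1) → ℕ)) ''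
        {γ : Fin r → ℕ | ∑ i, γ i * w i.succ ≤ j} := by
    ext γ
    constructor
    · rintro ⟨h0, h1⟩
      refine ⟨fun i => γ i.succ, ?_, ?_⟩
      · rw [Fin.sum_univ_succ, h0, zero_mul, zero_add] at h1
        exact h1
      · change (Fin.cons 0 (fun i : Fin r => γ i.succ) : Fin (r + 1) → ℕ) = γ
        rw [← h0]
        exact Fin.cons_self_tail γ
    · rintro ⟨γ', h1, rfl⟩
      refine ⟨rfl, ?_⟩
      rw [Fin.sum_univ_succ]
      simpa using h1
  rw [h, Set.ncard_image_of_injective _ (Fin.cons_right_injective (α := fun _ => ℕ) 0)]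

theorem cnt_succ_lt {r : ℕ} (w : Fin (r + 1) → ℕ) (j : ℕ) (hj : j < w 0) :
    cnt w j = cnt (fun i => w i.succ) j := by
  rw [← cnt_head]
  unfold cnt
  congr 1
  ext γ
  constructor
  · intro h
    refine ⟨?_, h⟩
    by_contra h0
    have h1 : γ 0 * w 0 ≤ ∑ i, γ i * w i :=
      Finset.single_le_sum (f := fun i => γ i * w i) (fun _ _ => Nat.zero_le _)
        (Finset.mem_univ 0)
    have h2 : w 0 ≤ γ 0 * w 0 := Nat.le_mul_of_pos_left _ (Nat.pos_of_ne_zero h0)
    have h3 : ∑ i, γ i * w i ≤ j := h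
    omega
  · rintro ⟨-, h⟩
    exact h

/-- the first unit vector -/
def cntE (r : ℕ) : Fin (r + 1) → ℕ := Pi.single 0 1

theorem cntE_zero (r : ℕ) : cntE r 0 = 1 := Pi.single_eq_same _ _

theorem cntE_ne {r : ℕ} {i : Fin (r + 1)} (hi : i ≠ 0) : cntE r i = 0 := Pi.single_eq_of_ne hi _

theorem cnt_succ_le {r : ℕ} (w : Fin (r + 1) → ℕ) (hw : ∀ i, 0 < w i) (j : ℕ) (hj : w 0 ≤ j) :
    cnt w j = cnt (fun i => w i.succ) j + cnt w (j - w 0) := by
  rw [← cnt_head]
  have hsum : ∀ γ : Fin (r + 1) → ℕ, ∑ i, (γ + cntE r) i * w i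
      = (∑ i, γ i * w i) + w 0 := by
    intro γ
    rw [Fin.sum_univ_succ, Fin.sum_univ_succ]
    have h1 : ∀ i : Fin r, (γ + cntE r) i.succ = γ i.succ := by
      intro i
      rw [Pi.add_apply, cntE_ne (Fin.succ_ne_zero i), add_zero]
    have h2 : (γ + cntE r) 0 = γ 0 + 1 := by
      rw [Pi.add_apply, cntE_zero]
    rw [h2]
    simp only [h1]
    ring
  have h : {γ : Fin (r + 1) → ℕ | ∑ i, γ i * w i ≤ j} =
      {γ : Fin (r + 1) → ℕ | γ 0 = 0 ∧ ∑ i, γ i * w i ≤ j} ∪
      (fun γ : Fin (r + 1) → ℕ => γ + cntE r) ''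
        {γ : Fin (r + 1) → ℕ | ∑ i, γ i * w i ≤ j - w 0} := by
    ext γ
    constructor
    · intro h
      have h' : ∑ i, γ i * w i ≤ j := h
      rcases Nat.eq_zero_or_pos (γ 0) with h0 | h0
      · exact Or.inl ⟨h0, h⟩
      · right
        have e : γ - cntE r + cntE r = γ := by
          ext i
          rcases eq_or_ne i 0 with rfl | hi
          · rw [Pi.add_apply, Pi.sub_apply, cntE_zero]
            omega
          · rw [Pi.add_apply, Pi.sub_apply, cntE_ne hi]
            omega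
        refine ⟨γ - cntE r, ?_, e⟩
        have h3 := hsum (γ - cntE r)
        rw [e] at h3
        change ∑ i, (γ - cntE r) i * w i ≤ j - w 0
        omega
    · rintro (⟨-, h⟩ | ⟨γ', h, rfl⟩)
      · exact h
      · have h' : ∑ i, γ' i * w i ≤ j - w 0 := h
        change ∑ i, (γ' + cntE r) i * w i ≤ j
        rw [hsum]
        omega
  have hinj : Function.Injective (fun γ : Fin (r + 1) → ℕ => γ + cntE r) :=
    add_left_injective _
  change Set.ncard {γ : Fin (r + 1) → ℕ | ∑ i, γ i * w i ≤ j} = _ +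
    Set.ncard {γ : Fin (r + 1) → ℕ | ∑ i, γ i * w i ≤ j - w 0}
  have hdis : Disjoint {γ : Fin (r + 1) → ℕ | γ 0 = 0 ∧ ∑ i, γ i * w i ≤ j}
      ((fun γ : Fin (r + 1) → ℕ => γ + cntE r) ''
        {γ : Fin (r + 1) → ℕ | ∑ i, γ i * w i ≤ j - w 0}) := by
    rw [Set.disjoint_left]
    rintro γ ⟨h0, -⟩ ⟨γ', -, rfl⟩
    change (γ' + cntE r) 0 = 0 at h0
    rw [Pi.add_apply, cntE_zero] at h0
    omega
  rw [h, Set.ncard_union_eq hdis ((cnt_finite w hw j).subset fun γ hγ => hγ.2)
    ((cnt_finite w hw (j - w 0)).image _), Set.ncard_image_of_injective _ hinj]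

theorem cnt_pow_sub_le (r : ℕ) (a b : ℝ) (hb : 0 ≤ b) (hab : b ≤ a) :
    a ^ (r + 1) ≤ (r + 1) * (a - b) * a ^ r + b ^ (r + 1) := by
  have ha : 0 ≤ a := hb.trans hab
  induction r with
  | zero => simp
  | succ r ih =>
    have h1 : b ^ (r + 2) = b * b ^ (r + 1) := by ring
    have h2 : a ^ (r + 2) = a * a ^ (r + 1) := by ring
    push_cast
    rw [show r + 1 + 1 = r + 2 from rfl, h1, h2]
    have h3 : b ^ (r + 1) ≤ a ^ (r + 1) := pow_le_pow_left₀ hb hab _
    have h4 : b * a ^ (r + 1) ≤ b * ((r + 1) * (a - b) * a ^ r + b ^ (r + 1)) :=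
      mul_le_mul_of_nonneg_left ih hb
    have h5 : b * ((r + 1) * (a - b) * a ^ r) ≤ a * ((r + 1) * (a - b) * a ^ r) := by
      refine mul_le_mul_of_nonneg_right hab ?_
      have : 0 ≤ a - b := sub_nonneg.2 hab
      positivity
    have e : a * ((r + 1) * (a - b) * a ^ r) = (r + 1) * (a - b) * a ^ (r + 1) := by ring
    rw [e] at h5
    nlinarith

theorem cnt_add_pow_ge (r : ℕ) (b h : ℝ) (hb : 0 ≤ b) (hh : 0 ≤ h) :
    b ^ (r + 1) + (r + 1) * h * b ^ r ≤ (b + h) ^ (r + 1) := by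
  induction r with
  | zero => simp
  | succ r ih =>
    have h1 : (b + h) ^ (r + 2) = (b + h) * (b + h) ^ (r + 1) := by ring
    have h2 : (b + h) * (b ^ (r + 1) + (r + 1) * h * b ^ r) ≤ (b + h) * (b + h) ^ (r + 1) :=
      mul_le_mul_of_nonneg_left ih (by positivity)
    have h3 : 0 ≤ (r + 1) * h ^ 2 * b ^ r := by positivity
    push_cast
    rw [show r + 1 + 1 = r + 2 from rfl, h1]
    have e : (b + h) * (b ^ (r + 1) + (r + 1) * h * b ^ r)
        = b ^ (r + 2) + (r + 1 + 1) * h * b ^ (r + 1) + (r + 1) * h ^ 2 * b ^ r := by ring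
    rw [e] at h2
    linarith

/-- lower and upper bound -/
theorem cnt_bounds (r : ℕ) : ∀ (w : Fin r → ℕ) (_ : ∀ i, 0 < w i) (j : ℕ),
    (j : ℝ) ^ r ≤ (r.factorial * ∏ i, (w i : ℝ)) * cnt w j ∧
    (r.factorial * ∏ i, (w i : ℝ)) * cnt w j ≤ ((j : ℝ) + ∑ i, (w i : ℝ)) ^ r := by
  induction r with
  | zero =>
    intro w _ j
    rw [cnt_zero]
    simp
  | succ r ih =>
    intro w hw j
    set w' : Fin r → ℕ := fun i => w i.succ with hw'
    set C : ℝ := r.factorial * ∏ i, (w' i : ℝ) with hC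
    set S : ℝ := ∑ i, (w' i : ℝ) with hS
    have hC0 : 0 < C := by
      have : ∀ i, (0 : ℝ) < w' i := fun i => by exact_mod_cast hw i.succ
      have h2 : 0 < ∏ i, (w' i : ℝ) := Finset.prod_pos fun i _ => this i
      positivity
    have hS0 : 0 ≤ S := Finset.sum_nonneg fun i _ => Nat.cast_nonneg _
    have hw0 : (0 : ℝ) < w 0 := by exact_mod_cast hw 0
    have eC : ((r + 1).factorial : ℝ) * ∏ i, (w i : ℝ) = (r + 1) * w 0 * C := by
      rw [Fin.prod_univ_succ, Nat.factorial_succ, hC]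
      push_cast
      ring
    have eS : ∑ i, (w i : ℝ) = w 0 + S := by
      rw [Fin.sum_univ_succ]
    rw [eC, eS]
    have ih' := ih w' (fun i => hw i.succ)
    induction j using Nat.strong_induction_on with
    | _ j IH =>
      obtain ⟨h1, h2⟩ := ih' j
      have hj0 : (0 : ℝ) ≤ j := Nat.cast_nonneg j
      have hr0 : (0 : ℝ) ≤ r := Nat.cast_nonneg r
      rcases Nat.lt_or_ge j (w 0) with hj | hj
      · have e : cnt w j = cnt w' j := cnt_succ_lt w j hj
        rw [e]
        have hj' : (j : ℝ) ≤ w 0 := by exact_mod_cast hj.le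
        constructor
        · calc (j : ℝ) ^ (r + 1) = j * (j : ℝ) ^ r := by ring
            _ ≤ ((r + 1) * w 0) * (j : ℝ) ^ r := by
              refine mul_le_mul_of_nonneg_right ?_ (by positivity)
              nlinarith
            _ ≤ ((r + 1) * w 0) * (C * cnt w' j) :=
              mul_le_mul_of_nonneg_left h1 (by positivity)
            _ = _ := by ring
        · have h3 := cnt_add_pow_ge r (j + S) (w 0) (by positivity) hw0.le
          have h4 : 0 ≤ ((j : ℝ) + S) ^ (r + 1) := by positivity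
          have h5 : ((r + 1) * w 0) * (C * cnt w' j) ≤ ((r + 1) * w 0) * ((j : ℝ) + S) ^ r :=
            mul_le_mul_of_nonneg_left h2 (by positivity)
          have e2 : (j : ℝ) + (w 0 + S) = j + S + w 0 := by ring
          rw [e2]
          nlinarith
      · have e : cnt w j = cnt w' j + cnt w (j - w 0) := cnt_succ_le w hw j hj
        obtain ⟨h3, h4⟩ := IH (j - w 0) (by have := hw 0; omega)
        have ec : ((j - w 0 : ℕ) : ℝ) = (j : ℝ) - w 0 := by
          rw [Nat.cast_sub hj]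
        rw [ec] at h3 h4
        have hj' : (w 0 : ℝ) ≤ j := by exact_mod_cast hj
        rw [e]
        push_cast
        constructor
        · have h5 := cnt_pow_sub_le r j ((j : ℝ) - w 0) (by linarith) (by linarith)
          have h6 : ((r + 1) * w 0) * (j : ℝ) ^ r ≤ ((r + 1) * w 0) * (C * cnt w' j) :=
            mul_le_mul_of_nonneg_left h1 (by positivity)
          have e3 : (j : ℝ) - (j - w 0) = w 0 := by ring
          rw [e3] at h5
          nlinarith
        · have h5 := cnt_add_pow_ge r (j + S) (w 0) (by positivity) hw0.le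
          have h6 : ((r + 1) * w 0) * (C * cnt w' j) ≤ ((r + 1) * w 0) * ((j : ℝ) + S) ^ r :=
            mul_le_mul_of_nonneg_left h2 (by positivity)
          have e2 : (j : ℝ) + (w 0 + S) = j + S + w 0 := by ring
          have e4 : (j : ℝ) - w 0 + (w 0 + S) = j + S := by ring
          rw [e2]
          rw [e4] at h4
          nlinarith

theorem tendsto_cnt {r : ℕ} (w : Fin r → ℕ) (hw : ∀ i, 0 < w i) :
    Filter.Tendsto (fun j : ℕ => (cnt w j : ℝ) / (j : ℝ) ^ r) Filter.atTop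
      (nhds (1 / (r.factorial * ∏ i, (w i : ℝ)))) := by
  set C : ℝ := r.factorial * ∏ i, (w i : ℝ) with hC
  set S : ℝ := ∑ i, (w i : ℝ) with hS
  have hC0 : 0 < C := by
    have : ∀ i, (0 : ℝ) < w i := fun i => by exact_mod_cast hw i
    have h2 : 0 < ∏ i, (w i : ℝ) := Finset.prod_pos fun i _ => this i
    positivity
  have hup : Filter.Tendsto (fun j : ℕ => (1 + S / (j : ℝ)) ^ r / C) Filter.atTop
      (nhds (1 / C)) := by
    have h1 : Filter.Tendsto (fun j : ℕ => S / (j : ℝ)) Filter.atTop (nhds 0) :=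
      tendsto_const_div_atTop_nhds_zero_nat S
    have h2 := ((h1.const_add 1).pow r).div_const C
    simpa using h2
  refine tendsto_of_tendsto_of_tendsto_of_le_of_le' tendsto_const_nhds hup ?_ ?_
  · filter_upwards [Filter.eventually_gt_atTop 0] with j hj
    have hj0 : (0 : ℝ) < (j : ℝ) ^ r := by positivity
    have h := (cnt_bounds r w hw j).1
    rw [div_le_div_iff₀ hC0 hj0]
    linarith
  · filter_upwards [Filter.eventually_gt_atTop 0] with j hj
    have hj0 : (0 : ℝ) < (j : ℝ) := by positivity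
    have hj1 : (0 : ℝ) < (j : ℝ) ^ r := by positivity
    have h := (cnt_bounds r w hw j).2
    have e : (1 + S / (j : ℝ)) ^ r * (j : ℝ) ^ r = ((j : ℝ) + S) ^ r := by
      rw [← mul_pow]
      congr 1
      field_simp
    rw [div_le_div_iff₀ hj1 hC0, e]
    linarith

end Pool.Agent.FR
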