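import Mathlib

/-!
# Projective varieties over `ℂ` through their function fields

All varieties are projective over `ℂ`.  A variety is given by its function field `K` and by a
finite family `g` of elements of `K`: it is the closure of the image of the rational map `[g 0 : ... : g N]`.
Its points are the centres of the valuation rings of `K` (which contain `ℂ`).
-/

set_option autoImplicit false

namespace Pool.Agent.FR

open scoped Classical

variable {K : Type} [Field K] [Algebra ℂ K]

/-- A place of `K`: a valuation ring of `K` which contains `ℂ`. -/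
def IsPlace (V : ValuationSubring K) : Prop := ∀ c : ℂ, algebraMap ℂ K c ∈ V

variable (K) in
/-- A divisorial valuation of `K` (a prime divisor over a variety with function field `K`): a
normalised discrete valuation of `K`, trivial on `ℂ`, whose ring is a localisation of a finitely
generated `ℂ`-algebra. -/
@[ext (iff := false)] structure DVal where
  v : K → ℤ
  zero : v 0 = 0
  mul : ∀ x y : K, x ≠ 0 → y ≠ 0 → v (x * y) = v x + v y
  add : ∀ x y : K, x ≠ 0 → y ≠ 0 → x + y ≠ 0 → min (v x) (v y) ≤ v (x + y)
  const : ∀ c : ℂ, c ≠ 0 → v (algebraMap ℂ K c) = 0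
  unif : ∃ x : K, x ≠ 0 ∧ v x = 1
  fin : ∃ s : Finset K,
    (∀ x ∈ Algebra.adjoin ℂ (s : Set K), x ≠ 0 → 0 ≤ v x) ∧
    ∀ x : K, x ≠ 0 → 0 ≤ v x → ∃ a ∈ Algebra.adjoin ℂ (s : Set K),
      ∃ b ∈ Algebra.adjoin ℂ (s : Set K), b ≠ 0 ∧ v b = 0 ∧ x = a / b

theorem DVal.one (D : DVal K) : D.v 1 = 0 := by
  have h := D.const 1 one_ne_zero
  rwa [map_one] at h

theorem DVal.inv (D : DVal K) {x : K} (hx : x ≠ 0) : D.v x⁻¹ = - D.v x := by
  have h := D.mul x x⁻¹ hx (inv_ne_zero hx)
  rw [mul_inv_cancel₀ hx, D.one] at h
  omega

theorem DVal.negOne (D : DVal K) : D.v (-1) = 0 := by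
  have h := D.const (-1) (by norm_num)
  rwa [map_neg, map_one] at h

/-- The valuation ring of a divisorial valuation. -/
def DVal.ring (D : DVal K) : ValuationSubring K where
  carrier := {x | x = 0 ∨ 0 ≤ D.v x}
  mul_mem' := by
    rintro x y (rfl | hx) (rfl | hy)
    · left; simp
    · left; simp
    · left; simp
    · by_cases h1 : x = 0
      · left; simp [h1]
      by_cases h2 : y = 0
      · left; simp [h2]
      right
      rw [D.mul x y h1 h2]; omega
  one_mem' := Or.inr (by rw [D.one])
  add_mem' := by
    rintro x y hx hy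
    by_cases h1 : x = 0
    · subst h1; simpa using hy
    by_cases h2 : y = 0
    · subst h2; simpa using hx
    by_cases h3 : x + y = 0
    · exact Or.inl h3
    have hx' : 0 ≤ D.v x := hx.resolve_left h1
    have hy' : 0 ≤ D.v y := hy.resolve_left h2
    exact Or.inr (le_trans (le_min hx' hy') (D.add x y h1 h2 h3))
  zero_mem' := Or.inl rfl
  neg_mem' := by
    rintro x (rfl | hx)
    · left; simp
    · by_cases h1 : x = 0
      · left; simp [h1]
      right
      rw [← neg_one_mul x, D.mul (-1) x (by norm_num) h1, D.negOne]; omega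
  mem_or_inv_mem' := by
    intro x
    by_cases h1 : x = 0
    · left; left; exact h1
    rcases le_total 0 (D.v x) with h | h
    · left; right; exact h
    · right; right; rw [D.inv h1]; omega

/-- The local ring, at the centre of the place `V`, of the projective variety defined by the
family `g`: choose `i` such that all `g j / g i` lie in `V` and localise `ℂ[g j / g i : j]` at the
elements which are units of `V`. -/
def locRing {N : ℕ} (g : Fin (N + 1) → K) (V : ValuationSubring K) : Set K :=
  {x | ∃ i, (∀ j, g j / g i ∈ V) ∧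
    ∃ a ∈ Algebra.adjoin ℂ (Set.range fun j => g j / g i),
    ∃ b ∈ Algebra.adjoin ℂ (Set.range fun j => g j / g i), b ≠ 0 ∧ b⁻¹ ∈ V ∧ x = a / b}

/-- A normal projective variety with function field `L` (a subfield of `K`): a family `g` of
elements of `L` whose ratios generate `L`, all of whose local rings are integrally closed in `L`. -/
structure Model (L : IntermediateField ℂ K) where
  N : ℕ
  g : Fin (N + 1) → K
  ne : ∀ i, g i ≠ 0
  mem : ∀ i, g i ∈ L
  frac : ∀ x ∈ L, ∃ a ∈ Algebra.adjoin ℂ (Set.range fun j => g j / g 0),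
    ∃ b ∈ Algebra.adjoin ℂ (Set.range fun j => g j / g 0), b ≠ 0 ∧ x = a / b
  normal : ∀ V : ValuationSubring K, IsPlace V → ∀ x ∈ L,
    (∃ p : Polynomial K, p.Monic ∧ (∀ i, p.coeff i ∈ locRing g V) ∧ p.eval x = 0) →
      x ∈ locRing g V

/-- `D` is a prime divisor on `X`: its valuation ring is a local ring of `X`. -/
def IsPrimeDiv (X : Model (⊤ : IntermediateField ℂ K)) (D : DVal K) : Prop :=
  (D.ring : Set K) = locRing X.g D.ring

/-- `D` is a prime divisor on `X` which passes through the centre of the place `V`. -/
def Through (X : Model (⊤ : IntermediateField ℂ K)) (V : ValuationSubring K) (D : DVal K) : Prop :=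
  IsPrimeDiv X D ∧ locRing X.g V ⊆ D.ring

/-- `(N, f)` is a local equation, at the centre of the place `V`, of the Weil divisor with
coefficients `c`: near that point `N` times the divisor is the divisor of the function `f`. -/
def IsLocEq (X : Model (⊤ : IntermediateField ℂ K)) (c : DVal K → ℤ) (V : ValuationSubring K)
    (N : ℕ) (f : K) : Prop :=
  0 < N ∧ f ≠ 0 ∧ ∀ D, Through X V D → D.v f = N * c D

/-- The Weil divisor with coefficients `c` is `ℚ`-Cartier. -/
def QCartier (X : Model (⊤ : IntermediateField ℂ K)) (c : DVal K → ℤ) : Prop :=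
  ∀ V : ValuationSubring K, IsPlace V → ∃ N f, IsLocEq X c V N f

/-- `X` is `ℚ`-factorial: every prime divisor is `ℚ`-Cartier. -/
def QFactorial (X : Model (⊤ : IntermediateField ℂ K)) : Prop :=
  ∀ D₀, IsPrimeDiv X D₀ → QCartier X (fun D => if D = D₀ then 1 else 0)

/-- The Weil divisor with coefficients `c` is ample: for some `m > 0` there are finitely many
sections `s i` of `O(m c)` which generate `O(m c)` at every point and define the variety `X`
itself (so that `m c` is very ample). -/
def IsAmple (X : Model (⊤ : IntermediateField ℂ K)) (c : DVal K → ℤ) : Prop :=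
  ∃ (m : ℕ) (N : ℕ) (s : Fin (N + 1) → K), 0 < m ∧ (∀ i, s i ≠ 0) ∧
    (∀ i D, IsPrimeDiv X D → -(m * c D) ≤ D.v (s i)) ∧
    ∀ V : ValuationSubring K, IsPlace V → ∃ i, (∀ j, s j / s i ∈ V) ∧
      (∀ D, Through X V D → D.v (s i) = -(m * c D)) ∧
      locRing X.g V = {x | ∃ a ∈ Algebra.adjoin ℂ (Set.range fun j => s j / s i),
        ∃ b ∈ Algebra.adjoin ℂ (Set.range fun j => s j / s i), b ≠ 0 ∧ b⁻¹ ∈ V ∧ x = a / b}

section canonical

variable {n : ℕ} (B : Module.Basis (Fin n) K (Derivation ℂ K K))

/-- The Jacobian determinant of `u 0, ..., u (n - 1)` with respect to a `K`-basis `B` of the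
derivations of `K`: `du 0 ∧ ... ∧ du (n - 1) = jac B u • ω`, where `ω` is the rational `n`-form
dual to `B`. -/
noncomputable def jac (u : Fin n → K) : K := Matrix.det (Matrix.of fun i j => B i (u j))

/-- The order of the rational `n`-form `ω` dual to `B` along `D`: the module of `n`-forms of the
ring of `D` is generated by the forms `du 0 ∧ ... ∧ du (n - 1) = jac B u • ω` with all `u j` in the
ring of `D`.  On a variety `X` the function `kord B` is a canonical divisor. -/
noncomputable def kord (D : DVal K) : ℤ :=
  - sInf {z | ∃ u : Fin n → K, (∀ j, u j ∈ D.ring) ∧ jac B u ≠ 0 ∧ z = D.v (jac B u)}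

/-- `a` is the log discrepancy `A_X(D)`: if `(N, f)` is a local equation of the canonical divisor
at the centre of `D` on `X`, then `A_X(D) = 1 + ord_D ω - ord_D f / N`. -/
def IsLogDisc (X : Model (⊤ : IntermediateField ℂ K)) (D : DVal K) (a : ℝ) : Prop :=
  ∃ N f, IsLocEq X (kord B) D.ring N f ∧ a = 1 + kord B D - (D.v f : ℝ) / N

/-- `X` has terminal singularities: the canonical divisor is `ℚ`-Cartier and `A_X(D) > 1` for
every divisorial valuation `D` which is not a prime divisor on `X`. -/
def IsTerminal (X : Model (⊤ : IntermediateField ℂ K)) : Prop :=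
  QCartier X (kord B) ∧ ∀ D a, ¬ IsPrimeDiv X D → IsLogDisc B X D a → 1 < a

/-- `X` is a Fano variety with `ℚ`-factorial terminal singularities. -/
def IsFano (X : Model (⊤ : IntermediateField ℂ K)) : Prop :=
  QFactorial X ∧ IsTerminal B X ∧ IsAmple X (fun D => - kord B D)

/-- `X` has Picard number one (in the strongest sense): every prime divisor is `ℚ`-linearly
equivalent to a rational multiple of the canonical divisor. -/
def PicardOne (X : Model (⊤ : IntermediateField ℂ K)) : Prop :=
  ∀ D₀, IsPrimeDiv X D₀ → ∃ (N : ℕ) (c : ℤ) (f : K), 0 < N ∧ f ≠ 0 ∧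
    ∀ D, IsPrimeDiv X D → (N : ℤ) * (if D = D₀ then 1 else 0) + c * kord B D = D.v f

/-- The pull-back to prime divisors over `K` of the hyperplane divisor of the variety `S`. -/
noncomputable def hyp {L : IntermediateField ℂ K} (S : Model L) (D : DVal K) : ℤ :=
  - Finset.univ.inf' Finset.univ_nonempty fun j => D.v (S.g j)

/-- `Y → S` is a Mori fibre space, in a weak sense: `Y` has terminal singularities; the function
field `L` of `S` is algebraically closed in `K` (the fibres are connected) and different from `K`
(together: `dim S < dim Y`); the rational map from `Y` to `S` is a morphism; and `-K_Y` is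
relatively ample (`-a K_Y + b φ^*H` is ample for some `a > 0`, `b ≥ 0`, where `H` is the hyperplane
divisor of `S`).  In particular every Mori fibre space is one in this sense: we do not ask that `Y`
is `ℚ`-factorial or that the relative Picard number is one. -/
structure IsMoriFibreSpace (Y : Model (⊤ : IntermediateField ℂ K)) (L : IntermediateField ℂ K)
    (S : Model L) : Prop where
  terminal : IsTerminal B Y
  connected : ∀ x : K, IsAlgebraic L x → x ∈ L
  dim : L ≠ ⊤
  morphism : ∀ V : ValuationSubring K, IsPlace V → locRing S.g V ⊆ locRing Y.g V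
  ample : ∃ a b : ℕ, 0 < a ∧ IsAmple Y (fun D => -(a * kord B D) + b * hyp S D)

/-- `X` and `Y` are isomorphic: some automorphism of the function field `K` (that is, some
birational map) carries the local rings of `X` to those of `Y`. -/
def Isom (X Y : Model (⊤ : IntermediateField ℂ K)) : Prop :=
  ∃ σ : K ≃ₐ[ℂ] K, ∀ V : ValuationSubring K, IsPlace V →
    locRing Y.g (V.comap (σ.symm : K →+* K)) = σ '' locRing X.g V

/-- `X` is a birationally rigid Fano variety of Picard number one: for every Mori fibre space
`Y → S` (even in the weak sense above) birational to `X`, that is, with function field `K`, the base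
`S` is a point and `Y` is isomorphic to `X`. -/
def IsBirRigid (X : Model (⊤ : IntermediateField ℂ K)) : Prop :=
  IsFano B X ∧ PicardOne B X ∧
    ∀ (Y : Model (⊤ : IntermediateField ℂ K)) (L : IntermediateField ℂ K) (S : Model L),
      IsMoriFibreSpace B Y L S → L = ⊥ ∧ Isom X Y

/-- The space of sections of `-m K_X` which vanish to order at least `m t` along `D`, where
`a = A_X(D)`. -/
noncomputable def sections (X : Model (⊤ : IntermediateField ℂ K)) (D : DVal K) (a : ℝ) (m : ℕ)
    (t : ℝ) : Submodule ℂ K :=
  Submodule.span ℂ {h | h ≠ 0 ∧ (∀ D', IsPrimeDiv X D' → (m : ℤ) * kord B D' ≤ D'.v h) ∧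
    (m : ℝ) * t ≤ D.v h - m * (kord B D + 1 - a)}

/-- The volume of `-K_X - t D`. -/
noncomputable def vol (X : Model (⊤ : IntermediateField ℂ K)) (D : DVal K) (a : ℝ) (t : ℝ) : ℝ :=
  Filter.limsup (fun m : ℕ => (n.factorial : ℝ) * (Module.finrank ℂ (sections B X D a m t) : ℝ) /
    (m : ℝ) ^ n) Filter.atTop

/-- The invariant `β_X(D)` of Fujita and Li, where `a = A_X(D)`. -/
noncomputable def beta (X : Model (⊤ : IntermediateField ℂ K)) (D : DVal K) (a : ℝ) : ℝ :=
  a - (∫ t in Set.Ioi (0 : ℝ), vol B X D a t) / vol B X D a 0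

/-- `X` is K-stable (valuative criterion of Fujita and Li). -/
def IsKStable (X : Model (⊤ : IntermediateField ℂ K)) : Prop :=
  ∀ D a, IsLogDisc B X D a → 0 < beta B X D a

end canonical

end Pool.Agent.FR
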