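import Pool.Agent.FR.Omega

/-!
# Dual derivations
-/

set_option autoImplicit false

namespace Pool.Agent.FR

open MvPolynomial

variable {s : ℕ} {k a : Fin (s + 3) → ℕ} {d : ℕ} {K : Type} [Field K] [Algebra ℂ K]

theorem der_sum_apply {ι : Type*} (t : Finset ι) (f : ι → Derivation ℂ K K) (x : K) :
    (∑ i ∈ t, f i) x = ∑ i ∈ t, f i x := by
  have h := congrFun (map_sum (Derivation.coeFnAddMonoidHom (R := ℂ) (A := K) (M := K)) f t) x
  rw [Finset.sum_apply] at h
  exact h

/-- The derivations dual to the variables other than `X j`. -/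
theorem FD.exists_dual (hw : Wt s k a d) (F : FD s k K) (j : Fin (s + 3)) :
    ∃ dd : Fin (s + 2) → Derivation ℂ K K,
      ∀ l m, dd l (F.X (j.succAbove m)) = if l = m then 1 else 0 := by
  have h : ∀ l : Fin (s + 2), ∃ D : Derivation ℂ K K,
      ∀ m, D (F.X (j.succAbove m)) = if l = m then 1 else 0 := by
    intro l
    obtain ⟨D, hD⟩ := F.exists_der (Fin.insertNth j
      (-((k (j.succAbove l) : K) * F.X (j.succAbove l) ^ (k (j.succAbove l) - 1)) /
        ((k j : K) * F.X j ^ (k j - 1))) (fun m => if l = m then (1 : K) else 0)) (by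
        rw [Fin.sum_univ_succAbove _ j, Fin.insertNth_apply_same]
        simp only [Fin.insertNth_apply_succAbove]
        rw [mul_div_cancel₀ _ (F.kX_ne hw j)]
        simp)
    refine ⟨D, fun m => ?_⟩
    rw [hD, Fin.insertNth_apply_succAbove]
  choose dd hdd using h
  exact ⟨dd, hdd⟩

/-- A derivation in terms of the dual ones. -/
theorem FD.eq_sum_dual (hw : Wt s k a d) (F : FD s k K) (j : Fin (s + 3))
    (dd : Fin (s + 2) → Derivation ℂ K K)
    (hdd : ∀ l m, dd l (F.X (j.succAbove m)) = if l = m then 1 else 0)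
    (D : Derivation ℂ K K) (x : K) : D x = ∑ l, D (F.X (j.succAbove l)) * dd l x := by
  have h1 : ∀ D₁ D₂ : Derivation ℂ K K,
      (∀ m, D₁ (F.X (j.succAbove m)) = D₂ (F.X (j.succAbove m))) → D₁ = D₂ := by
    intro D₁ D₂ h
    apply F.der_ext
    intro i
    rcases Fin.eq_self_or_eq_succAbove j i with rfl | ⟨m, rfl⟩
    · have h2 := F.der_rel D₁
      have h3 := F.der_rel D₂
      rw [Fin.sum_univ_succAbove _ i] at h2 h3
      simp only [h] at h2
      have h4 : (k i : K) * F.X i ^ (k i - 1) * D₁ (F.X i) =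
          (k i : K) * F.X i ^ (k i - 1) * D₂ (F.X i) := by linear_combination h2 - h3
      exact mul_left_cancel₀ (F.kX_ne hw i) h4
    · exact h m
  have h2 : D = ∑ l, D (F.X (j.succAbove l)) • dd l := by
    apply h1
    intro m
    rw [der_sum_apply]
    simp only [Derivation.smul_apply, hdd, smul_eq_mul, mul_ite, mul_one, mul_zero]
    rw [Finset.sum_ite_eq' Finset.univ m]
    simp
  have h3 := congrArg (fun D' : Derivation ℂ K K => D' x) h2
  rw [der_sum_apply] at h3
  exact h3

/-- The Jacobian determinant in terms of the dual derivations, for an arbitrary basis. -/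
theorem FD.jac_eq (hw : Wt s k a d) (F : FD s k K)
    (B : Module.Basis (Fin (s + 2)) K (Derivation ℂ K K)) (j : Fin (s + 3))
    (dd : Fin (s + 2) → Derivation ℂ K K)
    (hdd : ∀ l m, dd l (F.X (j.succAbove m)) = if l = m then 1 else 0)
    (u : Fin (s + 2) → K) : jac B u =
      jac B (fun m => F.X (j.succAbove m)) * (Matrix.of fun l m => dd l (u m)).det := by
  unfold jac
  rw [← Matrix.det_mul]
  congr 1
  ext i m
  rw [Matrix.mul_apply, Matrix.of_apply]
  exact F.eq_sum_dual hw j dd hdd (B i) (u m)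

/-- Replacing one variable by `h` multiplies the Jacobian determinant by `dd l h`. -/
theorem FD.jac_update (hw : Wt s k a d) (F : FD s k K)
    (B : Module.Basis (Fin (s + 2)) K (Derivation ℂ K K)) (j : Fin (s + 3))
    (dd : Fin (s + 2) → Derivation ℂ K K)
    (hdd : ∀ l m, dd l (F.X (j.succAbove m)) = if l = m then 1 else 0)
    (l : Fin (s + 2)) (h : K) :
    jac B (Function.update (fun m => F.X (j.succAbove m)) l h) =
      dd l h * jac B (fun m => F.X (j.succAbove m)) := by
  rw [F.jac_eq hw B j dd hdd, mul_comm]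
  congr 1
  have h1 : (Matrix.of fun i m => dd i (Function.update (fun m => F.X (j.succAbove m)) l h m)) =
      (1 : Matrix (Fin (s + 2)) (Fin (s + 2)) K).updateCol l (fun i => dd i h) := by
    ext i m
    rw [Matrix.of_apply, Matrix.updateCol_apply]
    by_cases hm : m = l
    · rw [if_pos hm, hm, Function.update_self]
    · rw [if_neg hm, Function.update_of_ne hm, hdd, Matrix.one_apply]
  rw [h1, ← Matrix.cramer_apply, Matrix.cramer_one]
  rfl

/-- The Jacobian determinant in terms of the dual derivations. -/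
theorem FD.jac_dual (hw : Wt s k a d) (F : FD s k K)
    {B : Module.Basis (Fin (s + 2)) K (Derivation ℂ K K)} (hB : IsOmega F B) (j : Fin (s + 3))
    (dd : Fin (s + 2) → Derivation ℂ K K)
    (hdd : ∀ l m, dd l (F.X (j.succAbove m)) = if l = m then 1 else 0) :
    ∃ c : ℂ, c ≠ 0 ∧ ∀ u : Fin (s + 2) → K, jac B u =
      algebraMap ℂ K c * F.X j ^ (k j - 1) * (Matrix.of fun l m => dd l (u m)).det := by
  obtain ⟨c, hc, hj⟩ := hB j
  refine ⟨c, hc, fun u => ?_⟩
  rw [← hj]
  unfold jac
  rw [← Matrix.det_mul]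
  congr 1
  ext i m
  rw [Matrix.mul_apply, Matrix.of_apply]
  exact F.eq_sum_dual hw j dd hdd (B i) (u m)

end Pool.Agent.FR
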