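import Mathlib
import Pool.Agent.FR.Val

/-!
# FR-K2: chain rule, algebraic independence from derivations
-/

set_option autoImplicit false

namespace Pool.Agent.FR

open MvPolynomial
open scoped Classical

variable {K : Type} [Field K] [Algebra ℂ K]

/-- Chain rule. -/
theorem der_aeval {m : ℕ} (u : Fin m → K) (δ : Derivation ℂ K K) (P : MvPolynomial (Fin m) ℂ) :
    δ (aeval u P) = ∑ j, aeval u (pderiv j P) * δ (u j) := by
  induction P using MvPolynomial.induction_on with
  | C a => simp
  | add p q hp hq =>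
    simp only [map_add, hp, hq, add_mul, Finset.sum_add_distrib]
  | mul_X p i hp =>
    have h1 : ∀ j, aeval u (pderiv j (p * X i)) * δ (u j) =
        aeval u p * (if j = i then δ (u j) else 0) + u i * (aeval u (pderiv j p) * δ (u j)) := by
      intro j
      rw [pderiv_mul, map_add, map_mul, map_mul, aeval_X]
      by_cases hji : j = i
      · subst hji
        rw [pderiv_X_self, map_one, if_pos rfl]
        ring
      · rw [pderiv_X_of_ne (Ne.symm hji), map_zero, if_neg hji]
        ring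
    rw [Finset.sum_congr rfl fun j _ => h1 j, Finset.sum_add_distrib, ← Finset.mul_sum,
      ← Finset.mul_sum, Finset.sum_ite_eq' Finset.univ i, if_pos (Finset.mem_univ i), map_mul,
      aeval_X, (δ).leibniz, hp, smul_eq_mul, smul_eq_mul]

/-- Values of polynomials in elements of the ring of `D` lie in the ring of `D`. -/
theorem aeval_mem_ring (D : DVal K) {m : ℕ} (u : Fin m → K) (hu : ∀ j, 0 ≤ D.v (u j))
    (P : MvPolynomial (Fin m) ℂ) : aeval u P ∈ D.ring := by
  induction P using MvPolynomial.induction_on with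
  | C c => rw [aeval_C]; exact D.isPlace c
  | add p q hp hq => rw [map_add]; exact add_mem hp hq
  | mul_X p i hp => rw [map_mul, aeval_X]; exact mul_mem hp (D.mem_ring'.2 (hu i))

/-- A nonzero polynomial has a maximal monomial. -/
theorem exists_max_mon {m : ℕ} (P : MvPolynomial (Fin m) ℂ) (hP : P ≠ 0) :
    ∃ γ ∈ P.support, ∀ γ' ∈ P.support, γ ≤ γ' → γ' = γ := by
  obtain ⟨γ, hγ⟩ := P.support.exists_maximal (MvPolynomial.support_nonempty.2 hP)
  exact ⟨γ, hγ.1, fun γ' h h' => le_antisymm (hγ.2 h h') h'⟩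

/-- The derivative of a polynomial at a maximal monomial. -/
theorem max_mon_pderiv {m : ℕ} {P : MvPolynomial (Fin m) ℂ} {γ : Fin m →₀ ℕ}
    (hγ : γ ∈ P.support) (hmax : ∀ γ' ∈ P.support, γ ≤ γ' → γ' = γ) {l : Fin m} (hl : γ l ≠ 0) :
    γ - Finsupp.single l 1 ∈ (pderiv l P).support ∧
      ∀ γ' ∈ (pderiv l P).support, γ - Finsupp.single l 1 ≤ γ' → γ' = γ - Finsupp.single l 1 := by
  have h1 : γ - Finsupp.single l 1 + Finsupp.single l 1 = γ :=
    tsub_add_cancel_of_le (by
      rw [Finsupp.single_le_iff]; omega)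
  refine ⟨?_, fun γ' hγ' hle => ?_⟩
  · rw [mem_support_iff, coeff_pderiv, h1]
    rw [mem_support_iff] at hγ
    refine mul_ne_zero hγ ?_
    exact Nat.cast_add_one_ne_zero _
  · rw [mem_support_iff, coeff_pderiv] at hγ'
    have h2 : γ' + Finsupp.single l 1 ∈ P.support := by
      rw [mem_support_iff]
      exact left_ne_zero_of_mul hγ'
    have h3 := hmax _ h2 (by
      rw [← h1]
      exact add_le_add_left hle _)
    rw [← h3, add_tsub_cancel_right]

theorem sum_sub_single {m : ℕ} {γ : Fin m →₀ ℕ} {l : Fin m} (hl : γ l ≠ 0) :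
    (∑ j, (γ - Finsupp.single l 1 : Fin m →₀ ℕ) j) + 1 = ∑ j, γ j := by
  have h1 : γ - Finsupp.single l 1 + Finsupp.single l 1 = γ :=
    tsub_add_cancel_of_le (by rw [Finsupp.single_le_iff]; omega)
  conv_rhs => rw [← h1]
  simp only [Finsupp.add_apply, Finset.sum_add_distrib]
  congr 1
  simp [Finsupp.single_apply]

/-- A polynomial with maximal monomial `1` is constant. -/
theorem eq_C_of_max_zero {m : ℕ} {P : MvPolynomial (Fin m) ℂ} {γ : Fin m →₀ ℕ}
    (hγ : γ ∈ P.support) (hmax : ∀ γ' ∈ P.support, γ ≤ γ' → γ' = γ) (h0 : ∀ l, γ l = 0) :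
    ∃ c : ℂ, c ≠ 0 ∧ P = C c := by
  have h1 : γ = 0 := Finsupp.ext h0
  subst h1
  refine ⟨coeff 0 P, mem_support_iff.1 hγ, ?_⟩
  ext γ'
  rw [coeff_C]
  by_cases h : 0 = γ'
  · rw [if_pos h, ← h]
  · rw [if_neg h]
    by_contra hne
    exact h (hmax γ' (mem_support_iff.2 hne) zero_le).symm

/-- Functions on which suitable derivations act as coordinate derivations, up to units, are
algebraically independent modulo the maximal ideal. -/
theorem indep_of_stable (D : DVal K) {m : ℕ} (u : Fin m → K) (hu : ∀ j, 0 ≤ D.v (u j))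
    (δ : Fin m → Derivation ℂ K K)
    (hst : ∀ l x, (x = 0 ∨ 0 < D.v x) → (δ l x = 0 ∨ 0 < D.v (δ l x)))
    (hδ : ∀ l m, m ≠ l → δ l (u m) = 0)
    (hδ1 : ∀ l, δ l (u l) ≠ 0 ∧ D.v (δ l (u l)) = 0)
    (P : MvPolynomial (Fin m) ℂ) (hP : P ≠ 0) : aeval u P ≠ 0 ∧ D.v (aeval u P) = 0 := by
  have key : ∀ (N : ℕ) (Q : MvPolynomial (Fin m) ℂ) (γ : Fin m →₀ ℕ), ∑ l, γ l = N →
      γ ∈ Q.support → (∀ γ' ∈ Q.support, γ ≤ γ' → γ' = γ) →
      ¬ (aeval u Q = 0 ∨ 0 < D.v (aeval u Q)) := by
    intro N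
    induction N with
    | zero =>
      intro Q γ hN hγ hmax
      obtain ⟨c, hc, rfl⟩ := eq_C_of_max_zero hγ hmax fun l =>
        Finset.sum_eq_zero_iff.1 hN l (Finset.mem_univ l)
      rw [aeval_C, D.const c hc, map_eq_zero]
      rintro (h | h)
      · exact hc h
      · exact lt_irrefl _ h
    | succ N ih =>
      intro Q γ hN hγ hmax h0
      obtain ⟨l, hl⟩ : ∃ l, γ l ≠ 0 := by
        by_contra hcon
        push Not at hcon
        rw [Finset.sum_eq_zero fun l _ => hcon l] at hN
        omega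
      obtain ⟨h1, h2⟩ := max_mon_pderiv hγ hmax hl
      refine ih (pderiv l Q) _ ?_ h1 h2 ?_
      · have h3 := sum_sub_single hl
        omega
      · have h3 := hst l _ h0
        rw [der_aeval u (δ l) Q, Finset.sum_eq_single l] at h3
        · by_cases hz : aeval u (pderiv l Q) = 0
          · exact Or.inl hz
          · right
            rw [D.mul _ _ hz (hδ1 l).1, (hδ1 l).2, add_zero] at h3
            exact h3.resolve_left (mul_ne_zero hz (hδ1 l).1)
        · intro j _ hjl
          rw [hδ l j hjl, mul_zero]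
        · intro h
          exact absurd (Finset.mem_univ l) h
  obtain ⟨γ, hγ, hmax⟩ := exists_max_mon P hP
  have h1 := key _ P γ rfl hγ hmax
  push Not at h1
  refine ⟨h1.1, le_antisymm h1.2 (D.mem_ring'.1 (aeval_mem_ring D u hu P))⟩

/-- Functions with dual derivations are algebraically independent. -/
theorem indep_of_dual {m : ℕ} (u : Fin m → K) (δ : Fin m → Derivation ℂ K K)
    (hδ : ∀ l m, δ l (u m) = if l = m then 1 else 0)
    (P : MvPolynomial (Fin m) ℂ) (hP : P ≠ 0) : aeval u P ≠ 0 := by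
  have key : ∀ (N : ℕ) (Q : MvPolynomial (Fin m) ℂ) (γ : Fin m →₀ ℕ), ∑ l, γ l = N →
      γ ∈ Q.support → (∀ γ' ∈ Q.support, γ ≤ γ' → γ' = γ) → aeval u Q ≠ 0 := by
    intro N
    induction N with
    | zero =>
      intro Q γ hN hγ hmax
      obtain ⟨c, hc, rfl⟩ := eq_C_of_max_zero hγ hmax fun l =>
        Finset.sum_eq_zero_iff.1 hN l (Finset.mem_univ l)
      rw [aeval_C, Ne, map_eq_zero]
      exact hc
    | succ N ih =>
      intro Q γ hN hγ hmax h0
      obtain ⟨l, hl⟩ : ∃ l, γ l ≠ 0 := by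
        by_contra hcon
        push Not at hcon
        rw [Finset.sum_eq_zero fun l _ => hcon l] at hN
        omega
      obtain ⟨h1, h2⟩ := max_mon_pderiv hγ hmax hl
      refine ih (pderiv l Q) _ ?_ h1 h2 ?_
      · have h3 := sum_sub_single hl
        omega
      · have h3 := der_aeval u (δ l) Q
        rw [h0, map_zero, Finset.sum_eq_single l] at h3
        · rw [hδ, if_pos rfl, mul_one] at h3
          exact h3.symm
        · intro j _ hjl
          rw [hδ, if_neg (Ne.symm hjl), mul_zero]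
        · intro h
          exact absurd (Finset.mem_univ l) h
  obtain ⟨γ, hγ, hmax⟩ := exists_max_mon P hP
  exact key _ P γ rfl hγ hmax


end Pool.Agent.FR
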