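import Pool.Agent.FR.LogForm
import Pool.Agent.FR.Stable

/-!
# Dual derivations of functions with nonzero Jacobian
-/

set_option autoImplicit false

namespace Pool.Agent.FR

open MvPolynomial
open scoped Classical

variable {K : Type} [Field K] [Algebra ℂ K]

section L
variable {n : ℕ} (B : Module.Basis (Fin n) K (Derivation ℂ K K))

/-- The derivations dual to `u`. -/
theorem exists_dual (u : Fin n → K) (hj : jac B u ≠ 0) :
    ∃ δ : Fin n → Derivation ℂ K K, (∀ l m, δ l (u m) = if m = l then 1 else 0) ∧
      ∀ l h, δ l h = jac B (Function.update u l h) / jac B u := by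
  set M : Matrix (Fin n) (Fin n) K := Matrix.of fun i j => B i (u j) with hM
  have hdet : IsUnit M.det := isUnit_iff_ne_zero.2 hj
  refine ⟨fun l => ∑ i, M⁻¹ l i • B i, fun l m => ?_, fun l h => ?_⟩
  · rw [sum_smul_der_apply]
    have h1 := Matrix.nonsing_inv_mul M hdet
    have h2 := congrFun (congrFun h1 l) m
    rw [Matrix.mul_apply, Matrix.one_apply] at h2
    rw [show (∑ i, M⁻¹ l i * B i (u m)) = ∑ i, M⁻¹ l i * M i m from rfl, h2]
    simp only [eq_comm]
  · rw [sum_smul_der_apply]
    have h1 : jac B (Function.update u l h) = M.cramer (fun i => B i h) l := by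
      rw [Matrix.cramer_apply, jac]
      congr 1
      ext i j
      rw [Matrix.of_apply, Matrix.updateCol_apply]
      by_cases hjl : j = l
      · subst hjl
        rw [Function.update_self, if_pos rfl]
      · rw [Function.update_of_ne hjl, if_neg hjl]
        rfl
    rw [h1, Matrix.cramer_eq_adjugate_mulVec, Matrix.mulVec, dotProduct, eq_div_iff hj,
      Finset.sum_mul]
    refine Finset.sum_congr rfl fun i _ => ?_
    rw [Matrix.inv_def, Matrix.smul_apply, Ring.inverse_eq_inv', smul_eq_mul]
    have h2 : jac B u = M.det := rfl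
    rw [h2]
    have h3 : M.det ≠ 0 := hj
    field_simp

/-- Functions with nonzero Jacobian are algebraically independent. -/
theorem aeval_ne_zero (u : Fin n → K) (hj : jac B u ≠ 0) (Q : MvPolynomial (Fin n) ℂ)
    (hQ : Q ≠ 0) : aeval u Q ≠ 0 := by
  obtain ⟨δ, hδ, -⟩ := exists_dual B u hj
  refine indep_of_dual u δ (fun l m => ?_) Q hQ
  rw [hδ]
  simp only [eq_comm]

end L

end Pool.Agent.FR
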