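import Pool.Agent.FR.KBasic

/-!
# Project FR, row K10b: algebraic dependence and elimination
-/

set_option autoImplicit false

namespace Pool.Agent.FR

open MvPolynomial

section dep
variable {s : ℕ} {k a : Fin (s + 3) → ℕ} {d : ℕ} {K : Type} [Field K] [Algebra ℂ K]

private theorem elim_X0 (hw : Wt s k a d) (F : FD s k K) :
    IsIntegral (Algebra.adjoin ℂ (Set.range fun i : Fin (s + 2) => F.X i.succ)) (F.X 0) := by
  have hX : ∀ i : Fin (s + 2), F.X i.succ ∈
      Algebra.adjoin ℂ (Set.range fun i : Fin (s + 2) => F.X i.succ) := fun i =>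
    Algebra.subset_adjoin ⟨i, rfl⟩
  have hc : -(1 + ∑ i : Fin (s + 2), F.X i.succ ^ k i.succ) ∈
      Algebra.adjoin ℂ (Set.range fun i : Fin (s + 2) => F.X i.succ) :=
    neg_mem (add_mem (one_mem _) (sum_mem fun i _ => pow_mem (hX i) _))
  have h0 := F.rel
  rw [Fin.sum_univ_succ] at h0
  have h1 : F.X 0 ^ k 0 = -(1 + ∑ i : Fin (s + 2), F.X i.succ ^ k i.succ) := by
    linear_combination h0
  have hk : 0 < k 0 := lt_of_lt_of_le (by norm_num) (hw.hk 0)
  refine IsIntegral.of_pow hk ?_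
  rw [h1]
  exact isIntegral_algebraMap
    (x := (⟨_, hc⟩ : Algebra.adjoin ℂ (Set.range fun i : Fin (s + 2) => F.X i.succ)))

private theorem elim_alg (hw : Wt s k a d) (F : FD s k K) :
    Algebra.IsAlgebraic (Algebra.adjoin ℂ (Set.range fun i : Fin (s + 2) => F.X i.succ)) K := by
  have hX : ∀ j, IsIntegral (Algebra.adjoin ℂ (Set.range fun i : Fin (s + 2) => F.X i.succ))
      (F.X j) := by
    intro j
    refine Fin.cases (elim_X0 hw F) (fun i => ?_) j
    exact isIntegral_algebraMap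
      (x := (⟨F.X i.succ, Algebra.subset_adjoin ⟨i, rfl⟩⟩ :
        Algebra.adjoin ℂ (Set.range fun i : Fin (s + 2) => F.X i.succ)))
  have hP : ∀ P : MvPolynomial (Fin (s + 3)) ℂ,
      IsIntegral (Algebra.adjoin ℂ (Set.range fun i : Fin (s + 2) => F.X i.succ))
        (aeval F.X P) := by
    intro P
    induction P using MvPolynomial.induction_on with
    | C c =>
      rw [aeval_C]
      exact isIntegral_algebraMap
        (x := algebraMap ℂ (Algebra.adjoin ℂ (Set.range fun i : Fin (s + 2) => F.X i.succ)) c)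
    | add p q hp hq => rw [map_add]; exact hp.add hq
    | mul_X p i hp => rw [map_mul, aeval_X]; exact hp.mul (hX i)
  constructor
  intro x
  obtain ⟨P, Q, -, rfl⟩ := F.frac x
  rw [div_eq_mul_inv]
  exact (hP P).isAlgebraic.mul (hP Q).isAlgebraic.inv

theorem alg_dep (hw : Wt s k a d) (F : FD s k K) (w : Fin (s + 3) → K) :
    ∃ P : MvPolynomial (Fin (s + 3)) ℂ, P ≠ 0 ∧ aeval w P = 0 := by
  by_contra hcon
  push Not at hcon
  have hw' : AlgebraicIndependent ℂ w := by
    rw [algebraicIndependent_iff]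
    intro p hp
    by_contra hp0
    exact hcon p hp0 hp
  have h1 := hw'.cardinalMk_le_trdeg
  have := elim_alg hw F
  have h2 : Algebra.trdeg ℂ K ≤
      Cardinal.mk (Set.range fun i : Fin (s + 2) => F.X i.succ) := by
    exact Algebra.IsAlgebraic.trdeg_le_cardinalMk ℂ _
  have h3 : Cardinal.mk (Set.range fun i : Fin (s + 2) => F.X i.succ) ≤
      Cardinal.mk (Fin (s + 2)) := Cardinal.mk_range_le
  have h4 := h1.trans (h2.trans h3)
  rw [Cardinal.mk_fin, Cardinal.mk_fin, Nat.cast_le] at h4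
  omega

end dep

section elim

private theorem elim_cons {A : Type} [CommRing A] [Algebra ℂ A] {n : ℕ} (t : A) (v : Fin n → A)
    (P : MvPolynomial (Fin (n + 1)) ℂ) :
    aeval (Fin.cons t v : Fin (n + 1) → A) P =
      Polynomial.eval₂ (aeval v : MvPolynomial (Fin n) ℂ →ₐ[ℂ] A).toRingHom t
        (finSuccEquiv ℂ n P) := by
  induction P using MvPolynomial.induction_on with
  | C c =>
    rw [← algebraMap_eq, AlgHom.commutes, AlgEquiv.commutes, Polynomial.algebraMap_apply,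
      Polynomial.eval₂_C]
    exact ((aeval v : MvPolynomial (Fin n) ℂ →ₐ[ℂ] A).commutes c).symm
  | add p q hp hq => rw [map_add, map_add, Polynomial.eval₂_add, hp, hq]
  | mul_X p i hp =>
    rw [map_mul, map_mul, Polynomial.eval₂_mul, hp, aeval_X]
    congr 1
    refine Fin.cases ?_ (fun j => ?_) i
    · rw [finSuccEquiv_X_zero, Polynomial.eval₂_X, Fin.cons_zero]
    · rw [finSuccEquiv_X_succ, Polynomial.eval₂_C, Fin.cons_succ]
      simp

private theorem elim_step {A B : Type} [CommRing A] [CommRing B] [IsDomain B]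
    (g : B →+* A) (t : A) (f : Polynomial B) (hf : f ≠ 0) :
    ∃ (b : ℕ) (S : B) (y : A), S ≠ 0 ∧ Polynomial.eval₂ g t f = t ^ b * (g S + t * y) := by
  obtain ⟨q, hq, hdvd⟩ := Polynomial.exists_eq_pow_rootMultiplicity_mul_and_not_dvd f hf 0
  rw [map_zero, sub_zero] at hq hdvd
  refine ⟨f.rootMultiplicity 0, q.coeff 0, Polynomial.eval₂ g t q.divX, ?_, ?_⟩
  · intro h0
    exact hdvd (Polynomial.X_dvd_iff.2 h0)
  · have h1 : Polynomial.eval₂ g t f = t ^ f.rootMultiplicity 0 * Polynomial.eval₂ g t q := by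
      conv_lhs => rw [hq]
      rw [Polynomial.eval₂_mul, Polynomial.eval₂_pow, Polynomial.eval₂_X]
    rw [h1]
    congr 1
    conv_lhs => rw [← Polynomial.divX_mul_X_add q]
    rw [Polynomial.eval₂_add, Polynomial.eval₂_mul, Polynomial.eval₂_X, Polynomial.eval₂_C]
    ring

theorem elim {A : Type} [CommRing A] [IsDomain A] [Algebra ℂ A] (π h : A) (hπ : Prime π)
    (hh : ¬ π ∣ h) {m : ℕ} (w : Fin m → A) (P : MvPolynomial (Fin (m + 2)) ℂ) (hP : P ≠ 0)
    (h0 : aeval (Fin.cons π (Fin.cons h w : Fin (m + 1) → A) : Fin (m + 2) → A) P = 0) :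
    ∃ R : MvPolynomial (Fin m) ℂ, R ≠ 0 ∧ ∃ x y : A, aeval w R = x * π + y * h := by
  rw [elim_cons] at h0
  have hP' : finSuccEquiv ℂ (m + 1) P ≠ 0 := by
    rwa [Ne, EmbeddingLike.map_eq_zero_iff]
  obtain ⟨b, S, y, hS, h1⟩ := elim_step
    (aeval (Fin.cons h w : Fin (m + 1) → A) : MvPolynomial (Fin (m + 1)) ℂ →ₐ[ℂ] A).toRingHom
    π _ hP'
  rw [h1] at h0
  have h2 := (mul_eq_zero.1 h0).resolve_left (pow_ne_zero _ hπ.ne_zero)
  have h3 : aeval (Fin.cons h w : Fin (m + 1) → A) S = -(π * y) := eq_neg_of_add_eq_zero_left h2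
  rw [elim_cons] at h3
  have hS' : finSuccEquiv ℂ m S ≠ 0 := by
    rwa [Ne, EmbeddingLike.map_eq_zero_iff]
  obtain ⟨c, R, z, hR, h4⟩ := elim_step
    (aeval w : MvPolynomial (Fin m) ℂ →ₐ[ℂ] A).toRingHom h _ hS'
  rw [h4] at h3
  have h5 : π ∣ h ^ c * (aeval w R + h * z) := by
    refine ⟨-y, ?_⟩
    rw [mul_neg]
    exact h3
  obtain ⟨x, hx⟩ := (hπ.dvd_or_dvd h5).resolve_left fun hd => hh (hπ.dvd_of_dvd_pow hd)
  exact ⟨R, hR, x, -z, by linear_combination hx⟩

end elim

end Pool.Agent.FR
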