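import Pool.Agent.FR.Data

/-!
# The polynomial `gp k` is prime, and the function field exists
-/

set_option autoImplicit false

namespace Pool.Agent.FR

open MvPolynomial

theorem finSuccEquiv_gp {n : ℕ} (k : Fin (n + 1) → ℕ) :
    finSuccEquiv ℂ n (gp k) = Polynomial.X ^ k 0 + Polynomial.C (gp (fun j => k j.succ)) := by
  unfold gp
  rw [map_add, map_one, map_sum, Fin.sum_univ_succ]
  simp only [map_pow, finSuccEquiv_X_zero, finSuccEquiv_X_succ, map_add, map_one, map_sum]
  ring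

/-- `- gp k` is not a square if the first exponent is `3` -/
theorem not_sq_gp {n : ℕ} (k : Fin (n + 1) → ℕ) (h0 : k 0 = 3) (hk : ∀ j, 2 ≤ k j)
    (r : MvPolynomial (Fin (n + 1)) ℂ) : r ^ 2 + gp k ≠ 0 := by
  intro h
  have h1 := congrArg (aeval (fun j : Fin (n + 1) => if j = 0 then (Polynomial.X : Polynomial ℂ)
    else 0)) h
  rw [map_add, map_pow, map_zero] at h1
  have h2 : aeval (fun j : Fin (n + 1) => if j = 0 then (Polynomial.X : Polynomial ℂ)
      else 0) (gp k) = 1 + Polynomial.X ^ 3 := by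
    unfold gp
    rw [map_add, map_one, map_sum, Fin.sum_univ_succ]
    simp only [map_pow, aeval_X, if_true, h0, Fin.succ_ne_zero, if_false]
    rw [Finset.sum_eq_zero, add_zero]
    intro j _
    exact zero_pow (by have := hk j.succ; omega)
  rw [h2] at h1
  set p := aeval (fun j : Fin (n + 1) => if j = 0 then (Polynomial.X : Polynomial ℂ)
      else 0) r with hp
  have h3 : p ^ 2 = -(1 + Polynomial.X ^ 3) := eq_neg_of_add_eq_zero_left h1
  have h4 := congrArg Polynomial.natDegree h3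
  rw [Polynomial.natDegree_pow, Polynomial.natDegree_neg] at h4
  have h5 : (1 + Polynomial.X ^ 3 : Polynomial ℂ).natDegree = 3 := by
    compute_degree!
  rw [h5] at h4
  omega

theorem gp_irreducible {n : ℕ} (k : Fin (n + 2) → ℕ) (h0 : k 0 = 2) (h1 : k 1 = 3)
    (hk : ∀ j, 2 ≤ k j) : Irreducible (gp k) := by
  rw [← MulEquiv.irreducible_iff (finSuccEquiv ℂ (n + 1)), finSuccEquiv_gp, h0]
  have hm : (Polynomial.X ^ 2 + Polynomial.C (gp (fun j : Fin (n + 1) => k j.succ))).Monic :=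
    Polynomial.monic_X_pow_add_C _ (by norm_num)
  have hd : (Polynomial.X ^ 2 + Polynomial.C (gp (fun j : Fin (n + 1) => k j.succ))).natDegree
      = 2 := Polynomial.natDegree_X_pow_add_C
  rw [hm.irreducible_iff_roots_eq_zero_of_degree_le_three (by rw [hd]) (by rw [hd]; norm_num)]
  rw [Multiset.eq_zero_iff_forall_notMem]
  intro r hr
  have h2 := (Polynomial.mem_roots hm.ne_zero).mp hr
  rw [Polynomial.IsRoot.def] at h2
  simp only [Polynomial.eval_add, Polynomial.eval_pow, Polynomial.eval_X, Polynomial.eval_C] at h2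
  exact not_sq_gp (fun j : Fin (n + 1) => k j.succ) h1 (fun j => hk j.succ) r h2

theorem gp_prime_gen {s : ℕ} {k a : Fin (s + 3) → ℕ} {d : ℕ} (hw : Wt s k a d) : Prime (gp k) :=
  (gp_irreducible (n := s + 1) k hw.k0 hw.k1 hw.hk).prime

theorem gp_prime : Prime (gp kk) := gp_prime_gen wt

/-- the same with an arbitrary constant term -/
theorem prime_fermat (c₀ : ℂ) {s : ℕ} {k : Fin (s + 3) → ℕ} (h0 : k 0 = 2) (h1 : k 1 = 3)
    (hk : ∀ j, 1 ≤ k j) : Prime (C c₀ + ∑ j, X j ^ k j : MvPolynomial (Fin (s + 3)) ℂ) := by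
  apply Irreducible.prime
  have h2 : finSuccEquiv ℂ (s + 2) (C c₀ + ∑ j, X j ^ k j) =
      Polynomial.X ^ 2 + Polynomial.C (C c₀ + ∑ j : Fin (s + 2), X j ^ k j.succ) := by
    have hC : finSuccEquiv ℂ (s + 2) (C c₀) = Polynomial.C (C c₀) := by
      rw [← MvPolynomial.algebraMap_eq, AlgEquiv.commutes]
      rfl
    rw [map_add, map_sum, Fin.sum_univ_succ, hC]
    simp only [map_pow, finSuccEquiv_X_zero, finSuccEquiv_X_succ, map_add, map_sum, h0]
    ring
  rw [← MulEquiv.irreducible_iff (finSuccEquiv ℂ (s + 2)), h2]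
  have hm : (Polynomial.X ^ 2 + Polynomial.C (C c₀ + ∑ j : Fin (s + 2),
      X j ^ k j.succ)).Monic := Polynomial.monic_X_pow_add_C _ (by norm_num)
  have hd : (Polynomial.X ^ 2 + Polynomial.C (C c₀ + ∑ j : Fin (s + 2),
      X j ^ k j.succ)).natDegree = 2 := Polynomial.natDegree_X_pow_add_C
  rw [hm.irreducible_iff_roots_eq_zero_of_degree_le_three (by rw [hd]) (by rw [hd]; norm_num)]
  rw [Multiset.eq_zero_iff_forall_notMem]
  intro r hr
  have h3 := (Polynomial.mem_roots hm.ne_zero).mp hr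
  rw [Polynomial.IsRoot.def] at h3
  simp only [Polynomial.eval_add, Polynomial.eval_pow, Polynomial.eval_X, Polynomial.eval_C] at h3
  have h4 := congrArg (aeval (fun j : Fin (s + 2) => if j = 0 then (Polynomial.X : Polynomial ℂ)
    else 0)) h3
  rw [map_add, map_pow, map_zero] at h4
  have h5 : aeval (fun j : Fin (s + 2) => if j = 0 then (Polynomial.X : Polynomial ℂ)
      else 0) (C c₀ + ∑ j : Fin (s + 2), X j ^ k j.succ) =
      Polynomial.C c₀ + Polynomial.X ^ 3 := by
    rw [map_add, aeval_C, map_sum, Fin.sum_univ_succ]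
    have h1' : k (Fin.succ 0) = 3 := h1
    simp only [map_pow, aeval_X, if_true, h1', Fin.succ_ne_zero, if_false]
    rw [Finset.sum_eq_zero, add_zero]
    · rfl
    · intro j _
      exact zero_pow (by have := hk j.succ.succ; omega)
  rw [h5] at h4
  obtain ⟨p, hp⟩ : ∃ p : Polynomial ℂ, p = aeval (fun j : Fin (s + 2) => if j = 0 then
      (Polynomial.X : Polynomial ℂ) else 0) r := ⟨_, rfl⟩
  rw [← hp] at h4
  have h6 : p ^ 2 = -(Polynomial.C c₀ + Polynomial.X ^ 3) := eq_neg_of_add_eq_zero_left h4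
  have h7 := congrArg Polynomial.natDegree h6
  rw [Polynomial.natDegree_pow, Polynomial.natDegree_neg] at h7
  have h8 : (Polynomial.C c₀ + Polynomial.X ^ 3 : Polynomial ℂ).natDegree = 3 := by
    rw [add_comm]
    exact Polynomial.natDegree_X_pow_add_C
  rw [h8] at h7
  omega

theorem exists_FD_gen {s : ℕ} {k : Fin (s + 3) → ℕ} (hp : Prime (gp k)) :
    ∃ (K : Type) (_ : Field K) (_ : Algebra ℂ K), Nonempty (FD s k K) := by
  have hpr : (Ideal.span {gp k}).IsPrime := by
    rw [Ideal.span_singleton_prime hp.ne_zero]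
    exact hp
  have hdom : IsDomain (MvPolynomial (Fin (s + 3)) ℂ ⧸ Ideal.span {gp k}) :=
    (Ideal.Quotient.isDomain_iff_prime _).mpr hpr
  refine ⟨FractionRing (MvPolynomial (Fin (s + 3)) ℂ ⧸ Ideal.span {gp k}), inferInstance,
    inferInstance, ⟨?_⟩⟩
  have hX : ∀ P : MvPolynomial (Fin (s + 3)) ℂ,
      aeval (fun j : Fin (s + 3) => algebraMap (MvPolynomial (Fin (s + 3)) ℂ ⧸ Ideal.span {gp k})
        (FractionRing (MvPolynomial (Fin (s + 3)) ℂ ⧸ Ideal.span {gp k}))
        (Ideal.Quotient.mk (Ideal.span {gp k}) (X j))) P =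
      algebraMap (MvPolynomial (Fin (s + 3)) ℂ ⧸ Ideal.span {gp k})
        (FractionRing (MvPolynomial (Fin (s + 3)) ℂ ⧸ Ideal.span {gp k}))
        (Ideal.Quotient.mk (Ideal.span {gp k}) P) := by
    intro P
    have h1 : ∀ Q : MvPolynomial (Fin (s + 3)) ℂ, ((Algebra.ofId
        (MvPolynomial (Fin (s + 3)) ℂ ⧸ Ideal.span {gp k})
        (FractionRing (MvPolynomial (Fin (s + 3)) ℂ ⧸ Ideal.span {gp k}))).restrictScalars
          ℂ).comp (Ideal.Quotient.mkₐ ℂ (Ideal.span {gp k})) Q =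
        algebraMap (MvPolynomial (Fin (s + 3)) ℂ ⧸ Ideal.span {gp k})
        (FractionRing (MvPolynomial (Fin (s + 3)) ℂ ⧸ Ideal.span {gp k}))
        (Ideal.Quotient.mk (Ideal.span {gp k}) Q) := fun Q => rfl
    rw [← h1, aeval_unique (((Algebra.ofId
        (MvPolynomial (Fin (s + 3)) ℂ ⧸ Ideal.span {gp k})
        (FractionRing (MvPolynomial (Fin (s + 3)) ℂ ⧸ Ideal.span {gp k}))).restrictScalars
          ℂ).comp (Ideal.Quotient.mkₐ ℂ (Ideal.span {gp k})))]
    rfl
  refine ⟨fun j => algebraMap (MvPolynomial (Fin (s + 3)) ℂ ⧸ Ideal.span {gp k})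
    (FractionRing (MvPolynomial (Fin (s + 3)) ℂ ⧸ Ideal.span {gp k}))
    (Ideal.Quotient.mk (Ideal.span {gp k}) (X j)), ?_, ?_⟩
  · intro P
    rw [hX, FaithfulSMul.algebraMap_eq_zero_iff, Ideal.Quotient.eq_zero_iff_mem,
      Ideal.mem_span_singleton]
  · intro x
    obtain ⟨p, q, hq, rfl⟩ := IsFractionRing.div_surjective
      (A := MvPolynomial (Fin (s + 3)) ℂ ⧸ Ideal.span {gp k}) x
    obtain ⟨P, rfl⟩ := Ideal.Quotient.mk_surjective p
    obtain ⟨Q, rfl⟩ := Ideal.Quotient.mk_surjective q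
    refine ⟨P, Q, ?_, ?_⟩
    · rw [hX]
      intro h0
      rw [FaithfulSMul.algebraMap_eq_zero_iff] at h0
      exact nonZeroDivisors.ne_zero hq h0
    · rw [hX, hX]

/-- Existence of the function field. -/
theorem exists_FD : ∃ (K : Type) (_ : Field K) (_ : Algebra ℂ K), Nonempty (FD 7 kk K) :=
  exists_FD_gen gp_prime

end Pool.Agent.FR
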