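import Pool.Agent.FR.CR
import Pool.Agent.FR.GpPrime

/-!
Project FR (MP_c0959a_ag), block U: the presentations of the coordinate ring.
-/

set_option autoImplicit false

namespace Pool.Agent.FR.U

open MvPolynomial

/-- the isomorphism of the two presentations -/
theorem exists_equiv {n : ℕ} (k : Fin (n + 2) → ℕ) (h0 : k 0 = 2) (h1 : k 1 = 3) :
    Nonempty ((MvPolynomial (Fin (n + 2)) ℂ ⧸ Ideal.span {gp k}) ≃+*
      CR (gp fun j : Fin n => k j.succ.succ)) := by
  obtain ⟨e, he⟩ : ∃ e : MvPolynomial (Fin (n + 2)) ℂ ≃+*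
      Polynomial (Polynomial (MvPolynomial (Fin n) ℂ)),
      e (gp k) = wf (gp fun j : Fin n => k j.succ.succ) := by
    refine ⟨(finSuccEquiv ℂ (n + 1)).toRingEquiv.trans
      (Polynomial.mapEquiv (finSuccEquiv ℂ n).toRingEquiv), ?_⟩
    rw [RingEquiv.trans_apply]
    have h2 : (finSuccEquiv ℂ (n + 1)).toRingEquiv (gp k) =
        Polynomial.X ^ 2 + Polynomial.C (gp (fun j => k j.succ)) := by
      have h3 := finSuccEquiv_gp k
      rw [h0] at h3
      exact h3
    rw [h2, Polynomial.mapEquiv_apply, Polynomial.map_add, Polynomial.map_pow, Polynomial.map_X,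
      Polynomial.map_C]
    have h4 : (((finSuccEquiv ℂ n).toRingEquiv : _ →+* _) (gp (fun j : Fin (n + 1) => k j.succ)))
        = Polynomial.X ^ 3 + Polynomial.C (gp fun j : Fin n => k j.succ.succ) := by
      have h3 := finSuccEquiv_gp (fun j : Fin (n + 1) => k j.succ)
      have h5 : k (Fin.succ 0) = 3 := h1
      rw [h5] at h3
      exact h3
    rw [h4]
    rfl
  refine ⟨Ideal.quotientEquiv _ _ e ?_⟩
  rw [Ideal.map_span, Set.image_singleton]
  congr 2
  exact he.symm

end Pool.Agent.FR.U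

namespace Pool.Agent.FR

open MvPolynomial

/-- the coordinate ring inside `K` -/
theorem FD.nonempty_equiv {s : ℕ} {k : Fin (s + 3) → ℕ} {K : Type} [Field K] [Algebra ℂ K]
    (F : FD s k K) :
    Nonempty ((MvPolynomial (Fin (s + 3)) ℂ ⧸ Ideal.span {gp k}) ≃+* F.A) := by
  obtain ⟨f, hf⟩ : ∃ f : MvPolynomial (Fin (s + 3)) ℂ →+* F.A,
      ∀ P, ((f P : F.A) : K) = aeval F.X P :=
    ⟨(aeval F.X : MvPolynomial (Fin (s + 3)) ℂ →ₐ[ℂ] K).rangeRestrict.toRingHom, fun P => rfl⟩
  have hfs : Function.Surjective f := by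
    rintro ⟨x, hx⟩
    obtain ⟨P, hP⟩ := hx
    refine ⟨P, Subtype.ext ?_⟩
    rw [hf]
    exact hP
  have hker : RingHom.ker f = Ideal.span {gp k} := by
    ext P
    rw [RingHom.mem_ker, Ideal.mem_span_singleton, ← F.ker, ← hf]
    exact ZeroMemClass.coe_eq_zero.symm
  exact ⟨(Ideal.quotEquivOfEq hker.symm).trans (RingHom.quotientKerEquivOfSurjective hfs)⟩

/-- transfer of factoriality to the quotient -/
theorem ufd_of_CR {n : ℕ} (k : Fin (n + 2) → ℕ) (h0 : k 0 = 2) (h1 : k 1 = 3)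
    (h : UniqueFactorizationMonoid (U.CR (gp fun j : Fin n => k j.succ.succ))) :
    UniqueFactorizationMonoid (MvPolynomial (Fin (n + 2)) ℂ ⧸ Ideal.span {gp k}) := by
  obtain ⟨e⟩ := U.exists_equiv k h0 h1
  exact MulEquiv.uniqueFactorizationMonoid e.symm.toMulEquiv h

/-- transfer of factoriality to the coordinate ring inside `K` -/
theorem FD.ufd_of_quot {s : ℕ} {k : Fin (s + 3) → ℕ} {K : Type} [Field K] [Algebra ℂ K]
    (F : FD s k K)
    (h : UniqueFactorizationMonoid (MvPolynomial (Fin (s + 3)) ℂ ⧸ Ideal.span {gp k})) :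
    UniqueFactorizationMonoid F.A := by
  obtain ⟨e⟩ := F.nonempty_equiv
  exact MulEquiv.uniqueFactorizationMonoid e.toMulEquiv h

end Pool.Agent.FR
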