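import Pool.Agent.FR.Top
import Pool.Agent.FR.XRed
import Pool.Agent.FR.GpPrime

/-!
# The exceptional divisor (row K8 of project FR): `v y = -3`, `v x = -2`, `v (z j) = 0`
-/

set_option autoImplicit false

namespace Pool.Agent.FR

open MvPolynomial
open scoped Classical

variable {K : Type} [Field K] [Algebra ℂ K]

/-- A polynomial in `t`, with `v t = -2`, whose nonzero coefficients are units. -/
private theorem exc_poly {R : Type} [CommRing R] (φ : R →+* K) (D : DVal K) (t : K)
    (ht : t ≠ 0) (htv : D.v t = -2) (hφ : ∀ r : R, r ≠ 0 → φ r ≠ 0 ∧ D.v (φ r) = 0) (n : ℕ) :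
    ∀ f : Polynomial R, f ≠ 0 → f.natDegree = n →
      f.eval₂ φ t ≠ 0 ∧ D.v (f.eval₂ φ t) = -2 * (n : ℤ) := by
  induction n using Nat.strong_induction_on with
  | _ n ih =>
    intro f hf hn
    have hlc : f.leadingCoeff ≠ 0 := Polynomial.leadingCoeff_ne_zero.2 hf
    obtain ⟨h1, h2⟩ := hφ _ hlc
    have h3 : φ f.leadingCoeff * t ^ n ≠ 0 := mul_ne_zero h1 (pow_ne_zero _ ht)
    have h4 : D.v (φ f.leadingCoeff * t ^ n) = -2 * (n : ℤ) := by
      rw [D.mul _ _ h1 (pow_ne_zero _ ht), h2, D.pow ht, htv]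
      ring
    have h5 : f.eval₂ φ t = φ f.leadingCoeff * t ^ n + f.eraseLead.eval₂ φ t := by
      conv_lhs => rw [← Polynomial.eraseLead_add_C_mul_X_pow f]
      rw [Polynomial.eval₂_add, Polynomial.eval₂_mul, Polynomial.eval₂_C, Polynomial.eval₂_pow,
        Polynomial.eval₂_X, hn, add_comm]
    rw [h5]
    have h6 : f.eraseLead.eval₂ φ t = 0 ∨
        D.v (φ f.leadingCoeff * t ^ n) < D.v (f.eraseLead.eval₂ φ t) := by
      rcases f.eraseLead_natDegree_lt_or_eraseLead_eq_zero with h | h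
      · by_cases h0 : f.eraseLead = 0
        · left
          rw [h0, Polynomial.eval₂_zero]
        · right
          have h7 := (ih _ (hn ▸ h) f.eraseLead h0 rfl).2
          rw [h4, h7]
          omega
      · left
        rw [h, Polynomial.eval₂_zero]
    obtain ⟨h7, h8⟩ := D.add_of_lt h3 h6
    exact ⟨h7, h8.trans h4⟩

private theorem exc_aeval {n : ℕ} (u : Fin (n + 1) → K) (f : MvPolynomial (Fin (n + 1)) ℂ) :
    aeval u f = (finSuccEquiv ℂ n f).eval₂
      ((aeval (fun i => u i.succ) : MvPolynomial (Fin n) ℂ →ₐ[ℂ] K) : MvPolynomial (Fin n) ℂ →+* K)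
      (u 0) := by
  induction f using MvPolynomial.induction_on with
  | C c =>
    rw [finSuccEquiv_apply, MvPolynomial.aeval_C]
    simp
  | add p q hp hq => rw [map_add, hp, hq, map_add, Polynomial.eval₂_add]
  | mul_X p i hp =>
    rw [map_mul, hp, map_mul, Polynomial.eval₂_mul, aeval_X]
    congr 1
    refine Fin.cases ?_ (fun i => ?_) i
    · rw [finSuccEquiv_X_zero, Polynomial.eval₂_X]
    · rw [finSuccEquiv_X_succ, Polynomial.eval₂_C]
      simp

private theorem exc_rename {n : ℕ} (p : MvPolynomial (Fin n) ℂ) :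
    finSuccEquiv ℂ n (rename Fin.succ p) = Polynomial.C p := by
  induction p using MvPolynomial.induction_on with
  | C c =>
    rw [rename_C, finSuccEquiv_apply]
    simp
  | add p q hp hq => rw [map_add, map_add, hp, hq, map_add]
  | mul_X p i hp => rw [map_mul, map_mul, hp, rename_X, finSuccEquiv_X_succ, map_mul]

/-- Functions of the coordinates other than `X 0` and `X 1` are units. -/
private theorem exc_unit (F : FD 7 kk K) (B : Module.Basis (Fin 9) K (Derivation ℂ K K))
    (hB : IsOmega F B) (D : DVal K) (h0 : D.v (F.X 0) = -3) (h1 : D.v (F.X 1) = -2)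
    (h2 : ∀ l, 2 ≤ l → D.v (F.X l) = 0) (hk : kord B D = 0) (p : MvPolynomial (Fin 8) ℂ)
    (hp : p ≠ 0) : aeval (fun i : Fin 8 => F.X i.succ.succ) p ≠ 0 ∧
      D.v (aeval (fun i : Fin 8 => F.X i.succ.succ) p) = 0 := by
  have hX2 : ∀ i : Fin 8, D.v (F.X i.succ.succ) = 0 := by
    intro i
    apply h2
    rw [Fin.le_def]
    simp
  have hQ0 : rename (Fin.succ : Fin 8 → Fin 9) p ≠ 0 := by
    intro h
    exact hp (rename_injective _ (Fin.succ_injective _) (by rw [h, map_zero]))
  refine ⟨fun h => ?_, ?_⟩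
  · -- the polynomial `gp kk` has degree `2` in `X 0`
    have h3 : aeval F.X (rename (Fin.succ : Fin 9 → Fin 10)
        (rename (Fin.succ : Fin 8 → Fin 9) p)) = 0 := by
      rw [aeval_rename, aeval_rename]
      exact h
    obtain ⟨Q, hQ⟩ := (F.ker _).1 h3
    have h4 := congrArg (finSuccEquiv ℂ 9) hQ
    rw [exc_rename, map_mul, finSuccEquiv_gp] at h4
    have hm : (Polynomial.X ^ (kk 0) + Polynomial.C (gp (fun j : Fin 9 => kk j.succ))).Monic :=
      Polynomial.monic_X_pow_add_C _ (by decide)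
    have hd : (Polynomial.X ^ (kk 0) + Polynomial.C (gp (fun j : Fin 9 => kk j.succ))).natDegree
      = kk 0 := Polynomial.natDegree_X_pow_add_C
    have hQ0' : finSuccEquiv ℂ 9 Q ≠ 0 := by
      intro h5
      rw [h5, mul_zero, Polynomial.C_eq_zero] at h4
      exact hQ0 h4
    have h5 := congrArg Polynomial.natDegree h4
    rw [Polynomial.natDegree_C, hm.natDegree_mul' hQ0', hd] at h5
    have h6 : kk 0 = 2 := rfl
    omega
  · apply le_antisymm
    · -- `top_bound`
      obtain ⟨γ, hγ⟩ := Finset.exists_maximal (support_nonempty.2 hQ0)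
      have hγ0 : γ 0 = 0 := by
        obtain ⟨γ', h5, -⟩ := coeff_rename_ne_zero _ _ _ (mem_support_iff.1 hγ.1)
        rw [← h5]
        refine Finsupp.mapDomain_notin_range _ _ ?_
        rintro ⟨i, hi⟩
        exact Fin.succ_ne_zero i hi
      have h3 := top_bound wt F B hB D 0 (rename (Fin.succ : Fin 8 → Fin 9) p) γ hγ.1
        (fun γ' h5 h6 => le_antisymm (hγ.2 h5 h6) h6)
      have h4 : aeval (fun i => F.X ((0 : Fin 10).succAbove i))
          (rename (Fin.succ : Fin 8 → Fin 9) p) =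
          aeval (fun i : Fin 8 => F.X i.succ.succ) p := by
        rw [aeval_rename]
        rfl
      have heps : eps F B D 0 = 0 := by
        unfold eps
        rw [hk, h0, show kk 0 = 2 from rfl, Fin.sum_univ_succ, Fin.sum_univ_succ,
          Finset.sum_eq_zero (fun i _ => hX2 i), h0]
        rw [show F.X (Fin.succ 0) = F.X 1 from rfl, h1]
        norm_num
      refine le_trans (le_of_eq ?_) (le_trans h3 (le_of_eq ?_))
      · exact congrArg D.v h4.symm
      · rw [Fin.sum_univ_succ, hγ0, Finset.sum_eq_zero]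
        · simp
        · intro i _
          rw [heps]
          have h7 := hX2 i
          change (γ i.succ : ℤ) * (D.v (F.X i.succ.succ) + 0) = 0
          rw [h7]
          ring
    · have h3 : ∀ p : MvPolynomial (Fin 8) ℂ,
          (aeval (fun i : Fin 8 => F.X i.succ.succ) p : K) ∈ D.ring := by
        intro p
        induction p using MvPolynomial.induction_on with
        | C c => rw [aeval_C]; exact D.isPlace c
        | add p q hp hq => rw [map_add]; exact add_mem hp hq
        | mul_X p i hp =>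
          rw [map_mul, aeval_X]
          exact mul_mem hp (D.mem_ring'.2 (hX2 i).ge)
      exact D.mem_ring'.1 (h3 p)

/-- Functions of the coordinates other than `X 0`. -/
private theorem exc_even (F : FD 7 kk K) (B : Module.Basis (Fin 9) K (Derivation ℂ K K))
    (hB : IsOmega F B) (D : DVal K) (h0 : D.v (F.X 0) = -3) (h1 : D.v (F.X 1) = -2)
    (h2 : ∀ l, 2 ≤ l → D.v (F.X l) = 0) (hk : kord B D = 0) (p : MvPolynomial (Fin 9) ℂ)
    (hp : p ≠ 0) : aeval (fun i : Fin 9 => F.X i.succ) p ≠ 0 ∧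
      ∃ e : ℕ, D.v (aeval (fun i : Fin 9 => F.X i.succ) p) = -2 * (e : ℤ) := by
  have hX1 : F.X 1 ≠ 0 := F.X_ne wt 1
  have h3 : finSuccEquiv ℂ 8 p ≠ 0 := by
    intro h
    exact hp ((finSuccEquiv ℂ 8).injective (by rw [h, map_zero]))
  have h4 := exc_poly ((aeval (fun i : Fin 8 => F.X i.succ.succ) :
    MvPolynomial (Fin 8) ℂ →ₐ[ℂ] K) : MvPolynomial (Fin 8) ℂ →+* K) D (F.X 1) hX1 h1
    (fun r hr => exc_unit F B hB D h0 h1 h2 hk r hr) _ _ h3 rfl
  have h5 := exc_aeval (fun i : Fin 9 => F.X i.succ) p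
  rw [h5]
  exact ⟨h4.1, _, h4.2⟩

theorem exceptional (F : FD 7 kk K) (B : Module.Basis (Fin 9) K (Derivation ℂ K K))
    (hB : IsOmega F B) (D : DVal K) (h0 : D.v (F.X 0) = -3) (h1 : D.v (F.X 1) = -2)
    (h2 : ∀ l, 2 ≤ l → D.v (F.X l) = 0) (hk : kord B D = 0) (h : K) (hh : h ∈ F.A)
    (hne : h ≠ 0) : D.v h ≤ 0 := by
  obtain ⟨P₀, hP₀⟩ := FD.mem_A.1 hh
  obtain ⟨P, hP, hdeg, -⟩ := exists_red wt F 0 P₀
  have hX0 : F.X 0 ≠ 0 := F.X_ne wt 0
  have h3 : (finSuccEquiv ℂ 9 P).natDegree ≤ 1 := by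
    rw [natDegree_finSuccEquiv]
    have h6 : kk 0 = 2 := rfl
    omega
  have h4 : h = aeval (fun i : Fin 9 => F.X i.succ) ((finSuccEquiv ℂ 9 P).coeff 1) * F.X 0 +
      aeval (fun i : Fin 9 => F.X i.succ) ((finSuccEquiv ℂ 9 P).coeff 0) := by
    rw [← hP₀, ← hP, exc_aeval F.X P]
    conv_lhs => rw [Polynomial.eq_X_add_C_of_natDegree_le_one h3]
    rw [Polynomial.eval₂_add, Polynomial.eval₂_mul, Polynomial.eval₂_C, Polynomial.eval₂_C,
      Polynomial.eval₂_X]
    rfl
  have key := exc_even F B hB D h0 h1 h2 hk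
  by_cases hc1 : (finSuccEquiv ℂ 9 P).coeff 1 = 0
  · rw [hc1, map_zero, zero_mul, zero_add] at h4
    by_cases hc0 : (finSuccEquiv ℂ 9 P).coeff 0 = 0
    · rw [hc0, map_zero] at h4
      exact absurd h4 hne
    · obtain ⟨-, e, he⟩ := key _ hc0
      rw [h4, he]
      omega
  · obtain ⟨h5, e, he⟩ := key _ hc1
    have h6 : D.v (aeval (fun i : Fin 9 => F.X i.succ) ((finSuccEquiv ℂ 9 P).coeff 1) * F.X 0) =
        -2 * (e : ℤ) - 3 := by
      rw [D.mul _ _ h5 hX0, he, h0]
      ring
    by_cases hc0 : (finSuccEquiv ℂ 9 P).coeff 0 = 0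
    · rw [hc0, map_zero, add_zero] at h4
      rw [h4, h6]
      omega
    · obtain ⟨h7, e', he'⟩ := key _ hc0
      have h8 : -2 * (e : ℤ) - 3 ≠ -2 * (e' : ℤ) := by omega
      rcases lt_or_gt_of_ne h8 with h9 | h9
      · have h10 := D.add_of_lt (mul_ne_zero h5 hX0) (Or.inr (lt_of_eq_of_lt h6 (lt_of_lt_of_eq h9
          he'.symm)))
        rw [h4, h10.2, h6]
        omega
      · have h10 := D.add_of_lt h7 (Or.inr (lt_of_eq_of_lt he' (lt_of_lt_of_eq h9 h6.symm)))
        rw [h4, add_comm, h10.2, he']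
        omega

end Pool.Agent.FR
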