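import Pool.Agent.FR.Val

/-!
# The order of the form dual to a basis of the derivations: `kord_le` and `kord_eq`
-/

set_option autoImplicit false

namespace Pool.Agent.FR

open scoped Classical

variable {K : Type} [Field K] [Algebra ℂ K]

/-- A lower bound for the valuations of the derivatives of the elements of the ring of `D`. -/
theorem exists_der_ge (D : DVal K) (δ : Derivation ℂ K K) :
    ∃ c : ℤ, ∀ u ∈ D.ring, δ u = 0 ∨ c ≤ D.v (δ u) := by
  obtain ⟨s, hs1, hs2⟩ := D.fin
  set c : ℤ := -∑ x ∈ s, |D.v (δ x)| with hc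
  have hmem : ∀ x ∈ s, c ≤ D.v (δ x) := by
    intro x hx
    have h1 : |D.v (δ x)| ≤ ∑ x ∈ s, |D.v (δ x)| :=
      Finset.single_le_sum (f := fun x => |D.v (δ x)|) (fun y _ => abs_nonneg _) hx
    have h2 := neg_abs_le (D.v (δ x))
    omega
  have hpos : ∀ x ∈ Algebra.adjoin ℂ (s : Set K), x = 0 ∨ 0 ≤ D.v x := by
    intro x hx
    by_cases h0 : x = 0
    · exact Or.inl h0
    · exact Or.inr (hs1 x hx h0)
  have hadj : ∀ x ∈ Algebra.adjoin ℂ (s : Set K), δ x = 0 ∨ c ≤ D.v (δ x) := by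
    intro x hx
    induction hx using Algebra.adjoin_induction with
    | mem x hx => exact Or.inr (hmem x hx)
    | algebraMap r => exact Or.inl (δ.map_algebraMap r)
    | add x y hx hy h1 h2 =>
      rw [map_add]
      exact D.add_ge h1 h2
    | mul x y hx hy h1 h2 =>
      rw [δ.leibniz, smul_eq_mul, smul_eq_mul]
      have h3 := D.mul_ge (hpos x hx) h2
      have h4 := D.mul_ge (hpos y hy) h1
      rw [zero_add] at h3 h4
      exact D.add_ge h3 h4
  refine ⟨c, fun u hu => ?_⟩
  by_cases hu0 : u = 0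
  · left; rw [hu0, map_zero]
  obtain ⟨a, ha, b, hb, hb0, hvb, rfl⟩ := hs2 u hu0 (D.mem_ring'.1 hu)
  rw [δ.leibniz_div, smul_eq_mul, smul_eq_mul, smul_eq_mul, sub_eq_add_neg]
  have h1 := D.mul_ge (hpos b hb) (hadj a ha)
  have h2 := D.neg_ge (D.mul_ge (hpos a ha) (hadj b hb))
  have h3 := D.add_ge h1 h2
  have h4 : (b⁻¹ ^ 2 : K) = 0 ∨ 0 ≤ D.v (b⁻¹ ^ 2) := by
    right
    rw [D.pow (inv_ne_zero hb0), D.inv hb0, hvb]
    simp
  have h5 := D.mul_ge h4 h3
  rwa [zero_add, zero_add] at h5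

/-- A lower bound for determinants. -/
theorem det_ge (D : DVal K) {n : ℕ} (M : Matrix (Fin n) (Fin n) K) (c : Fin n → ℤ)
    (h : ∀ i j, M i j = 0 ∨ c i ≤ D.v (M i j)) : M.det = 0 ∨ ∑ i, c i ≤ D.v M.det := by
  rw [Matrix.det_apply']
  refine D.sum_ge _ _ _ fun σ _ => ?_
  by_cases h0 : ((Equiv.Perm.sign σ : ℤ) : K) * ∏ i, M (σ i) i = 0
  · exact Or.inl h0
  right
  have h1 : ((Equiv.Perm.sign σ : ℤ) : K) ≠ 0 := left_ne_zero_of_mul h0
  have h2 : ∏ i, M (σ i) i ≠ 0 := right_ne_zero_of_mul h0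
  have h3 : (Equiv.Perm.sign σ : ℤ) ≠ 0 := by
    intro h4
    rw [h4, Int.cast_zero] at h1
    exact h1 rfl
  rw [D.mul _ _ h1 h2, D.intCast h3, zero_add, D.prod _ _ (Finset.prod_ne_zero_iff.1 h2),
    ← Equiv.sum_comp σ c]
  exact Finset.sum_le_sum fun i _ => (h (σ i) i).resolve_left
    (Finset.prod_ne_zero_iff.1 h2 i (Finset.mem_univ i))

section

variable {n : ℕ} (B : Module.Basis (Fin n) K (Derivation ℂ K K)) (D : DVal K)

theorem bddBelow_jac : BddBelow {z | ∃ u : Fin n → K, (∀ j, u j ∈ D.ring) ∧ jac B u ≠ 0 ∧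
    z = D.v (jac B u)} := by
  choose c hc using fun i => exists_der_ge D (B i)
  refine ⟨∑ i, c i, ?_⟩
  rintro z ⟨u, hu, hj, rfl⟩
  exact (det_ge D _ c fun i j => hc i (u j) (hu j)).resolve_left hj

/-- The vectors of the derivatives of the elements of the ring of `D` span. -/
theorem span_der : Submodule.span K ((fun u i => B i u) '' (D.ring : Set K)) =
    (⊤ : Submodule K (Fin n → K)) := by
  by_contra hne
  obtain ⟨f, hf, hle⟩ := Submodule.exists_le_ker_of_lt_top _ (lt_top_iff_ne_top.2 hne)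
  have hfe : ∀ v : Fin n → K, f v = ∑ i, v i * f (Pi.single i 1) := by
    intro v
    conv_lhs => rw [pi_eq_sum_univ v, map_sum]
    refine Finset.sum_congr rfl fun i _ => ?_
    rw [map_smul, smul_eq_mul]
    congr 2
    funext j
    simp [Pi.single_apply, eq_comm]
  set δ : Derivation ℂ K K := ∑ i, f (Pi.single i 1) • B i with hδ
  have hδa : ∀ x, δ x = f (fun i => B i x) := by
    intro x
    have h3 : ∀ (s : Finset (Fin n)) (G : Fin n → Derivation ℂ K K),
        (∑ l ∈ s, G l) x = ∑ l ∈ s, G l x := by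
      intro s G
      induction s using Finset.induction_on with
      | empty => simp
      | insert a s ha ih =>
        rw [Finset.sum_insert ha, Finset.sum_insert ha, Derivation.add_apply, ih]
    rw [hδ, h3, hfe]
    refine Finset.sum_congr rfl fun i _ => ?_
    rw [Derivation.smul_apply, smul_eq_mul, mul_comm]
  have h1 : ∀ x ∈ D.ring, δ x = 0 := by
    intro x hx
    rw [hδa]
    exact hle (Submodule.subset_span ⟨x, hx, rfl⟩)
  have h2 : δ = 0 := by
    ext x
    rcases D.ring.mem_or_inv_mem x with hx | hx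
    · exact h1 x hx
    · have h3 := δ.leibniz_inv x⁻¹
      rw [inv_inv, h1 _ hx, smul_zero] at h3
      exact h3
  have h3 := (Fintype.linearIndependent_iff.1 B.linearIndependent) (fun i => f (Pi.single i 1))
    (by rw [← hδ, h2])
  apply hf
  ext i
  simpa using h3 i

theorem nonempty_jac : {z | ∃ u : Fin n → K, (∀ j, u j ∈ D.ring) ∧ jac B u ≠ 0 ∧
    z = D.v (jac B u)}.Nonempty := by
  have h0 := span_der B D
  have h1 : Module.finrank K (Submodule.span K ((fun u i => B i u) '' (D.ring : Set K)) :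
      Submodule K (Fin n → K)) = n := by
    rw [h0, finrank_top, Module.finrank_fin_fun]
  obtain ⟨w, hw, -, hli⟩ := Submodule.exists_fun_fin_finrank_span_eq K
    ((fun u i => B i u) '' (D.ring : Set K))
  choose x hx hxw using hw
  let e : Fin n ≃ Fin (Module.finrank K (Submodule.span K ((fun u i => B i u) ''
    (D.ring : Set K)))) := finCongr h1.symm
  have hli' : LinearIndependent K (fun j => w (e j)) := hli.comp e e.injective
  refine ⟨_, fun j => x (e j), fun j => hx _, ?_, rfl⟩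
  have h2 : (Matrix.of fun i j => B i (x (e j))).col = fun j => w (e j) := by
    funext j
    rw [← hxw (e j)]
    rfl
  have h3 : IsUnit (Matrix.of fun i j => B i (x (e j))) := by
    rw [← Matrix.linearIndependent_cols_iff_isUnit, h2]
    exact hli'
  exact ((Matrix.isUnit_iff_isUnit_det _).1 h3).ne_zero

theorem kord_le (u : Fin n → K) (hu : ∀ j, u j ∈ D.ring) (hj : jac B u ≠ 0) :
    - kord B D ≤ D.v (jac B u) := by
  rw [kord, neg_neg]
  exact csInf_le (bddBelow_jac B D) ⟨u, hu, hj, rfl⟩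

theorem kord_eq : ∃ u : Fin n → K, (∀ j, u j ∈ D.ring) ∧ jac B u ≠ 0 ∧
    D.v (jac B u) = - kord B D := by
  obtain ⟨u, hu, hj, h⟩ := Int.csInf_mem (nonempty_jac B D) (bddBelow_jac B D)
  exact ⟨u, hu, hj, by rw [kord, neg_neg, h]⟩

end

end Pool.Agent.FR
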