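import Pool.Agent.FR.XBasic
import Pool.Agent.FR.XRed

/-!
# Block X: elements of the coordinate ring and the order along `E`
-/

set_option autoImplicit false

namespace Pool.Agent.FR

open MvPolynomial

variable {s : ℕ} {k a : Fin (s + 3) → ℕ} {d : ℕ} {K : Type} [Field K] [Algebra ℂ K]

section E
variable (hw : Wt s k a d) {F : FD s k K} {E : DVal K} (hE : IsDeg F a E)
include hw hE

/-- Elements of the coordinate ring are given by reduced polynomials, of weighted degree `- E`. -/
theorem IsDeg.exists_rep (j : Fin (s + 3)) (h : K) (hh : h ∈ F.A) (h0 : h ≠ 0) :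
    ∃ P : MvPolynomial (Fin (s + 3)) ℂ, P ≠ 0 ∧ aeval F.X P = h ∧ degreeOf j P < k j ∧
      E.v h = -((weightedTotalDegree a P : ℕ) : ℤ) := by
  obtain ⟨P, hP⟩ := hh
  obtain ⟨P', h1, h2, -⟩ := exists_red hw F j P
  have h3 : aeval F.X P' = h := by
    rw [h1]
    exact hP
  have h4 : P' ≠ 0 := by
    rintro rfl
    rw [map_zero] at h3
    exact h0 h3.symm
  refine ⟨P', h4, h3, h2, ?_⟩
  rw [← h3]
  exact hE.red j P' h4 h2

theorem IsDeg.nonpos (h : K) (hh : h ∈ F.A) : E.v h ≤ 0 := by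
  by_cases h0 : h = 0
  · rw [h0, E.zero]
  obtain ⟨P, -, -, -, h1⟩ := hE.exists_rep hw 0 h hh h0
  rw [h1]
  omega

theorem IsDeg.const (h : K) (hh : h ∈ F.A) (hv : E.v h = 0) : ∃ c : ℂ, h = algebraMap ℂ K c := by
  by_cases h0 : h = 0
  · exact ⟨0, by rw [h0, map_zero]⟩
  obtain ⟨P, -, h2, -, h1⟩ := hE.exists_rep hw 0 h hh h0
  rw [hv] at h1
  have h3 : weightedTotalDegree a P = 0 := by omega
  have h4 : ∀ e ∈ P.support, e = 0 := by
    intro e he
    have h5 := le_weightedTotalDegree a he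
    rw [h3, nonpos_iff_eq_zero] at h5
    have h5' : Finsupp.weight a e = 0 := h5
    rw [Finsupp.weight_apply, Finsupp.sum] at h5'
    rw [Finset.sum_eq_zero_iff] at h5'
    ext i
    by_contra hi
    have h6 := h5' i (Finsupp.mem_support_iff.2 hi)
    rw [smul_eq_mul, mul_eq_zero] at h6
    rcases h6 with h6 | h6
    · exact hi h6
    · exact absurd (hw.a_pos i) (by omega)
  have h5 : P = C (P.coeff 0) := by
    ext e
    rw [coeff_C]
    split_ifs with h6
    · rw [h6]
    · by_contra h7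
      exact h6 (h4 e (mem_support_iff.2 h7)).symm
  refine ⟨P.coeff 0, ?_⟩
  rw [← h2]
  conv_lhs => rw [h5]
  rw [← algebraMap_eq, AlgHom.commutes]
end E

end Pool.Agent.FR
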