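import Pool.Agent.FR.KBasic
import Pool.Agent.FR.XRed
import Pool.Agent.FR.XRep

/-!
# Norms of elements of the coordinate ring (project FR, K4)
-/

set_option autoImplicit false

namespace Pool.Agent.FR

open MvPolynomial
open scoped Classical

variable {s : ℕ} {k a : Fin (s + 3) → ℕ} {d : ℕ} {K : Type} [Field K] [Algebra ℂ K]

/-- The substitution `X j ↦ z X j`. -/
private noncomputable def ntw {m : ℕ} (j : Fin m) (z : ℂ) :
    MvPolynomial (Fin m) ℂ →ₐ[ℂ] MvPolynomial (Fin m) ℂ :=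
  aeval fun i => if i = j then C z * X j else X i

private theorem ntw_monomial {m : ℕ} (j : Fin m) (z : ℂ) (e : Fin m →₀ ℕ) (c : ℂ) :
    ntw j z (monomial e c) = monomial e (z ^ e j * c) := by
  unfold ntw
  rw [aeval_monomial, Finsupp.prod_fintype _ _ (fun i => pow_zero _)]
  rw [monomial_eq, Finsupp.prod_fintype _ _ (fun i => pow_zero _)]
  rw [← Finset.mul_prod_erase Finset.univ _ (Finset.mem_univ j),
    ← Finset.mul_prod_erase Finset.univ (fun i => (X i : MvPolynomial (Fin m) ℂ) ^ e i)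
      (Finset.mem_univ j)]
  rw [if_pos rfl, mul_pow, ← C_pow, algebraMap_eq, C_mul]
  have h : ∏ i ∈ Finset.univ.erase j,
      (if i = j then C z * X j else (X i : MvPolynomial (Fin m) ℂ)) ^ e i =
      ∏ i ∈ Finset.univ.erase j, (X i : MvPolynomial (Fin m) ℂ) ^ e i := by
    apply Finset.prod_congr rfl
    intro i hi
    rw [if_neg (Finset.ne_of_mem_erase hi)]
  rw [h]
  ring

private theorem coeff_ntw {m : ℕ} (j : Fin m) (z : ℂ) (P : MvPolynomial (Fin m) ℂ)
    (e : Fin m →₀ ℕ) : (ntw j z P).coeff e = z ^ e j * P.coeff e := by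
  induction P using MvPolynomial.induction_on' with
  | monomial u c =>
    rw [ntw_monomial, coeff_monomial, coeff_monomial]
    split_ifs with h
    · rw [h]
    · rw [mul_zero]
  | add p q hp hq => rw [map_add, coeff_add, coeff_add, hp, hq, mul_add]

private theorem support_ntw {m : ℕ} (j : Fin m) {z : ℂ} (hz : z ≠ 0)
    (P : MvPolynomial (Fin m) ℂ) : (ntw j z P).support = P.support := by
  ext e
  rw [mem_support_iff, mem_support_iff, coeff_ntw]
  simp [hz]

private theorem ntw_ntw {m : ℕ} (j : Fin m) (z w : ℂ) (P : MvPolynomial (Fin m) ℂ) :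
    ntw j z (ntw j w P) = ntw j (z * w) P := by
  ext e
  rw [coeff_ntw, coeff_ntw, coeff_ntw, mul_pow]
  ring

private theorem ntw_one {m : ℕ} (j : Fin m) (P : MvPolynomial (Fin m) ℂ) : ntw j 1 P = P := by
  ext e
  rw [coeff_ntw, one_pow, one_mul]

/-- The product of all conjugates. -/
private theorem ntw_prod {m : ℕ} (j : Fin m) (ζ : ℂ) (n : ℕ) (hζ : ζ ^ n = 1)
    (P : MvPolynomial (Fin m) ℂ) :
    ntw j ζ (∏ i ∈ Finset.range n, ntw j (ζ ^ i) P) = ∏ i ∈ Finset.range n, ntw j (ζ ^ i) P := by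
  rw [map_prod]
  have h1 : ∀ i ∈ Finset.range n, ntw j ζ (ntw j (ζ ^ i) P) = ntw j (ζ ^ (i + 1)) P := by
    intro i _
    rw [ntw_ntw, pow_succ']
  rw [Finset.prod_congr rfl h1]
  rcases n with _ | n
  · simp
  · rw [Finset.prod_range_succ, Finset.prod_range_succ', hζ, pow_zero]

/-- A polynomial all of whose exponents of `X j` are multiples of `k j` takes its value in the
subalgebra of the other coordinates. -/
private theorem eval_mem (F : FD s k K) (j : Fin (s + 3)) (P : MvPolynomial (Fin (s + 3)) ℂ)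
    (hP : ∀ e ∈ P.support, k j ∣ e j) :
    aeval F.X P ∈ (aeval (fun i => F.X (j.succAbove i)) :
      MvPolynomial (Fin (s + 2)) ℂ →ₐ[ℂ] K).range := by
  set S := (aeval (fun i => F.X (j.succAbove i)) :
      MvPolynomial (Fin (s + 2)) ℂ →ₐ[ℂ] K).range with hS
  have hX : ∀ l : Fin (s + 2), F.X (j.succAbove l) ∈ S := by
    intro l
    exact ⟨X l, by simp⟩
  have hk : F.X j ^ k j ∈ S := by
    have h1 : F.X j ^ k j = -(1 + ∑ l, F.X (j.succAbove l) ^ k (j.succAbove l)) := by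
      have h2 := F.rel
      rw [Fin.sum_univ_succAbove _ j] at h2
      linear_combination h2
    rw [h1]
    exact neg_mem (add_mem (one_mem _) (sum_mem fun l _ => pow_mem (hX l) _))
  rw [P.as_sum, map_sum]
  apply sum_mem
  intro e he
  rw [aeval_monomial, Finsupp.prod_fintype _ _ (fun i => pow_zero _),
    Fin.prod_univ_succAbove _ j]
  refine mul_mem (S.algebraMap_mem _) (mul_mem ?_ (prod_mem fun l _ => pow_mem (hX l) _))
  obtain ⟨m, hm⟩ := hP e he
  rw [hm, pow_mul]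
  exact pow_mem hk m

/-- Reduced nonzero polynomials do not vanish on the hypersurface. -/
private theorem red_ne (hw : Wt s k a d) (F : FD s k K) (E : DVal K) (hE : IsDeg F a E)
    (j : Fin (s + 3)) (P : MvPolynomial (Fin (s + 3)) ℂ) (hP : P ≠ 0) (hj : degreeOf j P < k j) :
    aeval F.X P ≠ 0 := by
  intro h0
  obtain ⟨l, hl⟩ : ∃ l : Fin (s + 3), l ≠ j := exists_ne j
  have h1 : P * X l ≠ 0 := mul_ne_zero hP (X_ne_zero l)
  have h2 : degreeOf j (P * X l) < k j := by
    have h3 := degreeOf_mul_le j P (X l)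
    rw [degreeOf_X, if_neg (Ne.symm hl), add_zero] at h3
    omega
  have h3 := hE.red j (P * X l) h1 h2
  rw [map_mul, h0, zero_mul, E.zero] at h3
  have h4 : weightedTotalDegree a (P * X l) = 0 := by omega
  obtain ⟨e, he⟩ := ne_zero_iff.1 hP
  have h5 : e + Finsupp.single l 1 ∈ (P * X l).support := by
    rw [mem_support_iff, coeff_mul_X]
    exact he
  have h6 := le_weightedTotalDegree a h5
  rw [h4, map_add, Finsupp.weight_single, one_smul] at h6
  have h7 := hw.a_pos l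
  omega

/-- The norm: `h` times its conjugates is a polynomial in the other coordinates. -/
theorem exists_norm (hw : Wt s k a d) (F : FD s k K) (E : DVal K) (hE : IsDeg F a E)
    (j₀ : Fin (s + 3)) (h : K) (hh : h ∈ F.A) (h0 : h ≠ 0) :
    ∃ (Q : MvPolynomial (Fin (s + 2)) ℂ) (T : Fin (k j₀ - 1) → MvPolynomial (Fin (s + 3)) ℂ),
      aeval (fun i => F.X (j₀.succAbove i)) Q = h * ∏ i, aeval F.X (T i) ∧
      ∀ i, aeval F.X (T i) ≠ 0 ∧ E.v (aeval F.X (T i)) = E.v h ∧
        ((weightedTotalDegree a (T i) : ℕ) : ℤ) = - E.v h := by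
  obtain ⟨P, hP0, hPh, hPj, hPE⟩ := hE.exists_rep hw j₀ h hh h0
  have hk0 : k j₀ ≠ 0 := (hw.k_pos j₀).ne'
  set ζ : ℂ := Complex.exp (2 * Real.pi * Complex.I / (k j₀ : ℕ)) with hζ
  have hprim : IsPrimitiveRoot ζ (k j₀) := Complex.isPrimitiveRoot_exp _ hk0
  have hζ0 : ζ ≠ 0 := Complex.exp_ne_zero _
  set N := ∏ i ∈ Finset.range (k j₀), ntw j₀ (ζ ^ i) P with hN
  have hfix : ntw j₀ ζ N = N := ntw_prod j₀ ζ _ hprim.pow_eq_one P
  have hsupp : ∀ e ∈ N.support, k j₀ ∣ e j₀ := by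
    intro e he
    have h1 := coeff_ntw j₀ ζ N e
    rw [hfix] at h1
    have h2 : N.coeff e ≠ 0 := mem_support_iff.1 he
    have h3 : ζ ^ e j₀ = 1 := by
      apply mul_right_cancel₀ h2
      rw [one_mul]
      exact h1.symm
    exact (hprim.pow_eq_one_iff_dvd _).1 h3
  obtain ⟨Q, hQ⟩ := eval_mem F j₀ N hsupp
  refine ⟨Q, fun i => ntw j₀ (ζ ^ ((i : ℕ) + 1)) P, ?_, ?_⟩
  · have hQ' : aeval (fun i => F.X (j₀.succAbove i)) Q = aeval F.X N := hQ
    have hk1 : k j₀ = k j₀ - 1 + 1 := by omega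
    rw [hQ', hN, map_prod, hk1, Finset.prod_range_succ', pow_zero, ntw_one, hPh, mul_comm]
    congr 1
    exact Finset.prod_range (fun i => aeval F.X (ntw j₀ (ζ ^ (i + 1)) P))
  · intro i
    have hz : ζ ^ ((i : ℕ) + 1) ≠ 0 := pow_ne_zero _ hζ0
    have hs := support_ntw j₀ hz P
    have h1 : ntw j₀ (ζ ^ ((i : ℕ) + 1)) P ≠ 0 := by
      rw [← support_nonempty, hs, support_nonempty]
      exact hP0
    have h2 : degreeOf j₀ (ntw j₀ (ζ ^ ((i : ℕ) + 1)) P) = degreeOf j₀ P := by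
      rw [degreeOf_eq_sup, degreeOf_eq_sup, hs]
    have h3 : weightedTotalDegree a (ntw j₀ (ζ ^ ((i : ℕ) + 1)) P) = weightedTotalDegree a P := by
      unfold weightedTotalDegree
      rw [hs]
    have h4 : degreeOf j₀ (ntw j₀ (ζ ^ ((i : ℕ) + 1)) P) < k j₀ := by rw [h2]; exact hPj
    refine ⟨red_ne hw F E hE j₀ _ h1 h4, ?_, ?_⟩
    · rw [hE.red j₀ _ h1 h4, h3, hPE]
    · rw [h3, hPE, neg_neg]

end Pool.Agent.FR
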