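import Pool.Agent.FR.Stable
import Pool.Agent.FR.Norm
import Pool.Agent.FR.Kord

/-!
# Algebraically independent residues (project FR, row K10a)
-/

set_option autoImplicit false

namespace Pool.Agent.FR

open MvPolynomial
open scoped Classical

variable {s : ℕ} {k a : Fin (s + 3) → ℕ} {d : ℕ} {K : Type} [Field K] [Algebra ℂ K]

/-- Some coordinate is a unit along `D`. -/
private theorem ki_exists_X (hw : Wt s k a d) (F : FD s k K) (D : DVal K)
    (hD : ∀ j, 0 ≤ D.v (F.X j)) : ∃ j, D.v (F.X j) = 0 := by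
  by_contra hne
  push Not at hne
  have h1 : ∀ j, 1 ≤ D.v (F.X j) := by
    intro j
    have h2 := hD j
    have h3 := hne j
    omega
  have h2 : ∑ j, F.X j ^ k j = 0 ∨ 1 ≤ D.v (∑ j, F.X j ^ k j) := by
    refine D.sum_ge _ _ _ fun j _ => Or.inr ?_
    rw [D.pow (F.X_ne hw j)]
    have h3 := hw.hk j
    have h4 : (1 : ℤ) ≤ (k j : ℤ) := by omega
    nlinarith [h1 j]
  have h3 : ∑ j, F.X j ^ k j = -1 := by
    have := F.rel
    linear_combination this
  rw [h3, D.negOne] at h2
  rcases h2 with h2 | h2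
  · norm_num at h2
  · omega

/-- Elements of the maximal ideal are multiples of a uniformizer. -/
private theorem ki_mul (D : DVal K) {p : K} (hp0 : p ≠ 0) (hp1 : D.v p = 1) {x : K}
    (hx : x = 0 ∨ 0 < D.v x) : ∃ y ∈ D.ring, x = p * y := by
  rcases hx with rfl | hx
  · exact ⟨0, D.ring.zero_mem, (mul_zero _).symm⟩
  have hx0 : x ≠ 0 := D.ne_zero_of_v (by omega)
  refine ⟨x / p, ?_, by field_simp⟩
  rw [D.mem_ring', D.div' hx0 hp0, hp1]
  omega

private theorem ki_mem (D : DVal K) {x : K} (hx : x ∈ D.ring) : x = 0 ∨ 0 ≤ D.v x := hx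

/-- If `ω` has order `0` along `D` then the residue field has transcendence degree `n - 1`. -/
theorem exists_indep (hw : Wt s k a d) (F : FD s k K)
    (B : Module.Basis (Fin (s + 2)) K (Derivation ℂ K K)) (hB : IsOmega F B) (E : DVal K)
    (hE : IsDeg F a E) (D : DVal K) (hD : ∀ j, 0 ≤ D.v (F.X j)) (hk : kord B D = 0) :
    ∃ w : Fin (s + 1) → K, (∀ i, w i ∈ F.A) ∧
      ∀ P : MvPolynomial (Fin (s + 1)) ℂ, P ≠ 0 → aeval w P ≠ 0 ∧ D.v (aeval w P) = 0 := by
  obtain ⟨j₀, hj₀⟩ := ki_exists_X hw F D hD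
  obtain ⟨dd, hdd⟩ := F.exists_dual hw j₀
  set u : Fin (s + 2) → K := fun m => F.X (j₀.succAbove m) with hu
  have huA : ∀ m, u m ∈ F.A := fun m => F.X_mem _
  have hu0 : ∀ m, 0 ≤ D.v (u m) := fun m => hD _
  have hjac0 : jac B u ≠ 0 := jac_X_ne hw F B hB j₀
  have hjacv : D.v (jac B u) = 0 := by
    have h1 := v_jac_X hw F B hB D j₀
    rw [hj₀, mul_zero] at h1
    exact h1
  -- the dual derivations preserve the ring of `D`
  have hring : ∀ l, ∀ h ∈ D.ring, dd l h ∈ D.ring := by
    intro l h hh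
    by_cases h0 : dd l h = 0
    · rw [h0]; exact D.ring.zero_mem
    have h1 := F.jac_update hw B j₀ dd hdd l h
    have h2 : jac B (Function.update u l h) ≠ 0 := by
      rw [h1]
      exact mul_ne_zero h0 hjac0
    have h3 := kord_le B D (Function.update u l h) (fun m => by
      by_cases hm : m = l
      · rw [hm, Function.update_self]; exact hh
      · rw [Function.update_of_ne hm]; exact D.mem_ring'.2 (hu0 m)) h2
    rw [h1, D.mul _ _ h0 hjac0, hk] at h3
    rw [D.mem_ring']
    have h4 : D.v (jac B fun m => F.X (j₀.succAbove m)) = 0 := hjacv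
    rw [h4] at h3
    omega
  obtain ⟨p, hp0, hp1⟩ := D.unif
  have hpr : p ∈ D.ring := D.mem_ring'.2 (by omega)
  -- products with a uniformizer
  have hpm : ∀ y ∈ D.ring, p * y = 0 ∨ 0 < D.v (p * y) := by
    intro y hy
    by_cases hy0 : y = 0
    · left; rw [hy0, mul_zero]
    right
    rw [D.mul _ _ hp0 hy0, hp1]
    have := D.mem_ring'.1 hy
    omega
  -- a coordinate derivation of `p` is a unit
  have hex : ∃ l₁, dd l₁ p ≠ 0 ∧ D.v (dd l₁ p) = 0 := by
    by_contra hne
    push Not at hne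
    have hm : ∀ l, dd l p = 0 ∨ 0 < D.v (dd l p) := by
      intro l
      by_cases h0 : dd l p = 0
      · exact Or.inl h0
      right
      have h1 := D.mem_ring'.1 (hring l p hpr)
      have h2 := hne l h0
      omega
    have hst : ∀ l x, (x = 0 ∨ 0 < D.v x) → (dd l x = 0 ∨ 0 < D.v (dd l x)) := by
      intro l x hx
      obtain ⟨y, hy, rfl⟩ := ki_mul D hp0 hp1 hx
      rw [(dd l).leibniz, smul_eq_mul, smul_eq_mul]
      have h1 : p * dd l y = 0 ∨ 1 ≤ D.v (p * dd l y) := hpm _ (hring l y hy)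
      have h2 : y * dd l p = 0 ∨ 0 + 1 ≤ D.v (y * dd l p) := D.mul_ge (ki_mem D hy) (hm l)
      rw [zero_add] at h2
      exact D.add_ge h1 h2
    -- an element of the coordinate ring which vanishes along `D`
    obtain ⟨x, hx, y, hy, hy0, hxy⟩ := F.frac' p
    have hx0 : x ≠ 0 := by
      rintro rfl
      rw [zero_div] at hxy
      exact hp0 hxy
    have hxv : 0 < D.v x := by
      have h1 := hp1
      rw [hxy, D.div' hx0 hy0] at h1
      have h2 := F.v_nonneg D hD hy
      omega
    obtain ⟨Q, T, hQ, hT⟩ := exists_norm hw F E hE j₀ x hx hx0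
    have hprod : ∏ i, aeval F.X (T i) ≠ 0 := Finset.prod_ne_zero_iff.2 fun i _ => (hT i).1
    have hQ0 : Q ≠ 0 := by
      rintro rfl
      rw [map_zero] at hQ
      exact mul_ne_zero hx0 hprod hQ.symm
    obtain ⟨-, h2⟩ := indep_of_stable D u hu0 dd hst (fun l m hml => by
      have := hdd l m
      rw [if_neg (fun h => hml h.symm)] at this
      exact this) (fun l => by
      have h1 : dd l (u l) = 1 := by
        have := hdd l l
        rw [if_pos rfl] at this
        exact this
      rw [h1]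
      exact ⟨one_ne_zero, D.one⟩) Q hQ0
    have h3 : aeval u Q = x * ∏ i, aeval F.X (T i) := hQ
    rw [h3, D.mul _ _ hx0 hprod, D.prod _ _ (fun i _ => (hT i).1)] at h2
    have h4 : 0 ≤ ∑ i, D.v (aeval F.X (T i)) :=
      Finset.sum_nonneg fun i _ => F.v_nonneg D hD ⟨T i, rfl⟩
    omega
  obtain ⟨l₁, hl0, hlv⟩ := hex
  set q : K := dd l₁ p with hq
  -- the modified derivations
  set δ : Fin (s + 1) → Derivation ℂ K K := fun l =>
    q • dd (l₁.succAbove l) - (dd (l₁.succAbove l) p) • dd l₁ with hδdef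
  have hδ : ∀ l x, δ l x = q * dd (l₁.succAbove l) x - dd (l₁.succAbove l) p * dd l₁ x := by
    intro l x
    rw [hδdef]
    simp only [Derivation.sub_apply, Derivation.smul_apply, smul_eq_mul]
  have hδp : ∀ l, δ l p = 0 := by
    intro l
    rw [hδ]
    ring
  have hqr : q ∈ D.ring := hring l₁ p hpr
  have hδr : ∀ l, ∀ y ∈ D.ring, δ l y ∈ D.ring := by
    intro l y hy
    rw [hδ]
    exact sub_mem (mul_mem hqr (hring _ y hy)) (mul_mem (hring _ p hpr) (hring _ y hy))
  refine ⟨fun i => u (l₁.succAbove i), fun i => huA _, fun P hP => ?_⟩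
  refine indep_of_stable D (fun i => u (l₁.succAbove i)) (fun i => hu0 _) δ ?_ ?_ ?_ P hP
  · intro l x hx
    obtain ⟨y, hy, rfl⟩ := ki_mul D hp0 hp1 hx
    rw [(δ l).leibniz, hδp, smul_zero, add_zero, smul_eq_mul]
    exact hpm _ (hδr l y hy)
  · intro l m hml
    rw [hδ]
    have h1 : dd (l₁.succAbove l) (u (l₁.succAbove m)) = 0 := by
      have := hdd (l₁.succAbove l) (l₁.succAbove m)
      rw [if_neg (fun h => hml (Fin.succAbove_right_injective h).symm)] at this
      exact this
    have h2 : dd l₁ (u (l₁.succAbove m)) = 0 := by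
      have := hdd l₁ (l₁.succAbove m)
      rw [if_neg (fun h => Fin.succAbove_ne l₁ m h.symm)] at this
      exact this
    rw [h1, h2]
    ring
  · intro l
    have h1 : dd (l₁.succAbove l) (u (l₁.succAbove l)) = 1 := by
      have := hdd (l₁.succAbove l) (l₁.succAbove l)
      rw [if_pos rfl] at this
      exact this
    have h2 : dd l₁ (u (l₁.succAbove l)) = 0 := by
      have := hdd l₁ (l₁.succAbove l)
      rw [if_neg (fun h => Fin.succAbove_ne l₁ l h.symm)] at this
      exact this
    have h3 : δ l (u (l₁.succAbove l)) = q := by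
      rw [hδ, h1, h2]
      ring
    rw [h3]
    exact ⟨hl0, hlv⟩

end Pool.Agent.FR
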