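import Pool.Agent.FR.Dual
import Pool.Agent.FR.Val

/-! # First facts on the coordinates of the hypersurface -/

set_option autoImplicit false

namespace Pool.Agent.FR

open MvPolynomial

variable {s : ℕ} {k a : Fin (s + 3) → ℕ} {d : ℕ} {K : Type} [Field K] [Algebra ℂ K]

theorem FD.X_mem (F : FD s k K) (j : Fin (s + 3)) : F.X j ∈ F.A := ⟨MvPolynomial.X j, by simp⟩

theorem FD.mem_A {F : FD s k K} {h : K} : h ∈ F.A ↔ ∃ P : MvPolynomial (Fin (s + 3)) ℂ, aeval F.X P = h := Iff.rfl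

/-- Elements of `K` are quotients of elements of the coordinate ring. -/
theorem FD.frac' (F : FD s k K) (x : K) : ∃ p ∈ F.A, ∃ q ∈ F.A, q ≠ 0 ∧ x = p / q := by
  obtain ⟨P, Q, hQ, h⟩ := F.frac x
  exact ⟨_, ⟨P, rfl⟩, _, ⟨Q, rfl⟩, hQ, h⟩

theorem jac_X_ne (hw : Wt s k a d) (F : FD s k K)
    (B : Module.Basis (Fin (s + 2)) K (Derivation ℂ K K)) (hB : IsOmega F B) (j : Fin (s + 3)) :
    jac B (fun i => F.X (j.succAbove i)) ≠ 0 := by
  obtain ⟨c, hc, h⟩ := hB j
  rw [h]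
  exact mul_ne_zero (by rwa [Ne, map_eq_zero]) (pow_ne_zero _ (F.X_ne hw j))

theorem v_jac_X (hw : Wt s k a d) (F : FD s k K)
    (B : Module.Basis (Fin (s + 2)) K (Derivation ℂ K K)) (hB : IsOmega F B) (D : DVal K)
    (j : Fin (s + 3)) :
    D.v (jac B (fun i => F.X (j.succAbove i))) = ((k j : ℤ) - 1) * D.v (F.X j) := by
  obtain ⟨c, hc, h⟩ := hB j
  rw [h, D.const_mul hc, D.pow (F.X_ne hw j)]
  have := hw.hk j
  push_cast [Nat.cast_sub (show 1 ≤ k j by omega)]
  rfl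

/-- Elements of the coordinate ring have nonnegative valuation if the coordinates have. -/
theorem FD.v_nonneg (F : FD s k K) (D : DVal K) (hD : ∀ j, 0 ≤ D.v (F.X j)) {h : K}
    (hh : h ∈ F.A) : 0 ≤ D.v h := by
  obtain ⟨P, rfl⟩ := hh
  have h1 : ∀ P : MvPolynomial (Fin (s + 3)) ℂ, (aeval F.X P : K) ∈ D.ring := by
    intro P
    induction P using MvPolynomial.induction_on with
    | C c => rw [aeval_C]; exact D.isPlace c
    | add p q hp hq => rw [map_add]; exact add_mem hp hq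
    | mul_X p i hp => rw [map_mul, aeval_X]; exact mul_mem hp (D.mem_ring'.2 (hD i))
  exact D.mem_ring'.1 (h1 P)

end Pool.Agent.FR
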