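import Pool.Agent.FR.GpPrime

/-!
# Block U, row 1: no coprime solution of `Y ^ 2 + X ^ 3 + b Z ^ 6 = 0`
-/

set_option autoImplicit false

namespace Pool.Agent.FR.U

open MvPolynomial

section degree

variable {m : ℕ} (w : Fin m → ℕ)

/-- the substitution `z_j ↦ T ^ (w j) z_j` -/
private noncomputable def msPhi :
    MvPolynomial (Fin m) ℂ →ₐ[ℂ] Polynomial (MvPolynomial (Fin m) ℂ) :=
  aeval fun j => Polynomial.C (X j) * Polynomial.X ^ w j

private def msWt (s : Fin m →₀ ℕ) : ℕ := ∑ j, s j * w j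

private theorem msPhi_monomial (u : Fin m →₀ ℕ) (a : ℂ) :
    msPhi w (monomial u a) = Polynomial.C (monomial u a) * Polynomial.X ^ msWt w u := by
  unfold msPhi msWt
  rw [aeval_monomial, Finsupp.prod_fintype _ _ (fun _ => pow_zero _), monomial_eq,
    Finsupp.prod_fintype _ _ (fun _ => pow_zero _), map_mul, map_prod, ← Finset.prod_pow_eq_pow_sum,
    mul_assoc, ← Finset.prod_mul_distrib]
  congr 1
  refine Finset.prod_congr rfl fun j _ => ?_
  rw [mul_pow, map_pow, ← pow_mul, mul_comm (w j)]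

private theorem ms_coeff (f : MvPolynomial (Fin m) ℂ) (N : ℕ) (s : Fin m →₀ ℕ) :
    coeff s ((msPhi w f).coeff N) = if msWt w s = N then coeff s f else 0 := by
  classical
  induction f using MvPolynomial.induction_on' with
  | monomial u a =>
    rw [msPhi_monomial, Polynomial.coeff_C_mul, Polynomial.coeff_X_pow, mul_ite, mul_one, mul_zero,
      coeff_monomial]
    by_cases h : u = s
    · subst h
      by_cases h1 : N = msWt w u
      · rw [if_pos h1, if_pos h1.symm, if_pos rfl, coeff_monomial, if_pos rfl]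
      · rw [if_neg h1, if_neg (Ne.symm h1), coeff_zero]
    · rw [if_neg h, ite_self]
      split_ifs
      · rw [coeff_monomial, if_neg h]
      · rw [coeff_zero]
  | add p q hp hq =>
    rw [map_add, Polynomial.coeff_add, coeff_add, hp, hq, coeff_add]
    split_ifs
    · rfl
    · rw [add_zero]

private noncomputable def msD (f : MvPolynomial (Fin m) ℂ) : ℕ := (msPhi w f).natDegree

private theorem msPhi_ne {f : MvPolynomial (Fin m) ℂ} (hf : f ≠ 0) : msPhi w f ≠ 0 := by
  obtain ⟨s, hs⟩ := MvPolynomial.ne_zero_iff.1 hf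
  intro h
  have h1 := ms_coeff w f (msWt w s) s
  rw [h, Polynomial.coeff_zero, coeff_zero, if_pos rfl] at h1
  exact hs h1.symm

private theorem msD_ge {f : MvPolynomial (Fin m) ℂ} {s : Fin m →₀ ℕ} (hs : coeff s f ≠ 0) :
    msWt w s ≤ msD w f := by
  refine Polynomial.le_natDegree_of_ne_zero fun h => hs ?_
  have h1 := ms_coeff w f (msWt w s) s
  rw [h, coeff_zero, if_pos rfl] at h1
  exact h1.symm

private theorem msD_exists {f : MvPolynomial (Fin m) ℂ} (hf : f ≠ 0) :
    ∃ s, coeff s f ≠ 0 ∧ msWt w s = msD w f := by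
  have h1 : (msPhi w f).coeff (msD w f) ≠ 0 := by
    have h2 := Polynomial.leadingCoeff_ne_zero.2 (msPhi_ne w hf)
    exact h2
  obtain ⟨s, hs⟩ := MvPolynomial.ne_zero_iff.1 h1
  rw [ms_coeff] at hs
  by_cases h : msWt w s = msD w f
  · rw [if_pos h] at hs
    exact ⟨s, hs, h⟩
  · rw [if_neg h] at hs
    exact absurd rfl hs

private theorem msD_mul {f g : MvPolynomial (Fin m) ℂ} (hf : f ≠ 0) (hg : g ≠ 0) :
    msD w (f * g) = msD w f + msD w g := by
  unfold msD
  rw [map_mul, Polynomial.natDegree_mul (msPhi_ne w hf) (msPhi_ne w hg)]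

private theorem msD_pow (f : MvPolynomial (Fin m) ℂ) (n : ℕ) :
    msD w (f ^ n) = n * msD w f := by
  unfold msD
  rw [map_pow, Polynomial.natDegree_pow]

private theorem msD_add (f g : MvPolynomial (Fin m) ℂ) :
    msD w (f + g) ≤ max (msD w f) (msD w g) := by
  unfold msD
  rw [map_add]
  exact Polynomial.natDegree_add_le _ _

private theorem msD_X_pow (i : Fin m) (n : ℕ) : n * w i ≤ msD w (X i ^ n) := by
  have h1 : coeff (Finsupp.single i n) (X i ^ n : MvPolynomial (Fin m) ℂ) ≠ 0 := by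
    rw [X_pow_eq_monomial, coeff_monomial, if_pos rfl]
    exact one_ne_zero
  have h2 := msD_ge w h1
  have h3 : msWt w (Finsupp.single i n) = n * w i := by
    unfold msWt
    rw [Finset.sum_eq_single i]
    · rw [Finsupp.single_eq_same]
    · intro j _ hj
      rw [Finsupp.single_eq_of_ne hj, zero_mul]
    · intro h
      exact absurd (Finset.mem_univ i) h
  rwa [h3] at h2

private theorem msWt_add_single (s : Fin m →₀ ℕ) (i : Fin m) :
    msWt w (s + Finsupp.single i 1) = msWt w s + w i := by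
  unfold msWt
  simp only [Finsupp.add_apply, add_mul, Finset.sum_add_distrib]
  congr 1
  rw [Finset.sum_eq_single i]
  · rw [Finsupp.single_eq_same, one_mul]
  · intro j _ hj
    rw [Finsupp.single_eq_of_ne hj, zero_mul]
  · intro h
    exact absurd (Finset.mem_univ i) h

private theorem msD_pderiv {f : MvPolynomial (Fin m) ℂ} {i : Fin m} (h : pderiv i f ≠ 0) :
    msD w (pderiv i f) + w i ≤ msD w f := by
  obtain ⟨s, hs, h1⟩ := msD_exists w h
  rw [coeff_pderiv] at hs
  have h2 := msD_ge w (left_ne_zero_of_mul hs)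
  rw [msWt_add_single] at h2
  omega

private theorem msD_degreeOf (f : MvPolynomial (Fin m) ℂ) (i : Fin m) :
    degreeOf i f * w i ≤ msD w f := by
  classical
  by_cases hf : f = 0
  · rw [hf, degreeOf_zero, zero_mul]
    exact Nat.zero_le _
  have h1 : f.support.Nonempty := by
    rwa [Finset.nonempty_iff_ne_empty, Ne, MvPolynomial.support_eq_empty]
  obtain ⟨s, hs, h2⟩ := Finset.exists_mem_eq_sup f.support h1 (fun s => s i)
  rw [degreeOf_eq_sup, h2]
  refine le_trans ?_ (msD_ge w (MvPolynomial.mem_support_iff.1 hs))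
  unfold msWt
  exact Finset.single_le_sum (f := fun j => s j * w j) (fun _ _ => Nat.zero_le _)
    (Finset.mem_univ i)

private theorem msD_gp {k : Fin m → ℕ} {N : ℕ} (hkw : ∀ j, k j * w j = N) : msD w (gp k) ≤ N := by
  unfold msD msPhi gp
  rw [map_add, map_one, map_sum]
  refine (Polynomial.natDegree_add_le _ _).trans (max_le ?_ ?_)
  · rw [Polynomial.natDegree_one]
    exact Nat.zero_le _
  · refine Polynomial.natDegree_sum_le_of_forall_le _ _ fun j _ => ?_
    rw [map_pow, aeval_X, mul_pow, ← pow_mul, mul_comm (w j), hkw j, ← map_pow]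
    exact Polynomial.natDegree_C_mul_X_pow_le _ _

/-- degree bound, with the convention that `0` satisfies every bound -/
private def MsB (f : MvPolynomial (Fin m) ℂ) (N : ℤ) : Prop := f = 0 ∨ (msD w f : ℤ) ≤ N

private theorem MsB.mul {w : Fin m → ℕ} {f g : MvPolynomial (Fin m) ℂ} {M N : ℤ} (hf : MsB w f M)
    (hg : MsB w g N) : MsB w (f * g) (M + N) := by
  by_cases h1 : f = 0
  · left; rw [h1, zero_mul]
  by_cases h2 : g = 0
  · left; rw [h2, mul_zero]
  right
  rw [msD_mul w h1 h2]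
  have h3 := hf.resolve_left h1
  have h4 := hg.resolve_left h2
  push_cast
  linarith

private theorem MsB.add {w : Fin m → ℕ} {f g : MvPolynomial (Fin m) ℂ} {N : ℤ} (hf : MsB w f N)
    (hg : MsB w g N) : MsB w (f + g) N := by
  by_cases h1 : f = 0
  · rw [h1, zero_add]; exact hg
  by_cases h2 : g = 0
  · rw [h2, add_zero]; exact hf
  right
  have h3 := hf.resolve_left h1
  have h4 := hg.resolve_left h2
  have h5 := msD_add w f g
  have h6 : ((msD w (f + g) : ℕ) : ℤ) ≤ ((max (msD w f) (msD w g) : ℕ) : ℤ) := by exact_mod_cast h5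
  refine h6.trans ?_
  rw [Nat.cast_max]
  exact max_le h3 h4

private theorem MsB.neg {w : Fin m → ℕ} {f : MvPolynomial (Fin m) ℂ} {N : ℤ} (hf : MsB w f N) :
    MsB w (-f) N := by
  rcases hf with h | h
  · left; rw [h, neg_zero]
  · right
    have : msD w (-f) = msD w f := by
      unfold msD
      rw [map_neg, Polynomial.natDegree_neg]
    rw [this]
    exact h

private theorem MsB.mono {w : Fin m → ℕ} {f : MvPolynomial (Fin m) ℂ} {M N : ℤ} (hf : MsB w f M)
    (h : M ≤ N) : MsB w f N := hf.imp id fun h1 => h1.trans h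

private theorem MsB.self (f : MvPolynomial (Fin m) ℂ) : MsB w f (msD w f) := Or.inr le_rfl

private theorem MsB.const (c : ℂ) : MsB w (C c) 0 := by
  right
  have h : msD w (C c : MvPolynomial (Fin m) ℂ) = 0 := by
    unfold msD msPhi
    rw [aeval_C]
    exact Polynomial.natDegree_C _
  rw [h]
  exact le_rfl

private theorem MsB.pderiv {w : Fin m → ℕ} {f : MvPolynomial (Fin m) ℂ} {N : ℤ} (i : Fin m)
    (hf : MsB w f N) : MsB w (pderiv i f) (N - w i) := by
  by_cases h : MvPolynomial.pderiv i f = 0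
  · exact Or.inl h
  · right
    have h1 := msD_pderiv w h
    have h2 : f ≠ 0 := by
      rintro rfl
      exact h (map_zero _)
    have h3 := hf.resolve_left h2
    have h4 : ((msD w (MvPolynomial.pderiv i f) : ℕ) : ℤ) + w i ≤ msD w f := by exact_mod_cast h1
    linarith

end degree


section prime

/-- evaluation of `gp` at the origin -/
private theorem ms_eval_zero {n : ℕ} (k : Fin n → ℕ) (hk : ∀ j, 1 ≤ k j) :
    eval (fun _ => (0 : ℂ)) (gp k) = 1 := by
  unfold gp
  rw [map_add, map_one, map_sum, Finset.sum_eq_zero, add_zero]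
  intro j _
  rw [map_pow, eval_X]
  exact zero_pow (by have := hk j; omega)

private theorem ms_not_X_dvd {n : ℕ} (k : Fin n → ℕ) (hk : ∀ j, 1 ≤ k j) (i : Fin n) :
    ¬ X i ∣ gp k := by
  rintro ⟨q, hq⟩
  have h := congrArg (eval (fun _ => (0 : ℂ))) hq
  rw [ms_eval_zero k hk, map_mul, eval_X, zero_mul] at h
  exact one_ne_zero h

private theorem ms_pderiv {n : ℕ} (k : Fin n → ℕ) (i : Fin n) :
    pderiv i (gp k) = C (k i : ℂ) * X i ^ (k i - 1) := by
  classical
  unfold gp
  rw [map_add, map_sum, (pderiv i).map_one_eq_zero, zero_add, Finset.sum_eq_single i]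
  · rw [Derivation.leibniz_pow, pderiv_X_self, smul_eq_mul, mul_one, nsmul_eq_mul, map_natCast]
  · intro j _ hj
    rw [Derivation.leibniz_pow, pderiv_X_of_ne hj, smul_zero, smul_zero]
  · intro h
    exact absurd (Finset.mem_univ i) h

/-- a prime which divides `gp k` does not divide a derivative of `gp k` -/
private theorem ms_not_dvd {n : ℕ} (k : Fin n → ℕ) (hk : ∀ j, 1 ≤ k j) (i : Fin n)
    {p : MvPolynomial (Fin n) ℂ} (hp : Prime p) (h : p ∣ gp k) :
    ¬ p ∣ C (k i : ℂ) * X i ^ (k i - 1) := by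
  intro h1
  rcases hp.dvd_or_dvd h1 with h2 | h2
  · have h3 : IsUnit (C (k i : ℂ) : MvPolynomial (Fin n) ℂ) := by
      refine IsUnit.map C (IsUnit.mk0 _ ?_)
      have := hk i
      exact_mod_cast (by omega : k i ≠ 0)
    exact hp.not_isUnit (isUnit_of_dvd_unit h2 h3)
  · have h3 := hp.dvd_of_dvd_pow h2
    have h4 := (hp.irreducible.associated_of_dvd (X_prime (i := i)).irreducible h3).symm
    exact ms_not_X_dvd k hk i (h4.dvd.trans h)

private theorem ms_not_unit {n : ℕ} (k : Fin (n + 1) → ℕ) (hk : ∀ j, 1 ≤ k j) :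
    ¬ IsUnit (gp k) := by
  obtain ⟨z, hz⟩ := IsAlgClosed.exists_pow_nat_eq (-1 : ℂ) (n := k 0) (by have := hk 0; omega)
  intro h
  have h1 := h.map (eval (fun j : Fin (n + 1) => if j = 0 then z else 0))
  have h2 : eval (fun j : Fin (n + 1) => if j = 0 then z else 0) (gp k) = 0 := by
    unfold gp
    rw [map_add, map_one, map_sum, Fin.sum_univ_succ, Finset.sum_eq_zero, add_zero, map_pow,
      eval_X, if_pos rfl, hz, add_neg_cancel]
    intro j _
    rw [map_pow, eval_X, if_neg (Fin.succ_ne_zero j)]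
    exact zero_pow (by have := hk j.succ; omega)
  rw [h2] at h1
  exact not_isUnit_zero h1

private theorem ms_ne {n : ℕ} (k : Fin n → ℕ) (hk : ∀ j, 1 ≤ k j) : gp k ≠ 0 := by
  intro h
  have h1 := ms_eval_zero k hk
  rw [h, map_zero] at h1
  exact zero_ne_one h1

private theorem ms_irreducible {n : ℕ} (k : Fin (n + 2) → ℕ) (hk : ∀ j, 1 ≤ k j) :
    Irreducible (gp k) := by
  rw [← MulEquiv.irreducible_iff (finSuccEquiv ℂ (n + 1)), finSuccEquiv_gp]
  have hk' : ∀ j : Fin (n + 1), 1 ≤ k j.succ := fun j => hk _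
  obtain ⟨p, hpi, hpc⟩ := WfDvdMonoid.exists_irreducible_factor
    (ms_not_unit (fun j : Fin (n + 1) => k j.succ) hk') (ms_ne _ hk')
  have hp := hpi.prime
  have hk0 : 0 < k 0 := hk 0
  have hmon : (Polynomial.X ^ k 0 + Polynomial.C (gp fun j : Fin (n + 1) => k j.succ)).Monic :=
    Polynomial.monic_X_pow_add_C _ hk0.ne'
  have hdeg : (Polynomial.X ^ k 0 + Polynomial.C (gp fun j : Fin (n + 1) => k j.succ)).degree =
      ((k 0 : ℕ) : WithBot ℕ) := Polynomial.degree_X_pow_add_C hk0 _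
  refine Polynomial.irreducible_of_eisenstein_criterion (P := Ideal.span {p}) ?_ ?_ ?_ ?_ ?_
    hmon.isPrimitive
  · rwa [Ideal.span_singleton_prime hp.ne_zero]
  · rw [hmon.leadingCoeff, Ideal.mem_span_singleton]
    exact fun h => hp.not_isUnit (isUnit_of_dvd_one h)
  · intro N hN
    rw [hdeg] at hN
    have hN' : N < k 0 := by exact_mod_cast hN
    rw [Polynomial.coeff_add, Polynomial.coeff_X_pow, if_neg (by omega), zero_add,
      Polynomial.coeff_C]
    split_ifs
    · exact Ideal.mem_span_singleton.2 hpc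
    · exact Ideal.zero_mem _
  · rw [hdeg]
    exact_mod_cast hk0
  · rw [Polynomial.coeff_add, Polynomial.coeff_X_pow, if_neg (by omega), zero_add,
      Polynomial.coeff_C_zero, Ideal.span_singleton_pow, Ideal.mem_span_singleton]
    rintro ⟨q, hq⟩
    refine ms_not_dvd _ hk' 0 hp hpc ?_
    have hpd := ms_pderiv (fun j : Fin (n + 1) => k j.succ) 0
    refine (?_ : p ∣ pderiv 0 (gp fun j : Fin (n + 1) => k j.succ)).trans hpd.dvd
    rw [hq]
    refine ⟨2 * pderiv 0 p * q + p * pderiv 0 q, ?_⟩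
    rw [Derivation.leibniz, Derivation.leibniz_pow]
    simp only [smul_eq_mul, nsmul_eq_mul, Nat.cast_ofNat]
    ring

end prime

section main

private theorem ms_coeff_gp {n : ℕ} (k : Fin n → ℕ) (hk : ∀ j, 1 ≤ k j) (i : Fin n) :
    coeff (Finsupp.single i (k i)) (gp k) = 1 := by
  classical
  have h0 : (0 : Fin n →₀ ℕ) ≠ Finsupp.single i (k i) := by
    intro h
    have h1 := DFunLike.congr_fun h i
    rw [Finsupp.single_eq_same, Finsupp.zero_apply] at h1
    have := hk i
    omega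
  unfold gp
  rw [coeff_add, coeff_one, if_neg h0, zero_add, coeff_sum, Finset.sum_eq_single i]
  · rw [coeff_X_pow, if_pos rfl]
  · intro j _ hj
    rw [coeff_X_pow, if_neg]
    intro h
    have h1 := DFunLike.congr_fun h j
    rw [Finsupp.single_eq_same, Finsupp.single_eq_of_ne hj] at h1
    have := hk j
    omega
  · intro h
    exact absurd (Finset.mem_univ i) h

variable {m : ℕ}

/-- the derivative of the equation -/
private theorem ms_diff {b x y z : MvPolynomial (Fin m) ℂ} (h : y ^ 2 + x ^ 3 + b * z ^ 6 = 0)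
    (i : Fin m) : y * (3 * y * pderiv i x - 2 * x * pderiv i y) =
      z ^ 5 * (-(3 * b * z * pderiv i x) + x * z * pderiv i b + 6 * x * b * pderiv i z) := by
  have h1 := congrArg (pderiv i) h
  rw [map_add, map_add, Derivation.leibniz, Derivation.leibniz_pow, Derivation.leibniz_pow,
    Derivation.leibniz_pow, map_zero] at h1
  simp only [smul_eq_mul, nsmul_eq_mul, Nat.cast_ofNat] at h1
  linear_combination (3 * pderiv i x) * h - x * h1

/-- the divisibility step -/
private theorem ms_wedge {b x y z g g' : MvPolynomial (Fin m) ℂ} (hb : Prime b) (hby : ¬ b ∣ y)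
    (i j : Fin m)
    (hg : y * g = -(3 * b * z * pderiv i x) + x * z * pderiv i b + 6 * x * b * pderiv i z)
    (hg' : y * g' = -(3 * b * z * pderiv j x) + x * z * pderiv j b + 6 * x * b * pderiv j z) :
    b ∣ g * pderiv j b - g' * pderiv i b := by
  have h1 : b ∣ y * (g * pderiv j b - g' * pderiv i b) := by
    refine ⟨(-(3 * z * pderiv i x) + 6 * x * pderiv i z) * pderiv j b -
      (-(3 * z * pderiv j x) + 6 * x * pderiv j z) * pderiv i b, ?_⟩
    linear_combination (pderiv j b) * hg - (pderiv i b) * hg'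
  exact (hb.dvd_or_dvd h1).resolve_left hby

/-- one vanishing derivative is impossible -/
private theorem ms_final {b x z : MvPolynomial (Fin m) ℂ} (hb : Prime b) (hbx : ¬ b ∣ x)
    (hz : z ≠ 0) (i : Fin m) (hi : ¬ b ∣ pderiv i b)
    (h : -(3 * b * z * pderiv i x) + x * z * pderiv i b + 6 * x * b * pderiv i z = 0) : False := by
  obtain ⟨e, z', hz', rfl⟩ : ∃ (e : ℕ) (z' : MvPolynomial (Fin m) ℂ), ¬ b ∣ z' ∧
      z = b ^ e * z' := by
    obtain ⟨z', h1, h2⟩ := (FiniteMultiplicity.of_not_isUnit hb.not_isUnit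
      hz).exists_eq_pow_mul_and_not_dvd
    exact ⟨_, _, h2, h1⟩
  have h1 : b * pderiv i (b ^ e) = e * b ^ e * pderiv i b := by
    rw [Derivation.leibniz_pow, smul_eq_mul, nsmul_eq_mul]
    rcases e with _ | e
    · simp
    · rw [Nat.add_sub_cancel]
      ring
  have h2 : b ^ e * (-(3 * b * z' * pderiv i x) + (1 + 6 * e) * (x * z' * pderiv i b) +
      6 * x * b * pderiv i z') = 0 := by
    rw [Derivation.leibniz, smul_eq_mul, smul_eq_mul] at h
    linear_combination h + (-6 * x * z') * h1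
  have h3 := (mul_eq_zero.1 h2).resolve_left (pow_ne_zero _ hb.ne_zero)
  have h4 : b ∣ (1 + 6 * e) * (x * z' * pderiv i b) := by
    refine ⟨3 * z' * pderiv i x - 6 * x * pderiv i z', ?_⟩
    linear_combination h3
  rcases hb.dvd_or_dvd h4 with h5 | h5
  · have h6 : IsUnit ((1 + 6 * e : ℕ) : MvPolynomial (Fin m) ℂ) := by
      rw [← map_natCast (C : ℂ →+* MvPolynomial (Fin m) ℂ)]
      refine IsUnit.map C (IsUnit.mk0 _ ?_)
      exact_mod_cast (by omega : 1 + 6 * e ≠ 0)
    refine hb.not_isUnit (isUnit_of_dvd_unit ?_ h6)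
    push_cast
    exact h5
  · rcases hb.dvd_or_dvd h5 with h6 | h6
    · rcases hb.dvd_or_dvd h6 with h7 | h7
      · exact hbx h7
      · exact hz' h7
    · exact hi h6

/-- THE MASON TYPE THEOREM -/
theorem mason {m : ℕ} (hm : 3 ≤ m) {k w : Fin m → ℕ} {D : ℕ} (hkw : ∀ j, k j * w j = 6 * D)
    (hD : 0 < D) (hk : ∀ j, 2 ≤ k j) {X Y Z : MvPolynomial (Fin m) ℂ} (hZ : Z ≠ 0)
    (hYZ : IsRelPrime Y Z) : Y ^ 2 + X ^ 3 + gp k * Z ^ 6 ≠ 0 := by
  intro hE
  have hk1 : ∀ j, 1 ≤ k j := fun j => by have := hk j; omega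
  -- `b` is prime
  have hb : Prime (gp k) := by
    obtain ⟨n, rfl⟩ : ∃ n, m = n + 2 := ⟨m - 2, by omega⟩
    exact (ms_irreducible k hk1).prime
  -- `b` does not divide `Y`, `X`
  have hbY : ¬ gp k ∣ Y := by
    intro h1
    have h2 : gp k ∣ X ^ 3 := by
      obtain ⟨q, hq⟩ := h1
      refine ⟨-(q * Y + Z ^ 6), ?_⟩
      linear_combination hE - Y * hq
    obtain ⟨q, hq⟩ := h1
    obtain ⟨r, hr⟩ := hb.dvd_of_dvd_pow h2
    have h3 : gp k * (gp k * (q ^ 2 + gp k * r ^ 3) + Z ^ 6) = 0 := by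
      rw [hq, hr] at hE
      linear_combination hE
    have h4 := (mul_eq_zero.1 h3).resolve_left hb.ne_zero
    have h5 : gp k ∣ Z ^ 6 := ⟨-(q ^ 2 + gp k * r ^ 3), by linear_combination h4⟩
    exact hb.not_isUnit (hYZ ⟨q, hq⟩ (hb.dvd_of_dvd_pow h5))
  have hbX : ¬ gp k ∣ X := by
    rintro ⟨q, hq⟩
    refine hbY (hb.dvd_of_dvd_pow (n := 2) ?_)
    refine ⟨-(q * X ^ 2 + Z ^ 6), ?_⟩
    linear_combination hE - X ^ 2 * hq
  have hY0 : Y ≠ 0 := fun h => hbY (h ▸ dvd_zero _)
  have hX0 : X ≠ 0 := fun h => hbX (h ▸ dvd_zero _)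
  -- the polynomials `g`
  have hG : ∀ i, ∃ g, 3 * Y * pderiv i X - 2 * X * pderiv i Y = Z ^ 5 * g ∧
      Y * g = -(3 * gp k * Z * pderiv i X) + X * Z * pderiv i (gp k) +
        6 * X * gp k * pderiv i Z := by
    intro i
    have h1 := ms_diff hE i
    have h2 : Z ^ 5 ∣ 3 * Y * pderiv i X - 2 * X * pderiv i Y := by
      refine IsRelPrime.dvd_of_dvd_mul_left (IsRelPrime.pow_left (hYZ.symm)) ⟨_, h1⟩
    obtain ⟨g, hg⟩ := h2
    refine ⟨g, hg, ?_⟩
    rw [hg] at h1
    refine mul_left_cancel₀ (pow_ne_zero 5 hZ) ?_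
    linear_combination h1
  choose g hg1 hg2 using hG
  -- degree bound
  have hdeg : ∀ i, g i ≠ 0 → msD w (g i) + w i ≤ 5 * D := by
    intro i hgi
    set e := msD w Z with he
    set x := msD w X with hx
    set y := msD w Y with hy
    have hbD : MsB w (gp k) (6 * D : ℤ) := by
      right
      exact_mod_cast msD_gp w hkw
    have hbZ : MsB w (gp k * Z ^ 6) (6 * D + 6 * e) := by
      refine hbD.mul (Or.inr ?_)
      rw [msD_pow]
      push_cast
      exact le_rfl
    have hX3 : 3 * (x : ℤ) ≤ max (2 * (y : ℤ)) (6 * (D : ℤ) + 6 * (e : ℤ)) := by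
      have h1 : MsB w (X ^ 3) (max (2 * (y : ℤ)) (6 * (D : ℤ) + 6 * (e : ℤ))) := by
        have h2 : X ^ 3 = -(Y ^ 2) + -(gp k * Z ^ 6) := by linear_combination hE
        rw [h2]
        refine MsB.add (MsB.neg ?_) (MsB.neg (hbZ.mono (le_max_right _ _)))
        right
        rw [msD_pow]
        push_cast
        exact le_max_left _ _
      have h3 := h1.resolve_left (pow_ne_zero 3 hX0)
      rw [msD_pow] at h3
      push_cast at h3
      exact h3
    by_cases hc : 6 * (D : ℤ) + 6 * (e : ℤ) < 2 * (y : ℤ)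
    · rw [max_eq_left hc.le] at hX3
      have h3 : ∀ c : ℕ, MsB w (c : MvPolynomial (Fin m) ℂ) 0 := by
        intro c
        rw [← map_natCast (C : ℂ →+* MvPolynomial (Fin m) ℂ)]
        exact MsB.const w _
      have h1 : MsB w (Y * g i) (6 * D + e + x - w i) := by
        rw [hg2 i]
        refine MsB.add (MsB.add (MsB.neg ?_) ?_) ?_
        · refine ((((h3 3).mul hbD).mul (MsB.self w Z)).mul
            ((MsB.self w X).pderiv i)).mono ?_
          linarith
        · refine (((MsB.self w X).mul (MsB.self w Z)).mul (hbD.pderiv i)).mono ?_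
          linarith
        · refine ((((h3 6).mul (MsB.self w X)).mul hbD).mul ((MsB.self w Z).pderiv i)).mono ?_
          linarith
      have h2 := h1.resolve_left (mul_ne_zero hY0 hgi)
      rw [msD_mul w hY0 hgi] at h2
      push_cast at h2
      have h4 : ((msD w (g i) + w i : ℕ) : ℤ) ≤ ((5 * D : ℕ) : ℤ) := by
        push_cast
        linarith
      exact_mod_cast h4
    · rw [max_eq_right (not_lt.1 hc)] at hX3
      have h3 : ∀ c : ℕ, MsB w (c : MvPolynomial (Fin m) ℂ) 0 := by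
        intro c
        rw [← map_natCast (C : ℂ →+* MvPolynomial (Fin m) ℂ)]
        exact MsB.const w _
      have h1 : MsB w (Z ^ 5 * g i) (x + y - w i) := by
        rw [← hg1 i, sub_eq_add_neg]
        refine MsB.add ?_ (MsB.neg ?_)
        · refine (((h3 3).mul (MsB.self w Y)).mul ((MsB.self w X).pderiv i)).mono ?_
          linarith
        · refine (((h3 2).mul (MsB.self w X)).mul ((MsB.self w Y).pderiv i)).mono ?_
          linarith
      have h2 := h1.resolve_left (mul_ne_zero (pow_ne_zero 5 hZ) hgi)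
      rw [msD_mul w (pow_ne_zero 5 hZ) hgi, msD_pow] at h2
      push_cast at h2
      have h4 : ((msD w (g i) + w i : ℕ) : ℤ) ≤ ((5 * D : ℕ) : ℤ) := by
        push_cast
        have := not_lt.1 hc
        linarith
      exact_mod_cast h4
  -- three variables
  obtain ⟨i₀, i₁, i₂, h01, h02, h12⟩ : ∃ i₀ i₁ i₂ : Fin m, i₀ ≠ i₁ ∧ i₀ ≠ i₂ ∧ i₁ ≠ i₂ :=
    ⟨⟨0, by omega⟩, ⟨1, by omega⟩, ⟨2, by omega⟩, by simp [Fin.ext_iff], by simp [Fin.ext_iff],
      by simp [Fin.ext_iff]⟩
  have hwpos : ∀ i, 0 < w i := by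
    intro i
    rcases Nat.eq_zero_or_pos (w i) with h | h
    · have := hkw i
      rw [h, mul_zero] at this
      omega
    · exact h
  have hdo : ∀ i, degreeOf i₂ (g i) < k i₂ := by
    intro i
    by_cases hgi : g i = 0
    · rw [hgi, degreeOf_zero]
      exact hk1 _
    · have h1 := hdeg i hgi
      have h2 := msD_degreeOf w (g i) i₂
      have h3 := hkw i₂
      have h4 : degreeOf i₂ (g i) * w i₂ < k i₂ * w i₂ := by omega
      exact lt_of_mul_lt_mul_right h4 (Nat.zero_le _)
  obtain ⟨h, hh⟩ := ms_wedge hb hbY i₀ i₁ (hg2 i₀) (hg2 i₁)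
  rw [ms_pderiv, ms_pderiv] at hh
  have hh0 : h = 0 := by
    by_contra hne
    have h1 : degreeOf i₂ (gp k * h) = degreeOf i₂ (gp k) + degreeOf i₂ h :=
      degreeOf_mul_eq hb.ne_zero hne
    have h2 : k i₂ ≤ degreeOf i₂ (gp k) := by
      have h3 : coeff (Finsupp.single i₂ (k i₂)) (gp k) ≠ 0 := by
        rw [ms_coeff_gp k hk1]
        exact one_ne_zero
      have h4 := monomial_le_degreeOf i₂ (MvPolynomial.mem_support_iff.2 h3)
      rwa [Finsupp.single_eq_same] at h4
    have h5 : degreeOf i₂ (g i₀ * (C (k i₁ : ℂ) * MvPolynomial.X i₁ ^ (k i₁ - 1)) -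
        g i₁ * (C (k i₀ : ℂ) * MvPolynomial.X i₀ ^ (k i₀ - 1))) < k i₂ := by
      have h6 : ∀ (c : ℂ) (f : MvPolynomial (Fin m) ℂ) (i : Fin m) (n : ℕ), i₂ ≠ i →
          degreeOf i₂ (f * (C c * MvPolynomial.X i ^ n)) ≤ degreeOf i₂ f := by
        intro c f i n hi
        refine (degreeOf_mul_le _ _ _).trans ?_
        have h7 := degreeOf_C_mul_le (MvPolynomial.X i ^ n : MvPolynomial (Fin m) ℂ) i₂ c
        rw [degreeOf_X_pow_of_ne n hi] at h7
        omega
      rw [sub_eq_add_neg, ← mul_neg, ← neg_mul, ← map_neg C]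
      refine lt_of_le_of_lt (degreeOf_add_le _ _ _) (max_lt ?_ ?_)
      · exact lt_of_le_of_lt (h6 _ _ _ _ h12.symm) (hdo _)
      · exact lt_of_le_of_lt (h6 _ _ _ _ h02.symm) (hdo _)
    rw [hh, h1] at h5
    omega
  rw [hh0, mul_zero] at hh
  have hg0 : g i₀ = 0 := by
    by_contra hne
    have h1 : MvPolynomial.X i₀ ^ (k i₀ - 1) ∣ g i₀ * (C (k i₁ : ℂ) * MvPolynomial.X i₁ ^ (k i₁ - 1)) :=
      ⟨g i₁ * C (k i₀ : ℂ), by linear_combination hh⟩
    have h2 : ¬ MvPolynomial.X i₀ ∣ (C (k i₁ : ℂ) * MvPolynomial.X i₁ ^ (k i₁ - 1) :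
        MvPolynomial (Fin m) ℂ) := by
      rintro ⟨q, hq⟩
      have h3 := congrArg (eval (fun j => if j = i₀ then (0 : ℂ) else 1)) hq
      rw [map_mul, map_mul, map_pow, eval_C, eval_X, eval_X, if_neg h01.symm, if_pos rfl, one_pow,
        zero_mul, mul_one] at h3
      have := hk1 i₁
      exact absurd h3 (by exact_mod_cast (by omega : k i₁ ≠ 0))
    obtain ⟨q, hq⟩ := (X_prime (i := i₀)).pow_dvd_of_dvd_mul_right _ h2 h1
    have hq0 : q ≠ 0 := by
      rintro rfl
      exact hne (by rw [hq, mul_zero])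
    have h3 := hdeg i₀ hne
    rw [hq, msD_mul w (pow_ne_zero _ (X_ne_zero _)) hq0] at h3
    have h4 := msD_X_pow w i₀ (k i₀ - 1)
    have h5 := hkw i₀
    have h6 : (k i₀ - 1) * w i₀ + w i₀ = k i₀ * w i₀ := by
      have := hk1 i₀
      rw [← Nat.succ_mul]
      congr 1
      omega
    omega
  refine ms_final hb hbX hZ i₀ ?_ ?_
  · rw [ms_pderiv]
    exact ms_not_dvd k hk1 i₀ hb dvd_rfl
  · rw [← hg2 i₀, hg0, mul_zero]

end main

end Pool.Agent.FR.U
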