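import Pool.Agent.FR.CR

/-!
Project FR (MP_c0959a_ag), row FR-U4: Nagata, from the generic fibre to the ring (helper49).
-/

set_option autoImplicit false

namespace Pool.Agent.FR.U

open Polynomial

section nagata

variable {R : Type*} [CommRing R] {L : Type*} [Field L] [Algebra R L] (b : R)

/-- the map from the coordinate ring to the generic fibre -/
noncomputable def u4phi (L : Type*) [Field L] [Algebra R L] (b : R) :
    CR b →+* CR (algebraMap R L b) :=
  AdjoinRoot.lift ((AdjoinRoot.of (wf (algebraMap R L b))).comp (mapRingHom (algebraMap R L)))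
    (AdjoinRoot.root (wf (algebraMap R L b))) (by
      have h := root_sq (algebraMap R L b)
      change eval₂ _ _ (X ^ 2 + C (X ^ 3 + C b)) = 0
      rw [eval₂_add, eval₂_pow, eval₂_X, eval₂_C, h]
      simp)

theorem u4phi_elt (u v : R[X]) : u4phi L b (elt b u v) =
    elt (algebraMap R L b) (u.map (algebraMap R L)) (v.map (algebraMap R L)) := by
  simp [u4phi, elt]

/-- the constant `r` in the coordinate ring -/
noncomputable def u4c (b : R) : R →+* CR b := (AdjoinRoot.of (wf b)).comp C

theorem u4c_apply (r : R) : u4c b r = elt b (C r) 0 := by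
  rw [elt_of]; rfl

theorem u4phi_c (r : R) : u4phi L b (u4c b r) = u4c (algebraMap R L b) (algebraMap R L r) := by
  rw [u4c_apply, u4phi_elt, u4c_apply, Polynomial.map_C, Polynomial.map_zero]

theorem u4phi_inj [IsDomain R] [IsFractionRing R L] : Function.Injective (u4phi L b) := by
  rw [injective_iff_map_eq_zero]
  intro z hz
  obtain ⟨u, v, rfl⟩ := elt_surj b z
  rw [u4phi_elt] at hz
  obtain ⟨h1, h2⟩ := elt_eq_zero _ hz
  have hinj := Polynomial.map_injective (algebraMap R L) (IsFractionRing.injective R L)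
  have h3 : u = 0 := hinj (by rw [h1, Polynomial.map_zero])
  have h4 : v = 0 := hinj (by rw [h2, Polynomial.map_zero])
  rw [h3, h4, elt_of, map_zero]

theorem u4c_inj [IsDomain R] {r : R} (hr : r ≠ 0) : u4c b r ≠ 0 := by
  intro h
  rw [u4c_apply] at h
  have := (elt_eq_zero b h).1
  rw [C_eq_zero] at this
  exact hr this

/-- common denominators -/
theorem u4_denom [IsDomain R] [IsFractionRing R L] (z : CR (algebraMap R L b)) :
    ∃ r : R, r ≠ 0 ∧ ∃ a : CR b, u4phi L b a = u4phi L b (u4c b r) * z := by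
  obtain ⟨u, v, rfl⟩ := elt_surj _ z
  obtain ⟨s, hs, hs'⟩ := IsLocalization.integerNormalization_spec (nonZeroDivisors R) u
  obtain ⟨t, ht, ht'⟩ := IsLocalization.integerNormalization_spec (nonZeroDivisors R) v
  have hs0 : s ≠ 0 := nonZeroDivisors.ne_zero hs
  have ht0 : t ≠ 0 := nonZeroDivisors.ne_zero ht
  refine ⟨s * t, mul_ne_zero hs0 ht0,
    elt b (C t * IsLocalization.integerNormalization (nonZeroDivisors R) u)
      (C s * IsLocalization.integerNormalization (nonZeroDivisors R) v), ?_⟩
  rw [u4phi_elt, u4c_apply, u4phi_elt, elt_mul, Polynomial.map_mul, Polynomial.map_mul, hs', ht']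
  simp only [Polynomial.map_C, Polynomial.map_zero, zero_mul, sub_zero, add_zero, map_mul,
    Polynomial.map_mul]
  congr 1
  · rw [Algebra.smul_def, Polynomial.algebraMap_apply]
    ring
  · rw [Algebra.smul_def, Polynomial.algebraMap_apply]
    ring

/-- the extension of an ideal to the generic fibre -/
noncomputable def u4ext [IsDomain R] [IsFractionRing R L] (P : Ideal (CR b)) :
    Ideal (CR (algebraMap R L b)) where
  carrier := {z | ∃ r : R, r ≠ 0 ∧ ∃ x ∈ P, u4phi L b (u4c b r) * z = u4phi L b x}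
  zero_mem' := ⟨1, one_ne_zero, 0, P.zero_mem, by rw [mul_zero, map_zero]⟩
  add_mem' := by
    rintro z z' ⟨r, hr, x, hx, h⟩ ⟨r', hr', x', hx', h'⟩
    refine ⟨r * r', mul_ne_zero hr hr', u4c b r' * x + u4c b r * x',
      P.add_mem (P.mul_mem_left _ hx) (P.mul_mem_left _ hx'), ?_⟩
    simp only [map_mul, map_add]
    rw [← h, ← h']
    ring
  smul_mem' := by
    rintro c z ⟨r, hr, x, hx, h⟩
    obtain ⟨s, hs, a, ha⟩ := u4_denom b c
    refine ⟨s * r, mul_ne_zero hs hr, a * x, P.mul_mem_left _ hx, ?_⟩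
    simp only [map_mul, smul_eq_mul]
    rw [← h, ha]
    ring

theorem u4ext_mem [IsDomain R] [IsFractionRing R L] (P : Ideal (CR b))
    (z : CR (algebraMap R L b)) : z ∈ u4ext b P ↔
      ∃ r : R, r ≠ 0 ∧ ∃ x ∈ P, u4phi L b (u4c b r) * z = u4phi L b x := Iff.rfl

theorem u4ext_prime [IsDomain R] [IsFractionRing R L] (P : Ideal (CR b)) (hP : P.IsPrime)
    (h0 : ∀ r : R, r ≠ 0 → u4c b r ∉ P) :
    (u4ext b P : Ideal (CR (algebraMap R L b))).IsPrime := by
  refine ⟨?_, ?_⟩
  · intro h
    have h1 : (1 : CR (algebraMap R L b)) ∈ u4ext b P := by rw [h]; trivial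
    obtain ⟨r, hr, x, hx, h2⟩ := h1
    rw [mul_one] at h2
    have h3 := u4phi_inj b h2
    exact h0 r hr (h3 ▸ hx)
  · rintro z z' ⟨r, hr, x, hx, h⟩
    obtain ⟨s, hs, y, hy⟩ := u4_denom b z
    obtain ⟨s', hs', y', hy'⟩ := u4_denom b z'
    have h1 : u4c b r * y * y' = u4c b (s * s') * x := by
      apply u4phi_inj (L := L) b
      simp only [map_mul]
      rw [← h, hy, hy']
      ring
    have h2 : u4c b r * y * y' ∈ P := by
      rw [h1]
      exact P.mul_mem_left _ hx
    rcases hP.mem_or_mem h2 with h3 | h3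
    · rcases hP.mem_or_mem h3 with h4 | h4
      · exact absurd h4 (h0 r hr)
      · exact Or.inl ⟨s, hs, y, h4, hy.symm⟩
    · exact Or.inr ⟨s', hs', y', h3, hy'.symm⟩

/-- removing the prime factors of a constant -/
theorem u4_remove [IsDomain R] [UniqueFactorizationMonoid R] (a : CR b)
    (ha : ∀ p : R, Prime p → ¬ u4c b p ∣ a) (r : R) :
    r ≠ 0 → ∀ u w : CR b, u4c b r * u = a * w → a ∣ u := by
  induction r using UniqueFactorizationMonoid.induction_on_prime with
  | h₁ => intro h; exact absurd rfl h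
  | h₂ x hx =>
    intro _ u w h
    obtain ⟨y, hy⟩ := hx.exists_left_inv
    refine ⟨u4c b y * w, ?_⟩
    have h1 : u4c b y * u4c b x = 1 := by rw [← map_mul, hy, map_one]
    calc u = u4c b y * u4c b x * u := by rw [h1, one_mul]
      _ = u4c b y * (u4c b x * u) := by ring
      _ = a * (u4c b y * w) := by rw [h]; ring
  | h₃ r p hr0 hp ih =>
    intro _ u w h
    have hpp : Prime (u4c b p) := prime_CR b hp
    have h1 : u4c b p ∣ a * w := by
      refine ⟨u4c b r * u, ?_⟩
      rw [← h, map_mul]
      ring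
    obtain ⟨w', rfl⟩ := (hpp.dvd_or_dvd h1).resolve_left (ha p hp)
    refine ih hr0 u w' ?_
    apply mul_left_cancel₀ hpp.ne_zero
    rw [map_mul] at h
    linear_combination h

/-- Nagata: from the generic fibre to the ring itself -/
theorem ufd_of_generic {R : Type*} [CommRing R] [IsDomain R] [UniqueFactorizationMonoid R]
    [IsNoetherianRing R] {L : Type*} [Field L] [Algebra R L] [IsFractionRing R L] (b : R)
    (h : ∀ P : Ideal (CR (algebraMap R L b)), P.IsPrime → P.IsPrincipal) :
    UniqueFactorizationMonoid (CR b) := by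
  rw [UniqueFactorizationMonoid.iff_exists_prime_mem_of_isPrime]
  intro P hPne hP
  by_cases h0 : ∀ r : R, r ≠ 0 → u4c b r ∉ P
  · have hPL := u4ext_prime (L := L) b P hP h0
    obtain ⟨g, hg⟩ := (h _ hPL).principal
    rw [Ideal.submodule_span_eq] at hg
    have hmem : ∀ x : CR b, x ∈ P → u4phi L b x ∈ (u4ext b P : Ideal (CR (algebraMap R L b))) :=
      fun x hx => ⟨1, one_ne_zero, x, hx, by rw [map_one, map_one, one_mul]⟩
    have hmem' : ∀ x : CR b,
        u4phi L b x ∈ (u4ext b P : Ideal (CR (algebraMap R L b))) → x ∈ P := by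
      rintro x ⟨r, hr, y, hy, h1⟩
      rw [← map_mul] at h1
      have h2 := u4phi_inj b h1
      have h3 : u4c b r * x ∈ P := by rw [h2]; exact hy
      exact (hP.mem_or_mem h3).resolve_left (h0 r hr)
    obtain ⟨a, ha, hmin⟩ := (wellFounded_dvdNotUnit (α := CR b)).has_min
      {a | Ideal.span {u4phi L b a} = (u4ext b P : Ideal (CR (algebraMap R L b)))} (by
        obtain ⟨r, hr, a, ha⟩ := u4_denom b g
        refine ⟨a, ?_⟩
        simp only [Set.mem_setOf_eq]
        have hu : IsUnit (u4phi L b (u4c b r)) := by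
          rw [u4phi_c]
          exact (IsUnit.mk0 _ (by
            rw [Ne, IsFractionRing.to_map_eq_zero_iff]; exact hr)).map _
        rw [hg, ha, Ideal.span_singleton_mul_left_unit hu])
    simp only [Set.mem_setOf_eq] at ha hmin
    have haP : a ∈ P := hmem' a (by rw [← ha]; exact Ideal.mem_span_singleton_self _)
    have ha0 : a ≠ 0 := by
      rintro rfl
      rw [map_zero, Set.singleton_zero, Ideal.span_zero] at ha
      apply hPne
      rw [eq_bot_iff]
      intro x hx
      have h1 := hmem x hx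
      rw [← ha, Ideal.mem_bot, map_eq_zero_iff _ (u4phi_inj b)] at h1
      exact h1
    have hap : ∀ p : R, Prime p → ¬ u4c b p ∣ a := by
      rintro p hp ⟨a', rfl⟩
      have hpp : Prime (u4c b p) := prime_CR b hp
      have hu : IsUnit (u4phi L b (u4c b p)) := by
        rw [u4phi_c]
        exact (IsUnit.mk0 _ (by
          rw [Ne, IsFractionRing.to_map_eq_zero_iff]; exact hp.ne_zero)).map _
      refine hmin a' ?_ ⟨right_ne_zero_of_mul ha0, u4c b p, hpp.not_isUnit, mul_comm _ _⟩
      rw [← ha, map_mul, Ideal.span_singleton_mul_left_unit hu]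
    refine ⟨a, haP, ha0, fun hu => hP.ne_top (Ideal.eq_top_of_isUnit_mem _ haP hu), ?_⟩
    intro u v huv
    have h1 : u4phi L b u * u4phi L b v ∈
        (u4ext b P : Ideal (CR (algebraMap R L b))) := by
      obtain ⟨c, hc⟩ := huv
      rw [← map_mul, hc, ← ha, map_mul]
      exact Ideal.mem_span_singleton.2 (dvd_mul_right _ _)
    have key : ∀ u : CR b, u4phi L b u ∈
        (u4ext b P : Ideal (CR (algebraMap R L b))) → a ∣ u := by
      intro u hu
      rw [← ha, Ideal.mem_span_singleton] at hu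
      obtain ⟨z, hz⟩ := hu
      obtain ⟨r, hr, w, hw⟩ := u4_denom b z
      refine u4_remove b a hap r hr u w ?_
      apply u4phi_inj (L := L) b
      rw [map_mul, map_mul, hz, hw]
      ring
    rcases hPL.mem_or_mem h1 with h2 | h2
    · exact Or.inl (key u h2)
    · exact Or.inr (key v h2)
  · push Not at h0
    obtain ⟨r, hr, hrP⟩ := h0
    have hQ : (P.comap (u4c b)).IsPrime := Ideal.comap_isPrime _ _
    have hQ0 : P.comap (u4c b) ≠ ⊥ := by
      intro h1
      have h2 : r ∈ P.comap (u4c b) := hrP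
      rw [h1, Ideal.mem_bot] at h2
      exact hr h2
    obtain ⟨p, hp, hpp⟩ := hQ.exists_mem_prime_of_ne_bot hQ0
    exact ⟨u4c b p, hp, prime_CR b hpp⟩

end nagata

end Pool.Agent.FR.U
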