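import Pool.Agent.FR.CR

/-!
Project FR (MP_c0959a_ag), block U: over a field `L` such that `η ^ 2 + ξ ^ 3 + b = 0` has no
solution in `L`, all prime ideals of `L[x, y] / (y ^ 2 + x ^ 3 + b)` are principal.
-/

set_option autoImplicit false

namespace Pool.Agent.FR.U

open Polynomial

variable {L : Type*} [Field L] (b : L)

/-- the ideal `(q, y - t)` -/
noncomputable def idl (q t : L[X]) : Ideal (CR b) := Ideal.span {elt b q 0, elt b (-t) 1}

theorem q_mem (q t : L[X]) : elt b q 0 ∈ idl b q t := Ideal.subset_span (by simp)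

theorem y_mem (q t : L[X]) : elt b (-t) 1 ∈ idl b q t := Ideal.subset_span (by simp)

theorem idl_le_of_dvd {q t t' : L[X]} (h : q ∣ t - t') : idl b q t ≤ idl b q t' := by
  rw [idl, Ideal.span_le]
  rintro z (rfl | rfl)
  · exact q_mem b q t'
  · obtain ⟨s, hs⟩ := h
    have h1 : elt b (-t) 1 = elt b (-t') 1 - elt b s 0 * elt b q 0 := by
      rw [elt_mul, elt_sub]
      congr 1
      · linear_combination -hs
      · ring
    rw [h1]
    exact Ideal.sub_mem _ (y_mem b q t') (Ideal.mul_mem_left _ _ (q_mem b q t'))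

theorem idl_eq_of_dvd {q t t' : L[X]} (h : q ∣ t - t') : idl b q t = idl b q t' :=
  le_antisymm (idl_le_of_dvd b h) (idl_le_of_dvd b (by
    rw [← neg_sub]; exact (dvd_neg).2 h))

variable {b}

theorem mem4 {A : Type*} [CommRing A] (p q r s c₁ c₂ c₃ c₄ : A) :
    c₁ * p + (c₂ * q + (c₃ * r + c₄ * s)) ∈ Ideal.span {p, q, r, s} := by
  refine Ideal.add_mem _ (Ideal.mul_mem_left _ _ (Ideal.subset_span (by simp)))
    (Ideal.add_mem _ (Ideal.mul_mem_left _ _ (Ideal.subset_span (by simp)))
    (Ideal.add_mem _ (Ideal.mul_mem_left _ _ (Ideal.subset_span (by simp)))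
    (Ideal.mul_mem_left _ _ (Ideal.subset_span (by simp)))))

/-- the product formula -/
theorem idl_mul [CharZero L] (hb : b ≠ 0) {q q₁ t : L[X]} (h : q * q₁ = t ^ 2 + X ^ 3 + C b) :
    idl b q t * idl b q₁ t = Ideal.span {elt b (-t) 1} := by
  rw [idl, idl, Ideal.span_pair_mul_span_pair]
  have hQ : elt b q 0 * elt b q₁ 0 = - (elt b (-t) 1 * elt b t 1) := by
    rw [elt_mul, elt_mul, elt_neg]
    congr 1
    · linear_combination h
    · ring
  apply le_antisymm
  · rw [Ideal.span_le]
    rintro z (rfl | rfl | rfl | rfl)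
    · rw [hQ, SetLike.mem_coe, Ideal.mem_span_singleton]
      exact (dvd_neg).2 (dvd_mul_right _ _)
    · rw [SetLike.mem_coe, Ideal.mem_span_singleton]
      exact dvd_mul_left _ _
    · rw [SetLike.mem_coe, Ideal.mem_span_singleton]
      exact dvd_mul_right _ _
    · rw [SetLike.mem_coe, Ideal.mem_span_singleton]
      exact dvd_mul_right _ _
  · rw [Ideal.span_singleton_le_iff_mem]
    have hd : derivative q * q₁ + q * derivative q₁ = 2 * t * derivative t + 3 * X ^ 2 := by
      have h1 := congrArg derivative h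
      rw [derivative_mul, derivative_add, derivative_add, derivative_C, derivative_pow,
        derivative_X_pow] at h1
      simp only [Nat.cast_ofNat, map_ofNat] at h1
      rw [h1]
      ring
    have h3 : (C (1 / 3 : L)) * 3 = 1 := by
      have : (3 : L[X]) = C 3 := (map_ofNat C 3).symm
      rw [this, ← C_mul]
      norm_num
    have h2 : (C (1 / 2 : L)) * 2 = 1 := by
      have : (2 : L[X]) = C 2 := (map_ofNat C 2).symm
      rw [this, ← C_mul]
      norm_num
    have hbb : (C b⁻¹ : L[X]) * C b = 1 := by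
      rw [← C_mul, inv_mul_cancel₀ hb, C_1]
    set α : L[X] := q₁ - C (1 / 3) * X * derivative q₁ with hα
    set β : L[X] := - (C (1 / 3) * X * derivative q) with hβ
    set γ : L[X] := t - C (1 / 3) * 2 * X * derivative t with hγ
    have hid : C b = α * q + β * q₁ - γ * t := by
      rw [hα, hβ, hγ]
      linear_combination -h + C (1 / 3) * X * hd + X ^ 3 * h3
    have hkey : elt b (-t) 1 = elt b (C b⁻¹ * (C (1 / 2) * γ)) 0 * (elt b q 0 * elt b q₁ 0) +
        (elt b (C b⁻¹ * α) 0 * (elt b q 0 * elt b (-t) 1) +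
        (elt b (C b⁻¹ * β) 0 * (elt b (-t) 1 * elt b q₁ 0) +
        elt b (C b⁻¹ * (C (1 / 2) * γ)) 0 * (elt b (-t) 1 * elt b (-t) 1))) := by
      simp only [elt_mul, elt_add]
      congr 1
      · linear_combination t * hbb - (t * C b⁻¹) * hid - (C b⁻¹ * γ * t ^ 2) * h2 -
          (C b⁻¹ * C (1 / 2) * γ) * h
      · linear_combination -hbb + C b⁻¹ * hid + (C b⁻¹ * γ * t) * h2
    have hm := mem4 (elt b q 0 * elt b q₁ 0) (elt b q 0 * elt b (-t) 1)
      (elt b (-t) 1 * elt b q₁ 0) (elt b (-t) 1 * elt b (-t) 1)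
      (elt b (C b⁻¹ * (C (1 / 2) * γ)) 0) (elt b (C b⁻¹ * α) 0) (elt b (C b⁻¹ * β) 0)
      (elt b (C b⁻¹ * (C (1 / 2) * γ)) 0)
    rw [← hkey] at hm
    exact hm

theorem principal_of_mul {A : Type*} [CommRing A] [IsDomain A] {I J : Ideal A} {c : A} (hc : c ≠ 0)
    (h : I * J = Ideal.span {c}) (hJ : J.IsPrincipal) : I.IsPrincipal := by
  obtain ⟨j, hj⟩ := hJ
  have hj' : J = Ideal.span {j} := hj
  rw [hj'] at h
  have h1 : c ∈ I * Ideal.span {j} := by rw [h]; exact Ideal.mem_span_singleton_self c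
  obtain ⟨i, hi, hij⟩ := Ideal.mem_mul_span_singleton.1 h1
  have hj0 : j ≠ 0 := by
    rintro rfl
    exact hc (by rw [← hij, mul_zero])
  refine ⟨i, le_antisymm (fun z hz => ?_) ?_⟩
  · have h2 : z * j ∈ Ideal.span {c} := by
      rw [← h]
      exact Ideal.mem_mul_span_singleton.2 ⟨z, hz, rfl⟩
    obtain ⟨r, hr⟩ := Ideal.mem_span_singleton.1 h2
    have h3 : z = i * r := by
      apply mul_right_cancel₀ hj0
      rw [hr, ← hij]
      ring
    exact Ideal.mem_span_singleton.2 ⟨r, h3⟩
  · exact (Ideal.span_singleton_le_iff_mem I).2 hi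

theorem no_root (h : ∀ ξ η : L, η ^ 2 + ξ ^ 3 + b ≠ 0) {q t : L[X]}
    (hq : q ∣ t ^ 2 + X ^ 3 + C b) : q.natDegree ≠ 1 := by
  intro h1
  obtain ⟨x, hx⟩ := exists_root_of_degree_eq_one (degree_eq_iff_natDegree_eq_of_pos
    (by norm_num) |>.2 h1)
  have h2 := hx.dvd hq
  rw [IsRoot.def] at h2
  simp only [eval_add, eval_pow, eval_X, eval_C] at h2
  exact h _ _ h2

theorem sq_add_ne_zero (t : L[X]) : t ^ 2 + X ^ 3 + C b ≠ 0 := by
  intro h
  have h1 := parity b (u := t) (v := 1) (by rw [one_pow, one_mul, ← add_assoc, h])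
  exact one_ne_zero h1.2

theorem idl_principal [CharZero L] (hb : b ≠ 0) (h : ∀ ξ η : L, η ^ 2 + ξ ^ 3 + b ≠ 0) (n : ℕ) :
    ∀ q t : L[X], q ≠ 0 → q.natDegree = n → q ∣ t ^ 2 + X ^ 3 + C b →
      (idl b q t).IsPrincipal := by
  induction n using Nat.strong_induction_on with
  | _ n ih =>
    intro q t hq hn hdvd
    rcases Nat.eq_zero_or_pos n with h0 | hpos
    · rw [h0] at hn
      obtain ⟨c, hc⟩ := natDegree_eq_zero.1 hn
      refine ⟨1, ?_⟩
      have h1 : idl b q t = ⊤ := by
        rw [Ideal.eq_top_iff_one]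
        have hc0 : c ≠ 0 := by
          rintro rfl
          exact hq (by rw [← hc, C_0])
        have h2 : (1 : CR b) = elt b (C c⁻¹) 0 * elt b q 0 := by
          rw [elt_mul, ← hc]
          simp only [zero_mul, sub_zero, mul_zero, add_zero]
          rw [← C_mul, inv_mul_cancel₀ hc0, C_1, elt_of, map_one]
        rw [h2]
        exact Ideal.mul_mem_left _ _ (q_mem b q t)
      rw [h1]
      exact Ideal.span_singleton_one.symm
    set t' := t % q with ht'
    have hmod : q ∣ t - t' := by
      refine ⟨t / q, ?_⟩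
      have := EuclideanDomain.div_add_mod t q
      rw [ht']
      linear_combination -this
    rw [idl_eq_of_dvd b hmod]
    have hdvd' : q ∣ t' ^ 2 + X ^ 3 + C b := by
      have h1 : t' ^ 2 + X ^ 3 + C b = (t ^ 2 + X ^ 3 + C b) - (t - t') * (t + t') := by ring
      rw [h1]
      exact dvd_sub hdvd (hmod.mul_right _)
    obtain ⟨q₁, hq₁⟩ := hdvd'
    have hne := sq_add_ne_zero (b := b) t'
    have hq₁0 : q₁ ≠ 0 := by
      rintro rfl
      exact hne (by rw [hq₁, mul_zero])
    have hdeg := congrArg natDegree hq₁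
    rw [natDegree_mul hq hq₁0, hn] at hdeg
    have ht'd : t'.natDegree < n := by
      rw [← hn]
      by_cases h0 : t' = 0
      · rw [h0, natDegree_zero, hn]
        exact hpos
      · exact natDegree_lt_natDegree h0 (EuclideanDomain.mod_lt t hq)
    have hup : (t' ^ 2 + X ^ 3 + C b).natDegree ≤ max (2 * t'.natDegree) 3 := by
      rw [add_assoc]
      refine (natDegree_add_le _ _).trans (max_le_max (natDegree_pow_le) ?_)
      exact natDegree_X_pow_add_C.le
    have hn1 : n ≠ 1 := by
      rw [← hn]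
      exact no_root h ⟨q₁, hq₁⟩
    have hq₁1 : q₁.natDegree ≠ 1 := no_root h (t := t') ⟨q, by rw [hq₁, mul_comm]⟩
    have hn2 : n ≠ 2 := by
      intro h2
      have h3 : (t' ^ 2 + X ^ 3 + C b).natDegree = 3 := by
        rw [add_assoc, add_comm]
        have h4 : (X ^ 3 + C b : L[X]).natDegree = 3 := natDegree_X_pow_add_C
        rw [natDegree_add_eq_left_of_natDegree_lt]
        · exact h4
        · rw [h4]
          refine lt_of_le_of_lt natDegree_pow_le ?_
          omega
      omega
    have hlt : q₁.natDegree < n := by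
      rcases le_total (2 * t'.natDegree) 3 with h5 | h5
      · rw [max_eq_right h5] at hup; omega
      · rw [max_eq_left h5] at hup; omega
    have hIH := ih _ hlt q₁ t' hq₁0 rfl ⟨q, by rw [hq₁, mul_comm]⟩
    refine principal_of_mul ?_ (idl_mul hb hq₁.symm) hIH
    intro h0
    exact one_ne_zero (elt_eq_zero b h0).2

/-- over a field without points the coordinate ring has only principal prime ideals -/
theorem isPrincipal_of_no_point [CharZero L] (hb : b ≠ 0)
    (h : ∀ ξ η : L, η ^ 2 + ξ ^ 3 + b ≠ 0) (P : Ideal (CR b)) (hP : P.IsPrime) :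
    P.IsPrincipal := by
  by_cases hbot : P = ⊥
  · rw [hbot]
    exact bot_isPrincipal
  set p : Ideal L[X] := P.comap (AdjoinRoot.of (wf b)) with hp
  have hpP : ∀ u, u ∈ p ↔ elt b u 0 ∈ P := fun u => by
    rw [hp, Ideal.mem_comap, elt_of]
  have hpbot : p ≠ ⊥ := by
    obtain ⟨z, hz, hz0⟩ := Submodule.exists_mem_ne_zero_of_ne_bot hbot
    obtain ⟨u, v, rfl⟩ := elt_surj b z
    intro h0
    have h1 : u ^ 2 + v ^ 2 * (X ^ 3 + C b) ∈ p := by
      rw [hpP, ← elt_conj]
      exact Ideal.mul_mem_left _ _ hz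
    rw [h0, Ideal.mem_bot] at h1
    obtain ⟨h2, h3⟩ := parity b h1
    apply hz0
    rw [h2, h3, elt_of, map_zero]
  obtain ⟨q, hq⟩ := IsPrincipalIdealRing.principal p
  have hq' : p = Ideal.span {q} := hq
  have hq0 : q ≠ 0 := by
    rintro rfl
    exact hpbot (by rw [hq', Ideal.span_singleton_eq_bot])
  have hpp : p.IsPrime := Ideal.comap_isPrime _ _
  have hqpr : Prime q := by
    rw [← Ideal.span_singleton_prime hq0, ← hq']
    exact hpp
  have hmem : ∀ u, elt b u 0 ∈ P ↔ q ∣ u := fun u => by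
    rw [← hpP, hq', Ideal.mem_span_singleton]
  by_cases ht : ∃ t : L[X], elt b (-t) 1 ∈ P
  · obtain ⟨t, ht⟩ := ht
    have h1 : P = idl b q t := by
      apply le_antisymm
      · intro z hz
        obtain ⟨u, v, rfl⟩ := elt_surj b z
        have h2 : elt b u v = elt b (u + v * t) 0 + elt b v 0 * elt b (-t) 1 := by
          rw [elt_mul, elt_add]
          congr 1 <;> ring
        have h3 : elt b (u + v * t) 0 ∈ P := by
          have h4 : elt b (u + v * t) 0 = elt b u v - elt b v 0 * elt b (-t) 1 := by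
            rw [h2]; ring
          rw [h4]
          exact Ideal.sub_mem _ hz (Ideal.mul_mem_left _ _ ht)
        obtain ⟨s, hs⟩ := (hmem _).1 h3
        rw [h2, hs]
        refine Ideal.add_mem _ ?_ (Ideal.mul_mem_left _ _ (y_mem b q t))
        have h5 : elt b (q * s) 0 = elt b s 0 * elt b q 0 := by
          rw [elt_mul]
          congr 1 <;> ring
        rw [h5]
        exact Ideal.mul_mem_left _ _ (q_mem b q t)
      · rw [idl, Ideal.span_le]
        rintro z (rfl | rfl)
        · exact (hmem q).2 dvd_rfl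
        · exact ht
    have hdvd : q ∣ t ^ 2 + X ^ 3 + C b := by
      rw [← hmem]
      have h2 : elt b (t ^ 2 + X ^ 3 + C b) 0 = -(elt b t 1 * elt b (-t) 1) := by
        rw [elt_mul, elt_neg]
        congr 1 <;> ring
      rw [h2]
      exact P.neg_mem (Ideal.mul_mem_left _ _ ht)
    rw [h1]
    exact idl_principal hb h _ q t hq0 rfl hdvd
  · refine ⟨elt b q 0, ?_⟩
    change P = Ideal.span {elt b q 0}
    apply le_antisymm
    · intro z hz
      obtain ⟨u, v, rfl⟩ := elt_surj b z
      have hv : q ∣ v := by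
        by_contra hv
        apply ht
        have hcop : IsCoprime q v := (Irreducible.coprime_iff_not_dvd hqpr.irreducible).2 hv
        obtain ⟨r, s, hrs⟩ := hcop
        refine ⟨-(s * u), ?_⟩
        have h2 : elt b (-(-(s * u))) 1 = elt b s 0 * elt b u v + elt b 0 r * elt b q 0 := by
          rw [elt_mul, elt_mul, elt_add]
          congr 1
          · ring
          · linear_combination -hrs
        rw [h2]
        exact Ideal.add_mem _ (Ideal.mul_mem_left _ _ hz)
          (Ideal.mul_mem_left _ _ ((hmem q).2 dvd_rfl))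
      obtain ⟨v', rfl⟩ := hv
      have h3 : elt b u 0 ∈ P := by
        have h4 : elt b u 0 = elt b u (q * v') - elt b 0 v' * elt b q 0 := by
          rw [elt_mul, elt_sub]
          congr 1 <;> ring
        rw [h4]
        exact Ideal.sub_mem _ hz (Ideal.mul_mem_left _ _ ((hmem q).2 dvd_rfl))
      obtain ⟨u', rfl⟩ := (hmem _).1 h3
      rw [Ideal.mem_span_singleton]
      refine ⟨elt b u' v', ?_⟩
      rw [elt_mul]
      congr 1 <;> ring
    · rw [Ideal.span_singleton_le_iff_mem]
      exact (hmem q).2 dvd_rfl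

end Pool.Agent.FR.U
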