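import Pool.Agent.FR.Equiv
import Pool.Agent.FR.Cop
import Pool.Agent.FR.Pid
import Pool.Agent.FR.Nagata
import Pool.Agent.FR.Mason

/-!
# Block U: the coordinate ring is factorial
-/

set_option autoImplicit false

namespace Pool.Agent.FR.U

open MvPolynomial

theorem ufd_CR {m : ℕ} (hm : 3 ≤ m) {k w : Fin m → ℕ} {D : ℕ} (hkw : ∀ j, k j * w j = 6 * D)
    (hD : 0 < D) (hk : ∀ j, 2 ≤ k j) : UniqueFactorizationMonoid (CR (gp k)) := by
  have hgp : gp k ≠ 0 := by
    intro h
    have h1 := congrArg (MvPolynomial.eval (fun _ => (0 : ℂ))) h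
    have h2 : ∀ j, k j ≠ 0 := fun j => by have := hk j; omega
    simp [gp, h2] at h1
  refine ufd_of_generic (L := FractionRing (MvPolynomial (Fin m) ℂ)) _ fun P hP => ?_
  refine isPrincipal_of_no_point (L := FractionRing (MvPolynomial (Fin m) ℂ)) ?_
    (fun ξ η h0 => ?_) P hP
  · rw [Ne, FaithfulSMul.algebraMap_eq_zero_iff]
    exact hgp
  · obtain ⟨X, Y, Z, hZ, hYZ, h1⟩ := exists_coprime (gp k) ξ η h0
    exact mason hm hkw hD hk hZ hYZ h1

end Pool.Agent.FR.U

namespace Pool.Agent.FR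

open MvPolynomial

/-- general version of the Spec's `ufd` -/
theorem ufd_gen {s : ℕ} {k a : Fin (s + 3) → ℕ} {d : ℕ} (hw : Wt s k a d) (hs : 2 ≤ s) :
    UniqueFactorizationMonoid (MvPolynomial (Fin (s + 3)) ℂ ⧸ Ideal.span {gp k}) := by
  have h0 := hw.ka 0
  have h1 := hw.ka 1
  have hd := hw.hd
  rw [hw.k0] at h0
  rw [hw.k1] at h1
  apply ufd_of_CR (n := s + 1) k hw.k0 hw.k1
  refine U.ufd_CR (m := s + 1) (by omega) (w := fun j => a j.succ.succ) (D := d / 6)
    (fun j => ?_) (by omega) (fun j => hw.hk _)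
  rw [hw.ka]
  omega

theorem ufd : ∀ [IsDomain (MvPolynomial (Fin 10) ℂ ⧸ Ideal.span {gp kk})],
    UniqueFactorizationMonoid (MvPolynomial (Fin 10) ℂ ⧸ Ideal.span {gp kk}) := by
  intro _
  exact ufd_gen wt (by norm_num)

/-- The coordinate ring inside `K` is factorial, general version. -/
theorem FD.ufd_gen {s : ℕ} {k a : Fin (s + 3) → ℕ} {d : ℕ} (hw : Wt s k a d) (hs : 2 ≤ s)
    {K : Type} [Field K] [Algebra ℂ K] (F : FD s k K) : UniqueFactorizationMonoid F.A :=
  F.ufd_of_quot (Pool.Agent.FR.ufd_gen hw hs)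

/-- The same for the coordinate ring inside `K`. -/
theorem FD.ufd {K : Type} [Field K] [Algebra ℂ K] (F : FD 7 kk K) :
    UniqueFactorizationMonoid F.A := F.ufd_gen wt (by norm_num)

end Pool.Agent.FR
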