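import Pool.Agent.FR.NormBound
import Pool.Agent.FR.Arith
import Pool.Agent.FR.Exc
import Pool.Agent.FR.Indep
import Pool.Agent.FR.Elim
import Pool.Agent.FR.Ufd

/-!
# KEY: the order of a function on the affine hypersurface against the canonical order
-/

set_option autoImplicit false

namespace Pool.Agent.FR

open MvPolynomial

variable {s : ℕ} {k a : Fin (s + 3) → ℕ} {d : ℕ} {K : Type} [Field K] [Algebra ℂ K]

theorem E_nonpos (hw : Wt s k a d) (F : FD s k K) (E : DVal K) (hE : IsDeg F a E) (h : K)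
    (hh : h ∈ F.A) (h0 : h ≠ 0) : 0 ≤ -E.v h := by
  obtain ⟨Q, T, hQ, hT⟩ := exists_norm hw F E hE 0 h hh h0
  have hk : 0 < k 0 - 1 := by have := hw.hk 0; omega
  rw [← (hT ⟨0, hk⟩).2.2]
  positivity

/-- The norm bound with the optimal constant. -/
theorem norm_bound' (hw : Wt s k a d) (F : FD s k K)
    (B : Module.Basis (Fin (s + 2)) K (Derivation ℂ K K)) (hB : IsOmega F B) (E : DVal K)
    (hE : IsDeg F a E) (D : DVal K) (j₀ : Fin (s + 3)) (q : ℤ) (c R : ℤ) (hc : 0 ≤ c) (hq0 : 0 ≤ q)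
    (hq : ∀ j, -q ≤ k j * D.v (F.X j))
    (hR : ∀ l, l ≠ j₀ → c * (k j₀ * (k l * (D.v (F.X l) + eps F B D j₀) + q) - q) ≤ R) (h : K)
    (hh : h ∈ F.A) (h0 : h ≠ 0) : c * (d * D.v h) ≤ (-E.v h) * R := by
  obtain ⟨i₀, hi₀⟩ : ∃ i : Fin (s + 3), i ≠ j₀ := exists_ne j₀
  obtain ⟨l, hl, hmax⟩ := (Finset.univ.erase j₀).exists_max_image
    (fun l => (k l : ℤ) * (D.v (F.X l) + eps F B D j₀) + q)
    ⟨i₀, Finset.mem_erase.2 ⟨hi₀, Finset.mem_univ _⟩⟩
  have h1 := norm_bound hw F B hB E hE D j₀ q _ hq0 hq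
    (fun l' hl' => hmax l' (Finset.mem_erase.2 ⟨hl', Finset.mem_univ _⟩)) h hh h0
  have h2 := hR l (Finset.mem_erase.1 hl).1
  have h3 := E_nonpos hw F E hE h hh h0
  calc c * (d * D.v h) ≤ c * ((-E.v h) * (k j₀ * (k l * (D.v (F.X l) + eps F B D j₀) + q) - q)) :=
        mul_le_mul_of_nonneg_left h1 hc
    _ = (-E.v h) * (c * (k j₀ * (k l * (D.v (F.X l) + eps F B D j₀) + q) - q)) := by ring
    _ ≤ _ := mul_le_mul_of_nonneg_left h2 h3

/-- A centre at infinity: the maximal pole is attained at least twice. -/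
theorem exists_pole_pair (hw : Wt s k a d) (F : FD s k K) (D : DVal K)
    (hD : ∃ j, D.v (F.X j) < 0) : ∃ q : ℕ, 0 < q ∧ (∀ j, -(q : ℤ) ≤ k j * D.v (F.X j)) ∧
      ∃ i j, i ≠ j ∧ (k i : ℤ) * D.v (F.X i) = -q ∧ (k j : ℤ) * D.v (F.X j) = -q := by
  have hv : ∀ j, D.v (F.X j ^ k j) = k j * D.v (F.X j) := fun j => D.pow (F.X_ne hw j) _
  obtain ⟨i, -, j, -, hij, heq, hmin⟩ := D.exists_two (Finset.univ : Finset (Option (Fin (s + 3))))
    (fun o => o.elim 1 fun j => F.X j ^ k j) ⟨none, Finset.mem_univ _⟩ (by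
      rintro (_ | j) _
      · exact one_ne_zero
      · exact pow_ne_zero _ (F.X_ne hw j)) (by
      rw [Fintype.sum_option]
      exact F.rel)
  obtain ⟨j₁, hj₁⟩ := hD
  have hk1 : (0 : ℤ) < k j₁ := by have := hw.hk j₁; omega
  have h1 : (k j₁ : ℤ) * D.v (F.X j₁) < 0 := mul_neg_of_pos_of_neg hk1 hj₁
  have h2 := hmin (some j₁) (Finset.mem_univ _)
  simp only [Option.elim_some, hv] at h2
  have hnone : ∀ o : Option (Fin (s + 3)), D.v (o.elim 1 fun j => F.X j ^ k j) < 0 →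
      ∃ j, o = some j := by
    rintro (_ | j) h
    · simp [D.one] at h
    · exact ⟨j, rfl⟩
  obtain ⟨i', rfl⟩ := hnone i (by omega)
  obtain ⟨j', rfl⟩ := hnone j (by omega)
  simp only [Option.elim_some, hv] at heq hmin h2
  refine ⟨(-((k i' : ℤ) * D.v (F.X i'))).toNat, by omega, fun l => ?_, i', j', ?_, by omega,
    by omega⟩
  · have h3 := hmin (some l) (Finset.mem_univ _)
    simp only [Option.elim_some, hv] at h3
    omega
  · rintro rfl
    exact hij rfl

/-- An affine centre: some coordinate is a unit. -/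
theorem exists_unit_coord (hw : Wt s k a d) (F : FD s k K) (D : DVal K)
    (hD : ∀ j, 0 ≤ D.v (F.X j)) : ∃ j, D.v (F.X j) = 0 := by
  by_contra hcon
  push Not at hcon
  have h1 : ∀ j ∈ (Finset.univ : Finset (Fin (s + 3))), F.X j ^ k j = 0 ∨ 1 ≤ D.v (F.X j ^ k j) := by
    intro j _
    right
    rw [D.pow (F.X_ne hw j)]
    have h2 : 1 ≤ D.v (F.X j) := by have h3 := hD j; have h4 := hcon j; omega
    have h3 : (2 : ℤ) ≤ k j := by exact_mod_cast hw.hk j
    nlinarith
  have h2 := D.sum_ge Finset.univ (fun j => F.X j ^ k j) 1 h1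
  have h3 : ∑ j, F.X j ^ k j = -1 := eq_neg_of_add_eq_zero_right F.rel
  rw [h3] at h2
  rcases h2 with h2 | h2
  · exact (neg_ne_zero.2 one_ne_zero) h2
  · rw [D.neg, D.one] at h2
    omega

/-- The prime ideal of the centre of `D` in the coordinate ring. -/
def centre (F : FD s k K) (D : DVal K) (hD : ∀ j, 0 ≤ D.v (F.X j)) : Ideal F.A where
  carrier := {h | (h : K) = 0 ∨ 1 ≤ D.v (h : K)}
  zero_mem' := Or.inl rfl
  add_mem' := by
    intro x y hx hy
    exact D.add_ge hx hy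
  smul_mem' := by
    intro x y hy
    have h1 : (x : K) = 0 ∨ 0 ≤ D.v (x : K) := Or.inr (F.v_nonneg D hD x.2)
    have h2 := D.mul_ge h1 hy
    rwa [zero_add] at h2

theorem mem_centre (F : FD s k K) (D : DVal K) (hD : ∀ j, 0 ≤ D.v (F.X j)) (h : F.A) :
    h ∈ centre F D hD ↔ ((h : K) = 0 ∨ 1 ≤ D.v (h : K)) := Iff.rfl

theorem centre_prime (F : FD s k K) (D : DVal K) (hD : ∀ j, 0 ≤ D.v (F.X j)) :
    (centre F D hD).IsPrime where
  ne_top' := by
    intro h
    have h1 : (1 : F.A) ∈ centre F D hD := by rw [h]; trivial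
    rw [mem_centre] at h1
    rcases h1 with h1 | h1
    · exact one_ne_zero h1
    · rw [OneMemClass.coe_one, D.one] at h1
      omega
  mem_or_mem' := by
    intro x y hxy
    rw [mem_centre] at hxy ⊢
    rw [mem_centre]
    by_cases hx : (x : K) = 0
    · exact Or.inl (Or.inl hx)
    by_cases hy : (y : K) = 0
    · exact Or.inr (Or.inl hy)
    have h1 : (1 : ℤ) ≤ D.v ((x : K) * (y : K)) := by
      rcases hxy with h | h
      · exact absurd h (mul_ne_zero hx hy)
      · exact h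
    rw [D.mul _ _ hx hy] at h1
    have h2 := F.v_nonneg D hD x.2
    have h3 := F.v_nonneg D hD y.2
    rcases (show 1 ≤ D.v (x : K) ∨ 1 ≤ D.v (y : K) by omega) with h | h
    · exact Or.inl (Or.inr h)
    · exact Or.inr (Or.inr h)

theorem centre_ne_bot (F : FD s k K) (D : DVal K) (hD : ∀ j, 0 ≤ D.v (F.X j)) :
    centre F D hD ≠ ⊥ := by
  intro h
  obtain ⟨x, hx, hx1⟩ := D.unif
  obtain ⟨p, hp, q, hq, hq0, rfl⟩ := F.frac' x
  have hp0 : p ≠ 0 := by
    rintro rfl
    simp at hx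
  have h1 : (⟨p, hp⟩ : F.A) ∈ centre F D hD := by
    rw [mem_centre]
    right
    rw [D.div' hp0 hq0] at hx1
    have := F.v_nonneg D hD hq
    show 1 ≤ D.v p
    omega
  rw [h] at h1
  exact hp0 (congrArg Subtype.val ((Submodule.mem_bot _).1 h1))

section Key
variable (F : FD 7 kk K) (B : Module.Basis (Fin 9) K (Derivation ℂ K K)) (hB : IsOmega F B)
  (E : DVal K) (hE : IsDeg F aa E) (D : DVal K)
include hB hE

theorem key_boundary (hD : ∃ j, D.v (F.X j) < 0) (h : K) (hh : h ∈ F.A) (h0 : h ≠ 0) :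
    11 * D.v h ≤ (- E.v h) * kord B D := by
  obtain ⟨q, hq0, hq, i, j, hij, hi, hj⟩ := exists_pole_pair wt F D hD
  obtain ⟨j₀, hj₀, H⟩ := arith (fun j => D.v (F.X j)) q hq0 hq i j hij hi hj
  have he := eps_nonneg wt F B hB D j₀
  have hek : eps F B D j₀ = kord B D + 1 + kk j₀ * D.v (F.X j₀) - ∑ j, D.v (F.X j) := rfl
  rw [hj₀] at hek
  rcases H _ he with H1 | ⟨h1, h2, h3, h4, h5⟩
  · have h6 := norm_bound' wt F B hB E hE D j₀ q 11 (60060 * kord B D) (by norm_num)
      (by omega) hq (fun l hl => by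
        refine (H1 l hl).trans (le_of_eq ?_)
        rw [hek]; ring) h hh h0
    push_cast at h6
    linarith
  · have h6 : kord B D = 0 := by
      have h7 : ∑ j, D.v (F.X j) = -5 := by
        rw [Fin.sum_univ_succ, Fin.sum_univ_succ, Finset.sum_eq_zero]
        · rw [h3]
          have h8 : D.v (F.X (Fin.succ 0)) = -2 := h4
          rw [h8]
          norm_num
        · intro l _
          apply h5
          rw [Fin.le_def]
          simp
      rw [h1, h7, h2] at hek
      push_cast at hek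
      linarith
    rw [h6, mul_zero]
    have h7 := exceptional F B hB D h3 h4 h5 h6 h hh h0
    linarith

theorem key_inside (hD : ∀ j, 0 ≤ D.v (F.X j)) :
    (1 ≤ kord B D ∧ ∀ h ∈ F.A, h ≠ 0 → 11 * D.v h ≤ (- E.v h) * kord B D) ∨
    (kord B D = 0 ∧ ∃ π : F.A, Prime π ∧ ∀ h : F.A, h ≠ 0 → (0 < D.v (h : K) ↔ π ∣ h)) := by
  obtain ⟨j₁, hj₁⟩ := exists_unit_coord wt F D hD
  have hk0 : 0 ≤ kord B D := by
    have h1 := kord_le B D (fun i => F.X (j₁.succAbove i)) (fun i => D.mem_ring'.2 (hD _))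
      (jac_X_ne wt F B hB j₁)
    rw [v_jac_X wt F B hB D j₁, hj₁, mul_zero] at h1
    omega
  rcases hk0.lt_or_eq with hk | hk
  · left
    refine ⟨hk, fun h hh h0 => ?_⟩
    obtain ⟨j₀, hj₀, H⟩ := arith0 (fun j => D.v (F.X j)) hD ⟨j₁, hj₁⟩
    have he := eps_nonneg wt F B hB D j₀
    have hek : eps F B D j₀ = kord B D + 1 + kk j₀ * D.v (F.X j₀) - ∑ j, D.v (F.X j) := rfl
    rw [hj₀, mul_zero, add_zero] at hek
    have h6 := norm_bound' wt F B hB E hE D j₀ 0 11 (60060 * kord B D) (by norm_num)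
      le_rfl (fun j => by
        have := hD j
        have : (0 : ℤ) ≤ kk j := by positivity
        simp only [neg_zero]
        positivity) (fun l hl => by
        have h7 := H _ he (by
          change 2 ≤ eps F B D j₀ + ∑ j, D.v (F.X j)
          omega) l hl
        rw [add_zero, sub_zero]
        refine h7.trans (le_of_eq ?_)
        rw [hek]; ring) h hh h0
    push_cast at h6
    linarith
  · right
    refine ⟨hk.symm, ?_⟩
    obtain ⟨w, hwA, hwi⟩ := exists_indep wt F B hB E hE D hD hk.symm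
    have := F.ufd
    obtain ⟨π, hπ, hπp⟩ := (centre_prime F D hD).exists_mem_prime_of_ne_bot (centre_ne_bot F D hD)
    have hπ0 : (π : K) ≠ 0 := fun h => hπp.ne_zero (Subtype.ext h)
    have hπ1 : 1 ≤ D.v (π : K) := ((mem_centre F D hD π).1 hπ).resolve_left hπ0
    refine ⟨π, hπp, fun h h0 => ⟨fun hv => ?_, ?_⟩⟩
    · by_contra hnd
      have hmem : h ∈ centre F D hD := Or.inr hv
      set wA : Fin 8 → F.A := fun i => ⟨w i, hwA i⟩ with hwAd
      obtain ⟨P, hP0, hP⟩ := alg_dep wt F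
        (fun i => (((Fin.cons π (Fin.cons h wA : Fin 9 → F.A) : Fin 10 → F.A) i : F.A) : K))
      have hP1 : aeval (Fin.cons π (Fin.cons h wA : Fin 9 → F.A) : Fin 10 → F.A) P = 0 := by
        apply Subtype.ext
        have h1 := MvPolynomial.aeval_algebraMap_apply K
          (Fin.cons π (Fin.cons h wA : Fin 9 → F.A) : Fin 10 → F.A) P
        have h2 : (algebraMap F.A K) (aeval (Fin.cons π (Fin.cons h wA : Fin 9 → F.A) :
          Fin 10 → F.A) P) = 0 := by
          rw [← h1]; exact hP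
        exact h2
      obtain ⟨R, hR0, x, y, hxy⟩ := elim π h hπp hnd wA P hP0 hP1
      have hR := hwi R hR0
      have h3 : ((aeval wA R : F.A) : K) = aeval w R := by
        have h1 := MvPolynomial.aeval_algebraMap_apply K wA R
        exact h1.symm
      have h4 : (aeval wA R : F.A) ∈ centre F D hD := by
        rw [hxy]
        exact Ideal.add_mem _ (Ideal.mul_mem_left _ _ hπ) (Ideal.mul_mem_left _ _ hmem)
      rw [mem_centre, h3] at h4
      rcases h4 with h4 | h4
      · exact hR.1 h4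
      · rw [hR.2] at h4
        omega
    · rintro ⟨g, rfl⟩
      have hg0 : (g : K) ≠ 0 := by
        intro h
        apply h0
        rw [show g = 0 from Subtype.ext h, mul_zero]
      have h1 : (((π * g : F.A)) : K) = (π : K) * (g : K) := rfl
      rw [h1, D.mul _ _ hπ0 hg0]
      have h2 := F.v_nonneg D hD g.2
      omega

/-- A family without common factor: some member satisfies the bound with the maximal degree. -/
theorem key_family {N : ℕ} (t : Fin (N + 1) → K) (ht : ∀ i, t i ≠ 0) (hA : ∀ i, t i ∈ F.A)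
    (hc : ∀ π : F.A, Prime π → ∃ i, ¬ π ∣ (⟨t i, hA i⟩ : F.A)) (m : ℕ)
    (hm : ∀ i, -(m : ℤ) ≤ E.v (t i)) (hm' : ∃ i, E.v (t i) = -(m : ℤ)) :
    ∃ i, 11 * D.v (t i) ≤ m * kord B D := by
  obtain ⟨i, hi⟩ := hm'
  by_cases hD : ∃ j, D.v (F.X j) < 0
  · refine ⟨i, ?_⟩
    have h1 := key_boundary F B hB E hE D hD (t i) (hA i) (ht i)
    rwa [hi, neg_neg] at h1
  · push Not at hD
    rcases key_inside F B hB E hE D hD with ⟨hk, h1⟩ | ⟨hk, π, hπ, h1⟩
    · refine ⟨i, ?_⟩
      have h2 := h1 (t i) (hA i) (ht i)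
      rwa [hi, neg_neg] at h2
    · obtain ⟨i₁, hi₁⟩ := hc π hπ
      refine ⟨i₁, ?_⟩
      rw [hk, mul_zero]
      have h2 : ¬ 0 < D.v (t i₁) := fun h =>
        hi₁ ((h1 ⟨t i₁, hA i₁⟩ (fun h0 => ht i₁ (congrArg Subtype.val h0))).1 h)
      linarith

end Key

end Pool.Agent.FR
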