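import Mathlib

/-!
Project FR (MP_c0959a_ag), row N2: an element of the fraction field which is not in a noetherian
integrally closed domain is not in some localisation which is a discrete valuation ring
(helper88).
-/

set_option autoImplicit false

namespace Pool.Agent.FR

section Krull

variable {R K : Type} [CommRing R] [IsDomain R] [IsNoetherianRing R] [Field K]
    [Algebra R K] [IsFractionRing R K] [IsIntegrallyClosed R]

/-- the ideal of the denominators of `y` -/
private def kr_den (R : Type) {K : Type} [CommRing R] [Field K] [Algebra R K] (y : K) :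
    Ideal R where
  carrier := {r | algebraMap R K r * y ∈ Set.range (algebraMap R K)}
  zero_mem' := ⟨0, by simp⟩
  add_mem' := by
    rintro a b ⟨c, hc⟩ ⟨d, hd⟩
    exact ⟨c + d, by rw [map_add, hc, hd, map_add, add_mul]⟩
  smul_mem' := by
    rintro a b ⟨c, hc⟩
    exact ⟨a * c, by rw [map_mul, hc, smul_eq_mul, map_mul, mul_assoc]⟩

omit [IsDomain R] [IsNoetherianRing R] [IsFractionRing R K] [IsIntegrallyClosed R] in
private theorem kr_mem_den {y : K} {r : R} :
    r ∈ kr_den R y ↔ ∃ s, algebraMap R K s = algebraMap R K r * y := Iff.rfl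

omit [IsIntegrallyClosed R] [IsNoetherianRing R] in
/-- the localisation at `p` is a discrete valuation ring if some element of `p` divides all
elements of `p` up to elements outside `p` -/
private theorem kr_dvr (hN : IsNoetherianRing R) (p : Ideal R) (hp : p.IsPrime) (hp0 : p ≠ ⊥)
    (r₀ t : R) (hr₀ : r₀ ∈ p) (ht : t ∉ p) (h : ∀ r ∈ p, ∃ r', t * r = r' * r₀) :
    IsDiscreteValuationRing (Localization.AtPrime p) := by
  have : IsNoetherianRing (Localization.AtPrime p) :=
    IsLocalization.isNoetherianRing p.primeCompl _ hN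
  have : IsDomain (Localization.AtPrime p) :=
    IsLocalization.isDomain_localization p.primeCompl_le_nonZeroDivisors
  have hmax : IsLocalRing.maximalIdeal (Localization.AtPrime p) =
      p.map (algebraMap R (Localization.AtPrime p)) :=
    (Localization.AtPrime.map_eq_maximalIdeal).symm
  have hinj : Function.Injective (algebraMap R (Localization.AtPrime p)) :=
    IsLocalization.injective _ p.primeCompl_le_nonZeroDivisors
  have hnf : ¬ IsField (Localization.AtPrime p) := by
    rw [IsLocalRing.isField_iff_maximalIdeal_eq, hmax, Ideal.map_eq_bot_iff_of_injective hinj]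
    exact hp0
  refine ((IsDiscreteValuationRing.TFAE _ hnf).out 0 4).2 ?_
  refine ⟨⟨algebraMap R _ r₀, ?_⟩⟩
  rw [hmax]
  apply le_antisymm
  · rw [Ideal.map_le_iff_le_comap]
    intro r hr
    obtain ⟨r', hr'⟩ := h r hr
    rw [Ideal.mem_comap, Ideal.submodule_span_eq, Ideal.mem_span_singleton]
    have hu : IsUnit (algebraMap R (Localization.AtPrime p) t) :=
      IsLocalization.map_units _ (⟨t, ht⟩ : p.primeCompl)
    have h2 : algebraMap R (Localization.AtPrime p) r₀ ∣
        algebraMap R (Localization.AtPrime p) t * algebraMap R _ r := by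
      rw [← map_mul, hr', map_mul]
      exact dvd_mul_left _ _
    exact (hu.dvd_mul_left).1 h2
  · rw [Ideal.submodule_span_eq, Ideal.span_singleton_le_iff_mem]
    exact Ideal.mem_map_of_mem _ hr₀

end Krull

/-- In a noetherian integrally closed domain `R` with fraction field `K`, an element `x` of `K`
outside `R` is not in some localisation of `R` at a prime which is a discrete valuation ring. -/
theorem krull_dvr {R K : Type} [CommRing R] [IsDomain R] [IsNoetherianRing R] [Field K]
    [Algebra R K] [IsFractionRing R K] [IsIntegrallyClosed R] (x : K)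
    (hx : x ∉ Set.range (algebraMap R K)) : ∃ (p : Ideal R) (_ : p.IsPrime),
      IsDiscreteValuationRing (Localization.AtPrime p) ∧
      ∀ a b : R, b ∉ p → x ≠ algebraMap R K a / algebraMap R K b := by
  obtain ⟨p, ⟨y, ⟨⟨r, hr⟩, hy⟩, rfl⟩, hmax⟩ := set_has_maximal_iff_noetherian.2
    (inferInstance : IsNoetherian R R)
    ((kr_den R) '' {y : K | (∃ r : R, y = algebraMap R K r * x) ∧ y ∉ Set.range (algebraMap R K)})
    ⟨_, ⟨x, ⟨⟨1, by simp⟩, hx⟩, rfl⟩⟩
  have hinj : Function.Injective (algebraMap R K) := IsFractionRing.injective R K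
  have hprime : (kr_den R y).IsPrime := by
    refine ⟨?_, ?_⟩
    · intro h
      apply hy
      have h1 : (1 : R) ∈ kr_den R y := by rw [h]; trivial
      obtain ⟨s, hs⟩ := kr_mem_den.1 h1
      exact ⟨s, by rw [hs]; simp⟩
    · intro a b hab
      by_contra hcon
      rw [not_or] at hcon
      obtain ⟨ha, hb⟩ := hcon
      have hle : kr_den R y ≤ kr_den R (algebraMap R K b * y) := by
        intro s hs
        obtain ⟨c, hc⟩ := kr_mem_den.1 hs
        exact kr_mem_den.2 ⟨b * c, by rw [map_mul, hc]; ring⟩
      have hlt : kr_den R y < kr_den R (algebraMap R K b * y) := by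
        refine lt_of_le_of_ne hle fun he => ha ?_
        rw [he]
        obtain ⟨c, hc⟩ := kr_mem_den.1 hab
        exact kr_mem_den.2 ⟨c, by rw [hc, map_mul]; ring⟩
      refine hmax _ ⟨algebraMap R K b * y, ⟨⟨b * r, ?_⟩, ?_⟩, rfl⟩ hlt
      · rw [hr, map_mul]; ring
      · intro hcon
        exact hb hcon
  have hne : kr_den R y ≠ ⊥ := by
    obtain ⟨a, b, hb, hab⟩ := IsFractionRing.div_surjective (A := R) y
    intro h
    have hb' : b ∈ kr_den R y := by
      refine kr_mem_den.2 ⟨a, ?_⟩
      have hb0 : algebraMap R K b ≠ 0 := by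
        rw [Ne, map_eq_zero_iff _ hinj]; exact nonZeroDivisors.ne_zero hb
      rw [← hab]; field_simp
    rw [h, Ideal.mem_bot] at hb'
    exact nonZeroDivisors.ne_zero hb hb'
  refine ⟨kr_den R y, hprime, ?_, ?_⟩
  · by_cases hall : ∀ s ∈ kr_den R y, ∀ s' : R, algebraMap R K s' = algebraMap R K s * y →
        s' ∈ kr_den R y
    · exfalso
      apply hy
      have hint : IsIntegral R y := by
        refine isIntegral_of_smul_mem_submodule (R := R) (A := K) (M := K)
          (Submodule.map (Algebra.linearMap R K) (kr_den R y)) ?_ ?_ y ?_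
        · intro h0
          obtain ⟨s, hs, hs0⟩ := Submodule.exists_mem_ne_zero_of_ne_bot hne
          have h1 : Algebra.linearMap R K s ∈ Submodule.map (Algebra.linearMap R K)
              (kr_den R y) := Submodule.mem_map_of_mem hs
          rw [h0, Submodule.mem_bot, Algebra.linearMap_apply, map_eq_zero_iff _ hinj] at h1
          exact hs0 h1
        · exact Submodule.FG.map _ (IsNoetherian.noetherian (kr_den R y))
        · rintro _ ⟨s, hs, rfl⟩
          obtain ⟨s', hs'⟩ := kr_mem_den.1 hs
          refine ⟨s', hall s hs s' hs', ?_⟩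
          rw [Algebra.linearMap_apply, hs', Algebra.linearMap_apply, smul_eq_mul, mul_comm]
      exact IsIntegrallyClosed.isIntegral_iff.1 hint
    · push Not at hall
      obtain ⟨r₀, hr₀, t, ht, htn⟩ := hall
      refine kr_dvr inferInstance _ hprime hne r₀ t hr₀ htn fun s hs => ?_
      obtain ⟨s', hs'⟩ := kr_mem_den.1 hs
      refine ⟨s', hinj ?_⟩
      rw [map_mul, map_mul, ht, hs']
      ring
  · rintro a b hb rfl
    apply hb
    have hb0 : algebraMap R K b ≠ 0 := by
      rw [Ne, map_eq_zero_iff _ hinj]
      rintro rfl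
      exact hb (Ideal.zero_mem _)
    refine kr_mem_den.2 ⟨r * a, ?_⟩
    rw [hr, map_mul]
    field_simp

end Pool.Agent.FR
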