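import Pool.Agent.FR.Super

/-!
# Local rings of a family at a place (project FR, row N1)
-/

set_option autoImplicit false
set_option linter.unusedSectionVars false
set_option linter.unusedVariables false

namespace Pool.Agent.FR

variable {K : Type} [Field K] [Algebra ℂ K]

theorem loc_ratio_mem {N : ℕ} (g : Fin (N + 1) → K) (i j : Fin (N + 1)) :
    g j / g i ∈ chart g i :=
  Algebra.subset_adjoin ⟨j, rfl⟩

/-- Clearing denominators from the chart `i'` to the chart `i`. -/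
theorem loc_clear {N : ℕ} (g : Fin (N + 1) → K) (hg : ∀ i, g i ≠ 0) (i i' : Fin (N + 1)) :
    ∀ x ∈ chart g i', ∃ e : ℕ, x * (g i' / g i) ^ e ∈ chart g i := by
  have ht : g i' / g i ∈ chart g i := loc_ratio_mem g i i'
  intro x hx
  induction hx using Algebra.adjoin_induction with
  | mem x hx =>
    obtain ⟨j, rfl⟩ := hx
    refine ⟨1, ?_⟩
    have h : g j / g i' * (g i' / g i) ^ 1 = g j / g i := by
      rw [pow_one, div_mul_div_cancel₀ (hg i')]
    show g j / g i' * (g i' / g i) ^ 1 ∈ chart g i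
    rw [h]
    exact loc_ratio_mem g i j
  | algebraMap c =>
    refine ⟨0, ?_⟩
    rw [pow_zero, mul_one]
    exact (chart g i).algebraMap_mem c
  | add x y _ _ ihx ihy =>
    obtain ⟨e, he⟩ := ihx
    obtain ⟨f, hf⟩ := ihy
    refine ⟨e + f, ?_⟩
    have h : (x + y) * (g i' / g i) ^ (e + f) = x * (g i' / g i) ^ e * (g i' / g i) ^ f +
        y * (g i' / g i) ^ f * (g i' / g i) ^ e := by ring
    rw [h]
    exact (chart g i).add_mem ((chart g i).mul_mem he ((chart g i).pow_mem ht f))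
      ((chart g i).mul_mem hf ((chart g i).pow_mem ht e))
  | mul x y _ _ ihx ihy =>
    obtain ⟨e, he⟩ := ihx
    obtain ⟨f, hf⟩ := ihy
    refine ⟨e + f, ?_⟩
    have h : x * y * (g i' / g i) ^ (e + f) = x * (g i' / g i) ^ e * (y * (g i' / g i) ^ f) := by
      ring
    rw [h]
    exact (chart g i).mul_mem he hf

/-- A common exponent for two elements. -/
theorem loc_clear₂ {N : ℕ} (g : Fin (N + 1) → K) (hg : ∀ i, g i ≠ 0) (i i' : Fin (N + 1))
    (a b : K) (ha : a ∈ chart g i') (hb : b ∈ chart g i') :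
    ∃ e : ℕ, a * (g i' / g i) ^ e ∈ chart g i ∧ b * (g i' / g i) ^ e ∈ chart g i := by
  have ht : g i' / g i ∈ chart g i := loc_ratio_mem g i i'
  obtain ⟨e, he⟩ := loc_clear g hg i i' a ha
  obtain ⟨f, hf⟩ := loc_clear g hg i i' b hb
  refine ⟨e + f, ?_, ?_⟩
  · rw [pow_add, ← mul_assoc]
    exact (chart g i).mul_mem he ((chart g i).pow_mem ht f)
  · rw [add_comm, pow_add, ← mul_assoc]
    exact (chart g i).mul_mem hf ((chart g i).pow_mem ht e)

section Loc
variable {N : ℕ} (g : Fin (N + 1) → K) (hg : ∀ i, g i ≠ 0) (V : ValuationSubring K)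
  (hV : IsPlace V)

include hg in
theorem exists_min : ∃ i, ∀ j, g j / g i ∈ V := by
  obtain ⟨i, hi⟩ := Finite.exists_max (fun i => V.valuation (g i))
  refine ⟨i, fun j => ?_⟩
  rw [← V.valuation_le_one_iff, map_div₀]
  have h0 : V.valuation (g i) ≠ 0 := (V.valuation.ne_zero_iff).2 (hg i)
  rw [div_le_one₀ (zero_lt_iff.2 h0)]
  exact hi j

include hV in
theorem chart_le (i : Fin (N + 1)) (hi : ∀ j, g j / g i ∈ V) : ∀ x ∈ chart g i, x ∈ V := by
  intro x hx
  induction hx using Algebra.adjoin_induction with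
  | mem x hx =>
    obtain ⟨j, rfl⟩ := hx
    exact hi j
  | algebraMap c => exact hV c
  | add x y _ _ ihx ihy => exact V.add_mem _ _ ihx ihy
  | mul x y _ _ ihx ihy => exact V.mul_mem _ _ ihx ihy

include hg hV in
/-- Independence of the chart. -/
theorem locRing_eq (i : Fin (N + 1)) (hi : ∀ j, g j / g i ∈ V) : locRing g V =
    {x | ∃ a ∈ chart g i, ∃ b ∈ chart g i, b ≠ 0 ∧ b⁻¹ ∈ V ∧ x = a / b} := by
  ext x
  constructor
  · rintro ⟨i', hi', a, ha, b, hb, hb0, hbV, rfl⟩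
    obtain ⟨e, hae, hbe⟩ := loc_clear₂ g hg i i' a b ha hb
    have ht0 : (g i' / g i) ^ e ≠ 0 := pow_ne_zero e (div_ne_zero (hg i') (hg i))
    refine ⟨_, hae, _, hbe, mul_ne_zero hb0 ht0, ?_, ?_⟩
    · rw [mul_inv, ← inv_pow, inv_div]
      exact V.mul_mem _ _ hbV (pow_mem (hi' i) e)
    · rw [mul_div_mul_right _ _ ht0]
  · rintro ⟨a, ha, b, hb, hb0, hbV, rfl⟩
    exact ⟨i, hi, a, ha, b, hb, hb0, hbV, rfl⟩

/-- `locRing g V` as a subalgebra. -/
def locAlg (g : Fin (N + 1) → K) (hg : ∀ i, g i ≠ 0) (V : ValuationSubring K) (hV : IsPlace V) :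
    Subalgebra ℂ K where
  carrier := locRing g V
  mul_mem' := by
    intro x y hx hy
    obtain ⟨i, hi⟩ := exists_min g hg V
    rw [locRing_eq g hg V hV i hi] at hx hy ⊢
    obtain ⟨a, ha, b, hb, hb0, hbV, rfl⟩ := hx
    obtain ⟨c, hc, d, hd, hd0, hdV, rfl⟩ := hy
    refine ⟨a * c, (chart g i).mul_mem ha hc, b * d, (chart g i).mul_mem hb hd,
      mul_ne_zero hb0 hd0, ?_, div_mul_div_comm a b c d⟩
    rw [mul_inv]
    exact V.mul_mem _ _ hbV hdV
  add_mem' := by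
    intro x y hx hy
    obtain ⟨i, hi⟩ := exists_min g hg V
    rw [locRing_eq g hg V hV i hi] at hx hy ⊢
    obtain ⟨a, ha, b, hb, hb0, hbV, rfl⟩ := hx
    obtain ⟨c, hc, d, hd, hd0, hdV, rfl⟩ := hy
    refine ⟨a * d + b * c, (chart g i).add_mem ((chart g i).mul_mem ha hd)
      ((chart g i).mul_mem hb hc), b * d, (chart g i).mul_mem hb hd,
      mul_ne_zero hb0 hd0, ?_, div_add_div a c hb0 hd0⟩
    rw [mul_inv]
    exact V.mul_mem _ _ hbV hdV
  algebraMap_mem' := by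
    intro c
    obtain ⟨i, hi⟩ := exists_min g hg V
    rw [locRing_eq g hg V hV i hi]
    refine ⟨algebraMap ℂ K c, (chart g i).algebraMap_mem c, 1, (chart g i).one_mem, one_ne_zero,
      ?_, ?_⟩
    · rw [inv_one]
      exact V.one_mem
    · rw [div_one]

include hV in
theorem locRing_le : ∀ x ∈ locRing g V, x ∈ V := by
  rintro x ⟨i, hi, a, ha, b, hb, hb0, hbV, rfl⟩
  rw [div_eq_mul_inv]
  exact V.mul_mem _ _ (chart_le g V hV i hi a ha) hbV

include hg hV in
theorem locRing_inv (x : K) (hx : x ∈ locRing g V) (h0 : x ≠ 0) (hi : x⁻¹ ∈ V) :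
    x⁻¹ ∈ locRing g V := by
  obtain ⟨i, hiV, a, ha, b, hb, hb0, hbV, rfl⟩ := hx
  have ha0 : a ≠ 0 := by
    rintro rfl
    exact h0 (zero_div b)
  refine ⟨i, hiV, b, hb, a, ha, ha0, ?_, inv_div a b⟩
  have h1 : a⁻¹ = (a / b)⁻¹ * b⁻¹ := by
    rw [inv_div]
    field_simp
  rw [h1]
  exact V.mul_mem _ _ hi hbV

include hg hV in
theorem loc_chart_mem (i : Fin (N + 1)) (hi : ∀ j, g j / g i ∈ V) (x : K) (hx : x ∈ chart g i) :
    x ∈ locRing g V := by
  rw [locRing_eq g hg V hV i hi]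
  refine ⟨x, hx, 1, (chart g i).one_mem, one_ne_zero, ?_, (div_one x).symm⟩
  rw [inv_one]
  exact V.one_mem

end Loc

theorem locRing_frac (Y : Model (⊤ : IntermediateField ℂ K)) (V : ValuationSubring K)
    (hV : IsPlace V) (x : K) : ∃ a ∈ locRing Y.g V, ∃ b ∈ locRing Y.g V, b ≠ 0 ∧ x = a / b := by
  obtain ⟨a, ha, b, hb, hb0, rfl⟩ := Y.frac x IntermediateField.mem_top
  obtain ⟨i, hi⟩ := exists_min Y.g Y.ne V
  obtain ⟨e, hae, hbe⟩ := loc_clear₂ Y.g Y.ne i 0 a b ha hb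
  have ht0 : (Y.g 0 / Y.g i) ^ e ≠ 0 := pow_ne_zero e (div_ne_zero (Y.ne 0) (Y.ne i))
  refine ⟨_, loc_chart_mem Y.g Y.ne V hV i hi _ hae, _, loc_chart_mem Y.g Y.ne V hV i hi _ hbe,
    mul_ne_zero hb0 ht0, ?_⟩
  rw [mul_div_mul_right _ _ ht0]

/-- If `L ⊆ V` then the local ring of a model of `L` at `V` is all of `L`. -/
theorem locRing_of_le {L : IntermediateField ℂ K} (S : Model L) (V : ValuationSubring K)
    (hV : IsPlace V) (hL : ∀ x ∈ L, x ∈ V) : locRing S.g V = (L : Set K) := by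
  have hch : ∀ i, ∀ x ∈ chart S.g i, x ∈ L := by
    intro i x hx
    have hle : chart S.g i ≤ L.toSubalgebra := by
      rw [Algebra.adjoin_le_iff]
      rintro _ ⟨j, rfl⟩
      exact L.div_mem (S.mem j) (S.mem i)
    exact hle hx
  ext x
  constructor
  · rintro ⟨i, hi, a, ha, b, hb, hb0, hbV, rfl⟩
    exact L.div_mem (hch i a ha) (hch i b hb)
  · intro hx
    obtain ⟨a, ha, b, hb, hb0, rfl⟩ := S.frac x hx
    exact ⟨0, fun j => hL _ (L.div_mem (S.mem j) (S.mem 0)), a, ha, b, hb, hb0,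
      hL _ (L.inv_mem (hch 0 b hb)), rfl⟩

end Pool.Agent.FR
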