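import Pool.Agent.FR.Kord

/-!
# Logarithmic forms have at most a simple pole: `log_form`
-/

set_option autoImplicit false

namespace Pool.Agent.FR

open scoped Classical

variable {K : Type} [Field K] [Algebra ℂ K]

/-- The determinant of a rank one update with a simple pole has at most a simple pole. -/
theorem det_rank_one_ge (D : DVal K) {n : ℕ} (m : Matrix (Fin n) (Fin n) K) (p : Fin n → K)
    (a : Fin n → ℤ) (hm : ∀ i j, m i j = 0 ∨ 0 ≤ D.v (m i j))
    (hp : ∀ i, p i = 0 ∨ -1 ≤ D.v (p i)) :
    (Matrix.of fun i j => m i j + (a j : K) * p i).det = 0 ∨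
      -1 ≤ D.v (Matrix.of fun i j => m i j + (a j : K) * p i).det := by
  have hint : ∀ z : ℤ, (z : K) = 0 ∨ 0 ≤ D.v (z : K) := by
    intro z
    by_cases hz : z = 0
    · left; simp [hz]
    · right; rw [D.intCast hz]
  by_cases ha : ∀ j, a j = 0
  · have h1 : (Matrix.of fun i j => m i j + (a j : K) * p i) = m := by
      ext i j
      simp [ha j]
    rw [h1]
    refine (det_ge D m (fun _ => 0) hm).imp id fun h => ?_
    rw [Finset.sum_const_zero] at h
    omega
  push Not at ha
  obtain ⟨k, hk⟩ := ha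
  have hk0 : ((a k : ℤ) : K) ≠ 0 := by
    intro h0
    have h1 := D.const ((a k : ℤ) : ℂ) (by exact_mod_cast hk)
    have h2 : algebraMap ℂ K ((a k : ℤ) : ℂ) = 0 := by rw [map_intCast, h0]
    rw [map_eq_zero] at h2
    exact hk (by exact_mod_cast h2)
  have hdiv : ∀ i, (a i : K) / (a k : K) = 0 ∨ 0 ≤ D.v ((a i : K) / (a k : K)) := by
    intro i
    by_cases hi : ((a i : ℤ) : K) = 0
    · left; rw [hi, zero_div]
    · right
      have hi' : a i ≠ 0 := by
        intro h
        rw [h, Int.cast_zero] at hi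
        exact hi rfl
      rw [D.div' hi hk0, D.intCast hi', D.intCast hk]
      simp
  set A : Matrix (Fin n) (Fin n) K := Matrix.of fun i j => m j i + (a i : K) * p j with hA
  set B : Matrix (Fin n) (Fin n) K := Matrix.of fun i j =>
    if i = k then m j k + (a k : K) * p j else m j i - (a i : K) / (a k : K) * m j k with hB
  have h1 : (Matrix.of fun i j => m i j + (a j : K) * p i).det = A.det := by
    rw [← Matrix.det_transpose A]
    rfl
  have h2 : A.det = B.det := by
    refine Matrix.det_eq_of_forall_row_eq_smul_add_const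
      (fun i => if i = k then 0 else (a i : K) / (a k : K)) k (if_pos rfl) fun i j => ?_
    by_cases hi : i = k
    · subst hi
      simp [hA, hB]
    · simp only [hA, hB, Matrix.of_apply, if_neg hi, if_true]
      field_simp
      ring
  rw [h1, h2]
  have h3 := det_ge D B (fun i => if i = k then -1 else 0) fun i j => by
    by_cases hi : i = k
    · simp only [hB, Matrix.of_apply, if_pos hi]
      have h4 := D.mul_ge (hint (a k)) (hp j)
      rw [zero_add] at h4
      exact D.add_ge ((hm j k).imp id fun h => by omega) h4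
    · simp only [hB, Matrix.of_apply, if_neg hi]
      rw [sub_eq_add_neg]
      have h4 := D.mul_ge (hdiv i) (hm j k)
      rw [add_zero] at h4
      exact D.add_ge (hm j i) (D.neg_ge h4)
  rw [Finset.sum_ite_eq' Finset.univ k] at h3
  simpa using h3

section

variable {n : ℕ} (B : Module.Basis (Fin n) K (Derivation ℂ K K)) (D : DVal K)

theorem sum_smul_der_apply (c : Fin n → K) (x : K) :
    (∑ l, c l • B l : Derivation ℂ K K) x = ∑ l, c l * B l x := by
  have h3 : ∀ (s : Finset (Fin n)) (G : Fin n → Derivation ℂ K K),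
      (∑ l ∈ s, G l) x = ∑ l ∈ s, G l x := by
    intro s G
    induction s using Finset.induction_on with
    | empty => simp
    | insert a s ha ih =>
      rw [Finset.sum_insert ha, Finset.sum_insert ha, Derivation.add_apply, ih]
  rw [h3]
  rfl

/-- Derivations which preserve the ring of `D`, dual to a family which computes `kord`. -/
theorem lf_dual : ∃ (δ : Fin n → Derivation ℂ K K) (g : K), (∀ i, ∀ x ∈ D.ring, δ i x ∈ D.ring) ∧
    g ≠ 0 ∧ D.v g = kord B D ∧
    ∀ u : Fin n → K, (Matrix.of fun i j => δ i (u j)).det = g * jac B u := by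
  obtain ⟨u₀, hu₀, hj, he⟩ := kord_eq B D
  set M₀ : Matrix (Fin n) (Fin n) K := Matrix.of fun i j => B i (u₀ j) with hM₀
  have hdet : IsUnit M₀.det := IsUnit.mk0 _ hj
  set δ : Fin n → Derivation ℂ K K := fun i => ∑ l, M₀⁻¹ i l • B l with hδ
  have hmat : ∀ u : Fin n → K, (Matrix.of fun i j => δ i (u j)) =
      M₀⁻¹ * (Matrix.of fun i j => B i (u j)) := by
    intro u
    ext i j
    rw [Matrix.mul_apply, Matrix.of_apply, hδ]
    simp only [sum_smul_der_apply, Matrix.of_apply]
  have hdetu : ∀ u : Fin n → K, (Matrix.of fun i j => δ i (u j)).det =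
      (jac B u₀)⁻¹ * jac B u := by
    intro u
    rw [hmat, Matrix.det_mul, Matrix.det_nonsing_inv, Ring.inverse_eq_inv']
    rfl
  refine ⟨δ, (jac B u₀)⁻¹, ?_, inv_ne_zero hj, by rw [D.inv hj, he, neg_neg], hdetu⟩
  intro i x hx
  have h1 : (Matrix.of fun l j => δ l (Function.update u₀ i x j)) =
      (1 : Matrix (Fin n) (Fin n) K).updateCol i (fun l => δ l x) := by
    have h2 : (Matrix.of fun l j => δ l (u₀ j)) = 1 := by
      rw [hmat, Matrix.nonsing_inv_mul _ hdet]
    ext l j
    rw [Matrix.of_apply, Matrix.updateCol_apply]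
    by_cases hji : j = i
    · subst hji
      rw [Function.update_self, if_pos rfl]
    · rw [Function.update_of_ne hji, if_neg hji, ← h2, Matrix.of_apply]
  have h3 : δ i x = (jac B u₀)⁻¹ * jac B (Function.update u₀ i x) := by
    rw [← hdetu, h1, ← Matrix.cramer_apply, Matrix.cramer_one]
    rfl
  rw [h3]
  by_cases h0 : jac B (Function.update u₀ i x) = 0
  · rw [h0, mul_zero]
    exact D.ring.zero_mem
  · have h4 := kord_le B D (Function.update u₀ i x) (fun j => by
      by_cases hji : j = i
      · subst hji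
        rw [Function.update_self]
        exact hx
      · rw [Function.update_of_ne hji]
        exact hu₀ j) h0
    rw [D.mem_ring', D.mul _ _ (inv_ne_zero hj) h0, D.inv hj, he]
    omega

theorem log_form (u : Fin n → K) (hu : ∀ j, u j ≠ 0) (hj : jac B u ≠ 0) :
    ∑ j, D.v (u j) ≤ D.v (jac B u) + kord B D + 1 := by
  obtain ⟨δ, g, hδ, hg, hgv, hdet⟩ := lf_dual B D
  obtain ⟨t, ht, ht1⟩ := D.unif
  have hmem : ∀ x : K, x ∈ D.ring → x = 0 ∨ 0 ≤ D.v x := fun x hx => hx
  -- the unit parts
  set e : Fin n → K := fun j => u j / t ^ (D.v (u j)) with he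
  have htz : ∀ z : ℤ, t ^ z ≠ 0 := fun z => zpow_ne_zero z ht
  have he0 : ∀ j, e j ≠ 0 := fun j => div_ne_zero (hu j) (htz _)
  have hev : ∀ j, D.v (e j) = 0 := by
    intro j
    rw [he]
    simp only
    rw [D.div' (hu j) (htz _), D.zpow ht, ht1]
    ring
  have hue : ∀ j, u j = t ^ (D.v (u j)) * e j := by
    intro j
    rw [he]
    simp only
    rw [mul_div_cancel₀ _ (htz _)]
  have hlog : ∀ i j, δ i (u j) = u j * (δ i (e j) / e j + ((D.v (u j) : ℤ) : K) * (δ i t / t)) := by
    intro i j
    conv_lhs => rw [hue j, (δ i).leibniz, (δ i).leibniz_zpow]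
    conv_rhs => rw [show u j * (δ i (e j) / e j + ((D.v (u j) : ℤ) : K) * (δ i t / t)) =
      t ^ (D.v (u j)) * e j * (δ i (e j) / e j + ((D.v (u j) : ℤ) : K) * (δ i t / t)) by
        rw [← hue j]]
    simp only [smul_eq_mul, zsmul_eq_mul]
    rw [zpow_sub_one₀ ht]
    have h1 := he0 j
    field_simp
  have h1 : (Matrix.of fun i j => δ i (u j)) = Matrix.of fun i j => u j *
      (Matrix.of fun i j => δ i (e j) / e j + ((D.v (u j) : ℤ) : K) * (δ i t / t)) i j := by
    ext i j
    rw [Matrix.of_apply, Matrix.of_apply, Matrix.of_apply, hlog]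
  have h2 := hdet u
  rw [h1, Matrix.det_mul_row] at h2
  have hne : g * jac B u ≠ 0 := mul_ne_zero hg hj
  rw [← h2] at hne
  have h3 := det_rank_one_ge D (Matrix.of fun i j => δ i (e j) / e j) (fun i => δ i t / t)
    (fun j => D.v (u j)) (fun i j => by
      rw [Matrix.of_apply, div_eq_mul_inv]
      have h4 := D.mul_ge (hmem _ (hδ i (e j) (D.mem_ring'.2 (by rw [hev j]))))
        (y := (e j)⁻¹) (c' := 0) (Or.inr (by rw [D.inv (he0 j), hev j]; simp))
      simpa using h4) (fun i => by
      rw [div_eq_mul_inv]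
      have h4 := D.mul_ge (hmem _ (hδ i t (D.mem_ring'.2 (by rw [ht1]; norm_num))))
        (y := t⁻¹) (c' := -1) (Or.inr (by rw [D.inv ht, ht1]))
      simpa using h4)
  have h5 := h3.resolve_left (right_ne_zero_of_mul hne)
  have h6 := congrArg D.v h2
  rw [D.mul _ _ (left_ne_zero_of_mul hne) (right_ne_zero_of_mul hne), D.mul _ _ hg hj,
    D.prod _ _ (fun j _ => hu j), hgv] at h6
  simp only [Matrix.of_apply] at h5 h6
  omega

end

end Pool.Agent.FR
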