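import Pool.Agent.FR.XDefs
import Pool.Agent.FR.KBasic

/-!
# Block X: basic facts on the coordinate ring and on places
-/

set_option autoImplicit false

namespace Pool.Agent.FR

open MvPolynomial

variable {s : ℕ} {k a : Fin (s + 3) → ℕ} {d : ℕ} {K : Type} [Field K] [Algebra ℂ K]

theorem FD.aeval_mem (F : FD s k K) (P : MvPolynomial (Fin (s + 3)) ℂ) : aeval F.X P ∈ F.A :=
  ⟨P, rfl⟩

theorem FD.frac_A (F : FD s k K) (x : K) : ∃ p ∈ F.A, ∃ q ∈ F.A, q ≠ 0 ∧ x = p / q := by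
  obtain ⟨P, Q, hQ, hx⟩ := F.frac x
  exact ⟨aeval F.X P, F.aeval_mem P, aeval F.X Q, F.aeval_mem Q, hQ, hx⟩

theorem FD.isFractionRing (F : FD s k K) : IsFractionRing F.A K := by
  apply IsFractionRing.of_field
  intro z
  obtain ⟨p, hp, q, hq, _, hz⟩ := F.frac_A z
  exact ⟨⟨p, hp⟩, ⟨q, hq⟩, hz⟩

theorem FD.isNoetherian (F : FD s k K) : IsNoetherianRing F.A := by
  have h : Function.Surjective
      (aeval F.X : MvPolynomial (Fin (s + 3)) ℂ →ₐ[ℂ] K).rangeRestrict :=
    AlgHom.rangeRestrict_surjective _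
  exact isNoetherianRing_of_surjective (MvPolynomial (Fin (s + 3)) ℂ) F.A
    (aeval F.X : MvPolynomial (Fin (s + 3)) ℂ →ₐ[ℂ] K).rangeRestrict.toRingHom h

theorem FD.A_eq_adjoin (F : FD s k K) : F.A = Algebra.adjoin ℂ (Set.range F.X) :=
  (Algebra.adjoin_range_eq_range_aeval ℂ F.X).symm

theorem Wt.a_pos (hw : Wt s k a d) (j : Fin (s + 3)) : 0 < a j := by
  rcases Nat.eq_zero_or_pos (a j) with h | h
  · have h1 := hw.ka j
    rw [h, mul_zero] at h1
    exact absurd hw.hd (by omega)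
  · exact h

theorem Wt.k_pos (hw : Wt s k a d) (j : Fin (s + 3)) : 0 < k j :=
  lt_of_lt_of_le (by norm_num) (hw.hk j)

theorem IsDeg.v_X (hw : Wt s k a d) {F : FD s k K} {E : DVal K} (hE : IsDeg F a E)
    (j : Fin (s + 3)) : E.v (F.X j) = -(a j : ℤ) := by
  classical
  have h1 : degreeOf j (MvPolynomial.X j : MvPolynomial (Fin (s + 3)) ℂ) < k j := by
    have := hw.hk j
    rw [degreeOf_X, if_pos rfl]
    omega
  have h2 := hE.red j (MvPolynomial.X j) (X_ne_zero j) h1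
  rw [aeval_X] at h2
  rw [h2]
  congr 2
  unfold weightedTotalDegree
  rw [support_X, Finset.sup_singleton, Finsupp.weight_single, one_smul]

theorem AtInf.inv_mem {F : FD s k K} {V : ValuationSubring K} {j : Fin (s + 3)}
    (h : AtInf F V j) : (F.X j)⁻¹ ∈ V :=
  (V.mem_or_inv_mem (F.X j)).resolve_left h.1

/-- Every place is either finite or at infinity. -/
theorem inside_or (hw : Wt s k a d) (F : FD s k K) (V : ValuationSubring K) :
    (∀ j, F.X j ∈ V) ∨ ∃ j, AtInf F V j := by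
  by_cases h : ∀ j, F.X j ∈ V
  · exact Or.inl h
  right
  push Not at h
  obtain ⟨i₀, hi₀⟩ := h
  obtain ⟨j, -, hj⟩ := Finset.exists_max_image Finset.univ
    (fun i : Fin (s + 3) => V.valuation (F.X i ^ k i)) ⟨i₀, Finset.mem_univ _⟩
  have h1 : 1 < V.valuation (F.X i₀) := by
    rw [← not_le, V.valuation_le_one_iff]
    exact hi₀
  have h2 : 1 < V.valuation (F.X i₀ ^ k i₀) := by
    rw [map_pow]
    exact one_lt_pow₀ h1 (hw.k_pos i₀).ne'
  have h3 : 1 < V.valuation (F.X j ^ k j) := lt_of_lt_of_le h2 (hj i₀ (Finset.mem_univ _))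
  refine ⟨j, ?_, ?_⟩
  · intro hm
    have h4 : F.X j ^ k j ∈ V := pow_mem hm _
    rw [← V.valuation_le_one_iff] at h4
    exact absurd h3 (not_lt.2 h4)
  · intro i
    rw [← V.valuation_le_one_iff, map_div₀]
    have h5 : V.valuation (F.X j ^ k j) ≠ 0 := (lt_trans zero_lt_one h3).ne'
    exact div_le_one_of_le₀ (hj i (Finset.mem_univ _)) zero_le

end Pool.Agent.FR
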