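import Pool.Agent.FR.XDefs

/-!
# Valuations of the fraction field (project FR, X4)
-/

set_option autoImplicit false

namespace Pool.Agent.FR

open scoped Classical

variable {K : Type} [Field K] [Algebra ℂ K]

/-- A valuation defined on a subring extends to the field of fractions. -/
theorem exists_ext (A : Subalgebra ℂ K) (hA : ∀ x : K, ∃ p ∈ A, ∃ q ∈ A, q ≠ 0 ∧ x = p / q)
    (w : K → ℤ) (hmul : ∀ x ∈ A, ∀ y ∈ A, x ≠ 0 → y ≠ 0 → w (x * y) = w x + w y)
    (hadd : ∀ x ∈ A, ∀ y ∈ A, x ≠ 0 → y ≠ 0 → x + y ≠ 0 → min (w x) (w y) ≤ w (x + y))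
    (hconst : ∀ c : ℂ, c ≠ 0 → w (algebraMap ℂ K c) = 0) :
    ∃ v : K → ℤ, v 0 = 0 ∧ (∀ x y : K, x ≠ 0 → y ≠ 0 → v (x * y) = v x + v y) ∧
      (∀ x y : K, x ≠ 0 → y ≠ 0 → x + y ≠ 0 → min (v x) (v y) ≤ v (x + y)) ∧
      (∀ c : ℂ, c ≠ 0 → v (algebraMap ℂ K c) = 0) ∧ ∀ x ∈ A, x ≠ 0 → v x = w x := by
  choose p hp q hq hq0 hpq using hA
  have hp0 : ∀ x : K, x ≠ 0 → p x ≠ 0 := by
    intro x hx h
    apply hx
    rw [hpq x, h, zero_div]
  set v : K → ℤ := fun x => if x = 0 then 0 else w (p x) - w (q x) with hv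
  -- independence of the fraction
  have key : ∀ x a b : K, x ≠ 0 → a ∈ A → b ∈ A → b ≠ 0 → x = a / b → v x = w a - w b := by
    intro x a b hx ha hb hb0 hab
    have ha0 : a ≠ 0 := by
      rintro rfl
      exact hx (by rw [hab, zero_div])
    have h1 : p x * b = a * q x := by
      have h2 : p x / q x = a / b := by rw [← hpq x, ← hab]
      rwa [div_eq_div_iff (hq0 x) hb0] at h2
    have h3 := hmul (p x) (hp x) b hb (hp0 x hx) hb0
    have h4 := hmul a ha (q x) (hq x) ha0 (hq0 x)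
    rw [h1, h4] at h3
    simp only [hv, if_neg hx]
    omega
  have hone : w 1 = 0 := by
    have h := hconst 1 one_ne_zero
    rwa [map_one] at h
  refine ⟨v, by simp [hv], ?_, ?_, ?_, ?_⟩
  · intro x y hx hy
    have h1 := key (x * y) (p x * p y) (q x * q y) (mul_ne_zero hx hy) (mul_mem (hp x) (hp y))
      (mul_mem (hq x) (hq y)) (mul_ne_zero (hq0 x) (hq0 y)) (by
        rw [mul_div_mul_comm, ← hpq x, ← hpq y])
    rw [h1, key x (p x) (q x) hx (hp x) (hq x) (hq0 x) (hpq x),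
      key y (p y) (q y) hy (hp y) (hq y) (hq0 y) (hpq y),
      hmul _ (hp x) _ (hp y) (hp0 x hx) (hp0 y hy), hmul _ (hq x) _ (hq y) (hq0 x) (hq0 y)]
    ring
  · intro x y hx hy hxy
    have hqq : q x * q y ≠ 0 := mul_ne_zero (hq0 x) (hq0 y)
    have hqm : q x * q y ∈ A := mul_mem (hq x) (hq y)
    have hx1 : x = p x * q y / (q x * q y) := by
      rw [mul_div_mul_right _ _ (hq0 y), ← hpq x]
    have hy1 : y = p y * q x / (q x * q y) := by
      rw [mul_comm (q x) (q y), mul_div_mul_right _ _ (hq0 x), ← hpq y]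
    have hs1 : x + y = (p x * q y + p y * q x) / (q x * q y) := by
      rw [add_div, ← hx1, ← hy1]
    have hn0 : p x * q y + p y * q x ≠ 0 := by
      intro h
      exact hxy (by rw [hs1, h, zero_div])
    have e1 := key x _ _ hx (mul_mem (hp x) (hq y)) hqm hqq hx1
    have e2 := key y _ _ hy (mul_mem (hp y) (hq x)) hqm hqq hy1
    have e3 := key (x + y) _ _ hxy (add_mem (mul_mem (hp x) (hq y)) (mul_mem (hp y) (hq x))) hqm
      hqq hs1
    have h4 := hadd (p x * q y) (mul_mem (hp x) (hq y)) (p y * q x) (mul_mem (hp y) (hq x))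
      (mul_ne_zero (hp0 x hx) (hq0 y)) (mul_ne_zero (hp0 y hy) (hq0 x)) hn0
    rw [e1, e2, e3]
    omega
  · intro c hc
    have hc' : algebraMap ℂ K c ≠ 0 := by
      rwa [Ne, map_eq_zero]
    rw [key _ (algebraMap ℂ K c) 1 hc' (A.algebraMap_mem c) (one_mem A) one_ne_zero
      (div_one _).symm, hconst c hc, hone, sub_zero]
  · intro x hx hx0
    rw [key x x 1 hx0 hx (one_mem A) one_ne_zero (div_one _).symm, hone, sub_zero]

end Pool.Agent.FR
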