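import Pool.Agent.FR.XPoly
import Pool.Agent.FR.XBasic
import Pool.Agent.FR.XRed
import Pool.Agent.FR.XExt
import Pool.Agent.FR.GpPrime

/-!
# Block X3: the divisor at infinity
-/

set_option autoImplicit false

namespace Pool.Agent.FR

open MvPolynomial
open scoped Classical

variable {s : ℕ} {k a : Fin (s + 3) → ℕ} {d : ℕ} {K : Type} [Field K] [Algebra ℂ K]

/-! ### Polynomials -/

theorem xdeg_wsub (hw : Wt s k a d) : wsub a (gp k) =
    1 + Polynomial.C (∑ j, MvPolynomial.X j ^ k j) * Polynomial.X ^ d := by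
  unfold gp wsub
  rw [map_add, map_one, map_sum, map_sum, Finset.sum_mul]
  congr 1
  refine Finset.sum_congr rfl fun j _ => ?_
  rw [map_pow, aeval_X, mul_pow, ← pow_mul, mul_comm (a j) (k j), hw.ka j, map_pow]

theorem xdeg_prime (hw : Wt s k a d) :
    Prime (∑ j, MvPolynomial.X j ^ k j : MvPolynomial (Fin (s + 3)) ℂ) := by
  have h := prime_fermat 0 hw.k0 hw.k1 (fun j => by have := hw.hk j; omega)
  rwa [C_0, zero_add] at h

theorem xdeg_wtop (hw : Wt s k a d) : wtop a (gp k) = ∑ j, MvPolynomial.X j ^ k j := by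
  have hL := (xdeg_prime hw).ne_zero
  unfold wtop
  rw [xdeg_wsub hw, Polynomial.leadingCoeff_add_of_degree_lt,
    Polynomial.leadingCoeff_mul_X_pow, Polynomial.leadingCoeff_C]
  rw [Polynomial.degree_one, Polynomial.degree_C_mul_X_pow d hL]
  exact_mod_cast hw.hd

theorem xdeg_degreeOf (hw : Wt s k a d) (j : Fin (s + 3)) :
    k j ≤ degreeOf j (∑ j, MvPolynomial.X j ^ k j : MvPolynomial (Fin (s + 3)) ℂ) := by
  have h1 : Finsupp.single j (k j) ∈
      (∑ j, MvPolynomial.X j ^ k j : MvPolynomial (Fin (s + 3)) ℂ).support := by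
    rw [mem_support_iff, coeff_sum, Finset.sum_eq_single j]
    · rw [coeff_X_pow, if_pos rfl]
      exact one_ne_zero
    · intro i _ hij
      rw [coeff_X_pow, if_neg]
      intro h
      have h2 := DFunLike.congr_fun h i
      rw [Finsupp.single_eq_same, Finsupp.single_eq_of_ne hij] at h2
      have := hw.hk i
      omega
    · intro h
      exact absurd (Finset.mem_univ j) h
  have h2 := monomial_le_degreeOf j h1
  rwa [Finsupp.single_eq_same] at h2

/-- a polynomial which is reduced with respect to `X j` is not divisible by the leading form -/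
theorem xdeg_not_dvd (hw : Wt s k a d) (j : Fin (s + 3)) {P : MvPolynomial (Fin (s + 3)) ℂ}
    (hP : P ≠ 0) (hj : degreeOf j P < k j) :
    ¬ (∑ j, MvPolynomial.X j ^ k j : MvPolynomial (Fin (s + 3)) ℂ) ∣ wtop a P := by
  rintro ⟨R, hR⟩
  have h0 := wtop_ne_zero a hP
  have hR0 : R ≠ 0 := by
    rintro rfl
    rw [mul_zero] at hR
    exact h0 hR
  have h1 := degreeOf_mul' j (xdeg_prime hw).ne_zero hR0
  rw [← hR] at h1
  have h2 := xdeg_degreeOf hw j
  have h3 := degreeOf_wtop_le a j P
  omega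

theorem xdeg_ne (hw : Wt s k a d) (F : FD s k K) (j : Fin (s + 3))
    {P : MvPolynomial (Fin (s + 3)) ℂ} (hP : P ≠ 0) (hj : degreeOf j P < k j) :
    aeval F.X P ≠ 0 := by
  intro h
  obtain ⟨M, hM⟩ := (F.ker P).1 h
  apply xdeg_not_dvd hw j hP hj
  rw [hM, wtop_mul, xdeg_wtop hw]
  exact Dvd.intro _ rfl

/-- two representatives with different weighted degrees -/
theorem xdeg_lt (hw : Wt s k a d) (F : FD s k K) {P P' : MvPolynomial (Fin (s + 3)) ℂ}
    (h : aeval F.X P' = aeval F.X P)
    (hlt : weightedTotalDegree a P' < weightedTotalDegree a P) :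
    (∑ j, MvPolynomial.X j ^ k j : MvPolynomial (Fin (s + 3)) ℂ) ∣ wtop a P := by
  have h1 : aeval F.X (P - P') = 0 := by rw [map_sub, h, sub_self]
  obtain ⟨M, hM⟩ := (F.ker _).1 h1
  rw [← wtop_sub_of_lt a hlt, hM, wtop_mul, xdeg_wtop hw]
  exact Dvd.intro _ rfl

/-! ### The degree on the coordinate ring -/

/-- the least weighted degree of a representative -/
noncomputable def xdg (F : FD s k K) (a : Fin (s + 3) → ℕ) (x : K) : ℕ :=
  sInf {n | ∃ P : MvPolynomial (Fin (s + 3)) ℂ, aeval F.X P = x ∧ weightedTotalDegree a P = n}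

theorem xdg_le (F : FD s k K) (P : MvPolynomial (Fin (s + 3)) ℂ) :
    xdg F a (aeval F.X P) ≤ weightedTotalDegree a P := Nat.sInf_le ⟨P, rfl, rfl⟩

theorem xdg_eq (F : FD s k K) (P : MvPolynomial (Fin (s + 3)) ℂ)
    (h : ∀ P' : MvPolynomial (Fin (s + 3)) ℂ, aeval F.X P' = aeval F.X P →
      ¬ weightedTotalDegree a P' < weightedTotalDegree a P) :
    xdg F a (aeval F.X P) = weightedTotalDegree a P := by
  refine le_antisymm (xdg_le F P) (le_csInf ⟨_, P, rfl, rfl⟩ ?_)
  rintro n ⟨P', h1, rfl⟩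
  exact not_lt.1 (h P' h1)

theorem xdg_red (hw : Wt s k a d) (F : FD s k K) (j : Fin (s + 3))
    {P : MvPolynomial (Fin (s + 3)) ℂ} (hP : P ≠ 0) (hj : degreeOf j P < k j) :
    xdg F a (aeval F.X P) = weightedTotalDegree a P :=
  xdg_eq F P fun _ h hlt => xdeg_not_dvd hw j hP hj (xdeg_lt hw F h hlt)

theorem xdg_rep (hw : Wt s k a d) (F : FD s k K) (j : Fin (s + 3)) {x : K} (hx : x ∈ F.A)
    (h0 : x ≠ 0) : ∃ P : MvPolynomial (Fin (s + 3)) ℂ, P ≠ 0 ∧ aeval F.X P = x ∧
      degreeOf j P < k j ∧ xdg F a x = weightedTotalDegree a P := by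
  obtain ⟨P, rfl⟩ := hx
  obtain ⟨P', h1, h2, -⟩ := exists_red hw F j P
  have hP' : P' ≠ 0 := by
    rintro rfl
    rw [map_zero] at h1
    exact h0 h1.symm
  refine ⟨P', hP', h1, h2, ?_⟩
  have h3 := xdg_red hw F j hP' h2
  rw [h1] at h3
  exact h3

theorem xdg_mul (hw : Wt s k a d) (F : FD s k K) {x y : K} (hx : x ∈ F.A) (hy : y ∈ F.A)
    (hx0 : x ≠ 0) (hy0 : y ≠ 0) : xdg F a (x * y) = xdg F a x + xdg F a y := by
  obtain ⟨P, hP, rfl, hP1, hP2⟩ := xdg_rep hw F 0 hx hx0
  obtain ⟨Q, hQ, rfl, hQ1, hQ2⟩ := xdg_rep hw F 0 hy hy0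
  rw [hP2, hQ2, ← map_mul, ← wdeg_mul a hP hQ]
  refine xdg_eq F (P * Q) fun P' h hlt => ?_
  have h1 := xdeg_lt hw F h hlt
  rw [wtop_mul] at h1
  rcases (xdeg_prime hw).dvd_or_dvd h1 with h2 | h2
  · exact xdeg_not_dvd hw 0 hP hP1 h2
  · exact xdeg_not_dvd hw 0 hQ hQ1 h2

theorem xdg_add (hw : Wt s k a d) (F : FD s k K) {x y : K} (hx : x ∈ F.A) (hy : y ∈ F.A)
    (hx0 : x ≠ 0) (hy0 : y ≠ 0) : xdg F a (x + y) ≤ max (xdg F a x) (xdg F a y) := by
  obtain ⟨P, hP, rfl, hP1, hP2⟩ := xdg_rep hw F 0 hx hx0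
  obtain ⟨Q, hQ, rfl, hQ1, hQ2⟩ := xdg_rep hw F 0 hy hy0
  rw [hP2, hQ2, ← map_add]
  exact (xdg_le F (P + Q)).trans (wdeg_add_le a P Q)

theorem xdg_const (F : FD s k K) {c : ℂ} (hc : c ≠ 0) : xdg F a (algebraMap ℂ K c) = 0 := by
  have h1 : aeval F.X (monomial 0 c) = algebraMap ℂ K c := by
    rw [show (monomial 0 c : MvPolynomial (Fin (s + 3)) ℂ) = C c from rfl, aeval_C]
  have h2 := xdg_le (a := a) F (monomial 0 c)
  rw [wdeg_monomial a 0 hc, h1, map_zero] at h2
  omega

theorem xdg_X (hw : Wt s k a d) (F : FD s k K) (j : Fin (s + 3)) : xdg F a (F.X j) = a j := by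
  have h1 : (MvPolynomial.X j : MvPolynomial (Fin (s + 3)) ℂ) ≠ 0 := X_ne_zero j
  have h2 : degreeOf j (MvPolynomial.X j : MvPolynomial (Fin (s + 3)) ℂ) < k j := by
    rw [degreeOf_X, if_pos rfl]
    have := hw.hk j
    omega
  have h3 := xdg_red hw F j h1 h2
  rw [aeval_X] at h3
  rw [h3]
  have h4 := wdeg_monomial a (Finsupp.single j 1) (c := 1) one_ne_zero
  rw [show (monomial (Finsupp.single j 1) (1 : ℂ)) = MvPolynomial.X j from rfl] at h4
  rw [h4, Finsupp.weight_single, one_smul]

/-! ### Bezout -/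

theorem xdeg_bezout (hw : Wt s k a d) : ∃ e : Fin (s + 3) → ℤ, ∑ j, e j * (a j : ℤ) = -1 := by
  obtain ⟨g, hg⟩ := (IsPrincipalIdealRing.principal
    (Ideal.span (Set.range fun j => (a j : ℤ)))).principal
  have h1 : ∀ j, g ∣ (a j : ℤ) := by
    intro j
    have h2 : (a j : ℤ) ∈ Ideal.span (Set.range fun j => (a j : ℤ)) :=
      Ideal.subset_span ⟨j, rfl⟩
    rw [hg] at h2
    exact Ideal.mem_span_singleton.1 h2
  have h2 : g.natAbs ∣ 1 := by
    rw [← hw.gcd]
    exact Finset.dvd_gcd fun j _ => Int.natAbs_dvd_natAbs.2 (h1 j)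
  have h3 : IsUnit g := Int.isUnit_iff_natAbs_eq.2 (Nat.dvd_one.1 h2)
  have h4 : (-1 : ℤ) ∈ Ideal.span (Set.range fun j => (a j : ℤ)) := by
    rw [hg]
    exact Ideal.mem_span_singleton.2 (h3.dvd)
  exact Ideal.mem_span_range_iff_exists_fun.1 h4

/-! ### The valuation of products of powers -/

omit [Algebra ℂ K] in
theorem xdeg_zpow {v : K → ℤ} (hm : ∀ x y : K, x ≠ 0 → y ≠ 0 → v (x * y) = v x + v y)
    (x : K) (hx : x ≠ 0) (n : ℤ) : v (x ^ n) = n * v x := by
  have h1 : v 1 = 0 := by
    have := hm 1 1 one_ne_zero one_ne_zero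
    rw [mul_one] at this
    omega
  have h2 : ∀ m : ℕ, v (x ^ m) = m * v x := by
    intro m
    induction m with
    | zero => rw [pow_zero, h1]; simp
    | succ m ih =>
      rw [pow_succ, hm _ _ (pow_ne_zero m hx) hx, ih]
      push_cast
      ring
  rcases n with m | m
  · rw [Int.ofNat_eq_natCast, zpow_natCast, h2]
  · have h3 := hm (x ^ (m + 1)) (x ^ (Int.negSucc m)) (pow_ne_zero _ hx) (zpow_ne_zero _ hx)
    rw [zpow_negSucc, mul_inv_cancel₀ (pow_ne_zero _ hx), h1, h2] at h3
    rw [zpow_negSucc, Int.negSucc_eq]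
    push_cast at h3 ⊢
    linarith

omit [Algebra ℂ K] in
theorem xdeg_prod {v : K → ℤ} (hm : ∀ x y : K, x ≠ 0 → y ≠ 0 → v (x * y) = v x + v y)
    {ι : Type*} (t : Finset ι) (f : ι → K) (hf : ∀ i, f i ≠ 0) :
    v (∏ i ∈ t, f i) = ∑ i ∈ t, v (f i) := by
  induction t using Finset.induction_on with
  | empty =>
    rw [Finset.prod_empty, Finset.sum_empty]
    have := hm 1 1 one_ne_zero one_ne_zero
    rw [mul_one] at this
    omega
  | insert i t hi ih =>
    rw [Finset.prod_insert hi, Finset.sum_insert hi,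
      hm _ _ (hf i) (Finset.prod_ne_zero_iff.2 fun j _ => hf j), ih]

/-! ### The algebra generated by `T` and the `X j * T ^ a j` -/

theorem xdeg_mem (F : FD s k K) (S : Subalgebra ℂ K) {T : K} (hT : T ∈ S)
    (hX : ∀ j, F.X j * T ^ a j ∈ S) (P : MvPolynomial (Fin (s + 3)) ℂ) (n : ℕ)
    (hn : weightedTotalDegree a P ≤ n) : aeval F.X P * T ^ n ∈ S := by
  rw [aeval_def, eval₂_eq', Finset.sum_mul]
  refine S.sum_mem fun e he => ?_
  have h1 : Finsupp.weight a e ≤ n := (le_weightedTotalDegree a he).trans hn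
  have h2 : Finsupp.weight a e = ∑ j, a j * e j := by
    rw [Finsupp.weight_apply, Finsupp.sum_fintype]
    · exact Finset.sum_congr rfl fun j _ => by rw [smul_eq_mul, mul_comm]
    · intro j; rw [zero_smul]
  rw [h2] at h1
  have h3 : (∏ j, F.X j ^ e j) * T ^ n =
      (∏ j, (F.X j * T ^ a j) ^ e j) * T ^ (n - ∑ j, a j * e j) := by
    have h4 : ∏ j, (F.X j * T ^ a j) ^ e j = (∏ j, F.X j ^ e j) * T ^ (∑ j, a j * e j) := by
      rw [← Finset.prod_pow_eq_pow_sum, ← Finset.prod_mul_distrib]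
      exact Finset.prod_congr rfl fun j _ => by rw [mul_pow, ← pow_mul]
    rw [h4, mul_assoc, ← pow_add]
    congr 2
    omega
  rw [mul_assoc, h3]
  refine S.mul_mem (S.algebraMap_mem _) (S.mul_mem (S.prod_mem fun j _ => S.pow_mem (hX j) _)
    (S.pow_mem hT _))

theorem exists_deg (hw : Wt s k a d) (F : FD s k K) : ∃ E : DVal K, IsDeg F a E := by
  obtain ⟨v, hv0, hm, hadd, hc, hA⟩ := exists_ext F.A (FD.frac_A F)
    (fun x => -(xdg F a x : ℤ))
    (fun x hx y hy hx0 hy0 => by
      rw [xdg_mul hw F hx hy hx0 hy0]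
      push_cast
      ring)
    (fun x hx y hy hx0 hy0 _ => by
      have := xdg_add hw F hx hy hx0 hy0
      omega)
    (fun c hc => by
      rw [xdg_const F hc]
      simp)
  have hX0 : ∀ j, F.X j ≠ 0 := fun j => FD.X_ne hw F j
  have hvX : ∀ j, v (F.X j) = -(a j : ℤ) := by
    intro j
    rw [hA _ (FD.X_mem F j) (hX0 j), xdg_X hw F j]
  obtain ⟨e, he⟩ := xdeg_bezout hw
  let T : K := ∏ j, F.X j ^ e j
  have hT0 : T ≠ 0 := Finset.prod_ne_zero_iff.2 fun j _ => zpow_ne_zero _ (hX0 j)
  have hvT : v T = 1 := by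
    change v (∏ j, F.X j ^ e j) = 1
    rw [xdeg_prod hm _ _ (fun j => zpow_ne_zero _ (hX0 j))]
    have h1 : ∀ j, v (F.X j ^ e j) = -(e j * (a j : ℤ)) := by
      intro j
      rw [xdeg_zpow hm _ (hX0 j), hvX]
      ring
    rw [Finset.sum_congr rfl fun j _ => h1 j, Finset.sum_neg_distrib, he]
    norm_num
  have hvTn : ∀ n : ℕ, v (T ^ n) = n := by
    intro n
    have := xdeg_zpow hm T hT0 n
    rw [zpow_natCast, hvT] at this
    rw [this, mul_one]
  let S : Finset K := insert T (Finset.univ.image fun j => F.X j * T ^ a j)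
  have hTS : T ∈ Algebra.adjoin ℂ (S : Set K) :=
    Algebra.subset_adjoin (Finset.mem_coe.2 (Finset.mem_insert_self _ _))
  have hXS : ∀ j, F.X j * T ^ a j ∈ Algebra.adjoin ℂ (S : Set K) := by
    intro j
    refine Algebra.subset_adjoin (Finset.mem_coe.2 (Finset.mem_insert_of_mem ?_))
    exact Finset.mem_image_of_mem _ (Finset.mem_univ j)
  let E : DVal K :=
    { v := v
      zero := hv0
      mul := hm
      add := hadd
      const := hc
      unif := ⟨T, hT0, hvT⟩
      fin := by
        refine ⟨S, ?_, ?_⟩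
        · intro x hx hx0
          have h1 : x = 0 ∨ 0 ≤ v x := by
            induction hx using Algebra.adjoin_induction with
            | mem x hx =>
              right
              rcases Finset.mem_insert.1 (Finset.mem_coe.1 hx) with rfl | hx
              · rw [hvT]; norm_num
              · obtain ⟨j, -, rfl⟩ := Finset.mem_image.1 hx
                rw [hm _ _ (hX0 j) (pow_ne_zero _ hT0), hvX, hvTn]
                simp
            | algebraMap c =>
              by_cases hc0 : c = 0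
              · left; rw [hc0, map_zero]
              · right; rw [hc c hc0]
            | add x y _ _ hx hy =>
              by_cases h1 : x = 0
              · rw [h1, zero_add]
                by_cases h2 : y = 0
                · exact Or.inl h2
                · exact Or.inr ((hy h2).resolve_left h2)
              · by_cases h2 : y = 0
                · rw [h2, add_zero]
                  exact Or.inr ((hx h1).resolve_left h1)
                · by_cases h3 : x + y = 0
                  · exact Or.inl h3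
                  · right
                    have h4 := hadd x y h1 h2 h3
                    have h5 := (hx h1).resolve_left h1
                    have h6 := (hy h2).resolve_left h2
                    omega
            | mul x y _ _ hx hy =>
              by_cases h1 : x = 0
              · left; rw [h1, zero_mul]
              · by_cases h2 : y = 0
                · left; rw [h2, mul_zero]
                · right
                  rw [hm x y h1 h2]
                  have h5 := (hx h1).resolve_left h1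
                  have h6 := (hy h2).resolve_left h2
                  omega
          exact h1.resolve_left hx0
        · intro x hx0 hx
          obtain ⟨p, hp, q, hq, hq0, rfl⟩ := FD.frac_A F x
          have hp0 : p ≠ 0 := by
            rintro rfl
            exact hx0 (zero_div q)
          obtain ⟨P, hP, hPp, hP1, hP2⟩ := xdg_rep hw F 0 hp hp0
          obtain ⟨Q, hQ, hQq, hQ1, hQ2⟩ := xdg_rep hw F 0 hq hq0
          have hvp := hA p hp hp0
          have hvq := hA q hq hq0
          have h1 := hm (p / q) q hx0 hq0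
          rw [div_mul_cancel₀ _ hq0] at h1
          have h2 : xdg F a p ≤ xdg F a q := by omega
          refine ⟨p * T ^ xdg F a p * T ^ (xdg F a q - xdg F a p), ?_, q * T ^ xdg F a q, ?_,
            mul_ne_zero hq0 (pow_ne_zero _ hT0), ?_, ?_⟩
          · refine Subalgebra.mul_mem _ ?_ (Subalgebra.pow_mem _ hTS _)
            rw [← hPp]
            exact xdeg_mem F _ hTS hXS P _ (by rw [hPp, hP2])
          · rw [← hQq]
            exact xdeg_mem F _ hTS hXS Q _ (by rw [hQq, hQ2])
          · rw [hm _ _ hq0 (pow_ne_zero _ hT0), hvq, hvTn]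
            simp
          · rw [mul_assoc, ← pow_add, show xdg F a p + (xdg F a q - xdg F a p) = xdg F a q by omega,
              mul_div_mul_right _ _ (pow_ne_zero _ hT0)] }
  refine ⟨E, ?_, ?_⟩
  · intro P hP
    change -((weightedTotalDegree a P : ℕ) : ℤ) ≤ v (aeval F.X P)
    have hmem : aeval F.X P ∈ F.A := ⟨P, rfl⟩
    rw [hA _ hmem hP]
    have := xdg_le (a := a) F P
    omega
  · intro j P hP hj
    change v (aeval F.X P) = _
    have hmem : aeval F.X P ∈ F.A := ⟨P, rfl⟩
    rw [hA _ hmem (xdeg_ne hw F j hP hj), xdg_red hw F j hP hj]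

end Pool.Agent.FR
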