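import Pool.Agent.FR.XBasic
import Pool.Agent.FR.XRed

/-!
# The coordinate ring of a chart at infinity (block X, row X11)
-/

set_option autoImplicit false

namespace Pool.Agent.FR

open MvPolynomial

variable {s : ℕ} {k a : Fin (s + 3) → ℕ} {d : ℕ} {K : Type} [Field K] [Algebra ℂ K]

/-- elements of the coordinate ring are given by reduced polynomials -/
private theorem x11_rep (hw : Wt s k a d) {F : FD s k K} {E : DVal K} (hE : IsDeg F a E)
    (j : Fin (s + 3)) (h : K) (hh : h ∈ F.A) (h0 : h ≠ 0) :
    ∃ P : MvPolynomial (Fin (s + 3)) ℂ, P ≠ 0 ∧ aeval F.X P = h ∧ degreeOf j P < k j ∧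
      E.v h = -((weightedTotalDegree a P : ℕ) : ℤ) := by
  obtain ⟨Q, rfl⟩ := hh
  obtain ⟨P, h1, h2, -⟩ := exists_red hw F j Q
  have h1' : aeval F.X P = (aeval F.X : MvPolynomial (Fin (s + 3)) ℂ →ₐ[ℂ] K).toRingHom Q := h1
  have hP : P ≠ 0 := by
    rintro rfl
    rw [map_zero] at h1'
    exact h0 h1'.symm
  exact ⟨P, hP, h1', h2, h1' ▸ hE.red j P hP h2⟩

/-- monomials of small weight, divided by a power of `X j`, are in the family -/
private theorem x11_gen (hw : Wt s k a d) (F : FD s k K) {T N : ℕ} {g : Fin (N + 1) → K}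
    (hg : IsMon F a (d * T) g) (j : Fin (s + 3)) {r : ℕ} (hr : r ≤ T) (e : Fin (s + 3) → ℕ)
    (he : ∑ i, e i * a i ≤ d * r) :
    (∏ i, F.X i ^ e i) / F.X j ^ (k j * r) ∈ Set.range fun l => g l / F.X j ^ (k j * T) := by
  have hX := F.X_ne hw j
  have hmem : (∏ i, F.X i ^ e i) * F.X j ^ (k j * (T - r)) ∈ Set.range g := by
    rw [hg]
    refine ⟨fun i => e i + if i = j then k j * (T - r) else 0, ?_, ?_⟩
    · have h1 : ∑ i, (e i + if i = j then k j * (T - r) else 0) * a i
          = ∑ i, e i * a i + k j * (T - r) * a j := by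
        simp only [add_mul, Finset.sum_add_distrib, ite_mul, zero_mul, Finset.sum_ite_eq',
          Finset.mem_univ, if_true]
      have h2 : k j * (T - r) * a j = d * (T - r) := by
        rw [← hw.ka j]; ring
      rw [h1, h2]
      calc ∑ i, e i * a i + d * (T - r) ≤ d * r + d * (T - r) := by omega
        _ = d * T := by rw [← mul_add, Nat.add_sub_cancel' hr]
    · simp only [pow_add, Finset.prod_mul_distrib]
      congr 1
      rw [Finset.prod_eq_single j]
      · rw [if_pos rfl]
      · intro i _ hi
        rw [if_neg hi, pow_zero]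
      · intro h
        exact absurd (Finset.mem_univ j) h
  obtain ⟨l, hl⟩ := hmem
  refine ⟨l, ?_⟩
  simp only
  rw [hl]
  have h3 : k j * T = k j * r + k j * (T - r) := by
    rw [← mul_add, Nat.add_sub_cancel' hr]
  rw [h3, pow_add, mul_div_mul_right _ _ (pow_ne_zero _ hX)]

/-- monomials of weight at most `d * r`, divided by `X j ^ (k j * r)` -/
private theorem x11_mono (hw : Wt s k a d) (F : FD s k K) {T N : ℕ} {g : Fin (N + 1) → K}
    (hg : IsMon F a (d * T) g) (hT : s + 3 ≤ T) (j : Fin (s + 3)) (r : ℕ) :
    ∀ e : Fin (s + 3) → ℕ, ∑ i, e i * a i ≤ d * r →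
    (∏ i, F.X i ^ e i) / F.X j ^ (k j * r) ∈
      Algebra.adjoin ℂ (Set.range fun l => g l / F.X j ^ (k j * T)) := by
  induction r with
  | zero =>
    intro e he
    exact Algebra.subset_adjoin (x11_gen hw F hg j (Nat.zero_le _) e he)
  | succ r ih =>
    intro e he
    by_cases hrT : r + 1 ≤ T
    · exact Algebra.subset_adjoin (x11_gen hw F hg j hrT e he)
    by_cases hi : ∃ i, k i ≤ e i
    · obtain ⟨i, hi⟩ := hi
      have hsplit : ∀ l, e l = Function.update e i (e i - k i) l + if l = i then k i else 0 := by
        intro l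
        by_cases hl : l = i
        · subst hl
          rw [Function.update_self, if_pos rfl]
          omega
        · rw [Function.update_of_ne hl, if_neg hl, add_zero]
      have hw1 : ∑ l, e l * a l = ∑ l, Function.update e i (e i - k i) l * a l + d := by
        conv_lhs => rw [Finset.sum_congr rfl fun l _ => by rw [hsplit l]]
        simp only [add_mul, Finset.sum_add_distrib, ite_mul, zero_mul, Finset.sum_ite_eq',
          Finset.mem_univ, if_true, hw.ka]
      have hp1 : ∏ l, F.X l ^ e l
          = (∏ l, F.X l ^ Function.update e i (e i - k i) l) * F.X i ^ k i := by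
        rw [Finset.prod_congr rfl fun l _ => by rw [hsplit l, pow_add]]
        rw [Finset.prod_mul_distrib]
        congr 1
        rw [Finset.prod_eq_single i]
        · rw [if_pos rfl]
        · intro l _ hl
          rw [if_neg hl, pow_zero]
        · intro h
          exact absurd (Finset.mem_univ i) h
      have h1 := ih (Function.update e i (e i - k i)) (by
        rw [hw1] at he
        rw [mul_add, mul_one] at he
        omega)
      have h2 : F.X i ^ k i / F.X j ^ (k j * 1) ∈
          Algebra.adjoin ℂ (Set.range fun l => g l / F.X j ^ (k j * T)) := by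
        have h3 := x11_gen hw F hg j (r := 1) (by omega) (fun l => if l = i then k i else 0) (by
          simp only [ite_mul, zero_mul, Finset.sum_ite_eq', Finset.mem_univ, if_true, hw.ka]
          omega)
        have h4 : ∏ l, F.X l ^ (if l = i then k i else 0) = F.X i ^ k i := by
          rw [Finset.prod_eq_single i]
          · rw [if_pos rfl]
          · intro l _ hl
            rw [if_neg hl, pow_zero]
          · intro h
            exact absurd (Finset.mem_univ i) h
        rw [h4] at h3
        exact Algebra.subset_adjoin h3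
      have h5 := mul_mem h1 h2
      rwa [div_mul_div_comm, ← hp1, ← pow_add, ← mul_add] at h5
    · push Not at hi
      have hlt : ∑ i, e i * a i ≤ d * r := by
        calc ∑ i, e i * a i ≤ ∑ _i : Fin (s + 3), d := by
              refine Finset.sum_le_sum fun i _ => ?_
              rw [← hw.ka i]
              exact Nat.mul_le_mul_right _ (hi i).le
          _ = (s + 3) * d := by simp
          _ ≤ d * r := by
              rw [mul_comm]
              exact Nat.mul_le_mul_left _ (by omega)
      have h1 := ih e hlt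
      have h2 : 1 / F.X j ^ (k j * 1) ∈
          Algebra.adjoin ℂ (Set.range fun l => g l / F.X j ^ (k j * T)) := by
        have h3 := x11_gen hw F hg j (r := 1) (by omega) (fun _ => 0) (by simp)
        simp only [pow_zero, Finset.prod_const_one] at h3
        exact Algebra.subset_adjoin h3
      have h5 := mul_mem h1 h2
      rwa [div_mul_div_comm, mul_one, ← pow_add, ← mul_add] at h5

theorem adjoin_inf (hw : Wt s k a d) (F : FD s k K) {E : DVal K} (hE : IsDeg F a E) {T N : ℕ}
    {g : Fin (N + 1) → K} (hg : IsMon F a (d * T) g) (hT : s + 3 ≤ T) (j : Fin (s + 3)) :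
    Algebra.adjoin ℂ (Set.range fun l => g l / F.X j ^ (k j * T)) = F.infRing E j := by
  have hX := F.X_ne hw
  have hvX : ∀ n : ℕ, E.v (F.X j ^ (k j * n)) = -((d * n : ℕ) : ℤ) := by
    intro n
    rw [E.pow (hX j), IsDeg.v_X hw hE j, ← hw.ka j]
    push_cast
    ring
  apply le_antisymm
  · rw [Algebra.adjoin_le_iff]
    rintro _ ⟨l, rfl⟩
    have hl : g l ∈ Set.range g := ⟨l, rfl⟩
    rw [hg] at hl
    obtain ⟨e, he, hge⟩ := hl
    have hne : g l ≠ 0 := by
      rw [hge]
      exact Finset.prod_ne_zero_iff.2 fun i _ => pow_ne_zero _ (hX i)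
    have hA : g l ∈ F.A := by
      rw [hge]
      exact prod_mem fun i _ => pow_mem (F.X_mem i) _
    refine ⟨?_, k j * T, ?_⟩
    · simp only
      rw [E.div' hne (pow_ne_zero _ (hX j)), hvX T, hge,
        E.prod _ _ fun i _ => pow_ne_zero _ (hX i)]
      have h1 : ∑ i, E.v (F.X i ^ e i) = -((∑ i, e i * a i : ℕ) : ℤ) := by
        push_cast
        rw [← Finset.sum_neg_distrib]
        refine Finset.sum_congr rfl fun i _ => ?_
        rw [E.pow (hX i), IsDeg.v_X hw hE i]
        ring
      rw [h1]
      have : ((∑ i, e i * a i : ℕ) : ℤ) ≤ ((d * T : ℕ) : ℤ) := by exact_mod_cast he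
      omega
    · simp only
      rw [div_mul_cancel₀ _ (pow_ne_zero _ (hX j))]
      exact hA
  · rintro x ⟨hx, n, hn⟩
    by_cases hx0 : x = 0
    · rw [hx0]
      exact zero_mem _
    have hkn : n ≤ k j * n := by
      have := hw.hk j
      nlinarith
    have hmem : x * F.X j ^ (k j * n) ∈ F.A := by
      have : x * F.X j ^ (k j * n) = x * F.X j ^ n * F.X j ^ (k j * n - n) := by
        rw [mul_assoc, ← pow_add, Nat.add_sub_cancel' hkn]
      rw [this]
      exact mul_mem hn (pow_mem (F.X_mem j) _)
    have hne : x * F.X j ^ (k j * n) ≠ 0 := mul_ne_zero hx0 (pow_ne_zero _ (hX j))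
    obtain ⟨P, hP0, hP, -, hv⟩ := x11_rep hw hE j _ hmem hne
    have hdeg : weightedTotalDegree a P ≤ d * n := by
      rw [E.mul _ _ hx0 (pow_ne_zero _ (hX j)), hvX n] at hv
      have : ((weightedTotalDegree a P : ℕ) : ℤ) ≤ ((d * n : ℕ) : ℤ) := by omega
      exact_mod_cast this
    have hxP : x = aeval F.X P / F.X j ^ (k j * n) := by
      rw [hP, mul_div_cancel_right₀ _ (pow_ne_zero _ (hX j))]
    rw [hxP, MvPolynomial.aeval_def, MvPolynomial.eval₂_eq', Finset.sum_div]
    refine sum_mem fun e he => ?_
    rw [mul_div_assoc, ← Algebra.smul_def]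
    refine Subalgebra.smul_mem _ (x11_mono hw F hg hT j n e ?_) _
    refine le_trans ?_ hdeg
    have h1 := MvPolynomial.le_weightedTotalDegree a he
    rw [Finsupp.weight_apply, Finsupp.sum_fintype _ _ (fun i => by simp)] at h1
    simpa using h1

end Pool.Agent.FR
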