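import Pool.Agent.FR.XExt
import Pool.Agent.FR.XBasic
import Pool.Agent.FR.Val

/-!
# The order along a prime element of the coordinate ring (project FR, X6 (a))
-/

set_option autoImplicit false

namespace Pool.Agent.FR

open MvPolynomial
open scoped Classical

variable {s : ℕ} {k a : Fin (s + 3) → ℕ} {d : ℕ} {K : Type} [Field K] [Algebra ℂ K]

private theorem fin_mult (F : FD s k K) {π : F.A} (hπ : ¬ IsUnit π) {x : F.A} (hx : x ≠ 0) :
    FiniteMultiplicity π x := by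
  have := F.isNoetherian
  exact FiniteMultiplicity.of_not_isUnit hπ hx

/-- Divide by the maximal power of `π`. -/
theorem FD.exists_pow_mul (F : FD s k K) {π : F.A} (hπ : ¬ IsUnit π) {x : F.A} (hx : x ≠ 0) :
    ∃ (n : ℕ) (y : F.A), x = π ^ n * y ∧ ¬ π ∣ y := by
  obtain ⟨y, hy, hy'⟩ := (fin_mult F hπ hx).exists_eq_pow_mul_and_not_dvd
  exact ⟨_, y, hy, hy'⟩

/-- Every element of the field is a quotient of powers of `π` times elements not divisible
by `π`. -/
theorem FD.exists_frac_pow (F : FD s k K) {π : F.A} (hπ : ¬ IsUnit π) {x : K} (hx : x ≠ 0) :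
    ∃ (m n : ℕ) (p q : F.A), ¬ π ∣ p ∧ ¬ π ∣ q ∧
      x = ((π : K) ^ m * (p : K)) / ((π : K) ^ n * (q : K)) := by
  obtain ⟨p, hp, q, hq, hq0, hxpq⟩ := F.frac_A x
  have hp0 : p ≠ 0 := by
    rintro rfl
    exact hx (by rw [hxpq, zero_div])
  obtain ⟨m, p', hp1, hp2⟩ := F.exists_pow_mul hπ (x := ⟨p, hp⟩)
    (fun h => hp0 (congrArg Subtype.val h))
  obtain ⟨n, q', hq1, hq2⟩ := F.exists_pow_mul hπ (x := ⟨q, hq⟩)
    (fun h => hq0 (congrArg Subtype.val h))
  refine ⟨m, n, p', q', hp2, hq2, ?_⟩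
  have h1 := congrArg Subtype.val hp1
  have h2 := congrArg Subtype.val hq1
  simp only [Subalgebra.coe_mul, Subalgebra.coe_pow] at h1 h2
  rw [hxpq, ← h1, ← h2]

theorem exists_ord (F : FD s k K) (hU : UniqueFactorizationMonoid F.A) (π : F.A)
    (hπ : Prime π) : ∃ D : DVal K, IsOrd F π D := by
  have hu : ¬ IsUnit π := hπ.not_isUnit
  have hπK : (π : K) ≠ 0 := fun h => hπ.ne_zero (Subtype.ext h)
  set w : K → ℤ := fun x => if h : x ∈ F.A then (multiplicity π (⟨x, h⟩ : F.A) : ℤ) else 0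
    with hw
  have hwA : ∀ x : F.A, w (x : K) = (multiplicity π x : ℤ) := by
    intro x
    simp only [hw, dif_pos x.2]
  obtain ⟨v, hv0, hvmul, hvadd, hvconst, hvw⟩ := exists_ext F.A F.frac_A w
    (by
      intro x hx y hy hx0 hy0
      have h1 := hwA (⟨x, hx⟩ * ⟨y, hy⟩)
      have h2 := hwA ⟨x, hx⟩
      have h3 := hwA ⟨y, hy⟩
      have hne : (⟨x, hx⟩ * ⟨y, hy⟩ : F.A) ≠ 0 := by
        intro h
        exact mul_ne_zero hx0 hy0 (congrArg Subtype.val h)
      rw [multiplicity_mul hπ (fin_mult F hu hne), Nat.cast_add, ← h2, ← h3] at h1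
      exact h1)
    (by
      intro x hx y hy hx0 hy0 hxy
      have h1 := hwA (⟨x, hx⟩ + ⟨y, hy⟩)
      have h2 := hwA ⟨x, hx⟩
      have h3 := hwA ⟨y, hy⟩
      have hne : (⟨x, hx⟩ + ⟨y, hy⟩ : F.A) ≠ 0 := by
        intro h
        exact hxy (congrArg Subtype.val h)
      have h4 : min (multiplicity π (⟨x, hx⟩ : F.A)) (multiplicity π (⟨y, hy⟩ : F.A)) ≤
          multiplicity π (⟨x, hx⟩ + ⟨y, hy⟩ : F.A) := by
        apply (fin_mult F hu hne).le_multiplicity_of_pow_dvd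
        exact dvd_add (pow_dvd_of_le_multiplicity (min_le_left _ _))
          (pow_dvd_of_le_multiplicity (min_le_right _ _))
      have h5 : min (w x) (w y) ≤ w (x + y) := by
        change min (w ((⟨x, hx⟩ : F.A) : K)) (w ((⟨y, hy⟩ : F.A) : K)) ≤
          w ((⟨x, hx⟩ + ⟨y, hy⟩ : F.A) : K)
        rw [h1, h2, h3]
        exact_mod_cast h4
      exact h5)
    (by
      intro c hc
      have h1 := hwA (algebraMap ℂ F.A c)
      have h2 : IsUnit (algebraMap ℂ F.A c) := (isUnit_iff_ne_zero.2 hc).map (algebraMap ℂ F.A)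
      rw [multiplicity_of_isUnit_right hu h2] at h1
      exact_mod_cast h1)
  have hvA : ∀ x : F.A, x ≠ 0 → v (x : K) = (multiplicity π x : ℤ) := by
    intro x hx
    rw [hvw x x.2 (fun h => hx (Subtype.ext h)), hwA]
  have hvπ : v (π : K) = 1 := by
    rw [hvA π hπ.ne_zero, multiplicity_self]
    rfl
  have hAadj : Algebra.adjoin ℂ ((Finset.univ.image F.X : Finset K) : Set K) = F.A := by
    rw [Finset.coe_image, Finset.coe_univ, Set.image_univ, F.A_eq_adjoin]
  have hvone : v 1 = 0 := by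
    have h := hvconst 1 one_ne_zero
    rwa [map_one] at h
  have hvpow : ∀ n : ℕ, v ((π : K) ^ n) = n := by
    intro n
    induction n with
    | zero => simpa using hvone
    | succ n ih =>
      rw [pow_succ, hvmul _ _ (pow_ne_zero n hπK) hπK, ih, hvπ]
      push_cast
      ring
  have hne : ∀ y : F.A, ¬ π ∣ y → (y : K) ≠ 0 ∧ v (y : K) = 0 := by
    intro y hy
    have hy0 : y ≠ 0 := by
      rintro rfl
      exact hy (dvd_zero _)
    refine ⟨fun h => hy0 (Subtype.ext h), ?_⟩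
    rw [hvA y hy0, multiplicity_eq_zero.2 hy]
    rfl
  refine ⟨⟨v, hv0, hvmul, hvadd, hvconst, ⟨(π : K), hπK, hvπ⟩, Finset.univ.image F.X, ?_, ?_⟩,
    ?_, ?_, hvπ⟩
  · intro x hx hx0
    rw [hAadj] at hx
    have h := hvA ⟨x, hx⟩ (fun h => hx0 (congrArg Subtype.val h))
    change v x = _ at h
    rw [h]
    exact Int.natCast_nonneg _
  · intro x hx0 hx
    rw [hAadj]
    obtain ⟨m, n, p, q, hp, hq, hxpq⟩ := F.exists_frac_pow hu hx0
    obtain ⟨hp0, hvp⟩ := hne p hp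
    obtain ⟨hq0, hvq⟩ := hne q hq
    have hmn : v x = (m : ℤ) - n := by
      have h1 : x * ((π : K) ^ n * (q : K)) = (π : K) ^ m * (p : K) := by
        rw [hxpq, div_mul_cancel₀ _ (mul_ne_zero (pow_ne_zero n hπK) hq0)]
      have h2 := hvmul x _ hx0 (mul_ne_zero (pow_ne_zero n hπK) hq0)
      rw [h1, hvmul _ _ (pow_ne_zero n hπK) hq0, hvmul _ _ (pow_ne_zero m hπK) hp0, hvp, hvq,
        hvpow, hvpow] at h2
      omega
    have hle : n ≤ m := by omega
    refine ⟨(π ^ (m - n) * p : F.A), Subtype.property _, (q : K), q.2, hq0, hvq, ?_⟩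
    rw [hxpq]
    simp only [Subalgebra.coe_mul, Subalgebra.coe_pow]
    have h3 : (π : K) ^ m = (π : K) ^ n * (π : K) ^ (m - n) := by
      rw [← pow_add, Nat.add_sub_cancel' hle]
    rw [h3, mul_assoc, mul_div_mul_left _ _ (pow_ne_zero n hπK)]
  · intro h hh
    change 0 ≤ v (h : K)
    rw [hvA h hh]
    exact Int.natCast_nonneg _
  · intro h hh
    change 0 < v (h : K) ↔ _
    rw [hvA h hh, Nat.cast_pos, dvd_iff_multiplicity_pos]

/-- The order of `h` in the coordinate ring along `D` vanishes when `π` does not divide `h`. -/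
theorem IsOrd.eq_zero {F : FD s k K} {π : F.A} {D : DVal K} (h : IsOrd F π D) (x : F.A)
    (hx : ¬ π ∣ x) : D.v (x : K) = 0 := by
  have hx0 : x ≠ 0 := by
    rintro rfl
    exact hx (dvd_zero _)
  have h1 := h.nonneg x hx0
  have h2 := (h.pos x hx0).not.2 hx
  omega

theorem IsOrd.ne_zero {F : FD s k K} {π : F.A} {D : DVal K} (h : IsOrd F π D) : π ≠ 0 := by
  rintro rfl
  have h1 := h.one
  rw [ZeroMemClass.coe_zero, D.zero] at h1
  exact zero_ne_one h1

theorem IsOrd.not_isUnit {F : FD s k K} {π : F.A} {D : DVal K} (h : IsOrd F π D) :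
    ¬ IsUnit π := by
  intro hu
  have h1 := (h.pos 1 one_ne_zero).2 hu.dvd
  rw [OneMemClass.coe_one, D.one] at h1
  exact lt_irrefl _ h1

/-- The order of an element, written with powers of `π`. -/
theorem IsOrd.v_frac {F : FD s k K} {π : F.A} {D : DVal K} (h : IsOrd F π D) (m n : ℕ)
    {p q : F.A} (hp : ¬ π ∣ p) (hq : ¬ π ∣ q) :
    D.v (((π : K) ^ m * (p : K)) / ((π : K) ^ n * (q : K))) = (m : ℤ) - n := by
  have hπK : (π : K) ≠ 0 := fun h0 => h.ne_zero (Subtype.ext h0)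
  have hp0 : (p : K) ≠ 0 := by
    intro h0
    have h1 : p = 0 := Subtype.ext h0
    exact hp (h1 ▸ dvd_zero _)
  have hq0 : (q : K) ≠ 0 := by
    intro h0
    have h1 : q = 0 := Subtype.ext h0
    exact hq (h1 ▸ dvd_zero _)
  rw [D.div' (mul_ne_zero (pow_ne_zero m hπK) hp0) (mul_ne_zero (pow_ne_zero n hπK) hq0),
    D.mul _ _ (pow_ne_zero m hπK) hp0, D.mul _ _ (pow_ne_zero n hπK) hq0, D.pow hπK, D.pow hπK,
    h.one, h.eq_zero p hp, h.eq_zero q hq]
  ring

theorem IsOrd.unique {F : FD s k K} {π : F.A} {D D' : DVal K} (h : IsOrd F π D)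
    (h' : IsOrd F π D') : D = D' := by
  apply DVal.eq_of_le
  intro x hx hv
  obtain ⟨m, n, p, q, hp, hq, hxpq⟩ := F.exists_frac_pow h.not_isUnit hx
  rw [hxpq, h.v_frac m n hp hq] at hv
  rwa [hxpq, h'.v_frac m n hp hq]

theorem IsOrd.assoc {F : FD s k K} {π π' : F.A} {D : DVal K} (hπ : Prime π) (hπ' : Prime π')
    (h : IsOrd F π D) (h' : IsOrd F π' D) : Associated π π' := by
  apply associated_of_dvd_dvd
  · exact (h.pos π' hπ'.ne_zero).1 (by rw [h'.one]; norm_num)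
  · exact (h'.pos π hπ.ne_zero).1 (by rw [h.one]; norm_num)

theorem IsOrd.of_assoc {F : FD s k K} {π π' : F.A} {D : DVal K} (hπ : Prime π)
    (h : IsOrd F π D) (h' : Associated π π') : IsOrd F π' D := by
  refine ⟨h.nonneg, fun x hx => (h.pos x hx).trans h'.dvd_iff_dvd_left, ?_⟩
  obtain ⟨u, hu⟩ := h'
  have hπK : (π : K) ≠ 0 := fun h0 => hπ.ne_zero (Subtype.ext h0)
  have hu1 : ¬ π ∣ (u : F.A) := fun h1 => hπ.not_isUnit (isUnit_of_dvd_unit h1 u.isUnit)
  have hu0 : ((u : F.A) : K) ≠ 0 := fun h0 => u.ne_zero (Subtype.ext h0)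
  rw [← hu, MulMemClass.coe_mul, D.mul _ _ hπK hu0, h.one, h.eq_zero _ hu1, add_zero]

/-- A divisorial valuation whose centre is the prime divisor `π = 0`. -/
theorem isOrd_of_pos {F : FD s k K} (hU : UniqueFactorizationMonoid F.A) {π : F.A} {D : DVal K}
    (hπ : Prime π) (h0 : ∀ j, 0 ≤ D.v (F.X j))
    (h : ∀ h : F.A, h ≠ 0 → (0 < D.v (h : K) ↔ π ∣ h)) : IsOrd F π D := by
  have hA : ∀ x : F.A, 0 ≤ D.v (x : K) := by
    intro x
    rw [← D.mem_ring']
    have h1 : Algebra.adjoin ℂ (Set.range F.X) ≤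
        { D.ring.toSubring.toSubsemiring with
          algebraMap_mem' := fun c => D.isPlace c } := by
      apply Algebra.adjoin_le
      rintro _ ⟨j, rfl⟩
      exact D.mem_ring'.2 (h0 j)
    rw [← F.A_eq_adjoin] at h1
    exact h1 x.2
  have hπK : (π : K) ≠ 0 := fun h0 => hπ.ne_zero (Subtype.ext h0)
  have hz : ∀ x : F.A, ¬ π ∣ x → (x : K) ≠ 0 ∧ D.v (x : K) = 0 := by
    intro x hx
    have hx0 : x ≠ 0 := by
      rintro rfl
      exact hx (dvd_zero _)
    refine ⟨fun h1 => hx0 (Subtype.ext h1), ?_⟩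
    have h1 := hA x
    have h2 := (h x hx0).not.2 hx
    omega
  refine ⟨fun x _ => hA x, h, ?_⟩
  obtain ⟨x, hx, hx1⟩ := D.unif
  obtain ⟨m, n, p, q, hp, hq, hxpq⟩ := F.exists_frac_pow hπ.not_isUnit hx
  obtain ⟨hp0, hvp⟩ := hz p hp
  obtain ⟨hq0, hvq⟩ := hz q hq
  rw [hxpq, D.div' (mul_ne_zero (pow_ne_zero m hπK) hp0) (mul_ne_zero (pow_ne_zero n hπK) hq0),
    D.mul _ _ (pow_ne_zero m hπK) hp0, D.mul _ _ (pow_ne_zero n hπK) hq0, D.pow hπK, D.pow hπK,
    hvp, hvq] at hx1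
  have h2 : 0 < D.v (π : K) := (h π hπ.ne_zero).2 dvd_rfl
  have h3 : ((m : ℤ) - n) * D.v (π : K) = 1 := by linarith
  rcases Int.eq_one_or_neg_one_of_mul_eq_one' h3 with h4 | h4
  · exact h4.2
  · omega

theorem IsOrd.exists_X (hw : Wt s k a d) {F : FD s k K} {π : F.A} {D : DVal K}
    (hπ : Prime π) (h : IsOrd F π D) : ∃ j, D.v (F.X j) = 0 := by
  by_contra hcon
  push Not at hcon
  have h1 : ∀ j, 1 ≤ D.v (F.X j) := by
    intro j
    have h2 := h.nonneg ⟨F.X j, F.X_mem j⟩ (fun h0 => F.X_ne hw j (congrArg Subtype.val h0))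
    have h3 := hcon j
    change 0 ≤ D.v (F.X j) at h2
    omega
  have h2 : ∀ j ∈ (Finset.univ : Finset (Fin (s + 3))), F.X j ^ k j = 0 ∨
      1 ≤ D.v (F.X j ^ k j) := by
    intro j _
    right
    rw [D.pow (F.X_ne hw j)]
    have h3 : (1 : ℤ) ≤ k j := by exact_mod_cast hw.k_pos j
    nlinarith [h1 j]
  have h3 := D.sum_ge Finset.univ (fun j => F.X j ^ k j) 1 h2
  have h4 : ∑ j, F.X j ^ k j = -1 := by
    have h5 := F.rel
    linear_combination h5
  rw [h4] at h3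
  rcases h3 with h3 | h3
  · exact absurd h3 (by norm_num)
  · rw [D.negOne] at h3
    omega

end Pool.Agent.FR
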