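import Pool.Agent.FR.XRep

/-!
# Row X14a: the prime divisors of `X`
-/

set_option autoImplicit false

namespace Pool.Agent.FR

open MvPolynomial
open scoped Classical

variable {s : ℕ} {k a : Fin (s + 3) → ℕ} {d : ℕ} {K : Type} [Field K] [Algebra ℂ K]

/-- The degree of `X j ^ (k j * n)`. -/
theorem x14_pow (hw : Wt s k a d) {F : FD s k K} {E : DVal K} (hE : IsDeg F a E)
    (j : Fin (s + 3)) (n : ℕ) : E.v (F.X j ^ (k j * n)) = -((d * n : ℕ) : ℤ) := by
  rw [E.pow (F.X_ne hw j), IsDeg.v_X hw hE, ← hw.ka j]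
  push_cast
  ring

/-- Every place of nonnegative order along `E` is a quotient of two elements of the chart at
infinity, the denominator being a unit along `E`. -/
theorem x14_frac (hw : Wt s k a d) {F : FD s k K} {E : DVal K} (hE : IsDeg F a E)
    (j : Fin (s + 3)) {x : K} (hx : 0 ≤ E.v x) :
    ∃ p ∈ F.infRing E j, ∃ q ∈ F.infRing E j, q ≠ 0 ∧ E.v q = 0 ∧ x = p / q := by
  by_cases hx0 : x = 0
  · exact ⟨0, Subalgebra.zero_mem _, 1, Subalgebra.one_mem _, one_ne_zero, E.one, by rw [hx0, zero_div]⟩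
  obtain ⟨P, hP, Q, hQ, hQ0, hPQ⟩ := F.frac_A x
  have hP0 : P ≠ 0 := by
    rintro rfl
    exact hx0 (by rw [hPQ, zero_div])
  have hXj : F.X j ≠ 0 := F.X_ne hw j
  have hq := IsDeg.nonpos hw hE Q hQ
  set q : ℕ := (-E.v Q).toNat with hqdef
  have hq' : E.v Q = -(q : ℤ) := by
    rw [hqdef]
    omega
  have hd : 0 < d := hw.hd
  have hM0 : F.X j ^ (k j * q) ≠ 0 := pow_ne_zero _ hXj
  have hMv : E.v (F.X j ^ (k j * q)) = -((d * q : ℕ) : ℤ) := x14_pow hw hE j q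
  -- the denominator
  have hQd : E.v (Q ^ d / F.X j ^ (k j * q)) = 0 := by
    rw [E.div' (pow_ne_zero _ hQ0) hM0, E.pow hQ0, hMv, hq']
    push_cast
    ring
  have hxq : x = (P * Q ^ (d - 1) / F.X j ^ (k j * q)) / (Q ^ d / F.X j ^ (k j * q)) := by
    rw [hPQ, div_div_div_cancel_right₀ hM0]
    obtain ⟨e, rfl⟩ : ∃ e, d = e + 1 := ⟨d - 1, by omega⟩
    rw [Nat.add_sub_cancel, pow_succ']
    field_simp
  have hnum : E.v (P * Q ^ (d - 1) / F.X j ^ (k j * q)) = E.v x := by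
    have h1 : P * Q ^ (d - 1) / F.X j ^ (k j * q) = x * (Q ^ d / F.X j ^ (k j * q)) := by
      conv_rhs => rw [hxq]
      rw [div_mul_cancel₀]
      exact div_ne_zero (pow_ne_zero _ hQ0) hM0
    rw [h1, E.mul _ _ hx0 (div_ne_zero (pow_ne_zero _ hQ0) hM0), hQd, add_zero]
  refine ⟨_, ?_, _, ?_, ?_, hQd, hxq⟩
  · refine ⟨by rw [hnum]; exact hx, k j * q, ?_⟩
    rw [div_mul_cancel₀ _ hM0]
    exact F.A.mul_mem hP (F.A.pow_mem hQ _)
  · refine ⟨hQd.ge, k j * q, ?_⟩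
    rw [div_mul_cancel₀ _ hM0]
    exact F.A.pow_mem hQ _
  · exact div_ne_zero (pow_ne_zero _ hQ0) hM0

section prime
variable (hw : Wt s k a d) {F : FD s k K}
  {E : DVal K} (hE : IsDeg F a E) {X : Model (⊤ : IntermediateField ℂ K)} (hX : IsCharts F E X)

include hw hE in
/-- The valuation `E` is at infinity. -/
theorem x14_atInf (j : Fin (s + 3)) : AtInf F E.ring j := by
  refine ⟨fun h => ?_, fun i => ?_⟩
  · have h1 := E.mem_ring'.1 h
    rw [IsDeg.v_X hw hE] at h1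
    have h2 := hw.a_pos j
    omega
  · rw [E.mem_ring', E.div' (pow_ne_zero _ (F.X_ne hw i)) (pow_ne_zero _ (F.X_ne hw j)),
      E.pow (F.X_ne hw i), E.pow (F.X_ne hw j), IsDeg.v_X hw hE, IsDeg.v_X hw hE]
    have h1 : ((k i : ℕ) : ℤ) * (a i : ℕ) = (d : ℤ) := by exact_mod_cast hw.ka i
    have h2 : ((k j : ℕ) : ℤ) * (a j : ℕ) = (d : ℤ) := by exact_mod_cast hw.ka j
    linarith

include hw hE hX in
theorem isPrimeDiv_E : IsPrimeDiv X E := by
  unfold IsPrimeDiv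
  rw [hX.inf E.ring 0 E.isPlace (x14_atInf hw hE 0)]
  ext x
  constructor
  · intro hx
    obtain ⟨p, hp, q, hq, hq0, hqv, hpq⟩ := x14_frac hw hE 0 (E.mem_ring'.1 hx)
    refine ⟨p, hp, q, hq, hq0, ?_, hpq⟩
    rw [E.mem_ring', E.inv hq0, hqv, neg_zero]
  · rintro ⟨p, hp, q, -, -, hq', rfl⟩
    rw [div_eq_mul_inv]
    exact E.ring.mul_mem _ _ (E.mem_ring'.2 hp.1) hq'

/-- Cancelling powers of `π`. -/
theorem x14_cancel {π : F.A} (hπ : Prime π) {D : DVal K} (hD : IsOrd F π D) (n : ℕ) :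
    ∀ P ∈ F.A, ∀ Q ∈ F.A, P ≠ 0 → Q ≠ 0 → D.v Q ≤ n → D.v Q ≤ D.v P →
      ∃ p ∈ F.A, ∃ q ∈ F.A, q ≠ 0 ∧ D.v q = 0 ∧ P / Q = p / q := by
  have hπ0 : (π : K) ≠ 0 := by
    intro h
    exact hπ.ne_zero (Subtype.ext h)
  induction n with
  | zero =>
    intro P hP Q hQ _ hQ0 hn _
    have h1 := hD.nonneg ⟨Q, hQ⟩ (fun h => hQ0 (congrArg Subtype.val h))
    have h2 : D.v Q = 0 := le_antisymm (by simpa using hn) h1
    exact ⟨P, hP, Q, hQ, hQ0, h2, rfl⟩
  | succ n ih =>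
    intro P hP Q hQ hP0 hQ0 hn hle
    have hQ0' : (⟨Q, hQ⟩ : F.A) ≠ 0 := fun h => hQ0 (congrArg Subtype.val h)
    have hP0' : (⟨P, hP⟩ : F.A) ≠ 0 := fun h => hP0 (congrArg Subtype.val h)
    have h1 := hD.nonneg ⟨Q, hQ⟩ hQ0'
    rcases h1.lt_or_eq with h2 | h2
    · obtain ⟨Q1, hQ1⟩ := (hD.pos ⟨Q, hQ⟩ hQ0').1 h2
      obtain ⟨P1, hP1⟩ := (hD.pos ⟨P, hP⟩ hP0').1 (lt_of_lt_of_le h2 hle)
      have hQ1' : Q = (π : K) * (Q1 : K) := congrArg Subtype.val hQ1
      have hP1' : P = (π : K) * (P1 : K) := congrArg Subtype.val hP1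
      have hQ10 : (Q1 : K) ≠ 0 := by
        intro h
        exact hQ0 (by rw [hQ1', h, mul_zero])
      have hP10 : (P1 : K) ≠ 0 := by
        intro h
        exact hP0 (by rw [hP1', h, mul_zero])
      have h3 : D.v Q = 1 + D.v (Q1 : K) := by
        rw [hQ1', D.mul _ _ hπ0 hQ10, hD.one]
      have h4 : D.v P = 1 + D.v (P1 : K) := by
        rw [hP1', D.mul _ _ hπ0 hP10, hD.one]
      obtain ⟨p, hp, q, hq, hq0, hqv, hpq⟩ := ih P1 P1.2 Q1 Q1.2 hP10 hQ10
        (by push_cast at hn; omega) (by omega)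
      refine ⟨p, hp, q, hq, hq0, hqv, ?_⟩
      rw [← hpq, hQ1', hP1', mul_div_mul_left _ _ hπ0]
    · exact ⟨P, hP, Q, hQ, hQ0, h2.symm, rfl⟩

include hw hE hX in
theorem isPrimeDiv_ord {π : F.A} (hπ : Prime π) {D : DVal K} (hD : IsOrd F π D) :
    IsPrimeDiv X D ∧ D ≠ E := by
  have hXj : ∀ j, 0 ≤ D.v (F.X j) := by
    intro j
    exact hD.nonneg ⟨F.X j, F.X_mem j⟩ (fun h => F.X_ne hw j (congrArg Subtype.val h))
  have hA : ∀ p ∈ F.A, p ∈ D.ring := by
    intro p hp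
    by_cases hp0 : p = 0
    · exact Or.inl hp0
    · exact Or.inr (hD.nonneg ⟨p, hp⟩ (fun h => hp0 (congrArg Subtype.val h)))
  refine ⟨?_, ?_⟩
  · unfold IsPrimeDiv
    rw [hX.inside D.ring D.isPlace (fun j => D.mem_ring'.2 (hXj j))]
    ext x
    constructor
    · intro hx
      have hx1 := D.mem_ring'.1 hx
      by_cases hx0 : x = 0
      · refine ⟨0, F.A.zero_mem, 1, F.A.one_mem, one_ne_zero, ?_, by rw [hx0, zero_div]⟩
        rw [inv_one]
        exact D.ring.one_mem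
      obtain ⟨P, hP, Q, hQ, hQ0, hPQ⟩ := F.frac_A x
      have hP0 : P ≠ 0 := by
        rintro rfl
        exact hx0 (by rw [hPQ, zero_div])
      have h1 : D.v x = D.v P - D.v Q := by rw [hPQ, D.div' hP0 hQ0]
      obtain ⟨p, hp, q, hq, hq0, hqv, hpq⟩ := x14_cancel hπ hD (D.v Q).toNat P hP Q hQ hP0 hQ0
        (by omega) (by omega)
      refine ⟨p, hp, q, hq, hq0, ?_, by rw [hPQ, hpq]⟩
      rw [D.mem_ring', D.inv hq0, hqv, neg_zero]
    · rintro ⟨p, hp, q, -, -, hq', rfl⟩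
      rw [div_eq_mul_inv]
      exact D.ring.mul_mem _ _ (hA p hp) hq'
  · rintro rfl
    have h1 := hXj 0
    rw [IsDeg.v_X hw hE] at h1
    have h2 := hw.a_pos 0
    omega

include hw hE in
/-- The chart at infinity lies in the ring of every place at infinity. -/
theorem x14_infRing_le {D : DVal K} {j : Fin (s + 3)} (h : AtInf F D.ring j) {b : K}
    (hb : b ∈ F.infRing E j) : 0 ≤ D.v b := by
  by_cases hb0 : b = 0
  · rw [hb0, D.zero]
  obtain ⟨hbE, n, hn⟩ := hb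
  have hXj : F.X j ≠ 0 := F.X_ne hw j
  have hXn : F.X j ^ n ≠ 0 := pow_ne_zero _ hXj
  obtain ⟨P, hP0, hPv, -, hPE⟩ := IsDeg.exists_rep hw hE j (b * F.X j ^ n) hn (mul_ne_zero hb0 hXn)
  rw [E.mul _ _ hb0 hXn, E.pow hXj, IsDeg.v_X hw hE] at hPE
  have hvj : D.v (F.X j) < 0 := by
    by_contra hcon
    exact h.1 (D.mem_ring'.2 (not_lt.1 hcon))
  have hvi : ∀ i, (k j : ℤ) * D.v (F.X j) ≤ (k i : ℤ) * D.v (F.X i) := by
    intro i
    have h1 := D.mem_ring'.1 (h.2 i)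
    rw [D.div' (pow_ne_zero _ (F.X_ne hw i)) (pow_ne_zero _ hXj), D.pow (F.X_ne hw i),
      D.pow hXj] at h1
    linarith
  -- the weight of the monomials of `P`
  have hwt : ∀ e ∈ P.support, Finsupp.weight a e ≤ n * a j := by
    intro e he
    have h1 : Finsupp.weight a e ≤ weightedTotalDegree a P := le_weightedTotalDegree a he
    have h2 : ((weightedTotalDegree a P : ℕ) : ℤ) ≤ n * a j := by
      have h3 : ((n : ℤ) * -(a j : ℤ)) = -((n : ℤ) * a j) := by ring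
      rw [h3] at hPE
      linarith
    exact h1.trans (by exact_mod_cast h2)
  have hmon : ∀ e ∈ P.support, (n : ℤ) * D.v (F.X j) ≤ D.v (∏ i, F.X i ^ e i) := by
    intro e he
    rw [D.prod _ _ (fun i _ => pow_ne_zero _ (F.X_ne hw i))]
    have h1 : ∀ i, D.v (F.X i ^ e i) = (e i : ℤ) * D.v (F.X i) := fun i => D.pow (F.X_ne hw i) _
    simp only [h1]
    have h2 : Finsupp.weight a e = ∑ i, e i * a i := by
      rw [Finsupp.weight_apply, Finsupp.sum_fintype]
      · simp only [smul_eq_mul]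
      · intro i
        exact zero_smul _ _
    have h3 := hwt e he
    rw [h2] at h3
    -- multiply by `d`
    have hd : (0 : ℤ) < d := by exact_mod_cast hw.hd
    have hkv : (k j : ℤ) * D.v (F.X j) < 0 := by
      have h4 : (0 : ℤ) < k j := by exact_mod_cast hw.k_pos j
      exact mul_neg_of_pos_of_neg h4 hvj
    have h5 : (d : ℤ) * ((n : ℤ) * D.v (F.X j)) ≤ (d : ℤ) * ∑ i, (e i : ℤ) * D.v (F.X i) := by
      have h6 : (d : ℤ) * ((n : ℤ) * D.v (F.X j)) =
          ((n : ℤ) * a j) * ((k j : ℤ) * D.v (F.X j)) := by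
        have h7 : ((k j : ℕ) : ℤ) * (a j : ℕ) = (d : ℤ) := by exact_mod_cast hw.ka j
        rw [← h7]
        ring
      have h8 : (∑ i, (e i : ℤ) * a i) * ((k j : ℤ) * D.v (F.X j)) ≤
          (d : ℤ) * ∑ i, (e i : ℤ) * D.v (F.X i) := by
        rw [Finset.sum_mul, Finset.mul_sum]
        refine Finset.sum_le_sum fun i _ => ?_
        have h9 : ((k i : ℕ) : ℤ) * (a i : ℕ) = (d : ℤ) := by exact_mod_cast hw.ka i
        have h10 : (d : ℤ) * ((e i : ℤ) * D.v (F.X i)) =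
            (e i : ℤ) * a i * ((k i : ℤ) * D.v (F.X i)) := by
          rw [← h9]
          ring
        rw [h10]
        exact mul_le_mul_of_nonneg_left (hvi i) (by positivity)
      have h11 : (∑ i, (e i : ℤ) * a i) ≤ (n : ℤ) * a j := by exact_mod_cast h3
      rw [h6]
      exact (mul_le_mul_of_nonpos_right h11 hkv.le).trans h8
    exact le_of_mul_le_mul_left h5 hd
  have hsum : b * F.X j ^ n = ∑ e ∈ P.support, algebraMap ℂ K (P.coeff e) * ∏ i, F.X i ^ e i := by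
    rw [← hPv, aeval_def, eval₂_eq']
  have h1 := D.sum_ge P.support (fun e => algebraMap ℂ K (P.coeff e) * ∏ i, F.X i ^ e i)
    ((n : ℤ) * D.v (F.X j)) (by
      intro e he
      right
      rw [D.const_mul (MvPolynomial.mem_support_iff.1 he)]
      exact hmon e he)
  rw [← hsum] at h1
  have h2 := h1.resolve_left (mul_ne_zero hb0 hXn)
  rw [D.mul _ _ hb0 hXn, D.pow hXj] at h2
  linarith

include hw hE hX in
/-- If the centre of `D` is at infinity and `D ≠ E` then some function of the chart vanishes at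
the centre of `D` and not on all of `E`. -/
theorem exists_vanish {D : DVal K} {j : Fin (s + 3)} (h : AtInf F D.ring j) (hDE : D ≠ E) :
    ∃ b ∈ F.infRing E j, 0 < D.v b ∧ E.v b = 0 := by
  by_contra hcon
  push Not at hcon
  refine hDE (DVal.eq_of_ring_le (D := E) (D' := D) ?_).symm
  intro x hx
  obtain ⟨p, hp, q, hq, hq0, hqv, hpq⟩ := x14_frac hw hE j (E.mem_ring'.1 hx)
  have h1 : D.v q = 0 := by
    refine le_antisymm ?_ (x14_infRing_le hw hE h hq)
    by_contra h2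
    exact hcon q hq (not_le.1 h2) hqv
  refine D.mem_ring'.2 ?_
  by_cases hp0 : p = 0
  · rw [hpq, hp0, zero_div, D.zero]
  · rw [hpq, D.div' hp0 hq0, h1, sub_zero]
    exact x14_infRing_le hw hE h hp

end prime

end Pool.Agent.FR
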