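import Pool.Agent.FR.XBasic
import Pool.Agent.FR.XOrd
import Pool.Agent.FR.XPrime

/-!
Project FR (MP_c0959a_ag), row X14b: every prime divisor of `X` is `E` or the order along a prime
element of the coordinate ring.
-/

set_option autoImplicit false

namespace Pool.Agent.FR

open MvPolynomial
open scoped Classical

variable {s : ℕ} {k a : Fin (s + 3) → ℕ} {d : ℕ} {K : Type} [Field K] [Algebra ℂ K]

/-- Elements of the ring `R` lie in its localisation. -/
theorem x14_mem_loc {R : Subalgebra ℂ K} {V : ValuationSubring K} {x : K} (hx : x ∈ R) :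
    x ∈ loc R V :=
  ⟨x, hx, 1, R.one_mem, one_ne_zero, by rw [inv_one]; exact V.one_mem, by rw [div_one]⟩

/-- The case of a centre in the affine hypersurface. -/
theorem x14_inside {F : FD s k K} (hU : UniqueFactorizationMonoid F.A) {D : DVal K}
    (h0 : ∀ j, F.X j ∈ D.ring) (hR : (D.ring : Set K) = loc F.A D.ring) :
    ∃ π : F.A, Prime π ∧ IsOrd F π D := by
  have hA : ∀ x ∈ F.A, 0 ≤ D.v x := by
    intro x hx
    apply D.mem_ring'.1
    have h : x ∈ (D.ring : Set K) := by
      rw [hR]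
      exact x14_mem_loc hx
    exact h
  -- elements of the ring of `D` are fractions with a denominator of order `0`
  have hfrac : ∀ x : K, 0 ≤ D.v x → ∃ p ∈ F.A, ∃ q ∈ F.A, q ≠ 0 ∧ D.v q = 0 ∧ x = p / q := by
    intro x hx
    have h : x ∈ loc F.A D.ring := by
      rw [← hR]
      exact D.mem_ring'.2 hx
    obtain ⟨p, hp, q, hq, hq0, hq1, e⟩ := h
    refine ⟨p, hp, q, hq, hq0, ?_, e⟩
    have h1 := D.mem_ring'.1 hq1
    rw [D.inv hq0] at h1
    have h2 := hA q hq
    omega
  have hunit : ∀ u : F.A, IsUnit u → D.v (u : K) = 0 := by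
    intro u hu
    obtain ⟨w, hw⟩ := hu.exists_right_inv
    have hw' : (u : K) * (w : K) = 1 := by
      have := congrArg (Subtype.val : F.A → K) hw
      simpa using this
    have hu0 : (u : K) ≠ 0 := left_ne_zero_of_mul_eq_one hw'
    have hw0 : (w : K) ≠ 0 := right_ne_zero_of_mul_eq_one hw'
    have h1 := D.mul _ _ hu0 hw0
    rw [hw', D.one] at h1
    have h2 := hA _ u.2
    have h3 := hA _ w.2
    omega
  -- a prime element of positive order
  have hex : ∃ π : F.A, Prime π ∧ 0 < D.v (π : K) := by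
    by_contra hcon
    push Not at hcon
    have hall : ∀ x : F.A, x ≠ 0 → D.v (x : K) = 0 := by
      intro x
      induction x using UniqueFactorizationMonoid.induction_on_prime with
      | h₁ => exact fun h => absurd rfl h
      | h₂ u hu => exact fun _ => hunit u hu
      | h₃ x p hx hp ih =>
        intro _
        have h1 : ((p * x : F.A) : K) = (p : K) * (x : K) := rfl
        have hp0 : (p : K) ≠ 0 := fun h => hp.ne_zero (Subtype.ext h)
        have hx0 : (x : K) ≠ 0 := fun h => hx (Subtype.ext h)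
        rw [h1, D.mul _ _ hp0 hx0, ih hx]
        have h2 := hcon p hp
        have h3 := hA _ p.2
        omega
    obtain ⟨t, ht, ht1⟩ := D.unif
    obtain ⟨p, hp, q, hq, hq0, hq1, e⟩ := hfrac t (by omega)
    have hp0 : p ≠ 0 := by
      rintro rfl
      rw [zero_div] at e
      exact ht e
    have h1 := hall ⟨p, hp⟩ (fun h => hp0 (congrArg (Subtype.val : F.A → K) h))
    rw [e, D.div' hp0 hq0, hq1] at ht1
    have h2 : D.v p = 0 := h1
    omega
  obtain ⟨π, hπ, hπ1⟩ := hex
  have hπ0 : (π : K) ≠ 0 := fun h => hπ.ne_zero (Subtype.ext h)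
  refine ⟨π, hπ, isOrd_of_pos hU hπ (fun j => D.mem_ring'.1 (h0 j)) ?_⟩
  intro h hh
  have hh0 : (h : K) ≠ 0 := fun e => hh (Subtype.ext e)
  constructor
  · intro hv
    by_contra hnd
    obtain ⟨n, hn⟩ : ∃ n : ℕ, D.v (h : K) = n := ⟨(D.v (h : K)).toNat, by omega⟩
    obtain ⟨m, hm⟩ : ∃ m : ℕ, D.v (π : K) = m := ⟨(D.v (π : K)).toNat, by omega⟩
    have hx : D.v ((π : K) ^ n / (h : K) ^ m) = 0 := by
      rw [D.div' (pow_ne_zero _ hπ0) (pow_ne_zero _ hh0), D.pow hπ0, D.pow hh0, hn, hm]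
      ring
    obtain ⟨p, hp, q, hq, hq0, hq1, e⟩ := hfrac _ hx.ge
    have hp0 : p ≠ 0 := by
      rintro rfl
      rw [zero_div] at e
      exact div_ne_zero (pow_ne_zero _ hπ0) (pow_ne_zero _ hh0) e
    have hp1 : D.v p = 0 := by
      rw [e, D.div' hp0 hq0, hq1] at hx
      omega
    have e2 : (π : K) ^ n * q = p * (h : K) ^ m := by
      rw [div_eq_div_iff (pow_ne_zero _ hh0) hq0] at e
      exact e
    have e3 : π ^ n * ⟨q, hq⟩ = ⟨p, hp⟩ * h ^ m := by
      apply Subtype.ext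
      simpa using e2
    have hn0 : n ≠ 0 := by
      rintro rfl
      omega
    have hdvd : π ∣ (⟨p, hp⟩ : F.A) * h ^ m := by
      rw [← e3]
      exact (dvd_pow_self π hn0).mul_right _
    rcases hπ.dvd_or_dvd hdvd with h4 | h4
    · obtain ⟨c, hc⟩ := h4
      have hc' : p = (π : K) * (c : K) := congrArg (Subtype.val : F.A → K) hc
      have hc0 : (c : K) ≠ 0 := by
        intro h5
        rw [h5, mul_zero] at hc'
        exact hp0 hc'
      rw [hc', D.mul _ _ hπ0 hc0] at hp1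
      have h6 := hA _ c.2
      omega
    · exact hnd (hπ.dvd_of_dvd_pow h4)
  · rintro ⟨c, rfl⟩
    have hc0 : (c : K) ≠ 0 := by
      intro h5
      apply hh0
      have h6 : ((π * c : F.A) : K) = (π : K) * (c : K) := rfl
      rw [h6, h5, mul_zero]
    have h6 : ((π * c : F.A) : K) = (π : K) * (c : K) := rfl
    rw [h6, D.mul _ _ hπ0 hc0]
    have h7 := hA _ c.2
    omega

section prime
variable (hw : Wt s k a d) {F : FD s k K} (hU : UniqueFactorizationMonoid F.A)
  {E : DVal K} (hE : IsDeg F a E) {X : Model (⊤ : IntermediateField ℂ K)} (hX : IsCharts F E X)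
include hw hE hX

/-- The case of a centre at infinity. -/
theorem x14_inf {D : DVal K} {j : Fin (s + 3)} (h : AtInf F D.ring j)
    (hR : (D.ring : Set K) = loc (F.infRing E j) D.ring) : D = E := by
  by_contra hDE
  obtain ⟨b, hb, hb1, hb2⟩ := exists_vanish hw hE hX h hDE
  have hb0 : b ≠ 0 := D.ne_zero_of_v (by omega)
  have hXj : D.v (F.X j) < 0 := by
    by_contra hc
    push Not at hc
    exact h.1 (D.mem_ring'.2 hc)
  have hXj0 : F.X j ≠ 0 := D.ne_zero_of_v (by omega)
  have hkj := hw.hk j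
  have hEX := IsDeg.v_X hw hE j
  have hka : (k j : ℤ) * (a j : ℤ) = d := by exact_mod_cast hw.ka j
  have hd : (0 : ℤ) < d := by exact_mod_cast hw.hd
  have hsub : ∀ x ∈ F.infRing E j, 0 ≤ D.v x := by
    intro x hx
    apply D.mem_ring'.1
    have h1 : x ∈ (D.ring : Set K) := by
      rw [hR]
      exact x14_mem_loc hx
    exact h1
  have hD1 : D.v (F.X j ^ k j) = k j * D.v (F.X j) := D.pow hXj0 _
  have hE1 : E.v (F.X j ^ k j) = -(d : ℤ) := by
    rw [E.pow hXj0, hEX, ← hka]
    ring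
  have hDneg : D.v (F.X j ^ k j) < 0 := by
    rw [hD1]
    have : (0 : ℤ) < k j := by exact_mod_cast (by omega : 0 < k j)
    nlinarith
  set τ : K := F.X j ^ k j with hτ
  have hτ0 : τ ≠ 0 := pow_ne_zero _ hXj0
  obtain ⟨m, hm⟩ : ∃ m : ℕ, D.v τ = -(m : ℤ) := ⟨(-(D.v τ)).toNat, by omega⟩
  obtain ⟨n, hn⟩ : ∃ n : ℕ, D.v b = n := ⟨(D.v b).toNat, by omega⟩
  have hx0 : b ^ m * τ ^ n ≠ 0 := mul_ne_zero (pow_ne_zero _ hb0) (pow_ne_zero _ hτ0)
  have hx : D.v (b ^ m * τ ^ n) = 0 := by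
    rw [D.mul _ _ (pow_ne_zero _ hb0) (pow_ne_zero _ hτ0), D.pow hb0, D.pow hτ0, hm, hn]
    ring
  have hxE : E.v (b ^ m * τ ^ n) = -((n : ℤ) * d) := by
    rw [E.mul _ _ (pow_ne_zero _ hb0) (pow_ne_zero _ hτ0), E.pow hb0, E.pow hτ0, hb2, hE1]
    ring
  have hxm : b ^ m * τ ^ n ∈ loc (F.infRing E j) D.ring := by
    rw [← hR]
    exact D.mem_ring'.2 hx.ge
  obtain ⟨p, hp, q, hq, hq0, hq1, e⟩ := hxm
  have hp0 : p ≠ 0 := by
    rintro rfl
    rw [zero_div] at e
    exact hx0 e
  have hqD : D.v q = 0 := by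
    have h1 := D.mem_ring'.1 hq1
    rw [D.inv hq0] at h1
    have h2 := hsub q hq
    omega
  have hqE : 0 < E.v q := by
    have h1 : E.v (b ^ m * τ ^ n) = E.v p - E.v q := by
      rw [e, E.div' hp0 hq0]
    have h2 : 0 ≤ E.v p := hp.1
    have h3 : (0 : ℤ) < (n : ℤ) * d := mul_pos (by omega) hd
    omega
  have hmem : q ^ d * τ ∈ F.infRing E j := by
    obtain ⟨-, M, hM⟩ := hq
    refine ⟨?_, d * M, ?_⟩
    · rw [E.mul _ _ (pow_ne_zero _ hq0) hτ0, E.pow hq0, hE1]
      nlinarith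
    · have hXA : F.X j ∈ F.A := ⟨MvPolynomial.X j, by simp⟩
      have h1 := F.A.mul_mem (F.A.pow_mem hM d) (F.A.pow_mem hXA (k j))
      have e1 : q ^ d * τ * F.X j ^ (d * M) = (q * F.X j ^ M) ^ d * F.X j ^ k j := by
        rw [hτ, mul_pow, ← pow_mul, mul_comm M d]
        ring
      rw [e1]
      exact h1
  have h1 := hsub _ hmem
  rw [D.mul _ _ (pow_ne_zero _ hq0) hτ0, D.pow hq0, hqD] at h1
  omega

include hU in
theorem prime_cases {D : DVal K} (hD : IsPrimeDiv X D) :
    D = E ∨ ∃ π : F.A, Prime π ∧ IsOrd F π D := by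
  rcases inside_or hw F D.ring with h | ⟨j, h⟩
  · right
    have hR := hX.inside D.ring D.isPlace h
    exact x14_inside hU h (hD.trans hR)
  · left
    have hR := hX.inf D.ring j D.isPlace h
    exact x14_inf hw hE hX h (hD.trans hR)

end prime

end Pool.Agent.FR
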