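import Pool.Agent.FR.XThrough0
import Pool.Agent.FR.XPrime2

/-!
# Local equations on the model of the hypersurface
-/

set_option autoImplicit false

namespace Pool.Agent.FR

open MvPolynomial
open scoped Classical

variable {s : ℕ} {k a : Fin (s + 3) → ℕ} {d : ℕ} {K : Type} [Field K] [Algebra ℂ K]

section prime
variable (hw : Wt s k a d) {F : FD s k K} (hU : UniqueFactorizationMonoid F.A)
  {E : DVal K} (hE : IsDeg F a E) {X : Model (⊤ : IntermediateField ℂ K)} (hX : IsCharts F E X)
include hw hE hX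

include hU in
theorem through_inf (V : ValuationSubring K) (hV : IsPlace V) (j : Fin (s + 3))
    (h : AtInf F V j) {D : DVal K} (hD : Through X V D) (hDE : D ≠ E) : D.v (F.X j) = 0 :=
  through_inf_aux hw hE hX (fun _ hD => prime_cases hw hU hE hX hD) V hV j h hD hDE

include hU in
theorem isLocEq_inside (c : DVal K → ℤ) (f : K) (hf : f ≠ 0)
    (hc : ∀ D, IsPrimeDiv X D → D ≠ E → D.v f = c D) (V : ValuationSubring K) (hV : IsPlace V)
    (h : ∀ j, F.X j ∈ V) : IsLocEq X c V 1 f :=
  have _ := hU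
  isLocEq_inside_aux hw hE hX c f hf hc V hV h

include hU in
theorem isLocEq_inf (c : DVal K → ℤ) (f : K) (hf : f ≠ 0)
    (hc : ∀ D, IsPrimeDiv X D → D ≠ E → D.v f = c D) (V : ValuationSubring K) (hV : IsPlace V)
    (j : Fin (s + 3)) (h : AtInf F V j) :
    IsLocEq X c V d (f ^ d * F.X j ^ ((k j : ℤ) * (E.v f - c E))) :=
  isLocEq_inf_aux hw hE hX (fun _ hD => prime_cases hw hU hE hX hD) c f hf hc V hV j h

include hU in
theorem qCartier_of (c : DVal K → ℤ) (f : K) (hf : f ≠ 0)
    (hc : ∀ D, IsPrimeDiv X D → D ≠ E → D.v f = c D) : QCartier X c :=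
  qCartier_of_aux hw hE hX (fun _ hD => prime_cases hw hU hE hX hD) c f hf hc

end prime

end Pool.Agent.FR
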