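import Pool.Agent.FR.XChart
import Pool.Agent.FR.XInf
import Pool.Agent.FR.XThrough

/-!
# The anticanonical divisor of the hypersurface is ample (project FR, X17)
-/

set_option autoImplicit false

namespace Pool.Agent.FR

open MvPolynomial
open scoped Classical

variable {s : ℕ} {k a : Fin (s + 3) → ℕ} {d : ℕ} {K : Type} [Field K] [Algebra ℂ K]

section prime
variable (hw : Wt s k a d) {F : FD s k K} (hU : UniqueFactorizationMonoid F.A)
  {E : DVal K} (hE : IsDeg F a E) {X : Model (⊤ : IntermediateField ℂ K)} (hX : IsCharts F E X)
include hw hE hX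

include hU in
theorem isAmple_X (B : Module.Basis (Fin (s + 2)) K (Derivation ℂ K K)) (I : ℕ)
    (hI : s + 3 ≤ I) (hBE : kord B E = -(I : ℤ))
    (hB0 : ∀ D, IsPrimeDiv X D → D ≠ E → kord B D = 0) (hg : IsMon F a (d * I) X.g) :
    IsAmple X (fun D => - kord B D) := by
  have hXne := F.X_ne hw
  have hvm : ∀ e : Fin (s + 3) → ℕ, E.v (∏ i, F.X i ^ e i) = -((∑ i, e i * a i : ℕ) : ℤ) := by
    intro e
    rw [E.prod _ _ fun i _ => pow_ne_zero _ (hXne i)]
    push_cast
    rw [← Finset.sum_neg_distrib]
    refine Finset.sum_congr rfl fun i _ => ?_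
    rw [E.pow (hXne i), IsDeg.v_X hw hE i]
    ring
  refine ⟨d, X.N, X.g, hw.hd, X.ne, ?_, ?_⟩
  · intro i D hD
    beta_reduce
    obtain ⟨e, he, hge⟩ := hg.exists_eq i
    by_cases hDE : D = E
    · subst hDE
      rw [hge, hvm, hBE]
      have : ((∑ i, e i * a i : ℕ) : ℤ) ≤ ((d * I : ℕ) : ℤ) := by exact_mod_cast he
      push_cast at this ⊢
      linarith
    · rw [hB0 D hD hDE, neg_zero, mul_zero, neg_zero]
      obtain ⟨π, -, hord⟩ := (prime_cases hw hU hE hX hD).resolve_left hDE
      rw [hge, D.prod _ _ fun i _ => pow_ne_zero _ (hXne i)]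
      refine Finset.sum_nonneg fun j _ => ?_
      rw [D.pow (hXne j)]
      have h1 : 0 ≤ D.v (F.X j) := hord.nonneg ⟨F.X j, F.X_mem j⟩ (by
        intro h0
        exact hXne j (congrArg Subtype.val h0))
      positivity
  · intro V hV
    rcases inside_or hw F V with h | ⟨j, h⟩
    · obtain ⟨i, hi⟩ := hg.exists_index (fun _ => 0) (by simp)
      have hi1 : X.g i = 1 := by rw [hi]; simp
      refine ⟨i, ?_, ?_, ?_⟩
      · intro j
        rw [hi1, div_one]
        exact inside_chart hw F hg V hV h j
      · intro D hD
        beta_reduce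
        by_cases hDE : D = E
        · subst hDE
          exact absurd hD (not_through_E hw hE hX V hV h)
        · rw [hi1, D.one, hB0 D hD.1 hDE]
          ring
      · have hch : chart X.g i = F.A := adjoin_inside hw F hg (fun j => ?_) i hi1
        · change locRing X.g V = loc (chart X.g i) V
          rw [hch]
          exact hX.inside V hV h
        · have h1 := hw.ka j
          have h2 := hw.k_pos j
          have h3 : a j ≤ d := by
            rw [← h1]
            exact Nat.le_mul_of_pos_left _ h2
          exact h3.trans (Nat.le_mul_of_pos_right _ (by omega))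
    · obtain ⟨i, hi⟩ := hg.exists_index (fun l => if l = j then k j * I else 0) (by
        simp only [ite_mul, zero_mul, Finset.sum_ite_eq', Finset.mem_univ, if_true]
        rw [← hw.ka j]
        exact le_of_eq (by ring))
      have hi1 : X.g i = F.X j ^ (k j * I) := by
        rw [hi, Finset.prod_eq_single j]
        · rw [if_pos rfl]
        · intro l _ hl
          rw [if_neg hl, pow_zero]
        · intro h
          exact absurd (Finset.mem_univ j) h
      refine ⟨i, ?_, ?_, ?_⟩
      · intro l
        rw [hi1]
        exact inf_chart hw F hg V hV j h l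
      · intro D hD
        beta_reduce
        rw [hi1, D.pow (hXne j)]
        by_cases hDE : D = E
        · subst hDE
          rw [IsDeg.v_X hw hE j, hBE]
          have h1 : (k j : ℤ) * (a j : ℤ) = d := by exact_mod_cast hw.ka j
          push_cast
          rw [← h1]
          ring
        · rw [through_inf hw hU hE hX V hV j h hD hDE, hB0 D hD.1 hDE]
          ring
      · change locRing X.g V = loc (chart X.g i) V
        have hch : chart X.g i = F.infRing E j := by
          have h1 := adjoin_inf hw F hE hg hI j
          rw [← h1, chart]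
          simp only [hi1]
        rw [hch]
        exact hX.inf V j hV h

end prime

end Pool.Agent.FR
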