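import Pool.Agent.FR.XThrough
import Pool.Agent.FR.XPrime2

/-!
Project FR (MP_c0959a_ag), row X16: factoriality and Picard number one.
-/

set_option autoImplicit false

namespace Pool.Agent.FR

open MvPolynomial
open scoped Classical

variable {s : ℕ} {k a : Fin (s + 3) → ℕ} {d : ℕ} {K : Type} [Field K] [Algebra ℂ K]

/-- The order of a prime element along the order of another one. -/
theorem x16_ord {F : FD s k K} {π π' : F.A} {D D' : DVal K} (hπ : Prime π) (hπ' : Prime π')
    (hD : IsOrd F π D) (hD' : IsOrd F π' D') :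
    D.v (π' : K) = if D = D' then 1 else 0 := by
  by_cases h : D = D'
  · rw [if_pos h, h]
    exact hD'.one
  · rw [if_neg h]
    refine hD.eq_zero π' fun hdvd => h ?_
    have hass : Associated π' π := ((hπ.associated_of_dvd hπ' hdvd)).symm
    exact hD.unique (hD'.of_assoc hπ' hass)

section prime
variable (hw : Wt s k a d) {F : FD s k K} (hU : UniqueFactorizationMonoid F.A)
  {E : DVal K} (hE : IsDeg F a E) {X : Model (⊤ : IntermediateField ℂ K)} (hX : IsCharts F E X)
include hw hE hX

include hU in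
theorem qFactorial_X : QFactorial X := by
  intro D₀ hD₀
  rcases prime_cases hw hU hE hX hD₀ with rfl | ⟨π, hπ, hord⟩
  · refine qCartier_of hw hU hE hX _ 1 one_ne_zero ?_
    intro D _ hDE
    rw [if_neg hDE, D.one]
  · refine qCartier_of hw hU hE hX _ (π : K) (fun h => hπ.ne_zero (Subtype.ext h)) ?_
    intro D hD hDE
    rcases prime_cases hw hU hE hX hD with h | ⟨π', hπ', hord'⟩
    · exact absurd h hDE
    · exact x16_ord hπ' hπ hord' hord

include hU in
theorem picardOne_X (B : Module.Basis (Fin (s + 2)) K (Derivation ℂ K K)) (I : ℕ) (hI : 0 < I)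
    (hBE : kord B E = -(I : ℤ)) (hB0 : ∀ D, IsPrimeDiv X D → D ≠ E → kord B D = 0) :
    PicardOne B X := by
  intro D₀ hD₀
  rcases prime_cases hw hU hE hX hD₀ with rfl | ⟨π, hπ, hord⟩
  · refine ⟨I, 1, 1, hI, one_ne_zero, ?_⟩
    intro D hD
    by_cases h : D = D₀
    · rw [if_pos h, h, hBE, D₀.one]
      ring
    · rw [if_neg h, hB0 D hD h, D.one]
      ring
  · have hπ0 : (π : K) ≠ 0 := fun h => hπ.ne_zero (Subtype.ext h)
    have hne : D₀ ≠ E := (isPrimeDiv_ord hw hE hX hπ hord).2
    refine ⟨I, -E.v (π : K), (π : K) ^ I, hI, pow_ne_zero _ hπ0, ?_⟩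
    intro D hD
    rw [D.pow hπ0]
    rcases prime_cases hw hU hE hX hD with rfl | ⟨π', hπ', hord'⟩
    · rw [if_neg (fun h => hne h.symm), hBE]
      ring
    · have hDE : D ≠ E := (isPrimeDiv_ord hw hE hX hπ' hord').2
      rw [hB0 D hD hDE, x16_ord hπ' hπ hord' hord]
      ring

end prime

end Pool.Agent.FR
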