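import Pool.Agent.FR.XRep
import Pool.Agent.FR.Dual
import Pool.Agent.FR.LogForm

/-!
# Project FR, row X9: the canonical order of the divisor at infinity
-/

set_option autoImplicit false

namespace Pool.Agent.FR

open MvPolynomial
open scoped Classical

variable {s : ℕ} {k a : Fin (s + 3) → ℕ} {d : ℕ} {K : Type} [Field K] [Algebra ℂ K]

/-- The basic estimate: `h` has order at least `-n` and `D h - lam n h` has order at least
`c - n`. -/
def XGood (E : DVal K) (D : Derivation ℂ K K) (lam : ℤ) (c : ℤ) (h : K) (n : ℕ) : Prop :=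
  (h = 0 ∨ -(n : ℤ) ≤ E.v h) ∧
    (D h - (lam : K) * (n : K) * h = 0 ∨ c - (n : ℤ) ≤ E.v (D h - (lam : K) * (n : K) * h))

section good
variable {E : DVal K} {D : Derivation ℂ K K} {lam c : ℤ}

theorem xint_ge (E : DVal K) (z : ℤ) : (z : K) = 0 ∨ 0 ≤ E.v (z : K) := by
  by_cases hz : z = 0
  · left; simp [hz]
  · right; rw [E.intCast hz]

theorem xnat_ge (E : DVal K) (z : ℕ) : (z : K) = 0 ∨ 0 ≤ E.v (z : K) := by
  have h := xint_ge E (z : ℤ)
  simpa using h

theorem XGood.add {x y : K} {n : ℕ} (hx : XGood E D lam c x n) (hy : XGood E D lam c y n) :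
    XGood E D lam c (x + y) n := by
  refine ⟨E.add_ge hx.1 hy.1, ?_⟩
  have h := E.add_ge hx.2 hy.2
  have he : D (x + y) - (lam : K) * (n : K) * (x + y) =
      D x - (lam : K) * (n : K) * x + (D y - (lam : K) * (n : K) * y) := by
    rw [map_add]; ring
  rwa [he]

theorem XGood.zero (n : ℕ) : XGood E D lam c 0 n := by
  refine ⟨Or.inl rfl, Or.inl ?_⟩
  rw [map_zero]; ring

theorem XGood.sum {ι : Type*} (t : Finset ι) (f : ι → K) {n : ℕ}
    (h : ∀ i ∈ t, XGood E D lam c (f i) n) : XGood E D lam c (∑ i ∈ t, f i) n := by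
  induction t using Finset.induction_on with
  | empty => rw [Finset.sum_empty]; exact XGood.zero n
  | insert i t hi ih =>
    rw [Finset.sum_insert hi]
    exact (h i (Finset.mem_insert_self i t)).add
      (ih fun j hj => h j (Finset.mem_insert_of_mem hj))

theorem XGood.mul {x y : K} {n m : ℕ} (hx : XGood E D lam c x n) (hy : XGood E D lam c y m) :
    XGood E D lam c (x * y) (n + m) := by
  constructor
  · have h := E.mul_ge hx.1 hy.1
    push_cast
    rwa [show -((n : ℤ) + (m : ℤ)) = -(n : ℤ) + -(m : ℤ) by ring]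
  · have h1 := E.mul_ge hx.1 hy.2
    have h2 := E.mul_ge hy.1 hx.2
    rw [show -(n : ℤ) + (c - (m : ℤ)) = c - ((n + m : ℕ) : ℤ) by push_cast; ring] at h1
    rw [show -(m : ℤ) + (c - (n : ℤ)) = c - ((n + m : ℕ) : ℤ) by push_cast; ring] at h2
    have h3 := E.add_ge h1 h2
    have he : D (x * y) - (lam : K) * ((n + m : ℕ) : K) * (x * y) =
        x * (D y - (lam : K) * (m : K) * y) + y * (D x - (lam : K) * (n : K) * x) := by
      rw [D.leibniz, smul_eq_mul, smul_eq_mul]
      push_cast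
      ring
    rwa [he]

theorem XGood.mono (hl : lam = 0 ∨ c ≤ 1) {x : K} {n m : ℕ} (hx : XGood E D lam c x n)
    (hnm : n ≤ m) : XGood E D lam c x m := by
  rcases Nat.eq_or_lt_of_le hnm with rfl | hlt
  · exact hx
  refine ⟨hx.1.imp id fun h => by omega, ?_⟩
  rcases hl with rfl | hl
  · have h2 := hx.2
    rw [show D x - ((0 : ℤ) : K) * (m : K) * x = D x - ((0 : ℤ) : K) * (n : K) * x by
      push_cast; ring]
    exact h2.imp id fun h => by omega
  · have h2 : D x - (lam : K) * (n : K) * x = 0 ∨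
        c - (m : ℤ) ≤ E.v (D x - (lam : K) * (n : K) * x) := hx.2.imp id fun h => by omega
    have h3 : ((lam * ((n : ℤ) - m) : ℤ) : K) * x = 0 ∨
        c - (m : ℤ) ≤ E.v (((lam * ((n : ℤ) - m) : ℤ) : K) * x) := by
      have h4 := E.mul_ge (xint_ge E (lam * ((n : ℤ) - m))) hx.1
      exact h4.imp id fun h => by omega
    have h5 := E.add_ge h2 h3
    have he : D x - (lam : K) * (m : K) * x =
        D x - (lam : K) * (n : K) * x + ((lam * ((n : ℤ) - m) : ℤ) : K) * x := by
      push_cast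
      ring
    rwa [he]

theorem XGood.const (z : ℂ) : XGood E D lam c (algebraMap ℂ K z) 0 := by
  constructor
  · by_cases hz : z = 0
    · left; simp [hz]
    · right; rw [E.const z hz]; simp
  · left
    rw [D.map_algebraMap]
    push_cast
    ring

theorem XGood.pow {x : K} {n : ℕ} (hx : XGood E D lam c x n) (e : ℕ) :
    XGood E D lam c (x ^ e) (e * n) := by
  induction e with
  | zero =>
    have h := XGood.const (E := E) (D := D) (lam := lam) (c := c) (1 : ℂ)
    rw [map_one] at h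
    simpa using h
  | succ e ih =>
    rw [pow_succ, Nat.succ_mul]
    exact ih.mul hx

theorem XGood.prod {ι : Type*} (t : Finset ι) (f : ι → K) (n : ι → ℕ)
    (h : ∀ i ∈ t, XGood E D lam c (f i) (n i)) : XGood E D lam c (∏ i ∈ t, f i) (∑ i ∈ t, n i) := by
  induction t using Finset.induction_on with
  | empty =>
    have h := XGood.const (E := E) (D := D) (lam := lam) (c := c) (1 : ℂ)
    rw [map_one] at h
    simpa using h
  | insert i t hi ih =>
    rw [Finset.prod_insert hi, Finset.sum_insert hi]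
    exact (h i (Finset.mem_insert_self i t)).mul
      (ih fun j hj => h j (Finset.mem_insert_of_mem hj))

/-- The estimate for polynomials. -/
theorem XGood.poly {F : FD s k K} (hl : lam = 0 ∨ c ≤ 1)
    (hX : ∀ i, XGood E D lam c (F.X i) (a i)) (P : MvPolynomial (Fin (s + 3)) ℂ) :
    XGood E D lam c (aeval F.X P) (weightedTotalDegree a P) := by
  have h1 : aeval F.X P = ∑ e ∈ P.support, algebraMap ℂ K (P.coeff e) *
      ∏ i, F.X i ^ e i := by
    rw [aeval_def, eval₂_eq']
  rw [h1]
  refine XGood.sum _ _ fun e he => ?_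
  have h2 := XGood.prod Finset.univ (fun i => F.X i ^ e i) (fun i => e i * a i)
    fun i _ => (hX i).pow (e i)
  have h3 := (XGood.const (E := E) (D := D) (lam := lam) (c := c) (P.coeff e)).mul h2
  refine h3.mono hl ?_
  rw [zero_add]
  have h4 := le_weightedTotalDegree a he
  refine le_trans (le_of_eq ?_) h4
  rw [Finsupp.weight_apply, Finsupp.sum_fintype]
  · simp
  · simp

/-- The estimate for arbitrary elements of the function field. -/
theorem XGood.all (hw : Wt s k a d) {F : FD s k K} (hE : IsDeg F a E) (hl : lam = 0 ∨ c ≤ 1)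
    (hX : ∀ i, XGood E D lam c (F.X i) (a i)) (h : K) (h0 : h ≠ 0) :
    D h + (lam : K) * ((E.v h : ℤ) : K) * h = 0 ∨
      c + E.v h ≤ E.v (D h + (lam : K) * ((E.v h : ℤ) : K) * h) := by
  obtain ⟨P₀, Q₀, hQ₀, hh⟩ := F.frac h
  have hP₀ : aeval F.X P₀ ≠ 0 := by
    intro h1
    rw [h1, zero_div] at hh
    exact h0 hh
  obtain ⟨P, -, hP, -, hvP⟩ := hE.exists_rep hw 0 (aeval F.X P₀) ⟨P₀, rfl⟩ hP₀
  obtain ⟨Q, -, hQ, -, hvQ⟩ := hE.exists_rep hw 0 (aeval F.X Q₀) ⟨Q₀, rfl⟩ hQ₀
  set p := aeval F.X P₀ with hp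
  set q := aeval F.X Q₀ with hq
  have gp1 := XGood.poly hl hX P
  have gq1 := XGood.poly hl hX Q
  rw [hP] at gp1
  rw [hQ] at gq1
  have hv : E.v h = ((weightedTotalDegree a Q : ℕ) : ℤ) - ((weightedTotalDegree a P : ℕ) : ℤ) := by
    rw [hh, E.div' hP₀ hQ₀, hvP, hvQ]
    ring
  set n := weightedTotalDegree a P with hn
  set m := weightedTotalDegree a Q with hm
  have h1 := E.mul_ge gq1.1 gp1.2
  have h2 := E.mul_ge gp1.1 gq1.2
  rw [show -(m : ℤ) + (c - (n : ℤ)) = c - n - m by ring] at h1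
  rw [show -(n : ℤ) + (c - (m : ℤ)) = c - n - m by ring] at h2
  have h3 := E.add_ge h1 (E.neg_ge h2)
  have h4 : (q⁻¹ ^ 2 : K) = 0 ∨ 2 * (m : ℤ) ≤ E.v (q⁻¹ ^ 2) := by
    right
    rw [E.pow (inv_ne_zero hQ₀), E.inv hQ₀, hvQ]
    push_cast
    linarith
  have h5 := E.mul_ge h4 h3
  have he : D h + (lam : K) * ((E.v h : ℤ) : K) * h =
      q⁻¹ ^ 2 * (q * (D p - (lam : K) * (n : K) * p) + -(p * (D q - (lam : K) * (m : K) * q))) := by
    rw [hv, hh, D.leibniz_div]
    simp only [smul_eq_mul]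
    push_cast
    field_simp
    ring
  rw [he, hv]
  rw [show c + ((m : ℤ) - (n : ℤ)) = 2 * (m : ℤ) + (c - n - m) by ring]
  exact h5

end good

section dual
variable (hw : Wt s k a d) {F : FD s k K} {E : DVal K} (hE : IsDeg F a E)
include hw hE

theorem xgood_X (j : Fin (s + 3)) : F.X j = 0 ∨ -((a j : ℕ) : ℤ) ≤ E.v (F.X j) :=
  Or.inr (le_of_eq (hE.v_X hw j).symm)

theorem v_kX (j : Fin (s + 3)) :
    E.v ((k j : K) * F.X j ^ (k j - 1)) = (a j : ℤ) - d := by
  have h1 := left_ne_zero_of_mul (F.kX_ne hw j)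
  have h2 := right_ne_zero_of_mul (F.kX_ne hw j)
  have h3 := hw.hk j
  rw [E.mul _ _ h1 h2, E.natCast (by omega), E.pow (F.X_ne hw j), hE.v_X hw j, ← hw.ka j,
    Nat.cast_sub (by omega)]
  push_cast
  ring

/-- The estimate for the dual derivations. -/
theorem xe_dual_ge (dd : Fin (s + 2) → Derivation ℂ K K)
    (hdd : ∀ l m, dd l (F.X ((0 : Fin (s + 3)).succAbove m)) = if l = m then 1 else 0)
    (l : Fin (s + 2)) (x : K) (hx : x ∈ E.ring) :
    dd l x = 0 ∨ (a l.succ : ℤ) ≤ E.v (dd l x) := by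
  by_cases h0 : x = 0
  · left; rw [h0, map_zero]
  have hX : ∀ i, XGood E (dd l) 0 (a l.succ : ℤ) (F.X i) (a i) := by
    intro i
    refine ⟨xgood_X hw hE i, ?_⟩
    have he : dd l (F.X i) - ((0 : ℤ) : K) * (a i : K) * F.X i = dd l (F.X i) := by
      push_cast; ring
    rw [he]
    rcases Fin.eq_zero_or_eq_succ i with rfl | ⟨m, rfl⟩
    · right
      have h1 := F.der_rel (dd l)
      rw [Fin.sum_univ_succ] at h1
      have h2 : ∀ m : Fin (s + 2), dd l (F.X m.succ) = if l = m then 1 else 0 := by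
        intro m
        have := hdd l m
        rwa [Fin.succAbove_zero] at this
      simp only [h2, mul_ite, mul_one, mul_zero] at h1
      rw [Finset.sum_ite_eq Finset.univ l] at h1
      simp only [Finset.mem_univ, if_true] at h1
      have h3 : dd l (F.X 0) = -((k l.succ : K) * F.X l.succ ^ (k l.succ - 1)) /
          ((k 0 : K) * F.X 0 ^ (k 0 - 1)) := by
        rw [eq_div_iff (F.kX_ne hw 0)]
        linear_combination h1
      rw [h3, E.div' (neg_ne_zero.2 (F.kX_ne hw l.succ)) (F.kX_ne hw 0), E.neg,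
        v_kX hw hE, v_kX hw hE]
      linarith
    · have h2 : dd l (F.X m.succ) = if l = m then 1 else 0 := by
        have := hdd l m
        rwa [Fin.succAbove_zero] at this
      rw [h2]
      by_cases hlm : l = m
      · right
        rw [if_pos hlm, E.one, hlm]
        linarith
      · left; rw [if_neg hlm]
  have h1 := XGood.all hw hE (Or.inl rfl) hX x h0
  have he : dd l x + ((0 : ℤ) : K) * ((E.v x : ℤ) : K) * x = dd l x := by
    push_cast; ring
  rw [he] at h1
  have h2 : 0 ≤ E.v x := E.mem_ring'.1 hx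
  exact h1.imp id fun h => by linarith

/-- The estimate for the Euler derivation. -/
theorem euler_ge (D : Derivation ℂ K K) (hD : ∀ m : Fin (s + 2), D (F.X m.succ) = (a m.succ : K) * F.X m.succ)
    (x : K) (hx : x ∈ E.ring) : D x = 0 ∨ 1 ≤ E.v (D x) := by
  by_cases h0 : x = 0
  · left; rw [h0, map_zero]
  have hX : ∀ i, XGood E D 1 1 (F.X i) (a i) := by
    intro i
    refine ⟨xgood_X hw hE i, ?_⟩
    rcases Fin.eq_zero_or_eq_succ i with rfl | ⟨m, rfl⟩
    · right
      have h1 := F.der_rel D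
      rw [Fin.sum_univ_succ] at h1
      have h2 : ∀ m : Fin (s + 2), (k m.succ : K) * F.X m.succ ^ (k m.succ - 1) * D (F.X m.succ) =
          (d : K) * F.X m.succ ^ k m.succ := by
        intro m
        have h3 := hw.hk m.succ
        have h4 : F.X m.succ ^ k m.succ = F.X m.succ ^ (k m.succ - 1) * F.X m.succ := by
          rw [← pow_succ, Nat.sub_add_cancel (by omega)]
        rw [hD, ← hw.ka m.succ, h4]
        push_cast
        ring
      simp only [h2] at h1
      rw [← Finset.mul_sum] at h1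
      have h3 := F.rel
      rw [Fin.sum_univ_succ] at h3
      have h4 : F.X 0 ^ k 0 = F.X 0 ^ (k 0 - 1) * F.X 0 := by
        have := hw.hk 0
        rw [← pow_succ, Nat.sub_add_cancel (by omega)]
      have h5 : (k 0 : K) * (a 0 : K) = (d : K) := by
        rw [← hw.ka 0]; push_cast; ring
      have h6 : ((k 0 : K) * F.X 0 ^ (k 0 - 1)) * (D (F.X 0) - ((1 : ℤ) : K) * (a 0 : K) * F.X 0) =
          (d : K) := by
        rw [h4] at h3
        push_cast
        linear_combination h1 + (-(F.X 0 ^ (k 0 - 1) * F.X 0)) * h5 - (d : K) * h3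
      have hd0 : (d : K) ≠ 0 := by
        have h7 := hw.hd
        have h8 : algebraMap ℂ K (d : ℂ) ≠ 0 := by
          rw [Ne, map_eq_zero]
          exact_mod_cast (by omega : d ≠ 0)
        rwa [map_natCast] at h8
      have h7 : D (F.X 0) - ((1 : ℤ) : K) * (a 0 : K) * F.X 0 =
          (d : K) / ((k 0 : K) * F.X 0 ^ (k 0 - 1)) := by
        rw [eq_div_iff (F.kX_ne hw 0), mul_comm]
        exact h6
      rw [h7, E.div' hd0 (F.kX_ne hw 0), v_kX hw hE, E.natCast (by have := hw.hd; omega)]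
      have h8 := hw.hd
      have h9 := hw.ka 0
      omega
    · left
      rw [hD]
      push_cast
      ring
  have h1 := XGood.all hw hE (Or.inr le_rfl) hX x h0
  have h2 : 0 ≤ E.v x := E.mem_ring'.1 hx
  have h3 : D x + ((1 : ℤ) : K) * ((E.v x : ℤ) : K) * x = 0 ∨
      1 ≤ E.v (D x + ((1 : ℤ) : K) * ((E.v x : ℤ) : K) * x) := h1.imp id fun h => by linarith
  have h4 : -(((E.v x : ℤ) : K) * x) = 0 ∨ 1 ≤ E.v (-(((E.v x : ℤ) : K) * x)) := by
    by_cases hv : E.v x = 0
    · left; rw [hv]; push_cast; ring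
    · right
      rw [E.neg, E.mul _ _ ?_ h0, E.intCast hv]
      · omega
      · have h5 := E.intCast hv
        intro h6
        have h7 : algebraMap ℂ K ((E.v x : ℤ) : ℂ) = 0 := by rw [map_intCast, h6]
        rw [map_eq_zero] at h7
        exact hv (by exact_mod_cast h7)
  have h5 := E.add_ge h3 h4
  have he : D x = D x + ((1 : ℤ) : K) * ((E.v x : ℤ) : K) * x + -(((E.v x : ℤ) : K) * x) := by
    push_cast; ring
  rw [he]
  exact h5

end dual

theorem kord_E (hw : Wt s k a d) {F : FD s k K}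
    {B : Module.Basis (Fin (s + 2)) K (Derivation ℂ K K)} (hB : IsOmega F B) {E : DVal K}
    (hE : IsDeg F a E) : kord B E = (d : ℤ) - ∑ j, (a j : ℤ) - 1 := by
  have hsplit : ∑ j, (a j : ℤ) = (a 0 : ℤ) + ∑ j : Fin (s + 2), (a j.succ : ℤ) :=
    Fin.sum_univ_succ _
  apply le_antisymm
  · obtain ⟨dd, hdd⟩ := F.exists_dual hw 0
    obtain ⟨c, hc, hjac⟩ := F.jac_dual hw hB 0 dd hdd
    obtain ⟨u, hu, hj, hv⟩ := kord_eq B E
    set M : Matrix (Fin (s + 2)) (Fin (s + 2)) K := Matrix.of fun l m => dd l (u m) with hM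
    have hj' := hj
    rw [hjac] at hj'
    have hM0 : M.det ≠ 0 := right_ne_zero_of_mul hj'
    have hcX : algebraMap ℂ K c * F.X 0 ^ (k 0 - 1) ≠ 0 := left_ne_zero_of_mul hj'
    -- the Euler derivation
    set w : Fin (s + 2) → K := fun l => (a l.succ : K) * F.X l.succ with hwdef
    set D : Derivation ℂ K K := ∑ l, w l • dd l with hD
    have hDa : ∀ x, D x = ∑ l, w l * dd l x := by
      intro x
      rw [hD, der_sum_apply]
      rfl
    have hDX : ∀ m : Fin (s + 2), D (F.X m.succ) = (a m.succ : K) * F.X m.succ := by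
      intro m
      rw [hDa]
      have h2 : ∀ l : Fin (s + 2), dd l (F.X m.succ) = if l = m then 1 else 0 := by
        intro l
        have := hdd l m
        rwa [Fin.succAbove_zero] at this
      simp only [h2, mul_ite, mul_one, mul_zero]
      rw [Finset.sum_ite_eq' Finset.univ m]
      simp [hwdef]
    have hdet := Matrix.det_updateRow_sum M 0 w
    have hrow : (∑ l, w l • M l) = fun m => D (u m) := by
      funext m
      rw [hDa, Finset.sum_apply]
      rfl
    rw [hrow] at hdet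
    have ha0 : 0 < a (Fin.succ (0 : Fin (s + 2))) := by
      rcases Nat.eq_zero_or_pos (a (Fin.succ (0 : Fin (s + 2)))) with h | h
      · have h1 := hw.ka (Fin.succ (0 : Fin (s + 2)))
        have h2 := hw.hd
        rw [h, mul_zero] at h1
        omega
      · exact h
    have hX1 := F.X_ne hw (Fin.succ (0 : Fin (s + 2)))
    have hac : ((a (Fin.succ (0 : Fin (s + 2))) : ℕ) : K) ≠ 0 := by
      have h8 : algebraMap ℂ K ((a (Fin.succ (0 : Fin (s + 2))) : ℕ) : ℂ) ≠ 0 := by
        rw [Ne, map_eq_zero]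
        exact_mod_cast ha0.ne'
      rwa [map_natCast] at h8
    have hw0 : w 0 ≠ 0 := mul_ne_zero hac hX1
    have hvw0 : E.v (w 0) = -(a (Fin.succ (0 : Fin (s + 2))) : ℤ) := by
      rw [hwdef]
      simp only
      rw [E.mul _ _ hac hX1, E.natCast ha0.ne', hE.v_X hw, zero_add]
    have hge := det_ge E (M.updateRow 0 fun m => D (u m))
      (Fin.cons 1 fun l : Fin (s + 1) => (a l.succ.succ : ℤ)) (by
        intro i j
        refine Fin.cases ?_ (fun l => ?_) i
        · rw [Matrix.updateRow_self, Fin.cons_zero]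
          exact euler_ge hw hE D hDX (u j) (hu j)
        · rw [Matrix.updateRow_ne (Fin.succ_ne_zero l), Fin.cons_succ]
          exact xe_dual_ge hw hE dd hdd l.succ (u j) (hu j))
    rw [hdet, smul_eq_mul] at hge
    have hge' := hge.resolve_left (mul_ne_zero hw0 hM0)
    rw [E.mul _ _ hw0 hM0, hvw0, Fin.sum_univ_succ, Fin.cons_zero] at hge'
    simp only [Fin.cons_succ] at hge'
    have hs : ∑ j : Fin (s + 2), (a j.succ : ℤ) = (a (Fin.succ (0 : Fin (s + 2))) : ℤ) +
        ∑ l : Fin (s + 1), (a l.succ.succ : ℤ) := Fin.sum_univ_succ _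
    rw [hjac, E.mul _ _ hcX hM0, E.const_mul hc, E.pow (F.X_ne hw 0), hE.v_X hw] at hv
    have hk := hw.hk 0
    have hka : (k 0 : ℤ) * (a 0 : ℤ) = d := by
      rw [← hw.ka 0]; push_cast; ring
    rw [Nat.cast_sub (by omega)] at hv
    push_cast at hv
    have h10 : ((k 0 : ℤ) - 1) * -(a 0 : ℤ) = (a 0 : ℤ) - d := by rw [← hka]; ring
    rw [h10] at hv
    linarith
  · obtain ⟨c, hc, hjc⟩ := hB 0
    have hne : jac B (fun i => F.X ((0 : Fin (s + 3)).succAbove i)) ≠ 0 := by
      rw [hjc]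
      refine mul_ne_zero ?_ (pow_ne_zero _ (F.X_ne hw 0))
      rwa [Ne, map_eq_zero]
    have h1 := log_form B E (fun i => F.X ((0 : Fin (s + 3)).succAbove i))
      (fun i => F.X_ne hw _) hne
    rw [hjc, E.const_mul hc, E.pow (F.X_ne hw 0), hE.v_X hw] at h1
    have h2 : ∀ i : Fin (s + 2), E.v (F.X ((0 : Fin (s + 3)).succAbove i)) = -(a i.succ : ℤ) := by
      intro i
      rw [hE.v_X hw, Fin.succAbove_zero]
    simp only [h2] at h1
    rw [Finset.sum_neg_distrib] at h1
    have hk := hw.hk 0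
    have hka : (k 0 : ℤ) * (a 0 : ℤ) = d := by
      rw [← hw.ka 0]; push_cast; ring
    rw [Nat.cast_sub (by omega)] at h1
    push_cast at h1
    have h10 : ((k 0 : ℤ) - 1) * -(a 0 : ℤ) = (a 0 : ℤ) - d := by rw [← hka]; ring
    rw [h10] at h1
    linarith

end Pool.Agent.FR
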