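import Pool.Agent.FR.XDefs
import Pool.Agent.FR.Dual
import Pool.Agent.FR.Kord

/-!
# The canonical order of the affine prime divisors (project FR, row X8)
-/

set_option autoImplicit false

namespace Pool.Agent.FR

open MvPolynomial
open scoped Classical

variable {s : ℕ} {k a : Fin (s + 3) → ℕ} {d : ℕ} {K : Type} [Field K] [Algebra ℂ K]

private theorem kp_X_mem (F : FD s k K) (j : Fin (s + 3)) : F.X j ∈ F.A :=
  ⟨MvPolynomial.X j, by simp⟩

private theorem kp_mem {F : FD s k K} {π : F.A} {D : DVal K} (hD : IsOrd F π D) (h : K)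
    (hh : h ∈ F.A) : h ∈ D.ring := by
  by_cases h0 : h = 0
  · exact Or.inl h0
  · exact Or.inr (hD.nonneg ⟨h, hh⟩ (fun hc => h0 (congrArg Subtype.val hc)))

/-- Some coordinate is a unit along `D`. -/
private theorem kp_exists_X (hw : Wt s k a d) {F : FD s k K} {π : F.A} {D : DVal K}
    (hD : IsOrd F π D) : ∃ j, D.v (F.X j) = 0 := by
  by_contra hne
  push Not at hne
  have h1 : ∀ j, 1 ≤ D.v (F.X j) := by
    intro j
    have h2 := (D.mem_ring'.1 (kp_mem hD _ (kp_X_mem F j)))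
    have h3 := hne j
    omega
  have h2 : ∑ j, F.X j ^ k j = 0 ∨ 1 ≤ D.v (∑ j, F.X j ^ k j) := by
    refine D.sum_ge _ _ _ fun j _ => Or.inr ?_
    rw [D.pow (F.X_ne hw j)]
    have h3 := hw.hk j
    have h4 : (1 : ℤ) ≤ (k j : ℤ) := by omega
    nlinarith [h1 j]
  have h3 : ∑ j, F.X j ^ k j = -1 := by
    have := F.rel
    linear_combination this
  rw [h3, D.negOne] at h2
  rcases h2 with h2 | h2
  · norm_num at h2
  · omega

/-- Division by the powers of `π`. -/
private theorem kp_factor {F : FD s k K} {π : F.A} {D : DVal K} (hD : IsOrd F π D) :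
    ∀ (n : ℕ) (q : F.A), q ≠ 0 → D.v (q : K) = n → ∃ q' : F.A, q = π ^ n * q' ∧
      q' ≠ 0 ∧ D.v (q' : K) = 0 := by
  intro n
  induction n with
  | zero =>
    intro q hq hv
    exact ⟨q, by simp, hq, by simpa using hv⟩
  | succ n ih =>
    intro q hq hv
    have h1 : π ∣ q := (hD.pos q hq).1 (by rw [hv]; push_cast; omega)
    obtain ⟨q1, rfl⟩ := h1
    have hπ0 : (π : K) ≠ 0 := by
      intro h
      have := hD.one
      rw [h, D.zero] at this
      omega
    have hq1 : q1 ≠ 0 := by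
      rintro rfl
      exact hq (mul_zero _)
    have hq1' : (q1 : K) ≠ 0 := fun h => hq1 (Subtype.ext h)
    have h2 : D.v (q1 : K) = n := by
      have h3 : D.v ((π * q1 : F.A) : K) = D.v (π : K) + D.v (q1 : K) := by
        rw [MulMemClass.coe_mul, D.mul _ _ hπ0 hq1']
      rw [hv, hD.one] at h3
      push_cast at h3
      omega
    obtain ⟨q', h4, h5, h6⟩ := ih q1 hq1 h2
    exact ⟨q', by rw [h4, pow_succ]; ring, h5, h6⟩

/-- Elements of the ring of `D` are fractions with denominator a unit along `D`. -/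
private theorem kp_frac {F : FD s k K} {π : F.A} {D : DVal K} (hD : IsOrd F π D) (u : K)
    (hu : u ∈ D.ring) : ∃ p ∈ F.A, ∃ q ∈ F.A, q ≠ 0 ∧ D.v q = 0 ∧ u = p / q := by
  by_cases hu0 : u = 0
  · exact ⟨0, F.A.zero_mem, 1, F.A.one_mem, one_ne_zero, D.one, by simp [hu0]⟩
  obtain ⟨P, Q, hQ, hx⟩ := F.frac u
  have hP : aeval F.X P ≠ 0 := by
    intro h
    rw [h, zero_div] at hx
    exact hu0 hx
  set p : F.A := ⟨aeval F.X P, P, rfl⟩ with hp
  set q : F.A := ⟨aeval F.X Q, Q, rfl⟩ with hq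
  have hp0 : p ≠ 0 := fun h => hP (congrArg Subtype.val h)
  have hq0 : q ≠ 0 := fun h => hQ (congrArg Subtype.val h)
  have hpK : (p : K) = aeval F.X P := rfl
  have hqK : (q : K) = aeval F.X Q := rfl
  obtain ⟨m, hm⟩ := Int.eq_ofNat_of_zero_le (hD.nonneg p hp0)
  obtain ⟨n, hn⟩ := Int.eq_ofNat_of_zero_le (hD.nonneg q hq0)
  obtain ⟨p', hp1, hp2, hp3⟩ := kp_factor hD m p hp0 hm
  obtain ⟨q', hq1, hq2, hq3⟩ := kp_factor hD n q hq0 hn
  have hv := D.mem_ring'.1 hu
  rw [hx, D.div' hP hQ, ← hpK, ← hqK, hm, hn] at hv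
  have hnm : n ≤ m := by omega
  have hπ0 : (π : K) ≠ 0 := by
    intro h
    have := hD.one
    rw [h, D.zero] at this
    omega
  have hq' : (q' : K) ≠ 0 := fun h => hq2 (Subtype.ext h)
  refine ⟨((π ^ (m - n) * p' : F.A) : K), (π ^ (m - n) * p' : F.A).2, q', q'.2, hq', hq3, ?_⟩
  have h1 : (p : K) = (π : K) ^ m * p' := by
    rw [hp1]; push_cast; rfl
  have h2 : (q : K) = (π : K) ^ n * q' := by
    rw [hq1]; push_cast; rfl
  rw [hx, ← hpK, ← hqK, h1, h2]
  have h3 : (π : K) ^ m = (π : K) ^ (m - n) * (π : K) ^ n := by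
    rw [← pow_add, Nat.sub_add_cancel hnm]
  rw [h3]
  push_cast
  field_simp

/-- The dual derivations preserve the ring of `D`. -/
private theorem kp_der (hw : Wt s k a d) {F : FD s k K} {π : F.A} {D : DVal K}
    (hD : IsOrd F π D) (j : Fin (s + 3)) (hj : D.v (F.X j) = 0)
    (dd : Fin (s + 2) → Derivation ℂ K K)
    (hdd : ∀ l m, dd l (F.X (j.succAbove m)) = if l = m then 1 else 0) (l : Fin (s + 2)) :
    ∀ u ∈ D.ring, dd l u ∈ D.ring := by
  have hXm : ∀ i, F.X i ∈ D.ring := fun i => kp_mem hD _ (kp_X_mem F i)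
  -- values at the variables
  have h1 : ∀ i, dd l (F.X i) ∈ D.ring := by
    intro i
    rcases Fin.eq_self_or_eq_succAbove j i with rfl | ⟨m, rfl⟩
    · have h2 := F.der_rel (dd l)
      rw [Fin.sum_univ_succAbove _ i] at h2
      simp only [hdd, mul_ite, mul_one, mul_zero] at h2
      rw [Finset.sum_ite_eq Finset.univ l] at h2
      simp only [Finset.mem_univ, if_true] at h2
      have h3 : dd l (F.X i) = -((k (i.succAbove l) : K) *
          F.X (i.succAbove l) ^ (k (i.succAbove l) - 1)) * ((k i : K) * F.X i ^ (k i - 1))⁻¹ := by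
        rw [eq_mul_inv_iff_mul_eq₀ (F.kX_ne hw i)]
        linear_combination h2
      rw [h3]
      have hk0 : (k i : ℕ) ≠ 0 := by have := hw.hk i; omega
      have hkK : ((k i : ℕ) : K) ≠ 0 := left_ne_zero_of_mul (F.kX_ne hw i)
      refine D.ring.mul_mem _ _ (D.ring.neg_mem _ (D.ring.mul_mem _ _ (natCast_mem _ _)
        (pow_mem (hXm _) _))) ?_
      rw [D.mem_ring', D.inv (F.kX_ne hw i), D.mul _ _ hkK (pow_ne_zero _ (F.X_ne hw i)),
        D.natCast hk0, D.pow (F.X_ne hw i), hj]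
      simp
    · rw [hdd]
      split_ifs
      · exact D.ring.one_mem
      · exact D.ring.zero_mem
  -- values on the coordinate ring
  have h2 : ∀ P : MvPolynomial (Fin (s + 3)) ℂ, dd l (aeval F.X P) ∈ D.ring := by
    intro P
    induction P using MvPolynomial.induction_on with
    | C c =>
      rw [← algebraMap_eq, AlgHom.commutes, (dd l).map_algebraMap]
      exact D.ring.zero_mem
    | add p q hp hq =>
      rw [map_add, map_add]
      exact D.ring.add_mem _ _ hp hq
    | mul_X p i hp =>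
      rw [map_mul, aeval_X, (dd l).leibniz, smul_eq_mul, smul_eq_mul]
      exact D.ring.add_mem _ _ (D.ring.mul_mem _ _ (kp_mem hD _ ⟨p, rfl⟩) (h1 i))
        (D.ring.mul_mem _ _ (hXm i) hp)
  intro u hu
  obtain ⟨p, ⟨P, hP⟩, q, ⟨Q, hQ⟩, hq0, hqv, rfl⟩ := kp_frac hD u hu
  have hp1 : dd l p ∈ D.ring := by rw [← hP]; exact h2 P
  have hq1 : dd l q ∈ D.ring := by rw [← hQ]; exact h2 Q
  have hpm : p ∈ D.ring := kp_mem hD _ ⟨P, hP⟩
  have hqm : q ∈ D.ring := kp_mem hD _ ⟨Q, hQ⟩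
  rw [(dd l).leibniz_div, smul_eq_mul, smul_eq_mul, smul_eq_mul]
  refine D.ring.mul_mem _ _ (pow_mem ?_ 2) (sub_mem (D.ring.mul_mem _ _ hqm hp1)
    (D.ring.mul_mem _ _ hpm hq1))
  rw [D.mem_ring', D.inv hq0, hqv]
  simp

theorem kord_ord (hw : Wt s k a d) {F : FD s k K}
    {B : Module.Basis (Fin (s + 2)) K (Derivation ℂ K K)} (hB : IsOmega F B) {E : DVal K}
    (hE : IsDeg F a E) {π : F.A} (hπ : Prime π) {D : DVal K} (hD : IsOrd F π D) :
    kord B D = 0 := by
  obtain ⟨j, hj⟩ := kp_exists_X hw hD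
  have hXj := F.X_ne hw j
  refine le_antisymm ?_ ?_
  · obtain ⟨dd, hdd⟩ := F.exists_dual hw j
    obtain ⟨c, hc, hjac⟩ := F.jac_dual hw hB j dd hdd
    obtain ⟨u, hu, hu0, huv⟩ := kord_eq B D
    have hdet : (Matrix.of fun l m => dd l (u m)).det ≠ 0 := by
      intro h
      apply hu0
      rw [hjac u, h, mul_zero]
    have h1 : 0 ≤ D.v (Matrix.of fun l m => dd l (u m)).det := by
      have h2 := (det_ge D (Matrix.of fun l m => dd l (u m)) (fun _ => 0) (fun l m => by
        rw [Matrix.of_apply]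
        exact kp_der hw hD j hj dd hdd l (u m) (hu m))).resolve_left hdet
      simpa using h2
    have hcK : algebraMap ℂ K c ≠ 0 := by rwa [Ne, map_eq_zero]
    have h3 : D.v (jac B u) = D.v (Matrix.of fun l m => dd l (u m)).det := by
      rw [hjac u, D.mul _ _ (mul_ne_zero hcK (pow_ne_zero _ hXj)) hdet,
        D.mul _ _ hcK (pow_ne_zero _ hXj), D.const c hc, D.pow hXj, hj]
      simp
    omega
  · obtain ⟨c, hc, hjac⟩ := hB j
    have hcK : algebraMap ℂ K c ≠ 0 := by rwa [Ne, map_eq_zero]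
    have h0 : jac B (fun i => F.X (j.succAbove i)) ≠ 0 := by
      rw [hjac]
      exact mul_ne_zero hcK (pow_ne_zero _ hXj)
    have h1 := kord_le B D (fun i => F.X (j.succAbove i))
      (fun i => kp_mem hD _ (kp_X_mem F _)) h0
    have h2 : D.v (jac B (fun i => F.X (j.succAbove i))) = 0 := by
      rw [hjac, D.mul _ _ hcK (pow_ne_zero _ hXj), D.const c hc, D.pow hXj, hj]
      simp
    omega

end Pool.Agent.FR
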