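import Pool.Agent.FR.XOrd

/-!
# Primitive families and elements without poles (project FR, X6 (b), helper47 for helper97)
-/

set_option autoImplicit false

namespace Pool.Agent.FR

open MvPolynomial
open scoped Classical

variable {s : ℕ} {k a : Fin (s + 3) → ℕ} {d : ℕ} {K : Type} [Field K] [Algebra ℂ K]

private theorem xprim_prime {R : Type} [CommRing R] [IsDomain R] [UniqueFactorizationMonoid R]
    {b : R} (hb : b ≠ 0) (hu : ¬ IsUnit b) : ∃ π : R, Prime π ∧ π ∣ b := by
  obtain ⟨π, hπ, hd⟩ := WfDvdMonoid.exists_irreducible_factor hu hb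
  exact ⟨π, UniqueFactorizationMonoid.irreducible_iff_prime.1 hπ, hd⟩

private theorem xprim_gcd {R : Type} [CommRing R] [IsDomain R] [UniqueFactorizationMonoid R]
    {N : ℕ} (f : Fin (N + 1) → R) (h0 : f 0 ≠ 0) :
    ∃ g : R, g ≠ 0 ∧ ∃ h : Fin (N + 1) → R, (∀ i, f i = g * h i) ∧
      ∀ π : R, Prime π → ∃ i, ¬ π ∣ h i := by
  let _ : StrongNormalizationMonoid R := UniqueFactorizationMonoid.strongNormalizationMonoid
  let _ : NormalizedGCDMonoid R := UniqueFactorizationMonoid.toNormalizedGCDMonoid R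
  obtain ⟨h, hh, hg⟩ := Finset.extract_gcd (s := Finset.univ) f ⟨0, Finset.mem_univ _⟩
  refine ⟨Finset.univ.gcd f, ?_, h, fun i => hh i (Finset.mem_univ i), ?_⟩
  · intro hz
    apply h0
    rw [hh 0 (Finset.mem_univ _), hz, zero_mul]
  · intro π hπ
    by_contra hcon
    push Not at hcon
    have h1 : π ∣ Finset.univ.gcd h := Finset.dvd_gcd fun i _ => hcon i
    rw [hg] at h1
    exact hπ.not_isUnit (isUnit_of_dvd_one h1)

/-- An element of the function field without poles along the prime divisors of the affine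
hypersurface belongs to the coordinate ring. -/
theorem mem_A_of_ord (F : FD s k K) (hU : UniqueFactorizationMonoid F.A) (x : K) (hx : x ≠ 0)
    (h : ∀ (π : F.A) (D : DVal K), Prime π → IsOrd F π D → 0 ≤ D.v x) : x ∈ F.A := by
  have := hU
  have := F.isFractionRing
  obtain ⟨p, q, hpq, hxpq⟩ := IsFractionRing.exists_reduced_fraction F.A (K := K) x
  have hq0 : (q : F.A) ≠ 0 := nonZeroDivisors.coe_ne_zero q
  have hqK : ((q : F.A) : K) ≠ 0 := fun h0 => hq0 (Subtype.ext h0)
  have hmul : x * ((q : F.A) : K) = (p : K) := by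
    have := IsLocalization.mk'_spec K p q
    rw [hxpq] at this
    exact this
  by_cases hu : IsUnit (q : F.A)
  · obtain ⟨r, hr⟩ := hu.exists_right_inv
    have h1 : x = ((p * r : F.A) : K) := by
      have h2 : ((q : F.A) : K) * (r : K) = 1 := by
        have := congrArg (Subtype.val) hr
        simpa using this
      calc x = x * (((q : F.A) : K) * (r : K)) := by rw [h2, mul_one]
        _ = (p : K) * (r : K) := by rw [← mul_assoc, hmul]
        _ = ((p * r : F.A) : K) := rfl
    rw [h1]
    exact (p * r).2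
  · exfalso
    obtain ⟨π, hπ, hd⟩ := xprim_prime hq0 hu
    obtain ⟨D, hD⟩ := exists_ord F hU π hπ
    have hnp : ¬ π ∣ p := fun hp => hπ.not_isUnit (hpq hp hd)
    have hp0 : (p : K) ≠ 0 := by
      rw [← hmul]
      exact mul_ne_zero hx hqK
    have h1 := D.mul x ((q : F.A) : K) hx hqK
    rw [hmul, hD.eq_zero p hnp] at h1
    have h2 := (hD.pos (q : F.A) hq0).2 hd
    have h3 := h π D hπ hD
    omega

/-- A finite family of elements, not all zero, becomes a family of elements of the coordinate ring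
without common prime factor after multiplication by some `u`. -/
theorem exists_primitive (F : FD s k K) (hU : UniqueFactorizationMonoid F.A) {N : ℕ}
    (t : Fin (N + 1) → K) (ht : ∀ i, t i ≠ 0) : ∃ u : K, u ≠ 0 ∧ ∃ h : Fin (N + 1) → F.A,
    (∀ i, (h i : K) = u * t i) ∧ ∀ π : F.A, Prime π → ∃ i, ¬ π ∣ h i := by
  have := hU
  choose p hp q hq hq0 hpq using fun i => F.frac_A (t i)
  set Q : K := ∏ i, q i with hQ
  have hQ0 : Q ≠ 0 := Finset.prod_ne_zero_iff.2 fun i _ => hq0 i
  have hmem : ∀ i, Q * t i ∈ F.A := by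
    intro i
    have h1 : Q * t i = p i * ∏ j ∈ Finset.univ.erase i, q j := by
      rw [hpq i, hQ, ← Finset.mul_prod_erase Finset.univ q (Finset.mem_univ i)]
      field_simp [hq0 i]
    rw [h1]
    exact F.A.mul_mem (hp i) (Subalgebra.prod_mem _ fun j _ => hq j)
  obtain ⟨g, hg0, h, hh, hπ⟩ := xprim_gcd (R := F.A) (fun i => ⟨Q * t i, hmem i⟩) (by
    intro h0
    have h1 : Q * t 0 = 0 := congrArg Subtype.val h0
    exact mul_ne_zero hQ0 (ht 0) h1)
  have hgK : (g : K) ≠ 0 := fun h0 => hg0 (Subtype.ext h0)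
  refine ⟨Q / g, div_ne_zero hQ0 hgK, h, ?_, hπ⟩
  intro i
  have h1 : Q * t i = (g : K) * (h i : K) := congrArg Subtype.val (hh i)
  rw [div_mul_eq_mul_div, h1]
  field_simp

end Pool.Agent.FR
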