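import Pool.Agent.FR.XRep
import Pool.Agent.FR.XPrim
import Pool.Agent.FR.XPrime2
import Pool.Agent.FR.Key

/-!
# Block X, row X19: mobile systems, KEY, the coordinate ring and its units
-/

set_option autoImplicit false

namespace Pool.Agent.FR

open MvPolynomial
open scoped Classical

variable {s : ℕ} {k a : Fin (s + 3) → ℕ} {d : ℕ} {K : Type} [Field K] [Algebra ℂ K]

theorem mem_A_iff {F : FD s k K} (hw : Wt s k a d) (hU : UniqueFactorizationMonoid F.A)
    {E : DVal K} (hE : IsDeg F a E) {X : Model (⊤ : IntermediateField ℂ K)}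
    (hX : IsCharts F E X) (h : K) (h0 : h ≠ 0) :
    (∀ D, IsPrimeDiv X D → D ≠ E → 0 ≤ D.v h) ↔ h ∈ F.A := by
  constructor
  · intro H
    refine mem_A_of_ord F hU h h0 fun π D hπ hD => ?_
    obtain ⟨h1, h2⟩ := isPrimeDiv_ord hw hE hX hπ hD
    exact H D h1 h2
  · intro hh D hD hDE
    obtain ⟨π, -, hπD⟩ := (prime_cases hw hU hE hX hD).resolve_left hDE
    exact hπD.nonneg ⟨h, hh⟩ fun h1 => h0 (congrArg Subtype.val h1)

theorem units_X {F : FD s k K} (hw : Wt s k a d) (hU : UniqueFactorizationMonoid F.A)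
    {E : DVal K} (hE : IsDeg F a E) {X : Model (⊤ : IntermediateField ℂ K)}
    (hX : IsCharts F E X) (f : K) (hf : f ≠ 0)
    (h : ∀ D, IsPrimeDiv X D → D ≠ E → D.v f = 0) : ∃ c : ℂ, f = algebraMap ℂ K c := by
  have h1 : f ∈ F.A := (mem_A_iff hw hU hE hX f hf).1 fun D hD hDE => (h D hD hDE).ge
  have h2 : f⁻¹ ∈ F.A := (mem_A_iff hw hU hE hX f⁻¹ (inv_ne_zero hf)).1 fun D hD hDE => by
    rw [D.inv hf, h D hD hDE, neg_zero]
  have h3 := hE.nonpos hw f h1
  have h4 := hE.nonpos hw f⁻¹ h2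
  rw [E.inv hf] at h4
  exact hE.const hw f h1 (by omega)

theorem key_X {F : FD 7 kk K} (hU : UniqueFactorizationMonoid F.A)
    (B : Module.Basis (Fin 9) K (Derivation ℂ K K)) (hB : IsOmega F B) {E : DVal K}
    (hE : IsDeg F aa E) {X : Model (⊤ : IntermediateField ℂ K)} (hX : IsCharts F E X)
    (D : DVal K) (hD : ¬ IsPrimeDiv X D) (h : K) (h0 : h ≠ 0)
    (hh : ∀ D', IsPrimeDiv X D' → D' ≠ E → 0 ≤ D'.v h) :
    (11 : ℤ) * D.v h ≤ (- E.v h) * kord B D := by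
  have hA : h ∈ F.A := (mem_A_iff wt hU hE hX h h0).1 hh
  by_cases hj : ∃ j, D.v (F.X j) < 0
  · exact key_boundary F B hB E hE D hj h hA h0
  · push Not at hj
    rcases key_inside F B hB E hE D hj with ⟨-, h1⟩ | ⟨-, π, hπ, h1⟩
    · exact h1 h hA h0
    · exact absurd (isPrimeDiv_ord wt hE hX hπ (isOrd_of_pos hU hπ hj h1)).1 hD

theorem mobile_X {F : FD 7 kk K} (hU : UniqueFactorizationMonoid F.A)
    (B : Module.Basis (Fin 9) K (Derivation ℂ K K)) (hB : IsOmega F B) {E : DVal K}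
    (hE : IsDeg F aa E) {X : Model (⊤ : IntermediateField ℂ K)} (hX : IsCharts F E X) {N : ℕ}
    (t : Fin (N + 1) → K) (ht : ∀ i, t i ≠ 0)
    (hne : ∃ i j, ∀ c : ℂ, t i ≠ algebraMap ℂ K c * t j) :
    ∃ (u : K) (m : ℕ), u ≠ 0 ∧ 0 < m ∧
      (∀ D, ∃ i, (11 : ℤ) * D.v (u * t i) ≤ m * kord B D) ∧
      (∀ D, IsPrimeDiv X D → D ≠ E → (∀ i, 0 ≤ D.v (u * t i)) ∧ ∃ i, D.v (u * t i) = 0) ∧
      (∀ i, -(m : ℤ) ≤ E.v (u * t i)) ∧ ∃ i, E.v (u * t i) = -(m : ℤ) := by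
  obtain ⟨u, hu, h, hh, hprim⟩ := exists_primitive F hU t ht
  have hA : ∀ i, u * t i ∈ F.A := fun i => by
    rw [← hh i]
    exact (h i).2
  have hne0 : ∀ i, u * t i ≠ 0 := fun i => mul_ne_zero hu (ht i)
  have heq : ∀ i, (⟨u * t i, hA i⟩ : F.A) = h i := fun i => Subtype.ext (hh i).symm
  have hnp : ∀ i, E.v (u * t i) ≤ 0 := fun i => hE.nonpos wt _ (hA i)
  obtain ⟨i₀, -, hi₀⟩ := Finset.exists_max_image Finset.univ
    (fun i => -E.v (u * t i)) ⟨0, Finset.mem_univ (0 : Fin (N + 1))⟩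
  obtain ⟨m, hm⟩ := Int.eq_ofNat_of_zero_le (show 0 ≤ -E.v (u * t i₀) by
    have := hnp i₀
    omega)
  have hm1 : ∀ i, -(m : ℤ) ≤ E.v (u * t i) := fun i => by
    have h1 := hi₀ i (Finset.mem_univ i)
    omega
  have hm2 : E.v (u * t i₀) = -(m : ℤ) := by omega
  have hmpos : 0 < m := by
    rcases Nat.eq_zero_or_pos m with h0 | h0
    · exfalso
      have hc : ∀ i, ∃ c : ℂ, u * t i = algebraMap ℂ K c := fun i => by
        refine hE.const wt _ (hA i) ?_
        have h1 := hm1 i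
        have h2 := hnp i
        rw [h0] at h1
        push_cast at h1
        omega
      choose c hc using hc
      obtain ⟨i, j, hij⟩ := hne
      have hcj : algebraMap ℂ K (c j) ≠ 0 := by
        rw [← hc j]
        exact hne0 j
      apply hij (c i / c j)
      rw [map_div₀, ← hc i, ← hc j]
      have := ht j
      field_simp
    · exact h0
  refine ⟨u, m, hu, hmpos, ?_, ?_, hm1, i₀, hm2⟩
  · intro D
    refine key_family F B hB E hE D (fun i => u * t i) hne0 hA ?_ m hm1 ⟨i₀, hm2⟩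
    intro π hπ
    obtain ⟨i, hi⟩ := hprim π hπ
    exact ⟨i, by rwa [heq i]⟩
  · intro D hD hDE
    obtain ⟨π, hπ, hπD⟩ := (prime_cases wt hU hE hX hD).resolve_left hDE
    refine ⟨fun i => ?_, ?_⟩
    · exact hπD.nonneg ⟨u * t i, hA i⟩ fun h1 => hne0 i (congrArg Subtype.val h1)
    · obtain ⟨i, hi⟩ := hprim π hπ
      refine ⟨i, ?_⟩
      have h1 := hπD.eq_zero (h i) hi
      rwa [hh i] at h1

end Pool.Agent.FR
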