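import Pool.Agent.FR.XBasic

/-!
Project FR (MP_c0959a_ag), row X12: normality of the charts (helper88).
-/

set_option autoImplicit false
set_option linter.unusedVariables false

namespace Pool.Agent.FR

open MvPolynomial
open scoped Classical

variable {s : ℕ} {k a : Fin (s + 3) → ℕ} {d : ℕ} {K : Type} [Field K] [Algebra ℂ K]

/-- a root of a monic polynomial, multiplied by a common denominator of the coefficients -/
private theorem xn_integral (R : Subalgebra ℂ K) (p : Polynomial K) (hp : p.Monic) (q : K)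
    (hq : q ∈ R) (hc : ∀ i, i < p.natDegree → p.coeff i * q ∈ R) (x : K) (hx : p.eval x = 0) :
    IsIntegral R (q * x) := by
  have hl : p.scaleRoots q ∈ Polynomial.lifts (algebraMap R K) := by
    rw [Polynomial.lifts_iff_coeff_lifts]
    intro i
    rw [Polynomial.coeff_scaleRoots]
    rcases lt_trichotomy i p.natDegree with h | h | h
    · obtain ⟨m, hm⟩ : ∃ m, p.natDegree - i = m + 1 := ⟨p.natDegree - i - 1, by omega⟩
      rw [hm, pow_succ', ← mul_assoc]
      exact ⟨⟨_, R.mul_mem (hc i h) (R.pow_mem hq m)⟩, rfl⟩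
    · rw [h, Nat.sub_self, pow_zero, mul_one, hp.coeff_natDegree]
      exact ⟨1, map_one _⟩
    · rw [Polynomial.coeff_eq_zero_of_natDegree_lt h, zero_mul]
      exact ⟨0, map_zero _⟩
  obtain ⟨f, hf1, -, hf3⟩ := Polynomial.lifts_and_natDegree_eq_and_monic hl
    ((Polynomial.monic_scaleRoots_iff q).2 hp)
  refine ⟨f, hf3, ?_⟩
  rw [← Polynomial.eval_map, hf1]
  have h := Polynomial.scaleRoots_eval₂_mul (p := p) (f := RingHom.id K) (r := x) (s := q)
  simp only [Polynomial.eval₂_id, RingHom.id_apply] at h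
  rw [h, hx, mul_zero]

theorem loc_normal (R : Subalgebra ℂ K) (V : ValuationSubring K) (hV : ∀ x ∈ R, x ∈ V)
    (hR : ∀ x : K, IsIntegral R x → x ∈ R) (x : K) (p : Polynomial K) (hp : p.Monic)
    (hc : ∀ i, p.coeff i ∈ loc R V) (hx : p.eval x = 0) : x ∈ loc R V := by
  have key : ∀ n : ℕ, ∃ q ∈ R, q ≠ 0 ∧ q⁻¹ ∈ V ∧ ∀ i, i < n → p.coeff i * q ∈ R := by
    intro n
    induction n with
    | zero => exact ⟨1, R.one_mem, one_ne_zero, by rw [inv_one]; exact V.one_mem,
        fun i hi => absurd hi (Nat.not_lt_zero i)⟩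
    | succ n ih =>
      obtain ⟨q, hq, hq0, hqV, hqc⟩ := ih
      obtain ⟨u, hu, w, hw, hw0, hwV, huw⟩ := hc n
      refine ⟨q * w, R.mul_mem hq hw, mul_ne_zero hq0 hw0, ?_, fun i hi => ?_⟩
      · rw [mul_inv]; exact V.mul_mem _ _ hqV hwV
      · rcases Nat.lt_succ_iff_lt_or_eq.1 hi with h | rfl
        · rw [← mul_assoc]; exact R.mul_mem (hqc i h) hw
        · rw [huw]
          have : u / w * (q * w) = u * q := by field_simp
          rw [this]; exact R.mul_mem hu hq
  obtain ⟨q, hq, hq0, hqV, hqc⟩ := key p.natDegree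
  refine ⟨q * x, hR _ (xn_integral R p hp q hq hqc x hx), q, hq, hq0, hqV, ?_⟩
  field_simp

theorem A_normal (F : FD s k K) (hU : UniqueFactorizationMonoid F.A) (x : K)
    (hx : IsIntegral F.A x) : x ∈ F.A := by
  have := F.isFractionRing
  obtain ⟨y, hy⟩ := (IsIntegrallyClosed.isIntegral_iff (R := F.A) (K := K)).1 hx
  rw [← hy]
  exact y.2

theorem infRing_normal (hw : Wt s k a d) (F : FD s k K) (hU : UniqueFactorizationMonoid F.A)
    {E : DVal K} (hE : IsDeg F a E) (j : Fin (s + 3)) (x : K)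
    (hx : IsIntegral (F.infRing E j) x) : x ∈ F.infRing E j := by
  have hx' := hx
  obtain ⟨f, hf, hfx⟩ := hx
  set p : Polynomial K := f.map (algebraMap (F.infRing E j) K) with hpdef
  have hp : p.Monic := hf.map _
  have hpx : p.eval x = 0 := by rw [hpdef, Polynomial.eval_map]; exact hfx
  have hpc : ∀ i, p.coeff i ∈ F.infRing E j := fun i => by
    rw [hpdef, Polynomial.coeff_map]; exact (f.coeff i).2
  -- the order along `E` is nonnegative
  have h1 : x ∈ E.ring := by
    have hl : p ∈ Polynomial.lifts (algebraMap E.ring K) := by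
      rw [Polynomial.lifts_iff_coeff_lifts]
      intro i
      exact ⟨⟨p.coeff i, E.mem_ring'.2 (hpc i).1⟩, rfl⟩
    obtain ⟨g, hg1, -, hg3⟩ := Polynomial.lifts_and_natDegree_eq_and_monic hl hp
    have hint : IsIntegral E.ring x := ⟨g, hg3, by rw [← Polynomial.eval_map, hg1]; exact hpx⟩
    obtain ⟨y, hy⟩ := (IsIntegrallyClosed.isIntegral_iff (R := E.ring) (K := K)).1 hint
    rw [← hy]
    exact y.2
  -- common denominator
  have hXA : F.X j ∈ F.A := F.X_mem j
  have key : ∀ n : ℕ, ∃ m : ℕ, ∀ i, i < n → p.coeff i * F.X j ^ m ∈ F.A := by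
    intro n
    induction n with
    | zero => exact ⟨0, fun i hi => absurd hi (Nat.not_lt_zero i)⟩
    | succ n ih =>
      obtain ⟨m, hm⟩ := ih
      obtain ⟨-, m', hm'⟩ := hpc n
      refine ⟨m + m', fun i hi => ?_⟩
      rcases Nat.lt_succ_iff_lt_or_eq.1 hi with h | rfl
      · rw [pow_add, ← mul_assoc]
        exact F.A.mul_mem (hm i h) (F.A.pow_mem hXA m')
      · rw [add_comm, pow_add, ← mul_assoc]
        exact F.A.mul_mem hm' (F.A.pow_mem hXA m)
  obtain ⟨m, hm⟩ := key p.natDegree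
  refine ⟨E.mem_ring'.1 h1, m, ?_⟩
  rw [mul_comm]
  exact A_normal F hU _ (xn_integral F.A p hp _ (F.A.pow_mem hXA m) hm x hpx)

end Pool.Agent.FR
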