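import Pool.Agent.FR.XChart
import Pool.Agent.FR.XInf
import Pool.Agent.FR.XNormal
import Pool.Agent.FR.Loc

/-!
# Block X: the weighted projective hypersurface as a `Model`
-/

set_option autoImplicit false

namespace Pool.Agent.FR

open MvPolynomial
open scoped Classical

variable {s : ℕ} {k a : Fin (s + 3) → ℕ} {d : ℕ} {K : Type} [Field K] [Algebra ℂ K]

theorem locRing_eq_loc {N : ℕ} (g : Fin (N + 1) → K) (hg : ∀ i, g i ≠ 0)
    (V : ValuationSubring K) (hV : IsPlace V) (i : Fin (N + 1)) (hi : ∀ j, g j / g i ∈ V) :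
    locRing g V = loc (chart g i) V :=
  locRing_eq g hg V hV i hi

theorem IsMon.ne {F : FD s k K} (hw : Wt s k a d) {W N : ℕ} {g : Fin (N + 1) → K}
    (hg : IsMon F a W g) (i : Fin (N + 1)) : g i ≠ 0 := by
  have h : g i ∈ Set.range g := ⟨i, rfl⟩
  rw [hg] at h
  obtain ⟨e, -, he⟩ := h
  rw [he]
  exact Finset.prod_ne_zero_iff.2 fun j _ => pow_ne_zero _ (F.X_ne hw j)

/-- The index of the monomial `1`. -/
theorem IsMon.exists_one {F : FD s k K} {W N : ℕ} {g : Fin (N + 1) → K}
    (hg : IsMon F a W g) : ∃ i, g i = 1 := by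
  have h : (1 : K) ∈ Set.range g := by
    rw [hg]
    exact ⟨fun _ => 0, by simp, by simp⟩
  exact h

/-- The index of the monomial `X j ^ (k j * T)`. -/
theorem IsMon.exists_pow {F : FD s k K} (hw : Wt s k a d) {T N : ℕ} {g : Fin (N + 1) → K}
    (hg : IsMon F a (d * T) g) (j : Fin (s + 3)) : ∃ i, g i = F.X j ^ (k j * T) := by
  have h : F.X j ^ (k j * T) ∈ Set.range g := by
    rw [hg]
    refine ⟨fun i => if i = j then k j * T else 0, ?_, ?_⟩
    · rw [Finset.sum_eq_single j]
      · show (if j = j then k j * T else 0) * a j ≤ d * T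
        rw [if_pos rfl, ← hw.ka j]
        exact le_of_eq (by ring)
      · intro i _ hi
        show (if i = j then k j * T else 0) * a i = 0
        rw [if_neg hi, zero_mul]
      · intro h
        exact absurd (Finset.mem_univ j) h
    · rw [Finset.prod_eq_single j]
      · show F.X j ^ (k j * T) = F.X j ^ (if j = j then k j * T else 0)
        rw [if_pos rfl]
      · intro i _ hi
        show F.X i ^ (if i = j then k j * T else 0) = 1
        rw [if_neg hi, pow_zero]
      · intro h
        exact absurd (Finset.mem_univ j) h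
  exact h

/-- The local rings at the finite places. -/
theorem locRing_inside (hw : Wt s k a d) (F : FD s k K) {T N : ℕ} {g : Fin (N + 1) → K}
    (hg : IsMon F a (d * T) g) (hT : 1 ≤ T) (V : ValuationSubring K) (hV : IsPlace V)
    (h : ∀ j, F.X j ∈ V) : locRing g V = loc F.A V := by
  obtain ⟨i, hi⟩ := hg.exists_one
  have hW : ∀ j, a j ≤ d * T := fun j => by
    calc a j ≤ k j * a j := Nat.le_mul_of_pos_left _ (hw.k_pos j)
      _ = d := hw.ka j
      _ ≤ d * T := Nat.le_mul_of_pos_right _ hT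
  rw [locRing_eq_loc g (hg.ne hw) V hV i, adjoin_inside hw F hg hW i hi]
  intro j
  rw [hi, div_one]
  exact inside_chart hw F hg V hV h j

/-- The local rings at the places at infinity. -/
theorem locRing_inf (hw : Wt s k a d) (F : FD s k K) {E : DVal K} (hE : IsDeg F a E) {T N : ℕ}
    {g : Fin (N + 1) → K} (hg : IsMon F a (d * T) g) (hT : s + 3 ≤ T)
    (V : ValuationSubring K) (hV : IsPlace V) (j : Fin (s + 3)) (h : AtInf F V j) :
    locRing g V = loc (F.infRing E j) V := by
  obtain ⟨i, hi⟩ := hg.exists_pow hw j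
  have h1 : chart g i = F.infRing E j := by
    rw [← adjoin_inf hw F hE hg hT j]
    show Algebra.adjoin ℂ (Set.range fun j => g j / g i) = _
    rw [hi]
  rw [locRing_eq_loc g (hg.ne hw) V hV i, h1]
  intro l
  rw [hi]
  exact inf_chart hw F hg V hV j h l

theorem A_le_of_inside (F : FD s k K) (V : ValuationSubring K) (hV : IsPlace V)
    (h : ∀ j, F.X j ∈ V) : ∀ x ∈ F.A, x ∈ V := by
  intro x hx
  rw [F.A_eq_adjoin] at hx
  induction hx using Algebra.adjoin_induction with
  | mem x hx =>
    obtain ⟨j, rfl⟩ := hx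
    exact h j
  | algebraMap c => exact hV c
  | add x y _ _ ihx ihy => exact V.add_mem _ _ ihx ihy
  | mul x y _ _ ihx ihy => exact V.mul_mem _ _ ihx ihy

theorem infRing_le (hw : Wt s k a d) (F : FD s k K) {E : DVal K} (hE : IsDeg F a E)
    (V : ValuationSubring K) (hV : IsPlace V) (j : Fin (s + 3)) (h : AtInf F V j) :
    ∀ x ∈ F.infRing E j, x ∈ V := by
  obtain ⟨N, g, hg, -⟩ := exists_mon F hw.a_pos (d * (s + 3))
  rw [← adjoin_inf hw F hE hg le_rfl j]
  intro x hx
  induction hx using Algebra.adjoin_induction with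
  | mem x hx =>
    obtain ⟨l, rfl⟩ := hx
    exact inf_chart hw F hg V hV j h l
  | algebraMap c => exact hV c
  | add x y _ _ ihx ihy => exact V.add_mem _ _ ihx ihy
  | mul x y _ _ ihx ihy => exact V.mul_mem _ _ ihx ihy

theorem exists_X (hw : Wt s k a d) (F : FD s k K) (hU : UniqueFactorizationMonoid F.A)
    {E : DVal K} (hE : IsDeg F a E) (T : ℕ) (hT : s + 3 ≤ T) :
    ∃ X : Model (⊤ : IntermediateField ℂ K), IsMon F a (d * T) X.g ∧ IsCharts F E X := by
  obtain ⟨N, g, hg, hg0⟩ := exists_mon F hw.a_pos (d * T)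
  have hT1 : 1 ≤ T := by omega
  have hin := locRing_inside hw F hg hT1
  have hinf := locRing_inf hw F hE hg hT
  have h0 : chart g 0 = F.A := adjoin_inside hw F hg (fun j => by
    calc a j ≤ k j * a j := Nat.le_mul_of_pos_left _ (hw.k_pos j)
      _ = d := hw.ka j
      _ ≤ d * T := Nat.le_mul_of_pos_right _ hT1) 0 hg0
  refine ⟨⟨N, g, hg.ne hw, fun i => trivial, ?_, ?_⟩, hg, ⟨hin, fun V j hV h => hinf V hV j h⟩⟩
  · intro x _
    show ∃ a ∈ chart g 0, ∃ b ∈ chart g 0, b ≠ 0 ∧ x = a / b
    rw [h0]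
    exact F.frac_A x
  · intro V hV x _ hx
    obtain ⟨p, hp, hc, hx⟩ := hx
    rcases inside_or hw F V with h | ⟨j, h⟩
    · rw [hin V hV h] at hc ⊢
      exact loc_normal F.A V (A_le_of_inside F V hV h) (A_normal F hU) x p hp hc hx
    · rw [hinf V hV j h] at hc ⊢
      exact loc_normal (F.infRing E j) V (infRing_le hw F hE V hV j h)
        (infRing_normal hw F hU hE j) x p hp hc hx

end Pool.Agent.FR
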