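import Pool.Agent.FR.XBasic
import Pool.Agent.FR.XOrd
import Pool.Agent.FR.XPrime
import Pool.Agent.FR.XThrough
import Pool.Agent.FR.Unique
import Pool.Agent.FR.Key

/-!
# Block X, row X18: terminality of the hypersurface
-/

set_option autoImplicit false

namespace Pool.Agent.FR

open MvPolynomial
open scoped Classical

variable {K : Type} [Field K] [Algebra ℂ K]

theorem isTerminal_X {F : FD 7 kk K} (hU : UniqueFactorizationMonoid F.A)
    (B : Module.Basis (Fin 9) K (Derivation ℂ K K)) (hB : IsOmega F B) {E : DVal K}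
    (hE : IsDeg F aa E) {X : Model (⊤ : IntermediateField ℂ K)} (hX : IsCharts F E X)
    (hBE : kord B E = -(11 : ℤ)) (hB0 : ∀ D, IsPrimeDiv X D → D ≠ E → kord B D = 0) :
    IsTerminal B X := by
  have hone : ∀ D : DVal K, IsPrimeDiv X D → D ≠ E → D.v (1 : K) = kord B D := fun D h1 h2 => by
    rw [hB0 D h1 h2, D.one]
  refine ⟨qCartier_of wt hU hE hX (kord B) 1 one_ne_zero hone, ?_⟩
  intro D a' hD ha'
  have hDE : D ≠ E := by
    rintro rfl
    exact hD (isPrimeDiv_E wt hE hX)
  rcases inside_or wt F D.ring with hin | ⟨j, hj⟩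
  · -- the centre of `D` lies in the affine hypersurface
    have hloc := isLocEq_inside wt hU hE hX (kord B) 1 one_ne_zero hone D.ring D.isPlace hin
    have heq := isLogDisc_unique B X D a' _ ha' ⟨1, 1, hloc, rfl⟩
    rw [heq, D.one]
    have h0 : ∀ j, 0 ≤ D.v (F.X j) := fun j => D.mem_ring'.1 (hin j)
    rcases key_inside F B hB E hE D h0 with ⟨h1, -⟩ | ⟨-, π, hπ, h1⟩
    · have h2 : (1 : ℝ) ≤ (kord B D : ℝ) := by exact_mod_cast h1
      push_cast
      linarith
    · exact absurd (isPrimeDiv_ord wt hE hX hπ (isOrd_of_pos hU hπ h0 h1)).1 hD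
  · -- the centre of `D` is at infinity
    have hloc := isLocEq_inf wt hU hE hX (kord B) 1 one_ne_zero hone D.ring D.isPlace j hj
    have heq := isLogDisc_unique B X D a' _ ha' ⟨_, _, hloc, rfl⟩
    rw [heq]
    have hXj : F.X j ≠ 0 := F.X_ne wt j
    have hv : D.v ((1 : K) ^ 60060 * F.X j ^ ((kk j : ℤ) * (E.v (1 : K) - kord B E))) =
        11 * kk j * D.v (F.X j) := by
      rw [one_pow, one_mul, D.zpow hXj, hBE, E.one]
      ring
    rw [hv]
    obtain ⟨b, ⟨hb0, n, hn⟩, hbD, hbE⟩ := exists_vanish wt hE hX hj hDE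
    have hbne : b ≠ 0 := D.ne_zero_of_v hbD.ne'
    have hkpos : 0 < kk j := wt.k_pos j
    obtain ⟨r, hr⟩ : ∃ r : ℕ, r = n + 1 := ⟨_, rfl⟩
    have hle : n ≤ kk j * r := by
      rw [hr]
      nlinarith
    have hh : b * F.X j ^ (kk j * r) ∈ F.A := by
      obtain ⟨e, he⟩ := Nat.exists_eq_add_of_le hle
      rw [he, pow_add, ← mul_assoc]
      exact F.A.mul_mem hn (F.A.pow_mem (F.X_mem j) e)
    have hne : b * F.X j ^ (kk j * r) ≠ 0 := mul_ne_zero hbne (pow_ne_zero _ hXj)
    have hneg : D.v (F.X j) < 0 := by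
      by_contra hcon
      exact hj.1 (D.mem_ring'.2 (not_lt.1 hcon))
    have hkey := key_boundary F B hB E hE D ⟨j, hneg⟩ _ hh hne
    rw [D.mul _ _ hbne (pow_ne_zero _ hXj), E.mul _ _ hbne (pow_ne_zero _ hXj), D.pow hXj,
      E.pow hXj, hbE, hE.v_X wt j] at hkey
    have hka : (kk j : ℤ) * aa j = 60060 := by exact_mod_cast kk_aa j
    have hkey2 : 11 * (D.v b + (kk j : ℤ) * r * D.v (F.X j)) ≤ 60060 * r * kord B D := by
      have h3 : -(0 + ((kk j * r : ℕ) : ℤ) * -(aa j : ℤ)) * kord B D =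
          ((kk j : ℤ) * aa j) * r * kord B D := by
        push_cast
        ring
      rw [h3, hka] at hkey
      push_cast at hkey
      exact hkey
    have hkey3 : (11 : ℝ) * (D.v b + (kk j : ℝ) * r * D.v (F.X j)) ≤
        60060 * r * kord B D := by exact_mod_cast hkey2
    have hrpos : (0 : ℝ) < r := by
      rw [hr]
      positivity
    have hbpos : (0 : ℝ) < D.v b := by exact_mod_cast hbD
    push_cast
    have h5 : (11 : ℝ) * kk j * D.v (F.X j) / 60060 < kord B D := by
      rw [div_lt_iff₀ (by norm_num)]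
      have h6 : (r : ℝ) * (11 * kk j * D.v (F.X j)) < r * (kord B D * 60060) := by
        nlinarith
      exact lt_of_mul_lt_mul_left h6 hrpos.le
    linarith

end Pool.Agent.FR
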