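import Pool.Agent.FR.Ufd
import Pool.Agent.FR.XModel
import Pool.Agent.FR.XKordP
import Pool.Agent.FR.XKordE
import Pool.Agent.FR.XFact
import Pool.Agent.FR.XAmple
import Pool.Agent.FR.XTerm
import Pool.Agent.FR.XMobile

/-!
# Block X: the hypersurface has all the properties used by the Noether-Fano argument
-/

set_option autoImplicit false

namespace Pool.Agent.FR

open MvPolynomial
open scoped Classical

variable {K : Type} [Field K] [Algebra ℂ K]

theorem sum_aa : (∑ j, (aa j : ℤ)) = 60070 := by decide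

/-- The weighted projective hypersurface, with its charts and with all the properties that the
Noether-Fano argument uses. -/
theorem exists_super' (F : FD 7 kk K) (B : Module.Basis (Fin 9) K (Derivation ℂ K K))
    (hB : IsOmega F B) (E : DVal K) (hE : IsDeg F aa E) :
    ∃ X : Model (⊤ : IntermediateField ℂ K), IsMon F aa (60060 * 11) X.g ∧ IsCharts F E X ∧
      IsSuper B X E 11 ∧
      ∀ h : K, h ≠ 0 → ((∀ D, IsPrimeDiv X D → D ≠ E → 0 ≤ D.v h) ↔ h ∈ F.A) := by
  have hU := F.ufd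
  obtain ⟨X, hg, hX⟩ := exists_X wt F hU hE 11 (by norm_num)
  have hBE : kord B E = -((11 : ℕ) : ℤ) := by
    rw [kord_E wt hB hE, sum_aa]
    norm_num
  have hB0 : ∀ D, IsPrimeDiv X D → D ≠ E → kord B D = 0 := by
    intro D hD hDE
    obtain ⟨π, hπ, hπD⟩ := (prime_cases wt hU hE hX hD).resolve_left hDE
    exact kord_ord wt hB hE hπ hπD
  refine ⟨X, hg, hX, ⟨by norm_num, isPrimeDiv_E wt hE hX, hBE, hB0, ?_, ?_, ?_, ?_, ?_⟩, ?_⟩
  · intro N t ht hne
    exact mobile_X hU B hB hE hX t ht hne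
  · intro D hD h h0 hh
    exact key_X hU B hB hE hX D hD h h0 hh
  · intro f hf h
    exact units_X wt hU hE hX f hf h
  · exact ⟨qFactorial_X wt hU hE hX, isTerminal_X hU B hB hE hX hBE hB0,
      isAmple_X wt hU hE hX B 11 (by norm_num) hBE hB0 hg⟩
  · exact picardOne_X wt hU hE hX B 11 (by norm_num) hBE hB0
  · intro h h0
    exact mem_A_iff wt hU hE hX h h0

theorem exists_super (F : FD 7 kk K) (B : Module.Basis (Fin 9) K (Derivation ℂ K K))
    (hB : IsOmega F B) (E : DVal K) (hE : IsDeg F aa E) :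
    ∃ X : Model (⊤ : IntermediateField ℂ K), IsSuper B X E 11 ∧
      ∀ h : K, h ≠ 0 → ((∀ D, IsPrimeDiv X D → D ≠ E → 0 ≤ D.v h) ↔ h ∈ F.A) := by
  obtain ⟨X, -, -, h1, h2⟩ := exists_super' F B hB E hE
  exact ⟨X, h1, h2⟩

end Pool.Agent.FR
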