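import Pool.Agent.FR.NF
import Pool.Agent.FR.XSuper
import Pool.Agent.FR.XDeg
import Pool.Agent.FR.GpPrime
import Pool.Agent.FR.BetaE
import Pool.Agent.FR.Basis

/-! # The theorem: a birationally superrigid, K-unstable Fano variety -/

set_option autoImplicit false

namespace Pool.Agent.FR

/-- The engine form, over a given function field. -/
theorem main_F {K : Type} [Field K] [Algebra ℂ K] (F : FD 7 kk K) :
    ∃ (B : Module.Basis (Fin 9) K (Derivation ℂ K K)) (E : DVal K)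
      (X : Model (⊤ : IntermediateField ℂ K)),
    IsOmega F B ∧ IsDeg F aa E ∧ IsMon F aa (60060 * 11) X.g ∧ IsCharts F E X ∧
    IsSuper B X E 11 ∧ IsBirRigid B X ∧
    (∀ (Y : Model (⊤ : IntermediateField ℂ K)) (L : IntermediateField ℂ K) (S : Model L),
      IsMoriFibreSpace B Y L S →
        L = ⊥ ∧ ∀ V : ValuationSubring K, IsPlace V → locRing Y.g V = locRing X.g V) ∧
    IsPrimeDiv X E ∧ IsLogDisc B X E 1 ∧ beta B X E 1 = -1 / 10 ∧ ¬ IsKStable B X := by
  obtain ⟨B, hB⟩ := exists_omega wt F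
  obtain ⟨E, hE⟩ := exists_deg wt F
  obtain ⟨X, hm, hc, hX, hr⟩ := exists_super' F B hB E hE
  obtain ⟨h3, h4⟩ := not_kstable F B E hE X hX hr
  refine ⟨B, E, X, hB, hE, hm, hc, hX, noether_fano B X E 11 hX, nf_super B X E 11 hX,
    hX.primeE, h3, h4, fun h => ?_⟩
  have h5 := h E 1 h3
  rw [h4] at h5
  norm_num at h5

/-- The theorem, for all bases of the derivations. -/
theorem main : ∃ (K : Type) (_ : Field K) (_ : Algebra ℂ K)
    (X : Model (⊤ : IntermediateField ℂ K)) (E : DVal K),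
    Nonempty (Module.Basis (Fin 9) K (Derivation ℂ K K)) ∧
    ∀ (n : ℕ) (B : Module.Basis (Fin n) K (Derivation ℂ K K)),
      IsBirRigid B X ∧
      (∀ (Y : Model (⊤ : IntermediateField ℂ K)) (L : IntermediateField ℂ K) (S : Model L),
        IsMoriFibreSpace B Y L S →
          L = ⊥ ∧ ∀ V : ValuationSubring K, IsPlace V → locRing Y.g V = locRing X.g V) ∧
      IsPrimeDiv X E ∧ IsLogDisc B X E 1 ∧ beta B X E 1 = -1 / 10 ∧ ¬ IsKStable B X := by
  obtain ⟨K, h1, h2, ⟨F⟩⟩ := exists_FD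
  obtain ⟨B, E, X, -, -, -, -, -, h3, h4, h5, h6, h7, h8⟩ := main_F F
  refine ⟨K, h1, h2, X, E, ⟨B⟩, fun n B' => ?_⟩
  obtain rfl := basis_card B B'
  exact ⟨isBirRigid_basis B B' X h3,
    fun Y L S hY => h4 Y L S (isMoriFibreSpace_basis B' B Y L S hY), h5,
    isLogDisc_basis B B' X E 1 h6, (beta_basis B B' X E 1).symm.trans h7,
    fun h => h8 (isKStable_basis B' B X h)⟩

end Pool.Agent.FR
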