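import Pool.Agent.FR.Pole

/-!
# Places and functions without poles
-/

set_option autoImplicit false

namespace Pool.Agent.FR

open scoped Classical

variable {K : Type} [Field K] [Algebra ℂ K]

theorem exists_place (L : IntermediateField ℂ K) (hL : ∀ x : K, IsAlgebraic L x → x ∈ L) (x : K)
    (hx : x ∉ L) : ∃ V : ValuationSubring K, IsPlace V ∧ (∀ y ∈ L, y ∈ V) ∧ x ∉ V := by
  have hx' : x ∉ L.toSubalgebra.toSubring := hx
  have hR : IsIntegrallyClosedIn L.toSubalgebra.toSubring K := by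
    rw [Subring.isIntegrallyClosedIn_iff]
    intro y hy
    refine hL y ?_
    have h1 : IsIntegral L y := hy
    exact h1.isAlgebraic
  obtain ⟨V, h1, h2⟩ := Subring.exists_le_valuationSubring_of_isIntegrallyClosedIn hx'
  exact ⟨V, fun c => h1 (L.algebraMap_mem c), fun y hy => h1 hy, h2⟩

theorem mem_bot_of_isAlgebraic (y : K) (hy : IsAlgebraic (⊥ : IntermediateField ℂ K) y) :
    y ∈ (⊥ : IntermediateField ℂ K) := by
  have h1 : IsAlgebraic ℂ y := IsAlgebraic.restrictScalars ℂ hy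
  have h2 : IsIntegral ℂ y := h1.isIntegral
  have h3 := IsAlgClosed.degree_eq_one_of_irreducible ℂ (minpoly.irreducible h2)
  obtain ⟨c, hc⟩ := minpoly.mem_range_of_degree_eq_one ℂ y h3
  exact IntermediateField.mem_bot.2 ⟨c, hc⟩

theorem const_of_no_pole (Y : Model (⊤ : IntermediateField ℂ K)) (x : K)
    (h : ∀ D, IsPrimeDiv Y D → 0 ≤ D.v x) : ∃ c : ℂ, x = algebraMap ℂ K c := by
  by_contra hc
  have hx : x ∉ (⊥ : IntermediateField ℂ K) := by
    rw [IntermediateField.mem_bot]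
    rintro ⟨c, rfl⟩
    exact hc ⟨c, rfl⟩
  obtain ⟨V, h1, -, h3⟩ := exists_place (⊥ : IntermediateField ℂ K) mem_bot_of_isAlgebraic x hx
  obtain ⟨D, h4, h5⟩ := exists_pole Y V h1 x fun hl => h3 (locRing_le _ V h1 x hl)
  exact absurd (h D h4.1) (not_le.2 h5)

/-- `Y → S` a morphism with connected fibres: a function without poles along the horizontal prime
divisors of `Y` comes from `S`. -/
theorem mem_of_no_pole (Y : Model (⊤ : IntermediateField ℂ K)) (L : IntermediateField ℂ K)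
    (S : Model L) (hL : ∀ x : K, IsAlgebraic L x → x ∈ L)
    (hm : ∀ V : ValuationSubring K, IsPlace V → locRing S.g V ⊆ locRing Y.g V) (x : K)
    (h : ∀ D, IsPrimeDiv Y D → (∀ y ∈ L, y ≠ 0 → D.v y = 0) → 0 ≤ D.v x) : x ∈ L := by
  by_contra hx
  obtain ⟨V, h1, h2, h3⟩ := exists_place L hL x hx
  obtain ⟨D, h4, h5⟩ := exists_pole Y V h1 x fun hl => h3 (locRing_le _ V h1 x hl)
  refine absurd (h D h4.1 ?_) (not_le.2 h5)
  have h6 : ∀ y ∈ L, y ≠ 0 → 0 ≤ D.v y := by
    intro y hy h0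
    have h7 : y ∈ locRing Y.g V := hm V h1 (by rw [locRing_of_le S V h1 h2]; exact hy)
    have h8 : y ∈ (D.ring : Set K) := h4.2 h7
    exact Or.resolve_left (h8 : y = 0 ∨ 0 ≤ D.v y) h0
  intro y hy h0
  have h7 := h6 y hy h0
  have h8 := h6 y⁻¹ (L.inv_mem hy) (inv_ne_zero h0)
  rw [D.inv h0] at h8
  omega

end Pool.Agent.FR
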