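import Pool.Agent.FR.Super
import Pool.Agent.FR.Places
import Pool.Agent.FR.AmpleU

/-! # Noether-Fano over a point: every prime divisor of `X` is one of `Y` -/

set_option autoImplicit false

namespace Pool.Agent.FR

open scoped Classical

variable {K : Type} [Field K] [Algebra ℂ K]

private theorem npt_mem_bot {x : K} (hx : x ∈ (⊥ : IntermediateField ℂ K)) :
    ∃ c : ℂ, x = algebraMap ℂ K c := by
  obtain ⟨c, hc⟩ := IntermediateField.mem_bot.1 hx
  exact ⟨c, hc.symm⟩

private theorem npt_hyp (S : Model (⊥ : IntermediateField ℂ K)) (D : DVal K) : hyp S D = 0 := by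
  have h : ∀ j, D.v (S.g j) = 0 := by
    intro j
    obtain ⟨c, hc⟩ := npt_mem_bot (S.mem j)
    have hc0 : c ≠ 0 := by
      rintro rfl
      exact S.ne j (by rw [hc, map_zero])
    rw [hc, D.const c hc0]
  unfold hyp
  simp [h]

private theorem npt_const_of_pow {x : K} {e : ℕ} (he : 0 < e)
    (hcon : ∀ x : K, IsAlgebraic (⊥ : IntermediateField ℂ K) x → x ∈ (⊥ : IntermediateField ℂ K))
    (hx : x ^ e ∈ (⊥ : IntermediateField ℂ K)) : ∃ c : ℂ, x = algebraMap ℂ K c := by
  apply npt_mem_bot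
  apply hcon
  have h1 : IsAlgebraic (⊥ : IntermediateField ℂ K) (x ^ e) :=
    isAlgebraic_algebraMap (A := K) (⟨x ^ e, hx⟩ : (⊥ : IntermediateField ℂ K))
  exact IsAlgebraic.of_pow he h1

section NF
variable {n : ℕ} (B : Module.Basis (Fin n) K (Derivation ℂ K K))
  (X : Model (⊤ : IntermediateField ℂ K)) (E : DVal K) (I : ℕ) (hX : IsSuper B X E I)
include hX

/-- The base is a point: every prime divisor of `X` is one of `Y`. -/
theorem nf_point (Y : Model (⊤ : IntermediateField ℂ K)) (S : Model (⊥ : IntermediateField ℂ K))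
    (h : IsMoriFibreSpace B Y ⊥ S) (D : DVal K) (hD : IsPrimeDiv X D) : IsPrimeDiv Y D := by
  obtain ⟨a, b, ha, m, N, s, hm, hs0, hsec, hgen⟩ := h.ample
  -- the sections of the multiple `k0` of `-K_Y`
  have hnc : ∃ i j, ∀ c : ℂ, s i ≠ algebraMap ℂ K c * s j := by
    by_contra hcon
    push Not at hcon
    refine h.dim (ample_frac Y _ s hgen ⊥ fun i j => ?_)
    obtain ⟨c, hc⟩ := hcon j i
    rw [hc, mul_div_cancel_right₀ _ (hs0 i)]
    exact IntermediateField.algebraMap_mem _ c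
  obtain ⟨k0, hk0⟩ : ∃ k0 : ℕ, k0 = m * a := ⟨_, rfl⟩
  have hk0pos : 0 < k0 := by rw [hk0]; exact Nat.mul_pos hm ha
  have hc : ∀ D : DVal K, -((m : ℤ) * (-(a * kord B D) + b * hyp S D)) = k0 * kord B D := by
    intro D
    rw [npt_hyp S D, hk0]
    push_cast
    ring
  have hgen' : ∀ V : ValuationSubring K, IsPlace V → ∃ i, (∀ j, s j / s i ∈ V) ∧
      (∀ D, Through Y V D → D.v (s i) = k0 * kord B D) := by
    intro V hV
    obtain ⟨i, h1, h2, -⟩ := hgen V hV
    exact ⟨i, h1, fun D hD => by rw [h2 D hD, hc D]⟩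
  -- the minimum of `D.v (s j)`
  have key : ∀ D : DVal K, ∃ i, (∀ j, D.v (s i) ≤ D.v (s j)) ∧
      (IsPrimeDiv Y D → D.v (s i) = k0 * kord B D) ∧
      (¬ IsPrimeDiv Y D → D.v (s i) < k0 * kord B D) := by
    intro D
    obtain ⟨i, h1, h2⟩ := hgen' D.ring D.isPlace
    refine ⟨i, fun j => ?_, fun hp => ?_, fun hp => ?_⟩
    · have h3 := D.mem_ring'.1 (h1 j)
      rw [D.div' (hs0 j) (hs0 i)] at h3
      omega
    · exact h2 D ⟨hp, fun x hx => by rw [IsPrimeDiv] at hp; rw [hp]; exact hx⟩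
    · have h3 : IsLogDisc B Y D (1 + kord B D - (D.v (s i) : ℝ) / k0) :=
        ⟨k0, s i, ⟨hk0pos, hs0 i, h2⟩, rfl⟩
      have h4 := h.terminal.2 D _ hp h3
      have h5 : (D.v (s i) : ℝ) / k0 < kord B D := by linarith
      have hk0' : (0 : ℝ) < k0 := by exact_mod_cast hk0pos
      rw [div_lt_iff₀ hk0'] at h5
      have h6 : (D.v (s i) : ℝ) < ((k0 * kord B D : ℤ) : ℝ) := by
        push_cast
        linarith
      exact_mod_cast h6
  obtain ⟨u, M, hu, hM, hcan, hmob, hE1, hE2⟩ := hX.mobile s hs0 hnc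
  have hI : 0 < I := hX.pos
  -- STEP 1
  have step1 : M ≤ I * k0 := by
    by_contra hcon
    push Not at hcon
    obtain ⟨e, he⟩ : ∃ e : ℕ, M = I * k0 + e := ⟨M - I * k0, by omega⟩
    have hepos : 0 < e := by omega
    have hpole : ∀ i, ∃ c : ℂ, s i ^ e / u ^ (k0 * I) = algebraMap ℂ K c := by
      intro i
      apply const_of_no_pole Y
      intro D hD
      obtain ⟨i0, hmin, heq, -⟩ := key D
      have heq := heq hD
      obtain ⟨i1, hi1⟩ := hcan D
      rw [D.mul u (s i1) hu (hs0 i1)] at hi1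
      rw [D.div' (pow_ne_zero _ (hs0 i)) (pow_ne_zero _ hu), D.pow (hs0 i), D.pow hu]
      have h1 := hmin i1
      have h2 := hmin i
      have h3 : (I : ℤ) * (D.v u + k0 * kord B D) ≤ M * kord B D := by
        refine le_trans ?_ hi1
        apply mul_le_mul_of_nonneg_left _ (by omega)
        omega
      rw [he] at h3
      push_cast at h3 ⊢
      have h4 : (I : ℤ) * D.v u ≤ e * kord B D := by nlinarith
      have h5 : (k0 : ℤ) * ((I : ℤ) * D.v u) ≤ k0 * (e * kord B D) :=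
        mul_le_mul_of_nonneg_left h4 (by omega)
      have h6 : (e : ℤ) * (k0 * kord B D) ≤ e * D.v (s i) :=
        mul_le_mul_of_nonneg_left (by omega) (by omega)
      nlinarith
    obtain ⟨i, j, hij⟩ := hnc
    obtain ⟨c, hci⟩ := hpole i
    obtain ⟨d, hdj⟩ := hpole j
    have hup : u ^ (k0 * I) ≠ 0 := pow_ne_zero _ hu
    have hsj : s j ^ e ≠ 0 := pow_ne_zero _ (hs0 j)
    have h7 : (s i / s j) ^ e = algebraMap ℂ K (c / d) := by
      rw [map_div₀, ← hci, ← hdj, div_pow, div_div_div_cancel_right₀ hup]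
    obtain ⟨c', hc'⟩ := npt_const_of_pow hepos h.connected
      (by rw [h7]; exact IntermediateField.algebraMap_mem _ _ : (s i / s j) ^ e ∈
        (⊥ : IntermediateField ℂ K))
    exact hij c' (by rw [← hc', div_mul_cancel₀ _ (hs0 j)])
  -- STEP 2
  have hle : ∀ D : DVal K, ∃ i, (∀ j, D.v (s i) ≤ D.v (s j)) ∧ D.v (s i) ≤ k0 * kord B D ∧
      (D.v (s i) = k0 * kord B D → IsPrimeDiv Y D) := by
    intro D
    obtain ⟨i, h1, h2, h3⟩ := key D
    refine ⟨i, h1, ?_, fun h4 => ?_⟩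
    · by_cases hp : IsPrimeDiv Y D
      · exact (h2 hp).le
      · exact (h3 hp).le
    · by_contra hp
      exact (h3 hp).ne h4
  have hstep1 : (M : ℤ) ≤ I * k0 := by exact_mod_cast step1
  have hconst : ∃ c : ℂ, u = algebraMap ℂ K c := by
    apply const_of_no_pole X
    intro D hD
    obtain ⟨i, -, h2, -⟩ := hle D
    by_cases hDE : D = E
    · subst hDE
      have h3 := hE1 i
      rw [D.mul u (s i) hu (hs0 i)] at h3
      rw [hX.kordE] at h2
      nlinarith
    · have h3 := (hmob D hD hDE).1 i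
      rw [D.mul u (s i) hu (hs0 i)] at h3
      rw [hX.kord0 D hD hDE, mul_zero] at h2
      omega
  obtain ⟨c, hcu⟩ := hconst
  have hc0 : c ≠ 0 := by
    rintro rfl
    exact hu (by rw [hcu, map_zero])
  have hvu : ∀ x : K, ∀ D : DVal K, D.v (u * x) = D.v x := by
    intro x D
    rw [hcu, D.const_mul hc0]
  obtain ⟨i, h1, h2, h3⟩ := hle D
  apply h3
  by_cases hDE : D = E
  · subst hDE
    obtain ⟨i', hi'⟩ := hE2
    have h4 := hE1 i
    rw [hvu] at hi' h4
    have h5 := h1 i'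
    rw [hX.kordE] at h2 ⊢
    nlinarith
  · obtain ⟨h4, i', hi'⟩ := hmob D hD hDE
    have h4 := h4 i
    rw [hvu] at hi' h4
    have h5 := h1 i'
    rw [hX.kord0 D hD hDE, mul_zero] at h2 ⊢
    omega

end NF

end Pool.Agent.FR
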