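import Pool.Agent.FR.Super
import Pool.Agent.FR.NFpt

/-!
# Noether-Fano, base a point: every prime divisor of `Y` is one of `X` (row N11 of project FR)
-/

set_option autoImplicit false

namespace Pool.Agent.FR

open scoped Classical

variable {K : Type} [Field K] [Algebra ℂ K]

private theorem nfq_chart_le {N : ℕ} (s : Fin (N + 1) → K) (i : Fin (N + 1))
    (V : ValuationSubring K) (hV : IsPlace V) (hi : ∀ j, s j / s i ∈ V) (a : K)
    (ha : a ∈ Algebra.adjoin ℂ (Set.range fun j => s j / s i)) : a ∈ V := by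
  induction ha using Algebra.adjoin_induction with
  | mem x hx =>
    obtain ⟨j, rfl⟩ := hx
    exact hi j
  | algebraMap c => exact hV c
  | add x y _ _ hx hy => exact V.add_mem _ _ hx hy
  | mul x y _ _ hx hy => exact V.mul_mem _ _ hx hy

/-- An element of the chart, multiplied by a large power `e` of `s i`, is a section of `e` times
the divisor. -/
private theorem nfq_homog (S : Set (DVal K)) (w : DVal K → ℤ) {N : ℕ} (s : Fin (N + 1) → K)
    (hs0 : ∀ j, s j ≠ 0) (i : Fin (N + 1)) (hs : ∀ j, ∀ D ∈ S, w D ≤ D.v (s j)) (a : K)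
    (ha : a ∈ Algebra.adjoin ℂ (Set.range fun j => s j / s i)) :
    ∃ e₀ : ℕ, ∀ e, e₀ ≤ e → ∀ D ∈ S, a * s i ^ e = 0 ∨ e * w D ≤ D.v (a * s i ^ e) := by
  induction ha using Algebra.adjoin_induction with
  | mem x hx =>
    obtain ⟨j, rfl⟩ := hx
    refine ⟨1, fun e he D hD => Or.inr ?_⟩
    obtain ⟨e, rfl⟩ : ∃ e', e = e' + 1 := ⟨e - 1, by omega⟩
    have h1 : s j / s i * s i ^ (e + 1) = s j * s i ^ e := by
      rw [pow_succ]
      field_simp [hs0 i]
    have h2 := hs j D hD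
    have h3 := hs i D hD
    change _ ≤ D.v (s j / s i * s i ^ (e + 1))
    rw [h1, D.mul _ _ (hs0 j) (pow_ne_zero _ (hs0 i)), D.pow (hs0 i)]
    push_cast
    have h4 : (e : ℤ) * w D ≤ e * D.v (s i) := mul_le_mul_of_nonneg_left h3 (by omega)
    linarith
  | algebraMap c =>
    refine ⟨0, fun e _ D hD => ?_⟩
    by_cases hc : c = 0
    · left
      rw [hc, map_zero, zero_mul]
    · right
      rw [D.const_mul hc, D.pow (hs0 i)]
      exact mul_le_mul_of_nonneg_left (hs i D hD) (by omega)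
  | add x y _ _ hx hy =>
    obtain ⟨e1, h1⟩ := hx
    obtain ⟨e2, h2⟩ := hy
    refine ⟨e1 + e2, fun e he D hD => ?_⟩
    rw [add_mul]
    exact D.add_ge (h1 e (by omega) D hD) (h2 e (by omega) D hD)
  | mul x y _ _ hx hy =>
    obtain ⟨e1, h1⟩ := hx
    obtain ⟨e2, h2⟩ := hy
    refine ⟨e1 + e2, fun e he D hD => ?_⟩
    have h3 : x * y * s i ^ e = (x * s i ^ e1) * (y * s i ^ (e - e1)) := by
      rw [mul_mul_mul_comm, ← pow_add]
      congr 2
      omega
    have h4 := D.mul_ge (h1 e1 le_rfl D hD) (h2 (e - e1) (by omega) D hD)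
    rw [h3]
    refine h4.imp id fun h5 => le_trans (le_of_eq ?_) h5
    have h6 : ((e - e1 : ℕ) : ℤ) = (e : ℤ) - e1 := by
      push_cast [Nat.cast_sub (show e1 ≤ e by omega)]
      ring
    rw [h6]
    ring

private theorem nfq_hyp (S : Model (⊥ : IntermediateField ℂ K)) (D : DVal K) : hyp S D = 0 := by
  have h : ∀ j, D.v (S.g j) = 0 := by
    intro j
    obtain ⟨c, hc⟩ := IntermediateField.mem_bot.1 (S.mem j)
    have hc0 : c ≠ 0 := by
      rintro rfl
      exact S.ne j (by rw [← hc, map_zero])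
    rw [← hc, D.const c hc0]
  unfold hyp
  simp [h]

section NF
variable {n : ℕ} (B : Module.Basis (Fin n) K (Derivation ℂ K K))
  (X : Model (⊤ : IntermediateField ℂ K)) (E : DVal K) (I : ℕ) (hX : IsSuper B X E I)
include hX

/-- ... and conversely. -/
theorem nf_point' (Y : Model (⊤ : IntermediateField ℂ K)) (S : Model (⊥ : IntermediateField ℂ K))
    (h : IsMoriFibreSpace B Y ⊥ S) (D : DVal K) (hD : IsPrimeDiv Y D) : IsPrimeDiv X D := by
  by_contra hDX
  have hEY : IsPrimeDiv Y E := nf_point B X E I hX Y S h E hX.primeE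
  have hDE : E ≠ D := fun h' => hDX (h' ▸ hX.primeE)
  -- an element without pole along `E`, with a pole along `D`
  obtain ⟨x, hxE, hxD⟩ : ∃ x, x ∈ (E.ring : Set K) ∧ x ∉ (D.ring : Set K) := by
    by_contra hcon
    push Not at hcon
    exact hDE (DVal.eq_of_ring_le hcon)
  have hx0 : x ≠ 0 := by
    rintro rfl
    exact hxD (Or.inl rfl)
  have hxv : D.v x < 0 := by
    by_contra hcon
    exact hxD (Or.inr (not_lt.1 hcon))
  obtain ⟨a, b, ha, m, N, s, hm, hs0, hsec, hgen⟩ := h.ample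
  obtain ⟨k0, hk0⟩ : ∃ k0 : ℕ, k0 = m * a := ⟨_, rfl⟩
  have hc : ∀ D : DVal K, -((m : ℤ) * (-(a * kord B D) + b * hyp S D)) = k0 * kord B D := by
    intro D
    rw [nfq_hyp S D, hk0]
    push_cast
    ring
  obtain ⟨i, h1, h2, h3⟩ := hgen E.ring E.isPlace
  have hEi : E.v (s i) = k0 * kord B E := by
    rw [h2 E ⟨hEY, hEY.ge⟩, hc E]
  -- `x = p / q` in the chart `i` of `Y`
  have hx1 : x ∈ locRing Y.g E.ring := by
    rw [← (show (E.ring : Set K) = locRing Y.g E.ring from hEY)]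
    exact hxE
  rw [h3] at hx1
  obtain ⟨p, hp, q, hq, hq0, hqE, hpq⟩ := hx1
  have hp0 : p ≠ 0 := by
    rintro rfl
    exact hx0 (by rw [hpq, zero_div])
  have hqv : E.v q = 0 := by
    have h4 := E.mem_ring'.1 (nfq_chart_le s i E.ring E.isPlace h1 q hq)
    have h5 := E.mem_ring'.1 hqE
    rw [E.inv hq0] at h5
    omega
  have hs : ∀ j, ∀ D' ∈ {D' : DVal K | IsPrimeDiv Y D'}, (k0 : ℤ) * kord B D' ≤ D'.v (s j) := by
    intro j D' hD'
    rw [← hc D']
    exact hsec j D' hD'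
  obtain ⟨e1, he1⟩ := nfq_homog {D' : DVal K | IsPrimeDiv Y D'} (fun D' => (k0 : ℤ) * kord B D')
    s hs0 i hs p hp
  obtain ⟨e2, he2⟩ := nfq_homog {D' : DVal K | IsPrimeDiv Y D'} (fun D' => (k0 : ℤ) * kord B D')
    s hs0 i hs q hq
  obtain ⟨e, he⟩ : ∃ e, e = e1 + e2 := ⟨_, rfl⟩
  have hsi : s i ^ e ≠ 0 := pow_ne_zero _ (hs0 i)
  have hP0 : p * s i ^ e ≠ 0 := mul_ne_zero hp0 hsi
  have hQ0 : q * s i ^ e ≠ 0 := mul_ne_zero hq0 hsi
  have hP := (he1 e (by omega) D hD).resolve_left hP0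
  have hQ : (e : ℤ) * (k0 * kord B D) < D.v (q * s i ^ e) := by
    refine lt_of_le_of_lt hP ?_
    rw [D.mul _ _ hp0 hsi, D.mul _ _ hq0 hsi]
    rw [hpq, D.div' hp0 hq0] at hxv
    omega
  have hQE : E.v (q * s i ^ e) = -((e : ℤ) * (k0 * I)) := by
    rw [E.mul _ _ hq0 hsi, E.pow (hs0 i), hqv, hEi, hX.kordE]
    ring
  have hkey := hX.key D hDX (q * s i ^ e) hQ0 (fun D' hD' hE => by
    have hD'Y := nf_point B X E I hX Y S h D' hD'
    have h4 := (he2 e (by omega) D' hD'Y).resolve_left hQ0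
    simpa only [hX.kord0 D' hD' hE, mul_zero] using h4)
  rw [hQE] at hkey
  have hI : (0 : ℤ) < I := by exact_mod_cast hX.pos
  have h5 : (I : ℤ) * (e * (k0 * kord B D)) < I * D.v (q * s i ^ e) :=
    mul_lt_mul_of_pos_left hQ hI
  have h6 : (I : ℤ) * (e * (k0 * kord B D)) = - -((e : ℤ) * (k0 * I)) * kord B D := by ring
  omega

end NF

end Pool.Agent.FR
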