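import Pool.Agent.FR.NFfib
import Pool.Agent.FR.NFpt2
import Pool.Agent.FR.AmpleU

/-! # Noether-Fano: assembly -/

set_option autoImplicit false

namespace Pool.Agent.FR

open scoped Classical

variable {K : Type} [Field K] [Algebra ℂ K]

/-- Superrigidity: a (weak) Mori fibre space with function field `K` is `X` over a point. -/
theorem nf_super {n : ℕ} (B : Module.Basis (Fin n) K (Derivation ℂ K K))
    (X : Model (⊤ : IntermediateField ℂ K)) (E : DVal K) (I : ℕ) (hX : IsSuper B X E I)
    (Y : Model (⊤ : IntermediateField ℂ K)) (L : IntermediateField ℂ K) (S : Model L)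
    (h : IsMoriFibreSpace B Y L S) :
    L = ⊥ ∧ ∀ V : ValuationSubring K, IsPlace V → locRing Y.g V = locRing X.g V := by
  have hL := nf_fibre B X E I hX Y L S h
  subst hL
  refine ⟨rfl, fun V hV => ?_⟩
  obtain ⟨a, b, ha, hA⟩ := h.ample
  have hS : ∀ D : DVal K, hyp S D = 0 := by
    intro D
    have h1 : ∀ j, D.v (S.g j) = 0 := by
      intro j
      obtain ⟨c, hc⟩ := IntermediateField.mem_bot.1 (S.mem j)
      have hc0 : c ≠ 0 := by
        rintro rfl
        rw [map_zero] at hc
        exact S.ne j hc.symm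
      rw [← hc]
      exact D.const c hc0
    unfold hyp
    rw [neg_eq_zero]
    refine le_antisymm ?_ ?_
    · exact (Finset.inf'_le _ (Finset.mem_univ 0)).trans (h1 0).le
    · exact Finset.le_inf' _ _ fun j _ => (h1 j).ge
  have hdiv : ∀ D, IsPrimeDiv Y D ↔ IsPrimeDiv X D := fun D =>
    ⟨fun hD => nf_point' B X E I hX Y S h D hD, fun hD => nf_point B X E I hX Y S h D hD⟩
  refine ample_unique Y X _ _ hA hX.fano.2.2 1 a one_pos ha (fun D _ => ?_) hdiv V hV
  simp only [hS D]
  push_cast
  ring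

theorem isom_of_eq (X Y : Model (⊤ : IntermediateField ℂ K))
    (h : ∀ V : ValuationSubring K, IsPlace V → locRing Y.g V = locRing X.g V) : Isom X Y := by
  refine ⟨AlgEquiv.refl, fun V hV => ?_⟩
  have h1 : V.comap ((AlgEquiv.refl : K ≃ₐ[ℂ] K).symm : K →+* K) = V := by
    ext x
    simp [ValuationSubring.mem_comap]
  rw [h1, h V hV]
  simp

theorem noether_fano {n : ℕ} (B : Module.Basis (Fin n) K (Derivation ℂ K K))
    (X : Model (⊤ : IntermediateField ℂ K)) (E : DVal K) (I : ℕ) (hX : IsSuper B X E I) :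
    IsBirRigid B X :=
  ⟨hX.fano, hX.picard, fun Y L S h =>
    ⟨(nf_super B X E I hX Y L S h).1, isom_of_eq X Y (nf_super B X E I hX Y L S h).2⟩⟩

end Pool.Agent.FR
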