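import Pool.Agent.FR.NFfib0
import Pool.Agent.FR.Places
import Pool.Agent.FR.AmpleU

/-!
# Noether-Fano, base of positive dimension
-/

set_option autoImplicit false

namespace Pool.Agent.FR

open scoped Classical

variable {K : Type} [Field K] [Algebra ℂ K]

section NF
variable {n : ℕ} (B : Module.Basis (Fin n) K (Derivation ℂ K K))
  (X : Model (⊤ : IntermediateField ℂ K)) (E : DVal K) (I : ℕ) (hX : IsSuper B X E I)
include hX

theorem nf_fibre (Y : Model (⊤ : IntermediateField ℂ K)) (L : IntermediateField ℂ K) (S : Model L)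
    (h : IsMoriFibreSpace B Y L S) : L = ⊥ :=
  nf_fibre_aux B X E I hX Y L S h
    (fun x hx => mem_of_no_pole Y L S h.connected h.morphism x hx)
    (fun c _ _ s hgen hL => ample_frac Y c s hgen L hL)

end NF

end Pool.Agent.FR
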