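import Pool.Agent.FR.Super

/-!
# Noether-Fano, base of positive dimension (with the two inputs from N6 and N8 as hypotheses)
-/

set_option autoImplicit false

namespace Pool.Agent.FR

open scoped Classical

variable {K : Type} [Field K] [Algebra ℂ K]

/-- If all ratios of the coordinates of a model of `L` are constant, then `L = ⊥`. -/
theorem nff_bot {L : IntermediateField ℂ K} (S : Model L)
    (h : ∀ i j, ∃ c : ℂ, S.g i = algebraMap ℂ K c * S.g j) : L = ⊥ := by
  have h1 : Algebra.adjoin ℂ (Set.range fun j => S.g j / S.g 0) ≤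
      (⊥ : IntermediateField ℂ K).toSubalgebra := by
    apply Algebra.adjoin_le
    rintro _ ⟨j, rfl⟩
    obtain ⟨c, hc⟩ := h j 0
    have h2 : S.g j / S.g 0 = algebraMap ℂ K c := by
      rw [hc, mul_div_assoc, div_self (S.ne 0), mul_one]
    simp only [h2]
    exact (⊥ : IntermediateField ℂ K).algebraMap_mem c
  refine le_antisymm ?_ bot_le
  intro x hx
  obtain ⟨a, ha, b, hb, _, rfl⟩ := S.frac x hx
  exact (⊥ : IntermediateField ℂ K).div_mem (h1 ha) (h1 hb)

/-- The minimum of the values of the coordinates. -/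
theorem nff_hyp_le {L : IntermediateField ℂ K} (S : Model L) (D : DVal K) (i : Fin (S.N + 1)) :
    - hyp S D ≤ D.v (S.g i) := by
  rw [hyp, neg_neg]
  exact Finset.inf'_le _ (Finset.mem_univ i)

/-- A valuation which is trivial on `L` has value zero on the hyperplane divisor. -/
theorem nff_hyp_eq_zero {L : IntermediateField ℂ K} (S : Model L) (D : DVal K)
    (h : ∀ y ∈ L, y ≠ 0 → D.v y = 0) : hyp S D = 0 := by
  have h1 : ∀ j, D.v (S.g j) = 0 := fun j => h _ (S.mem j) (S.ne j)
  rw [hyp, neg_eq_zero]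
  simp only [h1]
  exact Finset.inf'_const _ _

section NF
variable {n : ℕ} (B : Module.Basis (Fin n) K (Derivation ℂ K K))
  (X : Model (⊤ : IntermediateField ℂ K)) (E : DVal K) (I : ℕ) (hX : IsSuper B X E I)
include hX

/-- The base of a Mori fibre space is a point (with the inputs as hypotheses). -/
theorem nf_fibre_aux (Y : Model (⊤ : IntermediateField ℂ K)) (L : IntermediateField ℂ K)
    (S : Model L) (h : IsMoriFibreSpace B Y L S)
    (mem_of_no_pole : ∀ x : K,
      (∀ D, IsPrimeDiv Y D → (∀ y ∈ L, y ≠ 0 → D.v y = 0) → 0 ≤ D.v x) → x ∈ L)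
    (ample_frac : ∀ (c : DVal K → ℤ) {m N : ℕ} (s : Fin (N + 1) → K),
      (∀ V : ValuationSubring K, IsPlace V → ∃ i, (∀ j, s j / s i ∈ V) ∧
        (∀ D, Through Y V D → D.v (s i) = -(m * c D)) ∧
        locRing Y.g V = {x | ∃ a ∈ Algebra.adjoin ℂ (Set.range fun j => s j / s i),
          ∃ b ∈ Algebra.adjoin ℂ (Set.range fun j => s j / s i), b ≠ 0 ∧ b⁻¹ ∈ V ∧ x = a / b}) →
      (∀ i j, s j / s i ∈ L) → L = ⊤) : L = ⊥ := by
  by_contra hL
  have hconst : ∃ i j, ∀ c : ℂ, S.g i ≠ algebraMap ℂ K c * S.g j := by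
    by_contra hcon
    push Not at hcon
    exact hL (nff_bot S hcon)
  obtain ⟨u, M, hu, hM, hmob, -, -, -⟩ := hX.mobile S.g S.ne hconst
  obtain ⟨a, b, ha, m, N, s, hm, hs, hsec, hgen⟩ := h.ample
  -- every product of `M` sections divided by `u ^ (m * a * I)` lies in `L`
  have key : ∀ i j, s i * s j ^ (M - 1) / u ^ (m * a * I) ∈ L := by
    intro i j
    apply mem_of_no_pole
    intro D hD htriv
    have h0 : hyp S D = 0 := nff_hyp_eq_zero S D htriv
    obtain ⟨l, hl⟩ := hmob D
    rw [D.mul u _ hu (S.ne l), htriv _ (S.mem l) (S.ne l), add_zero] at hl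
    have h1 : ∀ i, (m * a : ℤ) * kord B D ≤ D.v (s i) := by
      intro i
      have := hsec i D hD
      simp only [h0] at this
      linarith
    have hpos : (0 : ℤ) ≤ (m : ℤ) * a := by positivity
    rw [D.div' (mul_ne_zero (hs i) (pow_ne_zero _ (hs j))) (pow_ne_zero _ hu),
      D.mul _ _ (hs i) (pow_ne_zero _ (hs j)), D.pow (hs j), D.pow hu]
    have h2 : ((M - 1 : ℕ) : ℤ) = (M : ℤ) - 1 := by
      rw [Nat.cast_sub hM]; rfl
    have h3 : (0 : ℤ) ≤ (M : ℤ) - 1 := by
      have : (1 : ℤ) ≤ M := by exact_mod_cast hM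
      linarith
    rw [h2]
    push_cast
    have h4 := h1 i
    have h5 := mul_le_mul_of_nonneg_left (h1 j) h3
    have h6 := mul_le_mul_of_nonneg_left hl hpos
    nlinarith
  have hMM : ∀ j, s j * s j ^ (M - 1) = s j ^ M := by
    intro j
    rw [← pow_succ', Nat.sub_add_cancel hM]
  apply h.dim
  apply ample_frac _ s hgen
  intro i j
  have h1 := key j i
  have h2 := key i i
  have h3 : s j / s i = (s j * s i ^ (M - 1) / u ^ (m * a * I)) /
      (s i * s i ^ (M - 1) / u ^ (m * a * I)) := by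
    have hu' : u ^ (m * a * I) ≠ 0 := pow_ne_zero _ hu
    have hs' : s i ^ (M - 1) ≠ 0 := pow_ne_zero _ (hs i)
    have hsi := hs i
    field_simp
  rw [h3]
  exact L.div_mem h1 h2

end NF

end Pool.Agent.FR
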