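import Pool.Agent.FR.Loc

/-!
Project FR, row N4: the local rings of a projective variety are noetherian.
-/

set_option autoImplicit false

namespace Pool.Agent.FR

open MvPolynomial
open scoped Classical

variable {K : Type} [Field K] [Algebra ℂ K]

theorem locAlg_noetherian {N : ℕ} (g : Fin (N + 1) → K) (hg : ∀ i, g i ≠ 0)
    (V : ValuationSubring K) (hV : IsPlace V) : IsNoetherianRing (locAlg g hg V hV) := by
  obtain ⟨i, hi⟩ := exists_min g hg V
  have heq := locRing_eq g hg V hV i hi
  have hfg : (chart g i).FG := by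
    rw [Subalgebra.fg_def]
    exact ⟨_, Set.finite_range _, rfl⟩
  have hft : Algebra.FiniteType ℂ (chart g i) := (chart g i).fg_iff_finiteType.1 hfg
  have hnoeth : IsNoetherianRing (chart g i) := Algebra.FiniteType.isNoetherianRing ℂ _
  have hle : ∀ x ∈ chart g i, x ∈ locAlg g hg V hV := by
    intro x hx
    show x ∈ locRing g V
    rw [heq]
    refine ⟨x, hx, 1, (chart g i).one_mem, one_ne_zero, ?_, by rw [div_one]⟩
    rw [inv_one]
    exact V.one_mem
  set φ : chart g i →+* locAlg g hg V hV := (Subalgebra.inclusion hle).toRingHom with hφ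
  rw [isNoetherianRing_iff_ideal_fg]
  intro J
  have hJ : J = (J.comap φ).map φ := by
    apply le_antisymm
    · intro x hx
      have hx' : (x : K) ∈ locRing g V := x.2
      rw [heq] at hx'
      obtain ⟨a, ha, b, hb, hb0, hbV, hxab⟩ := hx'
      have hbl : b ∈ locRing g V := hle b hb
      have hbi : b⁻¹ ∈ locRing g V := locRing_inv g hg V hV b hbl hb0 hbV
      have h1 : φ ⟨a, ha⟩ = φ ⟨b, hb⟩ * x := by
        apply Subtype.ext
        show a = b * (x : K)
        rw [hxab]
        field_simp
      have h2 : (⟨a, ha⟩ : chart g i) ∈ J.comap φ := by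
        rw [Ideal.mem_comap, h1]
        exact J.mul_mem_left _ hx
      have h3 : x = (⟨b⁻¹, hbi⟩ : locAlg g hg V hV) * φ ⟨a, ha⟩ := by
        apply Subtype.ext
        show (x : K) = b⁻¹ * a
        rw [hxab, div_eq_mul_inv, mul_comm]
      rw [h3]
      exact Ideal.mul_mem_left _ _ (Ideal.mem_map_of_mem φ h2)
    · exact Ideal.map_comap_le
  rw [hJ]
  exact Ideal.FG.map (IsNoetherian.noetherian _) φ

end Pool.Agent.FR
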