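import Pool.Agent.FR.KBasic

/-! # The top degree of a polynomial in all coordinates but one; a lower bound for orders -/

set_option autoImplicit false

namespace Pool.Agent.FR

open MvPolynomial
open scoped Classical

variable {s : ℕ} {k a : Fin (s + 3) → ℕ} {d : ℕ} {K : Type} [Field K] [Algebra ℂ K]

theorem td_a_pos (hw : Wt s k a d) (j : Fin (s + 3)) : 0 < a j := by
  rcases Nat.eq_zero_or_pos (a j) with h | h
  · have h1 := hw.ka j
    have h2 := hw.hd
    rw [h] at h1
    omega
  · exact h

/-- A maximal monomial of top degree. -/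
theorem exists_top (hw : Wt s k a d) (F : FD s k K) (E : DVal K) (hE : IsDeg F a E)
    (j₀ : Fin (s + 3)) (Q : MvPolynomial (Fin (s + 2)) ℂ) (hQ : Q ≠ 0) :
    ∃ γ ∈ Q.support, (∀ γ' ∈ Q.support, γ ≤ γ' → γ' = γ) ∧
      ∑ l, (γ l : ℤ) * (a (j₀.succAbove l) : ℤ) =
        - E.v (aeval (fun i => F.X (j₀.succAbove i)) Q) := by
  have hf : Function.Injective (j₀.succAbove : Fin (s + 2) → Fin (s + 3)) :=
    Fin.succAbove_right_injective
  have hw1 : ∀ γ : Fin (s + 2) →₀ ℕ,
      Finsupp.weight a (Finsupp.mapDomain (j₀.succAbove) γ) = ∑ l, γ l * a (j₀.succAbove l) := by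
    intro γ
    rw [Finsupp.weight_apply, Finsupp.sum_mapDomain_index_inj hf, Finsupp.sum_fintype]
    · simp
    · intro i; simp
  have hne : Q.support.Nonempty := by
    rw [Finset.nonempty_iff_ne_empty, Ne, support_eq_empty]
    exact hQ
  obtain ⟨γ, hγ, hmax⟩ := Q.support.exists_max_image (fun γ => ∑ l, γ l * a (j₀.succAbove l)) hne
  refine ⟨γ, hγ, ?_, ?_⟩
  · intro γ' hγ' hle
    have h1 := hmax γ' hγ'
    have h2 : ∀ l ∈ (Finset.univ : Finset (Fin (s + 2))),
        γ l * a (j₀.succAbove l) ≤ γ' l * a (j₀.succAbove l) :=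
      fun l _ => Nat.mul_le_mul_right _ (hle l)
    have h3 := (Finset.sum_eq_sum_iff_of_le h2).1 (le_antisymm (Finset.sum_le_sum h2) h1)
    ext l
    exact (Nat.eq_of_mul_eq_mul_right (td_a_pos hw _) (h3 l (Finset.mem_univ l))).symm
  · have h1 : aeval (fun i => F.X (j₀.succAbove i)) Q = aeval F.X (rename (j₀.succAbove) Q) := by
      rw [aeval_rename]
      rfl
    have h2 : rename (j₀.succAbove) Q ≠ 0 := by
      intro h
      exact hQ (rename_injective _ hf (by rw [h, map_zero]))
    have h3 : degreeOf j₀ (rename (j₀.succAbove) Q) < k j₀ := by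
      have h4 : degreeOf j₀ (rename (j₀.succAbove) Q) = 0 := by
        rw [← Nat.le_zero, degreeOf_le_iff]
        intro m hm
        rw [Nat.le_zero]
        rw [support_rename_of_injective hf, Finset.mem_image] at hm
        obtain ⟨u, -, rfl⟩ := hm
        apply Finsupp.mapDomain_of_notMem_range
        rintro ⟨i, hi⟩
        exact Fin.succAbove_ne j₀ i hi
      have := hw.hk j₀
      omega
    rw [h1, hE.red j₀ _ h2 h3, neg_neg]
    have h5 : weightedTotalDegree a (rename (j₀.succAbove) Q) = ∑ l, γ l * a (j₀.succAbove l) := by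
      unfold weightedTotalDegree
      rw [support_rename_of_injective hf, Finset.sup_image]
      apply le_antisymm
      · apply Finset.sup_le
        intro γ' hγ'
        rw [Function.comp_apply, hw1]
        exact hmax γ' hγ'
      · rw [← hw1]
        exact Finset.le_sup (f := (fun s => Finsupp.weight a s) ∘ Finsupp.mapDomain (j₀.succAbove)) hγ
    rw [h5]
    push_cast
    rfl

/-- Lower bound for the order of an element of the coordinate ring. -/
theorem v_ge (hw : Wt s k a d) (F : FD s k K) (D : DVal K) (q : ℤ)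
    (hq : ∀ j, -q ≤ k j * D.v (F.X j)) (hq0 : 0 ≤ q) (P : MvPolynomial (Fin (s + 3)) ℂ)
    (hP : aeval F.X P ≠ 0) :
    -(q * (weightedTotalDegree a P : ℕ)) ≤ d * D.v (aeval F.X P) := by
  by_contra hcon
  push Not at hcon
  have hd : (0 : ℤ) < d := by exact_mod_cast hw.hd
  have hsum : aeval F.X P = ∑ β ∈ P.support, aeval F.X (monomial β (coeff β P)) := by
    conv_lhs => rw [P.as_sum]
    rw [map_sum]
  have h1 : ∀ β ∈ P.support, aeval F.X (monomial β (coeff β P)) = 0 ∨
      D.v (aeval F.X P) + 1 ≤ D.v (aeval F.X (monomial β (coeff β P))) := by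
    intro β hβ
    right
    have hc : coeff β P ≠ 0 := mem_support_iff.1 hβ
    have h2 : D.v (aeval F.X (monomial β (coeff β P))) = ∑ j, (β j : ℤ) * D.v (F.X j) := by
      rw [aeval_monomial, D.const_mul hc, Finsupp.prod_fintype _ _ (fun i => pow_zero _),
        D.prod _ _ (fun i _ => pow_ne_zero _ (F.X_ne hw i))]
      exact Finset.sum_congr rfl fun i _ => D.pow (F.X_ne hw i) _
    have h3 : -(q * (weightedTotalDegree a P : ℕ)) ≤
        d * D.v (aeval F.X (monomial β (coeff β P))) := by
      have h4 : Finsupp.weight a β ≤ weightedTotalDegree a P := le_weightedTotalDegree a hβ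
      have h5 : Finsupp.weight a β = ∑ j, β j * a j := by
        rw [Finsupp.weight_apply, Finsupp.sum_fintype]
        · simp
        · intro i; simp
      rw [h5] at h4
      have h6 : (∑ j, (β j : ℤ) * (a j : ℤ)) ≤ (weightedTotalDegree a P : ℕ) := by
        exact_mod_cast h4
      have h7 : (d : ℤ) * ∑ j, (β j : ℤ) * D.v (F.X j) =
          ∑ j, ((β j : ℤ) * (a j : ℤ)) * (k j * D.v (F.X j)) := by
        rw [Finset.mul_sum]
        refine Finset.sum_congr rfl fun j _ => ?_
        have := hw.ka j
        have h8 : (d : ℤ) = k j * a j := by rw [← this]; push_cast; ring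
        rw [h8]
        ring
      rw [h2, h7]
      have h9 : ∑ j, ((β j : ℤ) * (a j : ℤ)) * (-q) ≤
          ∑ j, ((β j : ℤ) * (a j : ℤ)) * (k j * D.v (F.X j)) :=
        Finset.sum_le_sum fun j _ => mul_le_mul_of_nonneg_left (hq j) (by positivity)
      rw [← Finset.sum_mul] at h9
      nlinarith
    by_contra h10
    push Not at h10
    have h11 : D.v (aeval F.X (monomial β (coeff β P))) ≤ D.v (aeval F.X P) := by omega
    nlinarith
  have h2 := D.sum_ge P.support _ _ h1
  rw [← hsum] at h2
  rcases h2 with h3 | h3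
  · exact hP h3
  · omega

end Pool.Agent.FR
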