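import Pool.Agent.FR.Top
import Pool.Agent.FR.Norm
import Pool.Agent.FR.TopDeg

/-!
# The norm bound: an upper bound for the order of an element of the coordinate ring
-/

set_option autoImplicit false

namespace Pool.Agent.FR

open MvPolynomial

variable {s : ℕ} {k a : Fin (s + 3) → ℕ} {d : ℕ} {K : Type} [Field K] [Algebra ℂ K]

theorem norm_bound (hw : Wt s k a d) (F : FD s k K)
    (B : Module.Basis (Fin (s + 2)) K (Derivation ℂ K K)) (hB : IsOmega F B) (E : DVal K)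
    (hE : IsDeg F a E) (D : DVal K) (j₀ : Fin (s + 3)) (q M : ℤ) (hq0 : 0 ≤ q)
    (hq : ∀ j, -q ≤ k j * D.v (F.X j))
    (hM : ∀ l, l ≠ j₀ → k l * (D.v (F.X l) + eps F B D j₀) + q ≤ M) (h : K) (hh : h ∈ F.A)
    (h0 : h ≠ 0) : d * D.v h ≤ (-E.v h) * (k j₀ * M - q) := by
  obtain ⟨Q, T, hQ, hT⟩ := exists_norm hw F E hE j₀ h hh h0
  set u : Fin (s + 2) → K := fun i => F.X (j₀.succAbove i) with hu
  have hP0 : ∏ i, aeval F.X (T i) ≠ 0 := Finset.prod_ne_zero_iff.2 fun i _ => (hT i).1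
  have hN : aeval u Q ≠ 0 := by
    rw [hQ]
    exact mul_ne_zero h0 hP0
  have hQ0 : Q ≠ 0 := by
    rintro rfl
    simp at hN
  obtain ⟨γ, hγ, hmax, hdeg⟩ := exists_top hw F E hE j₀ Q hQ0
  have h1 := top_bound hw F B hB D j₀ Q γ hγ hmax
  have hk : 2 ≤ k j₀ := hw.hk j₀
  have hcard : ((k j₀ - 1 : ℕ) : ℤ) = k j₀ - 1 := by
    push_cast [Nat.cast_sub (show 1 ≤ k j₀ by omega)]
    rfl
  have h2 : E.v (aeval u Q) = k j₀ * E.v h := by
    rw [hQ, E.mul _ _ h0 hP0, E.prod _ _ (fun i _ => (hT i).1),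
      Finset.sum_congr rfl (fun i _ => (hT i).2.1), Finset.sum_const, Finset.card_univ,
      Fintype.card_fin, nsmul_eq_mul, hcard]
    ring
  have h3 : D.v (aeval u Q) = D.v h + ∑ i, D.v (aeval F.X (T i)) := by
    rw [hQ, D.mul _ _ h0 hP0, D.prod _ _ (fun i _ => (hT i).1)]
  have h4 : ((k j₀ : ℤ) - 1) * (-(q * (-E.v h))) ≤ ∑ i, (d : ℤ) * D.v (aeval F.X (T i)) := by
    have h5 : ∀ i, -(q * (-E.v h)) ≤ (d : ℤ) * D.v (aeval F.X (T i)) := by
      intro i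
      have h6 := v_ge hw F D q hq hq0 (T i) (hT i).1
      rwa [(hT i).2.2] at h6
    calc ((k j₀ : ℤ) - 1) * (-(q * (-E.v h))) = ∑ _i : Fin (k j₀ - 1), (-(q * (-E.v h))) := by
          rw [Finset.sum_const, Finset.card_univ, Fintype.card_fin, nsmul_eq_mul, hcard]
      _ ≤ _ := Finset.sum_le_sum fun i _ => h5 i
  have h6 : (d : ℤ) * ∑ l, (γ l : ℤ) * (D.v (F.X (j₀.succAbove l)) + eps F B D j₀) ≤
      (∑ l, (γ l : ℤ) * (a (j₀.succAbove l) : ℤ)) * (M - q) := by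
    rw [Finset.mul_sum, Finset.sum_mul]
    refine Finset.sum_le_sum fun l _ => ?_
    have h7 := hM (j₀.succAbove l) (Fin.succAbove_ne j₀ l)
    have h8 : (k (j₀.succAbove l) : ℤ) * (a (j₀.succAbove l) : ℤ) = d := by
      exact_mod_cast hw.ka (j₀.succAbove l)
    have h9 : (0 : ℤ) ≤ (γ l : ℤ) * (a (j₀.succAbove l) : ℤ) := by positivity
    calc (d : ℤ) * ((γ l : ℤ) * (D.v (F.X (j₀.succAbove l)) + eps F B D j₀)) =
        ((γ l : ℤ) * (a (j₀.succAbove l) : ℤ)) *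
          (k (j₀.succAbove l) * (D.v (F.X (j₀.succAbove l)) + eps F B D j₀)) := by
          rw [← h8]; ring
      _ ≤ _ := mul_le_mul_of_nonneg_left (by linarith) h9
  rw [hdeg, h2] at h6
  have h7 : (d : ℤ) * D.v (aeval u Q) ≤
      (d : ℤ) * ∑ l, (γ l : ℤ) * (D.v (F.X (j₀.succAbove l)) + eps F B D j₀) :=
    mul_le_mul_of_nonneg_left h1 (by positivity)
  rw [h3, mul_add, Finset.mul_sum] at h7
  have h8 : (-((k j₀ : ℤ) * E.v h)) * (M - q) - ((k j₀ : ℤ) - 1) * (-(q * (-E.v h))) =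
      (-E.v h) * (k j₀ * M - q) := by ring
  linarith

end Pool.Agent.FR
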