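import Pool.Agent.FR.Val

/-!
# The divisorial valuation of a prime whose local ring is a discrete valuation ring (project FR, N3)
-/

set_option autoImplicit false

namespace Pool.Agent.FR

open scoped Classical

variable {K : Type} [Field K] [Algebra ℂ K]

section OfPrime

variable (O : Subalgebra ℂ K) (p : Ideal O) [p.IsPrime]
  (hdvr : IsDiscreteValuationRing (Localization.AtPrime p))

/-- The order of an element of `O` at `p`. -/
noncomputable def opOrd (a : O) : ℕ :=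
  (IsDiscreteValuationRing.addVal (Localization.AtPrime p)
    (algebraMap O (Localization.AtPrime p) a)).toNat

omit hdvr in
theorem op_inj : Function.Injective (algebraMap O (Localization.AtPrime p)) :=
  IsLocalization.injective (Localization.AtPrime p) p.primeCompl_le_nonZeroDivisors

omit hdvr in
theorem op_ne {a : O} (ha : a ≠ 0) : algebraMap O (Localization.AtPrime p) a ≠ 0 := by
  intro h
  exact ha (op_inj O p (by rw [h, map_zero]))

include hdvr

theorem op_coe {a : O} (ha : a ≠ 0) : ((opOrd O p hdvr a : ℕ) : ℕ∞) =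
    IsDiscreteValuationRing.addVal (Localization.AtPrime p)
      (algebraMap O (Localization.AtPrime p) a) := by
  rw [opOrd, ENat.natCast_toNat]
  rw [Ne, IsDiscreteValuationRing.addVal_eq_top_iff]
  exact op_ne O p ha

theorem op_mul {a b : O} (ha : a ≠ 0) (hb : b ≠ 0) :
    opOrd O p hdvr (a * b) = opOrd O p hdvr a + opOrd O p hdvr b := by
  have h : ((opOrd O p hdvr (a * b) : ℕ) : ℕ∞) =
      ((opOrd O p hdvr a + opOrd O p hdvr b : ℕ) : ℕ∞) := by
    rw [Nat.cast_add, op_coe O p hdvr (mul_ne_zero ha hb), op_coe O p hdvr ha, op_coe O p hdvr hb,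
      map_mul, IsDiscreteValuationRing.addVal_mul]
  exact_mod_cast h

theorem op_add {a b : O} (ha : a ≠ 0) (hb : b ≠ 0) (hab : a + b ≠ 0) :
    min (opOrd O p hdvr a) (opOrd O p hdvr b) ≤ opOrd O p hdvr (a + b) := by
  have h := IsDiscreteValuationRing.addVal_add (R := Localization.AtPrime p)
    (a := algebraMap O (Localization.AtPrime p) a) (b := algebraMap O (Localization.AtPrime p) b)
  rw [← map_add, ← op_coe O p hdvr hab, ← op_coe O p hdvr ha, ← op_coe O p hdvr hb] at h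
  rcases min_le_iff.1 h with h1 | h1
  · exact (min_le_left _ _).trans (by exact_mod_cast h1)
  · exact (min_le_right _ _).trans (by exact_mod_cast h1)

theorem op_zero_iff {a : O} (ha : a ≠ 0) : opOrd O p hdvr a = 0 ↔ a ∉ p := by
  have h1 : opOrd O p hdvr a = 0 ↔ IsDiscreteValuationRing.addVal (Localization.AtPrime p)
      (algebraMap O (Localization.AtPrime p) a) = 0 := by
    rw [← op_coe O p hdvr ha]
    exact_mod_cast Iff.rfl
  rw [h1, IsDiscreteValuationRing.addVal_eq_zero_iff,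
    IsLocalization.AtPrime.isUnit_to_map_iff (Localization.AtPrime p) p a]
  exact Iff.rfl

theorem op_le {a b : O} (ha : a ≠ 0) (hb : b ≠ 0) (h : opOrd O p hdvr b ≤ opOrd O p hdvr a) :
    ∃ c t : O, t ∉ p ∧ a * t = c * b := by
  have h1 : IsDiscreteValuationRing.addVal (Localization.AtPrime p)
      (algebraMap O (Localization.AtPrime p) b) ≤
      IsDiscreteValuationRing.addVal (Localization.AtPrime p)
      (algebraMap O (Localization.AtPrime p) a) := by
    rw [← op_coe O p hdvr ha, ← op_coe O p hdvr hb]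
    exact_mod_cast h
  rw [IsDiscreteValuationRing.addVal_le_iff_dvd] at h1
  obtain ⟨r, hr⟩ := h1
  obtain ⟨c, t, rfl⟩ := IsLocalization.exists_mk'_eq p.primeCompl r
  refine ⟨c, t, t.2, op_inj O p ?_⟩
  rw [map_mul, map_mul, hr, mul_assoc, IsLocalization.mk'_spec, mul_comm]

theorem op_unif : ∃ a : O, a ≠ 0 ∧ opOrd O p hdvr a = 1 := by
  obtain ⟨ϖ, hϖ⟩ := IsDiscreteValuationRing.exists_irreducible (Localization.AtPrime p)
  obtain ⟨a, t, hat⟩ := IsLocalization.exists_mk'_eq p.primeCompl ϖ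
  have h1 : ϖ * algebraMap O (Localization.AtPrime p) t =
      algebraMap O (Localization.AtPrime p) a := by
    rw [← hat]
    exact IsLocalization.mk'_spec _ _ _
  have ht : IsUnit (algebraMap O (Localization.AtPrime p) t) :=
    (IsLocalization.AtPrime.isUnit_to_map_iff (Localization.AtPrime p) p t).2 t.2
  have ha : a ≠ 0 := by
    rintro rfl
    rw [map_zero] at h1
    rcases mul_eq_zero.1 h1 with h2 | h2
    · exact hϖ.ne_zero h2
    · exact ht.ne_zero h2
  refine ⟨a, ha, ?_⟩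
  have h2 : ((opOrd O p hdvr a : ℕ) : ℕ∞) = ((1 : ℕ) : ℕ∞) := by
    rw [op_coe O p hdvr ha, ← h1, IsDiscreteValuationRing.addVal_mul,
      IsDiscreteValuationRing.addVal_uniformizer hϖ,
      IsDiscreteValuationRing.addVal_eq_zero_iff.2 ht, add_zero]
    rfl
  exact_mod_cast h2

theorem op_wd {a b c d : O} (ha : a ≠ 0) (hb : b ≠ 0) (hc : c ≠ 0) (hd : d ≠ 0)
    (h : (a : K) / b = (c : K) / d) :
    (opOrd O p hdvr a : ℤ) - opOrd O p hdvr b = opOrd O p hdvr c - opOrd O p hdvr d := by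
  have hb' : (b : K) ≠ 0 := fun h => hb (Subtype.ext h)
  have hd' : (d : K) ≠ 0 := fun h => hd (Subtype.ext h)
  rw [div_eq_div_iff hb' hd'] at h
  have h1 : a * d = c * b := Subtype.ext h
  have h2 := congrArg (opOrd O p hdvr) h1
  rw [op_mul O p hdvr ha hd, op_mul O p hdvr hc hb] at h2
  omega

/-- The value of an element of `K`, through a chosen fraction. -/
noncomputable def opVal (hfrac : ∀ x : K, ∃ a b : O, b ≠ 0 ∧ x = (a : K) / b) (x : K) : ℤ :=
  if x = 0 then 0 else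
    (opOrd O p hdvr (hfrac x).choose : ℤ) - opOrd O p hdvr (hfrac x).choose_spec.choose

theorem opVal_zero (hfrac : ∀ x : K, ∃ a b : O, b ≠ 0 ∧ x = (a : K) / b) :
    opVal O p hdvr hfrac 0 = 0 := by
  rw [opVal, if_pos rfl]

theorem opVal_div (hfrac : ∀ x : K, ∃ a b : O, b ≠ 0 ∧ x = (a : K) / b) {a b : O} (ha : a ≠ 0)
    (hb : b ≠ 0) : opVal O p hdvr hfrac ((a : K) / b) = (opOrd O p hdvr a : ℤ) - opOrd O p hdvr b := by
  have ha' : (a : K) ≠ 0 := fun h => ha (Subtype.ext h)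
  have hb' : (b : K) ≠ 0 := fun h => hb (Subtype.ext h)
  have hx : (a : K) / b ≠ 0 := div_ne_zero ha' hb'
  rw [opVal, if_neg hx]
  have hspec := (hfrac ((a : K) / b)).choose_spec.choose_spec
  have h1 : (hfrac ((a : K) / b)).choose ≠ 0 := by
    intro h0
    exact hx (hspec.2.trans (div_eq_zero_iff.2 (Or.inl (congrArg Subtype.val h0))))
  exact op_wd O p hdvr h1 hspec.1 ha hb hspec.2.symm

omit hdvr in
theorem op_frac (hfrac : ∀ x : K, ∃ a b : O, b ≠ 0 ∧ x = (a : K) / b) {x : K} (hx : x ≠ 0) :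
    ∃ a b : O, a ≠ 0 ∧ b ≠ 0 ∧ x = (a : K) / b := by
  obtain ⟨a, b, hb, h⟩ := hfrac x
  refine ⟨a, b, ?_, hb, h⟩
  rintro rfl
  exact hx (by rw [h, ZeroMemClass.coe_zero, zero_div])

theorem opVal_coe (hfrac : ∀ x : K, ∃ a b : O, b ≠ 0 ∧ x = (a : K) / b) {a : O} (ha : a ≠ 0) :
    opVal O p hdvr hfrac (a : K) = opOrd O p hdvr a := by
  have h1 : (1 : O) ∉ p := fun h => ‹p.IsPrime›.ne_top ((Ideal.eq_top_iff_one p).2 h)
  have h := opVal_div O p hdvr hfrac ha (one_ne_zero (α := O))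
  rw [OneMemClass.coe_one, div_one, (op_zero_iff O p hdvr one_ne_zero).2 h1] at h
  rw [h]
  simp

theorem opVal_mul (hfrac : ∀ x : K, ∃ a b : O, b ≠ 0 ∧ x = (a : K) / b) (x y : K) (hx : x ≠ 0)
    (hy : y ≠ 0) :
    opVal O p hdvr hfrac (x * y) = opVal O p hdvr hfrac x + opVal O p hdvr hfrac y := by
  obtain ⟨a, b, ha, hb, rfl⟩ := op_frac O hfrac hx
  obtain ⟨c, d, hc, hd, rfl⟩ := op_frac O hfrac hy
  have h : (a : K) / b * (c / d) = ((a * c : O) : K) / ((b * d : O) : K) := by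
    rw [div_mul_div_comm]
    rfl
  rw [h, opVal_div O p hdvr hfrac (mul_ne_zero ha hc) (mul_ne_zero hb hd),
    opVal_div O p hdvr hfrac ha hb, opVal_div O p hdvr hfrac hc hd, op_mul O p hdvr ha hc,
    op_mul O p hdvr hb hd]
  push_cast
  ring

theorem opVal_add (hfrac : ∀ x : K, ∃ a b : O, b ≠ 0 ∧ x = (a : K) / b) (x y : K) (hx : x ≠ 0)
    (hy : y ≠ 0) (hxy : x + y ≠ 0) :
    min (opVal O p hdvr hfrac x) (opVal O p hdvr hfrac y) ≤ opVal O p hdvr hfrac (x + y) := by
  obtain ⟨a, b, ha, hb, rfl⟩ := op_frac O hfrac hx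
  obtain ⟨c, d, hc, hd, rfl⟩ := op_frac O hfrac hy
  have hb' : (b : K) ≠ 0 := fun h => hb (Subtype.ext h)
  have hd' : (d : K) ≠ 0 := fun h => hd (Subtype.ext h)
  have h : (a : K) / b + c / d = ((a * d + b * c : O) : K) / ((b * d : O) : K) := by
    rw [div_add_div _ _ hb' hd']
    rfl
  have hn : a * d + b * c ≠ 0 := by
    intro h0
    apply hxy
    rw [h, h0, ZeroMemClass.coe_zero, zero_div]
  have h2 := op_add O p hdvr (mul_ne_zero ha hd) (mul_ne_zero hb hc) hn
  rw [op_mul O p hdvr ha hd, op_mul O p hdvr hb hc] at h2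
  rw [h, opVal_div O p hdvr hfrac hn (mul_ne_zero hb hd),
    opVal_div O p hdvr hfrac ha hb, opVal_div O p hdvr hfrac hc hd, op_mul O p hdvr hb hd]
  rcases min_le_iff.1 h2 with h3 | h3
  · apply min_le_iff.2
    left
    push_cast
    omega
  · apply min_le_iff.2
    right
    push_cast
    omega

theorem opVal_nonneg_iff (hfrac : ∀ x : K, ∃ a b : O, b ≠ 0 ∧ x = (a : K) / b) (x : K)
    (hx : x ≠ 0) : 0 ≤ opVal O p hdvr hfrac x ↔ ∃ a b : O, b ∉ p ∧ x = (a : K) / b := by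
  constructor
  · intro h
    obtain ⟨a, b, ha, hb, rfl⟩ := op_frac O hfrac hx
    rw [opVal_div O p hdvr hfrac ha hb] at h
    obtain ⟨c, t, ht, hct⟩ := op_le O p hdvr ha hb (by omega)
    have hb' : (b : K) ≠ 0 := fun h => hb (Subtype.ext h)
    have ht0 : t ≠ 0 := by
      rintro rfl
      exact ht p.zero_mem
    have ht' : (t : K) ≠ 0 := fun h => ht0 (Subtype.ext h)
    refine ⟨c, t, ht, ?_⟩
    rw [div_eq_div_iff hb' ht']
    exact congrArg Subtype.val hct
  · rintro ⟨a, b, hb, rfl⟩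
    have hb0 : b ≠ 0 := by
      rintro rfl
      exact hb p.zero_mem
    have ha0 : a ≠ 0 := by
      rintro rfl
      exact hx (by rw [ZeroMemClass.coe_zero, zero_div])
    rw [opVal_div O p hdvr hfrac ha0 hb0, (op_zero_iff O p hdvr hb0).2 hb]
    simp

/-- The divisorial valuation of a prime whose local ring is a discrete valuation ring. -/
theorem exists_dval
    (hfrac : ∀ x : K, ∃ a b : O, b ≠ 0 ∧ x = (a : K) / b)
    (s : Finset K) (hs : Algebra.adjoin ℂ (s : Set K) ≤ O)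
    (hloc : ∀ x ∈ O, ∃ a ∈ Algebra.adjoin ℂ (s : Set K), ∃ b ∈ Algebra.adjoin ℂ (s : Set K),
      b ≠ 0 ∧ b⁻¹ ∈ O ∧ x = a / b) :
    ∃ D : DVal K, ∀ x : K, x ≠ 0 → (0 ≤ D.v x ↔ ∃ a b : O, b ∉ p ∧ x = (a : K) / b) := by
  have hO : ∀ x ∈ O, x ≠ 0 → 0 ≤ opVal O p hdvr hfrac x := by
    intro x hx h0
    rw [opVal_coe O p hdvr hfrac (a := ⟨x, hx⟩) (fun h => h0 (congrArg Subtype.val h))]
    exact Int.natCast_nonneg _
  have hone : opVal O p hdvr hfrac 1 = 0 := by
    have h := opVal_mul O p hdvr hfrac 1 1 one_ne_zero one_ne_zero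
    rw [mul_one] at h
    omega
  have hunit : ∀ x ∈ O, x ≠ 0 → x⁻¹ ∈ O → opVal O p hdvr hfrac x = 0 := by
    intro x hx h0 hi
    have h1 := hO x hx h0
    have h2 := hO _ hi (inv_ne_zero h0)
    have h3 := opVal_mul O p hdvr hfrac x x⁻¹ h0 (inv_ne_zero h0)
    rw [mul_inv_cancel₀ h0, hone] at h3
    omega
  refine ⟨⟨opVal O p hdvr hfrac, opVal_zero O p hdvr hfrac, opVal_mul O p hdvr hfrac,
    opVal_add O p hdvr hfrac, ?_, ?_, s, ?_, ?_⟩, opVal_nonneg_iff O p hdvr hfrac⟩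
  · intro c hc
    have h1 : algebraMap ℂ K c ≠ 0 := by rwa [Ne, map_eq_zero]
    refine hunit _ (O.algebraMap_mem c) h1 ?_
    rw [← map_inv₀]
    exact O.algebraMap_mem _
  · obtain ⟨a, ha, ha1⟩ := op_unif O p hdvr
    refine ⟨a, fun h => ha (Subtype.ext h), ?_⟩
    rw [opVal_coe O p hdvr hfrac ha, ha1]
    rfl
  · intro x hx h0
    exact hO x (hs hx) h0
  · intro x hx hv
    obtain ⟨a, b, hb, hab⟩ := (opVal_nonneg_iff O p hdvr hfrac x hx).1 hv
    have hb0 : b ≠ 0 := by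
      rintro rfl
      exact hb p.zero_mem
    obtain ⟨a1, ha1, a2, ha2, ha20, ha2i, ha⟩ := hloc a a.2
    obtain ⟨b1, hb1, b2, hb2, hb20, hb2i, hb'⟩ := hloc b b.2
    have hbK : (b : K) ≠ 0 := fun h => hb0 (Subtype.ext h)
    have hb10 : b1 ≠ 0 := by
      rintro rfl
      exact hbK (by rw [hb', zero_div])
    refine ⟨a1 * b2, mul_mem ha1 hb2, a2 * b1, mul_mem ha2 hb1, mul_ne_zero ha20 hb10, ?_, ?_⟩
    · have h1 : opVal O p hdvr hfrac b1 = opVal O p hdvr hfrac b + opVal O p hdvr hfrac b2 := by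
        rw [← opVal_mul O p hdvr hfrac _ _ hbK hb20, hb']
        congr 1
        field_simp
      rw [opVal_mul O p hdvr hfrac _ _ ha20 hb10, h1, hunit a2 (hs ha2) ha20 ha2i,
        hunit b2 (hs hb2) hb20 hb2i, opVal_coe O p hdvr hfrac hb0,
        (op_zero_iff O p hdvr hb0).2 hb]
      rfl
    · rw [hab, ha, hb']
      field_simp

end OfPrime

end Pool.Agent.FR
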