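import Pool.Agent.FR.Loc
import Pool.Agent.FR.Krull
import Pool.Agent.FR.OfPrime
import Pool.Agent.FR.Noeth

/-!
# Poles of functions which are not regular (project FR, N5)
-/

set_option autoImplicit false

namespace Pool.Agent.FR

variable {K : Type} [Field K] [Algebra ℂ K]

theorem pl_mem {N : ℕ} (g : Fin (N + 1) → K) (hg : ∀ i, g i ≠ 0) (V : ValuationSubring K)
    (hV : IsPlace V) (x : K) : x ∈ locAlg g hg V hV ↔ x ∈ locRing g V := Iff.rfl

/-- A function which is not regular at the centre of `V` has a pole along a prime divisor through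
the centre of `V`. -/
theorem exists_pole (Y : Model (⊤ : IntermediateField ℂ K)) (V : ValuationSubring K)
    (hV : IsPlace V) (x : K) (hx : x ∉ locRing Y.g V) : ∃ D, Through Y V D ∧ D.v x < 0 := by
  classical
  set O : Subalgebra ℂ K := locAlg Y.g Y.ne V hV with hO
  have hmem : ∀ y : K, y ∈ O ↔ y ∈ locRing Y.g V := fun y => Iff.rfl
  have : IsNoetherianRing O := locAlg_noetherian Y.g Y.ne V hV
  have hfrac : ∀ y : K, ∃ a b : O, b ≠ 0 ∧ y = (a : K) / b := by
    intro y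
    obtain ⟨a, ha, b, hb, hb0, hy⟩ := locRing_frac Y V hV y
    exact ⟨⟨a, ha⟩, ⟨b, hb⟩, fun h => hb0 (congrArg Subtype.val h), hy⟩
  have : IsFractionRing O K := IsFractionRing.of_field O K fun z => by
    obtain ⟨a, b, -, h⟩ := hfrac z
    exact ⟨a, b, h⟩
  have : IsIntegrallyClosed O := by
    rw [isIntegrallyClosed_iff K]
    rintro y ⟨p, hp, hpy⟩
    have h1 : y ∈ locRing Y.g V := by
      refine Y.normal V hV y (by simp) ⟨p.map (algebraMap O K), hp.map _, fun i => ?_, ?_⟩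
      · rw [Polynomial.coeff_map]
        exact (p.coeff i).2
      · rw [Polynomial.eval_map]
        exact hpy
    exact ⟨⟨y, h1⟩, rfl⟩
  obtain ⟨p, hp, hdvr, hx'⟩ := krull_dvr (R := O) (K := K) x (by
    rintro ⟨y, hy⟩
    exact hx (hy ▸ y.2))
  have := hp
  obtain ⟨i, hi⟩ := exists_min Y.g Y.ne V
  have hiO : ∀ y ∈ chart Y.g i, y ∈ O := by
    intro y hy
    rw [hmem, locRing_eq Y.g Y.ne V hV i hi]
    exact ⟨y, hy, 1, one_mem _, one_ne_zero, by rw [inv_one]; exact one_mem _, by rw [div_one]⟩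
  have hcs : ((Finset.univ.image fun j => Y.g j / Y.g i : Finset K) : Set K) =
      Set.range fun j => Y.g j / Y.g i := by
    simp
  have hloc : ∀ y ∈ O, ∃ a ∈ chart Y.g i, ∃ b ∈ chart Y.g i, b ≠ 0 ∧ b⁻¹ ∈ O ∧ y = a / b := by
    intro y hy
    rw [hmem, locRing_eq Y.g Y.ne V hV i hi] at hy
    obtain ⟨a, ha, b, hb, hb0, hbV, hy⟩ := hy
    exact ⟨a, ha, b, hb, hb0, locRing_inv Y.g Y.ne V hV b (hiO b hb) hb0 hbV, hy⟩
  obtain ⟨D, hD⟩ := exists_dval O p hdvr hfrac (Finset.univ.image fun j => Y.g j / Y.g i)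
    (by rw [hcs]; exact fun y hy => hiO y hy) (by rw [hcs]; exact hloc)
  have h1p : (1 : O) ∉ p := fun h => hp.ne_top ((Ideal.eq_top_iff_one p).2 h)
  have hOD : ∀ y ∈ O, y ∈ D.ring := by
    intro y hy
    by_cases h0 : y = 0
    · rw [h0]; exact zero_mem _
    rw [D.mem_ring']
    exact (hD y h0).2 ⟨⟨y, hy⟩, 1, h1p, by simp⟩
  have hx0 : x ≠ 0 := by
    rintro rfl
    exact hx ((hmem 0).1 (zero_mem O))
  refine ⟨D, ⟨?_, fun y hy => hOD y hy⟩, ?_⟩
  · -- `D` is a prime divisor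
    have hiD : ∀ j, Y.g j / Y.g i ∈ D.ring := fun j =>
      hOD _ (hiO _ (Algebra.subset_adjoin ⟨j, rfl⟩))
    apply Set.Subset.antisymm
    · intro y hy
      rw [locRing_eq Y.g Y.ne D.ring D.isPlace i hiD]
      by_cases h0 : y = 0
      · exact ⟨0, zero_mem _, 1, one_mem _, one_ne_zero, by rw [inv_one]; exact one_mem _,
          by rw [h0, zero_div]⟩
      obtain ⟨a, b, hb, hab⟩ := (hD y h0).1 (D.mem_ring'.1 hy)
      have hb0 : (b : K) ≠ 0 := by
        intro h
        exact hb (by rw [show b = 0 from Subtype.ext h]; exact p.zero_mem)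
      have hbinv : (b : K)⁻¹ ∈ D.ring := by
        rw [D.mem_ring']
        exact (hD _ (inv_ne_zero hb0)).2 ⟨1, b, hb, by simp⟩
      obtain ⟨a1, ha1, a2, ha2, ha20, ha2i, ha⟩ := hloc a a.2
      obtain ⟨b1, hb1, b2, hb2, hb20, hb2i, hb'⟩ := hloc b b.2
      have hb10 : b1 ≠ 0 := by
        rintro rfl
        exact hb0 (by rw [hb', zero_div])
      refine ⟨a1 * b2, mul_mem ha1 hb2, a2 * b1, mul_mem ha2 hb1, mul_ne_zero ha20 hb10, ?_, ?_⟩
      · have h2 : (a2 * b1)⁻¹ = a2⁻¹ * ((b : K)⁻¹ * b2⁻¹) := by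
          rw [hb']
          field_simp
        rw [h2]
        exact mul_mem (hOD _ ha2i) (mul_mem hbinv (hOD _ hb2i))
      · rw [hab, ha, hb']
        field_simp
    · intro y hy
      exact locRing_le Y.g D.ring D.isPlace y hy
  · by_contra h
    push Not at h
    obtain ⟨a, b, hb, hab⟩ := (hD x hx0).1 h
    exact hx' a b hb hab

end Pool.Agent.FR
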