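import Pool.Agent.FR.SBase
import Pool.Agent.K1.BDomIff
import Pool.Agent.K1.AffineFacts

/-!
Project FR, block S (bridge to schemes), part S1a: local rings of an integral scheme as subrings
of the function field, centres of valuation rings, uniqueness and existence of centres for closed
subschemes of projective space (helper3).
-/

set_option autoImplicit false

open AlgebraicGeometry CategoryTheory Pool.Agent.K1

namespace Pool.Agent.FR.S

section general

variable {X : Scheme.{0}} [IsIntegral X]

theorem mem_loc {x : X} {f : X.functionField} :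
    f ∈ loc x ↔ ∃ a : X.presheaf.stalk x, algebraMap (X.presheaf.stalk x) X.functionField a = f :=
  Iff.rfl

theorem s1_inj (x : X) :
    Function.Injective (algebraMap (X.presheaf.stalk x) X.functionField) :=
  IsFractionRing.injective (X.presheaf.stalk x) X.functionField

theorem s1_ne_zero {x : X} {a : X.presheaf.stalk x} :
    algebraMap (X.presheaf.stalk x) X.functionField a ≠ 0 ↔ a ≠ 0 :=
  map_ne_zero_iff _ (s1_inj x)

theorem IsCentre.mem {V : ValuationSubring X.functionField} {x : X} (h : IsCentre V x)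
    {f : X.functionField} (hf : f ∈ loc x) : f ∈ V := by
  obtain ⟨a, rfl⟩ := hf
  exact (h a).1

/-- An element of the local ring at the centre which is a unit of the valuation ring has its
inverse in the local ring. -/
theorem IsCentre.inv_mem {V : ValuationSubring X.functionField} {x : X} (h : IsCentre V x)
    {f : X.functionField} (hf : f ∈ loc x) (h0 : f ≠ 0) (hi : f⁻¹ ∈ V) : f⁻¹ ∈ loc x := by
  obtain ⟨a, rfl⟩ := hf
  obtain ⟨b, hb⟩ := ((h a).2 (s1_ne_zero.1 h0) hi).exists_right_inv
  refine ⟨b, ?_⟩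
  have h1 := congrArg (algebraMap (X.presheaf.stalk x) X.functionField) hb
  rw [map_mul, map_one] at h1
  exact (inv_eq_of_mul_eq_one_right h1).symm

/-- A unit of the local ring, seen in the function field. -/
theorem s1_isUnit_iff {x : X} (a : X.presheaf.stalk x) : IsUnit a ↔
    algebraMap (X.presheaf.stalk x) X.functionField a ≠ 0 ∧
      (algebraMap (X.presheaf.stalk x) X.functionField a)⁻¹ ∈ loc x := by
  constructor
  · intro h
    obtain ⟨b, hb⟩ := h.exists_right_inv
    have h1 := congrArg (algebraMap (X.presheaf.stalk x) X.functionField) hb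
    rw [map_mul, map_one] at h1
    refine ⟨left_ne_zero_of_mul_eq_one h1, b, ?_⟩
    exact (inv_eq_of_mul_eq_one_right h1).symm
  · rintro ⟨h0, b, hb⟩
    have h1 : a * b = 1 := by
      apply s1_inj x
      rw [map_mul, map_one, hb, mul_inv_cancel₀ h0]
    exact IsUnit.of_mul_eq_one b h1

/-- `IsCentre` in terms of `loc` only. -/
theorem isCentre_iff {V : ValuationSubring X.functionField} {x : X} :
    IsCentre V x ↔ ∀ f ∈ loc x, f ∈ V ∧ (f ≠ 0 → f⁻¹ ∈ V → f⁻¹ ∈ loc x) := by
  constructor
  · intro h f hf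
    exact ⟨h.mem hf, fun h0 hi => h.inv_mem hf h0 hi⟩
  · intro h a
    obtain ⟨h1, h2⟩ := h _ ⟨a, rfl⟩
    refine ⟨h1, fun h0 hi => ?_⟩
    exact (s1_isUnit_iff a).2 ⟨s1_ne_zero.2 h0, h2 (s1_ne_zero.2 h0) hi⟩

/-- Two points with the same local ring have the same places. -/
theorem IsCentre.congr {V : ValuationSubring X.functionField} {x y : X} (h : IsCentre V x)
    (hxy : loc x = loc y) : IsCentre V y := by
  rw [isCentre_iff] at h ⊢
  rw [← hxy]
  exact h

theorem s1_germ {U : X.Opens} (hη : genericPoint X ∈ U) {x : X} (hx : x ∈ U) (a : Γ(X, U)) :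
    algebraMap (X.presheaf.stalk x) X.functionField ((X.presheaf.germ U x hx).hom a) =
      (X.presheaf.germ U (genericPoint X) hη).hom a := by
  have hne : Nonempty U := ⟨⟨_, hη⟩⟩
  exact Scheme.algebraMap_germ_eq_germToFunctionField X hx a

/-- The generic point is in every nonempty open set. -/
theorem s1_generic_mem {U : X.Opens} {x : X} (hx : x ∈ U) : genericPoint X ∈ U :=
  ((genericPoint_spec X).mem_open_set_iff U.isOpen).2 ⟨x, trivial, hx⟩

theorem s1_mem_loc_iff {U : X.Opens} (hU : IsAffineOpen U) (hη : genericPoint X ∈ U) {x : X}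
    (hx : x ∈ U) (f : X.functionField) : f ∈ loc x ↔ ∃ a s : Γ(X, U),
      IsUnit ((X.presheaf.germ U x hx).hom s) ∧
      f * (X.presheaf.germ U (genericPoint X) hη).hom s =
        (X.presheaf.germ U (genericPoint X) hη).hom a := by
  constructor
  · rintro ⟨b, rfl⟩
    obtain ⟨a, s, hs, hb⟩ := bdom_stalk_quot U hU hx b
    refine ⟨a, s, hs, ?_⟩
    rw [← s1_germ hη hx s, ← s1_germ hη hx a, ← hb, map_mul]
  · rintro ⟨a, s, hs, hf⟩
    obtain ⟨t, ht⟩ := hs.exists_right_inv
    refine ⟨(X.presheaf.germ U x hx).hom a * t, ?_⟩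
    have h1 := congrArg (algebraMap (X.presheaf.stalk x) X.functionField) ht
    rw [map_mul, map_one, s1_germ hη] at h1
    rw [map_mul, s1_germ hη, ← hf, mul_assoc, h1, mul_one]

/-- The centre on an affine open set. -/
theorem s1_exists_centre_affine {U : X.Opens} (hU : IsAffineOpen U) (hη : genericPoint X ∈ U)
    (V : ValuationSubring X.functionField)
    (hV : ∀ a, (X.presheaf.germ U (genericPoint X) hη).hom a ∈ V) :
    ∃ x ∈ U, IsCentre V x := by
  let φ : Γ(X, U) →+* V := (X.presheaf.germ U (genericPoint X) hη).hom.codRestrict V.toSubring hV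
  have hφ : ∀ a, ((φ a : V) : X.functionField) =
      (X.presheaf.germ U (genericPoint X) hη).hom a := fun a => rfl
  let P : PrimeSpectrum Γ(X, U) := ⟨(IsLocalRing.maximalIdeal V).comap φ, inferInstance⟩
  have hm : hU.fromSpec P ∈ U := af_mem hU P
  have hunit : ∀ s : Γ(X, U), IsUnit ((X.presheaf.germ U (hU.fromSpec P) hm).hom s) ↔
      IsUnit (φ s) := by
    intro s
    rw [af_germ_unit hU P hm s]
    change ¬ (φ s ∈ IsLocalRing.maximalIdeal V) ↔ _
    rw [IsLocalRing.mem_maximalIdeal, mem_nonunits_iff, not_not]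
  have hinvV : ∀ s : Γ(X, U), IsUnit (φ s) →
      ((X.presheaf.germ U (genericPoint X) hη).hom s)⁻¹ ∈ V ∧
      (X.presheaf.germ U (genericPoint X) hη).hom s ≠ 0 := by
    intro s hs
    obtain ⟨b, hb⟩ := hs.exists_right_inv
    have h1 := congrArg (fun z : V => (z : X.functionField)) hb
    change (φ s : X.functionField) * (b : X.functionField) = 1 at h1
    rw [hφ] at h1
    refine ⟨?_, left_ne_zero_of_mul_eq_one h1⟩
    rw [inv_eq_of_mul_eq_one_right h1]
    exact b.2
  refine ⟨hU.fromSpec P, hm, ?_⟩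
  rw [isCentre_iff]
  intro f hf
  obtain ⟨a, s, hs, hfs⟩ := (s1_mem_loc_iff hU hη hm f).1 hf
  obtain ⟨h1, h2⟩ := hinvV s ((hunit s).1 hs)
  have h3 : f = (X.presheaf.germ U (genericPoint X) hη).hom a *
      ((X.presheaf.germ U (genericPoint X) hη).hom s)⁻¹ := by
    rw [← hfs, mul_assoc, mul_inv_cancel₀ h2, mul_one]
  refine ⟨?_, ?_⟩
  · rw [h3]
    exact V.mul_mem _ _ (hV a) h1
  · intro hf0 hfi
    have ha0 : (X.presheaf.germ U (genericPoint X) hη).hom a ≠ 0 := by
      rw [← hfs]
      exact mul_ne_zero hf0 h2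
    have h4 : ((X.presheaf.germ U (genericPoint X) hη).hom a)⁻¹ ∈ V := by
      have h5 : ((X.presheaf.germ U (genericPoint X) hη).hom a)⁻¹ =
          f⁻¹ * ((X.presheaf.germ U (genericPoint X) hη).hom s)⁻¹ := by
        rw [← hfs, mul_inv]
      rw [h5]
      exact V.mul_mem _ _ hfi h1
    have hua : IsUnit (φ a) := by
      refine IsUnit.of_mul_eq_one (⟨_, h4⟩ : V) (Subtype.ext ?_)
      exact mul_inv_cancel₀ ha0
    apply (s1_mem_loc_iff hU hη hm f⁻¹).2
    refine ⟨s, a, (hunit a).2 hua, ?_⟩
    rw [← hfs, ← mul_assoc, inv_mul_cancel₀ hf0, one_mul]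

/-- In an affine open set points are determined by their local rings. -/
theorem s1_specializes {U : X.Opens} (hU : IsAffineOpen U) {y z : X}
    (hy : y ∈ U) (hz : z ∈ U) (h : loc z ≤ loc y) : y ⤳ z := by
  have hη := s1_generic_mem hy
  rw [specializes_iff_chart U hU hz hy]
  intro a ha
  rw [af_eval_eq_zero] at ha ⊢
  intro h1
  apply ha
  rw [s1_isUnit_iff, s1_germ hη] at h1 ⊢
  exact ⟨h1.1, h h1.2⟩

theorem s1_loc_mono {y z : X} (h : y ⤳ z) : loc z ≤ loc y := by
  rintro _ ⟨a, rfl⟩
  exact ⟨(X.presheaf.stalkSpecializes h).hom a, bdom_algebraMap h a⟩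

/-- Every point is the centre of a valuation ring. -/
theorem exists_isCentre (x : X) : ∃ V : ValuationSubring X.functionField, IsCentre V x := by
  obtain ⟨V, hV, hloc⟩ := IsLocalRing.exists_factor_valuationRing
    (algebraMap (X.presheaf.stalk x) X.functionField)
  refine ⟨V, fun a => ⟨hV a, fun h0 hi => ?_⟩⟩
  have h1 : IsUnit ((algebraMap (X.presheaf.stalk x) X.functionField).codRestrict
      V.toSubring hV a) := by
    refine IsUnit.of_mul_eq_one (⟨_, hi⟩ : V) (Subtype.ext ?_)
    exact mul_inv_cancel₀ (s1_ne_zero.2 h0)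
  exact hloc.map_nonunit a h1

end general

section embed

variable {k : Type} [Field k] {X : Scheme.{0}} [IsIntegral X] {n : ℕ} (E : Embed k X n)

include E

/-- The scalars are in every local ring. -/
theorem s1_kf_mem (x : X) (c : k) : E.kf c ∈ loc x := by
  refine ⟨(X.presheaf.germ ⊤ x trivial).hom (E.str c), ?_⟩
  exact s1_germ (U := ⊤) trivial (x := x) trivial (E.str c)

theorem s1_kf_mem_of_centre {V : ValuationSubring X.functionField} {x : X} (h : IsCentre V x)
    (c : k) : E.kf c ∈ V := h.mem (s1_kf_mem E x c)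

/-- The coordinate function `w j`. -/
theorem s1_l_single (j : Fin (n + 1)) : E.l (Pi.single j 1) = E.w j := by
  rw [EmbedData.l, Finset.sum_eq_single j]
  · simp
  · intro b _ hb
    simp [hb]
  · simp

theorem s1_l_ne_zero {d : Fin (n + 1) → k} {y : X} (hy : y ∈ E.U d) : E.l d ≠ 0 := by
  intro h0
  have h1 := E.empty d h0
  rw [h1] at hy
  exact hy

/-- The sections over a chart, as a subring of the function field. -/
theorem s1_chart_mem {c : Fin (n + 1) → k} (h : genericPoint X ∈ E.U c)
    {V : ValuationSubring X.functionField} (hk : ∀ a, E.kf a ∈ V)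
    (hw : ∀ j, E.w j / E.l c ∈ V) (a : Γ(X, E.U c)) :
    (X.presheaf.germ (E.U c) (genericPoint X) h).hom a ∈ V := by
  have h1 : (X.presheaf.germ (E.U c) (genericPoint X) h).hom a ∈
      Set.range (X.presheaf.germ (E.U c) (genericPoint X) h).hom := ⟨a, rfl⟩
  rw [E.sections c h] at h1
  have h2 : Subring.closure (Set.range E.kf ∪ Set.range (fun j => E.w j / E.l c)) ≤
      V.toSubring := by
    rw [Subring.closure_le]
    rintro _ (⟨a, rfl⟩ | ⟨j, rfl⟩)
    · exact hk a
    · exact hw j
  exact h2 h1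

/-- Domination forces the chart: if `x` is the centre of `V` and `l d / l c` is in `V` for some
`d` with `x ∈ U d`, then `x` is in `U c`. -/
theorem s1_mem_chart {V : ValuationSubring X.functionField} {x : X} (hx : IsCentre V x)
    {c d : Fin (n + 1) → k} (hd : x ∈ E.U d) (hc : E.l c ≠ 0) (h : E.l d / E.l c ∈ V) :
    x ∈ E.U c := by
  obtain ⟨a, ha, hau⟩ := E.stalk c d x hd
  have hld := s1_l_ne_zero E hd
  have h1 : algebraMap (X.presheaf.stalk x) X.functionField a = E.l c / E.l d :=
    eq_div_of_mul_eq hld ha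
  apply hau.1
  apply (hx a).2
  · rw [← s1_ne_zero, h1]
    exact div_ne_zero hc hld
  · rw [h1, inv_div]
    exact h

/-- The ratios of linear forms are in the local ring. -/
theorem s1_ratio_mem {x : X} {c d : Fin (n + 1) → k} (hd : x ∈ E.U d) :
    E.l c / E.l d ∈ loc x := by
  obtain ⟨a, ha, -⟩ := E.stalk c d x hd
  exact ⟨a, eq_div_of_mul_eq (s1_l_ne_zero E hd) ha⟩

/-- `y` specialises to `z` iff the local ring at `z` is contained in the one at `y`. -/
theorem specializes_iff_loc {y z : X} : y ⤳ z ↔ loc z ≤ loc y := by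
  constructor
  · exact s1_loc_mono
  · intro h
    obtain ⟨j, hj⟩ := E.cover z
    obtain ⟨i, hi⟩ := E.cover y
    have hlj := s1_l_ne_zero E hj
    have hli := s1_l_ne_zero E hi
    have hy : y ∈ E.U (Pi.single j 1) := by
      obtain ⟨a, ha, hau⟩ := E.stalk (Pi.single j 1) (Pi.single i 1) y hi
      have h1 : algebraMap (X.presheaf.stalk y) X.functionField a =
          E.l (Pi.single j 1) / E.l (Pi.single i 1) := eq_div_of_mul_eq hli ha
      apply hau.1
      rw [s1_isUnit_iff, h1]
      refine ⟨div_ne_zero hlj hli, ?_⟩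
      rw [inv_div]
      exact h (s1_ratio_mem E hj)
    exact s1_specializes (E.affine _ hlj).1 hy hj h

theorem eq_of_loc_eq {y z : X} (h : loc y = loc z) : y = z :=
  (((specializes_iff_loc E).2 h.ge).antisymm ((specializes_iff_loc E).2 h.le)).eq

/-- The centre is unique. -/
theorem centre_unique' {V : ValuationSubring X.functionField} {x y : X} (hx : IsCentre V x)
    (hy : IsCentre V y) : x = y := by
  obtain ⟨j, hj⟩ := E.cover x
  obtain ⟨i, hi⟩ := E.cover y
  have hlj := s1_l_ne_zero E hj
  have hli := s1_l_ne_zero E hi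
  have hxi : x ∈ E.U (Pi.single i 1) :=
    s1_mem_chart E hx hj hli (hy.mem (s1_ratio_mem E hi))
  have hU := (E.affine _ hli).1
  have hη := s1_generic_mem hi
  have key : ∀ {x y : X}, IsCentre V x → IsCentre V y → x ∈ E.U (Pi.single i 1) →
      y ∈ E.U (Pi.single i 1) → loc x ≤ loc y := by
    intro x y hx hy hxi hyi f hf
    obtain ⟨a, s, hs, hfs⟩ := (s1_mem_loc_iff hU hη hxi f).1 hf
    apply (s1_mem_loc_iff hU hη hyi f).2
    refine ⟨a, s, ?_, hfs⟩
    rw [s1_isUnit_iff, s1_germ hη] at hs ⊢
    refine ⟨hs.1, hy.inv_mem ?_ hs.1 (hx.mem hs.2)⟩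
    rw [← s1_germ hη hyi]
    exact ⟨_, rfl⟩
  exact eq_of_loc_eq E (le_antisymm (key hx hy hxi hi) (key hy hx hi hxi))

/-- Some coordinate is nonzero, and has minimal value. -/
theorem s1_exists_index (V : ValuationSubring X.functionField) :
    ∃ j, E.w j ≠ 0 ∧ ∀ i, E.w i / E.w j ∈ V := by
  classical
  obtain ⟨j₀, hj₀⟩ := E.cover (genericPoint X)
  obtain ⟨j, -, hj⟩ := (Finset.univ : Finset (Fin (n + 1))).exists_max_image
    (fun j => V.valuation (E.w j)) ⟨j₀, Finset.mem_univ _⟩
  have h0 : E.w j₀ ≠ 0 := by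
    rw [← s1_l_single]
    exact s1_l_ne_zero E hj₀
  have hj0 : E.w j ≠ 0 := by
    intro h
    have h1 := hj j₀ (Finset.mem_univ _)
    rw [h, map_zero, le_zero_iff, Valuation.zero_iff] at h1
    exact h0 h1
  refine ⟨j, hj0, fun i => ?_⟩
  rw [← V.valuation_le_one_iff, map_div₀]
  exact div_le_one_of_le₀ (hj i (Finset.mem_univ _)) zero_le

/-- The centre of a place, in any chart where the coordinates are in the valuation ring. -/
theorem exists_centre_chart (V : ValuationSubring X.functionField) (hk : ∀ a, E.kf a ∈ V)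
    (j : Fin (n + 1)) (hj : E.w j ≠ 0) (hw : ∀ i, E.w i / E.w j ∈ V) :
    ∃ x ∈ E.U (Pi.single j 1), IsCentre V x := by
  rw [← s1_l_single] at hj
  obtain ⟨hU, hη⟩ := E.affine _ hj
  refine s1_exists_centre_affine hU hη V (s1_chart_mem E hη hk fun i => ?_)
  rw [s1_l_single]
  exact hw i

/-- Every place has a centre. -/
theorem exists_centre' (V : ValuationSubring X.functionField) (hk : ∀ a, E.kf a ∈ V) :
    ∃ x : X, IsCentre V x := by
  obtain ⟨j, hj, hw⟩ := s1_exists_index E V
  obtain ⟨x, -, hx⟩ := exists_centre_chart E V hk j hj hw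
  exact ⟨x, hx⟩

end embed

end Pool.Agent.FR.S
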