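import Pool.Agent.FR.S1a
import Pool.Agent.FR.Val

/-!
Project FR, block S (bridge to schemes), part S1b: the local rings of a closed subscheme of
projective space are the rings `locRing g V` of the engine (helper3).
-/

set_option autoImplicit false

open AlgebraicGeometry CategoryTheory Pool.Agent.K1

namespace Pool.Agent.FR.S

section transport

variable {K K' : Type} [Field K] [Field K'] [Algebra ℂ K] [Algebra ℂ K']

theorem s1_mem_adjoin_map {N : ℕ} (g : Fin (N + 1) → K) (i : Fin (N + 1)) (φ : K →ₐ[ℂ] K')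
    {a : K} : φ a ∈ Algebra.adjoin ℂ (Set.range fun j => φ (g j) / φ (g i)) ↔
      a ∈ Algebra.adjoin ℂ (Set.range fun j => g j / g i) := by
  have h1 : (Set.range fun j => φ (g j) / φ (g i)) = φ '' (Set.range fun j => g j / g i) := by
    rw [← Set.range_comp]
    congr 1
    funext j
    simp
  rw [h1, ← AlgHom.map_adjoin, Subalgebra.mem_map]
  constructor
  · rintro ⟨b, hb, hba⟩
    rwa [← φ.toRingHom.injective hba]
  · intro h
    exact ⟨a, h, rfl⟩

theorem s1_adjoin_map {N : ℕ} (g : Fin (N + 1) → K) (i : Fin (N + 1)) (φ : K →ₐ[ℂ] K')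
    {b : K'} (hb : b ∈ Algebra.adjoin ℂ (Set.range fun j => φ (g j) / φ (g i))) :
    ∃ a ∈ Algebra.adjoin ℂ (Set.range fun j => g j / g i), φ a = b := by
  have h1 : (Set.range fun j => φ (g j) / φ (g i)) = φ '' (Set.range fun j => g j / g i) := by
    rw [← Set.range_comp]
    congr 1
    funext j
    simp
  rw [h1, ← AlgHom.map_adjoin, Subalgebra.mem_map] at hb
  exact hb

/-- Local rings and homomorphisms of function fields. -/
theorem locRing_map {N : ℕ} (g : Fin (N + 1) → K) (φ : K →ₐ[ℂ] K') (V : ValuationSubring K') :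
    locRing (fun j => φ (g j)) V = φ '' locRing g (V.comap (φ : K →+* K')) := by
  ext x
  constructor
  · rintro ⟨i, hi, a, ha, b, hb, hb0, hbi, rfl⟩
    obtain ⟨a, ha', rfl⟩ := s1_adjoin_map g i φ ha
    obtain ⟨b, hb', rfl⟩ := s1_adjoin_map g i φ hb
    refine ⟨a / b, ⟨i, ?_, a, ha', b, hb', ?_, ?_, rfl⟩, map_div₀ φ a b⟩
    · intro j
      rw [ValuationSubring.mem_comap]
      have := hi j
      simpa using this
    · rintro rfl
      exact hb0 (map_zero φ)
    · rw [ValuationSubring.mem_comap]
      simpa using hbi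
  · rintro ⟨_, ⟨i, hi, a, ha, b, hb, hb0, hbi, rfl⟩, rfl⟩
    refine ⟨i, ?_, φ a, (s1_mem_adjoin_map g i φ).2 ha, φ b, (s1_mem_adjoin_map g i φ).2 hb, ?_, ?_,
      map_div₀ φ a b⟩
    · intro j
      have := hi j
      rw [ValuationSubring.mem_comap] at this
      simpa using this
    · intro h
      exact hb0 ((map_eq_zero φ).1 h)
    · rw [ValuationSubring.mem_comap] at hbi
      simpa using hbi

end transport

section coord

variable {X : Scheme.{0}} [IsIntegral X] {n : ℕ}

/-- The family `g` consists of the nonzero homogeneous coordinates. -/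
structure IsCoord {N : ℕ} (E : Embed ℂ X n) (g : Fin (N + 1) → X.functionField) : Prop where
  ne : ∀ j, g j ≠ 0
  mem : ∀ j, ∃ i, g j = E.w i
  surj : ∀ i, E.w i ≠ 0 → ∃ j, g j = E.w i

theorem exists_isCoord (E : Embed ℂ X n) :
    ∃ (N : ℕ) (g : Fin (N + 1) → X.functionField), IsCoord E g := by
  classical
  obtain ⟨j₀, hj₀⟩ := E.cover (genericPoint X)
  have h0 : E.w j₀ ≠ 0 := by
    rw [← s1_l_single]
    exact s1_l_ne_zero E hj₀
  have hne : Nonempty {i // E.w i ≠ 0} := ⟨⟨j₀, h0⟩⟩
  obtain ⟨N, hN⟩ := Nat.exists_eq_succ_of_ne_zero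
    (Fintype.card_ne_zero : Fintype.card {i // E.w i ≠ 0} ≠ 0)
  let e : Fin (N + 1) ≃ {i // E.w i ≠ 0} := (Fintype.equivFinOfCardEq hN).symm
  refine ⟨N, fun j => E.w (e j).1, fun j => (e j).2, fun j => ⟨_, rfl⟩, fun i hi => ?_⟩
  exact ⟨e.symm ⟨i, hi⟩, by simp⟩

variable {N : ℕ} {g : Fin (N + 1) → X.functionField} {E : Embed ℂ X n}
  [Algebra ℂ X.functionField]

/-- The affine charts. -/
theorem s1_adjoin_eq (hk : ∀ c : ℂ, algebraMap ℂ X.functionField c = E.kf c) (hg : IsCoord E g)
    {i : Fin (N + 1)} {i' : Fin (n + 1)} (hi : g i = E.w i')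
    (hη : genericPoint X ∈ E.U (Pi.single i' 1)) :
    (Algebra.adjoin ℂ (Set.range fun j => g j / g i) : Set X.functionField) =
      Set.range (X.presheaf.germ (E.U (Pi.single i' 1)) (genericPoint X) hη).hom := by
  rw [E.sections _ hη, s1_l_single, ← hi]
  have hk' : Set.range (algebraMap ℂ X.functionField) = Set.range E.kf := by
    congr 1
    funext c
    exact hk c
  have h1 : ((Algebra.adjoin ℂ (Set.range fun j => g j / g i)).toSubring :
      Set X.functionField) = (Subring.closure (Set.range E.kf ∪ Set.range fun j => g j / g i) :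
      Set X.functionField) := by
    rw [Algebra.adjoin_eq_ring_closure, hk']
  refine Eq.trans h1 ?_
  congr 1
  apply le_antisymm
  · rw [Subring.closure_le]
    rintro _ (h | ⟨j, rfl⟩)
    · exact Subring.subset_closure (Or.inl h)
    · obtain ⟨m, hm⟩ := hg.mem j
      exact Subring.subset_closure (Or.inr ⟨m, by simp [hm]⟩)
  · rw [Subring.closure_le]
    rintro _ (h | ⟨j, rfl⟩)
    · exact Subring.subset_closure (Or.inl h)
    · by_cases hj : E.w j = 0
      · simp only [hj, zero_div]
        exact Subring.zero_mem _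
      · obtain ⟨m, hm⟩ := hg.surj j hj
        exact Subring.subset_closure (Or.inr ⟨m, by simp [hm]⟩)

theorem s1_isPlace (hk : ∀ c : ℂ, algebraMap ℂ X.functionField c = E.kf c)
    {V : ValuationSubring X.functionField} : IsPlace V ↔ ∀ c, E.kf c ∈ V := by
  constructor
  · intro h c
    rw [← hk]
    exact h c
  · intro h c
    rw [hk]
    exact h c

theorem s1_isPlace_of_centre (hk : ∀ c : ℂ, algebraMap ℂ X.functionField c = E.kf c)
    {V : ValuationSubring X.functionField} {x : X} (h : IsCentre V x) : IsPlace V :=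
  (s1_isPlace hk).2 fun c => s1_kf_mem_of_centre E h c

/-- (S1) (a): every place has exactly one centre. -/
theorem exists_unique_centre (hk : ∀ c : ℂ, algebraMap ℂ X.functionField c = E.kf c)
    {V : ValuationSubring X.functionField} (hV : IsPlace V) : ∃! x : X, IsCentre V x := by
  obtain ⟨x, hx⟩ := exists_centre' E V ((s1_isPlace hk).1 hV)
  exact ⟨x, hx, fun y hy => centre_unique' E hy hx⟩

/-- (S1) (c): every point is the centre of a place. -/
theorem exists_place_centre (hk : ∀ c : ℂ, algebraMap ℂ X.functionField c = E.kf c) (x : X) :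
    ∃ V : ValuationSubring X.functionField, IsPlace V ∧ IsCentre V x := by
  obtain ⟨V, hV⟩ := exists_isCentre x
  exact ⟨V, s1_isPlace_of_centre hk hV, hV⟩

/-- (S1) (b): the local ring at the centre of `V` is the ring `locRing g V` of the engine. -/
theorem loc_eq_locRing (hk : ∀ c : ℂ, algebraMap ℂ X.functionField c = E.kf c)
    (hg : IsCoord E g) {V : ValuationSubring X.functionField} {x : X} (hx : IsCentre V x) :
    (loc x : Set X.functionField) = locRing g V := by
  have hkV : ∀ a, E.kf a ∈ V := fun c => s1_kf_mem_of_centre E hx c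
  ext f
  constructor
  · intro hf
    obtain ⟨j, hj0, hj⟩ := s1_exists_index E V
    obtain ⟨x', hx'U, hx'⟩ := exists_centre_chart E V hkV j hj0 hj
    rw [← centre_unique' E hx hx'] at hx'U
    have hη := s1_generic_mem hx'U
    have hU := (E.affine _ (s1_l_ne_zero E hx'U)).1
    obtain ⟨a, s, hs, hfs⟩ := (s1_mem_loc_iff hU hη hx'U f).1 hf
    obtain ⟨i, hi⟩ := hg.surj j hj0
    rw [s1_isUnit_iff, s1_germ hη] at hs
    refine ⟨i, ?_, _, ?_, _, ?_, hs.1, hx.mem hs.2, eq_div_of_mul_eq hs.1 hfs⟩
    · intro m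
      obtain ⟨m', hm'⟩ := hg.mem m
      rw [hm', hi]
      exact hj m'
    · have h1 := s1_adjoin_eq hk hg hi hη
      change _ ∈ (Algebra.adjoin ℂ (Set.range fun j => g j / g i) : Set X.functionField)
      rw [h1]
      exact ⟨a, rfl⟩
    · have h1 := s1_adjoin_eq hk hg hi hη
      change _ ∈ (Algebra.adjoin ℂ (Set.range fun j => g j / g i) : Set X.functionField)
      rw [h1]
      exact ⟨s, rfl⟩
  · rintro ⟨i, hi, a, ha, b, hb, hb0, hbi, rfl⟩
    obtain ⟨j, hj⟩ := hg.mem i
    have hj0 : E.w j ≠ 0 := by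
      rw [← hj]
      exact hg.ne i
    have hw : ∀ m, E.w m / E.w j ∈ V := by
      intro m
      by_cases hm : E.w m = 0
      · rw [hm, zero_div]
        exact V.zero_mem
      · obtain ⟨m', hm'⟩ := hg.surj m hm
        rw [← hm', ← hj]
        exact hi m'
    obtain ⟨x', hx'U, hx'⟩ := exists_centre_chart E V hkV j hj0 hw
    rw [← centre_unique' E hx hx'] at hx'U
    have hη := s1_generic_mem hx'U
    have h1 := s1_adjoin_eq hk hg hj hη
    have ha' : a ∈ Set.range (X.presheaf.germ (E.U (Pi.single j 1)) (genericPoint X) hη).hom := by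
      rw [← h1]; exact ha
    have hb' : b ∈ Set.range (X.presheaf.germ (E.U (Pi.single j 1)) (genericPoint X) hη).hom := by
      rw [← h1]; exact hb
    have hmem : ∀ c ∈ Set.range
        (X.presheaf.germ (E.U (Pi.single j 1)) (genericPoint X) hη).hom, c ∈ loc x := by
      rintro _ ⟨c, rfl⟩
      rw [← s1_germ hη hx'U]
      exact ⟨_, rfl⟩
    rw [div_eq_mul_inv]
    exact (loc x).mul_mem (hmem a ha') (hx.inv_mem (hmem b hb') hb0 hbi)

/-- The function field is generated by the ratios of the coordinates. -/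
theorem s1_frac (hk : ∀ c : ℂ, algebraMap ℂ X.functionField c = E.kf c) (hg : IsCoord E g)
    (i : Fin (N + 1)) (f : X.functionField) :
    ∃ a ∈ Algebra.adjoin ℂ (Set.range fun j => g j / g i),
      ∃ b ∈ Algebra.adjoin ℂ (Set.range fun j => g j / g i), b ≠ 0 ∧ f = a / b := by
  obtain ⟨j, hj⟩ := hg.mem i
  have hj0 : E.l (Pi.single j 1) ≠ 0 := by
    rw [s1_l_single, ← hj]
    exact hg.ne i
  obtain ⟨hU, hη⟩ := E.affine _ hj0
  have hne : Nonempty (E.U (Pi.single j 1)) := ⟨⟨_, hη⟩⟩
  have hfr : IsFractionRing Γ(X, E.U (Pi.single j 1)) X.functionField :=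
    functionField_isFractionRing_of_isAffineOpen X _ hU
  obtain ⟨a, b, hb, rfl⟩ := IsFractionRing.div_surjective (A := Γ(X, E.U (Pi.single j 1))) f
  have h1 := s1_adjoin_eq hk hg hj hη
  have hmem : ∀ c : Γ(X, E.U (Pi.single j 1)), algebraMap _ X.functionField c ∈
      Algebra.adjoin ℂ (Set.range fun j => g j / g i) := by
    intro c
    change _ ∈ (Algebra.adjoin ℂ (Set.range fun j => g j / g i) : Set X.functionField)
    rw [h1]
    exact ⟨c, rfl⟩
  refine ⟨_, hmem a, _, hmem b, ?_, rfl⟩
  exact IsFractionRing.to_map_ne_zero_of_mem_nonZeroDivisors hb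

end coord

/-- An element of the function field which is integral over an integrally closed local ring. -/
theorem s1_integral {X : Scheme.{0}} [IsIntegral X] {x : X}
    (hn : IsIntegrallyClosed (X.presheaf.stalk x)) {f : X.functionField}
    (p : Polynomial X.functionField) (hp : p.Monic) (hc : ∀ i, p.coeff i ∈ loc x)
    (h0 : p.eval f = 0) : f ∈ loc x := by
  have h1 : p ∈ Polynomial.lifts (algebraMap (X.presheaf.stalk x) X.functionField) := by
    rw [Polynomial.lifts_iff_coeff_lifts]
    intro i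
    exact hc i
  obtain ⟨q, hq, -, hqm⟩ := Polynomial.lifts_and_degree_eq_and_monic h1 hp
  have h2 : IsIntegral (X.presheaf.stalk x) f := by
    refine ⟨q, hqm, ?_⟩
    rw [Polynomial.eval₂_eq_eval_map, hq]
    exact h0
  obtain ⟨a, ha⟩ := IsIntegrallyClosed.isIntegral_iff.1 h2
  exact ⟨a, ha⟩

section model

variable {X : Scheme.{0}} [IsIntegral X] {n : ℕ} {N : ℕ} {g : Fin (N + 1) → X.functionField}
  {E : Embed ℂ X n} [Algebra ℂ X.functionField]

/-- (S1) (f): the model of the function field defined by a normal closed subscheme of projective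
space. -/
noncomputable def schemeModel (hk : ∀ c : ℂ, algebraMap ℂ X.functionField c = E.kf c)
    (hg : IsCoord E g) (hn : ∀ x : X, IsIntegrallyClosed (X.presheaf.stalk x)) :
    Model (⊤ : IntermediateField ℂ X.functionField) where
  N := N
  g := g
  ne := hg.ne
  mem _ := IntermediateField.mem_top
  frac x _ := s1_frac hk hg 0 x
  normal V hV f _ := by
    rintro ⟨p, hp, hc, h0⟩
    obtain ⟨x, hx, -⟩ := exists_unique_centre hk hV
    have h1 := loc_eq_locRing hk hg hx
    rw [← h1]
    refine s1_integral (hn x) p hp ?_ h0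
    intro i
    have h2 := hc i
    rw [← h1] at h2
    exact h2

/-- The local rings of the model. -/
theorem schemeModel_loc (hk : ∀ c : ℂ, algebraMap ℂ X.functionField c = E.kf c)
    (hg : IsCoord E g) (hn : ∀ x : X, IsIntegrallyClosed (X.presheaf.stalk x))
    {V : ValuationSubring X.functionField} {x : X} (hx : IsCentre V x) :
    locRing (schemeModel hk hg hn).g V = loc x := (loc_eq_locRing hk hg hx).symm

end model

end Pool.Agent.FR.S
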