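import Pool.Agent.FR.S1b
import Pool.Agent.K1.DCentre

/-!
Project FR, block S (bridge to schemes), part S1c: the points of codimension one of a normal closed
subscheme of projective space are the prime divisors of the engine (helper3).
-/

set_option autoImplicit false

open AlgebraicGeometry CategoryTheory Pool.Agent.K1

namespace Pool.Agent.FR.S

section dvr

variable {X : Scheme.{0}} [IsIntegral X] [IsLocallyNoetherian X] {x : X}

/-- The local ring at a normal point of codimension one. -/
theorem s1_dvr (hx : Order.coheight x = 1) (hn : IsIntegrallyClosed (X.presheaf.stalk x)) :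
    IsDiscreteValuationRing (X.presheaf.stalk x) := by
  have hK : Ring.KrullDimLE 1 (X.presheaf.stalk x) := krullDimLE_of_coheight_le hx.le
  have hf : ¬ IsField (X.presheaf.stalk x) := by
    intro h
    have h1 := ringKrullDim_eq_zero_of_isField h
    rw [ringKrullDim_stalk_eq_coheight, hx] at h1
    exact absurd h1 (by norm_num)
  have h2 := (tfae_of_isNoetherianRing_of_isLocalRing_of_isDomain (X.presheaf.stalk x)).out 3 0
  have h3 : IsPrincipalIdealRing (X.presheaf.stalk x) := by
    apply h2.1
    refine ⟨hn, fun P hP hPp => ?_⟩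
    exact IsLocalRing.eq_maximalIdeal (Ring.krullDimLE_one_iff_of_noZeroDivisors.1 hK P hP hPp)
  exact { not_a_field' := fun h => hf (IsLocalRing.isField_iff_maximalIdeal_eq.2 h) }

theorem s1_reg (hx : Order.coheight x = 1) (hn : IsIntegrallyClosed (X.presheaf.stalk x)) :
    IsRegularLocalRing (X.presheaf.stalk x) := by
  have := s1_dvr hx hn
  infer_instance

omit [IsLocallyNoetherian X] in
/-- A point whose local ring is a discrete valuation ring has codimension one. -/
theorem s1_coheight (h : IsDiscreteValuationRing (X.presheaf.stalk x)) :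
    Order.coheight x = 1 := by
  have h1 := IsDiscreteValuationRing.ringKrullDim_eq_one (X.presheaf.stalk x)
  rw [ringKrullDim_stalk_eq_coheight] at h1
  exact_mod_cast h1

/-- The elements of the local ring at a point of codimension one. -/
theorem s1_mem_loc_ord (hx : Order.coheight x = 1) (hn : IsIntegrallyClosed (X.presheaf.stalk x))
    {f : X.functionField} (hf : f ≠ 0) : f ∈ loc x ↔ 0 ≤ X.ord f x := by
  constructor
  · rintro ⟨a, rfl⟩
    exact dcen_ord_nonneg hx a (s1_ne_zero.1 hf)
  · intro h
    exact af_mem_stalk (s1_reg hx hn) hx f hf h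

end dvr

/-- Closed subschemes of projective space are locally noetherian. -/
theorem s1_locallyNoetherian {k : Type} [Field k] {X : Scheme.{0}} [IsIntegral X] {n : ℕ}
    (E : Embed k X n) : IsLocallyNoetherian X := by
  have haff : ∀ x : X, ∃ c, x ∈ E.U c ∧ IsAffineOpen (E.U c) ∧ genericPoint X ∈ E.U c := by
    intro x
    obtain ⟨j, hj⟩ := E.cover x
    exact ⟨_, hj, E.affine _ (s1_l_ne_zero E hj)⟩
  choose c hc using haff
  have hS : (⨆ x : X, ((⟨E.U (c x), (hc x).2.1⟩ : X.affineOpens) : X.Opens)) = ⊤ := by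
    rw [eq_top_iff]
    intro x _
    rw [TopologicalSpace.Opens.mem_iSup]
    exact ⟨x, (hc x).1⟩
  refine isLocallyNoetherian_of_affine_cover hS fun x => ?_
  let _ := (E.strOn (E.U (c x))).toAlgebra
  have hft : Algebra.FiniteType k Γ(X, E.U (c x)) := af_finiteType E (c x) (hc x).2.2
  exact Algebra.FiniteType.isNoetherianRing k Γ(X, E.U (c x))

section point

variable {X : Scheme.{0}} [IsIntegral X] [IsLocallyNoetherian X] {n : ℕ} {N : ℕ}
  {g : Fin (N + 1) → X.functionField} {E : Embed ℂ X n} [Algebra ℂ X.functionField]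

theorem s1_ord_const (hk : ∀ c : ℂ, algebraMap ℂ X.functionField c = E.kf c) {x : X}
    (hx : Order.coheight x = 1) (c : ℂ) (hc : c ≠ 0) :
    X.ord (algebraMap ℂ X.functionField c) x = 0 := by
  have h1 : algebraMap (X.presheaf.stalk x) X.functionField
      ((X.presheaf.germ ⊤ x trivial).hom (E.str c)) = E.kf c :=
    s1_germ (U := ⊤) trivial (x := x) trivial (E.str c)
  rw [hk, ← h1]
  refine dcen_ord_unit hx _ ?_
  exact ((isUnit_iff_ne_zero.2 hc).map E.str).map (X.presheaf.germ ⊤ x trivial).hom

theorem s1_ord_fin (hk : ∀ c : ℂ, algebraMap ℂ X.functionField c = E.kf c) {x : X}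
    (hx : Order.coheight x = 1) (hn : IsIntegrallyClosed (X.presheaf.stalk x)) :
    ∃ s : Finset X.functionField,
      (∀ f ∈ Algebra.adjoin ℂ (s : Set X.functionField), f ≠ 0 → 0 ≤ X.ord f x) ∧
      ∀ f : X.functionField, f ≠ 0 → 0 ≤ X.ord f x →
        ∃ a ∈ Algebra.adjoin ℂ (s : Set X.functionField),
        ∃ b ∈ Algebra.adjoin ℂ (s : Set X.functionField), b ≠ 0 ∧ X.ord b x = 0 ∧ f = a / b := by
  classical
  obtain ⟨N, g, hg⟩ := exists_isCoord E
  obtain ⟨j, hj⟩ := E.cover x
  have hη := s1_generic_mem hj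
  have hU := (E.affine _ (s1_l_ne_zero E hj)).1
  have hj0 : E.w j ≠ 0 := by
    rw [← s1_l_single]
    exact s1_l_ne_zero E hj
  obtain ⟨i, hi⟩ := hg.surj j hj0
  have h1 := s1_adjoin_eq hk hg hi hη
  refine ⟨Finset.univ.image fun m => g m / g i, ?_, ?_⟩
  · rw [Finset.coe_image, Finset.coe_univ, Set.image_univ]
    intro f hf hf0
    have hf' : f ∈ Set.range (X.presheaf.germ (E.U (Pi.single j 1)) (genericPoint X) hη).hom := by
      rw [← h1]; exact hf
    obtain ⟨a, rfl⟩ := hf'
    rw [← s1_mem_loc_ord hx hn hf0, ← s1_germ hη hj]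
    exact ⟨_, rfl⟩
  · rw [Finset.coe_image, Finset.coe_univ, Set.image_univ]
    intro f hf0 hf
    rw [← s1_mem_loc_ord hx hn hf0] at hf
    obtain ⟨a, s, hs, hfs⟩ := (s1_mem_loc_iff hU hη hj f).1 hf
    have hs' := hs
    rw [s1_isUnit_iff, s1_germ hη] at hs'
    have hmem : ∀ c, (X.presheaf.germ (E.U (Pi.single j 1)) (genericPoint X) hη).hom c ∈
        Algebra.adjoin ℂ (Set.range fun m => g m / g i) := by
      intro c
      change _ ∈ (Algebra.adjoin ℂ (Set.range fun j => g j / g i) : Set X.functionField)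
      rw [h1]
      exact ⟨c, rfl⟩
    refine ⟨_, hmem a, _, hmem s, hs'.1, ?_, eq_div_of_mul_eq hs'.1 hfs⟩
    rw [← s1_germ hη hj]
    exact dcen_ord_unit hx _ hs

/-- (S1) (d): the divisorial valuation of a point of codimension one. -/
noncomputable def ptD (hk : ∀ c : ℂ, algebraMap ℂ X.functionField c = E.kf c) {x : X}
    (hx : Order.coheight x = 1) (hn : IsIntegrallyClosed (X.presheaf.stalk x)) :
    DVal X.functionField where
  v f := X.ord f x
  zero := by rw [Scheme.ord_zero]; rfl
  mul _ _ hf hg := Scheme.ord_mul hf hg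
  add f g _ _ hfg := by
    have := s1_dvr hx hn
    exact Scheme.ord_add hfg
  const := s1_ord_const hk hx
  unif := by
    have := s1_dvr hx hn
    obtain ⟨t, ht⟩ := IsDiscreteValuationRing.exists_irreducible (X.presheaf.stalk x)
    exact ⟨_, s1_ne_zero.2 ht.ne_zero, dcen_ord_irreducible hx (s1_reg hx hn) t ht⟩
  fin := s1_ord_fin hk hx hn

theorem ptD_v (hk : ∀ c : ℂ, algebraMap ℂ X.functionField c = E.kf c) {x : X}
    (hx : Order.coheight x = 1) (hn : IsIntegrallyClosed (X.presheaf.stalk x))
    (f : X.functionField) : (ptD hk hx hn).v f = X.ord f x := rfl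

theorem ptD_mem_ring (hk : ∀ c : ℂ, algebraMap ℂ X.functionField c = E.kf c) {x : X}
    (hx : Order.coheight x = 1) (hn : IsIntegrallyClosed (X.presheaf.stalk x))
    {f : X.functionField} : f ∈ (ptD hk hx hn).ring ↔ f ∈ loc x := by
  by_cases hf : f = 0
  · subst hf
    exact ⟨fun _ => Subring.zero_mem _, fun _ => (ptD hk hx hn).ring.zero_mem⟩
  · rw [s1_mem_loc_ord hx hn hf, DVal.mem_ring', ptD_v]

theorem ptD_ring (hk : ∀ c : ℂ, algebraMap ℂ X.functionField c = E.kf c) {x : X}
    (hx : Order.coheight x = 1) (hn : IsIntegrallyClosed (X.presheaf.stalk x)) :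
    ((ptD hk hx hn).ring : Set X.functionField) = loc x :=
  Set.ext fun _ => ptD_mem_ring hk hx hn

theorem ptD_isCentre (hk : ∀ c : ℂ, algebraMap ℂ X.functionField c = E.kf c) {x : X}
    (hx : Order.coheight x = 1) (hn : IsIntegrallyClosed (X.presheaf.stalk x)) :
    IsCentre (ptD hk hx hn).ring x := by
  rw [isCentre_iff]
  intro f hf
  exact ⟨(ptD_mem_ring hk hx hn).2 hf, fun _ hi => (ptD_mem_ring hk hx hn).1 hi⟩

omit [IsLocallyNoetherian X] in
/-- A place which is the local ring at its centre. -/
theorem s1_isPrimeDiv_iff (hk : ∀ c : ℂ, algebraMap ℂ X.functionField c = E.kf c)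
    (hg : IsCoord E g) (hn : ∀ x : X, IsIntegrallyClosed (X.presheaf.stalk x))
    {D : DVal X.functionField} {x : X} (hx : IsCentre D.ring x) :
    IsPrimeDiv (schemeModel hk hg hn) D ↔ (D.ring : Set X.functionField) = loc x := by
  rw [IsPrimeDiv, schemeModel_loc hk hg hn hx]

theorem ptD_isPrimeDiv (hk : ∀ c : ℂ, algebraMap ℂ X.functionField c = E.kf c)
    (hg : IsCoord E g) (hn : ∀ x : X, IsIntegrallyClosed (X.presheaf.stalk x)) {x : X}
    (hx : Order.coheight x = 1) :
    IsPrimeDiv (schemeModel hk hg hn) (ptD hk hx (hn x)) := by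
  rw [s1_isPrimeDiv_iff hk hg hn (ptD_isCentre hk hx (hn x)), ptD_ring]

/-- If the local ring at `x` is the ring of a divisorial valuation, then `x` has codimension
one. -/
theorem s1_coheight_of_loc {D : DVal X.functionField} {x : X}
    (h : (D.ring : Set X.functionField) = loc x) : Order.coheight x = 1 := by
  have hmem : ∀ f, f ∈ loc x ↔ 0 ≤ D.v f := by
    intro f
    rw [← D.mem_ring']
    change f ∈ (loc x : Set X.functionField) ↔ _
    rw [← h]
    rfl
  obtain ⟨π, hπ, hπ1⟩ := D.unif
  have hf : ¬ IsField (X.presheaf.stalk x) := by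
    intro hfield
    obtain ⟨a, ha⟩ := (hmem π).2 (by omega)
    have ha0 : a ≠ 0 := by
      rintro rfl
      rw [map_zero] at ha
      exact hπ ha.symm
    obtain ⟨b, hb⟩ := hfield.mul_inv_cancel ha0
    have h1 := congrArg (algebraMap (X.presheaf.stalk x) X.functionField) hb
    rw [map_mul, map_one, ha] at h1
    have h2 : π⁻¹ ∈ loc x := ⟨b, (inv_eq_of_mul_eq_one_right h1).symm⟩
    rw [hmem, D.inv hπ] at h2
    omega
  have hv : ValuationRing (X.presheaf.stalk x) := by
    rw [ValuationRing.iff_isInteger_or_isInteger _ X.functionField]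
    intro f
    by_cases h0 : f = 0
    · left
      exact ⟨0, by rw [map_zero, h0]⟩
    · rcases le_total 0 (D.v f) with h1 | h1
      · left
        exact (hmem f).2 h1
      · right
        apply (hmem f⁻¹).2
        rw [D.inv h0]
        omega
  exact s1_coheight (((IsDiscreteValuationRing.TFAE (X.presheaf.stalk x) hf).out 1 0).1 hv)

/-- Every prime divisor of the model is a point of codimension one. -/
theorem exists_point (hk : ∀ c : ℂ, algebraMap ℂ X.functionField c = E.kf c)
    (hg : IsCoord E g) (hn : ∀ x : X, IsIntegrallyClosed (X.presheaf.stalk x))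
    {D : DVal X.functionField} (hD : IsPrimeDiv (schemeModel hk hg hn) D) :
    ∃ (x : X) (hx : Order.coheight x = 1), ptD hk hx (hn x) = D := by
  obtain ⟨x, hx, -⟩ := exists_unique_centre hk D.isPlace
  rw [s1_isPrimeDiv_iff hk hg hn hx] at hD
  have hco := s1_coheight_of_loc hD
  refine ⟨x, hco, DVal.eq_of_ring_le ?_⟩
  rw [ptD_ring, hD]

theorem isPrimeDiv_iff_exists (hk : ∀ c : ℂ, algebraMap ℂ X.functionField c = E.kf c)
    (hg : IsCoord E g) (hn : ∀ x : X, IsIntegrallyClosed (X.presheaf.stalk x))
    {D : DVal X.functionField} : IsPrimeDiv (schemeModel hk hg hn) D ↔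
      ∃ (x : X) (hx : Order.coheight x = 1), D = ptD hk hx (hn x) := by
  constructor
  · intro h
    obtain ⟨x, hx, hD⟩ := exists_point hk hg hn h
    exact ⟨x, hx, hD.symm⟩
  · rintro ⟨x, hx, rfl⟩
    exact ptD_isPrimeDiv hk hg hn hx

/-- The point of codimension one is determined by its valuation. -/
theorem ptD_inj (hk : ∀ c : ℂ, algebraMap ℂ X.functionField c = E.kf c) {x y : X}
    (hx : Order.coheight x = 1) (hnx : IsIntegrallyClosed (X.presheaf.stalk x))
    (hy : Order.coheight y = 1) (hny : IsIntegrallyClosed (X.presheaf.stalk y)) :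
    ptD hk hx hnx = ptD hk hy hny ↔ x = y := by
  constructor
  · intro h
    apply eq_of_loc_eq E
    apply SetLike.coe_injective
    rw [← ptD_ring hk hx hnx, ← ptD_ring hk hy hny, h]
  · rintro rfl
    rfl

/-- The prime divisors through a point. -/
theorem through_ptD_iff (hk : ∀ c : ℂ, algebraMap ℂ X.functionField c = E.kf c)
    (hg : IsCoord E g) (hn : ∀ x : X, IsIntegrallyClosed (X.presheaf.stalk x)) {x z : X}
    (hx : Order.coheight x = 1) {V : ValuationSubring X.functionField} (hz : IsCentre V z) :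
    Through (schemeModel hk hg hn) V (ptD hk hx (hn x)) ↔ x ⤳ z := by
  rw [Through, schemeModel_loc hk hg hn hz, ptD_ring, specializes_iff_loc E]
  exact ⟨fun h => h.2, fun h => ⟨ptD_isPrimeDiv hk hg hn hx, h⟩⟩

/-- Statements about all the prime divisors through a point. -/
theorem forall_through (hk : ∀ c : ℂ, algebraMap ℂ X.functionField c = E.kf c)
    (hg : IsCoord E g) (hn : ∀ x : X, IsIntegrallyClosed (X.presheaf.stalk x)) {z : X}
    {V : ValuationSubring X.functionField} (hz : IsCentre V z)
    (P : DVal X.functionField → Prop) :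
    (∀ D, Through (schemeModel hk hg hn) V D → P D) ↔
      ∀ (x : X) (hx : Order.coheight x = 1), x ⤳ z → P (ptD hk hx (hn x)) := by
  constructor
  · intro h x hx hxz
    exact h _ ((through_ptD_iff hk hg hn hx hz).2 hxz)
  · intro h D hD
    obtain ⟨x, hx, rfl⟩ := exists_point hk hg hn hD.1
    exact h x hx ((through_ptD_iff hk hg hn hx hz).1 hD)

/-- Statements about all prime divisors. -/
theorem forall_isPrimeDiv (hk : ∀ c : ℂ, algebraMap ℂ X.functionField c = E.kf c)
    (hg : IsCoord E g) (hn : ∀ x : X, IsIntegrallyClosed (X.presheaf.stalk x))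
    (P : DVal X.functionField → Prop) :
    (∀ D, IsPrimeDiv (schemeModel hk hg hn) D → P D) ↔
      ∀ (x : X) (hx : Order.coheight x = 1), P (ptD hk hx (hn x)) := by
  constructor
  · intro h x hx
    exact h _ (ptD_isPrimeDiv hk hg hn hx)
  · intro h D hD
    obtain ⟨x, hx, rfl⟩ := exists_point hk hg hn hD
    exact h x hx

end point

end Pool.Agent.FR.S
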