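import Pool.Agent.FR.SBase
import Pool.Agent.K1.Embed

/-!
Block S2 of project FR: the closure in projective space of the point `[g 0 : ... : g N]` with
coordinates in a field `K` is an integral closed subscheme with function field `K`.
-/

set_option autoImplicit false

open AlgebraicGeometry CategoryTheory HomogeneousLocalization Pool.Agent.K1

attribute [local instance] MvPolynomial.gradedAlgebra

namespace Pool.Agent.FR
namespace S2

section a

variable {k K : Type} [Field k] [Field K] [Algebra k K] {N : ℕ} (g : Fin (N + 1) → K)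

variable (h0 : g 0 ≠ 0)

variable (k) in
/-- The value `F(g) / g 0 ^ m` of the fraction `F / X 0 ^ m`. -/
noncomputable def rho : Away (MvPolynomial.homogeneousSubmodule (Fin (N + 1)) k)
    (MvPolynomial.X 0) →+* K :=
  (IsLocalization.Away.lift (S := Localization.Away (MvPolynomial.X 0 :
      MvPolynomial (Fin (N + 1)) k)) (MvPolynomial.X 0)
    (g := (MvPolynomial.aeval (R := k) g).toRingHom)
    (by
      change IsUnit (MvPolynomial.aeval (R := k) g (MvPolynomial.X 0))
      rw [MvPolynomial.aeval_X]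
      exact h0.isUnit)).comp
    (algebraMap (Away (MvPolynomial.homogeneousSubmodule (Fin (N + 1)) k) (MvPolynomial.X 0))
      (Localization.Away (MvPolynomial.X 0 : MvPolynomial (Fin (N + 1)) k)))

theorem rho_mk (m : ℕ) (F : MvPolynomial (Fin (N + 1)) k)
    (hF : F ∈ MvPolynomial.homogeneousSubmodule (Fin (N + 1)) k (m • 1)) :
    rho k g h0 (Away.mk _ (X_mem 0) m F hF) = MvPolynomial.aeval g F / g 0 ^ m := by
  rw [rho, RingHom.comp_apply, HomogeneousLocalization.algebraMap_apply, Away.val_mk,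
    Localization.mk_eq_mk']
  have hu : IsUnit (g 0 ^ m) := (pow_ne_zero m h0).isUnit
  rw [eq_div_iff (pow_ne_zero m h0)]
  have h1 := IsLocalization.mk'_spec (Localization.Away (MvPolynomial.X 0 :
    MvPolynomial (Fin (N + 1)) k)) F (⟨MvPolynomial.X 0 ^ m, m, rfl⟩ :
      Submonoid.powers (MvPolynomial.X 0 : MvPolynomial (Fin (N + 1)) k))
  have h2 := congrArg (IsLocalization.Away.lift (S := Localization.Away (MvPolynomial.X 0 :
      MvPolynomial (Fin (N + 1)) k)) (MvPolynomial.X 0)
    (g := (MvPolynomial.aeval (R := k) g).toRingHom)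
    (by
      change IsUnit (MvPolynomial.aeval (R := k) g (MvPolynomial.X 0))
      rw [MvPolynomial.aeval_X]
      exact h0.isUnit)) h1
  rw [map_mul, IsLocalization.Away.lift_eq, IsLocalization.Away.lift_eq] at h2
  have h3 : (MvPolynomial.aeval (R := k) g).toRingHom (MvPolynomial.X 0 ^ m) = g 0 ^ m := by
    change MvPolynomial.aeval (R := k) g (MvPolynomial.X 0 ^ m) = _
    rw [map_pow, MvPolynomial.aeval_X]
  rw [← h3]
  exact h2

theorem rho_const (a : k) : rho k g h0 (fromZeroRingHom _ _ (algebraMap k _ a)) =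
    algebraMap k K a := by
  rw [rho, RingHom.comp_apply]
  have h1 : algebraMap (Away (MvPolynomial.homogeneousSubmodule (Fin (N + 1)) k)
      (MvPolynomial.X 0)) (Localization.Away (MvPolynomial.X 0 : MvPolynomial (Fin (N + 1)) k))
      (fromZeroRingHom _ _ (algebraMap k _ a)) =
      algebraMap (MvPolynomial (Fin (N + 1)) k) _ (MvPolynomial.C a) := rfl
  rw [h1, IsLocalization.Away.lift_eq]
  change MvPolynomial.aeval (R := k) g (MvPolynomial.C a) = _
  rw [MvPolynomial.aeval_C]

variable (k) in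
/-- The point `[g 0 : ... : g N]` of projective space. -/
noncomputable def pointMor : Spec (.of K) ⟶ PN k N :=
  Spec.map (CommRingCat.ofHom (rho k g h0)) ≫
    Proj.awayι (MvPolynomial.homogeneousSubmodule (Fin (N + 1)) k) (MvPolynomial.X 0) (X_mem 0)
      Nat.one_pos

end a

section b

variable {k K : Type} [Field k] [Field K] [Algebra k K] {N : ℕ} (g : Fin (N + 1) → K)
variable (h0 : g 0 ≠ 0)

theorem pointMor_mem : pointMor k g h0 (IsLocalRing.closedPoint K) ∈
    Proj.basicOpen (MvPolynomial.homogeneousSubmodule (Fin (N + 1)) k) (MvPolynomial.X 0) := by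
  rw [← Proj.opensRange_awayι _ (MvPolynomial.X 0 : MvPolynomial (Fin (N + 1)) k) (X_mem 0)
    Nat.one_pos]
  exact ⟨Spec.map (CommRingCat.ofHom (rho k g h0)) (IsLocalRing.closedPoint K), rfl⟩

theorem point_germ {f : Spec (.of K) ⟶ PN k N} (hf : f = pointMor k g h0)
    (hx : f (IsLocalRing.closedPoint K) ∈
      Proj.basicOpen (MvPolynomial.homogeneousSubmodule (Fin (N + 1)) k) (MvPolynomial.X 0)) :
    Proj.awayToSection (MvPolynomial.homogeneousSubmodule (Fin (N + 1)) k) (MvPolynomial.X 0) ≫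
      (PN k N).presheaf.germ _ _ hx ≫ Scheme.stalkClosedPointTo f =
      CommRingCat.ofHom (rho k g h0) := by
  set U := Proj.basicOpen (MvPolynomial.homogeneousSubmodule (Fin (N + 1)) k)
    (MvPolynomial.X 0) with hU
  have h1 : Spec.map (Scheme.stalkClosedPointTo f) ≫ (PN k N).fromSpecStalk _ = f :=
    Scheme.Spec_stalkClosedPointTo_fromSpecStalk f
  rw [← Scheme.Opens.fromSpecStalkOfMem_ι U _ hx, ← Category.assoc] at h1
  have h2 : pointMor k g h0 = (Spec.map (CommRingCat.ofHom (rho k g h0)) ≫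
      (Proj.basicOpenIsoSpec (MvPolynomial.homogeneousSubmodule (Fin (N + 1)) k)
        (MvPolynomial.X 0) (X_mem 0) Nat.one_pos).inv) ≫ U.ι := by
    rw [pointMor, Category.assoc]
    rfl
  have h3 : Spec.map (Scheme.stalkClosedPointTo f) ≫ U.fromSpecStalkOfMem _ hx =
      Spec.map (CommRingCat.ofHom (rho k g h0)) ≫
      (Proj.basicOpenIsoSpec (MvPolynomial.homogeneousSubmodule (Fin (N + 1)) k)
        (MvPolynomial.X 0) (X_mem 0) Nat.one_pos).inv := by
    rw [← cancel_mono U.ι, h1, hf, h2]
  have h4 := congrArg (fun t => t ≫ (Proj.basicOpenIsoSpec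
    (MvPolynomial.homogeneousSubmodule (Fin (N + 1)) k)
        (MvPolynomial.X 0) (X_mem 0) Nat.one_pos).hom) h3
  simp only [Category.assoc, Iso.inv_hom_id, Category.comp_id] at h4
  rw [Proj.basicOpenIsoSpec_hom, Proj.basicOpenToSpec,
    Scheme.Opens.fromSpecStalkOfMem_toSpecΓ_assoc, ← Spec.map_comp, ← Spec.map_comp] at h4
  exact Spec.map_injective h4

/-- The value in `K` of the germs of the scheme `X` at the image of `Spec K`. -/
noncomputable def tau {X : Scheme.{0}} (q : Spec (.of K) ⟶ X) :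
    X.presheaf.stalk (q (IsLocalRing.closedPoint K)) →+* K := (Scheme.stalkClosedPointTo q).hom

theorem tau_ψ {X : Scheme.{0}} (i : X ⟶ PN k N) (q : Spec (.of K) ⟶ X)
    (hq : q ≫ i = pointMor k g h0)
    (hx : q (IsLocalRing.closedPoint K) ∈ EmbAux.UU i (MvPolynomial.X 0))
    (z : Away (MvPolynomial.homogeneousSubmodule (Fin (N + 1)) k) (MvPolynomial.X 0)) :
    tau q ((X.presheaf.germ _ _ hx).hom (EmbAux.ψ i (MvPolynomial.X 0) z)) = rho k g h0 z := by
  have h1 := point_germ g h0 hq hx
  have h2 := congrArg (fun t => t.hom z) h1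
  refine Eq.trans ?_ h2
  have h3 := Scheme.Hom.germ_stalkMap_apply i
    (Proj.basicOpen (MvPolynomial.homogeneousSubmodule (Fin (N + 1)) k) (MvPolynomial.X 0))
    (q (IsLocalRing.closedPoint K)) hx
    (Proj.awayToSection (MvPolynomial.homogeneousSubmodule (Fin (N + 1)) k) (MvPolynomial.X 0) z)
  have h4 : tau q ((i.stalkMap (q (IsLocalRing.closedPoint K))).hom
      (((PN k N).presheaf.germ _ _ hx).hom
        (Proj.awayToSection (MvPolynomial.homogeneousSubmodule (Fin (N + 1)) k)
          (MvPolynomial.X 0) z))) = _ := congrArg (fun t => t.hom (((PN k N).presheaf.germ _ _ hx).hom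
        (Proj.awayToSection (MvPolynomial.homogeneousSubmodule (Fin (N + 1)) k)
          (MvPolynomial.X 0) z))) (Scheme.stalkClosedPointTo_comp q i).symm
  refine Eq.trans ?_ h4
  exact congrArg (tau q) h3.symm

end b

section c

theorem image_isReduced {X Y : Scheme.{0}} (f : X ⟶ Y) [QuasiCompact f] [IsReduced X] :
    IsReduced f.image := by
  have key : ∀ x : f.image, _root_.IsReduced (f.image.presheaf.stalk x) := by
    intro x
    obtain ⟨_, ⟨U, hU, rfl⟩, hxU, -⟩ := Y.isBasis_affineOpens.exists_subset_of_mem_open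
      (Set.mem_univ (f.imageι x)) isOpen_univ
    have hV : IsAffineOpen (f.imageι ⁻¹ᵁ U) := IsAffineOpen.preimage hU f.imageι
    have h1 : Function.Injective (f.toImage.app (f.imageι ⁻¹ᵁ U)) :=
      f.toImage_app_injective ⟨U, hU⟩
    have h2 : _root_.IsReduced Γ(f.image, f.imageι ⁻¹ᵁ U) :=
      isReduced_of_injective (f.toImage.app (f.imageι ⁻¹ᵁ U)).hom h1
    let _ := f.image.presheaf.algebra_section_stalk (U := f.imageι ⁻¹ᵁ U) ⟨x, hxU⟩
    have h3 := hV.isLocalization_stalk ⟨x, hxU⟩
    exact isReduced_localizationPreserves (hV.primeIdealOf ⟨x, hxU⟩).asIdeal.primeCompl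
      (f.image.presheaf.stalk x) h2
  exact isReduced_of_isReduced_stalk _

theorem image_isIntegral {X Y : Scheme.{0}} (f : X ⟶ Y) [QuasiCompact f] [IsIntegral X] :
    IsIntegral f.image := by
  have h1 : IsReduced f.image := image_isReduced f
  have : IrreducibleSpace f.image := by
    rw [irreducibleSpace_def]
    convert!
      ((IrreducibleSpace.isIrreducible_univ X).image _
          f.toImage.continuous.continuousOn).closure
    simpa using f.toImage.denseRange.closure_range.symm
  exact isIntegral_of_irreducibleSpace_of_isReduced _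

end c

section d

variable {k K : Type} [Field k] [Field K] [Algebra k K] {N : ℕ} (g : Fin (N + 1) → K)
variable (h0 : g 0 ≠ 0)

theorem eq_genericPoint {X : Scheme.{0}} [IsIntegral X] (q : Spec (.of K) ⟶ X) [IsDominant q] :
    q (IsLocalRing.closedPoint K) = genericPoint X := by
  have h1 : IsGenericPoint (q (IsLocalRing.closedPoint K)) (⊤ : Set X) := by
    rw [isGenericPoint_def]
    have h2 := q.denseRange.closure_range
    have h3 : Set.range q = {q (IsLocalRing.closedPoint K)} := by
      apply Set.eq_singleton_iff_unique_mem.2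
      refine ⟨⟨_, rfl⟩, ?_⟩
      rintro _ ⟨p, rfl⟩
      have h4 : Subsingleton (PrimeSpectrum K) := inferInstance
      exact congrArg q (h4.elim p _)
    rw [h3] at h2
    rw [h2]
    rfl
  exact h1.eq (genericPoint_spec X)

/-- The value in `K` of the rational functions. -/
noncomputable def theta {X : Scheme.{0}} [IsIntegral X] (q : Spec (.of K) ⟶ X) [IsDominant q] :
    X.functionField →+* K :=
  (tau q).comp (X.presheaf.stalkSpecializes (specializes_of_eq (eq_genericPoint q))).hom

theorem theta_germ {X : Scheme.{0}} [IsIntegral X] (q : Spec (.of K) ⟶ X) [IsDominant q]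
    (U : X.Opens) (h1 : genericPoint X ∈ U) (h2 : q (IsLocalRing.closedPoint K) ∈ U)
    (s : Γ(X, U)) : theta q ((X.presheaf.germ U _ h1).hom s) =
      tau q ((X.presheaf.germ U _ h2).hom s) := by
  rw [theta, RingHom.comp_apply]
  congr 1
  exact TopCat.Presheaf.germ_stalkSpecializes_apply _ _ _ _

variable {X : Scheme.{0}} [IsIntegral X] (i : X ⟶ PN k N) (q : Spec (.of K) ⟶ X) [IsDominant q]
  (hq : q ≫ i = pointMor k g h0)

include hq

theorem mem0 : genericPoint X ∈ EmbAux.UU i (MvPolynomial.X 0) := by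
  rw [← eq_genericPoint q]
  have h1 := pointMor_mem (k := k) g h0
  rw [← hq] at h1
  exact h1

theorem theta_ψ (hx : genericPoint X ∈ EmbAux.UU i (MvPolynomial.X 0))
    (z : Away (MvPolynomial.homogeneousSubmodule (Fin (N + 1)) k) (MvPolynomial.X 0)) :
    theta q ((X.presheaf.germ _ _ hx).hom (EmbAux.ψ i (MvPolynomial.X 0) z)) =
      rho k g h0 z := by
  have hx' : q (IsLocalRing.closedPoint K) ∈ EmbAux.UU i (MvPolynomial.X 0) := by
    rw [eq_genericPoint q]
    exact hx
  rw [theta_germ q _ hx hx', tau_ψ g h0 i q hq]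

theorem theta_kf (hx : genericPoint X ∈ EmbAux.UU i (MvPolynomial.X 0)) (a : k) :
    theta q ((EmbAux.dat i 0 hx).kf a) = algebraMap k K a := by
  rw [← rho_const g h0 a, ← theta_ψ g h0 i q hq hx]
  congr 1
  refine (EmbAux.germ_str i (genericPoint X) a).trans ?_
  rw [EmbAux.germ_ψ]
  rfl

theorem theta_w (hx : genericPoint X ∈ EmbAux.UU i (MvPolynomial.X 0)) (j : Fin (N + 1)) :
    theta q ((EmbAux.dat i 0 hx).w j) = g j / g 0 := by
  have h1 := theta_ψ g h0 i q hq hx (Away.mk _ (X_mem 0) 1 (MvPolynomial.X j)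
    (show _ ∈ MvPolynomial.homogeneousSubmodule (Fin (N + 1)) k (1 • 1) from X_mem j))
  rw [rho_mk, MvPolynomial.aeval_X, pow_one, EmbAux.germ_generic i 0 hx, pow_one] at h1
  have h2 : ∀ l, EmbAux.ev i 0 hx (MvPolynomial.X l) = (EmbAux.dat i 0 hx).w l := fun l => by
    rw [EmbAux.ev, MvPolynomial.coe_eval₂Hom, MvPolynomial.eval₂_X]
  rw [h2, h2] at h1
  have h3 : (EmbAux.dat i 0 hx).w 0 = 1 := by
    have h4 : EmbAux.fr i (genericPoint X) 1 (MvPolynomial.X 0) (MvPolynomial.X 0)
      (X_mem 0) (X_mem 0) hx = 1 := by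
      apply HomogeneousLocalization.val_injective
      rw [HomogeneousLocalization.val_one]
      refine (HomogeneousLocalization.val_mk _).trans ?_
      exact Localization.mk_self (⟨MvPolynomial.X 0, hx⟩ :
        (EmbAux.pt i (genericPoint X)).primeCompl)
    exact (congrArg (EmbAux.Φ i (genericPoint X)) h4).trans (map_one _)
  rw [h3, div_one] at h1
  exact h1

end d

section e

variable {k K : Type} [Field k] [Field K] [Algebra k K] {N : ℕ} (g : Fin (N + 1) → K)
variable (h0 : g 0 ≠ 0)

theorem theta_bijective (hfrac : ∀ x : K, ∃ a ∈ Algebra.adjoin k (Set.range fun j => g j / g 0),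
    ∃ b ∈ Algebra.adjoin k (Set.range fun j => g j / g 0), b ≠ 0 ∧ x = a / b)
    {X : Scheme.{0}} [IsIntegral X] (i : X ⟶ PN k N) (q : Spec (.of K) ⟶ X) [IsDominant q]
    (hq : q ≫ i = pointMor k g h0) : Function.Bijective (theta q) := by
  refine ⟨(theta q).injective, fun x => ?_⟩
  have hx := mem0 g h0 i q hq
  have h1 : ∀ a ∈ Algebra.adjoin k (Set.range fun j => g j / g 0), a ∈ (theta q).fieldRange := by
    intro a ha
    induction ha using Algebra.adjoin_induction with
    | mem x hx' =>
      obtain ⟨j, rfl⟩ := hx'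
      exact ⟨_, theta_w g h0 i q hq hx j⟩
    | algebraMap r => exact ⟨_, theta_kf g h0 i q hq hx r⟩
    | add x y _ _ h1 h2 => exact add_mem h1 h2
    | mul x y _ _ h1 h2 => exact mul_mem h1 h2
  obtain ⟨a, ha, b, hb, -, rfl⟩ := hfrac x
  exact div_mem (h1 a ha) (h1 b hb)

include h0 in
/-- The closure of the point `[g 0 : ... : g N]`: an integral closed subscheme of projective space
with function field `K`. -/
theorem exists_scheme (hfrac : ∀ x : K, ∃ a ∈ Algebra.adjoin k (Set.range fun j => g j / g 0),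
    ∃ b ∈ Algebra.adjoin k (Set.range fun j => g j / g 0), b ≠ 0 ∧ x = a / b) :
    ∃ (X : Scheme.{0}) (_ : IsIntegral X) (i : X ⟶ PN k N) (_ : IsClosedImmersion i)
      (hx : genericPoint X ∈ EmbAux.UU i (MvPolynomial.X 0)) (θ : X.functionField ≃+* K),
      (∀ a, θ ((EmbAux.dat i 0 hx).kf a) = algebraMap k K a) ∧
      ∀ j, θ ((EmbAux.dat i 0 hx).w j) = g j / g 0 := by
  have h1 : QuasiCompact (pointMor k g h0) := by
    unfold pointMor
    infer_instance
  have h2 := image_isIntegral (pointMor k g h0)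
  have hq := (pointMor k g h0).toImage_imageι
  have hx := mem0 g h0 (pointMor k g h0).imageι (pointMor k g h0).toImage hq
  exact ⟨(pointMor k g h0).image, h2, (pointMor k g h0).imageι, inferInstance, hx,
    RingEquiv.ofBijective _ (theta_bijective g h0 hfrac _ _ hq), fun a =>
      theta_kf g h0 _ _ hq hx a, fun j => theta_w g h0 _ _ hq hx j⟩

end e

section f

variable {k : Type} [Field k] {N : ℕ} {X : Scheme.{0}} [IsIntegral X] (i : X ⟶ PN k N)

/-- The coordinates with respect to another reference coordinate. -/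
theorem w_change (j₀ j₁ : Fin (N + 1)) (h₀ : genericPoint X ∈ EmbAux.UU i (MvPolynomial.X j₀))
    (h₁ : genericPoint X ∈ EmbAux.UU i (MvPolynomial.X j₁)) (j : Fin (N + 1)) :
    (EmbAux.dat i j₀ h₀).w j = (EmbAux.dat i j₁ h₁).w j / (EmbAux.dat i j₁ h₁).w j₀ := by
  have h2 : ∀ l, EmbAux.ev i j₁ h₁ (MvPolynomial.X l) = (EmbAux.dat i j₁ h₁).w l := fun l => by
    rw [EmbAux.ev, MvPolynomial.coe_eval₂Hom, MvPolynomial.eval₂_X]
  rw [← h2, ← h2]
  exact EmbAux.Φ_fr i j₁ h₁ 1 (MvPolynomial.X j) (MvPolynomial.X j₀) (X_mem j) (X_mem j₀) h₀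

open EmbAux in
/-- The embedding data with given reference coordinate. -/
theorem exists_embed_dat [IsClosedImmersion i] (j₀ : Fin (N + 1))
    (h₀ : genericPoint X ∈ UU i (MvPolynomial.X j₀)) :
    ∃ E : Embed k X N, E.toEmbedData = dat i j₀ h₀ := by
  have haux : ∀ c, (dat i j₀ h₀).l c ≠ 0 ↔ genericPoint X ∈ UU i (lf c) := fun c => by
    rw [l_eq]
    exact ev_ne_zero_iff i j₀ h₀ 1 (lf c) (lf_mem c)
  exact ⟨{ dat i j₀ h₀ with
    empty := fun c hc => by
      by_contra hne
      have h1 : (UU i (lf c) : Set X).Nonempty := by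
        rw [Set.nonempty_iff_ne_empty]
        intro h2
        exact hne (TopologicalSpace.Opens.ext h2)
      obtain ⟨x, hx⟩ := h1
      have h2 : genericPoint X ∈ UU i (lf c) :=
        ((genericPoint_spec X).mem_open_set_iff (UU i (lf c)).2).2 ⟨x, trivial, hx⟩
      exact (haux c).2 h2 hc
    affine := fun c hc => ⟨(Proj.isAffineOpen_basicOpen _ (lf c) (lf_mem c)
      Nat.one_pos).preimage i, (haux c).1 hc⟩
    cover := fun x => by
      obtain ⟨j, hj⟩ := exists_mem i x
      refine ⟨j, ?_⟩
      change x ∈ UU i (lf (Pi.single j 1))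
      rw [lf_single]
      exact hj
    sections := fun c h => sections_eq i j₀ h₀ c h
    stalk := fun c d x hx => stalk_eq i j₀ h₀ c d x hx
    val := fun x V hV => val_eq i j₀ h₀ x V hV }, rfl⟩

end f

section g

variable {k K : Type} [Field k] [Field K] [Algebra k K] {N : ℕ} (g : Fin (N + 1) → K)
  (h0 : g 0 ≠ 0)

include h0 in
/-- `exists_scheme` with the embedding data of `K1/Embed`. -/
theorem exists_scheme_embed (hfrac : ∀ x : K, ∃ a ∈ Algebra.adjoin k (Set.range fun j => g j / g 0),
    ∃ b ∈ Algebra.adjoin k (Set.range fun j => g j / g 0), b ≠ 0 ∧ x = a / b) :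
    ∃ (X : Scheme.{0}) (_ : IsIntegral X) (i : X ⟶ PN k N) (_ : IsClosedImmersion i)
      (E : Embed k X N) (θ : X.functionField ≃+* K), E.str = EmbAux.strE i ∧
      (∀ a, θ (E.kf a) = algebraMap k K a) ∧ ∀ j, θ (E.w j) = g j / g 0 := by
  obtain ⟨X, hX, i, hi, hx, θ, h1, h2⟩ := exists_scheme g h0 hfrac
  obtain ⟨E, hE⟩ := exists_embed_dat i 0 hx
  refine ⟨X, hX, i, hi, E, θ, ?_, ?_, ?_⟩
  · rw [hE]
    rfl
  · intro a
    rw [hE]
    exact h1 a
  · intro j
    rw [hE]
    exact h2 j

end g

end S2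
end Pool.Agent.FR
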