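import Pool.Agent.FR.S1b
import Pool.Agent.FR.Basis

/-!
Project FR, block S (bridge to schemes), part S3: transport of the notions of `FR/Defs.lean` along
an isomorphism of function fields over `ℂ` (helper60).
-/

set_option autoImplicit false

namespace Pool.Agent.FR

open scoped Classical
open Pool.Agent.FR.S

variable {K K' : Type} [Field K] [Field K'] [Algebra ℂ K] [Algebra ℂ K'] (e : K ≃ₐ[ℂ] K')

/-! ### valuations and places -/

/-- Transport of a divisorial valuation. -/
def DVal.map (D : DVal K) : DVal K' where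
  v y := D.v (e.symm y)
  zero := by rw [map_zero, D.zero]
  mul x y hx hy := by
    rw [map_mul, D.mul _ _ ((map_ne_zero e.symm).2 hx) ((map_ne_zero e.symm).2 hy)]
  add x y hx hy hxy := by
    rw [map_add]
    refine D.add _ _ ((map_ne_zero e.symm).2 hx) ((map_ne_zero e.symm).2 hy) ?_
    rw [← map_add]
    exact (map_ne_zero e.symm).2 hxy
  const c hc := by
    rw [e.symm.commutes, D.const c hc]
  unif := by
    obtain ⟨x, hx, h⟩ := D.unif
    exact ⟨e x, (map_ne_zero e).2 hx, by rw [e.symm_apply_apply, h]⟩
  fin := by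
    obtain ⟨s, h1, h2⟩ := D.fin
    have hadj : ∀ a : K', a ∈ Algebra.adjoin ℂ ((s.image e : Finset K') : Set K') ↔
        e.symm a ∈ Algebra.adjoin ℂ (s : Set K) := by
      intro a
      have h3 : Algebra.adjoin ℂ ((s.image e : Finset K') : Set K') =
          (Algebra.adjoin ℂ (s : Set K)).map (e : K →ₐ[ℂ] K') := by
        rw [AlgHom.map_adjoin, Finset.coe_image]
        rfl
      rw [h3, Subalgebra.mem_map]
      constructor
      · rintro ⟨b, hb, rfl⟩
        change e.symm (e b) ∈ _
        rwa [e.symm_apply_apply]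
      · intro h
        exact ⟨e.symm a, h, e.apply_symm_apply a⟩
    refine ⟨s.image e, fun x hx hx0 => ?_, fun x hx0 hx => ?_⟩
    · exact h1 _ ((hadj x).1 hx) ((map_ne_zero e.symm).2 hx0)
    · obtain ⟨a, ha, b, hb, hb0, hvb, hab⟩ := h2 (e.symm x) ((map_ne_zero e.symm).2 hx0) hx
      refine ⟨e a, (hadj _).2 (by rwa [e.symm_apply_apply]), e b,
        (hadj _).2 (by rwa [e.symm_apply_apply]), (map_ne_zero e).2 hb0, ?_, ?_⟩
      · rw [e.symm_apply_apply, hvb]
      · rw [← map_div₀, ← hab, e.apply_symm_apply]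

theorem DVal.map_v (D : DVal K) (y : K') : (D.map e).v y = D.v (e.symm y) := rfl

theorem DVal.map_v' (D : DVal K) (x : K) : (D.map e).v (e x) = D.v x := by
  rw [DVal.map_v, e.symm_apply_apply]

theorem DVal.map_symm_map (D : DVal K) : (D.map e).map e.symm = D := by
  apply DVal.ext
  funext x
  change D.v (e.symm (e.symm.symm x)) = D.v x
  rw [AlgEquiv.symm_symm, e.symm_apply_apply]

theorem DVal.map_map_symm (D : DVal K') : (D.map e.symm).map e = D := by
  apply DVal.ext
  funext x
  change D.v (e.symm.symm (e.symm x)) = D.v x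
  rw [AlgEquiv.symm_symm, e.apply_symm_apply]

theorem DVal.map_injective : Function.Injective (DVal.map e : DVal K → DVal K') := by
  intro D D' h
  rw [← DVal.map_symm_map e D, h, DVal.map_symm_map]

theorem DVal.map_surjective : Function.Surjective (DVal.map e : DVal K → DVal K') :=
  fun D => ⟨D.map e.symm, DVal.map_map_symm e D⟩

theorem DVal.forall_map {p : DVal K' → Prop} : (∀ D, p D) ↔ ∀ D : DVal K, p (D.map e) :=
  (DVal.map_surjective e).forall

theorem DVal.map_eq_iff {D D' : DVal K} : D.map e = D'.map e ↔ D = D' :=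
  (DVal.map_injective e).eq_iff

theorem DVal.mem_ring_map (D : DVal K) (x : K) : e x ∈ (D.map e).ring ↔ x ∈ D.ring := by
  rw [DVal.mem_ring, DVal.mem_ring, DVal.map_v', map_eq_zero]

/-- Transport of valuation rings. -/
def placeMap (V : ValuationSubring K) : ValuationSubring K' := V.comap (e.symm : K' →+* K)

theorem mem_placeMap (V : ValuationSubring K) (x : K) : e x ∈ placeMap e V ↔ x ∈ V := by
  change e.symm (e x) ∈ V ↔ _
  rw [e.symm_apply_apply]

theorem mem_placeMap' (V : ValuationSubring K) (y : K') : y ∈ placeMap e V ↔ e.symm y ∈ V :=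
  Iff.rfl

theorem placeMap_surjective : Function.Surjective (placeMap e) := by
  intro V
  refine ⟨placeMap e.symm V, ?_⟩
  ext y
  change e.symm.symm (e.symm y) ∈ V ↔ _
  rw [AlgEquiv.symm_symm, e.apply_symm_apply]

theorem isPlace_map (V : ValuationSubring K) : IsPlace (placeMap e V) ↔ IsPlace V := by
  refine forall_congr' fun c => ?_
  rw [mem_placeMap', e.symm.commutes]

theorem DVal.ring_map (D : DVal K) : (D.map e).ring = placeMap e D.ring := by
  ext y
  obtain ⟨x, rfl⟩ := e.surjective y
  rw [DVal.mem_ring_map, mem_placeMap]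

theorem locRing_placeMap {N : ℕ} (g : Fin (N + 1) → K) (V : ValuationSubring K) :
    locRing (fun j => e (g j)) (placeMap e V) = e '' locRing g V := by
  have h := locRing_map g (e : K →ₐ[ℂ] K') (placeMap e V)
  have h2 : (placeMap e V).comap ((e : K →ₐ[ℂ] K') : K →+* K') = V := by
    ext x
    exact mem_placeMap e V x
  rw [h2] at h
  exact h

/-! ### models -/

theorem adjoin_ratio_map {N : ℕ} (g : Fin (N + 1) → K) (i : Fin (N + 1)) (x : K) :
    e x ∈ Algebra.adjoin ℂ (Set.range fun j => e (g j) / e (g i)) ↔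
      x ∈ Algebra.adjoin ℂ (Set.range fun j => g j / g i) :=
  s1_mem_adjoin_map g i (e : K →ₐ[ℂ] K')

/-- Transport of a model of `L` to a model of `L'`, where `L'` is the image of `L`. -/
noncomputable def Model.map {L : IntermediateField ℂ K} {L' : IntermediateField ℂ K'}
    (h : ∀ x, e x ∈ L' ↔ x ∈ L) (S : Model L) : Model L' where
  N := S.N
  g j := e (S.g j)
  ne i := (map_ne_zero e).2 (S.ne i)
  mem i := (h _).2 (S.mem i)
  frac y hy := by
    obtain ⟨x, rfl⟩ := e.surjective y
    obtain ⟨a, ha, b, hb, hb0, rfl⟩ := S.frac x ((h x).1 hy)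
    exact ⟨e a, (adjoin_ratio_map e S.g 0 a).2 ha, e b, (adjoin_ratio_map e S.g 0 b).2 hb,
      (map_ne_zero e).2 hb0, map_div₀ e a b⟩
  normal V hV y hy := by
    obtain ⟨V, rfl⟩ := placeMap_surjective e V
    obtain ⟨x, rfl⟩ := e.surjective y
    rw [isPlace_map] at hV
    rw [locRing_placeMap]
    rintro ⟨p, hp, hc, h0⟩
    refine ⟨x, ?_, rfl⟩
    refine S.normal V hV x ((h x).1 hy) ⟨p.map (e.symm : K' →+* K), hp.map _, fun i => ?_, ?_⟩
    · obtain ⟨a, ha, hae⟩ := hc i
      rw [Polynomial.coeff_map, ← hae]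
      change e.symm (e a) ∈ _
      rwa [e.symm_apply_apply]
    · have h1 : Polynomial.eval x (p.map (e.symm : K' →+* K)) =
          e.symm (Polynomial.eval (e x) p) := by
        have h2 := Polynomial.eval_map_apply (e.symm : K' →+* K) (p := p) (e x)
        have h3 : (e.symm : K' →+* K) (e x) = x := e.symm_apply_apply x
        rw [h3] at h2
        exact h2
      rw [h1, h0, map_zero]

variable (K K') in
theorem mem_top_map (e : K ≃ₐ[ℂ] K') (x : K) : e x ∈ (⊤ : IntermediateField ℂ K') ↔
    x ∈ (⊤ : IntermediateField ℂ K) :=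
  ⟨fun _ => IntermediateField.mem_top, fun _ => IntermediateField.mem_top⟩

/-- Transport of a variety with function field `K` to one with function field `K'`. -/
noncomputable def Model.mapTop (X : Model (⊤ : IntermediateField ℂ K)) : Model (⊤ : IntermediateField ℂ K') :=
  X.map e (mem_top_map K K' e)

variable (X : Model (⊤ : IntermediateField ℂ K))

theorem locRing_mapTop (V : ValuationSubring K) :
    locRing (X.mapTop e).g (placeMap e V) = e '' locRing X.g V :=
  locRing_placeMap e X.g V

theorem isPrimeDiv_map (D : DVal K) : IsPrimeDiv (X.mapTop e) (D.map e) ↔ IsPrimeDiv X D := by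
  rw [IsPrimeDiv, IsPrimeDiv, DVal.ring_map, locRing_mapTop]
  have h1 : ((placeMap e D.ring : ValuationSubring K') : Set K') = e '' (D.ring : Set K) := by
    ext y
    obtain ⟨x, rfl⟩ := e.surjective y
    rw [SetLike.mem_coe, mem_placeMap]
    constructor
    · intro h
      exact ⟨x, h, rfl⟩
    · rintro ⟨x', h, hx⟩
      rwa [← e.injective hx]
  rw [h1]
  exact e.injective.image_injective.eq_iff

theorem through_map (V : ValuationSubring K) (D : DVal K) :
    Through (X.mapTop e) (placeMap e V) (D.map e) ↔ Through X V D := by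
  rw [Through, Through, isPrimeDiv_map, locRing_mapTop]
  refine and_congr_right fun _ => ?_
  rw [Set.image_subset_iff]
  refine forall_congr' fun x => imp_congr_right fun _ => ?_
  exact DVal.mem_ring_map e D x

theorem isLocEq_map (c : DVal K' → ℤ) (V : ValuationSubring K) (N : ℕ) (f : K) :
    IsLocEq (X.mapTop e) c (placeMap e V) N (e f) ↔ IsLocEq X (fun D => c (D.map e)) V N f := by
  rw [IsLocEq, IsLocEq, map_ne_zero, DVal.forall_map e]
  refine and_congr_right fun _ => and_congr_right fun _ => forall_congr' fun D => ?_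
  rw [through_map, DVal.map_v']

theorem exists_map {p : K' → Prop} : (∃ f, p f) ↔ ∃ f : K, p (e f) := e.surjective.exists

theorem forall_map {p : K' → Prop} : (∀ f, p f) ↔ ∀ f : K, p (e f) := e.surjective.forall

theorem qCartier_map (c : DVal K' → ℤ) :
    QCartier (X.mapTop e) c ↔ QCartier X (fun D => c (D.map e)) := by
  rw [QCartier, QCartier, (placeMap_surjective e).forall]
  refine forall_congr' fun V => ?_
  rw [isPlace_map]
  refine imp_congr_right fun _ => exists_congr fun N => ?_
  rw [exists_map e]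
  exact exists_congr fun f => isLocEq_map e X c V N f

theorem qFactorial_map : QFactorial (X.mapTop e) ↔ QFactorial X := by
  rw [QFactorial, QFactorial, DVal.forall_map e]
  refine forall_congr' fun D₀ => ?_
  rw [isPrimeDiv_map, qCartier_map]
  simp only [DVal.map_eq_iff]

/-- families of elements -/
theorem exists_fam_map {N : ℕ} {p : (Fin N → K') → Prop} :
    (∃ s, p s) ↔ ∃ s : Fin N → K, p (fun i => e (s i)) := by
  constructor
  · rintro ⟨s, hs⟩
    refine ⟨fun i => e.symm (s i), ?_⟩
    simpa using hs
  · rintro ⟨s, hs⟩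
    exact ⟨_, hs⟩

theorem isAmple_map (c : DVal K' → ℤ) :
    IsAmple (X.mapTop e) c ↔ IsAmple X (fun D => c (D.map e)) := by
  rw [IsAmple, IsAmple]
  refine exists_congr fun m => exists_congr fun N => ?_
  rw [exists_fam_map e]
  refine exists_congr fun s => ?_
  refine and_congr_right fun _ => and_congr ?_ (and_congr ?_ ?_)
  · exact forall_congr' fun i => by rw [map_ne_zero]
  · refine forall_congr' fun i => ?_
    rw [DVal.forall_map e]
    refine forall_congr' fun D => ?_
    rw [isPrimeDiv_map, DVal.map_v']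
  · rw [(placeMap_surjective e).forall]
    refine forall_congr' fun V => ?_
    rw [isPlace_map]
    refine imp_congr_right fun _ => exists_congr fun i => and_congr ?_ (and_congr ?_ ?_)
    · refine forall_congr' fun j => ?_
      rw [← map_div₀, mem_placeMap]
    · rw [DVal.forall_map e]
      refine forall_congr' fun D => ?_
      rw [through_map, DVal.map_v']
    · rw [locRing_mapTop]
      have h1 : {x | ∃ a ∈ Algebra.adjoin ℂ (Set.range fun j => e (s j) / e (s i)),
          ∃ b ∈ Algebra.adjoin ℂ (Set.range fun j => e (s j) / e (s i)),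
            b ≠ 0 ∧ b⁻¹ ∈ placeMap e V ∧ x = a / b} =
          e '' {x | ∃ a ∈ Algebra.adjoin ℂ (Set.range fun j => s j / s i),
          ∃ b ∈ Algebra.adjoin ℂ (Set.range fun j => s j / s i),
            b ≠ 0 ∧ b⁻¹ ∈ V ∧ x = a / b} := by
        ext y
        constructor
        · rintro ⟨a, ha, b, hb, hb0, hbi, rfl⟩
          obtain ⟨a, rfl⟩ := e.surjective a
          obtain ⟨b, rfl⟩ := e.surjective b
          refine ⟨a / b, ⟨a, (adjoin_ratio_map e s i a).1 ha, b, (adjoin_ratio_map e s i b).1 hb,
            (map_ne_zero e).1 hb0, ?_, rfl⟩, map_div₀ e a b⟩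
          rwa [← map_inv₀, mem_placeMap] at hbi
        · rintro ⟨_, ⟨a, ha, b, hb, hb0, hbi, rfl⟩, rfl⟩
          refine ⟨e a, (adjoin_ratio_map e s i a).2 ha, e b, (adjoin_ratio_map e s i b).2 hb,
            (map_ne_zero e).2 hb0, ?_, map_div₀ e a b⟩
          rwa [← map_inv₀, mem_placeMap]
      rw [h1]
      exact e.injective.image_injective.eq_iff

/-! ### derivations and the canonical divisor -/

/-- Transport of a derivation. -/
noncomputable def derMap (δ : Derivation ℂ K K) : Derivation ℂ K' K' :=
  Derivation.mk' ((e : K →ₐ[ℂ] K').toLinearMap ∘ₗ (δ : K →ₗ[ℂ] K) ∘ₗ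
    (e.symm : K' →ₐ[ℂ] K).toLinearMap) (by
      intro a b
      change e (δ (e.symm (a * b))) = a * e (δ (e.symm b)) + b * e (δ (e.symm a))
      rw [map_mul, Derivation.leibniz, map_add, smul_eq_mul, smul_eq_mul, map_mul, map_mul,
        e.apply_symm_apply, e.apply_symm_apply])

theorem derMap_apply (δ : Derivation ℂ K K) (y : K') : derMap e δ y = e (δ (e.symm y)) := rfl

theorem derMap_apply' (δ : Derivation ℂ K K) (x : K) : derMap e δ (e x) = e (δ x) := by
  rw [derMap_apply, e.symm_apply_apply]

theorem derMap_derMap_symm (δ : Derivation ℂ K' K') : derMap e (derMap e.symm δ) = δ := by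
  ext y
  rw [derMap_apply, derMap_apply, AlgEquiv.symm_symm, e.apply_symm_apply, e.apply_symm_apply]

theorem s3_der_sum_apply {ι : Type} (t : Finset ι) (f : ι → Derivation ℂ K K) (x : K) :
    (∑ i ∈ t, f i) x = ∑ i ∈ t, f i x := by
  classical
  induction t using Finset.induction_on with
  | empty => simp
  | insert a t ha ih =>
    rw [Finset.sum_insert ha, Finset.sum_insert ha, Derivation.add_apply, ih]

variable {n : ℕ} (B : Module.Basis (Fin n) K (Derivation ℂ K K))

/-- Transport of a basis of the derivations. -/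
noncomputable def basisMap : Module.Basis (Fin n) K' (Derivation ℂ K' K') :=
  Module.Basis.mk (v := fun i => derMap e (B i)) (by
    rw [Fintype.linearIndependent_iff]
    intro g hg
    have h1 : ∑ i, e.symm (g i) • B i = 0 := by
      ext x
      have h2 := congrArg (fun δ : Derivation ℂ K' K' => e.symm (δ (e x))) hg
      simp only [s3_der_sum_apply, Derivation.smul_apply,
        derMap_apply', map_sum, smul_eq_mul, map_mul, e.symm_apply_apply, Derivation.zero_apply,
        map_zero] at h2
      simp only [s3_der_sum_apply, Derivation.smul_apply,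
        smul_eq_mul, Derivation.zero_apply]
      exact h2
    intro i
    have h3 := (Fintype.linearIndependent_iff.1 B.linearIndependent) _ h1 i
    exact (map_eq_zero e.symm).1 h3) (by
    intro δ _
    have h1 := B.sum_repr (derMap e.symm δ)
    have h2 : δ = ∑ i, e (B.repr (derMap e.symm δ) i) • derMap e (B i) := by
      conv_lhs => rw [← derMap_derMap_symm e δ, ← h1]
      ext y
      simp only [derMap_apply, s3_der_sum_apply,
        Derivation.smul_apply, map_sum, smul_eq_mul, map_mul]
    rw [h2]
    exact Submodule.sum_mem _ fun i _ => Submodule.smul_mem _ _ (Submodule.subset_span ⟨i, rfl⟩))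

theorem basisMap_apply (i : Fin n) : basisMap e B i = derMap e (B i) := by
  rw [basisMap, Module.Basis.mk_apply]

theorem jac_map (u : Fin n → K) : jac (basisMap e B) (fun j => e (u j)) = e (jac B u) := by
  rw [jac, jac]
  have h := (e : K →+* K').map_det (Matrix.of fun i j => B i (u j))
  have h2 : (e : K →+* K') (Matrix.det (Matrix.of fun i j => B i (u j))) =
      e (Matrix.det (Matrix.of fun i j => B i (u j))) := rfl
  rw [← h2, h]
  congr 1
  ext i j
  rw [RingHom.mapMatrix_apply, Matrix.map_apply, Matrix.of_apply, Matrix.of_apply,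
    basisMap_apply, derMap_apply']
  rfl

theorem kord_map (D : DVal K) : kord (basisMap e B) (D.map e) = kord B D := by
  rw [kord, kord]
  congr 2
  ext z
  constructor
  · rintro ⟨u, hu, hj, rfl⟩
    obtain ⟨u, rfl⟩ : ∃ u' : Fin n → K, u = fun i => e (u' i) :=
      ⟨fun i => e.symm (u i), by funext i; rw [e.apply_symm_apply]⟩
    rw [jac_map] at hj ⊢
    refine ⟨u, fun j => (DVal.mem_ring_map e D _).1 (hu j), (map_ne_zero e).1 hj, ?_⟩
    rw [DVal.map_v']
  · rintro ⟨u, hu, hj, rfl⟩
    refine ⟨fun i => e (u i), fun j => (DVal.mem_ring_map e D _).2 (hu j), ?_, ?_⟩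
    · rw [jac_map]
      exact (map_ne_zero e).2 hj
    · rw [jac_map, DVal.map_v']

theorem isLogDisc_map (D : DVal K) (a : ℝ) :
    IsLogDisc (basisMap e B) (X.mapTop e) (D.map e) a ↔ IsLogDisc B X D a := by
  rw [IsLogDisc, IsLogDisc]
  refine exists_congr fun N => ?_
  rw [exists_map e]
  refine exists_congr fun f => ?_
  rw [DVal.ring_map, isLocEq_map, kord_map, DVal.map_v']
  simp only [kord_map]

theorem isTerminal_map : IsTerminal (basisMap e B) (X.mapTop e) ↔ IsTerminal B X := by
  rw [IsTerminal, IsTerminal, qCartier_map, DVal.forall_map e]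
  simp only [kord_map, isPrimeDiv_map, isLogDisc_map]

theorem isFano_map : IsFano (basisMap e B) (X.mapTop e) ↔ IsFano B X := by
  rw [IsFano, IsFano, qFactorial_map, isTerminal_map, isAmple_map]
  simp only [kord_map]

theorem picardOne_map : PicardOne (basisMap e B) (X.mapTop e) ↔ PicardOne B X := by
  rw [PicardOne, PicardOne, DVal.forall_map e]
  refine forall_congr' fun D₀ => ?_
  rw [isPrimeDiv_map]
  refine imp_congr_right fun _ => exists_congr fun N => exists_congr fun c => ?_
  rw [exists_map e]
  refine exists_congr fun f => ?_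
  rw [map_ne_zero, DVal.forall_map e]
  simp only [kord_map, isPrimeDiv_map, DVal.map_v', DVal.map_eq_iff]

/-! ### Mori fibre spaces -/

theorem Model.ext' {L : IntermediateField ℂ K} {S S' : Model L} (hN : S.N = S'.N)
    (hg : ∀ (i : Fin (S.N + 1)) (j : Fin (S'.N + 1)), (i : ℕ) = j → S.g i = S'.g j) : S = S' := by
  obtain ⟨N, g, h1, h2, h3, h4⟩ := S
  obtain ⟨N', g', h1', h2', h3', h4'⟩ := S'
  simp only at hN hg
  subst hN
  have : g = g' := by
    funext i
    exact hg i i rfl
  subst this
  rfl

theorem Model.map_map_symm {L : IntermediateField ℂ K} {L' : IntermediateField ℂ K'}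
    (h : ∀ x, e x ∈ L' ↔ x ∈ L) (h' : ∀ x, e.symm x ∈ L ↔ x ∈ L') (S : Model L') :
    (S.map e.symm h').map e h = S := by
  refine Model.ext' (S := (S.map e.symm h').map e h) (S' := S) rfl fun i j hij => ?_
  change e (e.symm (S.g i)) = S.g j
  rw [e.apply_symm_apply]
  congr 1
  exact Fin.ext hij

theorem mapTop_surjective : Function.Surjective
    (Model.mapTop e : Model (⊤ : IntermediateField ℂ K) → Model (⊤ : IntermediateField ℂ K')) :=
  fun Y => ⟨Y.mapTop e.symm, Model.map_map_symm e _ _ Y⟩

theorem hyp_map {L : IntermediateField ℂ K} {L' : IntermediateField ℂ K'}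
    (h : ∀ x, e x ∈ L' ↔ x ∈ L) (S : Model L) (D : DVal K) :
    hyp (S.map e h) (D.map e) = hyp S D := by
  change - Finset.univ.inf' Finset.univ_nonempty (fun j => (D.map e).v (e (S.g j))) =
    - Finset.univ.inf' Finset.univ_nonempty (fun j => D.v (S.g j))
  simp only [DVal.map_v']

theorem isAlgebraic_map {L : IntermediateField ℂ K} {L' : IntermediateField ℂ K'}
    (h : ∀ x, e x ∈ L' ↔ x ∈ L) {x : K} (hx : IsAlgebraic L x) : IsAlgebraic L' (e x) := by
  let f : L →+* L' := ((e : K →+* K').comp (algebraMap L K)).codRestrict L'.toSubfield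
    fun a => (h a).2 a.2
  have hf : Function.Injective f := f.injective
  exact hx.ringHom_of_comp_eq f (e : K →+* K') hf rfl

theorem isMoriFibreSpace_map {L : IntermediateField ℂ K} {L' : IntermediateField ℂ K'}
    (h : ∀ x, e x ∈ L' ↔ x ∈ L) (S : Model L) (H : IsMoriFibreSpace B X L S) :
    IsMoriFibreSpace (basisMap e B) (X.mapTop e) L' (S.map e h) where
  terminal := (isTerminal_map e X B).2 H.terminal
  connected y hy := by
    obtain ⟨x, rfl⟩ := e.surjective y
    rw [h]
    apply H.connected
    have h' : ∀ x, e.symm x ∈ L ↔ x ∈ L' := fun x => by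
      rw [← h, e.apply_symm_apply]
    have h1 := isAlgebraic_map e.symm h' hy
    rwa [e.symm_apply_apply] at h1
  dim hL := by
    apply H.dim
    rw [eq_top_iff]
    intro x _
    rw [← h, hL]
    exact IntermediateField.mem_top
  morphism V hV := by
    obtain ⟨V, rfl⟩ := placeMap_surjective e V
    rw [isPlace_map] at hV
    rw [locRing_mapTop]
    change locRing (fun j => e (S.g j)) (placeMap e V) ⊆ _
    rw [locRing_placeMap]
    exact Set.image_mono (H.morphism V hV)
  ample := by
    obtain ⟨a, b, ha, hab⟩ := H.ample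
    refine ⟨a, b, ha, ?_⟩
    rw [isAmple_map]
    simp only [kord_map, hyp_map]
    exact hab

theorem isom_map {Y : Model (⊤ : IntermediateField ℂ K)} (H : Isom X Y) :
    Isom (X.mapTop e) (Y.mapTop e) := by
  obtain ⟨σ, hσ⟩ := H
  refine ⟨(e.symm.trans σ).trans e, fun V hV => ?_⟩
  obtain ⟨V, rfl⟩ := placeMap_surjective e V
  rw [isPlace_map] at hV
  have h1 : (placeMap e V).comap ((((e.symm.trans σ).trans e).symm : K' ≃ₐ[ℂ] K') : K' →+* K') =
      placeMap e (V.comap (σ.symm : K →+* K)) := by
    ext y
    rw [ValuationSubring.mem_comap, mem_placeMap', mem_placeMap', ValuationSubring.mem_comap]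
    change e.symm (e (σ.symm (e.symm y))) ∈ V ↔ _
    rw [e.symm_apply_apply]
    rfl
  rw [h1, locRing_mapTop, locRing_mapTop, hσ V hV, Set.image_image, Set.image_image]
  ext y
  simp only [AlgEquiv.trans_apply, e.symm_apply_apply]

theorem isBirRigid_map (H : IsBirRigid B X) : IsBirRigid (basisMap e B) (X.mapTop e) := by
  obtain ⟨h1, h2, h3⟩ := H
  refine ⟨(isFano_map e X B).2 h1, (picardOne_map e X B).2 h2, fun Y' L' S' hY' => ?_⟩
  have hL : ∀ x, e.symm x ∈ L'.map (e.symm : K' →ₐ[ℂ] K) ↔ x ∈ L' := by
    intro x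
    constructor
    · rintro ⟨y, hy, hyx⟩
      have : y = x := e.symm.injective hyx
      rwa [← this]
    · intro hx
      exact ⟨x, hx, rfl⟩
  have H2 := isMoriFibreSpace_map e.symm Y' (basisMap e B) hL S' hY'
  have H3 := isMoriFibreSpace_basis _ B _ _ _ H2
  obtain ⟨h4, h5⟩ := h3 _ _ _ H3
  refine ⟨?_, ?_⟩
  · rw [eq_bot_iff]
    intro y hy
    have h6 : e.symm y ∈ (⊥ : IntermediateField ℂ K) := by
      rw [← h4, hL]
      exact hy
    obtain ⟨c, hc⟩ := IntermediateField.mem_bot.1 h6
    refine IntermediateField.mem_bot.2 ⟨c, ?_⟩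
    have h7 := congrArg e hc
    rwa [e.commutes, e.apply_symm_apply] at h7
  · have h6 := isom_map e X h5
    have h7 : (Y'.mapTop e.symm).mapTop e = Y' := Model.map_map_symm e _ _ Y'
    rwa [h7] at h6

/-! ### volumes -/

theorem sections_map (D : DVal K) (a : ℝ) (m : ℕ) (t : ℝ) :
    sections (basisMap e B) (X.mapTop e) (D.map e) a m t =
      (sections B X D a m t).map (e : K →ₐ[ℂ] K').toLinearMap := by
  rw [sections, sections, Submodule.map_span]
  congr 1
  ext y
  obtain ⟨x, rfl⟩ := e.surjective y
  have h1 : ∀ (p : K → Prop), e x ∈ ((e : K →ₐ[ℂ] K').toLinearMap '' {h | p h}) ↔ p x := by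
    intro p
    constructor
    · rintro ⟨z, hz, hzx⟩
      have : z = x := e.injective hzx
      rwa [← this]
    · intro h
      exact ⟨x, h, rfl⟩
  rw [h1, Set.mem_ofPred_eq, DVal.forall_map e]
  simp only [kord_map, isPrimeDiv_map, DVal.map_v', ne_eq, map_eq_zero]

theorem vol_map (D : DVal K) (a t : ℝ) :
    vol (basisMap e B) (X.mapTop e) (D.map e) a t = vol B X D a t := by
  unfold vol
  congr 1
  funext m
  rw [sections_map]
  congr 3
  exact (LinearEquiv.finrank_map_eq e.toLinearEquiv _)

theorem beta_map (D : DVal K) (a : ℝ) :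
    beta (basisMap e B) (X.mapTop e) (D.map e) a = beta B X D a := by
  unfold beta
  simp only [vol_map]

theorem isKStable_map : IsKStable (basisMap e B) (X.mapTop e) ↔ IsKStable B X := by
  rw [IsKStable, IsKStable, DVal.forall_map e]
  simp only [isLogDisc_map, beta_map]

end Pool.Agent.FR
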