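import Mathlib.AlgebraicGeometry.Birational.RationalMap
import Mathlib.AlgebraicGeometry.FunctionField
import Pool.Agent.FR.S1a
import Pool.Agent.FR.S2

/-!
Project FR, block S5: a homomorphism of function fields which maps the local rings into the local
rings comes from a morphism; an isomorphism of function fields which matches the local rings comes
from an isomorphism.
-/

set_option autoImplicit false

open AlgebraicGeometry CategoryTheory Pool.Agent.K1 Pool.Agent.FR.S

attribute [local instance] MvPolynomial.gradedAlgebra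

namespace Pool.Agent.FR
namespace S5

theorem exists_hom {A B K L : Type*} [CommRing A] [CommRing B] [CommRing K] [CommRing L]
    (i : A →+* K) (j : B →+* L) (hj : Function.Injective j) (σ : K →+* L)
    (h : ∀ a, ∃ b, j b = σ (i a)) : ∃ φ : A →+* B, j.comp φ = σ.comp i := by
  choose b hb using h
  refine ⟨{ toFun := b
            map_one' := hj (by rw [hb, map_one, map_one, map_one])
            map_zero' := hj (by rw [hb, map_zero, map_zero, map_zero])
            map_mul' := fun u v => hj (by rw [hb, map_mul, map_mul, map_mul, hb, hb])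
            map_add' := fun u v => hj (by rw [hb, map_add, map_add, map_add, hb, hb]) }, ?_⟩
  ext a
  exact hb a

variable {X Y Z S : Scheme.{0}} [IsIntegral X] [IsIntegral Y] [IsIntegral Z]

theorem gsp (x : X) : genericPoint X ⤳ x := (genericPoint_spec X).specializes trivial

instance gen_dominant : IsDominant (gen X) := by
  refine ⟨?_⟩
  have h1 : genericPoint X ∈ Set.range (gen X) := by
    rw [Scheme.range_fromSpecStalk]
    exact specializes_rfl
  rw [DenseRange, Dense]
  intro x
  have h2 : closure {genericPoint X} ⊆ closure (Set.range (gen X)) :=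
    closure_mono (Set.singleton_subset_iff.2 h1)
  exact h2 ((gsp x).mem_closure)

theorem alg_injective (x : X) : Function.Injective (X.presheaf.stalkSpecializes (gsp x)).hom :=
  IsFractionRing.injective (X.presheaf.stalk x) X.functionField

instance spec_dominant (x : X) : IsDominant (Spec.map (X.presheaf.stalkSpecializes (gsp x))) := by
  refine ⟨?_⟩
  exact (PrimeSpectrum.denseRange_comap_iff_ker_le_nilRadical _).2 (by
    rw [(RingHom.injective_iff_ker_eq_bot _).1 (alg_injective x)]
    exact bot_le)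

theorem exists_stalkHom (σ : X.functionField ⟶ Y.functionField) (x : X) (y : Y)
    (h : ∀ a : X.presheaf.stalk x, ∃ b : Y.presheaf.stalk y,
      algebraMap (Y.presheaf.stalk y) Y.functionField b =
        σ.hom (algebraMap (X.presheaf.stalk x) X.functionField a)) :
    ∃ φ : X.presheaf.stalk x ⟶ Y.presheaf.stalk y,
      X.presheaf.stalkSpecializes (gsp x) ≫ σ = φ ≫ Y.presheaf.stalkSpecializes (gsp y) := by
  obtain ⟨φ, hφ⟩ := exists_hom (X.presheaf.stalkSpecializes (gsp x)).hom
    (Y.presheaf.stalkSpecializes (gsp y)).hom (alg_injective y) σ.hom h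
  refine ⟨CommRingCat.ofHom φ, ?_⟩
  ext a
  exact (RingHom.congr_fun hφ a).symm

omit [IsIntegral X] in
theorem hom_ext [X.IsSeparated] {f g : Y ⟶ X} (h : gen Y ≫ f = gen Y ≫ g) : f = g :=
  ext_of_isDominant (gen Y) h

omit [IsIntegral X] in
theorem specStalk_ext [X.IsSeparated] (y : Y) {f g : Spec (Y.presheaf.stalk y) ⟶ X}
    (h : Spec.map (Y.presheaf.stalkSpecializes (gsp y)) ≫ f =
      Spec.map (Y.presheaf.stalkSpecializes (gsp y)) ≫ g) : f = g :=
  ext_of_isDominant (Spec.map (Y.presheaf.stalkSpecializes (gsp y))) h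

omit [IsIntegral X] in
theorem fromFunctionField_eq (f : Y.PartialMap X) (y : Y) (hy : y ∈ f.domain) :
    f.fromFunctionField =
      Spec.map (Y.presheaf.stalkSpecializes (gsp y)) ≫ f.fromSpecStalkOfMem hy := by
  rw [Scheme.PartialMap.fromFunctionField, Scheme.PartialMap.fromSpecStalkOfMem,
    Scheme.PartialMap.fromSpecStalkOfMem, ← Category.assoc]
  congr 1
  rw [← cancel_mono f.domain.ι, Category.assoc, Scheme.Opens.fromSpecStalkOfMem_ι,
    Scheme.Opens.fromSpecStalkOfMem_ι, Scheme.SpecMap_stalkSpecializes_fromSpecStalk]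

omit [IsIntegral X] in
theorem exists_of_domain (F : Scheme.RationalMap Y X) [X.IsSeparated] (htop : F.domain = ⊤) :
    ∃ f : Y ⟶ X, f.toRationalMap = F := by
  refine ⟨Y.topIso.inv ≫ (Y.isoOfEq htop.symm).hom ≫ F.toPartialMap.hom, ?_⟩
  have h1 : (Y.topIso.inv ≫ (Y.isoOfEq htop.symm).hom ≫ F.toPartialMap.hom).toPartialMap =
      F.toPartialMap := by
    refine Scheme.PartialMap.ext _ _ htop.symm ?_
    exact Iso.hom_inv_id_assoc _ _
  rw [Scheme.Hom.toRationalMap, h1, Scheme.RationalMap.toRationalMap_toPartialMap]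

theorem exists_hom_over (sX : X ⟶ S) (sY : Y ⟶ S) [LocallyOfFiniteType sX] [X.IsSeparated]
    [S.IsSeparated] (σ : X.functionField ⟶ Y.functionField)
    (hσ : Spec.map σ ≫ gen X ≫ sX = gen Y ≫ sY)
    (h : ∀ y : Y, ∃ x : X, ∀ a : X.presheaf.stalk x, ∃ b : Y.presheaf.stalk y,
      algebraMap (Y.presheaf.stalk y) Y.functionField b =
        σ.hom (algebraMap (X.presheaf.stalk x) X.functionField a)) :
    ∃ f : Y ⟶ X, f ≫ sX = sY ∧ gen Y ≫ f = Spec.map σ ≫ gen X := by
  set F : Scheme.RationalMap Y X := Scheme.RationalMap.ofFunctionField sY sX (Spec.map σ ≫ gen X)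
    (by rw [Category.assoc]; exact hσ) with hF
  have hFf : F.fromFunctionField = Spec.map σ ≫ gen X :=
    Scheme.RationalMap.fromFunctionField_ofFunctionField sY sX _ _
  have htop : F.domain = ⊤ := by
    refine top_unique fun y _ => ?_
    obtain ⟨x, hx⟩ := h y
    obtain ⟨φ, hφ⟩ := exists_stalkHom σ x y hx
    have h1 : Spec.map (Y.presheaf.stalkSpecializes (gsp y)) ≫ Spec.map φ ≫ X.fromSpecStalk x =
        Spec.map σ ≫ gen X := by
      rw [← Category.assoc, ← Spec.map_comp, ← hφ, Spec.map_comp, Category.assoc,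
        Scheme.SpecMap_stalkSpecializes_fromSpecStalk]
    have h2 : (Spec.map φ ≫ X.fromSpecStalk x) ≫ sX = Y.fromSpecStalk y ≫ sY := by
      apply specStalk_ext y
      rw [← Category.assoc, h1, Category.assoc, hσ, ← Category.assoc,
        Scheme.SpecMap_stalkSpecializes_fromSpecStalk]
    rw [Scheme.RationalMap.mem_domain]
    refine ⟨Scheme.PartialMap.ofFromSpecStalk sY sX (Spec.map φ ≫ X.fromSpecStalk x) h2,
      Scheme.PartialMap.mem_domain_ofFromSpecStalk _ _ _ _, ?_⟩
    apply Scheme.RationalMap.eq_of_fromFunctionField_eq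
    rw [hFf, Scheme.RationalMap.fromFunctionField_toRationalMap, fromFunctionField_eq _ y
      (Scheme.PartialMap.mem_domain_ofFromSpecStalk _ _ _ _),
      Scheme.PartialMap.fromSpecStalkOfMem_ofFromSpecStalk, h1]
  obtain ⟨f, hf⟩ := exists_of_domain F htop
  have h3 : gen Y ≫ f = Spec.map σ ≫ gen X := by
    rw [← hFf, ← hf, Scheme.Hom.toRationalMap, Scheme.RationalMap.fromFunctionField_toRationalMap]
    exact (Scheme.PartialMap.fromSpecStalkOfMem_toPartialMap f (genericPoint Y)).symm
  refine ⟨f, ?_, h3⟩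
  apply hom_ext
  rw [← Category.assoc, h3, Category.assoc, hσ]

theorem exists_iso_over (sX : X ⟶ S) (sY : Y ⟶ S) [LocallyOfFiniteType sX]
    [LocallyOfFiniteType sY] [X.IsSeparated] [Y.IsSeparated]
    [S.IsSeparated] (σ : X.functionField ≅ Y.functionField)
    (hσ : Spec.map σ.hom ≫ gen X ≫ sX = gen Y ≫ sY)
    (h : ∀ y : Y, ∃ x : X, ∀ a : X.presheaf.stalk x, ∃ b : Y.presheaf.stalk y,
      algebraMap (Y.presheaf.stalk y) Y.functionField b =
        σ.hom.hom (algebraMap (X.presheaf.stalk x) X.functionField a))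
    (h' : ∀ x : X, ∃ y : Y, ∀ b : Y.presheaf.stalk y, ∃ a : X.presheaf.stalk x,
      algebraMap (X.presheaf.stalk x) X.functionField a =
        σ.inv.hom (algebraMap (Y.presheaf.stalk y) Y.functionField b)) :
    ∃ e : Y ≅ X, e.hom ≫ sX = sY ∧ gen Y ≫ e.hom = Spec.map σ.hom ≫ gen X := by
  obtain ⟨f, hf, hf'⟩ := exists_hom_over sX sY σ.hom hσ h
  have hσ' : Spec.map σ.inv ≫ gen Y ≫ sY = gen X ≫ sX := by
    rw [← hσ, ← Category.assoc, ← Spec.map_comp, Iso.hom_inv_id, Spec.map_id, Category.id_comp]
  obtain ⟨g, hg, hg'⟩ := exists_hom_over sY sX σ.inv hσ' h'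
  refine ⟨⟨f, g, hom_ext ?_, hom_ext ?_⟩, hf, hf'⟩
  · rw [← Category.assoc, hf', Category.assoc, hg', ← Category.assoc, ← Spec.map_comp,
      Iso.inv_hom_id, Spec.map_id, Category.id_comp, Category.comp_id]
  · rw [← Category.assoc, hg', Category.assoc, hf', ← Category.assoc, ← Spec.map_comp,
      Iso.hom_inv_id, Spec.map_id, Category.id_comp, Category.comp_id]

/-- A point whose local ring is a field is the generic point. -/
theorem eq_generic_of_isField (x : X) (h : IsField (X.presheaf.stalk x)) : x = genericPoint X := by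
  have h1 : genericPoint X ∈ Set.range (X.fromSpecStalk x) := by
    rw [Scheme.range_fromSpecStalk]
    exact gsp x
  obtain ⟨p, hp⟩ := h1
  have h2 : p = IsLocalRing.closedPoint (X.presheaf.stalk x) := by
    let := h.toField
    exact Subsingleton.elim (α := PrimeSpectrum (X.presheaf.stalk x)) _ _
  rw [← hp, h2]
  exact (Scheme.fromSpecStalk_closedPoint).symm

section embed

variable {k : Type} [Field k] {X Y : Scheme.{0}} [IsIntegral X] [IsIntegral Y] {n m : ℕ}

instance toSpec_finiteType {X : Scheme.{0}} (i : X ⟶ PN k n) [IsClosedImmersion i] :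
    LocallyOfFiniteType (toSpec i) := by
  have h1 : LocallyOfFiniteType (Spec.map (CommRingCat.ofHom
      (algebraMap k (MvPolynomial.homogeneousSubmodule (Fin (n + 1)) k 0)))) := by
    rw [HasRingHomProperty.Spec_iff (P := @LocallyOfFiniteType)]
    apply RingHom.FiniteType.of_surjective
    intro r
    obtain ⟨a, ha⟩ := EmbAux.zero_eq_C r
    exact ⟨a, ha.symm⟩
  unfold toSpec
  infer_instance

theorem isSeparated_of {X : Scheme.{0}} (i : X ⟶ PN k n) [IsClosedImmersion i] :
    X.IsSeparated := by
  have h1 : (PN k n).IsSeparated := inferInstance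
  have h2 : Limits.terminal.from X = i ≫ Limits.terminal.from (PN k n) := Subsingleton.elim _ _
  have h3 : IsSeparated (Limits.terminal.from (PN k n)) := inferInstance
  refine ⟨?_⟩
  rw [h2]
  infer_instance

theorem fromSpecStalk_to {X : Scheme.{0}} {R : CommRingCat.{0}} (s : X ⟶ Spec R) (x : X) :
    X.fromSpecStalk x ≫ s = Spec.map ((Scheme.ΓSpecIso R).inv ≫ s.appTop ≫
      X.presheaf.germ ⊤ x trivial) := by
  apply ext_of_isAffine
  rw [Scheme.Hom.comp_appTop, EmbAux.fromSpecStalk_appTop' x]
  rw [← cancel_mono (Scheme.ΓSpecIso (X.presheaf.stalk x)).hom, Scheme.ΓSpecIso_naturality]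
  simp only [Category.assoc, Iso.inv_hom_id, Category.comp_id, Iso.hom_inv_id_assoc]

/-- The scalars as functions. -/
theorem str_eq {X : Scheme.{0}} (i : X ⟶ PN k n) :
    ((Scheme.ΓSpecIso (.of k)).inv ≫ (toSpec i).appTop).hom = EmbAux.strE i := by
  have h1 : (Scheme.ΓSpecIso (.of k)).inv ≫ (toSpec i).appTop =
      CommRingCat.ofHom (algebraMap k (MvPolynomial.homogeneousSubmodule (Fin (n + 1)) k 0)) ≫
      (Scheme.ΓSpecIso (.of (MvPolynomial.homogeneousSubmodule (Fin (n + 1)) k 0))).inv ≫
        (EmbAux.sf i).appTop := by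
    rw [toSpec, ← Category.assoc i, Scheme.Hom.comp_appTop, ← Category.assoc, ← Category.assoc,
      ← Scheme.ΓSpecIso_inv_naturality]
    rfl
  rw [h1]
  rfl

theorem gen_toSpec (i : X ⟶ PN k n) : gen X ≫ toSpec i = Spec.map (CommRingCat.ofHom
    ((X.presheaf.germ ⊤ (genericPoint X) trivial).hom.comp (EmbAux.strE i))) := by
  rw [gen, fromSpecStalk_to, ← Category.assoc]
  congr 1
  ext a
  exact congrArg (X.presheaf.germ ⊤ (genericPoint X) trivial).hom
    (RingHom.congr_fun (str_eq i) a)

variable (i : X ⟶ PN k n) (j : Y ⟶ PN k m)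

/-- The condition that the homomorphism of function fields is `k`-linear. -/
theorem over_of_str (E : EmbedData k X n) (F : EmbedData k Y m) (hE : E.str = EmbAux.strE i)
    (hF : F.str = EmbAux.strE j) (σ : X.functionField →+* Y.functionField)
    (hσ : ∀ a, σ (E.kf a) = F.kf a) :
    Spec.map (CommRingCat.ofHom σ) ≫ gen X ≫ toSpec i = gen Y ≫ toSpec j := by
  rw [gen_toSpec, gen_toSpec, ← Spec.map_comp]
  congr 1
  ext a
  have h := hσ a
  rw [EmbedData.kf, EmbedData.kf, hE, hF] at h
  exact h

/-- A `k`-linear homomorphism of function fields which maps some local ring of `X` into each local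
ring of `Y` comes from a morphism over `k`. -/
theorem exists_hom_of_loc [IsClosedImmersion i] (E : EmbedData k X n) (F : EmbedData k Y m)
    (hE : E.str = EmbAux.strE i)
    (hF : F.str = EmbAux.strE j) (σ : X.functionField →+* Y.functionField)
    (hσ : ∀ a, σ (E.kf a) = F.kf a)
    (h : ∀ y : Y, ∃ x : X, (loc x).map σ ≤ loc y) :
    ∃ f : Y ⟶ X, f ≫ toSpec i = toSpec j ∧
      gen Y ≫ f = Spec.map (CommRingCat.ofHom σ) ≫ gen X := by
  have := isSeparated_of i
  refine exists_hom_over (toSpec i) (toSpec j) (CommRingCat.ofHom σ)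
    (over_of_str i j E F hE hF σ hσ) fun y => ?_
  obtain ⟨x, hx⟩ := h y
  exact ⟨x, fun a => hx ⟨_, ⟨a, rfl⟩, rfl⟩⟩

/-- A `k`-linear isomorphism of function fields which matches the local rings comes from an
isomorphism over `k`. -/
theorem exists_iso_of_loc [IsClosedImmersion i] [IsClosedImmersion j] (E : EmbedData k X n)
    (F : EmbedData k Y m) (hE : E.str = EmbAux.strE i)
    (hF : F.str = EmbAux.strE j) (σ : X.functionField ≃+* Y.functionField)
    (hσ : ∀ a, σ (E.kf a) = F.kf a)
    (h : ∀ y : Y, ∃ x : X, (loc x).map (σ : X.functionField →+* Y.functionField) ≤ loc y)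
    (h' : ∀ x : X, ∃ y : Y, (loc y).map (σ.symm : Y.functionField →+* X.functionField) ≤ loc x) :
    ∃ e : Y ≅ X, e.hom ≫ toSpec i = toSpec j ∧
      gen Y ≫ e.hom = Spec.map (CommRingCat.ofHom (σ : X.functionField →+* Y.functionField)) ≫
        gen X := by
  have := isSeparated_of i
  have := isSeparated_of j
  refine exists_iso_over (toSpec i) (toSpec j) σ.toCommRingCatIso
    (over_of_str i j E F hE hF σ hσ) (fun y => ?_) (fun x => ?_)
  · obtain ⟨x, hx⟩ := h y
    exact ⟨x, fun a => hx ⟨_, ⟨a, rfl⟩, rfl⟩⟩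
  · obtain ⟨y, hy⟩ := h' x
    exact ⟨y, fun a => hy ⟨_, ⟨a, rfl⟩, rfl⟩⟩

/-- The same with places: the centres of corresponding places have the same local ring. -/
theorem exists_iso_of_centres [IsClosedImmersion i] [IsClosedImmersion j] (E : Embed k X n)
    (F : Embed k Y m) (hE : E.str = EmbAux.strE i)
    (hF : F.str = EmbAux.strE j) (σ : X.functionField ≃+* Y.functionField)
    (hσ : ∀ a, σ (E.kf a) = F.kf a)
    (h : ∀ (V : ValuationSubring Y.functionField) (x : X) (y : Y),
      IsCentre (V.comap (σ : X.functionField →+* Y.functionField)) x → IsCentre V y →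
      (loc x).map (σ : X.functionField →+* Y.functionField) = loc y) :
    ∃ e : Y ≅ X, e.hom ≫ toSpec i = toSpec j ∧
      gen Y ≫ e.hom = Spec.map (CommRingCat.ofHom (σ : X.functionField →+* Y.functionField)) ≫
        gen X := by
  refine exists_iso_of_loc i j E.toEmbedData F.toEmbedData hE hF σ hσ (fun y => ?_) fun x => ?_
  · obtain ⟨V, hV⟩ := exists_isCentre y
    obtain ⟨x, hx⟩ := exists_centre' E (V.comap (σ : X.functionField →+* Y.functionField))
      fun a => by
        rw [ValuationSubring.mem_comap, RingEquiv.coe_toRingHom, hσ]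
        exact hV.mem (s1_kf_mem F y a)
    exact ⟨x, (h V x y hx hV).le⟩
  · obtain ⟨V, hV⟩ := exists_isCentre x
    obtain ⟨y, hy⟩ := exists_centre' F (V.comap (σ.symm : Y.functionField →+* X.functionField))
      fun a => by
        rw [ValuationSubring.mem_comap, RingEquiv.coe_toRingHom, ← hσ, RingEquiv.symm_apply_apply]
        exact hV.mem (s1_kf_mem E x a)
    have h1 : (V.comap (σ.symm : Y.functionField →+* X.functionField)).comap
        (σ : X.functionField →+* Y.functionField) = V := by
      ext a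
      rw [ValuationSubring.mem_comap, ValuationSubring.mem_comap, RingEquiv.coe_toRingHom,
        RingEquiv.coe_toRingHom, RingEquiv.symm_apply_apply]
    have h2 := h _ x y (by rw [h1]; exact hV) hy
    refine ⟨y, ?_⟩
    rw [← h2]
    rintro _ ⟨_, ⟨a, ha, rfl⟩, rfl⟩
    change σ.symm (σ a) ∈ loc x
    rw [RingEquiv.symm_apply_apply]
    exact ha

/-- If all rational functions are constants then there is only one point. -/
theorem subsingleton_of_kf_surjective (E : Embed k X n)
    (h : ∀ f : X.functionField, ∃ a, E.kf a = f) : Subsingleton X := by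
  have h1 : ∀ x : X, x = genericPoint X := fun x => by
    apply eq_generic_of_isField
    refine ⟨⟨0, 1, zero_ne_one⟩, mul_comm, fun {a} ha => ?_⟩
    obtain ⟨c, hc⟩ := h (algebraMap (X.presheaf.stalk x) X.functionField a)⁻¹
    obtain ⟨b, hb⟩ := s1_kf_mem E x c
    refine ⟨b, s1_inj x ?_⟩
    rw [map_mul, hb, hc, map_one]
    exact mul_inv_cancel₀ (s1_ne_zero.2 ha)
  exact ⟨fun x y => (h1 x).trans (h1 y).symm⟩

end embed

end S5
end Pool.Agent.FR
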