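import Pool.Agent.FR.S1c
import Pool.Agent.K1.DFun

/-!
Project FR, block S (bridge to schemes), part S6a: dominant morphisms between closed subschemes of
projective spaces, and the models of subfields which they define (helper3).
-/

set_option autoImplicit false

open AlgebraicGeometry CategoryTheory Pool.Agent.K1

namespace Pool.Agent.FR.S

section fmap

variable {Y S : Scheme.{0}} [IsIntegral Y] [IsIntegral S] (φ : Y ⟶ S)

/-- A dominant morphism maps the generic point to the generic point. -/
theorem s6_generic [IsDominant φ] : φ (genericPoint Y) = genericPoint S := by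
  have h1 : IsGenericPoint (φ (genericPoint Y)) (⊤ : Set S) := by
    rw [isGenericPoint_def]
    have h2 := φ.denseRange.closure_range
    rw [Set.top_eq_univ, ← Set.univ_subset_iff, ← h2]
    refine closure_minimal ?_ isClosed_closure
    rintro _ ⟨y, rfl⟩
    have h3 : genericPoint Y ⤳ y := (genericPoint_spec Y).specializes trivial
    exact (h3.map φ.continuous).mem_closure
  exact h1.eq (genericPoint_spec S)

/-- The homomorphism of function fields of a dominant morphism. -/
noncomputable def fmap [IsDominant φ] : S.functionField →+* Y.functionField :=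
  (exists_psi φ (s6_generic φ)).choose

variable {φ} [IsDominant φ]

theorem fmap_stalk (y : Y) (a : S.presheaf.stalk (φ y)) :
    fmap φ (algebraMap _ S.functionField a) =
      algebraMap (Y.presheaf.stalk y) Y.functionField ((φ.stalkMap y).hom a) :=
  (exists_psi φ (s6_generic φ)).choose_spec y a

/-- The homomorphism of function fields and sections. -/
theorem fmap_germ {U : S.Opens} (hη : genericPoint S ∈ U)
    (hη' : genericPoint Y ∈ φ ⁻¹ᵁ U) (a : Γ(S, U)) :
    fmap φ ((S.presheaf.germ U (genericPoint S) hη).hom a) =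
      (Y.presheaf.germ (φ ⁻¹ᵁ U) (genericPoint Y) hη').hom ((φ.app U).hom a) := by
  have h1 : φ (genericPoint Y) ∈ U := hη'
  rw [← s1_germ hη h1, fmap_stalk]
  have h2 := Scheme.Hom.germ_stalkMap_apply φ U (genericPoint Y) h1 a
  rw [← s1_germ hη' hη' ((φ.app U).hom a)]
  congr 1

theorem fmap_loc {y : Y} {f : S.functionField} (hf : f ∈ loc (φ y)) : fmap φ f ∈ loc y := by
  obtain ⟨a, rfl⟩ := hf
  rw [fmap_stalk]
  exact ⟨_, rfl⟩

/-- The image of the centre is the centre of the restriction. -/
theorem IsCentre.fmap {V : ValuationSubring Y.functionField} {y : Y} (h : IsCentre V y) :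
    IsCentre (V.comap (fmap φ)) (φ y) := by
  intro a
  rw [ValuationSubring.mem_comap, ValuationSubring.mem_comap, map_inv₀, fmap_stalk]
  obtain ⟨h1, h2⟩ := h ((φ.stalkMap y).hom a)
  refine ⟨h1, fun h0 hi => ?_⟩
  have h3 : (φ.stalkMap y).hom a ≠ 0 := by
    rw [← s1_ne_zero, ← fmap_stalk, map_ne_zero, s1_ne_zero]
    exact h0
  exact (isUnit_map_iff (φ.stalkMap y).hom a).1 (h2 h3 hi)

end fmap

section alg

variable {Y S : Scheme.{0}} [IsIntegral Y] [IsIntegral S] {φ : Y ⟶ S} [IsDominant φ]
  {n m : ℕ} {EY : Embed ℂ Y n} {ES : Embed ℂ S m}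
  [Algebra ℂ Y.functionField] [Algebra ℂ S.functionField]

omit [Algebra ℂ Y.functionField] [Algebra ℂ S.functionField] in
theorem fmap_kf (h : ∀ c, φ.appTop.hom (ES.str c) = EY.str c) (c : ℂ) :
    fmap φ (ES.kf c) = EY.kf c := by
  have h1 := fmap_germ (φ := φ) (U := ⊤) trivial trivial (ES.str c)
  refine h1.trans ?_
  have h2 : (φ.app ⊤).hom (ES.str c) = EY.str c := h c
  rw [h2]
  rfl

/-- The homomorphism of function fields over `ℂ`. -/
noncomputable def fmapA (hkY : ∀ c : ℂ, algebraMap ℂ Y.functionField c = EY.kf c)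
    (hkS : ∀ c : ℂ, algebraMap ℂ S.functionField c = ES.kf c)
    (h : ∀ c, φ.appTop.hom (ES.str c) = EY.str c) : S.functionField →ₐ[ℂ] Y.functionField where
  toRingHom := fmap φ
  commutes' c := by
    change fmap φ _ = _
    rw [hkS, hkY, fmap_kf h]

theorem fmapA_apply (hkY : ∀ c : ℂ, algebraMap ℂ Y.functionField c = EY.kf c)
    (hkS : ∀ c : ℂ, algebraMap ℂ S.functionField c = ES.kf c)
    (h : ∀ c, φ.appTop.hom (ES.str c) = EY.str c) (f : S.functionField) :
    fmapA hkY hkS h f = fmap φ f := rfl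

variable {N M : ℕ} {gY : Fin (N + 1) → Y.functionField} {gS : Fin (M + 1) → S.functionField}

/-- The local rings of the base, in the function field of `Y`. -/
theorem locRing_fmap (hkY : ∀ c : ℂ, algebraMap ℂ Y.functionField c = EY.kf c)
    (hkS : ∀ c : ℂ, algebraMap ℂ S.functionField c = ES.kf c)
    (h : ∀ c, φ.appTop.hom (ES.str c) = EY.str c) (hgS : IsCoord ES gS)
    {V : ValuationSubring Y.functionField} {y : Y} (hy : IsCentre V y) :
    locRing (fun j => fmapA hkY hkS h (gS j)) V = fmap φ '' (loc (φ y)) := by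
  rw [locRing_map]
  have h1 : V.comap ((fmapA hkY hkS h : S.functionField →ₐ[ℂ] Y.functionField) :
      S.functionField →+* Y.functionField) = V.comap (fmap φ) := rfl
  rw [h1, ← loc_eq_locRing hkS hgS hy.fmap]
  rfl

/-- The model of the subfield of the function field of `Y` which is defined by the base. -/
noncomputable def baseModel (hkY : ∀ c : ℂ, algebraMap ℂ Y.functionField c = EY.kf c)
    (hkS : ∀ c : ℂ, algebraMap ℂ S.functionField c = ES.kf c)
    (h : ∀ c, φ.appTop.hom (ES.str c) = EY.str c) (hgS : IsCoord ES gS)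
    (hn : ∀ x : S, IsIntegrallyClosed (S.presheaf.stalk x)) :
    Model (fmapA hkY hkS h).fieldRange where
  N := M
  g := fun j => fmapA hkY hkS h (gS j)
  ne i := (map_ne_zero _).2 (hgS.ne i)
  mem i := ⟨gS i, rfl⟩
  frac x hx := by
    obtain ⟨f, rfl⟩ := hx
    obtain ⟨a, ha, b, hb, hb0, rfl⟩ := s1_frac hkS hgS 0 f
    exact ⟨_, (s1_mem_adjoin_map gS 0 (fmapA hkY hkS h)).2 ha, _,
      (s1_mem_adjoin_map gS 0 (fmapA hkY hkS h)).2 hb, (map_ne_zero _).2 hb0,
      map_div₀ (fmapA hkY hkS h) a b⟩
  normal V hV x hx := by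
    rintro ⟨p, hp, hc, h0⟩
    obtain ⟨f, rfl⟩ := hx
    obtain ⟨y, hy, -⟩ := exists_unique_centre hkY hV
    rw [locRing_fmap hkY hkS h hgS hy] at hc ⊢
    have h1 : p ∈ Polynomial.lifts (fmap φ) := by
      rw [Polynomial.lifts_iff_coeff_lifts]
      intro i
      obtain ⟨c, -, hc'⟩ := hc i
      exact ⟨c, hc'⟩
    obtain ⟨q, hq, -, hqm⟩ := Polynomial.lifts_and_degree_eq_and_monic h1 hp
    refine ⟨f, s1_integral (hn _) q hqm ?_ ?_, rfl⟩
    · intro i
      obtain ⟨c, hc1, hc2⟩ := hc i
      rw [← hq, Polynomial.coeff_map] at hc2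
      rw [← (fmap φ).injective hc2]
      exact hc1
    · apply (fmap φ).injective
      rw [map_zero, ← Polynomial.eval_map_apply, hq]
      exact h0

theorem baseModel_loc (hkY : ∀ c : ℂ, algebraMap ℂ Y.functionField c = EY.kf c)
    (hkS : ∀ c : ℂ, algebraMap ℂ S.functionField c = ES.kf c)
    (h : ∀ c, φ.appTop.hom (ES.str c) = EY.str c) (hgS : IsCoord ES gS)
    (hn : ∀ x : S, IsIntegrallyClosed (S.presheaf.stalk x))
    {V : ValuationSubring Y.functionField} {y : Y} (hy : IsCentre V y) :
    locRing (baseModel hkY hkS h hgS hn).g V = fmap φ '' (loc (φ y)) :=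
  locRing_fmap hkY hkS h hgS hy

/-- (S6): the map of models defined by a dominant morphism is a morphism in the sense of the
engine. -/
theorem baseModel_morphism (hkY : ∀ c : ℂ, algebraMap ℂ Y.functionField c = EY.kf c)
    (hkS : ∀ c : ℂ, algebraMap ℂ S.functionField c = ES.kf c)
    (h : ∀ c, φ.appTop.hom (ES.str c) = EY.str c) (hgS : IsCoord ES gS)
    (hn : ∀ x : S, IsIntegrallyClosed (S.presheaf.stalk x)) (hgY : IsCoord EY gY)
    (hnY : ∀ y : Y, IsIntegrallyClosed (Y.presheaf.stalk y))
    (V : ValuationSubring Y.functionField) (hV : IsPlace V) :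
    locRing (baseModel hkY hkS h hgS hn).g V ⊆ locRing (schemeModel hkY hgY hnY).g V := by
  obtain ⟨y, hy, -⟩ := exists_unique_centre hkY hV
  rw [baseModel_loc hkY hkS h hgS hn hy, schemeModel_loc hkY hgY hnY hy]
  rintro _ ⟨f, hf, rfl⟩
  exact fmap_loc hf

end alg

end Pool.Agent.FR.S
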