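import Pool.Agent.FR.S6a
import Pool.Agent.K1.NormalEmbedGeo

/-!
Project FR, block S (bridge to schemes), part S6b: if `O_S → φ_* O_Y` is surjective and `Y` is
normal, then the function field of `S` is algebraically closed in the function field of `Y`
(helper3).
-/

set_option autoImplicit false

open AlgebraicGeometry CategoryTheory Pool.Agent.K1

namespace Pool.Agent.FR.S

/-- A rational function is regular on a neighbourhood of the generic point. -/
theorem s6_exists_open {S : Scheme.{0}} [IsIntegral S] (f : S.functionField) :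
    ∃ U : S.Opens, genericPoint S ∈ U ∧ ∀ z ∈ U, f ∈ loc z := by
  obtain ⟨U, hU, s, hs⟩ := S.presheaf.exists_germ_eq f
  refine ⟨U, hU, fun z hz => ?_⟩
  refine ⟨(S.presheaf.germ U z hz).hom s, ?_⟩
  rw [s1_germ hU hz]
  exact hs

/-- Finitely many rational functions are regular on a neighbourhood of the generic point. -/
theorem s6_exists_open_fin {S : Scheme.{0}} [IsIntegral S] (c : ℕ → S.functionField) (n : ℕ) :
    ∃ U : S.Opens, genericPoint S ∈ U ∧ ∀ i < n, ∀ z ∈ U, c i ∈ loc z := by
  induction n with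
  | zero => exact ⟨⊤, trivial, fun i hi => absurd hi (Nat.not_lt_zero i)⟩
  | succ n ih =>
    obtain ⟨U, hU, hc⟩ := ih
    obtain ⟨W, hW, hc'⟩ := s6_exists_open (c n)
    refine ⟨U ⊓ W, ⟨hU, hW⟩, fun i hi z hz => ?_⟩
    rcases Nat.lt_succ_iff_lt_or_eq.1 hi with h | rfl
    · exact hc i h z hz.1
    · exact hc' z hz.2

/-- A rational function which is regular at all points of an open set is a section. -/
theorem s6_section {X : Scheme.{0}} [IsIntegral X] (V : X.Opens) (hV : genericPoint X ∈ V)
    (f : X.functionField) (h : ∀ x ∈ V, f ∈ loc x) :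
    ∃ s : Γ(X, V), (X.presheaf.germ V (genericPoint X) hV).hom s = f :=
  NormEmb.mem_range_germ V hV f h

section

variable {Y S : Scheme.{0}} [IsIntegral Y] [IsIntegral S] {φ : Y ⟶ S} [IsDominant φ]

/-- The function field of `S` is algebraically closed in the function field of `Y`. -/
theorem s6_connected (hc : ∀ U : S.Opens, IsAffineOpen U → Function.Surjective (φ.app U).hom)
    (hnY : ∀ y : Y, IsIntegrallyClosed (Y.presheaf.stalk y)) (x : Y.functionField)
    (p : Polynomial Y.functionField) (hp : p.Monic) (hp' : ∀ i, ∃ c, fmap φ c = p.coeff i)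
    (h0 : p.eval x = 0) : ∃ f, fmap φ f = x := by
  choose c hc' using hp'
  obtain ⟨W, hW, hcW⟩ := s6_exists_open_fin c (p.natDegree + 1)
  obtain ⟨_, ⟨U, hU, rfl⟩, hgU, hUW⟩ :=
    S.isBasis_affineOpens.exists_subset_of_mem_open hW W.isOpen
  have hη : genericPoint Y ∈ φ ⁻¹ᵁ U := by
    change φ (genericPoint Y) ∈ U
    rw [s6_generic φ]
    exact hgU
  obtain ⟨s, hs⟩ := s6_section (φ ⁻¹ᵁ U) hη x (by
    intro y hy
    refine s1_integral (hnY y) p hp ?_ h0
    intro i
    rw [← hc' i]
    apply fmap_loc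
    by_cases hi : i < p.natDegree + 1
    · exact hcW i hi _ (hUW hy)
    · have h1 : p.coeff i = 0 := Polynomial.coeff_eq_zero_of_natDegree_lt (by omega)
      rw [← hc' i, map_eq_zero] at h1
      rw [h1]
      exact Subring.zero_mem _)
  obtain ⟨t, rfl⟩ := hc U hU s
  exact ⟨_, (fmap_germ hgU hη t).trans hs⟩

end

section alg

variable {Y S : Scheme.{0}} [IsIntegral Y] [IsIntegral S] {φ : Y ⟶ S} [IsDominant φ]
  {n m : ℕ} {EY : Embed ℂ Y n} {ES : Embed ℂ S m}
  [Algebra ℂ Y.functionField] [Algebra ℂ S.functionField]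

/-- The field `connected` of Mori fibre spaces. -/
theorem baseModel_connected (hkY : ∀ c : ℂ, algebraMap ℂ Y.functionField c = EY.kf c)
    (hkS : ∀ c : ℂ, algebraMap ℂ S.functionField c = ES.kf c)
    (h : ∀ c, φ.appTop.hom (ES.str c) = EY.str c)
    (hc : ∀ U : S.Opens, IsAffineOpen U → Function.Surjective (φ.app U).hom)
    (hnY : ∀ y : Y, IsIntegrallyClosed (Y.presheaf.stalk y)) (x : Y.functionField)
    (hx : IsAlgebraic (fmapA hkY hkS h).fieldRange x) : x ∈ (fmapA hkY hkS h).fieldRange := by
  have hi : IsIntegral (fmapA hkY hkS h).fieldRange x := hx.isIntegral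
  obtain ⟨f, hf⟩ := s6_connected hc hnY x
    ((minpoly (fmapA hkY hkS h).fieldRange x).map
      (algebraMap (fmapA hkY hkS h).fieldRange Y.functionField))
    ((minpoly.monic hi).map _) (by
      intro i
      rw [Polynomial.coeff_map]
      obtain ⟨c, hc⟩ := ((minpoly (fmapA hkY hkS h).fieldRange x).coeff i).2
      exact ⟨c, hc⟩) (by
      rw [Polynomial.eval_map_algebraMap]
      exact minpoly.aeval _ x)
  exact ⟨f, hf⟩

end alg

end Pool.Agent.FR.S
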