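import Pool.Agent.FR.S6b

/-!
Project FR, block S (bridge to schemes), part S6c: dimensions (helper3).
-/

set_option autoImplicit false

open AlgebraicGeometry CategoryTheory Pool.Agent.K1

namespace Pool.Agent.FR.S

/-- The dimension of a closed subscheme of projective space is the transcendence degree of its
function field. -/
theorem s6_dim {X : Scheme.{0}} [IsIntegral X] {n : ℕ} {E : Embed ℂ X n}
    [alg : Algebra ℂ X.functionField] (hk : ∀ c : ℂ, algebraMap ℂ X.functionField c = E.kf c) :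
    ∃ s : ℕ, topologicalKrullDim X = s ∧ Algebra.trdeg ℂ X.functionField = s := by
  have halg : alg = E.kf.toAlgebra := by
    apply Algebra.algebra_ext
    intro c
    exact hk c
  subst halg
  let _ := E.kf.toAlgebra
  have hall : ∀ x : X, ∃ s : ℕ, Algebra.trdeg ℂ X.functionField = s ∧
      Order.coheight x ≤ s ∧ ∃ y : X, Order.coheight y = s := by
    intro x
    obtain ⟨j, hj⟩ := E.cover x
    have hη := s1_generic_mem hj
    have haff := (E.affine _ (s1_l_ne_zero E hj)).1
    obtain ⟨s, h1, h2, h3⟩ := af_trdeg E _ hη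
    refine ⟨s, h3, ?_, ?_⟩
    · obtain ⟨P, rfl⟩ := af_surj haff hj
      rw [af_coheight]
      have h4 := Ideal.height_le_ringKrullDim_of_ne_top P.isPrime.ne_top
      rw [h2] at h4
      exact_mod_cast h4
    · have hne : Nonempty (E.U (Pi.single j 1)) := ⟨⟨_, hη⟩⟩
      obtain ⟨m, hm⟩ := Ideal.exists_maximal Γ(X, E.U (Pi.single j 1))
      refine ⟨haff.fromSpec ⟨m, hm.isPrime⟩, ?_⟩
      rw [af_coheight]
      exact h1 m hm
  obtain ⟨s, h1, -, y, hy⟩ := hall (genericPoint X)
  refine ⟨s, ?_, h1⟩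
  have h2 : topologicalKrullDim X = Order.krullDim X :=
    Order.krullDim_eq_of_orderIso (irreducibleSetEquivPoints (α := X))
  have hne : Nonempty X := ⟨genericPoint X⟩
  rw [h2, Order.krullDim_eq_iSup_coheight_of_nonempty]
  have h3 : (⨆ a : X, Order.coheight a) = (s : ℕ∞) := by
    apply le_antisymm
    · refine iSup_le fun a => ?_
      obtain ⟨s', h4, h5, -⟩ := hall a
      have h6 : s' = s := by
        have h7 := h4.symm.trans h1
        exact_mod_cast h7
      rw [← h6]
      exact h5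
    · rw [← hy]
      exact le_iSup (fun a : X => Order.coheight a) y
  rw [h3]
  rfl

section alg

variable {Y S : Scheme.{0}} [IsIntegral Y] [IsIntegral S] {φ : Y ⟶ S} [IsDominant φ]
  {n m : ℕ} {EY : Embed ℂ Y n} {ES : Embed ℂ S m}
  [Algebra ℂ Y.functionField] [Algebra ℂ S.functionField]

theorem fieldRange_ne_top_of_trdeg (hkY : ∀ c : ℂ, algebraMap ℂ Y.functionField c = EY.kf c)
    (hkS : ∀ c : ℂ, algebraMap ℂ S.functionField c = ES.kf c)
    (h : ∀ c, φ.appTop.hom (ES.str c) = EY.str c)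
    (hd : Algebra.trdeg ℂ S.functionField < Algebra.trdeg ℂ Y.functionField) :
    (fmapA hkY hkS h).fieldRange ≠ ⊤ := by
  intro htop
  have hs : Function.Surjective (fmapA hkY hkS h) := by
    rw [← AlgHom.fieldRange_eq_top]
    exact htop
  have e : S.functionField ≃ₐ[ℂ] Y.functionField :=
    AlgEquiv.ofBijective (fmapA hkY hkS h) ⟨(fmapA hkY hkS h).toRingHom.injective, hs⟩
  rw [e.trdeg_eq] at hd
  exact lt_irrefl _ hd

/-- The field `dim` of Mori fibre spaces. -/
theorem fieldRange_ne_top (hkY : ∀ c : ℂ, algebraMap ℂ Y.functionField c = EY.kf c)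
    (hkS : ∀ c : ℂ, algebraMap ℂ S.functionField c = ES.kf c)
    (h : ∀ c, φ.appTop.hom (ES.str c) = EY.str c)
    (hd : topologicalKrullDim S < topologicalKrullDim Y) :
    (fmapA hkY hkS h).fieldRange ≠ ⊤ := by
  apply fieldRange_ne_top_of_trdeg
  obtain ⟨s, h1, h2⟩ := s6_dim hkY
  obtain ⟨t, h3, h4⟩ := s6_dim hkS
  rw [h1, h3] at hd
  rw [h2, h4]
  exact_mod_cast hd

end alg

end Pool.Agent.FR.S
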