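import Pool.Agent.FR.S5
import Pool.Agent.FR.S6b

/-!
Project FR, block S7: if the fibres over the closed points are connected then the function field of
the base is algebraically closed in the function field of the total space.
-/

set_option autoImplicit false

open AlgebraicGeometry CategoryTheory Pool.Agent.K1 Pool.Agent.FR.S Pool.Agent.FR.S5

attribute [local instance] MvPolynomial.gradedAlgebra

namespace Pool.Agent.FR
namespace S7

open Polynomial IsLocalRing

/-- A valuation ring centred at a point of the fibre where the factor `f` vanishes. -/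
theorem exists_val {A K : Type*} [CommRing A] [IsLocalRing A] [Field K] (ρ : A →+* K) (x : K)
    (P f : A[X]) (hP : ∀ g : A[X], g.eval₂ ρ x = 0 → P ∣ g)
    (hf : f.map (residue A) ∣ P.map (residue A)) (hf1 : ¬ IsUnit (f.map (residue A))) :
    ∃ V : ValuationSubring K, (∀ g : A[X], g.eval₂ ρ x ∈ V) ∧
      (∀ a ∈ maximalIdeal A, ρ a ≠ 0 → (ρ a)⁻¹ ∉ V) ∧
      (f.eval₂ ρ x ≠ 0 → (f.eval₂ ρ x)⁻¹ ∉ V) := by
  obtain ⟨M', hM', hfM⟩ := exists_max_ideal_of_mem_nonunits
    (mem_nonunits_iff.2 hf1)
  have hM'p := hM'.isPrime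
  set M : Ideal A[X] := M'.comap (mapRingHom (residue A)) with hM
  have hMp : M.IsPrime := inferInstance
  have h1 : ∀ g : A[X], g ∉ M → IsUnit (eval₂RingHom ρ x g) := by
    intro g hg
    rw [isUnit_iff_ne_zero]
    intro h0
    obtain ⟨q, hq⟩ := hP g h0
    apply hg
    rw [hq]
    apply M.mul_mem_right
    change P.map (residue A) ∈ M'
    exact M'.mem_of_dvd hf hfM
  obtain ⟨V, hV, hloc⟩ := exists_factor_valuationRing
    (IsLocalization.lift (M := M.primeCompl) (S := Localization.AtPrime M)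
      (g := eval₂RingHom ρ x) fun y => h1 y.1 y.2)
  have h2 : ∀ g : A[X], g.eval₂ ρ x ∈ V := by
    intro g
    have h3 := hV (algebraMap _ _ g)
    rw [IsLocalization.lift_eq] at h3
    exact h3
  have h3 : ∀ g ∈ M, g.eval₂ ρ x ≠ 0 → (g.eval₂ ρ x)⁻¹ ∉ V := by
    intro g hg h0 hi
    have h4 : IsUnit ((IsLocalization.lift (M := M.primeCompl) (S := Localization.AtPrime M)
      (g := eval₂RingHom ρ x) fun y => h1 y.1 y.2).codRestrict V.toSubring hV
        (algebraMap _ _ g)) := by
      refine IsUnit.of_mul_eq_one (⟨_, hi⟩ : V) (Subtype.ext ?_)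
      change (IsLocalization.lift (M := M.primeCompl) (S := Localization.AtPrime M)
        (g := eval₂RingHom ρ x) fun y => h1 y.1 y.2) (algebraMap _ _ g) * (g.eval₂ ρ x)⁻¹ = 1
      rw [IsLocalization.lift_eq]
      exact mul_inv_cancel₀ h0
    have h5 := hloc.map_nonunit _ h4
    rw [IsLocalization.AtPrime.isUnit_to_map_iff (Localization.AtPrime M) M] at h5
    exact h5 hg
  refine ⟨V, h2, fun a ha h0 => ?_, h3 f hfM⟩
  have h4 := h3 (C a) (by
    change (C a).map (residue A) ∈ M'
    rw [map_C, (residue_eq_zero_iff a).2 ha, C_0]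
    exact M'.zero_mem)
  rw [eval₂_C] at h4
  exact h4 h0

/-- Over the general point the fibre is the disjoint union of two closed sets. -/
theorem fibre_point {k A B K : Type*} [Field k] [CommRing A] [IsLocalRing A] [CommRing B]
    [IsLocalRing B] [Field K] (ρ : A →+* B) [IsLocalHom ρ] (c : k →+* A) (j : B →+* K)
    (hj : Function.Injective j) (x : K) (b : B) (hb : j b = x) (P : A[X])
    (hP : P.eval₂ (j.comp ρ) x = 0) (p t q u v : k[X])
    (hp : p.map ((residue A).comp c) = P.map (residue A)) (hpt : p = t * q)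
    (huv : u * t + v * q = 1) :
    ¬ (IsUnit (t.eval₂ (ρ.comp c) b) ∧ IsUnit (q.eval₂ (ρ.comp c) b)) ∧
      (IsUnit (t.eval₂ (ρ.comp c) b) ∨ IsUnit (q.eval₂ (ρ.comp c) b)) := by
  constructor
  · rintro ⟨h1, h2⟩
    have h3 : p.eval₂ (ρ.comp c) b = t.eval₂ (ρ.comp c) b * q.eval₂ (ρ.comp c) b := by
      rw [hpt, eval₂_mul]
    have h4 : IsUnit (p.eval₂ (ρ.comp c) b) := by
      rw [h3]
      exact h1.mul h2
    have h5 : P.eval₂ ρ b = 0 := by
      apply hj
      rw [hom_eval₂, hb, hP, map_zero]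
    have h6 : p.eval₂ (ρ.comp c) b = (p.map c - P).eval₂ ρ b := by
      rw [eval₂_sub, h5, sub_zero, eval₂_map]
    have h7 : (p.map c - P).eval₂ ρ b ∈ maximalIdeal B := by
      rw [eval₂_eq_sum_range]
      refine Ideal.sum_mem _ fun i _ => Ideal.mul_mem_right _ _ ?_
      have h8 : (p.map c - P).coeff i ∈ maximalIdeal A := by
        rw [← residue_eq_zero_iff, ← coeff_map, Polynomial.map_sub, Polynomial.map_map, hp,
          sub_self, coeff_zero]
      exact (mem_maximalIdeal _).2 ((map_mem_nonunits_iff ρ _).2 ((mem_maximalIdeal _).1 h8))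
    rw [← h6] at h7
    exact (mem_maximalIdeal _).1 h7 h4
  · by_contra hcon
    push Not at hcon
    have h1 : (u * t + v * q).eval₂ (ρ.comp c) b ∈ maximalIdeal B := by
      rw [eval₂_add, eval₂_mul, eval₂_mul]
      exact Ideal.add_mem _ (Ideal.mul_mem_left _ _ ((mem_maximalIdeal _).2 hcon.1))
        (Ideal.mul_mem_left _ _ ((mem_maximalIdeal _).2 hcon.2))
    rw [huv, eval₂_one] at h1
    exact (mem_maximalIdeal _).1 h1 isUnit_one

section closed

variable {S : Scheme.{0}} {m : ℕ} (i : S ⟶ PN ℂ m) [IsClosedImmersion i]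

include i

theorem jacobson : JacobsonSpace S := LocallyOfFiniteType.jacobsonSpace (toSpec i)

theorem exists_closed_mem (U : S.Opens) (s : S) (hs : s ∈ U) : ∃ z ∈ U, IsClosed ({z} : Set S) := by
  have := jacobson i
  obtain ⟨z, hz, hz'⟩ := nonempty_inter_closedPoints (X := S) (Z := (U : Set S)) ⟨s, hs⟩
    U.isOpen.isLocallyClosed
  exact ⟨z, hz, hz'⟩

theorem exists_const (s : S) (hs : IsClosed ({s} : Set S)) (a : S.presheaf.stalk s) :
    ∃ c : ℂ, a - (S.presheaf.germ ⊤ s trivial).hom (EmbAux.strE i c) ∈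
      IsLocalRing.maximalIdeal (S.presheaf.stalk s) := by
  have := jacobson i
  have h1 : LocallyOfFiniteType (S.fromSpecResidueField s) :=
    isClosed_singleton_iff_locallyOfFiniteType.1 hs
  have h2 : LocallyOfFiniteType (S.fromSpecResidueField s ≫ toSpec i) := inferInstance
  have h3 : S.fromSpecResidueField s ≫ toSpec i = Spec.map (CommRingCat.ofHom
      ((S.residue s).hom.comp ((S.presheaf.germ ⊤ s trivial).hom.comp (EmbAux.strE i)))) := by
    have h4 : S.fromSpecResidueField s = Spec.map (S.residue s) ≫ S.fromSpecStalk s := rfl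
    rw [h4, Category.assoc, fromSpecStalk_to, ← Spec.map_comp, ← Category.assoc]
    congr 1
    ext a
    exact congrArg (fun t => (S.residue s).hom ((S.presheaf.germ ⊤ s trivial).hom t))
      (RingHom.congr_fun (str_eq i) a)
  rw [h3, HasRingHomProperty.Spec_iff (P := @LocallyOfFiniteType)] at h2
  let _ : Algebra ℂ (S.residueField s) := ((S.residue s).hom.comp
    ((S.presheaf.germ ⊤ s trivial).hom.comp (EmbAux.strE i))).toAlgebra
  have h5 : Algebra.FiniteType ℂ (S.residueField s) := h2
  have h6 : Module.Finite ℂ (S.residueField s) := finite_of_finite_type_of_isJacobsonRing _ _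
  have h7 : Algebra.IsIntegral ℂ (S.residueField s) := inferInstance
  obtain ⟨c, hc⟩ := (IsAlgClosed.algebraMap_bijective_of_isIntegral
    (k := ℂ) (K := S.residueField s)).2 ((S.residue s).hom a)
  refine ⟨c, ?_⟩
  rw [← IsLocalRing.residue_eq_zero_iff, map_sub, sub_eq_zero]
  exact hc.symm

end closed

section main

/-- The set where a rational function is invertible is open. -/
theorem isOpen_unit {Y : Scheme.{0}} [IsIntegral Y] (g : Y.functionField) :
    IsOpen {y : Y | ∃ a : Y.presheaf.stalk y, IsUnit a ∧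
      algebraMap (Y.presheaf.stalk y) Y.functionField a = g} := by
  rw [isOpen_iff_forall_mem_open]
  rintro y ⟨a, ha, hag⟩
  obtain ⟨V, hy, σ, rfl⟩ := Y.presheaf.exists_germ_eq a
  have hη := s1_generic_mem hy
  refine ⟨Y.basicOpen σ, ?_, (Y.basicOpen σ).isOpen, (Y.mem_basicOpen σ y hy).2 ha⟩
  intro z hz
  have hzV : z ∈ V := Y.basicOpen_le σ hz
  refine ⟨(Y.presheaf.germ V z hzV).hom σ, (Y.mem_basicOpen σ z hzV).1 hz, ?_⟩
  rw [s1_germ hη hzV, ← hag]
  exact (s1_germ hη hy σ).symm

/-- A polynomial over the function field has coefficients in the local rings of a neighbourhood of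
the generic point. -/
theorem exists_open_lifts {S : Scheme.{0}} [IsIntegral S] (p : S.functionField[X]) :
    ∃ U : S.Opens, genericPoint S ∈ U ∧ ∀ z ∈ U,
      ∃ P : (S.presheaf.stalk z)[X], P.map (algebraMap (S.presheaf.stalk z) S.functionField) = p := by
  obtain ⟨U, hU, h⟩ := s6_exists_open_fin p.coeff (p.natDegree + 1)
  refine ⟨U, hU, fun z hz => ?_⟩
  have h1 : p ∈ Polynomial.lifts (algebraMap (S.presheaf.stalk z) S.functionField) := by
    rw [Polynomial.lifts_iff_coeff_lifts]
    intro i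
    by_cases hi : i < p.natDegree + 1
    · exact h i hi z hz
    · rw [Polynomial.coeff_eq_zero_of_natDegree_lt (by omega)]
      exact ⟨0, map_zero _⟩
  obtain ⟨P, hP⟩ := h1
  exact ⟨P, hP⟩

variable {Y S : Scheme.{0}} [IsIntegral Y] [IsIntegral S] {φ : Y ⟶ S} [IsDominant φ] {n m : ℕ}

/-- The scalars of `S` at the point `s`. -/
noncomputable abbrev cst (i : S ⟶ PN ℂ m) (s : S) : ℂ →+* S.presheaf.stalk s :=
  (S.presheaf.germ ⊤ s trivial).hom.comp (EmbAux.strE i)

omit [IsIntegral Y] [IsIntegral S] [IsDominant φ] in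
theorem cst_bijective (i : S ⟶ PN ℂ m) [IsClosedImmersion i] (s : S)
    (hs : IsClosed ({s} : Set S)) :
    Function.Bijective ((residue (S.presheaf.stalk s)).comp (cst i s)) := by
  refine ⟨RingHom.injective _, fun z => ?_⟩
  obtain ⟨a, rfl⟩ := residue_surjective z
  obtain ⟨c, hc⟩ := exists_const i s hs a
  refine ⟨c, ?_⟩
  rw [← residue_eq_zero_iff, map_sub, sub_eq_zero] at hc
  exact hc.symm

theorem alg_point (EY : Embed ℂ Y n) (ES : Embed ℂ S m) (i : S ⟶ PN ℂ m)
    (hES : ES.str = EmbAux.strE i) (h : ∀ c, φ.appTop.hom (ES.str c) = EY.str c)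
    (hnY : ∀ y : Y, IsIntegrallyClosed (Y.presheaf.stalk y)) (x : Y.functionField) (y : Y)
    (P : (S.presheaf.stalk (φ y))[X]) (hPm : P.Monic)
    (hP : (P.map (algebraMap _ S.functionField)).eval₂ (fmap φ) x = 0) (p t q u v : ℂ[X])
    (hp : p.map ((residue (S.presheaf.stalk (φ y))).comp (cst i (φ y))) =
      P.map (residue (S.presheaf.stalk (φ y)))) (hpt : p = t * q)
    (huv : u * t + v * q = 1) :
    ¬ ((∃ a : Y.presheaf.stalk y, IsUnit a ∧
        algebraMap (Y.presheaf.stalk y) Y.functionField a = t.eval₂ EY.kf x) ∧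
      ∃ a : Y.presheaf.stalk y, IsUnit a ∧
        algebraMap (Y.presheaf.stalk y) Y.functionField a = q.eval₂ EY.kf x) ∧
      ((∃ a : Y.presheaf.stalk y, IsUnit a ∧
        algebraMap (Y.presheaf.stalk y) Y.functionField a = t.eval₂ EY.kf x) ∨
      ∃ a : Y.presheaf.stalk y, IsUnit a ∧
        algebraMap (Y.presheaf.stalk y) Y.functionField a = q.eval₂ EY.kf x) := by
  have hx : x ∈ loc y := by
    refine s1_integral (hnY y) ((P.map (algebraMap _ S.functionField)).map (fmap φ))
      ((hPm.map _).map _) (fun l => ?_) ?_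
    · rw [coeff_map, coeff_map]
      exact fmap_loc ⟨_, rfl⟩
    · rw [← eval₂_eq_eval_map]
      exact hP
  obtain ⟨b, hb⟩ := hx
  have hj := s1_inj y
  have h0 : ((algebraMap (Y.presheaf.stalk y) Y.functionField).comp (φ.stalkMap y).hom) =
      (fmap φ).comp (algebraMap (S.presheaf.stalk (φ y)) S.functionField) := by
    ext a
    exact (fmap_stalk y a).symm
  have h1 : ∀ c, algebraMap (S.presheaf.stalk (φ y)) S.functionField (cst i (φ y) c) = ES.kf c := by
    intro c
    rw [cst, ← hES]
    exact s1_germ (U := ⊤) trivial trivial _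
  have h2 : (algebraMap (Y.presheaf.stalk y) Y.functionField).comp
      ((φ.stalkMap y).hom.comp (cst i (φ y))) = EY.kf := by
    ext c
    rw [← fmap_kf h c, ← h1]
    exact (fmap_stalk y _).symm
  have hev : ∀ f : ℂ[X], algebraMap (Y.presheaf.stalk y) Y.functionField
      (f.eval₂ ((φ.stalkMap y).hom.comp (cst i (φ y))) b) = f.eval₂ EY.kf x := by
    intro f
    rw [hom_eval₂, hb, h2]
  have hmain := fibre_point (φ.stalkMap y).hom (cst i (φ y))
    (algebraMap (Y.presheaf.stalk y) Y.functionField) hj x b hb P (by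
      rw [h0, ← eval₂_map]
      exact hP) p t q u v hp hpt huv
  have hiff : ∀ f : ℂ[X], IsUnit (f.eval₂ ((φ.stalkMap y).hom.comp (cst i (φ y))) b) ↔
      ∃ a : Y.presheaf.stalk y, IsUnit a ∧
        algebraMap (Y.presheaf.stalk y) Y.functionField a = f.eval₂ EY.kf x := by
    intro f
    constructor
    · intro hu
      exact ⟨_, hu, hev f⟩
    · rintro ⟨a, ha, ha'⟩
      rw [← hev f] at ha'
      rw [← hj ha']
      exact ha
  rw [← hiff, ← hiff]
  exact hmain

/-- There is a point of the fibre where the given factor vanishes. -/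
theorem exists_fibre_point (EY : Embed ℂ Y n) (ES : Embed ℂ S m) (i : S ⟶ PN ℂ m)
    (hES : ES.str = EmbAux.strE i) (h : ∀ c, φ.appTop.hom (ES.str c) = EY.str c)
    (x : Y.functionField) (s : S) (P : (S.presheaf.stalk s)[X])
    (hdvd : ∀ g : (S.presheaf.stalk s)[X],
      (g.map (algebraMap _ S.functionField)).eval₂ (fmap φ) x = 0 → P ∣ g)
    (t : ℂ[X]) (ht : t.map ((residue (S.presheaf.stalk s)).comp (cst i s)) ∣
      P.map (residue (S.presheaf.stalk s)))
    (ht1 : ¬ IsUnit (t.map ((residue (S.presheaf.stalk s)).comp (cst i s)))) :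
    ∃ y : Y, φ y = s ∧ ¬ ∃ a : Y.presheaf.stalk y, IsUnit a ∧
      algebraMap (Y.presheaf.stalk y) Y.functionField a = t.eval₂ EY.kf x := by
  have h1 : ∀ c, algebraMap (S.presheaf.stalk s) S.functionField (cst i s c) = ES.kf c := by
    intro c
    rw [cst, ← hES]
    exact s1_germ (U := ⊤) trivial trivial _
  obtain ⟨V, hV1, hV2, hV3⟩ := exists_val
    ((fmap φ).comp (algebraMap (S.presheaf.stalk s) S.functionField)) x P (t.map (cst i s))
    (fun g hg => hdvd g (by rw [eval₂_map]; exact hg))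
    (by rw [Polynomial.map_map]; exact ht) (by rw [Polynomial.map_map]; exact ht1)
  have h2 : ∀ c, (fmap φ) (algebraMap (S.presheaf.stalk s) S.functionField (cst i s c)) =
      EY.kf c := fun c => by rw [h1, fmap_kf h]
  have h3 : ∀ a, (fmap φ) (algebraMap (S.presheaf.stalk s) S.functionField a) ∈ V := by
    intro a
    have h4 := hV1 (C a)
    rw [eval₂_C] at h4
    exact h4
  obtain ⟨y, hy⟩ := exists_centre' EY V fun c => by
    rw [← h2]
    exact h3 _
  have hs : IsCentre (V.comap (fmap φ)) s := by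
    intro a
    refine ⟨h3 a, fun ha0 hai => ?_⟩
    by_contra hu
    rw [ValuationSubring.mem_comap, map_inv₀] at hai
    refine hV2 a ((mem_maximalIdeal a).2 hu) ?_ hai
    exact (_root_.map_ne_zero (fmap φ)).2 (s1_ne_zero.2 ha0)
  refine ⟨y, centre_unique' ES hy.fmap hs, ?_⟩
  rintro ⟨a, ha, ha'⟩
  have h5 : t.eval₂ EY.kf x = (t.map (cst i s)).eval₂
      ((fmap φ).comp (algebraMap (S.presheaf.stalk s) S.functionField)) x := by
    rw [eval₂_map]
    congr 1
    ext c
    exact (h2 c).symm
  rw [h5] at ha'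
  have hne : a ≠ 0 := ha.ne_zero
  refine hV3 ?_ ?_
  · rw [← ha']
    exact s1_ne_zero.2 hne
  · obtain ⟨b, hb⟩ := ha.exists_right_inv
    have h6 : (algebraMap (Y.presheaf.stalk y) Y.functionField a)⁻¹ =
        algebraMap (Y.presheaf.stalk y) Y.functionField b := by
      rw [inv_eq_iff_eq_inv]
      refine eq_inv_of_mul_eq_one_left ?_
      rw [← map_mul, hb, map_one]
    rw [← ha', h6]
    exact (hy b).1

/-- (S7): if the fibres over the closed points are connected (and `Y` is normal), then the function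
field of `S` is algebraically closed in the function field of `Y`. -/
theorem alg_closed (EY : Embed ℂ Y n) (ES : Embed ℂ S m) (i : S ⟶ PN ℂ m) [IsClosedImmersion i]
    (hES : ES.str = EmbAux.strE i) (h : ∀ c, φ.appTop.hom (ES.str c) = EY.str c)
    (hnY : ∀ y : Y, IsIntegrallyClosed (Y.presheaf.stalk y))
    (hconn : ∀ s : S, IsClosed ({s} : Set S) → _root_.IsPreconnected (φ ⁻¹' {s}))
    (x : Y.functionField) (hx : ∃ p : S.functionField[X], p.Monic ∧ p.eval₂ (fmap φ) x = 0) :
    ∃ f, fmap φ f = x := by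
  let _ : Algebra S.functionField Y.functionField := (fmap φ).toAlgebra
  have hint : _root_.IsIntegral S.functionField x := hx
  have hchar : CharZero S.functionField := charZero_of_injective_ringHom ES.kf.injective
  by_contra hcon
  have hdeg : 2 ≤ (minpoly S.functionField x).natDegree := by
    have h1 := minpoly.natDegree_pos hint
    have h2 : (minpoly S.functionField x).natDegree ≠ 1 := fun h3 =>
      hcon (minpoly.natDegree_eq_one_iff.1 h3)
    omega
  obtain ⟨a0, b0, hab⟩ := (minpoly.irreducible hint).separable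
  obtain ⟨U1, hU1, hU1'⟩ := exists_open_lifts (minpoly S.functionField x)
  obtain ⟨U2, hU2, hU2'⟩ := exists_open_lifts a0
  obtain ⟨U3, hU3, hU3'⟩ := exists_open_lifts b0
  obtain ⟨s, ⟨⟨hs1, hs2⟩, hs3⟩, hsc⟩ := exists_closed_mem i (U1 ⊓ U2 ⊓ U3) (genericPoint S)
    ⟨⟨hU1, hU2⟩, hU3⟩
  obtain ⟨P, hP⟩ := hU1' s hs1
  obtain ⟨a1, ha1⟩ := hU2' s hs2
  obtain ⟨b1, hb1⟩ := hU3' s hs3
  have hal := s1_inj s
  have hPm : P.Monic := monic_of_injective hal (by rw [hP]; exact minpoly.monic hint)
  have hab1 : a1 * P + b1 * derivative P = 1 := by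
    apply map_injective _ hal
    rw [Polynomial.map_add, Polynomial.map_mul, Polynomial.map_mul, ← derivative_map, ha1, hb1,
      hP, hab, Polynomial.map_one]
  have hPdeg : P.natDegree = (minpoly S.functionField x).natDegree := by
    rw [← hP, natDegree_map_eq_of_injective hal]
  have hbij := cst_bijective i s hsc
  obtain ⟨p, hp⟩ := Polynomial.map_surjective _ hbij.2 (P.map (residue (S.presheaf.stalk s)))
  have hpsep : p.Separable := by
    rw [← separable_map ((residue (S.presheaf.stalk s)).comp (cst i s)), hp]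
    refine ⟨a1.map (residue _), b1.map (residue _), ?_⟩
    rw [derivative_map, ← Polynomial.map_mul, ← Polynomial.map_mul, ← Polynomial.map_add, hab1,
      Polynomial.map_one]
  have hpdeg : p.natDegree = P.natDegree := by
    rw [← natDegree_map_eq_of_injective hbij.1 p, hp, hPm.natDegree_map]
  obtain ⟨r, hr⟩ := IsAlgClosed.exists_root p (by
    intro h0
    have h1 : p.natDegree = 0 := natDegree_eq_of_degree_eq_some h0
    omega)
  obtain ⟨q, hq⟩ := dvd_iff_isRoot.2 hr
  obtain ⟨u, v, huv⟩ : IsCoprime (X - C r) q := (hq ▸ hpsep).isCoprime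
  have hq0 : q ≠ 0 := by
    rintro rfl
    rw [mul_zero] at hq
    rw [hq, natDegree_zero] at hpdeg
    omega
  have hqdeg : 1 ≤ q.natDegree := by
    have h1 : p.natDegree = 1 + q.natDegree := by
      rw [hq, natDegree_mul (X_sub_C_ne_zero r) hq0, natDegree_X_sub_C]
    omega
  have hnu : ∀ t : ℂ[X], 1 ≤ t.natDegree →
      ¬ IsUnit (t.map ((residue (S.presheaf.stalk s)).comp (cst i s))) := by
    intro t ht hu
    have h1 := natDegree_eq_zero_of_isUnit hu
    rw [natDegree_map_eq_of_injective hbij.1] at h1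
    omega
  have hdvd : ∀ g : (S.presheaf.stalk s)[X],
      (g.map (algebraMap _ S.functionField)).eval₂ (fmap φ) x = 0 → P ∣ g := by
    intro g hg
    rw [← map_dvd_map _ hal hPm, hP]
    exact minpoly.dvd S.functionField x hg
  have hP0 : (P.map (algebraMap _ S.functionField)).eval₂ (fmap φ) x = 0 := by
    rw [hP]
    exact minpoly.aeval S.functionField x
  have hpoint : ∀ y : Y, φ y = s → ¬ ((∃ a : Y.presheaf.stalk y, IsUnit a ∧
        algebraMap (Y.presheaf.stalk y) Y.functionField a = (X - C r).eval₂ EY.kf x) ∧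
      ∃ a : Y.presheaf.stalk y, IsUnit a ∧
        algebraMap (Y.presheaf.stalk y) Y.functionField a = q.eval₂ EY.kf x) ∧
      ((∃ a : Y.presheaf.stalk y, IsUnit a ∧
        algebraMap (Y.presheaf.stalk y) Y.functionField a = (X - C r).eval₂ EY.kf x) ∨
      ∃ a : Y.presheaf.stalk y, IsUnit a ∧
        algebraMap (Y.presheaf.stalk y) Y.functionField a = q.eval₂ EY.kf x) := by
    intro y hy
    subst hy
    exact alg_point EY ES i hES h hnY x y P hPm hP0 p (X - C r) q u v hp hq huv
  obtain ⟨y1, hy1, hy1'⟩ := exists_fibre_point EY ES i hES h x s P hdvd (X - C r)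
    (by rw [← hp, hq, Polynomial.map_mul]; exact dvd_mul_right _ _)
    (hnu _ (natDegree_X_sub_C r).ge)
  obtain ⟨y2, hy2, hy2'⟩ := exists_fibre_point EY ES i hES h x s P hdvd q
    (by rw [← hp, hq, Polynomial.map_mul]; exact dvd_mul_left _ _) (hnu _ hqdeg)
  obtain ⟨z, hz, hz'⟩ := hconn s hsc _ _ (isOpen_unit ((X - C r : ℂ[X]).eval₂ EY.kf x))
    (isOpen_unit (q.eval₂ EY.kf x)) (fun y hy => (hpoint y hy).2)
    ⟨y2, hy2, (hpoint y2 hy2).2.resolve_right hy2'⟩
    ⟨y1, hy1, (hpoint y1 hy1).2.resolve_left hy1'⟩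
  exact (hpoint z hz).1 hz'

/-- The field `connected` of Mori fibre spaces, from the connectedness of the fibres. -/
theorem baseModel_connected {EY : Embed ℂ Y n} {ES : Embed ℂ S m} [Algebra ℂ Y.functionField]
    [Algebra ℂ S.functionField] (i : S ⟶ PN ℂ m) [IsClosedImmersion i]
    (hES : ES.str = EmbAux.strE i) (hkY : ∀ c : ℂ, algebraMap ℂ Y.functionField c = EY.kf c)
    (hkS : ∀ c : ℂ, algebraMap ℂ S.functionField c = ES.kf c)
    (h : ∀ c, φ.appTop.hom (ES.str c) = EY.str c)
    (hnY : ∀ y : Y, IsIntegrallyClosed (Y.presheaf.stalk y))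
    (hconn : ∀ s : S, IsClosed ({s} : Set S) → _root_.IsPreconnected (φ ⁻¹' {s}))
    (x : Y.functionField) (hx : IsAlgebraic (fmapA hkY hkS h).fieldRange x) :
    x ∈ (fmapA hkY hkS h).fieldRange := by
  have hi : _root_.IsIntegral (fmapA hkY hkS h).fieldRange x := hx.isIntegral
  have hc : ∀ l, ∃ c, fmap φ c =
      ((minpoly (fmapA hkY hkS h).fieldRange x).coeff l : Y.functionField) := fun l => by
    obtain ⟨c, hc⟩ := ((minpoly (fmapA hkY hkS h).fieldRange x).coeff l).2
    exact ⟨c, hc⟩
  have h1 : (minpoly (fmapA hkY hkS h).fieldRange x).map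
      (algebraMap (fmapA hkY hkS h).fieldRange Y.functionField) ∈ Polynomial.lifts (fmap φ) := by
    rw [Polynomial.lifts_iff_coeff_lifts]
    intro l
    rw [coeff_map]
    exact hc l
  obtain ⟨q, hq, -, hqm⟩ := Polynomial.lifts_and_degree_eq_and_monic h1
    ((minpoly.monic hi).map _)
  obtain ⟨f, hf⟩ := alg_closed EY ES i hES h hnY hconn x ⟨q, hqm, by
    rw [eval₂_eq_eval_map, hq, Polynomial.eval_map_algebraMap]
    exact minpoly.aeval _ x⟩
  exact ⟨f, hf⟩

end main

end S7
end Pool.Agent.FR
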