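import Mathlib.AlgebraicGeometry.Birational.Birational
import Pool.Agent.FR.S5
import Pool.Agent.FR.S6a

/-!
Project FR, block S8: birational integral schemes over `Spec k` have isomorphic function fields.
-/

set_option autoImplicit false

open AlgebraicGeometry CategoryTheory Pool.Agent.K1 Pool.Agent.FR.S Pool.Agent.FR.S5

attribute [local instance] MvPolynomial.gradedAlgebra

namespace Pool.Agent.FR
namespace S8

/-- An open immersion induces an isomorphism of function fields. -/
theorem fmap_bijective {U X : Scheme.{0}} [IsIntegral U] [IsIntegral X] (f : U ⟶ X)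
    [IsOpenImmersion f] [IsDominant f] : Function.Bijective (fmap f) := by
  refine ⟨(fmap f).injective, fun z => ?_⟩
  have h1 : Function.Surjective (f.stalkMap (genericPoint U)).hom :=
    (ConcreteCategory.bijective_of_isIso (f.stalkMap (genericPoint U))).2
  have h2 : (U.presheaf.stalkSpecializes (gsp (genericPoint U))).hom z = z := by
    have h3 : U.presheaf.stalkSpecializes (gsp (genericPoint U)) = 𝟙 _ :=
      TopCat.Presheaf.stalkSpecializes_refl _ _
    exact congrArg (fun t => t.hom z) h3
  obtain ⟨a, ha⟩ := h1 z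
  have h4 := fmap_stalk (φ := f) (genericPoint U) a
  rw [ha] at h4
  exact ⟨_, h4.trans h2⟩

/-- The scalars as rational functions. -/
noncomputable def kfs {k : Type} [Field k] {X : Scheme.{0}} [IsIntegral X]
    (s : X ⟶ Spec (.of k)) : k →+* X.functionField :=
  (X.presheaf.germ ⊤ (genericPoint X) trivial).hom.comp
    ((Scheme.ΓSpecIso (.of k)).inv ≫ s.appTop).hom

theorem kfs_toSpec {k : Type} [Field k] {X : Scheme.{0}} [IsIntegral X] {n : ℕ}
    (i : X ⟶ PN k n) (E : EmbedData k X n) (h : E.str = EmbAux.strE i) :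
    kfs (toSpec i) = E.kf := by
  rw [kfs, str_eq, EmbedData.kf, h]

theorem fmap_kfs {k : Type} [Field k] {X Y : Scheme.{0}} [IsIntegral X] [IsIntegral Y]
    (f : Y ⟶ X) [IsDominant f] (s : X ⟶ Spec (.of k)) (a : k) :
    fmap f (kfs s a) = kfs (f ≫ s) a := by
  rw [kfs, kfs, RingHom.comp_apply]
  have h1 := fmap_germ (φ := f) (U := ⊤) trivial trivial
    (((Scheme.ΓSpecIso (.of k)).inv ≫ s.appTop).hom a)
  refine h1.trans ?_
  rw [Scheme.Hom.comp_appTop]
  rfl

/-- (S8): birational integral schemes over `Spec k` have isomorphic function fields over `k`. -/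
theorem exists_equiv {k : Type} [Field k] {X Y : Scheme.{0}} [IsIntegral X] [IsIntegral Y]
    {sX : X ⟶ Spec (.of k)} {sY : Y ⟶ Spec (.of k)} (h : Scheme.BirationalOver sX sY) :
    ∃ σ : X.functionField ≃+* Y.functionField, ∀ a, σ (kfs sX a) = kfs sY a := by
  obtain ⟨f, hf⟩ := h
  have hne : Nonempty f.source := by
    obtain ⟨x, hx⟩ := f.dense_source.nonempty
    exact ⟨⟨x, hx⟩⟩
  have hd := f.dense_source
  have h1 : IsDominant f.source.ι := Opens.isDominant_ι hd
  have h2 : IsDominant f.target.ι := Opens.isDominant_ι f.dense_target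
  set g := f.iso.hom ≫ f.target.ι with hg
  have h3 : IsDominant g := inferInstance
  set e1 := RingEquiv.ofBijective (fmap f.source.ι) (fmap_bijective f.source.ι)
  set e2 := RingEquiv.ofBijective (fmap g) (fmap_bijective g)
  refine ⟨e1.trans e2.symm, fun a => ?_⟩
  change e2.symm (fmap f.source.ι (kfs sX a)) = _
  rw [RingEquiv.symm_apply_eq]
  change _ = fmap g (kfs sY a)
  rw [fmap_kfs, fmap_kfs, hg, Category.assoc, hf]

end S8
end Pool.Agent.FR
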