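import Pool.Agent.FR.SPoint
import Pool.Agent.FR.Loc

/-!
Project FR, block S (bridge to schemes): hyperplane sections and ample divisors; ample divisors for
schemes are ample divisors of the engine (helper3).
-/

set_option autoImplicit false

open AlgebraicGeometry CategoryTheory Pool.Agent.K1

attribute [local instance] MvPolynomial.gradedAlgebra

namespace Pool.Agent.FR.S

open scoped Classical

section hyp

variable {X : Scheme.{0}} [IsIntegral X] {n : ℕ} (i : X ⟶ PN ℂ n)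

/-- The ratio of coordinates in the function field. -/
theorem ratio_eq (j₀ : Fin (n + 1)) (h₀ : genericPoint X ∈ Dplus i j₀) (s t : Fin (n + 1)) {x : X}
    (ht : x ∈ Dplus i t) : algebraMap (X.presheaf.stalk x) X.functionField
      ((X.presheaf.germ (Dplus i t) x ht).hom (ratio i s t)) =
      (EmbAux.dat i j₀ h₀).w s / (EmbAux.dat i j₀ h₀).w t := by
  have hη := s1_generic_mem ht
  rw [s1_germ hη ht]
  have h1 := EmbAux.germ_generic i j₀ h₀ (MvPolynomial.X t) hη (S2.X_mem t) 1 (MvPolynomial.X s)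
    (S2.X_mem s)
  have h2 : ∀ l, EmbAux.ev i j₀ h₀ (MvPolynomial.X l) = (EmbAux.dat i j₀ h₀).w l := fun l => by
    rw [EmbAux.ev, MvPolynomial.coe_eval₂Hom, MvPolynomial.eval₂_X]
  rw [h2, h2, pow_one] at h1
  exact h1

/-- The reference coordinate is one. -/
theorem dat_w_self (j₀ : Fin (n + 1)) (h₀ : genericPoint X ∈ Dplus i j₀) :
    (EmbAux.dat i j₀ h₀).w j₀ = 1 := by
  have h1 := S2.w_change i j₀ j₀ h₀ h₀ j₀
  have h2 : (EmbAux.dat i j₀ h₀).w j₀ ≠ 0 := by
    have h3 := (EmbAux.ev_ne_zero_iff i j₀ h₀ 1 (MvPolynomial.X j₀) (S2.X_mem j₀)).2 h₀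
    rwa [EmbAux.ev, MvPolynomial.coe_eval₂Hom, MvPolynomial.eval₂_X] at h3
  rw [div_self h2] at h1
  exact h1

theorem dat_U (j₀ : Fin (n + 1)) (h₀ : genericPoint X ∈ Dplus i j₀) (t : Fin (n + 1)) :
    (EmbAux.dat i j₀ h₀).U (Pi.single t 1) = Dplus i t := by
  change EmbAux.UU i (EmbAux.lf (Pi.single t 1)) = _
  rw [EmbAux.lf_single]
  rfl

end hyp

namespace PVar

variable {V : PVar}

theorem loc_ord {x : V.X} (hx : Order.coheight x = 1) {f : V.K} (h : f ∈ loc x) :
    0 ≤ V.X.ord f x := by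
  by_cases h0 : f = 0
  · rw [h0, Scheme.ord_zero]
    exact le_refl _
  · exact (s1_mem_loc_ord hx (V.normal x) h0).1 h

theorem ord_div {x : V.X} (hx : Order.coheight x = 1) {f g : V.K} (hf : f ≠ 0) (hg : g ≠ 0) :
    V.X.ord (f / g) x = V.X.ord f x - V.X.ord g x :=
  (V.ptD x hx).div' hf hg

/-- Hyperplane sections through embedding data. -/
theorem hyp_ord {n : ℕ} {j : V.X ⟶ PN ℂ n} {s : Fin (n + 1)} (hs : genericPoint V.X ∈ Dplus j s)
    {E : Embed ℂ V.X n} (hE : E.toEmbedData = EmbAux.dat j s hs) {h : V.X → ℤ}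
    (hh : ∀ x : V.X, Order.coheight x = 1 → ∀ (t : Fin (n + 1)) (ht : x ∈ Dplus j t),
      h x = V.X.ord (algebraMap (V.X.presheaf.stalk x) V.X.functionField
        ((V.X.presheaf.germ (Dplus j t) x ht).hom (ratio j s t))) x)
    {x : V.X} (hx : Order.coheight x = 1) {t : Fin (n + 1)} (ht : x ∈ E.U (Pi.single t 1)) :
    h x = - V.X.ord (E.w t) x := by
  have ht0 := s1_l_ne_zero E ht
  rw [s1_l_single] at ht0
  have ht' : x ∈ Dplus j t := by
    rw [← dat_U j s hs t, ← hE]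
    exact ht
  rw [hh x hx t ht', ratio_eq j s hs, ← hE]
  have h1 : E.w s = 1 := by
    rw [hE]
    exact dat_w_self j s hs
  have h2 : V.X.ord (1 : V.K) x = 0 := (V.ptD x hx).one
  rw [h1, ord_div hx one_ne_zero ht0, h2, zero_sub]

theorem isAmple_engine {C : DVal V.K → ℤ} {c : V.X → ℤ} (hC : V.Corr C c) (hc : V.IsAmple c) :
    FR.IsAmple V.model C := by
  obtain ⟨m, n, j, h, f, hm, hj, hjs, hjh, hf, hmc⟩ := hc
  obtain ⟨s, hs, hh⟩ := (isHyp_iff j h).1 hjh
  obtain ⟨E, hE⟩ := S2.exists_embed_dat j s hs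
  have hkE : ∀ c : ℂ, algebraMap ℂ V.K c = E.kf c := kf_of_embed hjs (by rw [hE]; rfl)
  obtain ⟨N, g, hg⟩ := exists_isCoord E
  have hratio : ∀ r t, (g r / f) / (g t / f) = g r / g t := fun r t => by
    rw [div_div_div_cancel_right₀ hf]
  refine ⟨m, N, fun i => g i / f, hm, fun i => div_ne_zero (hg.ne i) hf, ?_, ?_⟩
  · intro i
    rw [V.forall_prime (fun D => -(m * C D) ≤ D.v (g i / f))]
    intro x hx
    obtain ⟨t, ht⟩ := E.cover x
    obtain ⟨i', hi'⟩ := hg.mem i
    have ht0 := s1_l_ne_zero E ht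
    have h1 : g i / E.w t ∈ loc x := by
      have h2 := s1_ratio_mem E (c := Pi.single i' 1) ht
      rwa [s1_l_single, s1_l_single, ← hi'] at h2
    rw [s1_l_single] at ht0
    have h3 := loc_ord hx h1
    rw [ord_div hx (hg.ne i) ht0] at h3
    rw [hC x hx, hmc x hx, hyp_ord hs hE hh hx ht, ptD_v, ord_div hx (hg.ne i) hf]
    omega
  · intro W hW
    have hWk : ∀ a, E.kf a ∈ W := (s1_isPlace hkE).1 hW
    obtain ⟨z, hz⟩ := V.exists_centre hW
    obtain ⟨t, ht0, htW⟩ := s1_exists_index E W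
    obtain ⟨z', hz'U, hz'⟩ := exists_centre_chart E W hWk t ht0 htW
    rw [← centre_unique' E hz hz'] at hz'U
    obtain ⟨i, hi⟩ := hg.surj t ht0
    have hgW : ∀ r, g r / g i ∈ W := by
      intro r
      obtain ⟨r', hr'⟩ := hg.mem r
      rw [hr', hi]
      exact htW r'
    refine ⟨i, fun r => ?_, ?_, ?_⟩
    · change (g r / f) / (g i / f) ∈ W
      rw [hratio]
      exact hgW r
    · rw [V.forall_thr hz (fun D => D.v (g i / f) = -(m * C D))]
      intro x hx hxz
      have hxU : x ∈ E.U (Pi.single t 1) := hxz.mem_open (E.U (Pi.single t 1)).isOpen hz'U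
      rw [hC x hx, hmc x hx, hyp_ord hs hE hh hx hxU, ptD_v, ord_div hx (hg.ne i) hf, hi]
      omega
    · simp only [hratio]
      rw [V.model_loc hz, loc_eq_locRing hkE hg hz]
      exact locRing_eq g hg.ne W hW i hgW

end PVar

end Pool.Agent.FR.S
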