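import Pool.Agent.FR.SMfs
import Pool.Agent.FR.AmpleU

/-!
Project FR, block S (bridge to schemes): ample divisors of the engine are ample divisors for
schemes (helper3).
-/

set_option autoImplicit false

open AlgebraicGeometry CategoryTheory Pool.Agent.K1

attribute [local instance] MvPolynomial.gradedAlgebra

namespace Pool.Agent.FR.S

open scoped Classical

section gen

variable {Y S : Scheme.{0}} [IsIntegral Y] [IsIntegral S] {φ : Y ⟶ S} [IsDominant φ]

/-- The homomorphism of function fields of a dominant morphism. -/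
theorem gen_fmap : S5.gen Y ≫ φ = Spec.map (CommRingCat.ofHom (fmap φ)) ≫ S5.gen S := by
  have h1 : φ.stalkMap (genericPoint Y) = S.presheaf.stalkSpecializes
      ((genericPoint_spec S).specializes (Set.mem_univ (φ (genericPoint Y)))) ≫
        CommRingCat.ofHom (fmap φ) := by
    ext a
    have h2 := fmap_stalk (φ := φ) (genericPoint Y) a
    have h3 : ∀ (y : Y) (hy : genericPoint Y ⤳ y) (b : Y.presheaf.stalk y),
        algebraMap (Y.presheaf.stalk y) Y.functionField b = (Y.presheaf.stalkSpecializes hy).hom b :=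
      fun _ _ _ => rfl
    rw [h3 (genericPoint Y) specializes_rfl, TopCat.Presheaf.stalkSpecializes_refl] at h2
    exact h2.symm
  rw [S5.gen, ← Scheme.SpecMap_stalkMap_fromSpecStalk, h1, Spec.map_comp, Category.assoc,
    Scheme.SpecMap_stalkSpecializes_fromSpecStalk]
  rfl

theorem fmap_of_gen (σ : S.functionField →+* Y.functionField)
    (h : S5.gen Y ≫ φ = Spec.map (CommRingCat.ofHom σ) ≫ S5.gen S) : fmap φ = σ := by
  rw [gen_fmap, cancel_mono] at h
  have h1 := Spec.map_injective h
  exact congrArg CommRingCat.Hom.hom h1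

end gen

/-- The ratios of coordinates for the composition with a morphism. -/
theorem ratio_comp' {Y S : Scheme.{0}} [IsIntegral Y] [IsIntegral S] {φ : Y ⟶ S} [IsDominant φ]
    {n : ℕ} (i : S ⟶ PN ℂ n) (s t : Fin (n + 1)) {y : Y}
    (ht : y ∈ Dplus (φ ≫ i) t) (ht' : φ y ∈ Dplus i t) :
    algebraMap (Y.presheaf.stalk y) Y.functionField
      ((Y.presheaf.germ (Dplus (φ ≫ i) t) y ht).hom (ratio (φ ≫ i) s t)) =
      fmap φ (algebraMap (S.presheaf.stalk (φ y)) S.functionField
        ((S.presheaf.germ (Dplus i t) (φ y) ht').hom (ratio i s t))) := by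
  rw [fmap_stalk]
  congr 1
  exact (Scheme.Hom.germ_stalkMap_apply φ (Dplus i t) y ht' (ratio i s t)).symm

theorem adjoin_frac {K : Type} [Field K] [Algebra ℂ K] (t : Set K)
    (h : IntermediateField.adjoin ℂ t = ⊤) (x : K) :
    ∃ a ∈ Algebra.adjoin ℂ t, ∃ b ∈ Algebra.adjoin ℂ t, b ≠ 0 ∧ x = a / b := by
  have hx : x ∈ IntermediateField.adjoin ℂ t := by
    rw [h]
    exact IntermediateField.mem_top
  rw [IntermediateField.mem_adjoin_iff_div] at hx
  obtain ⟨a, ha, b, hb, rfl⟩ := hx
  by_cases h0 : b = 0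
  · exact ⟨0, Subalgebra.zero_mem _, 1, Subalgebra.one_mem _, one_ne_zero, by simp [h0]⟩
  · exact ⟨a, ha, b, hb, h0, rfl⟩

theorem locRing_div {K : Type} [Field K] [Algebra ℂ K] {N : ℕ} (s : Fin (N + 1) → K) (c : K)
    (hc : c ≠ 0) (W : ValuationSubring K) :
    locRing (fun j => s j / c) W = locRing s W := by
  have h : ∀ i, (fun j => (s j / c) / (s i / c)) = fun j => s j / s i := fun i => by
    funext j
    rw [div_div_div_cancel_right₀ hc]
  have h' : ∀ i j, (s j / c) / (s i / c) = s j / s i := fun i j => congrFun (h i) j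
  unfold locRing
  simp only [h']

namespace PVar

variable {V : PVar}

/-- Ample divisors of the engine are ample. -/
theorem isAmple_scheme {C : DVal V.K → ℤ} {c : V.X → ℤ} (hC : V.Corr C c)
    (hc : FR.IsAmple V.model C) : V.IsAmple c := by
  obtain ⟨m, N, s, hm, hs, h1, h2⟩ := hc
  -- the scheme defined by the family `s`
  have hfrac : ∀ x : V.K, ∃ a ∈ Algebra.adjoin ℂ (Set.range fun j => s j / s 0),
      ∃ b ∈ Algebra.adjoin ℂ (Set.range fun j => s j / s 0), b ≠ 0 ∧ x = a / b := by
    refine adjoin_frac _ ?_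
    refine ample_frac V.model C s h2 _ fun i j => ?_
    have h3 : ∀ l, s l / s 0 ∈ IntermediateField.adjoin ℂ (Set.range fun j => s j / s 0) :=
      fun l => IntermediateField.subset_adjoin ℂ _ ⟨l, rfl⟩
    have h4 : s j / s i = (s j / s 0) / (s i / s 0) := by
      rw [div_div_div_cancel_right₀ (hs 0)]
    rw [h4]
    exact div_mem (h3 j) (h3 i)
  obtain ⟨X', hX', i', hi', hx, θ, hθk, hθw⟩ := S2.exists_scheme (k := ℂ) s (hs 0) hfrac
  obtain ⟨E', hE'⟩ := S2.exists_embed_dat i' 0 hx
  have hθw' : ∀ j, θ (E'.w j) = s j / s 0 := fun j => by rw [hE']; exact hθw j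
  have hθk' : ∀ a, θ (E'.kf a) = algebraMap ℂ V.K a := fun a => by rw [hE']; exact hθk a
  let _ : Algebra ℂ X'.functionField := E'.kf.toAlgebra
  have hk' : ∀ a : ℂ, algebraMap ℂ X'.functionField a = E'.kf a := fun _ => rfl
  let θA : X'.functionField →ₐ[ℂ] V.K :=
    { toRingHom := (θ : X'.functionField →+* V.K)
      commutes' := fun a => by
        change θ (E'.kf a) = _
        exact hθk' a }
  have hg' : IsCoord E' E'.w :=
    { ne := fun j h0 => by
        have h3 := hθw' j
        rw [h0, map_zero] at h3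
        exact div_ne_zero (hs j) (hs 0) h3.symm
      mem := fun j => ⟨j, rfl⟩
      surj := fun i _ => ⟨i, rfl⟩ }
  have hmatch : ∀ (W : ValuationSubring V.K) (x : X') (y : V.X),
      IsCentre (W.comap (θ : X'.functionField →+* V.K)) x → IsCentre W y →
      (loc x).map (θ : X'.functionField →+* V.K) = loc y := by
    intro W x y hx hy
    have hW := V.isPlace hy
    apply SetLike.coe_injective
    have h3 : ((loc y : Subring V.K) : Set V.K) = locRing s W := by
      rw [← V.model_loc hy]
      obtain ⟨i, h4, -, h5⟩ := h2 W hW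
      rw [h5]
      exact (locRing_eq s hs W hW i h4).symm
    have h4 : (loc x : Set X'.functionField) =
        locRing E'.w (W.comap (θ : X'.functionField →+* V.K)) := loc_eq_locRing hk' hg' hx
    have h5 := locRing_map E'.w θA W
    have h6 : (fun j => θA (E'.w j)) = fun j => s j / s 0 := by
      funext j
      exact hθw' j
    rw [h6, locRing_div s (s 0) (hs 0)] at h5
    rw [h3, h5, Subring.coe_map, h4]
    rfl
  obtain ⟨e, he1, he2⟩ := S5.exists_iso_of_centres i' V.i E' V.emb (by rw [hE']; rfl) V.emb_str θ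
    (fun a => by rw [hθk', V.hk]) hmatch
  have hdom : IsDominant e.hom := inferInstance
  have hfm : fmap e.hom = (θ : X'.functionField →+* V.K) := fmap_of_gen _ he2
  have hcl : IsClosedImmersion (e.hom ≫ i') := inferInstance
  -- the ratios of the coordinates
  have hrat : ∀ (r t : Fin (N + 1)) (x : V.X) (ht : x ∈ Dplus (e.hom ≫ i') t),
      algebraMap (V.X.presheaf.stalk x) V.X.functionField
        ((V.X.presheaf.germ (Dplus (e.hom ≫ i') t) x ht).hom (ratio (e.hom ≫ i') r t)) =
        s r / s t := by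
    intro r t x ht
    rw [ratio_comp' i' r t ht ht, ratio_eq i' 0 hx, hfm, map_div₀]
    have h3 : ∀ l, (θ : X'.functionField →+* V.K) ((EmbAux.dat i' 0 hx).w l) = s l / s 0 := hθw
    rw [h3, h3, div_div_div_cancel_right₀ (hs 0)]
  refine ⟨m, N, e.hom ≫ i', fun x => m * c x + V.X.ord (s 0) x, (s 0)⁻¹, hm, hcl, ?_, ?_,
    inv_ne_zero (hs 0), ?_⟩
  · have h3 : S5.toSpec (e.hom ≫ i') = e.hom ≫ S5.toSpec i' := by
      rw [S5.toSpec, S5.toSpec, Category.assoc]
    rw [h3]
    exact he1
  · refine (isHyp_iff _ _).2 ⟨0, ?_, ?_⟩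
    · change e.hom (genericPoint V.X) ∈ Dplus i' 0
      rw [s6_generic e.hom]
      exact hx
    · intro x hxc t ht
      rw [hrat 0 t x ht, ord_div hxc (hs 0) (hs t)]
      change (m : ℤ) * c x + V.X.ord (s 0) x = V.X.ord (s 0) x - V.X.ord (s t) x
      have hreg : ∀ r, 0 ≤ V.X.ord (s r / s t) x := fun r => by
        apply loc_ord hxc
        rw [← hrat r t x ht]
        exact ⟨_, rfl⟩
      obtain ⟨i, h3, h4, -⟩ := h2 (V.ptD x hxc).ring (V.ptD x hxc).isPlace
      have h5 : Through V.model (V.ptD x hxc).ring (V.ptD x hxc) := by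
        refine ⟨V.ptD_isPrimeDiv x hxc, ?_⟩
        have h6 := V.ptD_isPrimeDiv x hxc
        rw [IsPrimeDiv] at h6
        rw [← h6]
      have h6 := h4 _ h5
      rw [hC x hxc, ptD_v] at h6
      have h7 := hreg i
      rw [ord_div hxc (hs i) (hs t)] at h7
      have h8 := (V.ptD x hxc).mem_ring'.1 (h3 t)
      rw [ptD_v, ord_div hxc (hs t) (hs i)] at h8
      omega
  · intro x hxc
    have h3 : V.X.ord (s 0)⁻¹ x = - V.X.ord (s 0) x := (V.ptD x hxc).inv (hs 0)
    rw [h3]
    ring

/-- Ample divisors of the engine and of schemes. -/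
theorem isAmple_iff {C : DVal V.K → ℤ} {c : V.X → ℤ} (hC : V.Corr C c) :
    FR.IsAmple V.model C ↔ V.IsAmple c :=
  ⟨isAmple_scheme hC, isAmple_engine hC⟩

/-- Fano varieties of the engine and of schemes. -/
theorem isFano_iff {n : ℕ} (B : Module.Basis (Fin n) V.K (Derivation ℂ V.K V.K)) :
    FR.IsFano B V.model ↔ V.IsFano B := by
  unfold FR.IsFano PVar.IsFano
  rw [qFactorial_iff, isTerminal_iff, isAmple_iff (c := fun x => - V.kdiv B x)
    (fun x hx => by rw [kord_ptD])]

end PVar

end Pool.Agent.FR.S
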