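import Mathlib.AlgebraicGeometry.Birational.RationalMap
import Mathlib.AlgebraicGeometry.FunctionField
import Pool.Agent.K1.L3Defs
import Pool.Agent.FR.Defs

/-!
Project FR, block S (bridge to schemes): the basic definitions for schemes over projective space
which the final statement uses.
-/

set_option autoImplicit false

open AlgebraicGeometry CategoryTheory Pool.Agent.K1

attribute [local instance] MvPolynomial.gradedAlgebra

namespace Pool.Agent.FR

namespace S2

theorem X_mem {k : Type} [Field k] {N : ℕ} (j : Fin (N + 1)) :
    (MvPolynomial.X j : MvPolynomial (Fin (N + 1)) k) ∈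
      MvPolynomial.homogeneousSubmodule (Fin (N + 1)) k 1 :=
  (MvPolynomial.mem_homogeneousSubmodule _ _).2 (MvPolynomial.isHomogeneous_X k j)

end S2

namespace S5

/-- The map of the spectrum of the function field. -/
noncomputable abbrev gen (X : Scheme.{0}) [IsIntegral X] : Spec X.functionField ⟶ X :=
  X.fromSpecStalk (genericPoint X)

/-- The structure morphism to `Spec k` of a scheme over projective space. -/
noncomputable def toSpec {k : Type} [Field k] {n : ℕ} {X : Scheme.{0}} (i : X ⟶ PN k n) :
    X ⟶ Spec (.of k) :=
  i ≫ Proj.toSpecZero (MvPolynomial.homogeneousSubmodule (Fin (n + 1)) k) ≫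
    Spec.map (CommRingCat.ofHom
      (algebraMap k (MvPolynomial.homogeneousSubmodule (Fin (n + 1)) k 0)))

end S5

namespace S

/-- The local ring of `X` at `x`, as a subring of the function field. -/
noncomputable def loc {X : Scheme.{0}} [IsIntegral X] (x : X) : Subring X.functionField :=
  (algebraMap (X.presheaf.stalk x) X.functionField).range

/-- The valuation ring `V` of the function field dominates the local ring of `X` at `x`: the
point `x` is the centre of `V`. -/
def IsCentre {X : Scheme.{0}} [IsIntegral X] (V : ValuationSubring X.functionField) (x : X) :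
    Prop :=
  ∀ a : X.presheaf.stalk x, algebraMap (X.presheaf.stalk x) X.functionField a ∈ V ∧
    (a ≠ 0 → (algebraMap (X.presheaf.stalk x) X.functionField a)⁻¹ ∈ V → IsUnit a)

end S

end Pool.Agent.FR
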