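import Pool.Agent.FR.Val

/-!
Project FR, block S (bridge to schemes): the notions of the engine depend on a model only through
its local rings (helper3).
-/

set_option autoImplicit false

namespace Pool.Agent.FR.S

open scoped Classical

variable {K : Type} [Field K] [Algebra ℂ K]

/-- Two models with the same local rings. -/
def SameLoc (M M' : Model (⊤ : IntermediateField ℂ K)) : Prop :=
  ∀ V : ValuationSubring K, IsPlace V → locRing M.g V = locRing M'.g V

variable {M M' : Model (⊤ : IntermediateField ℂ K)}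

theorem SameLoc.symm (h : SameLoc M M') : SameLoc M' M := fun V hV => (h V hV).symm

theorem SameLoc.isPrimeDiv (h : SameLoc M M') (D : DVal K) : IsPrimeDiv M D ↔ IsPrimeDiv M' D := by
  rw [IsPrimeDiv, IsPrimeDiv, h _ D.isPlace]

theorem SameLoc.through (h : SameLoc M M') {V : ValuationSubring K} (hV : IsPlace V)
    (D : DVal K) : Through M V D ↔ Through M' V D := by
  rw [Through, Through, h.isPrimeDiv, h V hV]

theorem SameLoc.isLocEq (h : SameLoc M M') (c : DVal K → ℤ) {V : ValuationSubring K}
    (hV : IsPlace V) (N : ℕ) (f : K) : IsLocEq M c V N f ↔ IsLocEq M' c V N f := by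
  unfold IsLocEq
  simp only [h.through hV]

theorem SameLoc.qCartier (h : SameLoc M M') (c : DVal K → ℤ) : QCartier M c ↔ QCartier M' c := by
  unfold QCartier
  constructor
  · intro hc V hV
    obtain ⟨N, f, hf⟩ := hc V hV
    exact ⟨N, f, (h.isLocEq c hV N f).1 hf⟩
  · intro hc V hV
    obtain ⟨N, f, hf⟩ := hc V hV
    exact ⟨N, f, (h.isLocEq c hV N f).2 hf⟩

theorem SameLoc.qFactorial (h : SameLoc M M') : QFactorial M ↔ QFactorial M' := by
  unfold QFactorial
  simp only [h.isPrimeDiv, h.qCartier]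

theorem SameLoc.isAmple_mp (h : SameLoc M M') {c : DVal K → ℤ} (hc : IsAmple M c) :
    IsAmple M' c := by
  obtain ⟨m, N, s, hm, hs, h1, h2⟩ := hc
  refine ⟨m, N, s, hm, hs, fun i D hD => h1 i D ((h.isPrimeDiv D).2 hD), fun V hV => ?_⟩
  obtain ⟨i, h3, h4, h5⟩ := h2 V hV
  exact ⟨i, h3, fun D hD => h4 D ((h.through hV D).2 hD), by rw [← h V hV]; exact h5⟩

theorem SameLoc.isAmple (h : SameLoc M M') (c : DVal K → ℤ) : IsAmple M c ↔ IsAmple M' c :=
  ⟨h.isAmple_mp, h.symm.isAmple_mp⟩

section canonical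

variable {n : ℕ} (B : Module.Basis (Fin n) K (Derivation ℂ K K))

theorem SameLoc.isLogDisc (h : SameLoc M M') (D : DVal K) (a : ℝ) :
    IsLogDisc B M D a ↔ IsLogDisc B M' D a := by
  unfold IsLogDisc
  simp only [h.isLocEq (kord B) D.isPlace]

theorem SameLoc.isTerminal (h : SameLoc M M') : IsTerminal B M ↔ IsTerminal B M' := by
  unfold IsTerminal
  simp only [h.qCartier, h.isPrimeDiv, h.isLogDisc B]

theorem SameLoc.isFano (h : SameLoc M M') : IsFano B M ↔ IsFano B M' := by
  unfold IsFano
  rw [h.qFactorial, h.isTerminal, h.isAmple]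

theorem SameLoc.picardOne (h : SameLoc M M') : PicardOne B M ↔ PicardOne B M' := by
  unfold PicardOne
  simp only [h.isPrimeDiv]

theorem SameLoc.isMoriFibreSpace_mp (h : SameLoc M M') {L : IntermediateField ℂ K} {S : Model L}
    (hS : IsMoriFibreSpace B M L S) : IsMoriFibreSpace B M' L S where
  terminal := (h.isTerminal B).1 hS.terminal
  connected := hS.connected
  dim := hS.dim
  morphism V hV := by
    rw [← h V hV]
    exact hS.morphism V hV
  ample := by
    obtain ⟨a, b, ha, hab⟩ := hS.ample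
    exact ⟨a, b, ha, (h.isAmple _).1 hab⟩

theorem SameLoc.isom_left (h : SameLoc M M') {Y : Model (⊤ : IntermediateField ℂ K)} :
    Isom M Y ↔ Isom M' Y := by
  unfold Isom
  constructor
  · rintro ⟨σ, hσ⟩
    exact ⟨σ, fun V hV => by rw [hσ V hV, h V hV]⟩
  · rintro ⟨σ, hσ⟩
    exact ⟨σ, fun V hV => by rw [hσ V hV, h V hV]⟩

theorem SameLoc.isBirRigid (h : SameLoc M M') : IsBirRigid B M ↔ IsBirRigid B M' := by
  unfold IsBirRigid
  rw [h.isFano, h.picardOne]
  simp only [h.isom_left]

theorem SameLoc.sections (h : SameLoc M M') (D : DVal K) (a : ℝ) (m : ℕ) (t : ℝ) :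
    FR.sections B M D a m t = FR.sections B M' D a m t := by
  unfold FR.sections
  simp only [h.isPrimeDiv]

theorem SameLoc.vol (h : SameLoc M M') (D : DVal K) (a t : ℝ) :
    FR.vol B M D a t = FR.vol B M' D a t := by
  unfold FR.vol
  have h1 : ∀ m : ℕ, Module.finrank ℂ (FR.sections B M D a m t) =
      Module.finrank ℂ (FR.sections B M' D a m t) := fun m => by rw [h.sections B]
  simp only [h1]

theorem SameLoc.beta (h : SameLoc M M') (D : DVal K) (a : ℝ) :
    FR.beta B M D a = FR.beta B M' D a := by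
  unfold FR.beta
  simp only [h.vol B]

theorem SameLoc.isKStable (h : SameLoc M M') : IsKStable B M ↔ IsKStable B M' := by
  unfold IsKStable
  simp only [h.isLogDisc B, h.beta B]

end canonical

end Pool.Agent.FR.S
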