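import Pool.Agent.FR.SDom
import Pool.Agent.FR.S7
import Pool.Agent.FR.S8

/-!
Project FR, block S (bridge to schemes): connected fibres and birational maps for normal projective
varieties (helper18).
-/

set_option autoImplicit false

open AlgebraicGeometry CategoryTheory Pool.Agent.K1

namespace Pool.Agent.FR.S

/-- The field `connected` of Mori fibre spaces. -/
theorem IsMFS.alg_closed {Y S : PVar} {φ : Y.X ⟶ S.X} [IsDominant φ] (h : IsMFS Y S φ) (x : Y.K)
    (hx : IsAlgebraic (PVar.fmapA h.comp).fieldRange x) : x ∈ (PVar.fmapA h.comp).fieldRange :=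
  S7.baseModel_connected S.i S.emb_str Y.hk S.hk (PVar.str_comp h.comp) Y.normal
    (fun s hs => (h.connected s hs).isPreconnected) x hx

/-- Mori fibre spaces of schemes are Mori fibre spaces of the engine. -/
theorem IsMFS.engine {Y S : PVar} {φ : Y.X ⟶ S.X} [IsDominant φ] (h : IsMFS Y S φ) :
    ∃ (n : ℕ) (B : Module.Basis (Fin n) Y.K (Derivation ℂ Y.K Y.K)),
      IsMoriFibreSpace B Y.model (PVar.fmapA h.comp).fieldRange (PVar.baseModel h.comp) :=
  PVar.mfs_engine h h.alg_closed

/-- Birational varieties have isomorphic function fields over `ℂ`. -/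
theorem Birational.exists_algEquiv {X Y : PVar} (h : Birational X Y) : Nonempty (X.K ≃ₐ[ℂ] Y.K) := by
  obtain ⟨σ, hσ⟩ := S8.exists_equiv h
  refine ⟨{ σ with commutes' := fun c => ?_ }⟩
  have h1 : σ (algebraMap ℂ X.K c) = algebraMap ℂ Y.K c := by
    rw [algebraMap_eq, algebraMap_eq]
    exact hσ c
  exact h1

/-- Superrigid Fano varieties are rigid. -/
theorem PVar.IsSuperrigid.isBirRigid {X : PVar} (h : X.IsSuperrigid) {n : ℕ}
    {B : Module.Basis (Fin n) X.K (Derivation ℂ X.K X.K)} (hF : X.IsFano B)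
    (hP : X.PicardOne B) : X.IsBirRigid B := by
  refine ⟨hF, hP, fun Y S φ hφ hb => ?_⟩
  obtain ⟨σ⟩ := hb.exists_algEquiv
  obtain ⟨h1, e, he, -⟩ := h Y S φ hφ σ
  exact ⟨h1, e, he⟩

end Pool.Agent.FR.S
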