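import Mathlib.AlgebraicGeometry.Birational.Birational
import Pool.Agent.FR.SBase
import Pool.Agent.FR.S1c
import Pool.Agent.FR.S2

/-!
# Normal projective varieties over `ℂ` as schemes

Definitions for the statement of project FR in the language of schemes: normal projective
varieties, Weil divisors, canonical divisors, ample divisors, terminal singularities, Fano
varieties, Mori fibre spaces, birational rigidity, the invariant `β` of Fujita and Li.
-/

set_option autoImplicit false

open AlgebraicGeometry CategoryTheory Pool.Agent.K1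

attribute [local instance] MvPolynomial.gradedAlgebra

namespace Pool.Agent.FR.S

open scoped Classical

/-- A normal projective variety over `ℂ`: an integral closed subscheme `X` of a projective space,
all of whose local rings are integrally closed. -/
structure PVar where
  X : Scheme.{0}
  N : ℕ
  i : X ⟶ PN ℂ N
  integral : IsIntegral X
  closed : IsClosedImmersion i
  normal : ∀ x : X, IsIntegrallyClosed (X.presheaf.stalk x)

instance (V : PVar) : IsIntegral V.X := V.integral

instance (V : PVar) : IsClosedImmersion V.i := V.closed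

instance (V : PVar) : IsLocallyNoetherian V.X := by
  obtain ⟨E⟩ := exists_embed ℂ V.N V.X V.i
  exact s1_locallyNoetherian E

section hyperplane

/-- The coordinate ring of the chart `X t ≠ 0` of projective space. -/
abbrev Chart (n : ℕ) (t : Fin (n + 1)) : Type :=
  HomogeneousLocalization.Away (MvPolynomial.homogeneousSubmodule (Fin (n + 1)) ℂ)
    (MvPolynomial.X t)

/-- The chart `X t ≠ 0` of projective space. -/
noncomputable def chart (n : ℕ) (t : Fin (n + 1)) : Spec (.of (Chart n t)) ⟶ PN ℂ n :=
  Proj.awayι (MvPolynomial.homogeneousSubmodule (Fin (n + 1)) ℂ) (MvPolynomial.X t) (S2.X_mem t)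
    Nat.one_pos

/-- The function `X s / X t` on the chart `X t ≠ 0`. -/
noncomputable def frac {n : ℕ} (s t : Fin (n + 1)) : Chart n t :=
  HomogeneousLocalization.Away.mk (MvPolynomial.homogeneousSubmodule (Fin (n + 1)) ℂ)
    (S2.X_mem t) 1 (MvPolynomial.X s) (S2.X_mem s)

variable {X : Scheme.{0}} [IsIntegral X] {n : ℕ} (i : X ⟶ PN ℂ n)

/-- `f` is the rational function `X s / X t` on `X`, for a morphism `i` from `X` to a projective
space: the generic point of `X` is mapped into the chart `X t ≠ 0` and `f` is the value there of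
the function `X s / X t`. -/
def IsRatio (s t : Fin (n + 1)) (f : X.functionField) : Prop :=
  ∃ q : Chart n t →+* X.functionField,
    Spec.map (CommRingCat.ofHom q) ≫ chart n t = S5.gen X ≫ i ∧ q (frac s t) = f

/-- `h` is the divisor on `X` of a hyperplane `X s = 0` of the projective space (which does not
contain the image of `X`), for a morphism `i` from `X` to a projective space: its order at a point
`x` of codimension one is the order of the local equation `X s / X t`, where `X t` does not vanish
at `x`. -/
def IsHyp [IsLocallyNoetherian X] (h : X → ℤ) : Prop :=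
  ∃ s : Fin (n + 1), (∃ f, IsRatio i s s f) ∧
    ∀ x : X, Order.coheight x = 1 → ∀ (t : Fin (n + 1)) (f : X.functionField),
      i x ∈ Set.range (chart n t) → IsRatio i s t f → h x = X.ord f x

end hyperplane

namespace PVar

variable (V : PVar)

/-- The structure morphism. -/
noncomputable abbrev str : V.X ⟶ Spec (.of ℂ) := S5.toSpec V.i

/-- The function field. -/
abbrev K : Type := V.X.functionField

/-- The function field as an algebra over `ℂ`: the structure is given by the morphism
`Spec K(V) ⟶ V ⟶ Spec ℂ`. -/
noncomputable instance : Algebra ℂ V.K := (Spec.preimage (S5.gen V.X ≫ V.str)).hom.toAlgebra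

/-- Bases of the derivations of the function field over `ℂ`. Such a basis defines a dual rational
`n`-form `ω`. -/
abbrev Bas (n : ℕ) : Type := Module.Basis (Fin n) V.K (Derivation ℂ V.K V.K)

/-- The natural number `N` and the rational function `f` are a local equation at the point `z` of
the Weil divisor with coefficients `c` (a function on the points of codimension one): near `z`,
`N` times the divisor is the divisor of `f`. -/
def IsLocEq (c : V.X → ℤ) (z : V.X) (N : ℕ) (f : V.K) : Prop :=
  0 < N ∧ f ≠ 0 ∧ ∀ x : V.X, Order.coheight x = 1 → x ⤳ z → V.X.ord f x = N * c x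

/-- The Weil divisor with coefficients `c` is `ℚ`-Cartier. -/
def IsQCartier (c : V.X → ℤ) : Prop := ∀ z : V.X, ∃ N f, V.IsLocEq c z N f

/-- `V` is `ℚ`-factorial: every prime divisor is `ℚ`-Cartier. -/
def IsQFactorial : Prop :=
  ∀ x₀ : V.X, Order.coheight x₀ = 1 → V.IsQCartier (fun x => if x = x₀ then 1 else 0)

/-- The Weil divisor with coefficients `c` is ample: a positive multiple is linearly equivalent to
a hyperplane section for some closed immersion over `ℂ` into a projective space. -/
def IsAmple (c : V.X → ℤ) : Prop :=
  ∃ (m n : ℕ) (j : V.X ⟶ PN ℂ n) (h : V.X → ℤ) (f : V.K), 0 < m ∧ IsClosedImmersion j ∧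
    S5.toSpec j = V.str ∧ IsHyp j h ∧ f ≠ 0 ∧
    ∀ x : V.X, Order.coheight x = 1 → m * c x = h x + V.X.ord f x

/-- The divisorial valuation `D` (a prime divisor over `V`) is a prime divisor on `V`. -/
def IsOn (D : DVal V.K) : Prop :=
  ∃ x : V.X, Order.coheight x = 1 ∧ ∀ f : V.K, D.v f = V.X.ord f x

section canonical

variable {n : ℕ} (B : V.Bas n)

/-- The canonical divisor, defined by the rational `n`-form `ω` dual to the basis `B` of the
derivations of the function field: its coefficient at the point `x` of codimension one is the order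
at `x` of `ω`, where the `n`-forms on the local ring at `x` are generated by the forms
`du 0 ∧ ... ∧ du (n - 1) = jac B u • ω`, with all `u j` in the local ring. -/
noncomputable def kdiv (x : V.X) : ℤ :=
  - sInf {z | ∃ u : Fin n → V.K, (∀ j, u j ∈ loc x) ∧ jac B u ≠ 0 ∧ z = V.X.ord (jac B u) x}

/-- `a` is the log discrepancy `A_V(D)`: if `(N, f)` is a local equation of the canonical divisor
at the centre of `D` on `V`, then `A_V(D) = 1 + ord_D ω - ord_D f / N`. -/
def IsLogDisc (D : DVal V.K) (a : ℝ) : Prop :=
  ∃ z N f, IsCentre D.ring z ∧ V.IsLocEq (V.kdiv B) z N f ∧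
    a = 1 + kord B D - (D.v f : ℝ) / N

/-- `V` has terminal singularities: the canonical divisor is `ℚ`-Cartier and `A_V(D) > 1` for
every prime divisor `D` over `V` which is not a prime divisor on `V`. -/
def IsTerminal : Prop :=
  V.IsQCartier (V.kdiv B) ∧ ∀ D a, ¬ V.IsOn D → V.IsLogDisc B D a → 1 < a

/-- `V` is a Fano variety with `ℚ`-factorial terminal singularities. -/
def IsFano : Prop :=
  V.IsQFactorial ∧ V.IsTerminal B ∧ V.IsAmple (fun x => - V.kdiv B x)

/-- `V` has Picard number one (in the strongest sense): every prime divisor is `ℚ`-linearly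
equivalent to a rational multiple of the canonical divisor. -/
def PicardOne : Prop :=
  ∀ x₀ : V.X, Order.coheight x₀ = 1 → ∃ (N : ℕ) (c : ℤ) (f : V.K), 0 < N ∧ f ≠ 0 ∧
    ∀ x : V.X, Order.coheight x = 1 →
      (N : ℤ) * (if x = x₀ then 1 else 0) + c * V.kdiv B x = V.X.ord f x

/-- The space of sections of `-m K_V` which vanish to order at least `m t` along the prime divisor
`D` over `V`, where `a = A_V(D)`. -/
noncomputable def sections (D : DVal V.K) (a : ℝ) (m : ℕ) (t : ℝ) : Submodule ℂ V.K :=
  Submodule.span ℂ {h | h ≠ 0 ∧
    (∀ x : V.X, Order.coheight x = 1 → (m : ℤ) * V.kdiv B x ≤ V.X.ord h x) ∧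
    (m : ℝ) * t ≤ D.v h - m * (kord B D + 1 - a)}

/-- The volume of `-K_V - t D`. -/
noncomputable def vol (D : DVal V.K) (a : ℝ) (t : ℝ) : ℝ :=
  Filter.limsup (fun m : ℕ => (n.factorial : ℝ) *
    (Module.finrank ℂ (V.sections B D a m t) : ℝ) / (m : ℝ) ^ n) Filter.atTop

/-- The invariant `β_V(D)` of Fujita and Li, where `a = A_V(D)`. -/
noncomputable def beta (D : DVal V.K) (a : ℝ) : ℝ :=
  a - (∫ t in Set.Ioi (0 : ℝ), V.vol B D a t) / V.vol B D a 0

/-- `V` is K-stable (valuative criterion of Fujita and Li). -/
def IsKStable : Prop := ∀ D a, V.IsLogDisc B D a → 0 < V.beta B D a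

end canonical

end PVar

/-- `φ : Y → S` is a Mori fibre space, in a weak sense: `Y` and `S` are normal projective
varieties, `φ` is a morphism over `ℂ` with nonempty connected fibres (over the closed points),
`dim S < dim Y`, `Y` has terminal singularities, and `-K_Y` is ample relative to `φ`
(`-a K_Y + b φ^*H` is ample for some `a > 0`, `b ≥ 0`, where `H` is a hyperplane section of `S`).
Every Mori fibre space is one in this sense: we do not ask that `Y` is `ℚ`-factorial or that the
relative Picard number is one. -/
structure IsMFS (Y S : PVar) (φ : Y.X ⟶ S.X) : Prop where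
  comp : φ ≫ S.str = Y.str
  connected : ∀ s : S.X, IsClosed {s} → _root_.IsConnected (φ ⁻¹' {s})
  dim : topologicalKrullDim S.X < topologicalKrullDim Y.X
  terminal : ∃ (n : ℕ) (B : Y.Bas n), Y.IsTerminal B ∧
    ∃ (a b : ℕ) (h : Y.X → ℤ), 0 < a ∧ IsHyp (φ ≫ S.i) h ∧
      Y.IsAmple (fun y => -(a * Y.kdiv B y) + b * h y)

/-- `X` and `Y` are birational over `ℂ`. -/
def Birational (X Y : PVar) : Prop := Scheme.BirationalOver X.str Y.str

/-- `X` and `Y` are isomorphic over `ℂ`. -/
def Isomorphic (X Y : PVar) : Prop := ∃ e : X.X ≅ Y.X, e.hom ≫ Y.str = X.str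

/-- `S` is a point. -/
def IsPoint (S : PVar) : Prop := IsIso S.str

/-- `X` is a birationally rigid Fano variety of Picard number one: for every Mori fibre space
`Y → S` (even in the weak sense above) with `Y` birational to `X`, the base `S` is a point and `Y`
is isomorphic to `X`. -/
def PVar.IsBirRigid (X : PVar) {n : ℕ} (B : X.Bas n) : Prop :=
  X.IsFano B ∧ X.PicardOne B ∧ ∀ (Y S : PVar) (φ : Y.X ⟶ S.X), IsMFS Y S φ → Birational X Y →
    IsPoint S ∧ Isomorphic X Y

/-- `X` is birationally superrigid: for every Mori fibre space `Y → S` (even in the weak sense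
above) and every birational map between `X` and `Y` (an isomorphism `σ` of function fields over
`ℂ`), the base `S` is a point and the birational map is an isomorphism `X ≅ Y`. -/
def PVar.IsSuperrigid (X : PVar) : Prop :=
  ∀ (Y S : PVar) (φ : Y.X ⟶ S.X), IsMFS Y S φ → ∀ σ : X.K ≃ₐ[ℂ] Y.K,
    IsPoint S ∧ ∃ e : X.X ≅ Y.X, e.hom ≫ Y.str = X.str ∧
      S5.gen Y.X ≫ e.inv = Spec.map (CommRingCat.ofHom (σ : X.K →+* Y.K)) ≫ S5.gen X.X

end Pool.Agent.FR.S
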