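import Pool.Agent.FR.SMfs
import Mathlib.AlgebraicGeometry.Morphisms.FiniteType

/-!
Project FR, block S (bridge to schemes): the morphism of a fibre space is dominant (helper3).
-/

set_option autoImplicit false

open AlgebraicGeometry CategoryTheory Pool.Agent.K1

namespace Pool.Agent.FR.S

theorem jacobson (S : PVar) : JacobsonSpace S.X :=
  LocallyOfFiniteType.jacobsonSpace S.str

/-- A morphism whose image contains the closed points is dominant. -/
theorem dominant_of_closed {Y S : PVar} (φ : Y.X ⟶ S.X)
    (h : ∀ s : S.X, IsClosed {s} → (φ ⁻¹' {s}).Nonempty) : IsDominant φ := by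
  have hJ := jacobson S
  refine ⟨?_⟩
  rw [DenseRange, dense_iff_closure_eq, Set.eq_univ_iff_forall]
  intro x
  have h1 : closure (closedPoints S.X) = Set.univ := closure_closedPoints
  have h2 : x ∈ closure (closedPoints S.X) := by
    rw [h1]
    trivial
  refine closure_mono ?_ h2
  intro s hs
  obtain ⟨y, hy⟩ := h s hs
  exact ⟨y, hy⟩

theorem IsMFS.dominant {Y S : PVar} {φ : Y.X ⟶ S.X} (h : IsMFS Y S φ) : IsDominant φ :=
  dominant_of_closed φ fun s hs => (h.connected s hs).nonempty

end Pool.Agent.FR.S
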