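import Pool.Agent.FR.SDefs
import Pool.Agent.FR.S5

/-!
Project FR, block S (bridge to schemes): the functions `X s / X t` as rational functions and as
sections, hyperplane sections by local equations (helper20, helper3).
-/

set_option autoImplicit false

open AlgebraicGeometry CategoryTheory Pool.Agent.K1

attribute [local instance] MvPolynomial.gradedAlgebra

namespace Pool.Agent.FR.S

open scoped Classical

variable {X : Scheme.{0}} {n : ℕ} (i : X ⟶ PN ℂ n)

/-- The open subset of `X` where the homogeneous coordinate `X t` does not vanish, for a morphism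
`i` from `X` to a projective space. -/
noncomputable def Dplus (t : Fin (n + 1)) : X.Opens :=
  i ⁻¹ᵁ Proj.basicOpen (MvPolynomial.homogeneousSubmodule (Fin (n + 1)) ℂ) (MvPolynomial.X t)

/-- The function `X s / X t` on the open subset `X t ≠ 0`. -/
noncomputable def ratio (s t : Fin (n + 1)) : Γ(X, Dplus i t) :=
  (i.app (Proj.basicOpen (MvPolynomial.homogeneousSubmodule (Fin (n + 1)) ℂ)
    (MvPolynomial.X t))).hom
    ((Proj.awayToSection (MvPolynomial.homogeneousSubmodule (Fin (n + 1)) ℂ)
      (MvPolynomial.X t)).hom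
      (HomogeneousLocalization.Away.mk (MvPolynomial.homogeneousSubmodule (Fin (n + 1)) ℂ)
        (S2.X_mem t) 1 (MvPolynomial.X s) (S2.X_mem s)))

instance chart_isOpenImmersion (t : Fin (n + 1)) : IsOpenImmersion (chart n t) := by
  unfold chart
  infer_instance

theorem opensRange_chart (t : Fin (n + 1)) : (chart n t).opensRange =
    Proj.basicOpen (MvPolynomial.homogeneousSubmodule (Fin (n + 1)) ℂ) (MvPolynomial.X t) :=
  Proj.opensRange_awayι _ _ (S2.X_mem t) Nat.one_pos

theorem mem_range_chart (t : Fin (n + 1)) (x : X) : i x ∈ Set.range (chart n t) ↔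
    x ∈ Dplus i t := by
  have h := opensRange_chart (n := n) t
  have h1 : i x ∈ Set.range (chart n t) ↔ i x ∈ (chart n t).opensRange := Iff.rfl
  rw [h1, h]
  rfl

variable [IsIntegral X]

theorem chart_point {R : CommRingCat.{0}} [IsLocalRing R] (t : Fin (n + 1)) (q : Chart n t →+* R)
    {f : Spec R ⟶ PN ℂ n}
    (hf : Spec.map (CommRingCat.ofHom q) ≫ chart n t = f)
    (hx : f (IsLocalRing.closedPoint R) ∈
      Proj.basicOpen (MvPolynomial.homogeneousSubmodule (Fin (n + 1)) ℂ) (MvPolynomial.X t)) :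
    Proj.awayToSection (MvPolynomial.homogeneousSubmodule (Fin (n + 1)) ℂ) (MvPolynomial.X t) ≫
      (PN ℂ n).presheaf.germ _ _ hx ≫ Scheme.stalkClosedPointTo f = CommRingCat.ofHom q := by
  set U := Proj.basicOpen (MvPolynomial.homogeneousSubmodule (Fin (n + 1)) ℂ)
    (MvPolynomial.X t) with hU
  have h1 : Spec.map (Scheme.stalkClosedPointTo f) ≫ (PN ℂ n).fromSpecStalk _ = f :=
    Scheme.Spec_stalkClosedPointTo_fromSpecStalk f
  rw [← Scheme.Opens.fromSpecStalkOfMem_ι U _ hx, ← Category.assoc] at h1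
  have h2 : f = (Spec.map (CommRingCat.ofHom q) ≫
      (Proj.basicOpenIsoSpec (MvPolynomial.homogeneousSubmodule (Fin (n + 1)) ℂ)
        (MvPolynomial.X t) (S2.X_mem t) Nat.one_pos).inv) ≫ U.ι := by
    rw [← hf, Category.assoc]
    rfl
  have h3 : Spec.map (Scheme.stalkClosedPointTo f) ≫ U.fromSpecStalkOfMem _ hx =
      Spec.map (CommRingCat.ofHom q) ≫
      (Proj.basicOpenIsoSpec (MvPolynomial.homogeneousSubmodule (Fin (n + 1)) ℂ)
        (MvPolynomial.X t) (S2.X_mem t) Nat.one_pos).inv := by
    rw [← cancel_mono U.ι, h1]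
    exact h2
  have h4 := congrArg (fun t' => t' ≫ (Proj.basicOpenIsoSpec
    (MvPolynomial.homogeneousSubmodule (Fin (n + 1)) ℂ)
        (MvPolynomial.X t) (S2.X_mem t) Nat.one_pos).hom) h3
  simp only [Category.assoc, Iso.inv_hom_id, Category.comp_id] at h4
  rw [Proj.basicOpenIsoSpec_hom, Proj.basicOpenToSpec,
    Scheme.Opens.fromSpecStalkOfMem_toSpecΓ_assoc, ← Spec.map_comp, ← Spec.map_comp] at h4
  exact Spec.map_injective h4

/-- The value of the sections of the chart at the generic point. -/
theorem chart_germ (t : Fin (n + 1)) (q : Chart n t →+* X.functionField)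
    (hq : Spec.map (CommRingCat.ofHom q) ≫ chart n t = S5.gen X ≫ i)
    (hx : genericPoint X ∈ Dplus i t) (z : Chart n t) :
    q z = (X.presheaf.germ (Dplus i t) (genericPoint X) hx).hom
      ((i.app (Proj.basicOpen (MvPolynomial.homogeneousSubmodule (Fin (n + 1)) ℂ)
        (MvPolynomial.X t))).hom ((Proj.awayToSection
          (MvPolynomial.homogeneousSubmodule (Fin (n + 1)) ℂ) (MvPolynomial.X t)).hom z)) := by
  have hc : S5.gen X (IsLocalRing.closedPoint X.functionField) = genericPoint X :=
    Scheme.fromSpecStalk_closedPoint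
  have hx1 : S5.gen X (IsLocalRing.closedPoint X.functionField) ∈ Dplus i t := by
    rw [hc]
    exact hx
  have hx2 : (S5.gen X ≫ i) (IsLocalRing.closedPoint X.functionField) ∈
      Proj.basicOpen (MvPolynomial.homogeneousSubmodule (Fin (n + 1)) ℂ) (MvPolynomial.X t) := hx1
  have h1 := chart_point (R := X.functionField) t q hq hx2
  have h2 : (PN ℂ n).presheaf.germ _ _ hx2 ≫ Scheme.stalkClosedPointTo (S5.gen X ≫ i) =
      i.app _ ≫ X.presheaf.germ (Dplus i t) (genericPoint X) hx := by
    have h3 : Scheme.stalkClosedPointTo (S5.gen X ≫ i) =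
      i.stalkMap (S5.gen X (IsLocalRing.closedPoint X.functionField)) ≫
        Scheme.stalkClosedPointTo (S5.gen X) := Scheme.stalkClosedPointTo_comp (S5.gen X) i
    have h4 : X.presheaf.germ (Dplus i t) _ hx1 ≫ Scheme.stalkClosedPointTo (S5.gen X) =
        X.presheaf.germ (Dplus i t) (genericPoint X) hx := by
      rw [Scheme.stalkClosedPointTo_fromSpecStalk]
      rw [TopCat.Presheaf.stalkCongr_hom]
      exact TopCat.Presheaf.germ_stalkSpecializes _ _ _
    rw [h3, ← h4]
    have h7 := Scheme.Hom.germ_stalkMap_assoc i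
      (Proj.basicOpen (MvPolynomial.homogeneousSubmodule (Fin (n + 1)) ℂ) (MvPolynomial.X t))
      (S5.gen X (IsLocalRing.closedPoint X.functionField)) hx1
      (Scheme.stalkClosedPointTo (S5.gen X))
    exact h7
  rw [h2] at h1
  exact (congrArg (fun g => g.hom z) h1).symm

theorem exists_chart_hom (t : Fin (n + 1)) (hx : genericPoint X ∈ Dplus i t) :
    ∃ q : Chart n t →+* X.functionField,
      Spec.map (CommRingCat.ofHom q) ≫ chart n t = S5.gen X ≫ i := by
  have h1 : Set.range (S5.gen X ≫ i) ⊆ Set.range (chart n t) := by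
    rintro _ ⟨p, rfl⟩
    have hp : p = IsLocalRing.closedPoint X.functionField :=
      Subsingleton.elim (α := PrimeSpectrum X.functionField) _ _
    rw [hp]
    have hc : S5.gen X (IsLocalRing.closedPoint X.functionField) = genericPoint X :=
      Scheme.fromSpecStalk_closedPoint
    have h2 := (mem_range_chart i t (genericPoint X)).2 hx
    rw [← hc] at h2
    exact h2
  refine ⟨(Spec.preimage (IsOpenImmersion.lift (chart n t) (S5.gen X ≫ i) h1)).hom, ?_⟩
  have h3 : Spec.map (CommRingCat.ofHom
      (Spec.preimage (IsOpenImmersion.lift (chart n t) (S5.gen X ≫ i) h1)).hom) =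
      IsOpenImmersion.lift (chart n t) (S5.gen X ≫ i) h1 :=
    Spec.map_preimage _
  rw [h3, IsOpenImmersion.lift_fac]

/-- The rational function `X s / X t`. -/
theorem isRatio_iff (s t : Fin (n + 1)) (f : X.functionField) : IsRatio i s t f ↔
    ∃ hx : genericPoint X ∈ Dplus i t,
      f = (X.presheaf.germ (Dplus i t) (genericPoint X) hx).hom (ratio i s t) := by
  constructor
  · rintro ⟨q, hq, rfl⟩
    have hx : genericPoint X ∈ Dplus i t := by
      rw [← mem_range_chart]
      have hc : S5.gen X (IsLocalRing.closedPoint X.functionField) = genericPoint X :=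
        Scheme.fromSpecStalk_closedPoint
      rw [← hc]
      have h2 := congrArg (fun g : Spec X.functionField ⟶ PN ℂ n =>
        g (IsLocalRing.closedPoint X.functionField)) hq
      exact ⟨_, h2⟩
    exact ⟨hx, chart_germ i t q hq hx _⟩
  · rintro ⟨hx, rfl⟩
    obtain ⟨q, hq⟩ := exists_chart_hom i t hx
    exact ⟨q, hq, chart_germ i t q hq hx _⟩

/-- Hyperplane sections by local equations. -/
theorem isHyp_iff [IsLocallyNoetherian X] (h : X → ℤ) : IsHyp i h ↔
    ∃ s : Fin (n + 1), genericPoint X ∈ Dplus i s ∧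
      ∀ x : X, Order.coheight x = 1 → ∀ (t : Fin (n + 1)) (ht : x ∈ Dplus i t),
        h x = X.ord (algebraMap (X.presheaf.stalk x) X.functionField
          ((X.presheaf.germ (Dplus i t) x ht).hom (ratio i s t))) x := by
  unfold IsHyp
  refine exists_congr fun s => ?_
  constructor
  · rintro ⟨⟨f, hf⟩, h1⟩
    obtain ⟨hs, -⟩ := (isRatio_iff i s s f).1 hf
    refine ⟨hs, fun x hx t ht => h1 x hx t _ ((mem_range_chart i t x).2 ht) ?_⟩
    have hη := s1_generic_mem ht
    rw [s1_germ hη ht]
    exact (isRatio_iff i s t _).2 ⟨hη, rfl⟩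
  · rintro ⟨hs, h1⟩
    refine ⟨⟨_, (isRatio_iff i s s _).2 ⟨hs, rfl⟩⟩, fun x hx t f ht hf => ?_⟩
    have ht' := (mem_range_chart i t x).1 ht
    obtain ⟨hη, rfl⟩ := (isRatio_iff i s t f).1 hf
    rw [h1 x hx t ht', s1_germ hη ht']

end Pool.Agent.FR.S
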