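import Pool.Agent.FR.SAmple
import Pool.Agent.FR.S6c

/-!
Project FR, block S (bridge to schemes): Mori fibre spaces of schemes are Mori fibre spaces of the
engine (helper3).
-/

set_option autoImplicit false

open AlgebraicGeometry CategoryTheory Pool.Agent.K1

attribute [local instance] MvPolynomial.gradedAlgebra

namespace Pool.Agent.FR.S

open scoped Classical

namespace PVar

/-- Ampleness is invariant under linear equivalence. -/
theorem IsAmple.congr {V : PVar} {c c' : V.X → ℤ} (hc : V.IsAmple c) {F : V.K} (hF : F ≠ 0)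
    (h : ∀ x : V.X, Order.coheight x = 1 → c' x = c x + V.X.ord F x) : V.IsAmple c' := by
  obtain ⟨m, n, j, η, f, hm, hj, hjs, hη, hf, hmc⟩ := hc
  refine ⟨m, n, j, η, f * F ^ m, hm, hj, hjs, hη, mul_ne_zero hf (pow_ne_zero m hF), ?_⟩
  intro x hx
  have h1 : V.X.ord (F ^ m) x = m * V.X.ord F x := (V.ptD x hx).pow hF m
  rw [Scheme.ord_mul hf (pow_ne_zero m hF), h1, h x hx, mul_add, hmc x hx]
  ring

section morphism

variable {Y S : PVar} {φ : Y.X ⟶ S.X}

theorem str_comp (h : φ ≫ S.str = Y.str) (c : ℂ) :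
    φ.appTop.hom (S.emb.str c) = Y.emb.str c := by
  rw [emb_str, emb_str]
  have h1 := RingHom.congr_fun (S5.str_eq S.i) c
  have h2 := RingHom.congr_fun (S5.str_eq Y.i) c
  have h3 : (Scheme.ΓSpecIso (.of ℂ)).inv ≫ (S5.toSpec Y.i).appTop =
      ((Scheme.ΓSpecIso (.of ℂ)).inv ≫ (S5.toSpec S.i).appTop) ≫ φ.appTop := by
    have h4 : S5.toSpec Y.i = φ ≫ S5.toSpec S.i := h.symm
    rw [h4, Scheme.Hom.comp_appTop, Category.assoc]
  rw [h3] at h2
  rw [← h1, ← h2]
  rfl

/-- The homomorphism of function fields over `ℂ` defined by a dominant morphism over `ℂ`. -/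
noncomputable def fmapA [IsDominant φ] (h : φ ≫ S.str = Y.str) : S.K →ₐ[ℂ] Y.K :=
  FR.S.fmapA Y.hk S.hk (str_comp h)

theorem fmapA_apply [IsDominant φ] (h : φ ≫ S.str = Y.str) (f : S.K) :
    fmapA h f = fmap φ f := rfl

/-- The model of the subfield defined by the base. -/
noncomputable def baseModel [IsDominant φ] (h : φ ≫ S.str = Y.str) :
    Model (fmapA h).fieldRange :=
  FR.S.baseModel Y.hk S.hk (str_comp h) S.hg S.normal

theorem baseModel_g [IsDominant φ] (h : φ ≫ S.str = Y.str) (j : Fin (S.gN + 1)) :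
    (baseModel h).g j = fmap φ (S.g j) := rfl

/-- The ratios of coordinates for the composition with a morphism. -/
theorem ratio_comp [IsDominant φ] (s t : Fin (S.N + 1)) {y : Y.X}
    (ht : y ∈ Dplus (φ ≫ S.i) t) (ht' : φ y ∈ Dplus S.i t) :
    algebraMap (Y.X.presheaf.stalk y) Y.X.functionField
      ((Y.X.presheaf.germ (Dplus (φ ≫ S.i) t) y ht).hom (ratio (φ ≫ S.i) s t)) =
      fmap φ (algebraMap (S.X.presheaf.stalk (φ y)) S.X.functionField
        ((S.X.presheaf.germ (Dplus S.i t) (φ y) ht').hom (ratio S.i s t))) := by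
  rw [fmap_stalk]
  congr 1
  exact (Scheme.Hom.germ_stalkMap_apply φ (Dplus S.i t) y ht' (ratio S.i s t)).symm

/-- The pull back of a hyperplane section of the base. -/
theorem isHyp_comp [IsDominant φ] (h : φ ≫ S.str = Y.str) {η : Y.X → ℤ}
    (hη : IsHyp (φ ≫ S.i) η) : ∃ F : Y.K, F ≠ 0 ∧ ∀ (y : Y.X) (hy : Order.coheight y = 1),
      η y = hyp (baseModel h) (Y.ptD y hy) + Y.X.ord F y := by
  obtain ⟨s, hs, hη⟩ := (isHyp_iff _ η).1 hη
  have hs' : genericPoint S.X ∈ Dplus S.i s := by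
    rw [← s6_generic φ]
    exact hs
  have hw : ∀ l, EmbAux.ev S.i S.ref S.ref_mem (MvPolynomial.X l) = S.emb.w l := fun l => by
    rw [EmbAux.ev, MvPolynomial.coe_eval₂Hom, MvPolynomial.eval₂_X, S.emb_eq]
  have hws : S.emb.w s ≠ 0 := by
    rw [← hw]
    exact (EmbAux.ev_ne_zero_iff S.i S.ref S.ref_mem 1 (MvPolynomial.X s) (S2.X_mem s)).2 hs'
  refine ⟨fmap φ (S.emb.w s), (map_ne_zero _).2 hws, fun y hy => ?_⟩
  obtain ⟨t, ht⟩ := S.emb.cover (φ y)
  have ht0 := s1_l_ne_zero S.emb ht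
  rw [s1_l_single] at ht0
  have ht' : φ y ∈ Dplus S.i t := by
    have h1 := ht
    rw [S.emb_eq, dat_U] at h1
    exact h1
  have hty : y ∈ Dplus (φ ≫ S.i) t := ht'
  have hft : fmap φ (S.emb.w t) ≠ 0 := (map_ne_zero _).2 ht0
  have h1 : η y = Y.X.ord (fmap φ (S.emb.w s)) y - Y.X.ord (fmap φ (S.emb.w t)) y := by
    rw [hη y hy t hty, ratio_comp s t hty ht', ratio_eq S.i S.ref S.ref_mem, ← S.emb_eq, map_div₀,
      ord_div hy ((map_ne_zero _).2 hws) hft]
  have h2 : hyp (baseModel h) (Y.ptD y hy) = - Y.X.ord (fmap φ (S.emb.w t)) y := by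
    unfold hyp
    congr 1
    apply le_antisymm
    · obtain ⟨i, hi⟩ := S.hg.surj t ht0
      have h3 : Y.X.ord (fmap φ (S.emb.w t)) y = (Y.ptD y hy).v ((baseModel h).g i) := by
        rw [ptD_v, baseModel_g, hi]
      rw [h3]
      exact Finset.inf'_le (fun j => (Y.ptD y hy).v ((baseModel h).g j)) (Finset.mem_univ i)
    · apply Finset.le_inf'
      intro j _
      have h3 : (Y.ptD y hy).v ((baseModel h).g j) = Y.X.ord (fmap φ (S.g j)) y := rfl
      rw [h3]
      obtain ⟨j', hj'⟩ := S.hg.mem j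
      have h4 : S.g j / S.emb.w t ∈ loc (φ y) := by
        have h5 := s1_ratio_mem S.emb (c := Pi.single j' 1) ht
        rwa [s1_l_single, s1_l_single, ← hj'] at h5
      have h6 := loc_ord hy (fmap_loc h4)
      rw [map_div₀, ord_div hy ((map_ne_zero _).2 (S.hg.ne j)) hft] at h6
      omega
  rw [h1, h2]
  ring

/-- Mori fibre spaces of schemes are Mori fibre spaces of the engine. -/
theorem mfs_engine [IsDominant φ] (h : IsMFS Y S φ)
    (hconn : ∀ x : Y.K, IsAlgebraic (fmapA h.comp).fieldRange x → x ∈ (fmapA h.comp).fieldRange) :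
    ∃ (n : ℕ) (B : Module.Basis (Fin n) Y.K (Derivation ℂ Y.K Y.K)),
      IsMoriFibreSpace B Y.model (fmapA h.comp).fieldRange (baseModel h.comp) := by
  obtain ⟨n, B, hter, a, b, η, ha, hη, hamp⟩ := h.terminal
  refine ⟨n, B, ?_⟩
  obtain ⟨F, hF, hFη⟩ := isHyp_comp h.comp hη
  exact
    { terminal := (isTerminal_iff B).2 hter
      connected := hconn
      dim := fieldRange_ne_top Y.hk S.hk (str_comp h.comp) h.dim
      morphism := fun W hW => baseModel_morphism Y.hk S.hk (str_comp h.comp) S.hg S.normal Y.hg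
        Y.normal W hW
      ample := by
        refine ⟨a, b, ha, ?_⟩
        refine isAmple_engine (c := fun y => -(a * Y.kdiv B y) + b * η y + Y.X.ord (F ^ b)⁻¹ y) ?_
          (hamp.congr (inv_ne_zero (pow_ne_zero b hF)) fun x _ => rfl)
        intro y hy
        have h1 : Y.X.ord (F ^ b)⁻¹ y = -(b * Y.X.ord F y) := by
          have h2 := (Y.ptD y hy).inv (pow_ne_zero b hF)
          rw [(Y.ptD y hy).pow hF] at h2
          exact h2
        change -((a : ℤ) * kord B (Y.ptD y hy)) + b * hyp (baseModel h.comp) (Y.ptD y hy) =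
          -((a : ℤ) * Y.kdiv B y) + b * η y + Y.X.ord (F ^ b)⁻¹ y
        rw [kord_ptD, h1, hFη y hy]
        ring }

end morphism

end PVar

end Pool.Agent.FR.S
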