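import Pool.Agent.FR.SPt
import Pool.Agent.FR.SMfs
import Pool.Agent.FR.S3

/-!
Project FR, block S (bridge to schemes): the variety (a scheme) with a given model, isomorphisms
from equality of the local rings (helper20).
-/

set_option autoImplicit false

open AlgebraicGeometry CategoryTheory Pool.Agent.K1

attribute [local instance] MvPolynomial.gradedAlgebra

namespace Pool.Agent.FR.S

open scoped Classical

section scale

variable {K : Type} [Field K] [Algebra ℂ K]

theorem locRing_div {N : ℕ} (g : Fin (N + 1) → K) {c : K} (hc : c ≠ 0) (W : ValuationSubring K) :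
    locRing (fun j => g j / c) W = locRing g W := by
  have h : ∀ i j, g j / c / (g i / c) = g j / g i := fun i j => by
    rw [div_div_div_cancel_right₀ hc]
  unfold locRing
  simp only [h]

end scale

theorem exists_pvar_aux {K : Type} [Field K] [Algebra ℂ K]
    (M : Model (⊤ : IntermediateField ℂ K)) (V : PVar) {n : ℕ} {i : V.X ⟶ PN ℂ n}
    (his : S5.toSpec i = V.str) (E : Embed ℂ V.X n)
    (θ : V.K ≃+* K) (hE : E.str = EmbAux.strE i) (h1 : ∀ c, θ (E.kf c) = algebraMap ℂ K c)
    (hloc : ∀ (W : ValuationSubring V.K) (x : V.X), IsCentre W x →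
      ∀ f : V.K, f ∈ loc x ↔ θ f ∈ locRing M.g (W.comap (θ.symm : K →+* V.K))) :
    ∃ θ' : K ≃ₐ[ℂ] V.K, SameLoc V.model (M.mapTop θ') := by
  have hkf : ∀ c : ℂ, algebraMap ℂ V.K c = E.kf c := fun c => kf_of_embed his hE c
  refine ⟨AlgEquiv.ofRingEquiv (f := θ.symm) fun c => by
    rw [hkf c, ← h1 c, θ.symm_apply_apply], ?_⟩
  generalize hτ : (AlgEquiv.ofRingEquiv (f := θ.symm) _ : K ≃ₐ[ℂ] V.K) = τ
  have hτ1 : ∀ a, τ a = θ.symm a := fun a => by rw [← hτ]; rfl
  intro W hW
  obtain ⟨x, hx⟩ := V.exists_centre hW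
  obtain ⟨W', hW'⟩ := placeMap_surjective τ W
  rw [V.model_loc hx, ← hW', locRing_mapTop]
  ext f
  have h3 := hloc _ x hx f
  have h4 : W.comap (θ.symm : K →+* V.K) = W' := by
    ext a
    rw [ValuationSubring.mem_comap, ← hW', ← mem_placeMap τ W' a, hτ1]
    rfl
  rw [h4] at h3
  refine h3.trans ?_
  constructor
  · intro ha
    exact ⟨θ f, ha, by rw [hτ1]; exact θ.symm_apply_apply f⟩
  · rintro ⟨a, ha, rfl⟩
    rw [hτ1, θ.apply_symm_apply]
    exact ha

/-- Every model comes from a normal projective variety (a scheme). -/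
theorem exists_pvar {K : Type} [Field K] [Algebra ℂ K] (M : Model (⊤ : IntermediateField ℂ K)) :
    ∃ (V : PVar) (θ : K ≃ₐ[ℂ] V.K), SameLoc V.model (M.mapTop θ) := by
  obtain ⟨X, hX, i, hi, E, θ, hE, h1, h2⟩ := S2.exists_scheme_embed M.g (M.ne 0)
    (fun x => M.frac x trivial)
  -- the local rings
  have hloc : ∀ (W : ValuationSubring X.functionField) (x : X), IsCentre W x →
      IsPlace (W.comap (θ.symm : K →+* X.functionField)) ∧
      ∀ f : X.functionField, f ∈ loc x ↔
        θ f ∈ locRing M.g (W.comap (θ.symm : K →+* X.functionField)) := by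
    intro W x hx
    let : Algebra ℂ X.functionField := E.kf.toAlgebra
    have hk : ∀ c : ℂ, algebraMap ℂ X.functionField c = E.kf c := fun c => rfl
    have hg : IsCoord E E.w :=
      { ne := fun j h => by
          have h3 := h2 j
          rw [h, map_zero] at h3
          exact div_ne_zero (M.ne j) (M.ne 0) h3.symm
        mem := fun j => ⟨j, rfl⟩
        surj := fun j _ => ⟨j, rfl⟩ }
    let τ : K ≃ₐ[ℂ] X.functionField := AlgEquiv.symm
      (AlgEquiv.ofRingEquiv (f := θ) h1)
    have hτ : ∀ f, τ (θ f) = f := fun f => θ.symm_apply_apply f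
    have hg' : E.w = fun j => τ (M.g j / M.g 0) := by
      funext j
      rw [← h2 j, hτ]
    have h4 := loc_eq_locRing hk hg hx
    rw [hg'] at h4
    have h5 := locRing_map (fun j => M.g j / M.g 0) (τ : K →ₐ[ℂ] X.functionField) W
    refine ⟨?_, fun f => ?_⟩
    · have h6 := s1_isPlace_of_centre hk hx
      intro c
      have h7 : θ.symm (algebraMap ℂ K c) = algebraMap ℂ X.functionField c := by
        rw [← h1 c, θ.symm_apply_apply]
        rfl
      rw [ValuationSubring.mem_comap, RingEquiv.coe_toRingHom, h7]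
      exact h6 c
    · have h8 : f ∈ (loc x : Set X.functionField) ↔ f ∈ loc x := Iff.rfl
      rw [← h8, h4]
      change f ∈ locRing (fun j => (τ : K →ₐ[ℂ] X.functionField) (M.g j / M.g 0)) W ↔ _
      rw [h5, locRing_div M.g (M.ne 0)]
      constructor
      · rintro ⟨a, ha, rfl⟩
        have h9 : θ ((τ : K →ₐ[ℂ] X.functionField) a) = a := θ.apply_symm_apply a
        rw [h9]
        exact ha
      · intro ha
        exact ⟨θ f, ha, hτ f⟩
  have hn : ∀ x : X, IsIntegrallyClosed (X.presheaf.stalk x) := by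
    intro x
    rw [isIntegrallyClosed_iff X.functionField]
    intro f hf
    obtain ⟨W, hW⟩ := exists_isCentre x
    obtain ⟨hP, hl⟩ := hloc W x hW
    obtain ⟨p, hp, hpf⟩ := hf
    have h3 : f ∈ loc x := by
      rw [hl]
      refine M.normal _ hP _ trivial ⟨p.map ((θ : X.functionField →+* K).comp
        (algebraMap (X.presheaf.stalk x) X.functionField)), hp.map _, fun i => ?_, ?_⟩
      · rw [Polynomial.coeff_map]
        exact (hl _).1 ⟨p.coeff i, rfl⟩
      · rw [← Polynomial.map_map]
        have h4 := Polynomial.eval_map_apply (θ : X.functionField →+* K)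
          (p := p.map (algebraMap (X.presheaf.stalk x) X.functionField)) f
        have h5 : (θ : X.functionField →+* K) f = θ f := rfl
        rw [h5] at h4
        rw [h4, Polynomial.eval_map, hpf, map_zero]
    obtain ⟨y, hy⟩ := h3
    exact ⟨y, hy⟩
  exact ⟨⟨X, M.N, i, hX, hi, hn⟩, exists_pvar_aux M ⟨X, M.N, i, hX, hi, hn⟩ (i := i) rfl E θ hE h1
    fun W x hx => (hloc W x hx).2⟩

/-- If the local rings correspond under an isomorphism of function fields over `ℂ` then it comes from
an isomorphism over `ℂ`. -/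
theorem exists_iso (V W : PVar) (σ : V.K ≃ₐ[ℂ] W.K) (h : SameLoc (V.model.mapTop σ) W.model) :
    ∃ e : V.X ≅ W.X, e.hom ≫ W.str = V.str ∧
      S5.gen W.X ≫ e.inv = Spec.map (CommRingCat.ofHom (σ : V.K →+* W.K)) ≫ S5.gen V.X := by
  have key : ∀ (P : ValuationSubring W.K) (x : V.X) (y : W.X),
      IsCentre (P.comap ((σ : V.K ≃+* W.K) : V.K →+* W.K)) x → IsCentre P y →
      (loc x).map ((σ : V.K ≃+* W.K) : V.K →+* W.K) = loc y := by
    intro P x y hx hy
    have hP := W.isPlace hy
    obtain ⟨P', hP'⟩ := placeMap_surjective σ P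
    have h1 := h P hP
    rw [W.model_loc hy, ← hP', locRing_mapTop] at h1
    have h2 : P.comap ((σ : V.K ≃+* W.K) : V.K →+* W.K) = P' := by
      rw [← hP']
      ext a
      exact mem_placeMap σ P' a
    rw [h2] at hx
    rw [V.model_loc hx] at h1
    ext f
    constructor
    · rintro ⟨a, ha, rfl⟩
      have h3 : σ a ∈ (loc y : Set W.K) := by
        rw [← h1]
        exact ⟨a, ha, rfl⟩
      exact h3
    · intro hf
      have h3 : f ∈ (loc y : Set W.K) := hf
      rw [← h1] at h3
      obtain ⟨a, ha, rfl⟩ := h3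
      exact ⟨a, ha, rfl⟩
  obtain ⟨e, he1, he2⟩ := S5.exists_iso_of_centres V.i W.i V.emb W.emb V.emb_str W.emb_str
    (σ : V.K ≃+* W.K) (fun a => by rw [← V.hk, ← W.hk]; exact σ.commutes a) key
  refine ⟨e.symm, ?_, he2⟩
  rw [Iso.symm_hom, Iso.inv_comp_eq]
  exact he1.symm

/-- The base is a point if its function field is `ℂ`. -/
theorem isPoint_of_bot {Y S : PVar} {φ : Y.X ⟶ S.X} [IsDominant φ] (h : φ ≫ S.str = Y.str)
    (hL : (PVar.fmapA h).fieldRange = ⊥) : IsPoint S := by
  refine S5.isIso_toSpec S.i S.emb S.emb_str fun f => ?_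
  have h1 : PVar.fmapA h f ∈ (PVar.fmapA h).fieldRange := ⟨f, rfl⟩
  rw [hL, IntermediateField.mem_bot] at h1
  obtain ⟨c, hc⟩ := h1
  refine ⟨c, (PVar.fmapA h).toRingHom.injective ?_⟩
  rw [← S.hk c]
  exact ((PVar.fmapA h).commutes c).trans hc

end Pool.Agent.FR.S
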