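import Pool.Agent.FR.SIso
import Pool.Agent.FR.SAmple2
import Pool.Agent.FR.SDom
import Pool.Agent.FR.SConn

/-!
Project FR, block S (bridge to schemes): the final theorem from the theorem of the engine
(helper20).
-/

set_option autoImplicit false

open AlgebraicGeometry CategoryTheory Pool.Agent.K1

attribute [local instance] MvPolynomial.gradedAlgebra

namespace Pool.Agent.FR.S

open scoped Classical

section transport

variable {K K' : Type} [Field K] [Field K'] [Algebra ℂ K] [Algebra ℂ K'] (e : K ≃ₐ[ℂ] K')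
  {n : ℕ} (B : Module.Basis (Fin n) K (Derivation ℂ K K))
  (M : Model (⊤ : IntermediateField ℂ K))

theorem SameLoc.trans {M M' M'' : Model (⊤ : IntermediateField ℂ K)} (h : SameLoc M M')
    (h' : SameLoc M' M'') : SameLoc M M'' := fun W hW => (h W hW).trans (h' W hW)

theorem SameLoc.mapTop {M M' : Model (⊤ : IntermediateField ℂ K)} (h : SameLoc M M') :
    SameLoc (M.mapTop e) (M'.mapTop e) := by
  intro W hW
  obtain ⟨W, rfl⟩ := placeMap_surjective e W
  rw [isPlace_map] at hW
  rw [locRing_mapTop, locRing_mapTop, h W hW]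

/-- The birational superrigidity of a model. -/
def Super : Prop :=
  ∀ (Y : Model (⊤ : IntermediateField ℂ K)) (L : IntermediateField ℂ K) (S : Model L),
    IsMoriFibreSpace B Y L S → L = ⊥ ∧ SameLoc M Y

theorem super_map (hS : Super B M) : Super (basisMap e B) (M.mapTop e) := by
  intro Y' L' S' hY'
  have hL : ∀ x, e.symm x ∈ L'.map (e.symm : K' →ₐ[ℂ] K) ↔ x ∈ L' := by
    intro x
    constructor
    · rintro ⟨y, hy, hyx⟩
      have : y = x := e.symm.injective hyx
      rwa [← this]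
    · intro hx
      exact ⟨x, hx, rfl⟩
  have H2 := isMoriFibreSpace_map e.symm Y' (basisMap e B) hL S' hY'
  have H3 := isMoriFibreSpace_basis _ B _ _ _ H2
  obtain ⟨h4, h5⟩ := hS _ _ _ H3
  refine ⟨?_, ?_⟩
  · rw [eq_bot_iff]
    intro y hy
    have h6 : e.symm y ∈ (⊥ : IntermediateField ℂ K) := by
      rw [← h4, hL]
      exact hy
    obtain ⟨c, hc⟩ := IntermediateField.mem_bot.1 h6
    refine IntermediateField.mem_bot.2 ⟨c, ?_⟩
    have h7 := congrArg e hc
    rwa [e.commutes, e.apply_symm_apply] at h7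
  · have h6 := h5.mapTop e
    have h7 : (Y'.mapTop e.symm).mapTop e = Y' := Model.map_map_symm e _ _ Y'
    rwa [h7] at h6

end transport

/-- The final theorem, from the theorem for function fields. -/
theorem main_of_engine {K : Type} [Field K] [Algebra ℂ K] {n : ℕ}
    (B : Module.Basis (Fin n) K (Derivation ℂ K K)) (M : Model (⊤ : IntermediateField ℂ K))
    (E : DVal K) (hF : FR.IsFano B M) (hP : FR.PicardOne B M) (hS : Super B M)
    (hE : IsPrimeDiv M E) (a b : ℝ) (hA : FR.IsLogDisc B M E a) (hb : FR.beta B M E a = b)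
    (hb0 : b ≤ 0) :
    ∃ (X : PVar) (D : DVal X.K),
      Nonempty (X.Bas n) ∧
      ∀ (n' : ℕ) (B' : X.Bas n'),
        X.IsBirRigid B' ∧ X.IsSuperrigid ∧ X.IsOn D ∧ X.IsLogDisc B' D a ∧
          X.beta B' D a = b ∧ ¬ X.IsKStable B' := by
  obtain ⟨V, θ, hθ⟩ := exists_pvar M
  have hsup : V.IsSuperrigid := by
    intro Y S φ h σ
    have hdom : IsDominant φ := h.dominant
    obtain ⟨n₂, B₂, h1⟩ := h.engine
    obtain rfl := basis_card (basisMap (θ.trans σ) B) B₂
    have h2 := isMoriFibreSpace_basis B₂ (basisMap (θ.trans σ) B) _ _ _ h1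
    obtain ⟨h3, h4⟩ := super_map (θ.trans σ) B M hS _ _ _ h2
    refine ⟨isPoint_of_bot h.comp h3, exists_iso V Y σ ?_⟩
    have h5 : (M.mapTop θ).mapTop σ = M.mapTop (θ.trans σ) := rfl
    refine (hθ.mapTop σ).trans ?_
    rw [h5]
    exact h4
  refine ⟨V, E.map θ, ⟨basisMap θ B⟩, fun n' B' => ?_⟩
  obtain rfl := basis_card (basisMap θ B) B'
  have hlog : V.IsLogDisc B' (E.map θ) a := by
    rw [← PVar.isLogDisc_iff, hθ.isLogDisc, ← isLogDisc_basis_iff (basisMap θ B) B',
      isLogDisc_map]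
    exact hA
  have hbeta : V.beta B' (E.map θ) a = b := by
    rw [← PVar.beta_eq, hθ.beta, ← beta_basis (basisMap θ B) B', beta_map]
    exact hb
  refine ⟨⟨?_, ?_, ?_⟩, hsup, ?_, hlog, hbeta, ?_⟩
  · rw [← PVar.isFano_iff, hθ.isFano]
    exact isFano_basis (basisMap θ B) B' _ ((isFano_map θ M B).2 hF)
  · rw [← PVar.picardOne_iff, hθ.picardOne]
    exact picardOne_basis (basisMap θ B) B' _ ((picardOne_map θ M B).2 hP)
  · intro Y S φ h hbir
    obtain ⟨σ⟩ := hbir.exists_algEquiv
    obtain ⟨h1, e, h2, -⟩ := hsup Y S φ h σ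
    exact ⟨h1, e, h2⟩
  · rw [PVar.isOn_iff, hθ.isPrimeDiv, isPrimeDiv_map]
    exact hE
  · intro h
    have h1 := h (E.map θ) a hlog
    rw [hbeta] at h1
    exact absurd h1 (not_lt.2 hb0)

end Pool.Agent.FR.S
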