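import Pool.Agent.FR.SHyp
import Pool.Agent.FR.SCongr

/-!
Project FR, block S (bridge to schemes): the notions for schemes are those of the engine for the
model `V.model` (helper3).
-/

set_option autoImplicit false

open AlgebraicGeometry CategoryTheory Pool.Agent.K1

attribute [local instance] MvPolynomial.gradedAlgebra

namespace Pool.Agent.FR.S

open scoped Classical

/-- Embedding data of a closed immersion over `ℂ`. -/
theorem exists_embed_of {X : Scheme.{0}} [IsIntegral X] {n : ℕ} (j : X ⟶ PN ℂ n)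
    [IsClosedImmersion j] : ∃ (s : Fin (n + 1)) (h : genericPoint X ∈ Dplus j s)
      (E : Embed ℂ X n), E.toEmbedData = EmbAux.dat j s h := by
  obtain ⟨s, hs⟩ := EmbAux.exists_mem j (genericPoint X)
  obtain ⟨E, hE⟩ := S2.exists_embed_dat j s hs
  exact ⟨s, hs, E, hE⟩

theorem kf_of_embed {V : PVar} {n : ℕ} {j : V.X ⟶ PN ℂ n} (hj : S5.toSpec j = V.str)
    {E : Embed ℂ V.X n} (hE : E.str = EmbAux.strE j) (c : ℂ) :
    algebraMap ℂ V.K c = E.kf c := by
  have h1 := S5.gen_toSpec j
  rw [hj] at h1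
  have h2 : E.kf c = (V.X.presheaf.germ ⊤ (genericPoint V.X) trivial).hom (EmbAux.strE j c) := by
    rw [← hE]
    rfl
  have h3 : algebraMap ℂ V.K c = (Spec.preimage (S5.gen V.X ≫ V.str)).hom c := rfl
  rw [h2, h3, h1, Spec.preimage_map]
  rfl

/-- The scalars in the function field. -/
theorem algebraMap_eq (V : PVar) (c : ℂ) : algebraMap ℂ V.K c =
    (V.X.presheaf.germ ⊤ (genericPoint V.X) trivial).hom
      (((Scheme.ΓSpecIso (.of ℂ)).inv ≫ V.str.appTop).hom c) := by
  have h1 := S5.gen_toSpec V.i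
  have h2 := RingHom.congr_fun (S5.str_eq V.i) c
  have h3 : algebraMap ℂ V.K c = (Spec.preimage (S5.gen V.X ≫ V.str)).hom c := rfl
  rw [h2, h3]
  change (Spec.preimage (S5.gen V.X ≫ S5.toSpec V.i)).hom c = _
  rw [h1, Spec.preimage_map]
  rfl

namespace PVar

variable (V : PVar)

theorem exists_data : ∃ (s : Fin (V.N + 1)) (h : genericPoint V.X ∈ Dplus V.i s)
    (E : Embed ℂ V.X V.N) (_ : E.toEmbedData = EmbAux.dat V.i s h)
    (N : ℕ) (g : Fin (N + 1) → V.K), IsCoord E g := by
  obtain ⟨s, h, E, hE⟩ := exists_embed_of V.i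
  obtain ⟨N, g, hg⟩ := exists_isCoord E
  exact ⟨s, h, E, hE, N, g, hg⟩

/-- The index of a homogeneous coordinate which does not vanish on `V`. -/
noncomputable def ref : Fin (V.N + 1) := V.exists_data.choose

theorem ref_mem : genericPoint V.X ∈ Dplus V.i V.ref := V.exists_data.choose_spec.choose

/-- Embedding data of `V`. -/
noncomputable def emb : Embed ℂ V.X V.N := V.exists_data.choose_spec.choose_spec.choose

theorem emb_eq : V.emb.toEmbedData = EmbAux.dat V.i V.ref V.ref_mem :=
  V.exists_data.choose_spec.choose_spec.choose_spec.choose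

theorem emb_str : V.emb.str = EmbAux.strE V.i := by
  rw [emb_eq]
  rfl

theorem hk (c : ℂ) : algebraMap ℂ V.K c = V.emb.kf c := kf_of_embed rfl V.emb_str c

/-- The number of nonzero homogeneous coordinates (minus one). -/
noncomputable def gN : ℕ := V.exists_data.choose_spec.choose_spec.choose_spec.choose_spec.choose

/-- The nonzero homogeneous coordinates. -/
noncomputable def g : Fin (V.gN + 1) → V.K :=
  V.exists_data.choose_spec.choose_spec.choose_spec.choose_spec.choose_spec.choose

theorem hg : IsCoord V.emb V.g :=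
  V.exists_data.choose_spec.choose_spec.choose_spec.choose_spec.choose_spec.choose_spec

/-- The model of the function field defined by `V`. -/
noncomputable def model : Model (⊤ : IntermediateField ℂ V.K) :=
  schemeModel V.hk V.hg V.normal

theorem model_loc {W : ValuationSubring V.K} {x : V.X} (hx : IsCentre W x) :
    locRing V.model.g W = loc x :=
  schemeModel_loc V.hk V.hg V.normal hx

theorem exists_centre {W : ValuationSubring V.K} (hW : IsPlace W) : ∃ x : V.X, IsCentre W x :=
  (exists_unique_centre V.hk hW).exists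

theorem exists_place (x : V.X) : ∃ W : ValuationSubring V.K, IsPlace W ∧ IsCentre W x :=
  exists_place_centre V.hk x

theorem isPlace {W : ValuationSubring V.K} {x : V.X} (hx : IsCentre W x) : IsPlace W :=
  s1_isPlace_of_centre V.hk hx

/-- The divisorial valuation of a point of codimension one. -/
noncomputable def ptD (x : V.X) (hx : Order.coheight x = 1) : DVal V.K :=
  S.ptD V.hk hx (V.normal x)

theorem ptD_v (x : V.X) (hx : Order.coheight x = 1) (f : V.K) :
    (V.ptD x hx).v f = V.X.ord f x := rfl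

theorem ptD_inj {x y : V.X} (hx : Order.coheight x = 1) (hy : Order.coheight y = 1) :
    V.ptD x hx = V.ptD y hy ↔ x = y :=
  S.ptD_inj V.hk hx (V.normal x) hy (V.normal y)

theorem ptD_isPrimeDiv (x : V.X) (hx : Order.coheight x = 1) :
    IsPrimeDiv V.model (V.ptD x hx) :=
  S.ptD_isPrimeDiv V.hk V.hg V.normal hx

theorem isOn_iff (D : DVal V.K) : V.IsOn D ↔ IsPrimeDiv V.model D := by
  constructor
  · rintro ⟨x, hx, h⟩
    have h1 : D = V.ptD x hx := DVal.ext (funext h)
    rw [h1]
    exact V.ptD_isPrimeDiv x hx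
  · intro h
    obtain ⟨x, hx, h1⟩ := exists_point V.hk V.hg V.normal h
    exact ⟨x, hx, fun f => by rw [← h1]; rfl⟩

theorem forall_prime (P : DVal V.K → Prop) :
    (∀ D, IsPrimeDiv V.model D → P D) ↔ ∀ (x : V.X) (hx : Order.coheight x = 1), P (V.ptD x hx) :=
  forall_isPrimeDiv V.hk V.hg V.normal P

theorem forall_thr {z : V.X} {W : ValuationSubring V.K} (hz : IsCentre W z)
    (P : DVal V.K → Prop) : (∀ D, Through V.model W D → P D) ↔
      ∀ (x : V.X) (hx : Order.coheight x = 1), x ⤳ z → P (V.ptD x hx) :=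
  forall_through V.hk V.hg V.normal hz P

/-- The function `C` on divisorial valuations induces the function `c` on points. -/
def Corr (C : DVal V.K → ℤ) (c : V.X → ℤ) : Prop :=
  ∀ (x : V.X) (hx : Order.coheight x = 1), C (V.ptD x hx) = c x

variable {V} {C : DVal V.K → ℤ} {c : V.X → ℤ}

theorem isLocEq_iff (h : V.Corr C c) {z : V.X} {W : ValuationSubring V.K} (hz : IsCentre W z)
    (N : ℕ) (f : V.K) : FR.IsLocEq V.model C W N f ↔ V.IsLocEq c z N f := by
  unfold FR.IsLocEq PVar.IsLocEq
  rw [forall_thr V hz (fun D => D.v f = N * C D)]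
  constructor
  · rintro ⟨h1, h2, h3⟩
    refine ⟨h1, h2, fun x hx hxz => ?_⟩
    rw [← h x hx, ← h3 x hx hxz, ptD_v]
  · rintro ⟨h1, h2, h3⟩
    refine ⟨h1, h2, fun x hx hxz => ?_⟩
    rw [h x hx, ptD_v, h3 x hx hxz]

theorem qCartier_iff (h : V.Corr C c) : QCartier V.model C ↔ V.IsQCartier c := by
  constructor
  · intro hc z
    obtain ⟨W, hW, hz⟩ := V.exists_place z
    obtain ⟨N, f, hf⟩ := hc W hW
    exact ⟨N, f, (isLocEq_iff h hz N f).1 hf⟩
  · intro hc W hW
    obtain ⟨z, hz⟩ := V.exists_centre hW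
    obtain ⟨N, f, hf⟩ := hc z
    exact ⟨N, f, (isLocEq_iff h hz N f).2 hf⟩

theorem corr_single (x₀ : V.X) (hx₀ : Order.coheight x₀ = 1) :
    V.Corr (fun D => if D = V.ptD x₀ hx₀ then 1 else 0) (fun x => if x = x₀ then 1 else 0) := by
  intro x hx
  simp only [V.ptD_inj hx hx₀]

variable (V) in
theorem qFactorial_iff : QFactorial V.model ↔ V.IsQFactorial := by
  unfold QFactorial IsQFactorial
  rw [V.forall_prime (fun D₀ => QCartier V.model (fun D => if D = D₀ then 1 else 0))]
  constructor
  · intro h x₀ hx₀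
    exact (qCartier_iff (corr_single x₀ hx₀)).1 (h x₀ hx₀)
  · intro h x₀ hx₀
    exact (qCartier_iff (corr_single x₀ hx₀)).2 (h x₀ hx₀)

section canonical

variable {n : ℕ} (B : Module.Basis (Fin n) V.K (Derivation ℂ V.K V.K))

theorem kord_ptD (x : V.X) (hx : Order.coheight x = 1) :
    kord B (V.ptD x hx) = V.kdiv B x := by
  unfold kord kdiv
  congr 2
  ext z
  constructor
  · rintro ⟨u, hu, h1, h2⟩
    exact ⟨u, fun j => (ptD_mem_ring V.hk hx (V.normal x)).1 (hu j), h1, h2⟩
  · rintro ⟨u, hu, h1, h2⟩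
    exact ⟨u, fun j => (ptD_mem_ring V.hk hx (V.normal x)).2 (hu j), h1, h2⟩

theorem corr_kord : V.Corr (kord B) (V.kdiv B) := fun x hx => kord_ptD B x hx

theorem isLogDisc_iff (D : DVal V.K) (a : ℝ) :
    FR.IsLogDisc B V.model D a ↔ V.IsLogDisc B D a := by
  constructor
  · rintro ⟨N, f, hf, ha⟩
    obtain ⟨z, hz⟩ := V.exists_centre D.isPlace
    exact ⟨z, N, f, hz, (isLocEq_iff (corr_kord B) hz N f).1 hf, ha⟩
  · rintro ⟨z, N, f, hz, hf, ha⟩
    exact ⟨N, f, (isLocEq_iff (corr_kord B) hz N f).2 hf, ha⟩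

theorem isTerminal_iff : FR.IsTerminal B V.model ↔ V.IsTerminal B := by
  unfold FR.IsTerminal PVar.IsTerminal
  rw [qCartier_iff (corr_kord B)]
  simp only [isOn_iff, isLogDisc_iff]

theorem picardOne_iff : FR.PicardOne B V.model ↔ V.PicardOne B := by
  unfold FR.PicardOne PVar.PicardOne
  rw [V.forall_prime (fun D₀ => ∃ (N : ℕ) (c : ℤ) (f : V.K), 0 < N ∧ f ≠ 0 ∧
    ∀ D, IsPrimeDiv V.model D → (N : ℤ) * (if D = D₀ then 1 else 0) + c * kord B D = D.v f)]
  refine forall_congr' fun x₀ => forall_congr' fun hx₀ => ?_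
  refine exists_congr fun N => exists_congr fun c => exists_congr fun f => ?_
  refine and_congr_right fun _ => and_congr_right fun _ => ?_
  rw [V.forall_prime (fun D => (N : ℤ) * (if D = V.ptD x₀ hx₀ then 1 else 0) + c * kord B D =
    D.v f)]
  refine forall_congr' fun x => forall_congr' fun hx => ?_
  rw [kord_ptD, ptD_v]
  simp only [V.ptD_inj hx hx₀]

theorem sections_eq (D : DVal V.K) (a : ℝ) (m : ℕ) (t : ℝ) :
    FR.sections B V.model D a m t = V.sections B D a m t := by
  unfold FR.sections PVar.sections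
  congr 1
  ext h
  simp only [Set.mem_ofPred_eq]
  refine and_congr_right fun _ => and_congr_left fun _ => ?_
  rw [V.forall_prime (fun D' => (m : ℤ) * kord B D' ≤ D'.v h)]
  refine forall_congr' fun x => forall_congr' fun hx => ?_
  rw [kord_ptD, ptD_v]

theorem vol_eq (D : DVal V.K) (a t : ℝ) : FR.vol B V.model D a t = V.vol B D a t := by
  unfold FR.vol PVar.vol
  have h1 : ∀ m : ℕ, Module.finrank ℂ (FR.sections B V.model D a m t) =
      Module.finrank ℂ (V.sections B D a m t) := fun m => by rw [sections_eq]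
  simp only [h1]

theorem beta_eq (D : DVal V.K) (a : ℝ) : FR.beta B V.model D a = V.beta B D a := by
  unfold FR.beta PVar.beta
  simp only [vol_eq]

theorem isKStable_iff : FR.IsKStable B V.model ↔ V.IsKStable B := by
  unfold FR.IsKStable PVar.IsKStable
  simp only [isLogDisc_iff, beta_eq]

end canonical

end PVar

end Pool.Agent.FR.S
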