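import Mathlib.AlgebraicGeometry.Morphisms.IsIso
import Pool.Agent.FR.S5

/-!
Project FR, block S (bridge to schemes): a variety all of whose rational functions are constant is
a point (helper20).
-/

set_option autoImplicit false

open AlgebraicGeometry CategoryTheory Pool.Agent.K1 Pool.Agent.FR.S

attribute [local instance] MvPolynomial.gradedAlgebra

namespace Pool.Agent.FR

namespace S5

variable {X : Scheme.{0}} [IsIntegral X] {n : ℕ}

theorem isAffine_of_subsingleton (h : Subsingleton X) : IsAffine X := by
  obtain ⟨_, ⟨U, hU, rfl⟩, hx, -⟩ := X.isBasis_affineOpens.exists_subset_of_mem_open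
    (Set.mem_univ (genericPoint X)) isOpen_univ
  have h1 : U = ⊤ := by
    ext y
    simp only [SetLike.mem_coe, TopologicalSpace.Opens.coe_top, Set.mem_univ, iff_true]
    rw [Subsingleton.elim y (genericPoint X)]
    exact hx
  subst h1
  have h2 : IsAffine (Scheme.Opens.toScheme (⊤ : X.Opens)) := hU
  exact (IsAffine.iff_of_isIso X.topIso.hom).1 h2

/-- If all rational functions are constants then the structure morphism is an isomorphism. -/
theorem isIso_toSpec (i : X ⟶ PN ℂ n) [IsClosedImmersion i] (E : Embed ℂ X n)
    (hE : E.str = EmbAux.strE i) (h : ∀ f : X.functionField, ∃ a, E.kf a = f) :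
    IsIso (toSpec i) := by
  have h1 := subsingleton_of_kf_surjective E h
  have h2 : IsAffine X := isAffine_of_subsingleton h1
  have h3 : IsIso (toSpec i).appTop := by
    have h4 : IsIso ((Scheme.ΓSpecIso (.of ℂ)).inv ≫ (toSpec i).appTop) := by
      rw [ConcreteCategory.isIso_iff_bijective]
      refine ⟨?_, fun a => ?_⟩
      · exact RingHom.injective ((Scheme.ΓSpecIso (.of ℂ)).inv ≫ (toSpec i).appTop).hom
      · obtain ⟨c, hc⟩ := h ((X.presheaf.germ ⊤ (genericPoint X) trivial).hom a)
        refine ⟨c, ?_⟩
        have h5 := RingHom.congr_fun (str_eq i) c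
        refine h5.trans ?_
        apply germ_injective_of_isIntegral X (genericPoint X) (U := ⊤) trivial
        rw [← hE]
        exact hc
    exact IsIso.of_isIso_comp_left (Scheme.ΓSpecIso (.of ℂ)).inv _
  exact (MorphismProperty.arrow_mk_iso_iff (MorphismProperty.isomorphisms Scheme)
    (arrowIsoSpecΓOfIsAffine (toSpec i))).mpr
    (inferInstanceAs (IsIso (Spec.map ((toSpec i).appTop))))

end S5

end Pool.Agent.FR
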