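import Pool.Agent.FR.Val
import Pool.Agent.FR.Data

/-! # The properties of `X` that the Noether-Fano argument uses -/

set_option autoImplicit false

namespace Pool.Agent.FR

open scoped Classical

variable {K : Type} [Field K] [Algebra ℂ K]

/-- The affine chart `g i ≠ 0`. -/
abbrev chart {N : ℕ} (g : Fin (N + 1) → K) (i : Fin (N + 1)) : Subalgebra ℂ K :=
  Algebra.adjoin ℂ (Set.range fun j => g j / g i)

/-- Everything about `X` that Noether-Fano needs. -/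
structure IsSuper {n : ℕ} (B : Module.Basis (Fin n) K (Derivation ℂ K K))
    (X : Model (⊤ : IntermediateField ℂ K)) (E : DVal K) (I : ℕ) : Prop where
  pos : 0 < I
  primeE : IsPrimeDiv X E
  kordE : kord B E = -(I : ℤ)
  kord0 : ∀ D, IsPrimeDiv X D → D ≠ E → kord B D = 0
  /-- canonicity of all mobile systems -/
  mobile : ∀ {N : ℕ} (t : Fin (N + 1) → K), (∀ i, t i ≠ 0) →
    (∃ i j, ∀ c : ℂ, t i ≠ algebraMap ℂ K c * t j) →
    ∃ (u : K) (m : ℕ), u ≠ 0 ∧ 0 < m ∧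
      (∀ D, ∃ i, (I : ℤ) * D.v (u * t i) ≤ m * kord B D) ∧
      (∀ D, IsPrimeDiv X D → D ≠ E → (∀ i, 0 ≤ D.v (u * t i)) ∧ ∃ i, D.v (u * t i) = 0) ∧
      (∀ i, -(m : ℤ) ≤ E.v (u * t i)) ∧ ∃ i, E.v (u * t i) = -(m : ℤ)
  /-- the inequality KEY for a function `h` on the affine hypersurface -/
  key : ∀ D, ¬ IsPrimeDiv X D → ∀ h : K, h ≠ 0 →
    (∀ D', IsPrimeDiv X D' → D' ≠ E → 0 ≤ D'.v h) → (I : ℤ) * D.v h ≤ (- E.v h) * kord B D
  /-- units of the coordinate ring are constants -/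
  units : ∀ f : K, f ≠ 0 → (∀ D, IsPrimeDiv X D → D ≠ E → D.v f = 0) →
    ∃ c : ℂ, f = algebraMap ℂ K c
  fano : IsFano B X
  picard : PicardOne B X

end Pool.Agent.FR
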