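import Pool.Agent.FR.KBasic
import Pool.Agent.FR.LogForm
import Pool.Agent.FR.Stable

/-!
# Upper bounds for orders along a divisorial valuation, from the logarithmic form inequality
-/

set_option autoImplicit false

namespace Pool.Agent.FR

open MvPolynomial

variable {s : ℕ} {k a : Fin (s + 3) → ℕ} {d : ℕ} {K : Type} [Field K] [Algebra ℂ K]

/-- The constant of the logarithmic form inequality. -/
noncomputable def eps (F : FD s k K) (B : Module.Basis (Fin (s + 2)) K (Derivation ℂ K K))
    (D : DVal K) (j₀ : Fin (s + 3)) : ℤ :=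
  kord B D + 1 + k j₀ * D.v (F.X j₀) - ∑ j, D.v (F.X j)

theorem eps_nonneg (hw : Wt s k a d) (F : FD s k K)
    (B : Module.Basis (Fin (s + 2)) K (Derivation ℂ K K)) (hB : IsOmega F B) (D : DVal K)
    (j₀ : Fin (s + 3)) : 0 ≤ eps F B D j₀ := by
  have h := log_form B D (fun i => F.X (j₀.succAbove i)) (fun i => F.X_ne hw _)
    (jac_X_ne hw F B hB j₀)
  rw [v_jac_X hw F B hB D j₀] at h
  unfold eps
  rw [Fin.sum_univ_succAbove _ j₀]
  linarith

/-- A dual derivation lowers the order by at most `D.v (u l) + eps`. -/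
theorem dual_ge (hw : Wt s k a d) (F : FD s k K)
    (B : Module.Basis (Fin (s + 2)) K (Derivation ℂ K K)) (hB : IsOmega F B) (D : DVal K)
    (j₀ : Fin (s + 3)) (dd : Fin (s + 2) → Derivation ℂ K K)
    (hdd : ∀ l m, dd l (F.X (j₀.succAbove m)) = if l = m then 1 else 0) (l : Fin (s + 2)) (h : K)
    (h0 : h ≠ 0) (h1 : dd l h ≠ 0) :
    D.v h - (D.v (F.X (j₀.succAbove l)) + eps F B D j₀) ≤ D.v (dd l h) := by
  set u : Fin (s + 2) → K := fun i => F.X (j₀.succAbove i) with hu
  have hj := jac_X_ne hw F B hB j₀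
  have h2 : jac B (Function.update u l h) = dd l h * jac B u := F.jac_update hw B j₀ dd hdd l h
  have h3 : jac B (Function.update u l h) ≠ 0 := by
    rw [h2]
    exact mul_ne_zero h1 hj
  have h4 := log_form B D (Function.update u l h) (fun i => by
    by_cases hi : i = l
    · rw [hi, Function.update_self]; exact h0
    · rw [Function.update_of_ne hi]; exact F.X_ne hw _) h3
  rw [h2, D.mul _ _ h1 hj, v_jac_X hw F B hB D j₀] at h4
  have h5 : ∑ j, D.v (Function.update u l h j) = D.v h - D.v (u l) + ∑ j, D.v (u j) := by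
    rw [← Finset.add_sum_erase _ _ (Finset.mem_univ l), Function.update_self,
      ← Finset.add_sum_erase Finset.univ (fun j => D.v (u j)) (Finset.mem_univ l)]
    have h6 : ∑ x ∈ Finset.univ.erase l, D.v (Function.update u l h x) =
        ∑ x ∈ Finset.univ.erase l, D.v (u x) := by
      refine Finset.sum_congr rfl fun i hi => ?_
      rw [Function.update_of_ne (Finset.mem_erase.1 hi).1]
    rw [h6]
    ring
  rw [h5] at h4
  have h7 : ∑ j, D.v (F.X j) = D.v (F.X j₀) + ∑ i, D.v (u i) := Fin.sum_univ_succAbove _ j₀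
  have h8 : D.v (F.X (j₀.succAbove l)) = D.v (u l) := rfl
  unfold eps
  rw [h7, h8]
  linarith

theorem coeff_pderiv_sub {m : ℕ} (Q : MvPolynomial (Fin m) ℂ) (l : Fin m) (γ : Fin m →₀ ℕ)
    : (pderiv l Q).coeff γ = (γ l + 1 : ℂ) * Q.coeff (γ + Finsupp.single l 1) := by
  induction Q using MvPolynomial.induction_on' with
  | monomial β c =>
    rw [pderiv_monomial, coeff_monomial, coeff_monomial]
    by_cases h : β = γ + Finsupp.single l 1
    · subst h
      simp
      ring
    · rw [if_neg h, mul_zero]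
      split_ifs with h1
      · have h2 : β l = 0 := by
          by_contra h3
          apply h
          rw [← h1]
          ext i
          by_cases hi : i = l
          · subst hi; simp; omega
          · simp [Finsupp.single_apply, Ne.symm hi]
        rw [h2]; simp
      · rfl
  | add p q hp hq => rw [map_add, coeff_add, coeff_add, hp, hq]; ring

/-- The order of a polynomial in the coordinates other than `X j₀` is bounded by any maximal
monomial. -/
theorem top_bound (hw : Wt s k a d) (F : FD s k K)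
    (B : Module.Basis (Fin (s + 2)) K (Derivation ℂ K K)) (hB : IsOmega F B) (D : DVal K)
    (j₀ : Fin (s + 3)) (Q : MvPolynomial (Fin (s + 2)) ℂ) (γ : Fin (s + 2) →₀ ℕ)
    (hγ : γ ∈ Q.support) (hmax : ∀ γ' ∈ Q.support, γ ≤ γ' → γ' = γ) :
    D.v (aeval (fun i => F.X (j₀.succAbove i)) Q) ≤
      ∑ l, (γ l : ℤ) * (D.v (F.X (j₀.succAbove l)) + eps F B D j₀) := by
  obtain ⟨dd, hdd⟩ := F.exists_dual hw j₀
  obtain ⟨n, hn⟩ : ∃ n, ∑ l, γ l = n := ⟨_, rfl⟩
  induction n generalizing Q γ with
  | zero =>
    have h1 : γ = 0 := by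
      ext l
      exact (Finset.sum_eq_zero_iff.1 hn) l (Finset.mem_univ l)
    subst h1
    have h2 : Q = C (Q.coeff 0) := by
      ext γ'
      rw [coeff_C]
      split_ifs with h
      · rw [h]
      · by_contra h3
        exact h (hmax γ' (mem_support_iff.2 h3) (zero_le)).symm
    have h3 : Q.coeff 0 ≠ 0 := mem_support_iff.1 hγ
    rw [h2, aeval_C, D.const _ h3]
    simp
  | succ n ih =>
    obtain ⟨l, hl⟩ : ∃ l, 0 < γ l := by
      by_contra hcon
      push Not at hcon
      have : ∑ l, γ l = 0 := Finset.sum_eq_zero fun l _ => Nat.le_zero.1 (hcon l)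
      omega
    set γ₁ : Fin (s + 2) →₀ ℕ := γ - Finsupp.single l 1 with hγ₁
    have hγ2 : γ₁ + Finsupp.single l 1 = γ := by
      ext i
      by_cases hi : i = l
      · subst hi; simp [hγ₁]; omega
      · simp [hγ₁, Finsupp.single_apply, Ne.symm hi]
    have hne : ∀ m : ℕ, (m + 1 : ℂ) ≠ 0 := fun m => by exact_mod_cast Nat.succ_ne_zero m
    have hs1 : γ₁ ∈ (pderiv l Q).support := by
      rw [mem_support_iff, coeff_pderiv_sub, hγ2]
      exact mul_ne_zero (hne _) (mem_support_iff.1 hγ)
    have hm1 : ∀ γ' ∈ (pderiv l Q).support, γ₁ ≤ γ' → γ' = γ₁ := by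
      intro γ' h' hle
      rw [mem_support_iff, coeff_pderiv_sub] at h'
      have h3 : γ' + Finsupp.single l 1 ∈ Q.support := mem_support_iff.2 (right_ne_zero_of_mul h')
      have h4 := hmax _ h3 (by rw [← hγ2]; gcongr)
      rw [← hγ2] at h4
      exact add_right_cancel h4
    have hsum : ∑ i, γ i = ∑ i, γ₁ i + 1 := by
      rw [← hγ2]
      simp only [Finsupp.add_apply, Finset.sum_add_distrib]
      congr 1
      rw [Finset.sum_eq_single l] <;> simp +contextual [Finsupp.single_apply, eq_comm]
    have h5 := ih (pderiv l Q) γ₁ hs1 hm1 (by omega)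
    set u : Fin (s + 2) → K := fun i => F.X (j₀.succAbove i) with hu
    have h6 : dd l (aeval u Q) = aeval u (pderiv l Q) := by
      rw [der_aeval, Finset.sum_eq_single l]
      · rw [hu]; simp only [hdd, if_true, mul_one]
      · intro i _ hi
        rw [hu]; simp only [hdd, if_neg (Ne.symm hi), mul_zero]
      · intro h; exact absurd (Finset.mem_univ l) h
    have hQ0 : aeval u Q ≠ 0 := indep_of_dual u dd hdd Q (by
      rintro rfl; simp at hγ)
    have hQ1 : aeval u (pderiv l Q) ≠ 0 := indep_of_dual u dd hdd _ (by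
      intro h0; rw [h0] at hs1; simp at hs1)
    have h7 := dual_ge hw F B hB D j₀ dd hdd l (aeval u Q) hQ0 (by rwa [h6])
    rw [h6] at h7
    have h8 : ∑ i, (γ i : ℤ) * (D.v (F.X (j₀.succAbove i)) + eps F B D j₀) =
        ∑ i, (γ₁ i : ℤ) * (D.v (F.X (j₀.succAbove i)) + eps F B D j₀) +
          (D.v (F.X (j₀.succAbove l)) + eps F B D j₀) := by
      conv_lhs => rw [← hγ2]
      simp only [Finsupp.add_apply, Nat.cast_add, add_mul, Finset.sum_add_distrib]
      congr 1
      rw [Finset.sum_eq_single l]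
      · simp
      · intro i _ hi; simp [Finsupp.single_apply, Ne.symm hi]
      · intro h; exact absurd (Finset.mem_univ l) h
    rw [h8]
    linarith

end Pool.Agent.FR
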