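import Pool.Agent.FR.DimA
import Pool.Agent.FR.Super

/-!
# The volume function of the divisor at infinity
-/

set_option autoImplicit false

namespace Pool.Agent.FR

open MvPolynomial
open scoped Classical

variable {K : Type} [Field K] [Algebra ℂ K]

private theorem hA_zero : hA aa 0 = 1 := by
  have hpos : ∀ i, 0 < aa i := by decide
  have h : {γ : Fin (7 + 3) → ℕ | γ 0 < 2 ∧ ∑ i, γ i * aa i ≤ 0} = {0} := by
    ext γ
    simp only [Set.mem_setOf_eq, Set.mem_singleton_iff, nonpos_iff_eq_zero, Finset.sum_eq_zero_iff,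
      Finset.mem_univ, forall_true_left]
    constructor
    · rintro ⟨-, h⟩
      funext i
      have := h i
      rcases Nat.mul_eq_zero.1 this with h' | h'
      · simpa using h'
      · exact absurd h' (hpos i).ne'
    · rintro rfl
      refine ⟨by simp, fun i => by simp⟩
  unfold hA
  rw [h, Set.ncard_singleton]

private theorem lim_floor (g : ℕ → ℝ) (c : ℝ)
    (hg : Filter.Tendsto (fun j : ℕ => g j / (j : ℝ) ^ 9) Filter.atTop (nhds c)) (r : ℝ)
    (hr : 0 < r) :
    Filter.Tendsto (fun m : ℕ => g ⌊(m : ℝ) * r⌋₊ / (m : ℝ) ^ 9) Filter.atTop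
      (nhds (c * r ^ 9)) := by
  have h1 : Filter.Tendsto (fun m : ℕ => ⌊(m : ℝ) * r⌋₊) Filter.atTop Filter.atTop :=
    tendsto_nat_floor_atTop.comp
      (Filter.Tendsto.atTop_mul_const hr tendsto_natCast_atTop_atTop)
  have h2 := hg.comp h1
  have h3 : Filter.Tendsto (fun m : ℕ => (⌊(m : ℝ) * r⌋₊ : ℝ) / (m : ℝ)) Filter.atTop
      (nhds r) := by
    have h := (tendsto_nat_floor_mul_div_atTop (R := ℝ) (a := r) hr.le).comp
      (tendsto_natCast_atTop_atTop (R := ℝ))
    refine h.congr fun m => ?_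
    simp only [Function.comp_apply, mul_comm]
  have h4 := h2.mul (h3.pow 9)
  refine h4.congr' ?_
  filter_upwards [h1.eventually (Filter.eventually_gt_atTop 0), Filter.eventually_gt_atTop 0]
    with m hm hm'
  have e1 : ((⌊(m : ℝ) * r⌋₊ : ℕ) : ℝ) ≠ 0 := by positivity
  have e2 : (m : ℝ) ≠ 0 := by positivity
  simp only [Function.comp_apply]
  field_simp

section Vol
variable (F : FD 7 kk K) (B : Module.Basis (Fin 9) K (Derivation ℂ K K)) (E : DVal K)
  (hE : IsDeg F aa E) (X : Model (⊤ : IntermediateField ℂ K)) (hX : IsSuper B X E 11)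
  (hr : ∀ h : K, h ≠ 0 → ((∀ D, IsPrimeDiv X D → D ≠ E → 0 ≤ D.v h) ↔ h ∈ F.A))
  (hd : ∀ j : ℕ, Module.finrank ℂ
    (Submodule.span ℂ {h : K | h ∈ F.A ∧ h ≠ 0 ∧ -(j : ℤ) ≤ E.v h}) = hA aa j)

include hX hr in
private theorem sections_eq (m : ℕ) (t : ℝ) (ht0 : 0 ≤ t) :
    sections B X E 1 m t =
      Submodule.span ℂ {h : K | h ∈ F.A ∧ h ≠ 0 ∧ (m : ℝ) * (t - 11) ≤ E.v h} := by
  unfold sections
  congr 1
  ext h
  simp only [Set.mem_setOf_eq]
  have hk : ((kord B E : ℤ) : ℝ) = -11 := by rw [hX.kordE]; norm_num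
  rw [hk]
  constructor
  · rintro ⟨h0, h1, h2⟩
    refine ⟨(hr h h0).1 fun D hD hne => ?_, h0, by linarith⟩
    have := h1 D hD
    rw [hX.kord0 D hD hne] at this
    simpa using this
  · rintro ⟨hA', h0, h2⟩
    refine ⟨h0, fun D hD => ?_, by linarith⟩
    by_cases hne : D = E
    · subst hne
      rw [hX.kordE]
      have hm : (0 : ℝ) ≤ (m : ℝ) * t := by positivity
      have : ((m : ℝ) * (-11)) ≤ (D.v h : ℝ) := by linarith
      have h' : (((m : ℤ) * (-(11 : ℕ) : ℤ) : ℤ) : ℝ) ≤ ((D.v h : ℤ) : ℝ) := by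
        push_cast
        exact this
      exact_mod_cast h'
    · rw [hX.kord0 D hD hne, mul_zero]
      exact (hr h h0).2 hA' D hD hne

include hd in
/-- Functions on the affine hypersurface have order at most zero along the divisor at infinity. -/
private theorem ord_nonpos (h : K) (hh : h ∈ F.A) (h0 : h ≠ 0) : E.v h ≤ 0 := by
  by_contra hc
  push Not at hc
  have h1 := hd 0
  rw [hA_zero] at h1
  set S : Submodule ℂ K := Submodule.span ℂ {h : K | h ∈ F.A ∧ h ≠ 0 ∧ -((0 : ℕ) : ℤ) ≤ E.v h}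
    with hS
  have m1 : (1 : K) ∈ S := Submodule.subset_span ⟨F.A.one_mem, one_ne_zero, by rw [E.one]; simp⟩
  have m2 : h ∈ S := Submodule.subset_span ⟨hh, h0, by simpa using hc.le⟩
  obtain ⟨c, hc'⟩ := (finrank_eq_one_iff_of_nonzero' (⟨1, m1⟩ : S) (by
    intro h'
    exact one_ne_zero (congrArg Subtype.val h'))).1 h1 ⟨h, m2⟩
  have e : c • (1 : K) = h := congrArg Subtype.val hc'
  rw [Algebra.smul_def, mul_one] at e
  have hc0 : c ≠ 0 := by
    rintro rfl
    rw [map_zero] at e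
    exact h0 e.symm
  have := E.const c hc0
  rw [e] at this
  omega

include hE hX hr hd in
/-- The dimension of the space of sections of `-m K_X` of order at least `m t` along `E`. -/
theorem finrank_sections (m : ℕ) (t : ℝ) (ht0 : 0 ≤ t) (ht : t ≤ 11) :
    Module.finrank ℂ (sections B X E 1 m t) = hA aa ⌊(m : ℝ) * (11 - t)⌋₊ := by
  rw [sections_eq F B E X hX hr m t ht0, ← hd]
  have hs : {h : K | h ∈ F.A ∧ h ≠ 0 ∧ (m : ℝ) * (t - 11) ≤ E.v h} =
      {h : K | h ∈ F.A ∧ h ≠ 0 ∧ -((⌊(m : ℝ) * (11 - t)⌋₊ : ℕ) : ℤ) ≤ E.v h} := by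
    ext h
    simp only [Set.mem_setOf_eq]
    refine and_congr_right fun _ => and_congr_right fun _ => ?_
    have hnn : (0 : ℝ) ≤ (m : ℝ) * (11 - t) := mul_nonneg (Nat.cast_nonneg _) (by linarith)
    have e : ((⌊(m : ℝ) * (11 - t)⌋₊ : ℕ) : ℤ) = ⌊(m : ℝ) * (11 - t)⌋ :=
      Int.natCast_floor_eq_floor hnn
    rw [e, neg_le, Int.le_floor]
    push_cast
    constructor <;> intro h' <;> linarith
  rw [hs]

include hE hX hr hd in
theorem finrank_sections' (m : ℕ) (hm : 0 < m) (t : ℝ) (ht : 11 < t) :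
    Module.finrank ℂ (sections B X E 1 m t) = 0 := by
  rw [sections_eq F B E X hX hr m t (by linarith)]
  have hs : {h : K | h ∈ F.A ∧ h ≠ 0 ∧ (m : ℝ) * (t - 11) ≤ E.v h} = ∅ := by
    ext h
    simp only [Set.mem_setOf_eq, Set.mem_empty_iff_false, iff_false, not_and, not_le]
    intro hh h0
    have h1 := ord_nonpos F E hd h hh h0
    have h2 : ((E.v h : ℤ) : ℝ) ≤ 0 := by exact_mod_cast h1
    have h3 : (0 : ℝ) < (m : ℝ) * (t - 11) := mul_pos (by exact_mod_cast hm) (by linarith)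
    linarith
  rw [hs, Submodule.span_empty, finrank_bot]

include hE hX hr hd in
theorem vol_eq : ∃ v : ℝ, 0 < v ∧ (∀ t : ℝ, 0 ≤ t → t ≤ 11 → vol B X E 1 t = v * (11 - t) ^ 9) ∧
    ∀ t : ℝ, 11 < t → vol B X E 1 t = 0 := by
  obtain ⟨c, hc, hlim⟩ := tendsto_hA wt
  refine ⟨(Nat.factorial 9 : ℝ) * c, by positivity, fun t h0 h1 => ?_, fun t ht => ?_⟩
  · unfold vol
    apply Filter.Tendsto.limsup_eq
    have hfin : ∀ m : ℕ, (Module.finrank ℂ (sections B X E 1 m t) : ℝ) =
        (hA aa ⌊(m : ℝ) * (11 - t)⌋₊ : ℝ) := fun m => by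
      rw [finrank_sections F B E hE X hX hr hd m t h0 h1]
    rcases h1.lt_or_eq with h | h
    · have hl := (lim_floor (fun j => (hA aa j : ℝ)) c hlim (11 - t) (by linarith)).const_mul
        (Nat.factorial 9 : ℝ)
      rw [mul_assoc]
      refine hl.congr fun m => ?_
      rw [hfin m]
      ring
    · subst h
      have : Filter.Tendsto (fun m : ℕ => (Nat.factorial 9 : ℝ) / (m : ℝ) ^ 9) Filter.atTop
          (nhds 0) :=
        Filter.Tendsto.div_atTop tendsto_const_nhds
          ((Filter.tendsto_pow_atTop (by norm_num)).comp tendsto_natCast_atTop_atTop)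
      have hz : (Nat.factorial 9 : ℝ) * c * (11 - 11) ^ 9 = 0 := by norm_num
      rw [hz]
      refine this.congr fun m => ?_
      rw [hfin m]
      norm_num [hA_zero]
  · unfold vol
    apply Filter.Tendsto.limsup_eq
    refine tendsto_const_nhds.congr' ?_
    filter_upwards [Filter.eventually_gt_atTop 0] with m hm
    rw [finrank_sections' F B E hE X hX hr hd m hm t ht]
    simp

end Vol

end Pool.Agent.FR
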