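import Pool.Agent.FR.XDefs

/-!
# The charts of the model (project FR, X10)
-/

set_option autoImplicit false

namespace Pool.Agent.FR

open MvPolynomial
open scoped Classical

variable {s : ℕ} {k a : Fin (s + 3) → ℕ} {d : ℕ} {K : Type} [Field K] [Algebra ℂ K]

theorem exists_mon (F : FD s k K) (ha : ∀ j, 0 < a j) (W : ℕ) :
    ∃ (N : ℕ) (g : Fin (N + 1) → K), IsMon F a W g ∧ g 0 = 1 := by
  set S : Finset (Fin (s + 3) → ℕ) :=
    (Fintype.piFinset fun _ => Finset.range (W + 1)).filter fun e => ∑ j, e j * a j ≤ W with hS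
  have hmem : ∀ e : Fin (s + 3) → ℕ, e ∈ S ↔ ∑ j, e j * a j ≤ W := by
    intro e
    rw [hS, Finset.mem_filter, Fintype.mem_piFinset]
    refine ⟨fun h => h.2, fun h => ⟨fun j => ?_, h⟩⟩
    rw [Finset.mem_range]
    have h1 : e j * a j ≤ ∑ j, e j * a j :=
      Finset.single_le_sum (f := fun j => e j * a j) (fun _ _ => Nat.zero_le _)
        (Finset.mem_univ j)
    have h2 : e j ≤ e j * a j := Nat.le_mul_of_pos_right _ (ha j)
    omega
  refine ⟨S.card, Fin.cons 1 fun i => ∏ j, F.X j ^ ((S.equivFin.symm i : Fin (s + 3) → ℕ) j),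
    ?_, Fin.cons_zero _ _⟩
  rw [IsMon]
  ext x
  constructor
  · rintro ⟨i, rfl⟩
    induction i using Fin.cases with
    | zero => exact ⟨0, by simp, by simp⟩
    | succ i =>
      exact ⟨(S.equivFin.symm i : Fin (s + 3) → ℕ), (hmem _).1 (S.equivFin.symm i).2, by simp⟩
  · rintro ⟨e, he, rfl⟩
    refine ⟨(S.equivFin ⟨e, (hmem e).2 he⟩).succ, ?_⟩
    rw [Fin.cons_succ, Equiv.symm_apply_apply]

omit [Algebra ℂ K] in
/-- Powers in a valuation ring. -/
theorem mem_of_pow_mem (V : ValuationSubring K) {n : ℕ} (hn : 0 < n) {y : K} (h : y ^ n ∈ V) :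
    y ∈ V := by
  rcases V.mem_or_inv_mem y with h1 | h1
  · exact h1
  by_cases h0 : y = 0
  · rw [h0]; exact zero_mem V
  obtain ⟨m, rfl⟩ := Nat.exists_eq_succ_of_ne_zero hn.ne'
  have h2 : y = y ^ (m + 1) * (y⁻¹) ^ m := by
    rw [inv_pow, pow_succ']
    field_simp
  rw [h2]
  exact mul_mem h (pow_mem h1 m)

theorem IsMon.exists_eq {F : FD s k K} {W N : ℕ} {g : Fin (N + 1) → K} (hg : IsMon F a W g)
    (l : Fin (N + 1)) : ∃ e : Fin (s + 3) → ℕ, ∑ j, e j * a j ≤ W ∧ g l = ∏ j, F.X j ^ e j := by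
  have h : g l ∈ Set.range g := ⟨l, rfl⟩
  rw [hg] at h
  exact h

theorem IsMon.exists_index {F : FD s k K} {W N : ℕ} {g : Fin (N + 1) → K} (hg : IsMon F a W g)
    (e : Fin (s + 3) → ℕ) (he : ∑ j, e j * a j ≤ W) : ∃ l, g l = ∏ j, F.X j ^ e j := by
  have h : (∏ j, F.X j ^ e j) ∈ Set.range g := by
    rw [hg]
    exact ⟨e, he, rfl⟩
  exact h

section chart
variable (hw : Wt s k a d) (F : FD s k K) {W N : ℕ} {g : Fin (N + 1) → K}
include hw

theorem adjoin_inside (hg : IsMon F a W g) (hW : ∀ j, a j ≤ W) (i : Fin (N + 1))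
    (hi : g i = 1) : chart g i = F.A := by
  have _ := hw
  have hX : ∀ j, F.X j ∈ F.A := fun j => ⟨MvPolynomial.X j, aeval_X _ _⟩
  apply le_antisymm
  · apply Algebra.adjoin_le
    rintro _ ⟨j, rfl⟩
    obtain ⟨e, -, he⟩ := hg.exists_eq j
    simp only [hi, div_one]
    rw [he]
    exact prod_mem fun l _ => pow_mem (hX l) _
  · rw [FD.A, ← Algebra.adjoin_range_eq_range_aeval]
    apply Algebra.adjoin_le
    rintro _ ⟨j, rfl⟩
    obtain ⟨l, hl⟩ := hg.exists_index (Pi.single j 1) (by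
      rw [Finset.sum_eq_single j]
      · simpa using hW j
      · intro b _ hb
        simp [Pi.single_eq_of_ne hb]
      · intro h
        exact absurd (Finset.mem_univ j) h)
    apply Algebra.subset_adjoin
    refine ⟨l, ?_⟩
    simp only [hi, div_one]
    rw [hl, Finset.prod_eq_single j]
    · simp
    · intro b _ hb
      simp [Pi.single_eq_of_ne hb]
    · intro h
      exact absurd (Finset.mem_univ j) h

theorem inside_chart (hg : IsMon F a W g) (V : ValuationSubring K) (hV : IsPlace V)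
    (h : ∀ j, F.X j ∈ V) (l : Fin (N + 1)) : g l ∈ V := by
  have _ := hw
  have _ := hV
  obtain ⟨e, -, he⟩ := hg.exists_eq l
  rw [he]
  exact prod_mem fun l _ => pow_mem (h l) _

theorem inf_chart {T : ℕ} (hg : IsMon F a (d * T) g) (V : ValuationSubring K)
    (hV : IsPlace V) (j : Fin (s + 3)) (h : AtInf F V j) (l : Fin (N + 1)) :
    g l / F.X j ^ (k j * T) ∈ V := by
  have _ := hV
  obtain ⟨e, he, hl⟩ := hg.exists_eq l
  have hX0 : F.X j ≠ 0 := F.X_ne hw j
  have hinv : (F.X j ^ k j)⁻¹ ∈ V := by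
    rw [← inv_pow]
    exact pow_mem ((V.mem_or_inv_mem (F.X j)).resolve_left h.1) _
  apply mem_of_pow_mem V hw.hd
  obtain ⟨c, hc⟩ := Nat.exists_eq_add_of_le he
  have h1 : (g l / F.X j ^ (k j * T)) ^ d =
      (∏ i, (F.X i ^ k i / F.X j ^ k j) ^ (e i * a i)) * ((F.X j ^ k j)⁻¹) ^ c := by
    have h2 : ∏ i, (F.X i ^ k i / F.X j ^ k j) ^ (e i * a i) =
        (∏ i, F.X i ^ e i) ^ d / (F.X j ^ k j) ^ (∑ i, e i * a i) := by
      rw [← Finset.prod_pow, ← Finset.prod_pow_eq_pow_sum, ← Finset.prod_div_distrib]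
      refine Finset.prod_congr rfl fun i _ => ?_
      rw [div_pow, ← pow_mul, ← pow_mul (F.X i)]
      congr 2
      rw [← hw.ka i]
      ring
    rw [h2, hl, div_pow, inv_pow, ← div_eq_mul_inv, div_div, ← pow_add, ← hc, ← pow_mul,
      ← pow_mul]
    congr 2
    ring
  rw [h1]
  exact mul_mem (prod_mem fun i _ => pow_mem (h.2 i) _) (pow_mem hinv c)

end chart

end Pool.Agent.FR
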