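import Pool.Agent.FR.Super
import Pool.Agent.FR.Omega

/-!
# Definitions of block X (the hypersurface as a `Model`)
-/

set_option autoImplicit false

namespace Pool.Agent.FR

open MvPolynomial

variable {s : ℕ} {k a : Fin (s + 3) → ℕ} {K : Type} [Field K] [Algebra ℂ K]

/-- The image of the family `g` is the set of all monomials of weight at most `W`. -/
def IsMon (F : FD s k K) (a : Fin (s + 3) → ℕ) (W : ℕ) {N : ℕ} (g : Fin (N + 1) → K) : Prop :=
  Set.range g = {x | ∃ e : Fin (s + 3) → ℕ, ∑ j, e j * a j ≤ W ∧ x = ∏ j, F.X j ^ e j}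

/-- The chart at infinity `X j ≠ 0`: all elements `p / X j ^ n`, `p` in the coordinate ring, of
nonnegative order along `E`. -/
def FD.infRing (F : FD s k K) (E : DVal K) (j : Fin (s + 3)) : Subalgebra ℂ K where
  carrier := {x | 0 ≤ E.v x ∧ ∃ n : ℕ, x * F.X j ^ n ∈ F.A}
  mul_mem' := by
    rintro x y ⟨hx, n, hn⟩ ⟨hy, m, hm⟩
    refine ⟨?_, n + m, ?_⟩
    · exact E.mem_ring'.1 (E.ring.mul_mem _ _ (E.mem_ring'.2 hx) (E.mem_ring'.2 hy))
    · have h := F.A.mul_mem hn hm
      have h' : x * y * F.X j ^ (n + m) = x * F.X j ^ n * (y * F.X j ^ m) := by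
        rw [pow_add]; ring
      rwa [h']
  add_mem' := by
    rintro x y ⟨hx, n, hn⟩ ⟨hy, m, hm⟩
    refine ⟨?_, n + m, ?_⟩
    · exact E.mem_ring'.1 (E.ring.add_mem _ _ (E.mem_ring'.2 hx) (E.mem_ring'.2 hy))
    · have hX : F.X j ∈ F.A := ⟨MvPolynomial.X j, by simp⟩
      have h := F.A.add_mem (F.A.mul_mem hn (F.A.pow_mem hX m))
        (F.A.mul_mem hm (F.A.pow_mem hX n))
      have h' : (x + y) * F.X j ^ (n + m) =
          x * F.X j ^ n * F.X j ^ m + y * F.X j ^ m * F.X j ^ n := by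
        rw [pow_add]; ring
      rwa [h']
  algebraMap_mem' := by
    intro c
    refine ⟨E.mem_ring'.1 (E.isPlace c), 0, ?_⟩
    rw [pow_zero, mul_one]
    exact F.A.algebraMap_mem c

/-- The localisation of `R` at the elements which are units of `V`. -/
def loc (R : Subalgebra ℂ K) (V : ValuationSubring K) : Set K :=
  {x | ∃ p ∈ R, ∃ q ∈ R, q ≠ 0 ∧ q⁻¹ ∈ V ∧ x = p / q}

/-- The centre of `V` is at infinity, in the chart `X j ≠ 0`. -/
def AtInf (F : FD s k K) (V : ValuationSubring K) (j : Fin (s + 3)) : Prop :=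
  F.X j ∉ V ∧ ∀ i, F.X i ^ k i / F.X j ^ k j ∈ V

/-- `D` is the order along the prime divisor `π = 0` of the affine hypersurface. -/
structure IsOrd (F : FD s k K) (π : F.A) (D : DVal K) : Prop where
  nonneg : ∀ h : F.A, h ≠ 0 → 0 ≤ D.v (h : K)
  pos : ∀ h : F.A, h ≠ 0 → (0 < D.v (h : K) ↔ π ∣ h)
  one : D.v (π : K) = 1

/-- The local rings of `X` are those of the weighted projective hypersurface. -/
structure IsCharts (F : FD s k K) (E : DVal K) (X : Model (⊤ : IntermediateField ℂ K)) :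
    Prop where
  inside : ∀ V : ValuationSubring K, IsPlace V → (∀ j, F.X j ∈ V) → locRing X.g V = loc F.A V
  inf : ∀ (V : ValuationSubring K) (j : Fin (s + 3)), IsPlace V → AtInf F V j →
    locRing X.g V = loc (F.infRing E j) V

end Pool.Agent.FR
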