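import Mathlib

/-!
Weighted leading forms of polynomials (row X1 of project FR, MP_c0959a_ag).
-/

set_option autoImplicit false

namespace Pool.Agent.FR

open MvPolynomial
open scoped Classical

section XPoly
variable {σ : Type} [Fintype σ] (a : σ → ℕ)

/-- The substitution `X j ↦ X j * t ^ a j`. -/
noncomputable def wsub : MvPolynomial σ ℂ →ₐ[ℂ] Polynomial (MvPolynomial σ ℂ) :=
  aeval fun j => Polynomial.C (X j) * Polynomial.X ^ a j

/-- The leading form of `P` for the weights `a`. -/
noncomputable def wtop (P : MvPolynomial σ ℂ) : MvPolynomial σ ℂ := (wsub a P).leadingCoeff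

private theorem wsub_monomial (e : σ →₀ ℕ) (c : ℂ) :
    wsub a (monomial e c) =
      Polynomial.C (monomial e c) * Polynomial.X ^ (Finsupp.weight a e) := by
  have h1 : (e.prod fun i k => (Polynomial.C (X i : MvPolynomial σ ℂ) * Polynomial.X ^ a i) ^ k)
      = Polynomial.C (e.prod fun i k => (X i : MvPolynomial σ ℂ) ^ k)
        * Polynomial.X ^ (Finsupp.weight a e) := by
    rw [Finsupp.weight_apply, Finsupp.prod, Finsupp.prod, Finsupp.sum, map_prod,
      ← Finset.prod_pow_eq_pow_sum, ← Finset.prod_mul_distrib]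
    refine Finset.prod_congr rfl fun i _ => ?_
    rw [mul_pow, map_pow, ← pow_mul, smul_eq_mul, mul_comm (a i)]
  rw [wsub, aeval_monomial, h1, monomial_eq, map_mul, mul_assoc]
  rfl

theorem coeff_wsub (P : MvPolynomial σ ℂ) (n : ℕ) (e : σ →₀ ℕ) :
    ((wsub a P).coeff n).coeff e = if Finsupp.weight a e = n then P.coeff e else 0 := by
  induction P using MvPolynomial.induction_on' with
  | monomial u c =>
    rw [wsub_monomial, Polynomial.coeff_C_mul, Polynomial.coeff_X_pow, mul_ite, mul_one, mul_zero]
    by_cases hn : n = Finsupp.weight a u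
    · rw [if_pos hn, coeff_monomial]
      by_cases hu : u = e
      · rw [if_pos hu, if_pos (by rw [← hu, hn])]
      · rw [if_neg hu, ite_self]
    · rw [if_neg hn, coeff_zero, coeff_monomial]
      by_cases hu : u = e
      · rw [if_neg (by rw [← hu]; exact fun h => hn h.symm)]
      · rw [if_neg hu, ite_self]
  | add p q hp hq =>
    rw [map_add, Polynomial.coeff_add, coeff_add, hp, hq, coeff_add]
    split_ifs
    · rfl
    · rw [add_zero]

theorem natDegree_wsub (P : MvPolynomial σ ℂ) :
    (wsub a P).natDegree = weightedTotalDegree a P := by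
  apply le_antisymm
  · rw [Polynomial.natDegree_le_iff_coeff_eq_zero]
    intro n hn
    ext e
    rw [coeff_wsub, coeff_zero]
    split_ifs with h
    · by_contra hc
      have := le_weightedTotalDegree a (mem_support_iff.mpr hc)
      omega
    · rfl
  · refine Finset.sup_le fun e he => ?_
    apply Polynomial.le_natDegree_of_ne_zero
    intro h0
    have h := coeff_wsub a P (Finsupp.weight a e) e
    rw [h0, if_pos rfl, coeff_zero] at h
    exact mem_support_iff.mp he h.symm

theorem coeff_wtop (P : MvPolynomial σ ℂ) (e : σ →₀ ℕ) :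
    (wtop a P).coeff e = if Finsupp.weight a e = weightedTotalDegree a P then P.coeff e else 0 := by
  rw [wtop, Polynomial.leadingCoeff, coeff_wsub, natDegree_wsub]

private theorem wsub_ne_zero {P : MvPolynomial σ ℂ} (h : P ≠ 0) : wsub a P ≠ 0 := by
  intro h0
  apply h
  ext e
  have h1 := coeff_wsub a P (Finsupp.weight a e) e
  rw [h0, if_pos rfl, Polynomial.coeff_zero, coeff_zero] at h1
  rw [← h1, coeff_zero]

theorem wtop_ne_zero {P : MvPolynomial σ ℂ} (h : P ≠ 0) : wtop a P ≠ 0 :=
  Polynomial.leadingCoeff_ne_zero.mpr (wsub_ne_zero a h)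

theorem wtop_mul (P Q : MvPolynomial σ ℂ) : wtop a (P * Q) = wtop a P * wtop a Q := by
  rw [wtop, map_mul, Polynomial.leadingCoeff_mul]
  rfl

theorem wdeg_mul {P Q : MvPolynomial σ ℂ} (hP : P ≠ 0) (hQ : Q ≠ 0) :
    weightedTotalDegree a (P * Q) = weightedTotalDegree a P + weightedTotalDegree a Q := by
  rw [← natDegree_wsub, ← natDegree_wsub, ← natDegree_wsub, map_mul,
    Polynomial.natDegree_mul (wsub_ne_zero a hP) (wsub_ne_zero a hQ)]

theorem wdeg_add_le (P Q : MvPolynomial σ ℂ) :
    weightedTotalDegree a (P + Q) ≤ max (weightedTotalDegree a P) (weightedTotalDegree a Q) := by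
  rw [← natDegree_wsub, ← natDegree_wsub, ← natDegree_wsub, map_add]
  exact Polynomial.natDegree_add_le _ _

theorem wdeg_sub_le (P Q : MvPolynomial σ ℂ) :
    weightedTotalDegree a (P - Q) ≤ max (weightedTotalDegree a P) (weightedTotalDegree a Q) := by
  rw [← natDegree_wsub, ← natDegree_wsub, ← natDegree_wsub, map_sub]
  exact Polynomial.natDegree_sub_le _ _

theorem wtop_sub_of_lt {P Q : MvPolynomial σ ℂ}
    (h : weightedTotalDegree a Q < weightedTotalDegree a P) : wtop a (P - Q) = wtop a P := by
  rw [wtop, map_sub, Polynomial.leadingCoeff_sub_of_degree_lt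
    (Polynomial.degree_lt_degree (by rw [natDegree_wsub, natDegree_wsub]; exact h))]
  rfl

theorem degreeOf_wtop_le (j : σ) (P : MvPolynomial σ ℂ) :
    degreeOf j (wtop a P) ≤ degreeOf j P := by
  rw [degreeOf_le_iff]
  intro m hm
  have hm' := mem_support_iff.mp hm
  rw [coeff_wtop] at hm'
  have h2 : P.coeff m ≠ 0 := by
    intro h0
    rw [h0, ite_self] at hm'
    exact hm' rfl
  exact (degreeOf_le_iff.mp le_rfl) m (mem_support_iff.mpr h2)

private theorem wdeg_single (j : σ) (P : MvPolynomial σ ℂ) :
    weightedTotalDegree (Pi.single j 1) P = degreeOf j P := by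
  rw [weightedTotalDegree, degreeOf_eq_sup]
  refine Finset.sup_congr rfl fun e _ => ?_
  rw [Finsupp.weight_apply, Finsupp.sum_fintype _ _ (fun i => by rw [zero_smul])]
  rw [Finset.sum_eq_single j]
  · rw [Pi.single_eq_same, smul_eq_mul, mul_one]
  · intro i _ hi
    rw [Pi.single_eq_of_ne hi, smul_zero]
  · intro hj
    exact absurd (Finset.mem_univ j) hj

theorem degreeOf_mul' (j : σ) {P Q : MvPolynomial σ ℂ} (hP : P ≠ 0) (hQ : Q ≠ 0) :
    degreeOf j (P * Q) = degreeOf j P + degreeOf j Q := by
  rw [← wdeg_single, ← wdeg_single, ← wdeg_single, wdeg_mul _ hP hQ]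

theorem wdeg_monomial (e : σ →₀ ℕ) {c : ℂ} (hc : c ≠ 0) :
    weightedTotalDegree a (monomial e c) = Finsupp.weight a e := by
  rw [weightedTotalDegree, support_monomial, if_neg hc, Finset.sup_singleton]

end XPoly

end Pool.Agent.FR
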