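import Pool.Agent.FR.XBasic

/-!
# Local equations on the model of the hypersurface (prime divisors of `X` as a hypothesis)
-/

set_option autoImplicit false

namespace Pool.Agent.FR

open MvPolynomial
open scoped Classical

variable {s : ℕ} {k a : Fin (s + 3) → ℕ} {d : ℕ} {K : Type} [Field K] [Algebra ℂ K]

section prime
variable (hw : Wt s k a d) {F : FD s k K} {E : DVal K} (hE : IsDeg F a E)
  {X : Model (⊤ : IntermediateField ℂ K)} (hX : IsCharts F E X)
include hw hE hX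

theorem not_through_E (V : ValuationSubring K) (hV : IsPlace V) (h : ∀ j, F.X j ∈ V) :
    ¬ Through X V E := by
  rintro ⟨-, hsub⟩
  rw [hX.inside V hV h] at hsub
  have h1 : F.X 0 ∈ loc F.A V :=
    ⟨F.X 0, F.X_mem 0, 1, F.A.one_mem, one_ne_zero, by rw [inv_one]; exact V.one_mem,
      (div_one _).symm⟩
  have h2 := E.mem_ring'.1 (hsub h1)
  rw [hE.v_X hw] at h2
  have h3 := hw.a_pos 0
  omega

theorem through_inf_aux
    (hpc : ∀ D : DVal K, IsPrimeDiv X D → D = E ∨ ∃ π : F.A, Prime π ∧ IsOrd F π D)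
    (V : ValuationSubring K) (hV : IsPlace V) (j : Fin (s + 3))
    (h : AtInf F V j) {D : DVal K} (hD : Through X V D) (hDE : D ≠ E) : D.v (F.X j) = 0 := by
  obtain ⟨hprime, hsub⟩ := hD
  have hXne : F.X j ≠ 0 := F.X_ne hw j
  have hk := hw.hk j
  obtain ⟨π, -, hord⟩ := (hpc D hprime).resolve_left hDE
  have h1 : 0 ≤ D.v (F.X j) := by
    have := hord.nonneg ⟨F.X j, F.X_mem j⟩ (by
      intro h0
      exact hXne (congrArg Subtype.val h0))
    exact this
  rw [hX.inf V j hV h] at hsub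
  have h2 : (F.X j ^ k j)⁻¹ ∈ loc (F.infRing E j) V := by
    refine ⟨(F.X j ^ k j)⁻¹, ⟨?_, k j, ?_⟩, 1, (F.infRing E j).one_mem, one_ne_zero,
      by rw [inv_one]; exact V.one_mem, (div_one _).symm⟩
    · rw [E.inv (pow_ne_zero _ hXne), E.pow hXne, hE.v_X hw]
      have h3 : (0 : ℤ) ≤ (k j : ℤ) * (a j : ℤ) := by positivity
      linarith
    · rw [inv_mul_cancel₀ (pow_ne_zero _ hXne)]
      exact F.A.one_mem
  have h3 := D.mem_ring'.1 (hsub h2)
  rw [D.inv (pow_ne_zero _ hXne), D.pow hXne] at h3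
  have hk' : (0 : ℤ) < k j := by exact_mod_cast (by omega : 0 < k j)
  by_contra hne
  have h4 : 0 < D.v (F.X j) := lt_of_le_of_ne h1 (Ne.symm hne)
  have := mul_pos hk' h4
  linarith

theorem isLocEq_inside_aux (c : DVal K → ℤ) (f : K) (hf : f ≠ 0)
    (hc : ∀ D, IsPrimeDiv X D → D ≠ E → D.v f = c D) (V : ValuationSubring K) (hV : IsPlace V)
    (h : ∀ j, F.X j ∈ V) : IsLocEq X c V 1 f := by
  refine ⟨one_pos, hf, fun D hD => ?_⟩
  have hDE : D ≠ E := by
    rintro rfl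
    exact not_through_E hw hE hX V hV h hD
  rw [hc D hD.1 hDE, Nat.cast_one, one_mul]

theorem isLocEq_inf_aux
    (hpc : ∀ D : DVal K, IsPrimeDiv X D → D = E ∨ ∃ π : F.A, Prime π ∧ IsOrd F π D)
    (c : DVal K → ℤ) (f : K) (hf : f ≠ 0)
    (hc : ∀ D, IsPrimeDiv X D → D ≠ E → D.v f = c D) (V : ValuationSubring K) (hV : IsPlace V)
    (j : Fin (s + 3)) (h : AtInf F V j) :
    IsLocEq X c V d (f ^ d * F.X j ^ ((k j : ℤ) * (E.v f - c E))) := by
  have hXne : F.X j ≠ 0 := F.X_ne hw j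
  refine ⟨hw.hd, mul_ne_zero (pow_ne_zero _ hf) (zpow_ne_zero _ hXne), fun D hD => ?_⟩
  rw [D.mul _ _ (pow_ne_zero _ hf) (zpow_ne_zero _ hXne), D.pow hf, D.zpow hXne]
  by_cases hDE : D = E
  · subst hDE
    rw [hE.v_X hw]
    have h1 : ((k j : ℤ)) * (a j : ℤ) = d := by exact_mod_cast hw.ka j
    linear_combination -(D.v f - c D) * h1
  · rw [through_inf_aux hw hE hX hpc V hV j h hD hDE, mul_zero, add_zero, hc D hD.1 hDE]

theorem qCartier_of_aux
    (hpc : ∀ D : DVal K, IsPrimeDiv X D → D = E ∨ ∃ π : F.A, Prime π ∧ IsOrd F π D)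
    (c : DVal K → ℤ) (f : K) (hf : f ≠ 0)
    (hc : ∀ D, IsPrimeDiv X D → D ≠ E → D.v f = c D) : QCartier X c := by
  intro V hV
  rcases inside_or hw F V with h | ⟨j, h⟩
  · exact ⟨1, f, isLocEq_inside_aux hw hE hX c f hf hc V hV h⟩
  · exact ⟨d, _, isLocEq_inf_aux hw hE hX hpc c f hf hc V hV j h⟩

end prime

end Pool.Agent.FR
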